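import Pool.Agent.C44.PairGraph

/-!
The accounting inequality of helper52: for every 3-colouring `c` of the pairs and every vertex set `A`
with `|A| <= 4 |V \ A|`
`24 |H| <= sum_i w_i Y_i - sigma M + sum val`.
-/

set_option autoImplicit false

open Finset Classical

namespace Pool.Agent.C44

variable {V : Type} [Fintype V] [DecidableEq V]

/-- both pairs are not inside `A` -/
def Act (A : Finset V) (p q : V × V) : Prop := ¬ (p.1 ∈ A ∧ p.2 ∈ A) ∧ ¬ (q.1 ∈ A ∧ q.2 ∈ A)

/-- price of a monochromatic active matching -/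
noncomputable def mcost (A : Finset V) (c : V × V → Fin 3) (w : Fin 3 → ℝ) (p q : V × V) : ℝ :=
  if Act A p q ∧ c p = c q then w (c p) / 3 else 0

/-- reward of a bichromatic active matching -/
noncomputable def mgain (A : Finset V) (c : V × V → Fin 3) (σ : ℝ) (p q : V × V) : ℝ :=
  if Act A p q ∧ c p ≠ c q then σ / 3 else 0

/-- indicator of `A` -/
noncomputable def al (A : Finset V) (v : V) : ℝ := if v ∈ A then 1 else 0

/-- the value of a 4-tuple -/
noncomputable def val (A : Finset V) (c : V × V → Fin 3) (w : Fin 3 → ℝ) (σ : ℝ) (a b d e : V) : ℝ :=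
  if al A a + al A b + al A d + al A e = 4 then 1 / 2
  else if al A a + al A b + al A d + al A e = 3 then 1
  else max (1 - (mcost A c w (a, b) (d, e) + mcost A c w (a, d) (b, e) + mcost A c w (a, e) (b, d)))
    (mgain A c σ (a, b) (d, e) + mgain A c σ (a, d) (b, e) + mgain A c σ (a, e) (b, d))

/-- indicator of an edge -/
noncomputable def er (H : Finset (Finset V)) (a b d e : V) : ℝ := if Adj H (a, b) (d, e) then 1 else 0

/-- monochromatic edges of colour `i` outside `A` -/
noncomputable def Ymono (H : Finset (Finset V)) (A : Finset V) (c : V × V → Fin 3) (i : Fin 3) : ℕ :=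
  (univ.filter (fun p : (V × V) × (V × V) => Act A p.1 p.2 ∧ Adj H p.1 p.2 ∧ c p.1 = i ∧ c p.2 = i)).card

/-- missing bichromatic pairs outside `A` -/
noncomputable def Mmiss (H : Finset (Finset V)) (A : Finset V) (c : V × V → Fin 3) : ℕ :=
  (univ.filter (fun p : (V × V) × (V × V) => Act A p.1 p.2 ∧ ¬ Adj H p.1 p.2 ∧ c p.1 ≠ c p.2)).card

/-- **Mantel** -/
lemma mantel {Ω : Type} [Fintype Ω] (R : Ω → Ω → Prop) (hs : ∀ x y, R x y → R y x) (S : Finset Ω)
    (ht : ∀ x ∈ S, ∀ y ∈ S, ∀ z ∈ S, ¬ (R x y ∧ R x z ∧ R y z)) :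
    (∑ x ∈ S, ∑ y ∈ S, (if R x y then (1 : ℝ) else 0)) ≤ (S.card : ℝ) ^ 2 / 2 := by
  set dg : Ω → ℝ := fun x => ∑ y ∈ S, (if R x y then (1 : ℝ) else 0) with hdg
  set E : ℝ := ∑ x ∈ S, dg x with hE
  have hdg0 : ∀ x, 0 ≤ dg x := fun x => Finset.sum_nonneg (fun y _ => by split_ifs <;> norm_num)
  have hE0 : 0 ≤ E := Finset.sum_nonneg (fun x _ => hdg0 x)
  have h1 : ∀ x ∈ S, ∀ y ∈ S, R x y → dg x + dg y ≤ S.card := by
    intro x hx y hy hxy
    rw [hdg]
    simp only
    rw [← Finset.sum_add_distrib]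
    have : ∀ z ∈ S, (if R x z then (1 : ℝ) else 0) + (if R y z then (1 : ℝ) else 0) ≤ 1 := by
      intro z hz
      have := ht x hx y hy z hz
      by_cases h2 : R x z <;> by_cases h3 : R y z <;> simp [h2, h3]
      exact absurd ⟨hxy, h2, h3⟩ this
    refine le_trans (Finset.sum_le_sum this) ?_
    simp
  have h2 : ∑ x ∈ S, ∑ y ∈ S, (if R x y then (1 : ℝ) else 0) * (dg x + dg y) ≤ S.card * E := by
    rw [hE, Finset.mul_sum]
    refine Finset.sum_le_sum ?_
    intro x hx
    rw [hdg]
    simp only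
    rw [Finset.mul_sum]
    refine Finset.sum_le_sum ?_
    intro y hy
    by_cases hxy : R x y
    · simp only [hxy, if_true, one_mul, mul_one]
      exact h1 x hx y hy hxy
    · simp [hxy]
  have h3 : ∑ x ∈ S, ∑ y ∈ S, (if R x y then (1 : ℝ) else 0) * (dg x + dg y) = 2 * ∑ x ∈ S, dg x ^ 2 := by
    have e1 : ∑ x ∈ S, ∑ y ∈ S, (if R x y then (1 : ℝ) else 0) * (dg x + dg y)
        = ∑ x ∈ S, ∑ y ∈ S, (if R x y then (1 : ℝ) else 0) * dg x
          + ∑ x ∈ S, ∑ y ∈ S, (if R x y then (1 : ℝ) else 0) * dg y := by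
      rw [← Finset.sum_add_distrib]
      refine Finset.sum_congr rfl (fun x _ => ?_)
      rw [← Finset.sum_add_distrib]
      exact Finset.sum_congr rfl (fun y _ => by ring)
    have e2 : ∑ x ∈ S, ∑ y ∈ S, (if R x y then (1 : ℝ) else 0) * dg x = ∑ x ∈ S, dg x ^ 2 := by
      refine Finset.sum_congr rfl (fun x _ => ?_)
      rw [← Finset.sum_mul, sq]
    have e3 : ∑ x ∈ S, ∑ y ∈ S, (if R x y then (1 : ℝ) else 0) * dg y = ∑ x ∈ S, dg x ^ 2 := by
      rw [Finset.sum_comm]
      refine Finset.sum_congr rfl (fun y _ => ?_)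
      rw [← Finset.sum_mul, sq]
      congr 1
      refine Finset.sum_congr rfl (fun x _ => ?_)
      by_cases h : R x y
      · simp [h, hs _ _ h]
      · have h' : ¬ R y x := fun hh => h (hs _ _ hh)
        simp [h, h']
    rw [e1, e2, e3]; ring
  have h4 : E ^ 2 ≤ S.card * ∑ x ∈ S, dg x ^ 2 := by
    rw [hE]
    exact sq_sum_le_card_mul_sum_sq
  rw [h3] at h2
  have hc : (0 : ℝ) ≤ S.card := Nat.cast_nonneg _
  change E ≤ _
  by_contra hcon
  push Not at hcon
  have hEpos : 0 < E := lt_of_le_of_lt (by positivity) hcon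
  have h5 : 2 * E ^ 2 ≤ (S.card : ℝ) ^ 2 * E := by nlinarith
  have h6 : 2 * E ≤ (S.card : ℝ) ^ 2 := by
    by_contra h7
    push Not at h7
    nlinarith
  linarith

omit [Fintype V] in
lemma er_swap23 (H : Finset (Finset V)) (a b d e : V) : er H a d b e = er H a b d e := by
  have h : Adj H (a, d) (b, e) ↔ Adj H (a, b) (d, e) := by
    unfold Adj
    have : ({a, d, b, e} : Finset V) = {a, b, d, e} := by
      ext v; simp only [Finset.mem_insert, Finset.mem_singleton]; tauto
    rw [this]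
  unfold er
  exact if_congr h rfl rfl

omit [Fintype V] in
lemma er_swap12 (H : Finset (Finset V)) (a b d e : V) : er H b a d e = er H a b d e := by
  have h : Adj H (b, a) (d, e) ↔ Adj H (a, b) (d, e) := by
    unfold Adj
    have : ({b, a, d, e} : Finset V) = {a, b, d, e} := by
      ext v; simp only [Finset.mem_insert, Finset.mem_singleton]; tauto
    rw [this]
  unfold er
  exact if_congr h rfl rfl

omit [Fintype V] in
lemma er_swap34 (H : Finset (Finset V)) (a b d e : V) : er H a b e d = er H a b d e := by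
  have h : Adj H (a, b) (e, d) ↔ Adj H (a, b) (d, e) := by
    unfold Adj
    have : ({a, b, e, d} : Finset V) = {a, b, d, e} := by
      ext v; simp only [Finset.mem_insert, Finset.mem_singleton]; tauto
    rw [this]
  unfold er
  exact if_congr h rfl rfl

omit [DecidableEq V] in
/-- sums over quadruples, middle swap -/
lemma sum_swap23 (f : V → V → V → V → ℝ) :
    ∑ a, ∑ b, ∑ d, ∑ e, f a b d e = ∑ a, ∑ b, ∑ d, ∑ e, f a d b e :=
  Finset.sum_congr rfl (fun _ _ => Finset.sum_comm)

omit [DecidableEq V] in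
lemma sum_swap34 (f : V → V → V → V → ℝ) :
    ∑ a, ∑ b, ∑ d, ∑ e, f a b d e = ∑ a, ∑ b, ∑ d, ∑ e, f a b e d :=
  Finset.sum_congr rfl (fun _ _ => Finset.sum_congr rfl (fun _ _ => Finset.sum_comm))

omit [DecidableEq V] in
lemma sum_swap12 (f : V → V → V → V → ℝ) :
    ∑ a, ∑ b, ∑ d, ∑ e, f a b d e = ∑ a, ∑ b, ∑ d, ∑ e, f b a d e := Finset.sum_comm

/-- the number of missing tuples of type `A D A A` -/
noncomputable def Lmiss (H : Finset (Finset V)) (A : Finset V) : ℝ :=
  ∑ a, ∑ b, ∑ d, ∑ e, al A a * (1 - al A b) * al A d * al A e * (1 - er H a b d e)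

/-- the number of edges inside `A` -/
noncomputable def EA (H : Finset (Finset V)) (A : Finset V) : ℝ :=
  ∑ a, ∑ b, ∑ d, ∑ e, al A a * al A b * al A d * al A e * er H a b d e

omit [Fintype V] in
lemma al_cases (A : Finset V) (v : V) : (al A v = 0 ∧ v ∉ A) ∨ (al A v = 1 ∧ v ∈ A) := by
  unfold al
  by_cases h : v ∈ A <;> simp [h]

/-- sums of `al` -/
lemma sum_al (A : Finset V) : ∑ v, al A v = A.card := by
  unfold al; simp

lemma sum_al' (A : Finset V) : ∑ v, (1 - al A v) = (Aᶜ : Finset V).card := by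
  rw [Finset.sum_sub_distrib, sum_al, Finset.card_compl]
  rw [Nat.cast_sub (Finset.card_le_univ A)]
  simp

/-- edges inside `A` by Mantel in the neighbourhood of a cross pair -/
lemma EA_le_aux (H : Finset (Finset V)) (h4 : ∀ e ∈ H, e.card = 4) (hf : Free H) (A : Finset V)
    (a b : V) :
    EA H A ≤ (A.card : ℝ) ^ 4 / 2
      + (A.card : ℝ) ^ 2 * ∑ d, ∑ e, al A d * al A e * (1 - er H a b d e) := by
  set S : Finset (V × V) := (A ×ˢ A).filter (fun p => Adj H (a, b) p) with hS
  set K : Finset (V × V) := (A ×ˢ A).filter (fun p => ¬ Adj H (a, b) p) with hK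
  have hcard : S.card + K.card = A.card ^ 2 := by
    rw [hS, hK, Finset.card_filter_add_card_filter_not, Finset.card_product, sq]
  have hm := mantel (Adj H) (fun _ _ h => adj_symm h) S (by
    intro x hx y hy z hz ⟨h1, h2, h3⟩
    have hx' := (Finset.mem_filter.1 hx).2
    have hy' := (Finset.mem_filter.1 hy).2
    have hz' := (Finset.mem_filter.1 hz).2
    apply pair_k4free h4 hf ![(a, b), x, y, z]
    intro i j hij
    fin_cases i <;> fin_cases j <;> first | exact absurd rfl hij | skip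
    · exact hx'
    · exact hy'
    · exact hz'
    · exact adj_symm hx'
    · exact h1
    · exact h2
    · exact adj_symm hy'
    · exact adj_symm h1
    · exact h3
    · exact adj_symm hz'
    · exact adj_symm h2
    · exact adj_symm h3)
  have hKc : (K.card : ℝ) = ∑ d, ∑ e, al A d * al A e * (1 - er H a b d e) := by
    rw [hK, Finset.card_filter, Finset.sum_product]
    push_cast
    rw [← Finset.sum_subset (Finset.subset_univ A)
      (fun x _ hx => by simp [al, hx])]
    refine Finset.sum_congr rfl (fun d hd => ?_)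
    rw [← Finset.sum_subset (Finset.subset_univ A)
      (fun x _ hx => by simp [al, hx])]
    refine Finset.sum_congr rfl (fun e he => ?_)
    simp only [al, hd, he, er, if_true, one_mul]
    by_cases h : Adj H (a, b) (d, e) <;> simp [h]
  have hEA : EA H A = ∑ p ∈ A ×ˢ A, ∑ q ∈ A ×ˢ A, (if Adj H p q then (1 : ℝ) else 0) := by
    rw [EA, Finset.sum_product]
    rw [← Finset.sum_subset (Finset.subset_univ A) (fun x _ hx => by simp [al, hx])]
    refine Finset.sum_congr rfl (fun x hx => ?_)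
    rw [← Finset.sum_subset (Finset.subset_univ A) (fun y _ hy => by simp [al, hy])]
    refine Finset.sum_congr rfl (fun y hy => ?_)
    rw [Finset.sum_product]
    rw [← Finset.sum_subset (Finset.subset_univ A) (fun z _ hz => by simp [al, hz])]
    refine Finset.sum_congr rfl (fun z hz => ?_)
    rw [← Finset.sum_subset (Finset.subset_univ A) (fun u _ hu => by simp [al, hu])]
    refine Finset.sum_congr rfl (fun u hu => ?_)
    simp only [al, hx, hy, hz, hu, er, if_true, one_mul]
  have hsplit : ∀ g : V × V → ℝ, ∑ p ∈ A ×ˢ A, g p = ∑ p ∈ S, g p + ∑ p ∈ K, g p := by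
    intro g
    rw [hS, hK, Finset.sum_filter_add_sum_filter_not]
  have b1 : ∀ p q : V × V, (if Adj H p q then (1 : ℝ) else 0) ≤ 1 := by intro p q; split_ifs <;> norm_num
  have hb : ∀ T U : Finset (V × V), ∑ p ∈ T, ∑ q ∈ U, (if Adj H p q then (1 : ℝ) else 0)
      ≤ (T.card : ℝ) * U.card := by
    intro T U
    refine le_trans (Finset.sum_le_sum (fun p _ => Finset.sum_le_sum (fun q _ => b1 p q))) ?_
    simp
  have hc : (S.card : ℝ) + K.card = (A.card : ℝ) ^ 2 := by exact_mod_cast hcard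
  rw [hEA, hsplit]
  have e1 : ∑ p ∈ S, ∑ q ∈ A ×ˢ A, (if Adj H p q then (1 : ℝ) else 0)
      = ∑ p ∈ S, ∑ q ∈ S, (if Adj H p q then (1 : ℝ) else 0)
        + ∑ p ∈ S, ∑ q ∈ K, (if Adj H p q then (1 : ℝ) else 0) := by
    rw [← Finset.sum_add_distrib]
    exact Finset.sum_congr rfl (fun p _ => hsplit _)
  rw [e1, ← hKc]
  have e2 := hb S K
  have e3 := hb K (A ×ˢ A)
  have e4 : ((A ×ˢ A).card : ℝ) = (A.card : ℝ) ^ 2 := by rw [Finset.card_product, sq]; push_cast; ring
  rw [e4] at e3
  have hs0 : (0 : ℝ) ≤ S.card := Nat.cast_nonneg _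
  have hk0 : (0 : ℝ) ≤ K.card := Nat.cast_nonneg _
  have e5 : (A.card : ℝ) ^ 4 = ((S.card : ℝ) + K.card) ^ 2 := by rw [hc]; ring
  rw [e5]
  rw [← hc] at e3 ⊢
  nlinarith [mul_nonneg hs0 hk0, mul_nonneg hk0 hk0]

lemma Lmiss_nonneg (H : Finset (Finset V)) (A : Finset V) : 0 ≤ Lmiss H A := by
  unfold Lmiss
  refine Finset.sum_nonneg (fun a _ => Finset.sum_nonneg (fun b _ => Finset.sum_nonneg (fun d _ =>
    Finset.sum_nonneg (fun e _ => ?_))))
  have h1 : 0 ≤ 1 - er H a b d e := by unfold er; split_ifs <;> norm_num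
  rcases al_cases A a with ⟨ha, -⟩ | ⟨ha, -⟩ <;> rcases al_cases A b with ⟨hb, -⟩ | ⟨hb, -⟩ <;>
    rcases al_cases A d with ⟨hd, -⟩ | ⟨hd, -⟩ <;> rcases al_cases A e with ⟨he, -⟩ | ⟨he, -⟩ <;>
    rw [ha, hb, hd, he] <;> norm_num [h1]

lemma EA_le (H : Finset (Finset V)) (h4 : ∀ e ∈ H, e.card = 4) (hf : Free H) (A : Finset V)
    (hA : A.card ≤ 4 * (Aᶜ : Finset V).card) :
    EA H A ≤ (A.card : ℝ) ^ 4 / 2 + 4 * Lmiss H A := by
  rcases Finset.eq_empty_or_nonempty A with h0 | hne
  · have : EA H A = 0 := by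
      unfold EA
      subst h0
      simp [al]
    rw [this]
    have := Lmiss_nonneg H A
    positivity
  · have hApos : (0 : ℝ) < A.card := by exact_mod_cast Finset.card_pos.2 hne
    have hDpos : (0 : ℝ) < (Aᶜ : Finset V).card := by
      have : 0 < (Aᶜ : Finset V).card := by
        have := Finset.card_pos.2 hne
        omega
      exact_mod_cast this
    -- sum the pointwise bound over cross pairs
    have h1 : ∑ a, ∑ b, al A a * (1 - al A b) * EA H A
        ≤ ∑ a, ∑ b, al A a * (1 - al A b) * ((A.card : ℝ) ^ 4 / 2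
          + (A.card : ℝ) ^ 2 * ∑ d, ∑ e, al A d * al A e * (1 - er H a b d e)) := by
      refine Finset.sum_le_sum (fun a _ => Finset.sum_le_sum (fun b _ => ?_))
      refine mul_le_mul_of_nonneg_left (EA_le_aux H h4 hf A a b) ?_
      rcases al_cases A a with ⟨ha, -⟩ | ⟨ha, -⟩ <;> rcases al_cases A b with ⟨hb, -⟩ | ⟨hb, -⟩ <;>
        rw [ha, hb] <;> norm_num
    have hs : ∀ t : ℝ, ∑ a, ∑ b, al A a * (1 - al A b) * t = (A.card : ℝ) * (Aᶜ : Finset V).card * t := by
      intro t
      have : ∀ a, ∑ b, al A a * (1 - al A b) * t = al A a * ((Aᶜ : Finset V).card * t) := by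
        intro a
        rw [← sum_al', Finset.sum_mul, Finset.mul_sum]
        exact Finset.sum_congr rfl (fun b _ => by ring)
      rw [Finset.sum_congr rfl (fun a _ => this a), ← Finset.sum_mul, sum_al]
      ring
    have h2 : ∑ a, ∑ b, al A a * (1 - al A b) * ((A.card : ℝ) ^ 4 / 2
          + (A.card : ℝ) ^ 2 * ∑ d, ∑ e, al A d * al A e * (1 - er H a b d e))
        = (A.card : ℝ) * (Aᶜ : Finset V).card * ((A.card : ℝ) ^ 4 / 2) + (A.card : ℝ) ^ 2 * Lmiss H A := by
      rw [← hs, Lmiss, Finset.mul_sum, ← Finset.sum_add_distrib]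
      refine Finset.sum_congr rfl (fun a _ => ?_)
      rw [Finset.mul_sum, ← Finset.sum_add_distrib]
      refine Finset.sum_congr rfl (fun b _ => ?_)
      rw [mul_add]
      congr 1
      rw [Finset.mul_sum, Finset.mul_sum, Finset.mul_sum]
      refine Finset.sum_congr rfl (fun d _ => ?_)
      rw [Finset.mul_sum, Finset.mul_sum, Finset.mul_sum]
      refine Finset.sum_congr rfl (fun e _ => ?_)
      ring
    rw [hs, h2] at h1
    have hL := Lmiss_nonneg H A
    have hA' : (A.card : ℝ) ≤ 4 * (Aᶜ : Finset V).card := by exact_mod_cast hA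
    set x : ℝ := (A.card : ℝ)
    set z : ℝ := ((Aᶜ : Finset V).card : ℝ)
    have h3 : x * z * EA H A ≤ x * z * (x ^ 4 / 2 + 4 * Lmiss H A) := by
      have : x ^ 2 * Lmiss H A ≤ x * z * (4 * Lmiss H A) := by
        have := mul_le_mul_of_nonneg_left hA' (mul_nonneg hApos.le hL)
        nlinarith
      nlinarith
    exact le_of_mul_le_mul_left h3 (mul_pos hApos hDpos)

omit [Fintype V] [DecidableEq V] in
lemma mcost_inact {A : Finset V} {c : V × V → Fin 3} {w : Fin 3 → ℝ} {p q : V × V} (h : ¬ Act A p q) :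
    mcost A c w p q = 0 := by
  unfold mcost; rw [if_neg (fun hh => h hh.1)]

omit [Fintype V] [DecidableEq V] in
lemma mgain_inact {A : Finset V} {c : V × V → Fin 3} {σ : ℝ} {p q : V × V} (h : ¬ Act A p q) :
    mgain A c σ p q = 0 := by
  unfold mgain; rw [if_neg (fun hh => h hh.1)]

/-- three vertices in `A` and one outside -/
noncomputable def T3 (A : Finset V) (a b d e : V) : ℝ :=
  al A a * (1 - al A b) * al A d * al A e + al A b * (1 - al A a) * al A d * al A e
        + al A a * (1 - al A d) * al A b * al A e + al A a * (1 - al A e) * al A d * al A b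

/-- four vertices in `A` -/
noncomputable def T4 (A : Finset V) (a b d e : V) : ℝ := al A a * al A b * al A d * al A e

/-- sum of the three prices -/
noncomputable def Cst (A : Finset V) (c : V × V → Fin 3) (w : Fin 3 → ℝ) (a b d e : V) : ℝ :=
  mcost A c w (a, b) (d, e) + mcost A c w (a, d) (b, e) + mcost A c w (a, e) (b, d)

/-- sum of the three rewards -/
noncomputable def Gn (A : Finset V) (c : V × V → Fin 3) (σ : ℝ) (a b d e : V) : ℝ :=
  mgain A c σ (a, b) (d, e) + mgain A c σ (a, d) (b, e) + mgain A c σ (a, e) (b, d)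

omit [Fintype V] in
lemma T_cases (A : Finset V) (a b d e : V) :
    (al A a + al A b + al A d + al A e ≠ 4 ∧ al A a + al A b + al A d + al A e ≠ 3 ∧
      T3 A a b d e = 0 ∧ T4 A a b d e = 0) ∨
    (al A a + al A b + al A d + al A e = 3 ∧ T3 A a b d e = 1 ∧ T4 A a b d e = 0 ∧
      ¬ Act A (a, b) (d, e) ∧ ¬ Act A (a, d) (b, e) ∧ ¬ Act A (a, e) (b, d)) ∨
    (al A a + al A b + al A d + al A e = 4 ∧ T3 A a b d e = 0 ∧ T4 A a b d e = 1 ∧
      ¬ Act A (a, b) (d, e) ∧ ¬ Act A (a, d) (b, e) ∧ ¬ Act A (a, e) (b, d)) := by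
  rcases al_cases A a with ⟨ha, ha'⟩ | ⟨ha, ha'⟩ <;> rcases al_cases A b with ⟨hb, hb'⟩ | ⟨hb, hb'⟩ <;>
    rcases al_cases A d with ⟨hd, hd'⟩ | ⟨hd, hd'⟩ <;> rcases al_cases A e with ⟨he, he'⟩ | ⟨he, he'⟩ <;>
    norm_num [T3, T4, Act, ha, hb, hd, he, ha', hb', hd', he']

omit [Fintype V] in
/-- pointwise accounting -/
lemma acct_pointwise (H : Finset (Finset V)) (A : Finset V) (c : V × V → Fin 3) (w : Fin 3 → ℝ) (σ : ℝ)
    (a b d e : V) :
    er H a b d e ≤ val A c w σ a b d e
      + er H a b d e * Cst A c w a b d e - (1 - er H a b d e) * Gn A c σ a b d e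
      - T3 A a b d e * (1 - er H a b d e) + T4 A a b d e * (er H a b d e - 1 / 2) := by
  have hr : er H a b d e = 0 ∨ er H a b d e = 1 := by unfold er; split_ifs <;> simp
  have hmax : er H a b d e ≤ max (1 - Cst A c w a b d e) (Gn A c σ a b d e)
      + er H a b d e * Cst A c w a b d e - (1 - er H a b d e) * Gn A c σ a b d e := by
    have h1 := le_max_left (1 - Cst A c w a b d e) (Gn A c σ a b d e)
    have h2 := le_max_right (1 - Cst A c w a b d e) (Gn A c σ a b d e)
    rcases hr with hr | hr <;> rw [hr] <;> linarith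
  have low : al A a + al A b + al A d + al A e ≠ 4 → al A a + al A b + al A d + al A e ≠ 3 →
      T3 A a b d e = 0 → T4 A a b d e = 0 →
      er H a b d e ≤ val A c w σ a b d e
      + er H a b d e * Cst A c w a b d e - (1 - er H a b d e) * Gn A c σ a b d e
      - T3 A a b d e * (1 - er H a b d e) + T4 A a b d e * (er H a b d e - 1 / 2) := by
    intro h1 h2 h3 h4
    have hv : val A c w σ a b d e = max (1 - Cst A c w a b d e) (Gn A c σ a b d e) := by
      unfold val; rw [if_neg h1, if_neg h2]; rfl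
    rw [hv, h3, h4]; linarith
  have three : al A a + al A b + al A d + al A e = 3 → T3 A a b d e = 1 → T4 A a b d e = 0 →
      ¬ Act A (a, b) (d, e) → ¬ Act A (a, d) (b, e) → ¬ Act A (a, e) (b, d) →
      er H a b d e ≤ val A c w σ a b d e
      + er H a b d e * Cst A c w a b d e - (1 - er H a b d e) * Gn A c σ a b d e
      - T3 A a b d e * (1 - er H a b d e) + T4 A a b d e * (er H a b d e - 1 / 2) := by
    intro h1 h3 h4 i1 i2 i3
    have hv : val A c w σ a b d e = 1 := by
      unfold val; rw [if_neg (by rw [h1]; norm_num), if_pos h1]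
    have hC : Cst A c w a b d e = 0 := by
      unfold Cst; rw [mcost_inact i1, mcost_inact i2, mcost_inact i3]; norm_num
    have hG : Gn A c σ a b d e = 0 := by
      unfold Gn; rw [mgain_inact i1, mgain_inact i2, mgain_inact i3]; norm_num
    rw [hv, h3, h4, hC, hG]; linarith
  have four : al A a + al A b + al A d + al A e = 4 → T3 A a b d e = 0 → T4 A a b d e = 1 →
      ¬ Act A (a, b) (d, e) → ¬ Act A (a, d) (b, e) → ¬ Act A (a, e) (b, d) →
      er H a b d e ≤ val A c w σ a b d e
      + er H a b d e * Cst A c w a b d e - (1 - er H a b d e) * Gn A c σ a b d e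
      - T3 A a b d e * (1 - er H a b d e) + T4 A a b d e * (er H a b d e - 1 / 2) := by
    intro h1 h3 h4 i1 i2 i3
    have hv : val A c w σ a b d e = 1 / 2 := by
      unfold val; rw [if_pos h1]
    have hC : Cst A c w a b d e = 0 := by
      unfold Cst; rw [mcost_inact i1, mcost_inact i2, mcost_inact i3]; norm_num
    have hG : Gn A c σ a b d e = 0 := by
      unfold Gn; rw [mgain_inact i1, mgain_inact i2, mgain_inact i3]; norm_num
    rw [hv, h3, h4, hC, hG]; linarith
  rcases T_cases A a b d e with ⟨h1, h2, h3, h4⟩ | ⟨h1, h2, h3, h4, h5, h6⟩ | ⟨h1, h2, h3, h4, h5, h6⟩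
  · exact low h1 h2 h3 h4
  · exact three h1 h2 h3 h4 h5 h6
  · exact four h1 h2 h3 h4 h5 h6

end Pool.Agent.C44
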