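import Pool.Agent.C44.Acct

set_option autoImplicit false

open Finset Classical

namespace Pool.Agent.C44

variable {V : Type} [Fintype V] [DecidableEq V]

omit [DecidableEq V] in
/-- sum over quadruples as sum over pairs of pairs -/
lemma acct_sum_pairs (f : V × V → V × V → ℝ) :
    ∑ a, ∑ b, ∑ d, ∑ e, f (a, b) (d, e) = ∑ p : V × V, ∑ q : V × V, f p q := by
  rw [Fintype.sum_prod_type]
  refine Finset.sum_congr rfl (fun a _ => Finset.sum_congr rfl (fun b _ => ?_))
  rw [Fintype.sum_prod_type]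

lemma sum_er (H : Finset (Finset V)) (h4 : ∀ e ∈ H, e.card = 4) :
    ∑ a, ∑ b, ∑ d, ∑ e, er H a b d e = 24 * (H.card : ℝ) := by
  have h := pair_count H h4
  have h1 : ((univ.filter (fun p : (V × V) × (V × V) => Adj H p.1 p.2)).card : ℝ) = 24 * (H.card : ℝ) := by
    exact_mod_cast h
  rw [← h1, Finset.card_filter]
  push_cast
  rw [Fintype.sum_prod_type]
  rw [← acct_sum_pairs (fun p q => if Adj H p q then (1 : ℝ) else 0)]
  rfl

omit [DecidableEq V] in
/-- symmetric sums over the three matchings -/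
lemma sum_matchings (g : V → V → V → V → ℝ) (hg1 : ∀ a b d e, g a d b e = g a b d e)
    (hg2 : ∀ a b d e, g a b e d = g a b d e) (m : V × V → V × V → ℝ) :
    ∑ a, ∑ b, ∑ d, ∑ e, g a b d e * (m (a, b) (d, e) + m (a, d) (b, e) + m (a, e) (b, d))
      = 3 * ∑ a, ∑ b, ∑ d, ∑ e, g a b d e * m (a, b) (d, e) := by
  have e1 : ∑ a, ∑ b, ∑ d, ∑ e, g a b d e * m (a, d) (b, e)
      = ∑ a, ∑ b, ∑ d, ∑ e, g a b d e * m (a, b) (d, e) := by
    rw [sum_swap23]
    refine Finset.sum_congr rfl (fun a _ => Finset.sum_congr rfl (fun b _ =>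
      Finset.sum_congr rfl (fun d _ => Finset.sum_congr rfl (fun e _ => ?_))))
    rw [hg1]
  have e2 : ∑ a, ∑ b, ∑ d, ∑ e, g a b d e * m (a, e) (b, d)
      = ∑ a, ∑ b, ∑ d, ∑ e, g a b d e * m (a, b) (d, e) := by
    rw [sum_swap34, ← e1]
    refine Finset.sum_congr rfl (fun a _ => Finset.sum_congr rfl (fun b _ =>
      Finset.sum_congr rfl (fun d _ => Finset.sum_congr rfl (fun e _ => ?_))))
    rw [hg2]
  have e3 : ∑ a, ∑ b, ∑ d, ∑ e, g a b d e * (m (a, b) (d, e) + m (a, d) (b, e) + m (a, e) (b, d))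
      = ∑ a, ∑ b, ∑ d, ∑ e, g a b d e * m (a, b) (d, e)
        + ∑ a, ∑ b, ∑ d, ∑ e, g a b d e * m (a, d) (b, e)
        + ∑ a, ∑ b, ∑ d, ∑ e, g a b d e * m (a, e) (b, d) := by
    simp only [← Finset.sum_add_distrib]
    refine Finset.sum_congr rfl (fun a _ => Finset.sum_congr rfl (fun b _ =>
      Finset.sum_congr rfl (fun d _ => Finset.sum_congr rfl (fun e _ => ?_))))
    ring
  rw [e3, e1, e2]; ring

lemma sum_cost (H : Finset (Finset V)) (A : Finset V) (c : V × V → Fin 3) (w : Fin 3 → ℝ) :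
    ∑ a, ∑ b, ∑ d, ∑ e, er H a b d e * Cst A c w a b d e = ∑ i, w i * (Ymono H A c i : ℝ) := by
  have h1 := sum_matchings (er H) (er_swap23 H) (er_swap34 H) (mcost A c w)
  unfold Cst
  rw [h1]
  have h2 : ∑ a, ∑ b, ∑ d, ∑ e, er H a b d e * mcost A c w (a, b) (d, e)
      = ∑ p : V × V, ∑ q : V × V, (if Adj H p q then (1 : ℝ) else 0) * mcost A c w p q := by
    rw [← acct_sum_pairs (fun p q => (if Adj H p q then (1 : ℝ) else 0) * mcost A c w p q)]
    rfl
  rw [h2, Finset.mul_sum]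
  have h3 : ∀ i, w i * (Ymono H A c i : ℝ) = ∑ p : V × V, ∑ q : V × V,
      (if Act A p q ∧ Adj H p q ∧ c p = i ∧ c q = i then w i else 0) := by
    intro i
    unfold Ymono
    rw [Finset.card_filter]
    push_cast
    rw [Fintype.sum_prod_type, Finset.mul_sum]
    refine Finset.sum_congr rfl (fun p _ => ?_)
    rw [Finset.mul_sum]
    refine Finset.sum_congr rfl (fun q _ => ?_)
    split_ifs <;> simp
  rw [Finset.sum_congr rfl (fun i _ => h3 i), Finset.sum_comm]
  refine Finset.sum_congr rfl (fun p _ => ?_)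
  rw [Finset.sum_comm, Finset.mul_sum]
  refine Finset.sum_congr rfl (fun q _ => ?_)
  unfold mcost
  by_cases hA : Act A p q
  · by_cases hadj : Adj H p q
    · by_cases hc : c p = c q
      · simp only [hA, hadj, hc, true_and, if_true]
        rw [Finset.sum_eq_single (c q)]
        · simp; ring
        · intro i _ hi
          rw [if_neg]
          rintro ⟨h, -⟩; exact hi h.symm
        · simp
      · simp only [hA, hadj, hc, true_and, if_true, if_false, and_false, mul_zero]
        symm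
        refine Finset.sum_eq_zero (fun i _ => ?_)
        rw [if_neg]
        rintro ⟨h1, h2⟩; exact hc (h1.trans h2.symm)
    · simp [hadj]
  · simp [hA]

lemma sum_gain (H : Finset (Finset V)) (A : Finset V) (c : V × V → Fin 3) (σ : ℝ) :
    ∑ a, ∑ b, ∑ d, ∑ e, (1 - er H a b d e) * Gn A c σ a b d e = σ * (Mmiss H A c : ℝ) := by
  have h1 := sum_matchings (fun a b d e => 1 - er H a b d e)
    (fun a b d e => by rw [er_swap23]) (fun a b d e => by rw [er_swap34]) (mgain A c σ)
  unfold Gn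
  rw [h1]
  have h2 : ∑ a, ∑ b, ∑ d, ∑ e, (1 - er H a b d e) * mgain A c σ (a, b) (d, e)
      = ∑ p : V × V, ∑ q : V × V, (1 - (if Adj H p q then (1 : ℝ) else 0)) * mgain A c σ p q := by
    rw [← acct_sum_pairs (fun p q => (1 - (if Adj H p q then (1 : ℝ) else 0)) * mgain A c σ p q)]
    rfl
  have hM : (Mmiss H A c : ℝ) = ∑ p : V × V, ∑ q : V × V,
      (if Act A p q ∧ ¬ Adj H p q ∧ c p ≠ c q then (1 : ℝ) else 0) := by
    unfold Mmiss
    rw [Finset.card_filter]
    push_cast
    rw [Fintype.sum_prod_type]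
  rw [h2, hM]
  simp only [Finset.mul_sum]
  refine Finset.sum_congr rfl (fun p _ => Finset.sum_congr rfl (fun q _ => ?_))
  unfold mgain
  by_cases hA : Act A p q <;> by_cases hadj : Adj H p q <;> by_cases hc : c p = c q <;>
    (simp [hA, hadj, hc]; try ring)

lemma sum_T3 (H : Finset (Finset V)) (A : Finset V) :
    ∑ a, ∑ b, ∑ d, ∑ e, T3 A a b d e * (1 - er H a b d e) = 4 * Lmiss H A := by
  have t2 : ∑ a, ∑ b, ∑ d, ∑ e, al A b * (1 - al A a) * al A d * al A e * (1 - er H a b d e)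
      = Lmiss H A := by
    rw [sum_swap12]
    unfold Lmiss
    refine Finset.sum_congr rfl (fun a _ => Finset.sum_congr rfl (fun b _ =>
      Finset.sum_congr rfl (fun d _ => Finset.sum_congr rfl (fun e _ => ?_))))
    rw [er_swap12]
  have t3 : ∑ a, ∑ b, ∑ d, ∑ e, al A a * (1 - al A d) * al A b * al A e * (1 - er H a b d e)
      = Lmiss H A := by
    rw [sum_swap23]
    unfold Lmiss
    refine Finset.sum_congr rfl (fun a _ => Finset.sum_congr rfl (fun b _ =>
      Finset.sum_congr rfl (fun d _ => Finset.sum_congr rfl (fun e _ => ?_))))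
    rw [er_swap23]
  have t4 : ∑ a, ∑ b, ∑ d, ∑ e, al A a * (1 - al A e) * al A d * al A b * (1 - er H a b d e)
      = Lmiss H A := by
    rw [sum_swap34, ← t3]
    refine Finset.sum_congr rfl (fun a _ => Finset.sum_congr rfl (fun b _ =>
      Finset.sum_congr rfl (fun d _ => Finset.sum_congr rfl (fun e _ => ?_))))
    rw [er_swap34]; ring
  have e3 : ∑ a, ∑ b, ∑ d, ∑ e, T3 A a b d e * (1 - er H a b d e)
      = Lmiss H A
        + ∑ a, ∑ b, ∑ d, ∑ e, al A b * (1 - al A a) * al A d * al A e * (1 - er H a b d e)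
        + ∑ a, ∑ b, ∑ d, ∑ e, al A a * (1 - al A d) * al A b * al A e * (1 - er H a b d e)
        + ∑ a, ∑ b, ∑ d, ∑ e, al A a * (1 - al A e) * al A d * al A b * (1 - er H a b d e) := by
    unfold Lmiss
    simp only [← Finset.sum_add_distrib]
    refine Finset.sum_congr rfl (fun a _ => Finset.sum_congr rfl (fun b _ =>
      Finset.sum_congr rfl (fun d _ => Finset.sum_congr rfl (fun e _ => ?_))))
    unfold T3; ring
  rw [e3, t2, t3, t4]; ring

lemma sum_T4 (H : Finset (Finset V)) (A : Finset V) :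
    ∑ a, ∑ b, ∑ d, ∑ e, T4 A a b d e * (er H a b d e - 1 / 2) = EA H A - (A.card : ℝ) ^ 4 / 2 := by
  have h1 : ∑ a, ∑ b, ∑ d, ∑ e, T4 A a b d e = (A.card : ℝ) ^ 4 := by
    unfold T4
    have : ∀ a b d : V, ∑ e, al A a * al A b * al A d * al A e = al A a * al A b * al A d * A.card := by
      intro a b d; rw [← Finset.mul_sum, sum_al]
    simp only [this]
    have : ∀ a b : V, ∑ d, al A a * al A b * al A d * (A.card : ℝ) = al A a * al A b * (A.card : ℝ) ^ 2 := by
      intro a b; rw [← Finset.sum_mul, ← Finset.mul_sum, sum_al]; ring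
    simp only [this]
    have : ∀ a : V, ∑ b, al A a * al A b * (A.card : ℝ) ^ 2 = al A a * (A.card : ℝ) ^ 3 := by
      intro a; rw [← Finset.sum_mul, ← Finset.mul_sum, sum_al]; ring
    simp only [this]
    rw [← Finset.sum_mul, sum_al]; ring
  have h2 : ∑ a, ∑ b, ∑ d, ∑ e, T4 A a b d e * (er H a b d e - 1 / 2)
      = EA H A - (∑ a, ∑ b, ∑ d, ∑ e, T4 A a b d e) / 2 := by
    unfold EA T4
    simp only [Finset.sum_div, ← Finset.sum_sub_distrib]
    refine Finset.sum_congr rfl (fun a _ => Finset.sum_congr rfl (fun b _ =>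
      Finset.sum_congr rfl (fun d _ => Finset.sum_congr rfl (fun e _ => ?_))))
    ring
  rw [h2, h1]

/-- **The accounting inequality.** -/
theorem accounting (H : Finset (Finset V)) (h4 : ∀ e ∈ H, e.card = 4) (hf : Free H)
    (A : Finset V) (hA : A.card ≤ 4 * (Aᶜ : Finset V).card) (c : V × V → Fin 3) (w : Fin 3 → ℝ) (σ : ℝ) :
    24 * (H.card : ℝ) ≤ ∑ i, w i * (Ymono H A c i : ℝ) - σ * (Mmiss H A c : ℝ)
      + ∑ a, ∑ b, ∑ d, ∑ e, val A c w σ a b d e := by
  have h0 : ∑ a, ∑ b, ∑ d, ∑ e, er H a b d e ≤ ∑ a, ∑ b, ∑ d, ∑ e, (val A c w σ a b d e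
      + er H a b d e * Cst A c w a b d e - (1 - er H a b d e) * Gn A c σ a b d e
      - T3 A a b d e * (1 - er H a b d e) + T4 A a b d e * (er H a b d e - 1 / 2)) :=
    Finset.sum_le_sum (fun a _ => Finset.sum_le_sum (fun b _ => Finset.sum_le_sum (fun d _ =>
      Finset.sum_le_sum (fun e _ => acct_pointwise H A c w σ a b d e))))
  simp only [Finset.sum_add_distrib, Finset.sum_sub_distrib] at h0
  rw [sum_er H h4, sum_cost, sum_gain, sum_T3, sum_T4] at h0
  have h1 := EA_le H h4 hf A hA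
  linarith

end Pool.Agent.C44
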