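import Pool.Agent.C44.Acct

/-!
Section 2 of the route: the vertex set `A` minimising `Phi_F`, its local optimality, and the recolouring of
the diagonal.
-/

set_option autoImplicit false

open Finset Classical

namespace Pool.Agent.C44

variable {V : Type} [Fintype V] [DecidableEq V]

/-- indicator of colour `F` -/
noncomputable def eF (c : V × V → Fin 3) (F : Fin 3) (x y : V) : ℝ := if c (x, y) = F then 1 else 0

/-- price of an ordered pair -/
noncomputable def kk (c : V × V → Fin 3) (F : Fin 3) (r : ℝ) (A : Finset V) (x y : V) : ℝ :=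
  r * (al A x * (1 - al A y) + (1 - al A x) * al A y) * (1 - eF c F x y)
    + (1 - al A x) * (1 - al A y) * eF c F x y

/-- the functional `r e1 + e2 + θ n |A| + θ₂ |A|^2` -/
noncomputable def PhF (c : V × V → Fin 3) (F : Fin 3) (r θ θ₂ : ℝ) (A : Finset V) : ℝ :=
  ∑ x, ∑ y, kk c F r A x y + θ * Fintype.card V * A.card + θ₂ * (A.card : ℝ) ^ 2

omit [Fintype V] in
lemma kk_symm (c : V × V → Fin 3) (hc : ∀ x : V × V, c x.swap = c x) (F : Fin 3) (r : ℝ) (A : Finset V)
    (x y : V) : kk c F r A x y = kk c F r A y x := by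
  have h : eF c F x y = eF c F y x := by
    unfold eF
    have := hc (y, x)
    simp only [Prod.swap_prod_mk] at this
    rw [this]
  unfold kk
  rw [h]; ring

omit [Fintype V] in
lemma al_congr {A B : Finset V} {x : V} (h : x ∈ A ↔ x ∈ B) : al A x = al B x := by
  unfold al
  by_cases hx : x ∈ A
  · rw [if_pos hx, if_pos (h.1 hx)]
  · rw [if_neg hx, if_neg (fun hh => hx (h.2 hh))]

/-- splitting a double sum at a vertex -/
lemma sum_split_at (k : V → V → ℝ) (hk : ∀ x y, k x y = k y x) (v : V) :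
    ∑ x, ∑ y, k x y = k v v + 2 * ∑ y ∈ univ.erase v, k v y
      + ∑ x ∈ univ.erase v, ∑ y ∈ univ.erase v, k x y := by
  rw [← Finset.add_sum_erase univ (fun x => ∑ y, k x y) (Finset.mem_univ v)]
  rw [← Finset.add_sum_erase univ (fun y => k v y) (Finset.mem_univ v)]
  have : ∀ x, ∑ y, k x y = k x v + ∑ y ∈ univ.erase v, k x y := fun x =>
    (Finset.add_sum_erase univ (fun y => k x y) (Finset.mem_univ v)).symm
  simp only [this]
  rw [Finset.sum_add_distrib]
  have h2 : ∑ x ∈ univ.erase v, k x v = ∑ y ∈ univ.erase v, k v y :=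
    Finset.sum_congr rfl (fun x _ => hk x v)
  rw [h2]; ring

/-- comparison of two sets which differ only at `v` -/
lemma Phi_compare (c : V × V → Fin 3) (hc : ∀ x : V × V, c x.swap = c x) (F : Fin 3) (r θ θ₂ : ℝ)
    (A B : Finset V) (v : V) (hAB : ∀ x, x ≠ v → (x ∈ A ↔ x ∈ B)) :
    PhF c F r θ θ₂ B - PhF c F r θ θ₂ A = kk c F r B v v - kk c F r A v v
      + 2 * ∑ y ∈ univ.erase v, (kk c F r B v y - kk c F r A v y)
      + θ * Fintype.card V * ((B.card : ℝ) - A.card) + θ₂ * ((B.card : ℝ) ^ 2 - (A.card : ℝ) ^ 2) := by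
  unfold PhF
  rw [sum_split_at _ (kk_symm c hc F r A) v, sum_split_at _ (kk_symm c hc F r B) v]
  have h : ∑ x ∈ univ.erase v, ∑ y ∈ univ.erase v, kk c F r A x y
      = ∑ x ∈ univ.erase v, ∑ y ∈ univ.erase v, kk c F r B x y := by
    refine Finset.sum_congr rfl (fun x hx => Finset.sum_congr rfl (fun y hy => ?_))
    have hx' := Finset.ne_of_mem_erase hx
    have hy' := Finset.ne_of_mem_erase hy
    unfold kk
    rw [al_congr (hAB x hx'), al_congr (hAB y hy')]
  rw [h, Finset.sum_sub_distrib]
  ring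

/-- **Existence of a locally optimal vertex set** (diagonal not of colour `F`). -/
theorem exists_opt (c : V × V → Fin 3) (hc : ∀ x : V × V, c x.swap = c x) (F : Fin 3)
    (hd : ∀ v, c (v, v) ≠ F) (r θ θ₂ : ℝ) (hr0 : 0 ≤ r) (hr : θ₂ ≤ 2 * r) :
    ∃ A : Finset V, (∀ B : Finset V, PhF c F r θ θ₂ A ≤ PhF c F r θ θ₂ B) ∧
      (∀ v ∈ A, 0 ≤ ∑ y, (1 - al A y) * (eF c F v y - r * (1 - eF c F v y)) + (r - θ₂) * A.card
        - θ * Fintype.card V / 2) ∧
      (∀ v, v ∉ A → 0 ≤ ∑ y, (1 - al A y) * (r * (1 - eF c F v y) - eF c F v y)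
        - r * ∑ y, al A y * (1 - eF c F v y) + θ₂ * A.card + θ * Fintype.card V / 2) := by
  obtain ⟨A, -, hmin⟩ := Finset.exists_min_image (univ : Finset (Finset V)) (PhF c F r θ θ₂)
    ⟨∅, Finset.mem_univ _⟩
  refine ⟨A, fun B => hmin B (Finset.mem_univ _), ?_, ?_⟩
  · intro v hv
    have hdv : eF c F v v = 0 := by unfold eF; rw [if_neg (hd v)]
    have h1 := hmin (A.erase v) (Finset.mem_univ _)
    have h2 := Phi_compare c hc F r θ θ₂ A (A.erase v) v (by
      intro x hx; rw [Finset.mem_erase]; exact ⟨fun h => ⟨hx, h⟩, fun h => h.2⟩)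
    have hAv : al A v = 1 := by unfold al; rw [if_pos hv]
    have hBv : al (A.erase v) v = 0 := by unfold al; rw [if_neg (Finset.notMem_erase v A)]
    have h3 : kk c F r (A.erase v) v v - kk c F r A v v = 0 := by
      unfold kk; rw [hAv, hBv, hdv]; ring
    have h4 : ((A.erase v).card : ℝ) - A.card = -1 := by
      rw [Finset.card_erase_of_mem hv, Nat.cast_sub (Finset.card_pos.2 ⟨v, hv⟩)]; simp
    have h4' : ((A.erase v).card : ℝ) ^ 2 - (A.card : ℝ) ^ 2 = 1 - 2 * A.card := by
      have : ((A.erase v).card : ℝ) = A.card - 1 := by linarith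
      rw [this]; ring
    have h5 : ∑ y ∈ univ.erase v, (kk c F r (A.erase v) v y - kk c F r A v y)
        ≤ ∑ y ∈ univ.erase v, ((1 - al A y) * (eF c F v y - r * (1 - eF c F v y)) + r * al A y) := by
      refine Finset.sum_le_sum (fun y hy => ?_)
      have hy' := Finset.ne_of_mem_erase hy
      have e1 : al (A.erase v) y = al A y := al_congr (by
        rw [Finset.mem_erase]; exact ⟨fun h => h.2, fun h => ⟨hy', h⟩⟩)
      unfold kk
      rw [hAv, hBv, e1]
      have e0 : eF c F v y = 0 ∨ eF c F v y = 1 := by unfold eF; split_ifs <;> simp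
      rcases al_cases A y with ⟨ha, -⟩ | ⟨ha, -⟩ <;> rcases e0 with he | he <;> rw [ha, he] <;> linarith
    have h6 : ∑ y ∈ univ.erase v, ((1 - al A y) * (eF c F v y - r * (1 - eF c F v y)) + r * al A y)
        = ∑ y, ((1 - al A y) * (eF c F v y - r * (1 - eF c F v y)) + r * al A y)
          - r := by
      rw [← Finset.add_sum_erase univ (fun y => (1 - al A y) * (eF c F v y - r * (1 - eF c F v y)) + r * al A y)
        (Finset.mem_univ v), hAv]
      ring
    have h7 : ∑ y, ((1 - al A y) * (eF c F v y - r * (1 - eF c F v y)) + r * al A y)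
        = ∑ y, (1 - al A y) * (eF c F v y - r * (1 - eF c F v y)) + r * A.card := by
      rw [Finset.sum_add_distrib, ← Finset.mul_sum, sum_al]
    rw [h3, h4, h4'] at h2
    rw [h6, h7] at h5
    nlinarith
  · intro v hv
    have hdv : eF c F v v = 0 := by unfold eF; rw [if_neg (hd v)]
    have h1 := hmin (insert v A) (Finset.mem_univ _)
    have h2 := Phi_compare c hc F r θ θ₂ A (insert v A) v (by
      intro x hx; rw [Finset.mem_insert]; exact ⟨fun h => Or.inr h, fun h => h.resolve_left hx⟩)
    have hAv : al A v = 0 := by unfold al; rw [if_neg hv]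
    have hBv : al (insert v A) v = 1 := by unfold al; rw [if_pos (Finset.mem_insert_self v A)]
    have h3 : kk c F r (insert v A) v v - kk c F r A v v = 0 := by
      unfold kk; rw [hAv, hBv, hdv]; ring
    have h4 : ((insert v A).card : ℝ) - A.card = 1 := by
      rw [Finset.card_insert_of_notMem hv]; push_cast; ring
    have h4' : ((insert v A).card : ℝ) ^ 2 - (A.card : ℝ) ^ 2 = 1 + 2 * A.card := by
      have : ((insert v A).card : ℝ) = A.card + 1 := by linarith
      rw [this]; ring
    have h5 : ∑ y ∈ univ.erase v, (kk c F r (insert v A) v y - kk c F r A v y)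
        = ∑ y ∈ univ.erase v, ((1 - al A y) * (r * (1 - eF c F v y) - eF c F v y)
          - r * (al A y * (1 - eF c F v y))) := by
      refine Finset.sum_congr rfl (fun y hy => ?_)
      have hy' := Finset.ne_of_mem_erase hy
      have e1 : al (insert v A) y = al A y := al_congr (by
        rw [Finset.mem_insert]; exact ⟨fun h => h.resolve_left hy', fun h => Or.inr h⟩)
      unfold kk
      rw [hAv, hBv, e1]
      ring
    have h6 : ∑ y ∈ univ.erase v, ((1 - al A y) * (r * (1 - eF c F v y) - eF c F v y)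
          - r * (al A y * (1 - eF c F v y)))
        = ∑ y, ((1 - al A y) * (r * (1 - eF c F v y) - eF c F v y)
          - r * (al A y * (1 - eF c F v y))) - r := by
      rw [← Finset.add_sum_erase univ (fun y => (1 - al A y) * (r * (1 - eF c F v y) - eF c F v y)
          - r * (al A y * (1 - eF c F v y))) (Finset.mem_univ v), hAv, hdv]
      ring
    have h7 : ∑ y, ((1 - al A y) * (r * (1 - eF c F v y) - eF c F v y)
          - r * (al A y * (1 - eF c F v y)))
        = ∑ y, (1 - al A y) * (r * (1 - eF c F v y) - eF c F v y)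
          - r * ∑ y, al A y * (1 - eF c F v y) := by
      rw [Finset.sum_sub_distrib, ← Finset.mul_sum]
    rw [h3, h4, h4', h5, h6, h7] at h2
    nlinarith

/-- recolouring of the diagonal -/
theorem recolour_diag (H : Finset (Finset V)) (h4 : ∀ e ∈ H, e.card = 4) (c : V × V → Fin 3)
    (hc : ∀ x : V × V, c x.swap = c x)
    (hm : ∀ c' : V × V → Fin 3, (∀ x, c' x.swap = c' x) → monoE (Adj H) c ≤ monoE (Adj H) c')
    (hl : ∀ T : V × V, ∀ j : Fin 3, nb (Adj H) c T (c T) ≤ nb (Adj H) c T j) (F' : Fin 3) :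
    ∃ c' : V × V → Fin 3, (∀ x : V × V, c' x.swap = c' x) ∧
      (∀ c'' : V × V → Fin 3, (∀ x, c'' x.swap = c'' x) → monoE (Adj H) c' ≤ monoE (Adj H) c'') ∧
      (∀ T : V × V, ∀ j : Fin 3, nb (Adj H) c' T (c' T) ≤ nb (Adj H) c' T j) ∧
      (∀ v, c' (v, v) = F') ∧ (∀ x : V × V, x.1 ≠ x.2 → c' x = c x) := by
  set c' : V × V → Fin 3 := fun x => if x.1 = x.2 then F' else c x with hc'
  have hoff : ∀ x : V × V, x.1 ≠ x.2 → c' x = c x := by
    intro x hx; simp only [hc', hx, if_false]
  have hiso : ∀ x y : V × V, Adj H x y → x.1 ≠ x.2 ∧ y.1 ≠ y.2 := by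
    intro x y h
    have := adj_distinct h4 h
    exact ⟨this.1, this.2.2.2.2.2⟩
  have hmono : monoE (Adj H) c' = monoE (Adj H) c := by
    unfold monoE
    refine Finset.sum_congr rfl (fun x _ => Finset.sum_congr rfl (fun y _ => ?_))
    by_cases h : Adj H x y
    · have h' := hiso x y h
      rw [hoff x h'.1, hoff y h'.2]
    · simp [h]
  have hnb : ∀ T j, nb (Adj H) c' T j = nb (Adj H) c T j := by
    intro T j
    unfold nb
    congr 1
    ext y
    simp only [Finset.mem_filter, Finset.mem_univ, true_and]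
    by_cases h : Adj H T y
    · rw [hoff y (hiso T y h).2]
    · simp [h]
  refine ⟨c', ?_, ?_, ?_, ?_, hoff⟩
  · intro x
    simp only [hc', Prod.fst_swap, Prod.snd_swap]
    by_cases h : x.1 = x.2
    · rw [if_pos h.symm, if_pos h]
    · rw [if_neg (fun hh => h hh.symm), if_neg h, hc]
  · intro c'' h''
    rw [hmono]; exact hm c'' h''
  · intro T j
    rw [hnb, hnb]
    by_cases h : T.1 = T.2
    · have h0 : nb (Adj H) c T (c' T) = 0 := by
        unfold nb
        rw [Finset.card_eq_zero, Finset.filter_eq_empty_iff]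
        rintro y - ⟨hy, -⟩
        exact (hiso T y hy).1 h
      rw [h0]; exact Nat.zero_le _
    · rw [hoff T h]; exact hl T j
  · intro v
    simp only [hc', if_true]

end Pool.Agent.C44
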