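import Mathlib

/-!
The pair graph of a 4-graph without expanded 4-clique: ordered pairs `(a,b)`, `(c,d)` are adjacent iff
`{a,b,c,d}` is an edge. It is symmetric, has no `K_4`, has exactly `24 |H|` ordered edges, and there is a
symmetric 3-colouring of the pairs which is a maximum cut, hence locally optimal at every pair.
-/

set_option autoImplicit false

open Finset Classical

namespace Pool.Agent.C44

variable {V : Type} [Fintype V] [DecidableEq V]

/-- adjacency of ordered pairs -/
def Adj (H : Finset (Finset V)) (x y : V × V) : Prop :=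
  ({x.1, x.2, y.1, y.2} : Finset V) ∈ H

/-- no expanded 4-clique -/
def Free (H : Finset (Finset V)) : Prop :=
  ¬ ∃ f : Fin 4 × Fin 2 → V, Function.Injective f ∧
    ∀ i j : Fin 4, i ≠ j → ({f (i, 0), f (i, 1), f (j, 0), f (j, 1)} : Finset V) ∈ H

omit [Fintype V] in
lemma adj_symm {H : Finset (Finset V)} {x y : V × V} (h : Adj H x y) : Adj H y x := by
  unfold Adj at h ⊢
  have : ({y.1, y.2, x.1, x.2} : Finset V) = {x.1, x.2, y.1, y.2} := by
    ext v; simp only [Finset.mem_insert, Finset.mem_singleton]; tauto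
  rwa [this]

omit [Fintype V] in
lemma adj_comm {H : Finset (Finset V)} {x y : V × V} : Adj H x y ↔ Adj H y x :=
  ⟨adj_symm, adj_symm⟩

omit [Fintype V] in
lemma adj_swap {H : Finset (Finset V)} {x y : V × V} : Adj H x.swap y ↔ Adj H x y := by
  unfold Adj
  have : ({x.swap.1, x.swap.2, y.1, y.2} : Finset V) = {x.1, x.2, y.1, y.2} := by
    ext v; simp only [Finset.mem_insert, Finset.mem_singleton, Prod.fst_swap, Prod.snd_swap]; tauto
  rw [this]

omit [Fintype V] in
lemma distinct_of_card {a b c d : V} (h : ({a, b, c, d} : Finset V).card = 4) :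
    a ≠ b ∧ a ≠ c ∧ a ≠ d ∧ b ≠ c ∧ b ≠ d ∧ c ≠ d := by
  have key : ∀ x y z : V, ({x, y, z} : Finset V).card ≤ 3 := fun x y z => Finset.card_le_three
  refine ⟨?_, ?_, ?_, ?_, ?_, ?_⟩ <;> rintro rfl
  · have : ({a, a, c, d} : Finset V) = {a, c, d} := by ext v; simp
    rw [this] at h; have := key a c d; omega
  · have : ({a, b, a, d} : Finset V) = {a, b, d} := by
      ext v; simp only [Finset.mem_insert, Finset.mem_singleton]; tauto
    rw [this] at h; have := key a b d; omega
  · have : ({a, b, c, a} : Finset V) = {a, b, c} := by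
      ext v; simp only [Finset.mem_insert, Finset.mem_singleton]; tauto
    rw [this] at h; have := key a b c; omega
  · have : ({a, b, b, d} : Finset V) = {a, b, d} := by
      ext v; simp only [Finset.mem_insert, Finset.mem_singleton]; tauto
    rw [this] at h; have := key a b d; omega
  · have : ({a, b, c, b} : Finset V) = {a, b, c} := by
      ext v; simp only [Finset.mem_insert, Finset.mem_singleton]; tauto
    rw [this] at h; have := key a b c; omega
  · have : ({a, b, c, c} : Finset V) = {a, b, c} := by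
      ext v; simp only [Finset.mem_insert, Finset.mem_singleton]; tauto
    rw [this] at h; have := key a b c; omega

omit [Fintype V] in
lemma adj_distinct {H : Finset (Finset V)} (h4 : ∀ e ∈ H, e.card = 4) {x y : V × V} (h : Adj H x y) :
    x.1 ≠ x.2 ∧ x.1 ≠ y.1 ∧ x.1 ≠ y.2 ∧ x.2 ≠ y.1 ∧ x.2 ≠ y.2 ∧ y.1 ≠ y.2 :=
  distinct_of_card (h4 _ h)

omit [Fintype V] in
lemma not_adj_self {H : Finset (Finset V)} (h4 : ∀ e ∈ H, e.card = 4) (x : V × V) : ¬ Adj H x x :=
  fun h => (adj_distinct h4 h).2.1 rfl

omit [Fintype V] in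
lemma not_adj_swap {H : Finset (Finset V)} (h4 : ∀ e ∈ H, e.card = 4) (x : V × V) : ¬ Adj H x x.swap :=
  fun h => (adj_distinct h4 h).2.2.1 rfl

omit [Fintype V] in
/-- the pair graph has no `K_4` -/
lemma pair_k4free {H : Finset (Finset V)} (h4 : ∀ e ∈ H, e.card = 4) (hf : Free H)
    (x : Fin 4 → V × V) : ¬ ∀ i j : Fin 4, i ≠ j → Adj H (x i) (x j) := by
  intro h
  apply hf
  refine ⟨fun p => if p.2 = 0 then (x p.1).1 else (x p.1).2, ?_, ?_⟩
  · have hex : ∀ i : Fin 4, ∃ j : Fin 4, i ≠ j := by decide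
    rintro ⟨i, a⟩ ⟨j, b⟩ hij
    simp only at hij
    by_cases hne : i = j
    · subst hne
      obtain ⟨k, hk⟩ := hex i
      have hd := adj_distinct h4 (h i k hk)
      fin_cases a <;> fin_cases b <;> simp at hij ⊢
      · exact hd.1 hij
      · exact hd.1 hij.symm
    · have hd := adj_distinct h4 (h i j hne)
      exfalso
      fin_cases a <;> fin_cases b <;> simp at hij
      · exact hd.2.1 hij
      · exact hd.2.2.1 hij
      · exact hd.2.2.2.1 hij
      · exact hd.2.2.2.2.1 hij
  · intro i j hij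
    exact h i j hij

/-- number of 4-tuples spanning an edge -/
lemma tuple_count (H : Finset (Finset V)) (h4 : ∀ e ∈ H, e.card = 4) :
    (univ.filter (fun x : Fin 4 → V => Finset.image x univ ∈ H)).card = 24 * H.card := by
  rw [Finset.card_eq_sum_card_fiberwise (f := fun x : Fin 4 → V => Finset.image x univ) (t := H)
    (fun x hx => by
      have := (Finset.mem_filter.1 hx).2
      exact this)]
  rw [Finset.sum_congr rfl (g := fun _ => 24), Finset.sum_const, smul_eq_mul, mul_comm]
  intro e he
  have hcard := h4 e he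
  have h1 : Fintype.card (Fin 4 ↪ e) = 24 := by
    rw [Fintype.card_embedding_eq]
    simp [hcard, Nat.descFactorial]
  apply le_antisymm
  · rw [← h1, ← Finset.card_univ]
    refine Finset.card_le_card_of_surjOn (s := (univ : Finset (Fin 4 ↪ e))) (fun g i => ((g i : e) : V)) ?_
    intro x hx
    simp only [Finset.coe_filter, Finset.mem_filter, Finset.mem_univ, true_and, Set.mem_ofPred_eq] at hx
    obtain ⟨-, him⟩ := hx
    have hinj : Function.Injective x := by
      have : (Finset.image x univ).card = (univ : Finset (Fin 4)).card := by rw [him, hcard]; simp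
      exact fun a b hab => (Finset.card_image_iff.1 this) (by simp) (by simp) hab
    refine ⟨⟨fun i => ⟨x i, ?_⟩, ?_⟩, by simp, ?_⟩
    · rw [← him]; exact Finset.mem_image_of_mem _ (Finset.mem_univ _)
    · intro i j hij
      simp only [Subtype.mk.injEq] at hij
      exact hinj hij
    · rfl
  · rw [← h1, ← Finset.card_univ]
    refine Finset.card_le_card_of_injOn (fun g i => ((g i : e) : V)) ?_ ?_
    · intro g _
      have him : Finset.image (fun i => ((g i : e) : V)) univ = e := by
        apply Finset.eq_of_subset_of_card_le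
        · intro v hv
          obtain ⟨i, -, rfl⟩ := Finset.mem_image.1 hv
          exact (g i).2
        · have hci : (Finset.image (fun i => ((g i : e) : V)) univ).card = (univ : Finset (Fin 4)).card :=
            Finset.card_image_of_injective _ (fun a b hab => g.injective (Subtype.val_injective hab))
          rw [hci, hcard]; simp
      simp only [Finset.coe_filter, Finset.mem_filter, Finset.mem_univ, true_and, Set.mem_ofPred_eq]
      exact ⟨by rw [him]; exact he, him⟩
    · intro g _ g' _ hgg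
      ext i
      exact congrFun hgg i

/-- number of ordered edges of the pair graph -/
lemma pair_count (H : Finset (Finset V)) (h4 : ∀ e ∈ H, e.card = 4) :
    (univ.filter (fun p : (V × V) × (V × V) => Adj H p.1 p.2)).card = 24 * H.card := by
  rw [← tuple_count H h4]
  refine Finset.card_bij' (fun p _ => ![p.1.1, p.1.2, p.2.1, p.2.2])
    (fun x _ => ((x 0, x 1), (x 2, x 3))) ?_ ?_ ?_ ?_
  · rintro ⟨⟨a, b⟩, ⟨c, d⟩⟩ h
    simp only [Finset.mem_filter, Finset.mem_univ, true_and, Adj] at h ⊢
    have : Finset.image ![a, b, c, d] univ = {a, b, c, d} := by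
      ext v
      simp only [Finset.mem_image, Finset.mem_univ, true_and, Finset.mem_insert, Finset.mem_singleton]
      constructor
      · rintro ⟨i, rfl⟩; fin_cases i <;> simp
      · rintro (rfl | rfl | rfl | rfl)
        exacts [⟨0, rfl⟩, ⟨1, rfl⟩, ⟨2, rfl⟩, ⟨3, rfl⟩]
    rw [this]; exact h
  · intro x h
    simp only [Finset.mem_filter, Finset.mem_univ, true_and, Adj] at h ⊢
    have : Finset.image x univ = {x 0, x 1, x 2, x 3} := by
      ext v
      simp only [Finset.mem_image, Finset.mem_univ, true_and, Finset.mem_insert, Finset.mem_singleton]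
      constructor
      · rintro ⟨i, rfl⟩; fin_cases i <;> simp
      · rintro (rfl | rfl | rfl | rfl)
        exacts [⟨0, rfl⟩, ⟨1, rfl⟩, ⟨2, rfl⟩, ⟨3, rfl⟩]
    rw [this] at h; exact h
  · rintro ⟨⟨a, b⟩, ⟨c, d⟩⟩ _
    rfl
  · intro x _
    ext i
    fin_cases i <;> rfl

/-! ### maximum cut -/

section MaxCut

variable {Ω : Type} [Fintype Ω]

/-- number of ordered monochromatic edges -/
noncomputable def monoE (R : Ω → Ω → Prop) (c : Ω → Fin 3) : ℕ :=
  ∑ x, ∑ y, if R x y ∧ c x = c y then 1 else 0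

/-- number of neighbours of `x` of colour `j` -/
noncomputable def nb (R : Ω → Ω → Prop) (c : Ω → Fin 3) (x : Ω) (j : Fin 3) : ℕ :=
  (univ.filter (fun y => R x y ∧ c y = j)).card

lemma monoE_split (R : Ω → Ω → Prop) (hs : ∀ x y, R x y → R y x) (τ : Ω → Ω)
    (hR : ∀ x y, R (τ x) y ↔ R x y) (hi : ∀ x, ¬ R x x) (T : Ω)
    (c : Ω → Fin 3) (hc : c (τ T) = c T) :
    monoE R c = (∑ x ∈ ({T, τ T} : Finset Ω)ᶜ, ∑ y ∈ ({T, τ T} : Finset Ω)ᶜ,
      (if R x y ∧ c x = c y then 1 else 0)) + 2 * (({T, τ T} : Finset Ω).card * nb R c T (c T)) := by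
  set D : Finset Ω := {T, τ T} with hD
  have hDn : ∀ x ∈ D, ∀ y, R x y ↔ R T y := by
    intro x hx y
    rw [hD, Finset.mem_insert, Finset.mem_singleton] at hx
    rcases hx with rfl | rfl
    · rfl
    · exact hR T y
  have hDc : ∀ x ∈ D, c x = c T := by
    intro x hx
    rw [hD, Finset.mem_insert, Finset.mem_singleton] at hx
    rcases hx with rfl | rfl
    · rfl
    · exact hc
  have hTD : ∀ y ∈ D, ¬ R T y := by
    intro y hy h
    have h1 := hs _ _ h
    rw [hDn y hy] at h1
    exact hi T h1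
  have key : ∀ x ∈ D, ∑ y ∈ Dᶜ, (if R x y ∧ c x = c y then 1 else 0) = nb R c T (c T) := by
    intro x hx
    rw [nb, Finset.card_filter, ← Finset.sum_add_sum_compl D]
    rw [Finset.sum_eq_zero (s := D), zero_add]
    · refine Finset.sum_congr rfl ?_
      intro y _
      rw [hDc x hx]
      by_cases h : R T y
      · simp [(hDn x hx y).2 h, h, eq_comm]
      · have h' : ¬ R x y := fun hh => h ((hDn x hx y).1 hh)
        simp [h, h']
    · intro y hy
      simp [hTD y hy]
  have key2 : ∀ x ∈ D, ∑ y ∈ D, (if R x y ∧ c x = c y then 1 else 0) = 0 := by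
    intro x hx
    refine Finset.sum_eq_zero ?_
    intro y hy
    have : ¬ R x y := fun hh => hTD y hy ((hDn x hx y).1 hh)
    simp [this]
  have e1 : ∑ x ∈ D, ∑ y, (if R x y ∧ c x = c y then 1 else 0) = D.card * nb R c T (c T) := by
    rw [Finset.sum_congr rfl (g := fun _ => nb R c T (c T)), Finset.sum_const, smul_eq_mul]
    intro x hx
    rw [← Finset.sum_add_sum_compl D, key2 x hx, key x hx, zero_add]
  have e2 : ∑ x ∈ Dᶜ, ∑ y ∈ D, (if R x y ∧ c x = c y then 1 else 0) = D.card * nb R c T (c T) := by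
    rw [Finset.sum_comm, Finset.sum_congr rfl (g := fun _ => nb R c T (c T)), Finset.sum_const, smul_eq_mul]
    intro y hy
    rw [← key y hy]
    refine Finset.sum_congr rfl ?_
    intro x _
    by_cases h : R x y
    · simp [h, hs _ _ h, eq_comm]
    · have h' : ¬ R y x := fun hh => h (hs _ _ hh)
      simp [h, h']
  rw [monoE, ← Finset.sum_add_sum_compl D, e1]
  have e3 : ∑ x ∈ Dᶜ, ∑ y, (if R x y ∧ c x = c y then 1 else 0)
      = ∑ x ∈ Dᶜ, ∑ y ∈ D, (if R x y ∧ c x = c y then 1 else 0)
        + ∑ x ∈ Dᶜ, ∑ y ∈ Dᶜ, (if R x y ∧ c x = c y then 1 else 0) := by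
    rw [← Finset.sum_add_distrib]
    refine Finset.sum_congr rfl ?_
    intro x _
    rw [← Finset.sum_add_sum_compl D]
  rw [e3, e2]
  ring

/-- existence of a locally optimal colouring invariant under an involution -/
theorem exists_maxcut (R : Ω → Ω → Prop) (hs : ∀ x y, R x y → R y x) (τ : Ω → Ω) (hτ : ∀ x, τ (τ x) = x)
    (hR : ∀ x y, R (τ x) y ↔ R x y) (hi : ∀ x, ¬ R x x) :
    ∃ c : Ω → Fin 3, (∀ x, c (τ x) = c x) ∧
      (∀ c' : Ω → Fin 3, (∀ x, c' (τ x) = c' x) → monoE R c ≤ monoE R c') ∧
      ∀ T : Ω, ∀ j : Fin 3, nb R c T (c T) ≤ nb R c T j := by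
  obtain ⟨c, hc, hmin⟩ := Finset.exists_min_image
    (univ.filter (fun c : Ω → Fin 3 => ∀ x, c (τ x) = c x)) (monoE R) ⟨fun _ => 0, by simp⟩
  rw [Finset.mem_filter] at hc
  have hmin' : ∀ c' : Ω → Fin 3, (∀ x, c' (τ x) = c' x) → monoE R c ≤ monoE R c' :=
    fun c' hc' => hmin c' (by rw [Finset.mem_filter]; exact ⟨Finset.mem_univ _, hc'⟩)
  refine ⟨c, hc.2, hmin', ?_⟩
  intro T j
  set D : Finset Ω := {T, τ T} with hD
  set c' : Ω → Fin 3 := fun x => if x ∈ D then j else c x with hc'
  have hTD : T ∈ D := by simp [hD]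
  have hinv : ∀ x, c' (τ x) = c' x := by
    intro x
    have : τ x ∈ D ↔ x ∈ D := by
      rw [hD, Finset.mem_insert, Finset.mem_singleton, Finset.mem_insert, Finset.mem_singleton]
      constructor
      · rintro (h | h)
        · right; rw [← h, hτ]
        · left; rw [← hτ x, h, hτ]
      · rintro (h | h)
        · right; rw [h]
        · left; rw [h, hτ]
    simp only [hc', this, hc.2 x]
  have h1 := monoE_split R hs τ hR hi T c (hc.2 T)
  have h2 := monoE_split R hs τ hR hi T c' (hinv T)
  rw [← hD] at h1 h2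
  have h3 := hmin' c' hinv
  rw [h1, h2] at h3
  have h4 : ∑ x ∈ Dᶜ, ∑ y ∈ Dᶜ, (if R x y ∧ c' x = c' y then 1 else 0)
      = ∑ x ∈ Dᶜ, ∑ y ∈ Dᶜ, (if R x y ∧ c x = c y then 1 else 0) := by
    refine Finset.sum_congr rfl ?_
    intro x hx
    refine Finset.sum_congr rfl ?_
    intro y hy
    rw [Finset.mem_compl] at hx hy
    simp only [hc', hx, hy, if_false]
  have h5 : c' T = j := by simp only [hc', hTD, if_true]
  have h6 : nb R c' T j = nb R c T j := by
    unfold nb
    congr 1
    ext y
    simp only [Finset.mem_filter, Finset.mem_univ, true_and]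
    by_cases hy : y ∈ D
    · have : ¬ R T y := by
        intro h
        have h1 := hs _ _ h
        rw [hD, Finset.mem_insert, Finset.mem_singleton] at hy
        rcases hy with rfl | rfl
        · exact hi _ h
        · rw [hR] at h1; exact hi _ h1
      simp [this]
    · simp only [hc', hy, if_false]
  rw [h4, h5, h6] at h3
  have h7 : 0 < D.card := Finset.card_pos.2 ⟨T, hTD⟩
  have h8 : D.card * nb R c T (c T) ≤ D.card * nb R c T j := by omega
  exact Nat.le_of_mul_le_mul_left h8 h7

end MaxCut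

/-- a symmetric maximum cut of the pair graph -/
theorem pair_maxcut (H : Finset (Finset V)) (h4 : ∀ e ∈ H, e.card = 4) :
    ∃ c : V × V → Fin 3, (∀ x, c x.swap = c x) ∧
      (∀ c' : V × V → Fin 3, (∀ x, c' x.swap = c' x) → monoE (Adj H) c ≤ monoE (Adj H) c') ∧
      ∀ T : V × V, ∀ j : Fin 3, nb (Adj H) c T (c T) ≤ nb (Adj H) c T j :=
  exists_maxcut (Adj H) (fun _ _ h => adj_symm h) Prod.swap (fun x => Prod.swap_swap x)
    (fun _ _ => adj_swap) (fun x => not_adj_self h4 x)

end Pool.Agent.C44
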