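import Pool.Agent.C44.Lower2
import Pool.Agent.C44.PairGraph

/-!
From `24 |H| <= (9/14) n^4 + K n^3` for all 4-graphs without expanded 4-clique to S09431.
-/

set_option autoImplicit false

open Finset

namespace Pool.Agent.C44

lemma choose_four_lower (n : ℕ) : (n : ℝ) ^ 4 - 6 * (n : ℝ) ^ 3 ≤ 24 * ((n.choose 4 : ℕ) : ℝ) := by
  have h1 : 24 * n.choose 4 = n.descFactorial 4 := by
    rw [Nat.descFactorial_eq_factorial_mul_choose]; rfl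
  have h1' : 24 * ((n.choose 4 : ℕ) : ℝ) = (n.descFactorial 4 : ℝ) := by exact_mod_cast h1
  rw [h1']
  rcases Nat.lt_or_ge n 3 with h | h
  · interval_cases n <;> norm_num
  · obtain ⟨m, rfl⟩ := Nat.exists_eq_add_of_le h
    have : (3 + m).descFactorial 4 = (3 + m) * (2 + m) * (1 + m) * m := by
      simp only [Nat.descFactorial_succ, Nat.descFactorial_zero]
      have e1 : 3 + m - 3 = m := by omega
      have e2 : 3 + m - 2 = 1 + m := by omega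
      have e3 : 3 + m - 1 = 2 + m := by omega
      have e4 : 3 + m - 0 = 3 + m := by omega
      rw [e1, e2, e3, e4]; ring
    rw [this]
    push_cast
    have hm : (0 : ℝ) ≤ m := Nat.cast_nonneg m
    nlinarith [mul_nonneg hm hm, hm]

/-- upper bound half of S09431 from a count of ordered tuples -/
theorem upper_of_count (K : ℝ)
    (h : ∀ (n : ℕ) (H : Finset (Finset (Fin n))), (∀ e ∈ H, e.card = 4) → Free H →
      24 * (H.card : ℝ) ≤ 9 / 14 * (n : ℝ) ^ 4 + K * (n : ℝ) ^ 3)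
    (ε : ℝ) (hε : 0 < ε) : ∃ N : ℕ, ∀ n : ℕ, N ≤ n →
      ∀ H : Finset (Finset (Fin n)), (∀ e ∈ H, e.card = 4) →
        (¬ ∃ f : Fin 4 × Fin 2 → Fin n, Function.Injective f ∧
            ∀ i j : Fin 4, i ≠ j →
              ({f (i, 0), f (i, 1), f (j, 0), f (j, 1)} : Finset (Fin n)) ∈ H) →
        (H.card : ℝ) ≤ (9 / 14 + ε) * ((n.choose 4 : ℕ) : ℝ) := by
  refine ⟨⌈(K + 4 + 6 * ε) / ε⌉₊, ?_⟩
  intro n hn H h4 hf
  have hn0 : (0 : ℝ) ≤ n := Nat.cast_nonneg n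
  have h1 : (K + 4 + 6 * ε) / ε ≤ n := le_trans (Nat.le_ceil _) (by exact_mod_cast hn)
  rw [div_le_iff₀ hε] at h1
  have h2 := h n H h4 hf
  have h3 := choose_four_lower n
  have h4' : (K + 4 + 6 * ε) * (n : ℝ) ^ 3 ≤ ε * (n : ℝ) ^ 4 := by
    have := mul_le_mul_of_nonneg_right h1 (by positivity : (0 : ℝ) ≤ (n : ℝ) ^ 3)
    calc (K + 4 + 6 * ε) * (n : ℝ) ^ 3 ≤ (n : ℝ) * ε * (n : ℝ) ^ 3 := this
      _ = ε * (n : ℝ) ^ 4 := by ring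
  have h5 : (9 / 14 + ε) * ((n : ℝ) ^ 4 - 6 * (n : ℝ) ^ 3) ≤ (9 / 14 + ε) * (24 * ((n.choose 4 : ℕ) : ℝ)) :=
    mul_le_mul_of_nonneg_left h3 (by linarith)
  have h6 : (9 / 14 + ε) * ((n : ℝ) ^ 4 - 6 * (n : ℝ) ^ 3)
      = 9 / 14 * (n : ℝ) ^ 4 + ε * (n : ℝ) ^ 4 - 27 / 7 * (n : ℝ) ^ 3 - 6 * (ε * (n : ℝ) ^ 3) := by ring
  have h7 : (K + 4 + 6 * ε) * (n : ℝ) ^ 3
      = K * (n : ℝ) ^ 3 + 4 * (n : ℝ) ^ 3 + 6 * (ε * (n : ℝ) ^ 3) := by ring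
  have h8 : (0 : ℝ) ≤ (n : ℝ) ^ 3 := by positivity
  have h9 : (9 / 14 + ε) * (24 * ((n.choose 4 : ℕ) : ℝ)) = 24 * ((9 / 14 + ε) * ((n.choose 4 : ℕ) : ℝ)) := by
    ring
  linarith

/-- S09431 from the upper count -/
theorem main_of_count (K : ℝ)
    (h : ∀ (n : ℕ) (H : Finset (Finset (Fin n))), (∀ e ∈ H, e.card = 4) → Free H →
      24 * (H.card : ℝ) ≤ 9 / 14 * (n : ℝ) ^ 4 + K * (n : ℝ) ^ 3) :
    ∀ ε : ℝ, 0 < ε → ∃ N : ℕ, ∀ n : ℕ, N ≤ n →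
      (∀ H : Finset (Finset (Fin n)), (∀ e ∈ H, e.card = 4) →
        (¬ ∃ f : Fin 4 × Fin 2 → Fin n, Function.Injective f ∧
            ∀ i j : Fin 4, i ≠ j →
              ({f (i, 0), f (i, 1), f (j, 0), f (j, 1)} : Finset (Fin n)) ∈ H) →
        (H.card : ℝ) ≤ (9 / 14 + ε) * ((n.choose 4 : ℕ) : ℝ)) ∧
      (∃ H : Finset (Finset (Fin n)), (∀ e ∈ H, e.card = 4) ∧
        (¬ ∃ f : Fin 4 × Fin 2 → Fin n, Function.Injective f ∧
            ∀ i j : Fin 4, i ≠ j →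
              ({f (i, 0), f (i, 1), f (j, 0), f (j, 1)} : Finset (Fin n)) ∈ H) ∧
        (9 / 14 - ε) * ((n.choose 4 : ℕ) : ℝ) ≤ (H.card : ℝ)) := by
  intro ε hε
  obtain ⟨N1, hN1⟩ := upper_of_count K h ε hε
  obtain ⟨N2, hN2⟩ := lower ε hε
  refine ⟨max N1 N2, fun n hn => ⟨?_, ?_⟩⟩
  · exact hN1 n (le_trans (le_max_left _ _) hn)
  · exact hN2 n (le_trans (le_max_right _ _) hn)

end Pool.Agent.C44
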