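import Pool.Agent.C44.Acct2
import Pool.Agent.C44.Opt
import Pool.Agent.C44.Wrap

/-!
Targets of the flag computations for the upper bound of S09431: `SOne`, `KFour`, `STwo`.
-/

set_option autoImplicit false

open Finset Classical

namespace Pool.Agent.C44

section defs
variable {V : Type} [Fintype V] [DecidableEq V]

/-- a symmetric 3-colouring of the ordered pairs with the minimal number of monochromatic adjacencies -/
structure IsCut (H : Finset (Finset V)) (c : V × V → Fin 3) : Prop where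
  symm : ∀ x : V × V, c x.swap = c x
  glob : ∀ c' : V × V → Fin 3, (∀ x, c' x.swap = c' x) → monoE (Adj H) c ≤ monoE (Adj H) c'
  loc : ∀ T : V × V, ∀ j : Fin 3, nb (Adj H) c T (c T) ≤ nb (Adj H) c T j

/-- the vertices joined to `v` in colour `F` -/
noncomputable def NF (c : V × V → Fin 3) (F : Fin 3) (v : V) : Finset V :=
  univ.filter (fun x => c (v, x) = F)

/-- local optimality inside `A` -/
def LA (c : V × V → Fin 3) (F : Fin 3) (r θ θ₂ : ℝ) (A : Finset V) : Prop :=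
  ∀ v ∈ A, 0 ≤ ∑ y, (1 - al A y) * (eF c F v y - r * (1 - eF c F v y)) + (r - θ₂) * A.card
        - θ * Fintype.card V / 2

/-- local optimality outside `A` -/
def LD (c : V × V → Fin 3) (F : Fin 3) (r θ θ₂ : ℝ) (A : Finset V) : Prop :=
  ∀ v, v ∉ A → 0 ≤ ∑ y, (1 - al A y) * (r * (1 - eF c F v y) - eF c F v y)
        - r * ∑ y, al A y * (1 - eF c F v y) + θ₂ * A.card + θ * Fintype.card V / 2

/-- total value -/
noncomputable def VAL (A : Finset V) (c : V × V → Fin 3) (w σ : ℝ) : ℝ :=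
  ∑ a, ∑ b, ∑ d, ∑ e, val A c (fun _ => w) σ a b d e

end defs

/-- dense 4-graph without expanded 4-clique -/
structure Good {n : ℕ} (H : Finset (Finset (Fin n))) : Prop where
  unif : ∀ e ∈ H, e.card = 4
  free : Free H
  dense : 9 / 14 * (n : ℝ) ^ 4 < 24 * (H.card : ℝ)

/-- **S1** -/
def SOne (y₀ : ℝ) : Prop := ∀ (n : ℕ) (H : Finset (Finset (Fin n))), Good H →
  ∀ c, IsCut H c → (monoE (Adj H) c : ℝ) ≤ y₀ * (n : ℝ) ^ 4

/-- **K4** (for `ζ = 0` the set is empty) -/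
def KFour (y₀ ζ w σ : ℝ) : Prop := ∀ (n : ℕ) (H : Finset (Finset (Fin n))), Good H →
  ∀ c, IsCut H c → (monoE (Adj H) c : ℝ) ≤ y₀ * (n : ℝ) ^ 4 →
  ∀ A : Finset (Fin n), (A.card : ℝ) ^ 2 ≤ ζ * (n : ℝ) ^ 2 →
    w * ∑ i, (Ymono H A c i : ℝ) ≤ σ * Mmiss H A c

/-- **S2'** -/
def STwo (w₀ σ₀ r θ θ₂ κ : ℝ) : Prop := ∀ (n : ℕ) (c : Fin n × Fin n → Fin 3), 0 < n →
  (∀ x : Fin n × Fin n, c x.swap = c x) → 9 / 14 * (n : ℝ) ^ 4 ≤ VAL ∅ c w₀ σ₀ →
  ∃ (v : Fin n) (F : Fin 3), PhF c F r θ θ₂ (NF c F v) < κ * (n : ℝ) ^ 2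

/-- accounting for a cut with `K4` -/
lemma count_le_VAL {n : ℕ} {H : Finset (Finset (Fin n))} (hH : Good H) (c : Fin n × Fin n → Fin 3)
    (A : Finset (Fin n)) (hA : A.card ≤ 4 * Aᶜ.card) (w σ : ℝ)
    (hK : w * ∑ i, (Ymono H A c i : ℝ) ≤ σ * Mmiss H A c) :
    24 * (H.card : ℝ) ≤ VAL A c w σ := by
  have h := accounting H hH.unif hH.free A hA c (fun _ => w) σ
  rw [← Finset.mul_sum] at h
  unfold VAL
  linarith

lemma Phi_recolour {V : Type} [Fintype V] [DecidableEq V] (c c' : V × V → Fin 3) (F : Fin 3) (r θ θ₂ : ℝ)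
    (A : Finset V) (hd : ∀ v, c' (v, v) ≠ F) (ho : ∀ x : V × V, x.1 ≠ x.2 → c' x = c x) :
    PhF c' F r θ θ₂ A ≤ PhF c F r θ θ₂ A := by
  unfold PhF
  have : ∀ x y, kk c' F r A x y ≤ kk c F r A x y := by
    intro x y
    by_cases h : x = y
    · subst h
      have h1 : eF c' F x x = 0 := by unfold eF; rw [if_neg (hd x)]
      have h2 : 0 ≤ eF c F x x := by unfold eF; split_ifs <;> norm_num
      unfold kk
      rw [h1]
      rcases al_cases A x with ⟨ha, -⟩ | ⟨ha, -⟩ <;> rw [ha] <;> nlinarith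
    · unfold kk
      have : eF c' F x y = eF c F x y := by
        unfold eF; rw [ho (x, y) h]
      rw [this]
  have h2 : ∑ x, ∑ y, kk c' F r A x y ≤ ∑ x, ∑ y, kk c F r A x y :=
    Finset.sum_le_sum (fun x _ => Finset.sum_le_sum (fun y _ => this x y))
  linarith

/-- `θ |A| n + θ₂ |A|^2 ≤ PhF` -/
lemma card_le_Phi {V : Type} [Fintype V] [DecidableEq V] (c : V × V → Fin 3) (F : Fin 3) (r θ θ₂ : ℝ)
    (hr : 0 ≤ r) (A : Finset V) :
    θ * Fintype.card V * A.card + θ₂ * (A.card : ℝ) ^ 2 ≤ PhF c F r θ θ₂ A := by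
  unfold PhF
  have : 0 ≤ ∑ x, ∑ y, kk c F r A x y := by
    refine Finset.sum_nonneg (fun x _ => Finset.sum_nonneg (fun y _ => ?_))
    have h1 : 0 ≤ eF c F x y ∧ eF c F x y ≤ 1 := by unfold eF; split_ifs <;> norm_num
    unfold kk
    rcases al_cases A x with ⟨ha, -⟩ | ⟨ha, -⟩ <;> rcases al_cases A y with ⟨hb, -⟩ | ⟨hb, -⟩ <;>
      rw [ha, hb] <;> nlinarith [mul_nonneg hr (sub_nonneg.2 h1.2), h1.1]
  linarith

end Pool.Agent.C44
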