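import Pool.Agent.C44.PairGraph

/-!
Fueredi's argument for `K_4`-free graphs, invariant under an involution of twins: there is a 3-colouring with
`3 (e + mono) <= 2 |Ω|^2` (ordered counts).
-/

set_option autoImplicit false

open Finset Classical

namespace Pool.Agent.C44

section
variable {Ω : Type} [Fintype Ω] [DecidableEq Ω]

/-- ordered number of edges inside a set -/
noncomputable def EE (R : Ω → Ω → Prop) (S : Finset Ω) : ℕ := ∑ a ∈ S, ∑ b ∈ S, if R a b then 1 else 0

/-- degree into a set -/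
noncomputable def dg (R : Ω → Ω → Prop) (S : Finset Ω) (a : Ω) : ℕ := ∑ b ∈ S, if R a b then 1 else 0

omit [Fintype Ω] [DecidableEq Ω] in
lemma dg_eq_card (R : Ω → Ω → Prop) (S : Finset Ω) (a : Ω) : dg R S a = (S.filter (R a)).card := by
  unfold dg; rw [Finset.card_filter]

omit [Fintype Ω] in
lemma furedi_step (R : Ω → Ω → Prop) (hs : ∀ x y, R x y → R y x) (S : Finset Ω) (x : Ω)
    (hx : ∀ y ∈ S, dg R S y ≤ dg R S x) :
    EE R S + EE R (S \ S.filter (R x)) ≤ 2 * ((S \ S.filter (R x)).card * (S.filter (R x)).card)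
      + EE R (S.filter (R x)) := by
  set N := S.filter (R x) with hN
  set I := S \ N with hI
  have hNS : N ⊆ S := Finset.filter_subset _ _
  have split : ∀ f : Ω → ℕ, ∑ a ∈ S, f a = ∑ a ∈ I, f a + ∑ a ∈ N, f a := by
    intro f
    rw [hI, Finset.sum_sdiff hNS]
  have e1 : EE R S = ∑ a ∈ I, dg R S a + ∑ a ∈ N, dg R S a := by
    unfold EE; rw [split]; rfl
  have e2 : ∀ a, dg R S a = dg R I a + dg R N a := by
    intro a; unfold dg; rw [split]
  have e3 : ∑ a ∈ N, dg R S a = ∑ a ∈ N, dg R I a + EE R N := by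
    simp only [e2]; rw [Finset.sum_add_distrib]; rfl
  have e4 : ∑ a ∈ I, dg R S a = EE R I + ∑ a ∈ I, dg R N a := by
    simp only [e2]; rw [Finset.sum_add_distrib]; rfl
  have e5 : ∑ a ∈ N, dg R I a = ∑ a ∈ I, dg R N a := by
    unfold dg
    rw [Finset.sum_comm]
    refine Finset.sum_congr rfl (fun b _ => Finset.sum_congr rfl (fun a _ => ?_))
    by_cases h : R a b
    · rw [if_pos h, if_pos (hs _ _ h)]
    · rw [if_neg h, if_neg (fun hh => h (hs _ _ hh))]
  have e6 : ∑ a ∈ I, dg R S a ≤ I.card * N.card := by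
    have h : ∀ a ∈ I, dg R S a ≤ N.card := by
      intro a ha
      have := hx a (Finset.mem_sdiff.1 ha).1
      rwa [dg_eq_card R S x] at this
    calc ∑ a ∈ I, dg R S a ≤ ∑ _a ∈ I, N.card := Finset.sum_le_sum h
      _ = I.card * N.card := by rw [Finset.sum_const, smul_eq_mul]
  omega

omit [Fintype Ω] [DecidableEq Ω] in
lemma EE_eq_zero (R : Ω → Ω → Prop) (S : Finset Ω) (h : ∀ a ∈ S, ∀ b ∈ S, ¬ R a b) : EE R S = 0 := by
  unfold EE
  refine Finset.sum_eq_zero (fun a ha => Finset.sum_eq_zero (fun b hb => ?_))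
  rw [if_neg (h a ha b hb)]

lemma three_ineq (a b c : ℕ) : 3 * (2 * (a * (b + c)) + 2 * (b * c)) ≤ 2 * (a + (b + c)) ^ 2 := by
  zify
  nlinarith [sq_nonneg ((a : ℤ) - b), sq_nonneg ((a : ℤ) - c), sq_nonneg ((b : ℤ) - c)]

/-- **Fueredi's colouring** -/
theorem exists_three (R : Ω → Ω → Prop) (hs : ∀ x y, R x y → R y x) (τ : Ω → Ω)
    (hR : ∀ x y, R (τ x) y ↔ R x y)
    (hK : ∀ a b d e, ¬ (R a b ∧ R a d ∧ R a e ∧ R b d ∧ R b e ∧ R d e)) :
    ∃ c : Ω → Fin 3, (∀ x, c (τ x) = c x) ∧
      3 * (EE R univ + monoE R c) ≤ 2 * Fintype.card Ω ^ 2 := by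
  have hR' : ∀ x y, R y (τ x) ↔ R y x := fun x y =>
    ⟨fun h => hs _ _ ((hR x y).1 (hs _ _ h)), fun h => hs _ _ ((hR x y).2 (hs _ _ h))⟩
  rcases isEmpty_or_nonempty Ω with hE | ⟨⟨o⟩⟩
  · refine ⟨fun _ => 0, fun _ => rfl, ?_⟩
    have h1 : EE R univ = 0 := EE_eq_zero R _ (fun a _ => (hE.false a).elim)
    have h2 : monoE R (fun _ : Ω => (0 : Fin 3)) = 0 := by
      unfold monoE
      exact Finset.sum_eq_zero (fun a _ => (hE.false a).elim)
    rw [h1, h2]; simp
  obtain ⟨x, -, hx⟩ := Finset.exists_max_image (univ : Finset Ω) (dg R univ) ⟨o, Finset.mem_univ _⟩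
  have st1 := furedi_step R hs univ x (fun y hy => hx y hy)
  set N1 := (univ : Finset Ω).filter (R x) with hN1
  rcases N1.eq_empty_or_nonempty with h0 | hne
  · refine ⟨fun _ => 0, fun _ => rfl, ?_⟩
    have hno : ∀ a b, ¬ R a b := by
      intro a b hab
      have h1 := hx a (Finset.mem_univ _)
      rw [dg_eq_card R univ x, ← hN1, h0, Finset.card_empty, dg_eq_card] at h1
      have : b ∈ (univ : Finset Ω).filter (R a) := by simp [hab]
      have := Finset.card_pos.2 ⟨b, this⟩
      omega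
    have h1 : EE R univ = 0 := EE_eq_zero R _ (fun a _ b _ => hno a b)
    have h2 : monoE R (fun _ : Ω => (0 : Fin 3)) = 0 := by
      unfold monoE
      refine Finset.sum_eq_zero (fun a _ => Finset.sum_eq_zero (fun b _ => ?_))
      simp [hno a b]
    rw [h1, h2]; simp
  obtain ⟨z, hz, hzmax⟩ := Finset.exists_max_image N1 (dg R N1) hne
  have st2 := furedi_step R hs N1 z (fun y hy => hzmax y hy)
  set N2 := N1.filter (R z) with hN2
  have hxz : R x z := by rw [hN1] at hz; simpa using hz
  have hN2z : EE R N2 = 0 := by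
    refine EE_eq_zero R _ (fun a ha b hb hab => ?_)
    rw [hN2, Finset.mem_filter, hN1, Finset.mem_filter] at ha hb
    exact hK x z a b ⟨hxz, ha.1.2, hb.1.2, ha.2, hb.2, hab⟩
  refine ⟨fun y => if R x y then (if R z y then 2 else 1) else 0, ?_, ?_⟩
  · intro y
    simp only [hR']
  -- mono edges
  have hmono : monoE R (fun y => if R x y then (if R z y then (2 : Fin 3) else 1) else 0)
      = EE R (univ \ N1) + EE R (N1 \ N2) + EE R N2 := by
    have ind : ∀ T : Finset Ω, EE R T = ∑ a, ∑ b, if (R a b ∧ a ∈ T ∧ b ∈ T) then 1 else 0 := by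
      intro T
      unfold EE
      have : ∀ a, (∑ b, if (R a b ∧ a ∈ T ∧ b ∈ T) then 1 else 0)
          = if a ∈ T then ∑ b ∈ T, (if R a b then 1 else 0) else 0 := by
        intro a
        by_cases ha : a ∈ T
        · rw [if_pos ha, ← Finset.sum_filter_add_sum_filter_not univ (fun b => b ∈ T)]
          rw [Finset.sum_eq_zero (s := univ.filter (fun b => ¬ b ∈ T))]
          · rw [add_zero]
            have hT : (univ.filter (fun b => b ∈ T)) = T := by ext b; simp
            rw [hT]
            refine Finset.sum_congr rfl (fun b hb => ?_)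
            simp [ha, hb]
          · intro b hb
            have := (Finset.mem_filter.1 hb).2
            simp [this]
        · rw [if_neg ha]
          refine Finset.sum_eq_zero (fun b _ => ?_)
          simp [ha]
      simp only [this]
      rw [← Finset.sum_filter]
      congr 1
      ext a; simp
    rw [ind, ind, ind]
    unfold monoE
    rw [← Finset.sum_add_distrib, ← Finset.sum_add_distrib]
    refine Finset.sum_congr rfl (fun a _ => ?_)
    rw [← Finset.sum_add_distrib, ← Finset.sum_add_distrib]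
    refine Finset.sum_congr rfl (fun b _ => ?_)
    have m1 : ∀ y, y ∈ univ \ N1 ↔ ¬ R x y := by intro y; simp [hN1]
    have m2 : ∀ y, y ∈ N1 \ N2 ↔ R x y ∧ ¬ R z y := by
      intro y; simp only [hN2, hN1, Finset.mem_sdiff, Finset.mem_filter, Finset.mem_univ, true_and]; tauto
    have m3 : ∀ y, y ∈ N2 ↔ R x y ∧ R z y := by
      intro y; simp [hN2, hN1]
    simp only [m1, m2, m3]
    by_cases h1 : R a b <;> by_cases h2 : R x a <;> by_cases h3 : R x b <;>
      by_cases h4 : R z a <;> by_cases h5 : R z b <;> simp [h1, h2, h3, h4, h5]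
  rw [hmono, hN2z]
  have hc1 : (univ \ N1).card + N1.card = Fintype.card Ω := by
    rw [Finset.card_sdiff_add_card_eq_card (Finset.subset_univ _), Finset.card_univ]
  have hc2 : (N1 \ N2).card + N2.card = N1.card :=
    Finset.card_sdiff_add_card_eq_card (Finset.filter_subset _ _)
  rw [hN2z] at st2
  have h3 := three_ineq (univ \ N1).card (N1 \ N2).card N2.card
  rw [hc2, hc1] at h3
  omega

end

/-- the mono density of a cut is at most `2/3 - h` -/
theorem cut_mono_le {V : Type} [Fintype V] [DecidableEq V] (H : Finset (Finset V)) (h4 : ∀ e ∈ H, e.card = 4)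
    (hf : Free H) (c : V × V → Fin 3)
    (hm : ∀ c' : V × V → Fin 3, (∀ x, c' x.swap = c' x) → monoE (Adj H) c ≤ monoE (Adj H) c') :
    3 * (24 * H.card + monoE (Adj H) c) ≤ 2 * Fintype.card V ^ 4 := by
  have hK : ∀ a b d e : V × V, ¬ (Adj H a b ∧ Adj H a d ∧ Adj H a e ∧ Adj H b d ∧ Adj H b e ∧ Adj H d e) := by
    rintro a b d e ⟨h1, h2, h3, h5, h6, h7⟩
    refine pair_k4free h4 hf ![a, b, d, e] ?_
    intro i j hij
    fin_cases i <;> fin_cases j <;> first | exact absurd rfl hij | skip
    all_goals simp only [Fin.isValue, Matrix.cons_val]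
    all_goals first | assumption | exact adj_symm (by assumption)
  obtain ⟨c', h1, h2⟩ := exists_three (Adj H) (fun _ _ h => adj_symm h)
    Prod.swap (fun _ _ => adj_swap) hK
  have h3 := hm c' h1
  have h5 : EE (Adj H) univ = 24 * H.card := by
    rw [← pair_count H h4]
    unfold EE
    rw [Finset.card_filter, ← Finset.sum_product']
    rfl
  rw [h5] at h2
  have h6 : Fintype.card (V × V) ^ 2 = Fintype.card V ^ 4 := by rw [Fintype.card_prod]; ring
  rw [h6] at h2
  omega

end Pool.Agent.C44
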