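import Pool.Agent.C44.Assembly
import Pool.Agent.C44.Furedi

/-!
Assembly with several cells for `|A| / n` and an additive error in `K4`.
-/

set_option autoImplicit false

open Finset Classical

namespace Pool.Agent.C44

/-- **K4** with an error term -/
def KFourE (y₀ ζ w σ ε : ℝ) : Prop := ∀ (n : ℕ) (H : Finset (Finset (Fin n))), Good H →
  ∀ c, IsCut H c → (monoE (Adj H) c : ℝ) ≤ y₀ * (n : ℝ) ^ 4 →
  ∀ A : Finset (Fin n), (A.card : ℝ) ^ 2 ≤ ζ * (n : ℝ) ^ 2 →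
    w * ∑ i, (Ymono H A c i : ℝ) ≤ σ * Mmiss H A c + ε * (n : ℝ) ^ 4

lemma KFourE_of_KFour {y₀ ζ w σ : ℝ} (h : KFour y₀ ζ w σ) : KFourE y₀ ζ w σ 0 := by
  intro n H hG c hc hm A hA
  have := h n H hG c hc hm A hA
  linarith

lemma sum_Ymono_le {V : Type} [Fintype V] [DecidableEq V] (H : Finset (Finset V)) (A : Finset V)
    (c : V × V → Fin 3) : (∑ i, (Ymono H A c i : ℝ)) ≤ (monoE (Adj H) c : ℝ) := by
  have h : ∑ i, Ymono H A c i ≤ monoE (Adj H) c := by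
    unfold Ymono monoE
    simp only [Finset.card_filter]
    rw [Finset.sum_comm, ← Finset.sum_product' (s := univ) (t := univ)
      (f := fun x y => if Adj H x y ∧ c x = c y then 1 else 0)]
    refine Finset.sum_le_sum (fun p _ => ?_)
    by_cases hp : Adj H p.1 p.2 ∧ c p.1 = c p.2
    · rw [if_pos hp]
      have : ∀ i, (if (Act A p.1 p.2 ∧ Adj H p.1 p.2 ∧ c p.1 = i ∧ c p.2 = i) then 1 else 0)
          ≤ if i = c p.1 then 1 else 0 := by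
        intro i
        by_cases hi : c p.1 = i
        · rw [if_pos hi.symm]; split_ifs <;> simp
        · rw [if_neg (fun h => hi h.2.2.1)]; exact Nat.zero_le _
      refine le_trans (Finset.sum_le_sum (fun i _ => this i)) ?_
      simp
    · rw [if_neg hp]
      refine le_of_eq (Finset.sum_eq_zero (fun i _ => ?_))
      rw [if_neg]
      rintro ⟨-, h1, h2, h3⟩
      exact hp ⟨h1, h2.trans h3.symm⟩
  exact_mod_cast h

/-- hypotheses on the colouring and the set -/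
structure CIhyp (w₀ σ₀ r θ θ₂ κ : ℝ) (n : ℕ) (c : Fin n × Fin n → Fin 3) (F : Fin 3) (A : Finset (Fin n)) : Prop where
  pos : 0 < n
  symm : ∀ x : Fin n × Fin n, c x.swap = c x
  diag : ∀ v, c (v, v) ≠ F
  phi : PhF c F r θ θ₂ A < κ * (n : ℝ) ^ 2
  hmin : ∀ S : Finset (Fin n), PhF c F r θ θ₂ A ≤ PhF c F r θ θ₂ S
  la : LA c F r θ θ₂ A
  ld : LD c F r θ θ₂ A
  dens : 9 / 14 * (n : ℝ) ^ 4 ≤ VAL ∅ c w₀ σ₀

/-- **CI** in the cell `a n ≤ |A| ≤ b n` -/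
def CIcell (a b w σ ε w₀ σ₀ r θ θ₂ κ : ℝ) : Prop := ∀ (n : ℕ) (c : Fin n × Fin n → Fin 3) (F : Fin 3)
  (A : Finset (Fin n)), CIhyp w₀ σ₀ r θ θ₂ κ n c F A → a * n ≤ (A.card : ℝ) → (A.card : ℝ) ≤ b * n →
  VAL A c w σ ≤ (9 / 14 - ε) * (n : ℝ) ^ 4

/-- the cell `a n ≤ |A| ≤ b n` is impossible -/
def CInone (a b w₀ σ₀ r θ θ₂ κ : ℝ) : Prop := ∀ (n : ℕ) (c : Fin n × Fin n → Fin 3) (F : Fin 3)
  (A : Finset (Fin n)), CIhyp w₀ σ₀ r θ θ₂ κ n c F A → a * n ≤ (A.card : ℝ) → (A.card : ℝ) ≤ b * n → False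

/-- a cell -/
structure Cell where
  /-- lower end -/
  a : ℝ
  /-- upper end -/
  b : ℝ
  /-- price -/
  w : ℝ
  /-- reward -/
  σ : ℝ
  /-- error -/
  ε : ℝ

/-- **Assembly with cells** -/
theorem upper_of_cells (y₀ w₀ σ₀ r θ θ₂ κ : ℝ) (hr : 0 ≤ r) (hθ : θ₂ ≤ 2 * r)
    (h1 : SOne y₀) (h2 : KFour y₀ 0 w₀ σ₀) (h3 : STwo w₀ σ₀ r θ θ₂ κ)
    (cells : List Cell) (no : List (ℝ × ℝ))
    (hcells : ∀ x ∈ cells, 0 ≤ x.b ∧ KFourE y₀ (x.b ^ 2) x.w x.σ x.ε ∧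
      CIcell x.a x.b x.w x.σ x.ε w₀ σ₀ r θ θ₂ κ)
    (hno : ∀ x ∈ no, CInone x.1 x.2 w₀ σ₀ r θ θ₂ κ)
    (hcov : ∀ t : ℝ, 0 ≤ t → t ≤ 1 → θ * t + θ₂ * t ^ 2 < κ →
      t ≤ 4 / 5 ∧ ((∃ x ∈ cells, x.a ≤ t ∧ t ≤ x.b) ∨ ∃ x ∈ no, x.1 ≤ t ∧ t ≤ x.2)) :
    ∀ (n : ℕ) (H : Finset (Finset (Fin n))), (∀ e ∈ H, e.card = 4) → Free H →
      24 * (H.card : ℝ) ≤ 9 / 14 * (n : ℝ) ^ 4 := by
  intro n H hu hf
  by_contra hcon
  push Not at hcon
  have hG : Good H := ⟨hu, hf, hcon⟩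
  have hn : 0 < n := by
    rcases Nat.eq_zero_or_pos n with h | h
    · subst h
      exfalso
      have : H = ∅ := by
        by_contra hne
        obtain ⟨e, he⟩ := Finset.nonempty_iff_ne_empty.2 hne
        have := hu e he
        have h0 : e = ∅ := Finset.eq_empty_of_isEmpty e
        rw [h0] at this; simp at this
      subst this
      simp at hcon
    · exact h
  have hnR : (0 : ℝ) < n := by exact_mod_cast hn
  have key : ∀ c, IsCut H c → 9 / 14 * (n : ℝ) ^ 4 ≤ VAL ∅ c w₀ σ₀ := by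
    intro c hc
    have hm := h1 n H hG c hc
    have hK := h2 n H hG c hc hm ∅ (by simp)
    have := count_le_VAL hG c ∅ (by simp) w₀ σ₀ hK
    linarith
  obtain ⟨c, hc1, hc2, hc3⟩ := pair_maxcut H hu
  have hc : IsCut H c := ⟨hc1, hc2, hc3⟩
  obtain ⟨v, F, hvF⟩ := h3 n c hn hc1 (key c hc)
  obtain ⟨c', hs', hg', hl', hd', ho'⟩ := recolour_diag H hu c hc1 hc2 hc3 (F + 1)
  have hc' : IsCut H c' := ⟨hs', hg', hl'⟩
  have hdF : ∀ v, c' (v, v) ≠ F := by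
    intro v; rw [hd' v]
    have hF : ∀ G : Fin 3, G + 1 ≠ G := by decide
    exact hF F
  have hP : PhF c' F r θ θ₂ (NF c F v) < κ * (n : ℝ) ^ 2 :=
    lt_of_le_of_lt (Phi_recolour c c' F r θ θ₂ _ hdF ho') hvF
  obtain ⟨A, hA1, hA2, hA3⟩ := exists_opt c' hs' F hdF r θ θ₂ hr hθ
  have hPA : PhF c' F r θ θ₂ A < κ * (n : ℝ) ^ 2 := lt_of_le_of_lt (hA1 (NF c F v)) hP
  have hcard := card_le_Phi c' F r θ θ₂ hr A
  rw [Fintype.card_fin] at hcard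
  have ht0 : 0 ≤ (A.card : ℝ) / n := by positivity
  have hcn : (A.card : ℝ) ≤ n := by
    have := Finset.card_le_univ A
    rw [Fintype.card_fin] at this
    exact_mod_cast this
  have ht1 : (A.card : ℝ) / n ≤ 1 := by rw [div_le_one hnR]; exact hcn
  have ht2 : θ * ((A.card : ℝ) / n) + θ₂ * ((A.card : ℝ) / n) ^ 2 < κ := by
    have h7 : θ * n * A.card + θ₂ * (A.card : ℝ) ^ 2 < κ * (n : ℝ) ^ 2 := lt_of_le_of_lt hcard hPA
    have h8 : θ * ((A.card : ℝ) / n) + θ₂ * ((A.card : ℝ) / n) ^ 2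
        = (θ * n * A.card + θ₂ * (A.card : ℝ) ^ 2) / (n : ℝ) ^ 2 := by
      field_simp
    rw [h8, div_lt_iff₀ (by positivity)]
    exact h7
  obtain ⟨h45, hcv⟩ := hcov _ ht0 ht1 ht2
  have hAc : A.card ≤ 4 * Aᶜ.card := by
    rw [div_le_iff₀ hnR] at h45
    have h9 : (5 * A.card : ℝ) ≤ 4 * n := by linarith
    have h10 : 5 * A.card ≤ 4 * n := by exact_mod_cast h9
    rw [Finset.card_compl, Fintype.card_fin]
    omega
  have hyp : CIhyp w₀ σ₀ r θ θ₂ κ n c' F A := ⟨hn, hs', hdF, hPA, hA1, hA2, hA3, key c' hc'⟩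
  have hm' := h1 n H hG c' hc'
  rcases hcv with ⟨x, hx, ha, hb⟩ | ⟨x, hx, ha, hb⟩
  · rw [le_div_iff₀ hnR] at ha
    rw [div_le_iff₀ hnR] at hb
    obtain ⟨hb0, hK4, hCI⟩ := hcells x hx
    have hsq : (A.card : ℝ) ^ 2 ≤ x.b ^ 2 * (n : ℝ) ^ 2 := by
      have : (A.card : ℝ) ^ 2 ≤ (x.b * n) ^ 2 :=
        pow_le_pow_left₀ (by positivity) hb 2
      nlinarith
    have hK := hK4 n H hG c' hc' hm' A hsq
    have h10 := accounting H hu hf A hAc c' (fun _ => x.w) x.σ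
    rw [← Finset.mul_sum] at h10
    have h11 := hCI n c' F A hyp ha hb
    unfold VAL at h11
    linarith
  · rw [le_div_iff₀ hnR] at ha
    rw [div_le_iff₀ hnR] at hb
    exact hno x hx n c' F A hyp ha hb

/-- **S09431 from the certificates** (several cells) -/
theorem final_of_cells (y₀ w₀ σ₀ r θ θ₂ κ : ℝ) (hr : 0 ≤ r) (hθ : θ₂ ≤ 2 * r)
    (h1 : SOne y₀) (h2 : KFour y₀ 0 w₀ σ₀) (h3 : STwo w₀ σ₀ r θ θ₂ κ)
    (cells : List Cell) (no : List (ℝ × ℝ))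
    (hcells : ∀ x ∈ cells, 0 ≤ x.b ∧ KFourE y₀ (x.b ^ 2) x.w x.σ x.ε ∧
      CIcell x.a x.b x.w x.σ x.ε w₀ σ₀ r θ θ₂ κ)
    (hno : ∀ x ∈ no, CInone x.1 x.2 w₀ σ₀ r θ θ₂ κ)
    (hcov : ∀ t : ℝ, 0 ≤ t → t ≤ 1 → θ * t + θ₂ * t ^ 2 < κ →
      t ≤ 4 / 5 ∧ ((∃ x ∈ cells, x.a ≤ t ∧ t ≤ x.b) ∨ ∃ x ∈ no, x.1 ≤ t ∧ t ≤ x.2)) :
    ∀ ε : ℝ, 0 < ε → ∃ N : ℕ, ∀ n : ℕ, N ≤ n →
      (∀ H : Finset (Finset (Fin n)), (∀ e ∈ H, e.card = 4) →
        (¬ ∃ f : Fin 4 × Fin 2 → Fin n, Function.Injective f ∧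
            ∀ i j : Fin 4, i ≠ j →
              ({f (i, 0), f (i, 1), f (j, 0), f (j, 1)} : Finset (Fin n)) ∈ H) →
        (H.card : ℝ) ≤ (9 / 14 + ε) * ((n.choose 4 : ℕ) : ℝ)) ∧
      (∃ H : Finset (Finset (Fin n)), (∀ e ∈ H, e.card = 4) ∧
        (¬ ∃ f : Fin 4 × Fin 2 → Fin n, Function.Injective f ∧
            ∀ i j : Fin 4, i ≠ j →
              ({f (i, 0), f (i, 1), f (j, 0), f (j, 1)} : Finset (Fin n)) ∈ H) ∧
        (9 / 14 - ε) * ((n.choose 4 : ℕ) : ℝ) ≤ (H.card : ℝ)) := by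
  refine main_of_count 0 ?_
  intro n H hu hf
  have := upper_of_cells y₀ w₀ σ₀ r θ θ₂ κ hr hθ h1 h2 h3 cells no hcells hno hcov n H hu hf
  linarith

/-- trivial `K4`: no reward, the price is paid by the error -/
lemma KFourE_trivial {y₀ w : ℝ} (hw : 0 ≤ w) (ζ : ℝ) : KFourE y₀ ζ w 0 (w * y₀) := by
  intro n H hG c hc hm A hA
  have h1 : (∑ i, (Ymono H A c i : ℝ)) ≤ (monoE (Adj H) c : ℝ) := sum_Ymono_le H A c
  have := mul_le_mul_of_nonneg_left (le_trans h1 hm) hw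
  linarith

/-- **Fueredi bound for cuts of good graphs**: the mono density is at most `1/42` -/
theorem SOne_furedi : SOne (1 / 42) := by
  intro n H hG c hc
  have h := cut_mono_le H hG.unif hG.free c hc.glob
  rw [Fintype.card_fin] at h
  have h' : 3 * (24 * (H.card : ℝ) + (monoE (Adj H) c : ℝ)) ≤ 2 * (n : ℝ) ^ 4 := by exact_mod_cast h
  have := hG.dense
  linarith

end Pool.Agent.C44
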