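import Pool.Agent.C44.Assembly2

/-!
Assembly with the whole family of accounting inequalities (helper52): one ratio `ρ` per bound `b` for
the size of the exceptional set gives, for all prices `w` and rewards `σ >= 0` and every set `S` with
`|S| <= b n`, the inequality `24 |H| <= VAL S c w σ + e y₀ n^4` with `e >= 0`, `w - ρ σ <= e`.
-/

set_option autoImplicit false

open Finset Classical

namespace Pool.Agent.C44

/-- total value with prices depending on the colour -/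
noncomputable def VALw {V : Type} [Fintype V] [DecidableEq V] (S : Finset V) (c : V × V → Fin 3)
    (w : Fin 3 → ℝ) (σ : ℝ) : ℝ :=
  ∑ a, ∑ b, ∑ d, ∑ e, val S c w σ a b d e

lemma VALw_const {V : Type} [Fintype V] [DecidableEq V] (S : Finset V) (c : V × V → Fin 3)
    (w σ : ℝ) : VALw S c (fun _ => w) σ = VAL S c w σ := rfl

/-- the family of accounting inequalities; `L` is a list of pairs `(b, ρ)` -/
def Acc (y₀ : ℝ) (L : List (ℝ × ℝ)) (n : ℕ) (c : Fin n × Fin n → Fin 3) : Prop :=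
  ∀ x ∈ L, ∀ S : Finset (Fin n), (S.card : ℝ) ≤ x.1 * n → ∀ (w : Fin 3 → ℝ) (σ e : ℝ), 0 ≤ σ → 0 ≤ e →
    (∀ i, w i - x.2 * σ ≤ e) → (9 / 14 - e * y₀) * (n : ℝ) ^ 4 < VALw S c w σ

/-- the version with one price -/
lemma Acc.const {y₀ : ℝ} {L : List (ℝ × ℝ)} {n : ℕ} {c : Fin n × Fin n → Fin 3} (h : Acc y₀ L n c)
    {b ρ : ℝ} (hx : (b, ρ) ∈ L) (S : Finset (Fin n)) (hS : (S.card : ℝ) ≤ b * n) (w σ : ℝ) (hσ : 0 ≤ σ) :
    (9 / 14 - max 0 (w - ρ * σ) * y₀) * (n : ℝ) ^ 4 < VAL S c w σ :=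
  h _ hx S hS (fun _ => w) σ _ hσ (le_max_left _ _) (fun _ => le_max_right _ _)

/-- the family holds for every cut of a good graph -/
theorem acc_of_cut {n : ℕ} {H : Finset (Finset (Fin n))} (hG : Good H) (c : Fin n × Fin n → Fin 3)
    (hc : IsCut H c) (y₀ : ℝ) (hm : (monoE (Adj H) c : ℝ) ≤ y₀ * (n : ℝ) ^ 4) (L : List (ℝ × ℝ))
    (hL : ∀ x ∈ L, 0 ≤ x.1 ∧ x.1 ≤ 4 / 5 ∧ KFour y₀ (x.1 ^ 2) x.2 1) : Acc y₀ L n c := by
  intro x hx S hS w σ e hσ he hw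
  obtain ⟨hb0, hb1, hK⟩ := hL x hx
  have hn0 : (0 : ℝ) ≤ n := Nat.cast_nonneg n
  have hAc : S.card ≤ 4 * Sᶜ.card := by
    have h1 : (S.card : ℝ) ≤ 4 / 5 * n := le_trans hS (by nlinarith)
    have h2 : (5 * S.card : ℝ) ≤ 4 * n := by linarith
    have h3 : 5 * S.card ≤ 4 * n := by exact_mod_cast h2
    rw [Finset.card_compl, Fintype.card_fin]
    omega
  have hsq : (S.card : ℝ) ^ 2 ≤ x.1 ^ 2 * (n : ℝ) ^ 2 := by
    have : (S.card : ℝ) ^ 2 ≤ (x.1 * n) ^ 2 := pow_le_pow_left₀ (by positivity) hS 2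
    nlinarith
  have h1 := hK n H hG c hc hm S hsq
  rw [one_mul] at h1
  have h2 := accounting H hG.unif hG.free S hAc c w σ
  have h3 : ∑ i, w i * (Ymono H S c i : ℝ) ≤ ∑ i, (e + x.2 * σ) * (Ymono H S c i : ℝ) := by
    refine Finset.sum_le_sum (fun i _ => ?_)
    have := hw i
    exact mul_le_mul_of_nonneg_right (by linarith) (Nat.cast_nonneg _)
  rw [← Finset.mul_sum] at h3
  have h4 : (∑ i, (Ymono H S c i : ℝ)) ≤ y₀ * (n : ℝ) ^ 4 := le_trans (sum_Ymono_le H S c) hm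
  have h5 : e * ∑ i, (Ymono H S c i : ℝ) ≤ e * (y₀ * (n : ℝ) ^ 4) := mul_le_mul_of_nonneg_left h4 he
  have h6 : x.2 * σ * ∑ i, (Ymono H S c i : ℝ) ≤ σ * Mmiss H S c := by
    have := mul_le_mul_of_nonneg_left h1 hσ
    linarith
  have h7 := hG.dense
  unfold VALw
  rw [add_mul] at h3
  linarith

/-- **S2'** with the family -/
def STwoF (y₀ : ℝ) (L : List (ℝ × ℝ)) (r θ θ₂ κ : ℝ) : Prop :=
  ∀ (n : ℕ) (c : Fin n × Fin n → Fin 3), 0 < n → (∀ x : Fin n × Fin n, c x.swap = c x) → Acc y₀ L n c →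
  ∃ (B : Finset (Fin n)) (F : Fin 3), PhF c F r θ θ₂ B < κ * (n : ℝ) ^ 2

/-- hypotheses on the colouring and the optimal set -/
structure CIhypF (y₀ : ℝ) (L : List (ℝ × ℝ)) (r θ θ₂ κ : ℝ) (n : ℕ) (c : Fin n × Fin n → Fin 3) (F : Fin 3)
    (A : Finset (Fin n)) : Prop where
  pos : 0 < n
  symm : ∀ x : Fin n × Fin n, c x.swap = c x
  diag : ∀ v, c (v, v) ≠ F
  phi : PhF c F r θ θ₂ A < κ * (n : ℝ) ^ 2
  hmin : ∀ S : Finset (Fin n), PhF c F r θ θ₂ A ≤ PhF c F r θ θ₂ S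
  la : LA c F r θ θ₂ A
  ld : LD c F r θ θ₂ A
  acc : Acc y₀ L n c

/-- **CI**: the cell `a n ≤ |A| ≤ b n` is impossible -/
def CIF (y₀ : ℝ) (L : List (ℝ × ℝ)) (r θ θ₂ κ a b : ℝ) : Prop :=
  ∀ (n : ℕ) (c : Fin n × Fin n → Fin 3) (F : Fin 3) (A : Finset (Fin n)),
    CIhypF y₀ L r θ θ₂ κ n c F A → a * n ≤ (A.card : ℝ) → (A.card : ℝ) ≤ b * n → False

/-- **Assembly with the family** -/
theorem upper_of_family (y₀ r θ θ₂ κ : ℝ) (hr : 0 ≤ r) (hθ : θ₂ ≤ 2 * r) (L : List (ℝ × ℝ))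
    (hL : ∀ x ∈ L, 0 ≤ x.1 ∧ x.1 ≤ 4 / 5 ∧ KFour y₀ (x.1 ^ 2) x.2 1)
    (h1 : SOne y₀) (h3 : STwoF y₀ L r θ θ₂ κ) (cells : List (ℝ × ℝ))
    (hcells : ∀ x ∈ cells, CIF y₀ L r θ θ₂ κ x.1 x.2)
    (hcov : ∀ t : ℝ, 0 ≤ t → t ≤ 1 → θ * t + θ₂ * t ^ 2 < κ → ∃ x ∈ cells, x.1 ≤ t ∧ t ≤ x.2) :
    ∀ (n : ℕ) (H : Finset (Finset (Fin n))), (∀ e ∈ H, e.card = 4) → Free H →
      24 * (H.card : ℝ) ≤ 9 / 14 * (n : ℝ) ^ 4 := by
  intro n H hu hf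
  by_contra hcon
  push Not at hcon
  have hG : Good H := ⟨hu, hf, hcon⟩
  have hn : 0 < n := by
    rcases Nat.eq_zero_or_pos n with h | h
    · subst h
      exfalso
      have : H = ∅ := by
        by_contra hne
        obtain ⟨e, he⟩ := Finset.nonempty_iff_ne_empty.2 hne
        have := hu e he
        have h0 : e = ∅ := Finset.eq_empty_of_isEmpty e
        rw [h0] at this; simp at this
      subst this
      simp at hcon
    · exact h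
  have hnR : (0 : ℝ) < n := by exact_mod_cast hn
  have key : ∀ c, IsCut H c → Acc y₀ L n c := fun c hc => acc_of_cut hG c hc y₀ (h1 n H hG c hc) L hL
  obtain ⟨c, hc1, hc2, hc3⟩ := pair_maxcut H hu
  have hc : IsCut H c := ⟨hc1, hc2, hc3⟩
  obtain ⟨B, F, hvF⟩ := h3 n c hn hc1 (key c hc)
  obtain ⟨c', hs', hg', hl', hd', ho'⟩ := recolour_diag H hu c hc1 hc2 hc3 (F + 1)
  have hc' : IsCut H c' := ⟨hs', hg', hl'⟩
  have hdF : ∀ v, c' (v, v) ≠ F := by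
    intro v; rw [hd' v]
    have hF : ∀ G : Fin 3, G + 1 ≠ G := by decide
    exact hF F
  have hP : PhF c' F r θ θ₂ B < κ * (n : ℝ) ^ 2 :=
    lt_of_le_of_lt (Phi_recolour c c' F r θ θ₂ _ hdF ho') hvF
  obtain ⟨A, hA1, hA2, hA3⟩ := exists_opt c' hs' F hdF r θ θ₂ hr hθ
  have hPA : PhF c' F r θ θ₂ A < κ * (n : ℝ) ^ 2 := lt_of_le_of_lt (hA1 B) hP
  have hcard := card_le_Phi c' F r θ θ₂ hr A
  rw [Fintype.card_fin] at hcard
  have ht0 : 0 ≤ (A.card : ℝ) / n := by positivity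
  have hcn : (A.card : ℝ) ≤ n := by
    have := Finset.card_le_univ A
    rw [Fintype.card_fin] at this
    exact_mod_cast this
  have ht1 : (A.card : ℝ) / n ≤ 1 := by rw [div_le_one hnR]; exact hcn
  have ht2 : θ * ((A.card : ℝ) / n) + θ₂ * ((A.card : ℝ) / n) ^ 2 < κ := by
    have h7 : θ * n * A.card + θ₂ * (A.card : ℝ) ^ 2 < κ * (n : ℝ) ^ 2 := lt_of_le_of_lt hcard hPA
    have h8 : θ * ((A.card : ℝ) / n) + θ₂ * ((A.card : ℝ) / n) ^ 2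
        = (θ * n * A.card + θ₂ * (A.card : ℝ) ^ 2) / (n : ℝ) ^ 2 := by
      field_simp
    rw [h8, div_lt_iff₀ (by positivity)]
    exact h7
  obtain ⟨x, hx, ha, hb⟩ := hcov _ ht0 ht1 ht2
  rw [le_div_iff₀ hnR] at ha
  rw [div_le_iff₀ hnR] at hb
  exact hcells x hx n c' F A ⟨hn, hs', hdF, hPA, hA1, hA2, hA3, key c' hc'⟩ ha hb

/-- **S09431 from the certificates** (family version) -/
theorem final_of_family (y₀ r θ θ₂ κ : ℝ) (hr : 0 ≤ r) (hθ : θ₂ ≤ 2 * r) (L : List (ℝ × ℝ))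
    (hL : ∀ x ∈ L, 0 ≤ x.1 ∧ x.1 ≤ 4 / 5 ∧ KFour y₀ (x.1 ^ 2) x.2 1)
    (h1 : SOne y₀) (h3 : STwoF y₀ L r θ θ₂ κ) (cells : List (ℝ × ℝ))
    (hcells : ∀ x ∈ cells, CIF y₀ L r θ θ₂ κ x.1 x.2)
    (hcov : ∀ t : ℝ, 0 ≤ t → t ≤ 1 → θ * t + θ₂ * t ^ 2 < κ → ∃ x ∈ cells, x.1 ≤ t ∧ t ≤ x.2) :
    ∀ ε : ℝ, 0 < ε → ∃ N : ℕ, ∀ n : ℕ, N ≤ n →
      (∀ H : Finset (Finset (Fin n)), (∀ e ∈ H, e.card = 4) →
        (¬ ∃ f : Fin 4 × Fin 2 → Fin n, Function.Injective f ∧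
            ∀ i j : Fin 4, i ≠ j →
              ({f (i, 0), f (i, 1), f (j, 0), f (j, 1)} : Finset (Fin n)) ∈ H) →
        (H.card : ℝ) ≤ (9 / 14 + ε) * ((n.choose 4 : ℕ) : ℝ)) ∧
      (∃ H : Finset (Finset (Fin n)), (∀ e ∈ H, e.card = 4) ∧
        (¬ ∃ f : Fin 4 × Fin 2 → Fin n, Function.Injective f ∧
            ∀ i j : Fin 4, i ≠ j →
              ({f (i, 0), f (i, 1), f (j, 0), f (j, 1)} : Finset (Fin n)) ∈ H) ∧
        (9 / 14 - ε) * ((n.choose 4 : ℕ) : ℝ) ≤ (H.card : ℝ)) := by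
  refine main_of_count 0 ?_
  intro n H hu hf
  have := upper_of_family y₀ r θ θ₂ κ hr hθ L hL h1 h3 cells hcells hcov n H hu hf
  linarith

/-- scaling of `K4` -/
lemma KFour_scale {y₀ ζ w σ : ℝ} (hσ : 0 < σ) (h : KFour y₀ ζ w σ) : KFour y₀ ζ (w / σ) 1 := by
  intro n H hG c hc hm A hA
  have := h n H hG c hc hm A hA
  rw [div_mul_eq_mul_div, div_le_iff₀ hσ]
  linarith

/-- trivial ratio -/
lemma KFour_zero (y₀ ζ : ℝ) : KFour y₀ ζ 0 1 := by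
  intro n H hG c hc hm A hA
  rw [zero_mul, one_mul]
  exact Nat.cast_nonneg _

end Pool.Agent.C44
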