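import Pool.Agent.C44.CA

/-! Checks of the cell `CA`: squares with three roots. -/

set_option maxRecDepth 100000

namespace Pool.Agent.C44.CA

open Pool.Agent.C44.CI

theorem T1 : chkT D 1 = true := by decide +kernel
theorem T2 : chkT D 2 = true := by decide +kernel
theorem T3 : chkT D 3 = true := by decide +kernel
theorem T4 : chkT D 4 = true := by decide +kernel
theorem T5 : chkT D 5 = true := by decide +kernel
theorem T6 : chkT D 6 = true := by decide +kernel
theorem T7 : chkT D 7 = true := by decide +kernel
theorem T8 : chkT D 8 = true := by decide +kernel
theorem T9 : chkT D 9 = true := by decide +kernel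
theorem T10 : chkT D 10 = true := by decide +kernel
theorem T11 : chkT D 11 = true := by decide +kernel
theorem T12 : chkT D 12 = true := by decide +kernel
theorem T13 : chkT D 13 = true := by decide +kernel
theorem T14 : chkT D 14 = true := by decide +kernel
theorem T15 : chkT D 15 = true := by decide +kernel
theorem T16 : chkT D 16 = true := by decide +kernel
theorem T17 : chkT D 17 = true := by decide +kernel
theorem T18 : chkT D 18 = true := by decide +kernel
theorem T19 : chkT D 19 = true := by decide +kernel
theorem T20 : chkT D 20 = true := by decide +kernel
theorem T21 : chkT D 21 = true := by decide +kernel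

theorem T (t : ℕ) (h0 : t ≠ 0) (h1 : t ≤ D.NT) : chkT D t = true := by
  change t ≤ 21 at h1
  interval_cases t
  · exact absurd rfl h0
  · exact T1
  · exact T2
  · exact T3
  · exact T4
  · exact T5
  · exact T6
  · exact T7
  · exact T8
  · exact T9
  · exact T10
  · exact T11
  · exact T12
  · exact T13
  · exact T14
  · exact T15
  · exact T16
  · exact T17
  · exact T18
  · exact T19
  · exact T20
  · exact T21

end Pool.Agent.C44.CA
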