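import Pool.Agent.C44.CB

/-! Checks of the cell `CB`: five points. -/

set_option maxRecDepth 100000

namespace Pool.Agent.C44.CB

open Pool.Agent.C44.CI

theorem p111 : G.chkPart 2 3 adm4 adm (E D) (480 * OFF) 1 1 1 = true := by decide +kernel
theorem p010 : G.chkPart 2 3 adm4 adm (E D) (480 * OFF) 0 1 0 = true := by decide +kernel
theorem p100 : G.chkPart 2 3 adm4 adm (E D) (480 * OFF) 1 0 0 = true := by decide +kernel
theorem p101 : G.chkPart 2 3 adm4 adm (E D) (480 * OFF) 1 0 1 = true := by decide +kernel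
theorem p110 : G.chkPart 2 3 adm4 adm (E D) (480 * OFF) 1 1 0 = true := by decide +kernel

end Pool.Agent.C44.CB
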