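import Pool.Agent.C44.CBK
import Pool.Agent.C44.CBT
import Pool.Agent.C44.CBP0
import Pool.Agent.C44.CBP1
import Pool.Agent.C44.CBP2

/-! All checks of the cell `CB`. -/

set_option maxRecDepth 100000

namespace Pool.Agent.C44.CB

open Pool.Agent.C44.CI

theorem all : G.chk 2 3 adm4 adm (E D) (480 * OFF) = true := by
  refine G.chk_of ?_
  intro l0 h0 l1 h1 l2 h2
  interval_cases l0 <;> interval_cases l1 <;> interval_cases l2
  · exact p000
  · exact p001
  · exact p010
  · exact p011
  · exact p100
  · exact p101
  · exact p110
  · exact p111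

theorem checked : Checked D where
  V0 := V0
  V1 := V1
  U0 := U0
  U1 := U1
  X := X
  W := W
  T := T
  A := A
  Dd := Dd
  dA := by decide +kernel
  dD := by decide +kernel
  all := all

end Pool.Agent.C44.CB
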