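import Pool.Agent.C44.CD

/-! Checks of the cell `CD`: five points. -/

set_option maxRecDepth 100000

namespace Pool.Agent.C44.CD

open Pool.Agent.C44.CI

theorem p011 : G.chkPart 2 3 adm4 adm (E D) (480 * OFF) 0 1 1 = true := by decide +kernel

end Pool.Agent.C44.CD
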