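import Pool.Agent.C44.CE

/-! Checks of the cell `CE`: classes and indices. -/

set_option maxRecDepth 100000

namespace Pool.Agent.C44.CE

open Pool.Agent.C44.CI

theorem V0 : chkV D 0 D.nA D.vA D.mA = true := by decide +kernel
theorem V1 : chkV D 1 D.nD D.vD D.mD = true := by decide +kernel
theorem U0 : chkU D 0 D.nA D.vA D.uA D.mA = true := by decide +kernel
theorem U1 : chkU D 1 D.nD D.vD D.uD D.mD = true := by decide +kernel
theorem X : chkX D = true := by decide +kernel
theorem W : chkW D = true := by decide +kernel
theorem A : chkP D.tA 29 D.dA D.oA D.wA D.gA = true := by decide +kernel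
theorem Dd : chkP D.tD 52 D.dD D.oD D.wD D.gD = true := by decide +kernel

end Pool.Agent.C44.CE
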