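import Pool.Agent.C44.Sums

/-!
# Generic flag certificates on five points

Points carry labels `< L`, pairs carry colours `< K` (`L, K ≤ 4`). The order of the 15 arguments of
a function of five labelled, coloured points is

`l0 l1 l2 l3 k01 k02 k12 k03 k13 k23 l4 k04 k14 k24 k34`.

Main theorem `sum_le`: if the check `chk` holds for `E`, then
`120 * ∑ x, E (state of x) ≤ CAP * n ^ 5`, the sum over all ordered 5-tuples.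
-/

open Finset

namespace Pool.Agent.C44.G

/-- symmetrisation over the 120 orders -/
def S5 (E : ℕ → ℕ → ℕ → ℕ → ℕ → ℕ → ℕ → ℕ → ℕ → ℕ → ℕ → ℕ → ℕ → ℕ → ℕ →  ℕ) (l0 l1 l2 l3 k01 k02 k12 k03 k13 k23 l4 k04 k14 k24 k34 : ℕ) : ℕ :=
  (Nat.add (Nat.add (Nat.add (Nat.add (Nat.add (Nat.add (E l0 l1 l2 l3 k01 k02 k12 k03 k13 k23 l4 k04 k14 k24 k34)
    (Nat.add (E l0 l1 l2 l4 k01 k02 k12 k04 k14 k24 l3 k03 k13 k23 k34)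
    (E l0 l1 l3 l2 k01 k03 k13 k02 k12 k23 l4 k04 k14 k34 k24)))
    (Nat.add (Nat.add (E l0 l1 l3 l4 k01 k03 k13 k04 k14 k34 l2 k02 k12 k23 k24)
    (E l0 l1 l4 l2 k01 k04 k14 k02 k12 k24 l3 k03 k13 k34 k23))
    (Nat.add (E l0 l1 l4 l3 k01 k04 k14 k03 k13 k34 l2 k02 k12 k24 k23)
    (E l0 l2 l1 l3 k02 k01 k12 k03 k23 k13 l4 k04 k24 k14 k34))))
    (Nat.add (Nat.add (Nat.add (E l0 l2 l1 l4 k02 k01 k12 k04 k24 k14 l3 k03 k23 k13 k34)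
    (E l0 l2 l3 l1 k02 k03 k23 k01 k12 k13 l4 k04 k24 k34 k14))
    (Nat.add (E l0 l2 l3 l4 k02 k03 k23 k04 k24 k34 l1 k01 k12 k13 k14)
    (E l0 l2 l4 l1 k02 k04 k24 k01 k12 k14 l3 k03 k23 k34 k13)))
    (Nat.add (Nat.add (E l0 l2 l4 l3 k02 k04 k24 k03 k23 k34 l1 k01 k12 k14 k13)
    (E l0 l3 l1 l2 k03 k01 k13 k02 k23 k12 l4 k04 k34 k14 k24))
    (Nat.add (E l0 l3 l1 l4 k03 k01 k13 k04 k34 k14 l2 k02 k23 k12 k24)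
    (E l0 l3 l2 l1 k03 k02 k23 k01 k13 k12 l4 k04 k34 k24 k14)))))
    (Nat.add (Nat.add (Nat.add (E l0 l3 l2 l4 k03 k02 k23 k04 k34 k24 l1 k01 k13 k12 k14)
    (Nat.add (E l0 l3 l4 l1 k03 k04 k34 k01 k13 k14 l2 k02 k23 k24 k12)
    (E l0 l3 l4 l2 k03 k04 k34 k02 k23 k24 l1 k01 k13 k14 k12)))
    (Nat.add (Nat.add (E l0 l4 l1 l2 k04 k01 k14 k02 k24 k12 l3 k03 k34 k13 k23)
    (E l0 l4 l1 l3 k04 k01 k14 k03 k34 k13 l2 k02 k24 k12 k23))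
    (Nat.add (E l0 l4 l2 l1 k04 k02 k24 k01 k14 k12 l3 k03 k34 k23 k13)
    (E l0 l4 l2 l3 k04 k02 k24 k03 k34 k23 l1 k01 k14 k12 k13))))
    (Nat.add (Nat.add (Nat.add (E l0 l4 l3 l1 k04 k03 k34 k01 k14 k13 l2 k02 k24 k23 k12)
    (E l0 l4 l3 l2 k04 k03 k34 k02 k24 k23 l1 k01 k14 k13 k12))
    (Nat.add (E l1 l0 l2 l3 k01 k12 k02 k13 k03 k23 l4 k14 k04 k24 k34)
    (E l1 l0 l2 l4 k01 k12 k02 k14 k04 k24 l3 k13 k03 k23 k34)))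
    (Nat.add (Nat.add (E l1 l0 l3 l2 k01 k13 k03 k12 k02 k23 l4 k14 k04 k34 k24)
    (E l1 l0 l3 l4 k01 k13 k03 k14 k04 k34 l2 k12 k02 k23 k24))
    (Nat.add (E l1 l0 l4 l2 k01 k14 k04 k12 k02 k24 l3 k13 k03 k34 k23)
    (E l1 l0 l4 l3 k01 k14 k04 k13 k03 k34 l2 k12 k02 k24 k23))))))
    (Nat.add (Nat.add (Nat.add (Nat.add (E l1 l2 l0 l3 k12 k01 k02 k13 k23 k03 l4 k14 k24 k04 k34)
    (Nat.add (E l1 l2 l0 l4 k12 k01 k02 k14 k24 k04 l3 k13 k23 k03 k34)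
    (E l1 l2 l3 l0 k12 k13 k23 k01 k02 k03 l4 k14 k24 k34 k04)))
    (Nat.add (Nat.add (E l1 l2 l3 l4 k12 k13 k23 k14 k24 k34 l0 k01 k02 k03 k04)
    (E l1 l2 l4 l0 k12 k14 k24 k01 k02 k04 l3 k13 k23 k34 k03))
    (Nat.add (E l1 l2 l4 l3 k12 k14 k24 k13 k23 k34 l0 k01 k02 k04 k03)
    (E l1 l3 l0 l2 k13 k01 k03 k12 k23 k02 l4 k14 k34 k04 k24))))
    (Nat.add (Nat.add (Nat.add (E l1 l3 l0 l4 k13 k01 k03 k14 k34 k04 l2 k12 k23 k02 k24)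
    (E l1 l3 l2 l0 k13 k12 k23 k01 k03 k02 l4 k14 k34 k24 k04))
    (Nat.add (E l1 l3 l2 l4 k13 k12 k23 k14 k34 k24 l0 k01 k03 k02 k04)
    (E l1 l3 l4 l0 k13 k14 k34 k01 k03 k04 l2 k12 k23 k24 k02)))
    (Nat.add (Nat.add (E l1 l3 l4 l2 k13 k14 k34 k12 k23 k24 l0 k01 k03 k04 k02)
    (E l1 l4 l0 l2 k14 k01 k04 k12 k24 k02 l3 k13 k34 k03 k23))
    (Nat.add (E l1 l4 l0 l3 k14 k01 k04 k13 k34 k03 l2 k12 k24 k02 k23)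
    (E l1 l4 l2 l0 k14 k12 k24 k01 k04 k02 l3 k13 k34 k23 k03)))))
    (Nat.add (Nat.add (Nat.add (E l1 l4 l2 l3 k14 k12 k24 k13 k34 k23 l0 k01 k04 k02 k03)
    (Nat.add (E l1 l4 l3 l0 k14 k13 k34 k01 k04 k03 l2 k12 k24 k23 k02)
    (E l1 l4 l3 l2 k14 k13 k34 k12 k24 k23 l0 k01 k04 k03 k02)))
    (Nat.add (Nat.add (E l2 l0 l1 l3 k02 k12 k01 k23 k03 k13 l4 k24 k04 k14 k34)
    (E l2 l0 l1 l4 k02 k12 k01 k24 k04 k14 l3 k23 k03 k13 k34))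
    (Nat.add (E l2 l0 l3 l1 k02 k23 k03 k12 k01 k13 l4 k24 k04 k34 k14)
    (E l2 l0 l3 l4 k02 k23 k03 k24 k04 k34 l1 k12 k01 k13 k14))))
    (Nat.add (Nat.add (Nat.add (E l2 l0 l4 l1 k02 k24 k04 k12 k01 k14 l3 k23 k03 k34 k13)
    (E l2 l0 l4 l3 k02 k24 k04 k23 k03 k34 l1 k12 k01 k14 k13))
    (Nat.add (E l2 l1 l0 l3 k12 k02 k01 k23 k13 k03 l4 k24 k14 k04 k34)
    (E l2 l1 l0 l4 k12 k02 k01 k24 k14 k04 l3 k23 k13 k03 k34)))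
    (Nat.add (Nat.add (E l2 l1 l3 l0 k12 k23 k13 k02 k01 k03 l4 k24 k14 k34 k04)
    (E l2 l1 l3 l4 k12 k23 k13 k24 k14 k34 l0 k02 k01 k03 k04))
    (Nat.add (E l2 l1 l4 l0 k12 k24 k14 k02 k01 k04 l3 k23 k13 k34 k03)
    (E l2 l1 l4 l3 k12 k24 k14 k23 k13 k34 l0 k02 k01 k04 k03)))))))
    (Nat.add (Nat.add (Nat.add (Nat.add (Nat.add (E l2 l3 l0 l1 k23 k02 k03 k12 k13 k01 l4 k24 k34 k04 k14)
    (Nat.add (E l2 l3 l0 l4 k23 k02 k03 k24 k34 k04 l1 k12 k13 k01 k14)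
    (E l2 l3 l1 l0 k23 k12 k13 k02 k03 k01 l4 k24 k34 k14 k04)))
    (Nat.add (Nat.add (E l2 l3 l1 l4 k23 k12 k13 k24 k34 k14 l0 k02 k03 k01 k04)
    (E l2 l3 l4 l0 k23 k24 k34 k02 k03 k04 l1 k12 k13 k14 k01))
    (Nat.add (E l2 l3 l4 l1 k23 k24 k34 k12 k13 k14 l0 k02 k03 k04 k01)
    (E l2 l4 l0 l1 k24 k02 k04 k12 k14 k01 l3 k23 k34 k03 k13))))
    (Nat.add (Nat.add (Nat.add (E l2 l4 l0 l3 k24 k02 k04 k23 k34 k03 l1 k12 k14 k01 k13)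
    (E l2 l4 l1 l0 k24 k12 k14 k02 k04 k01 l3 k23 k34 k13 k03))
    (Nat.add (E l2 l4 l1 l3 k24 k12 k14 k23 k34 k13 l0 k02 k04 k01 k03)
    (E l2 l4 l3 l0 k24 k23 k34 k02 k04 k03 l1 k12 k14 k13 k01)))
    (Nat.add (Nat.add (E l2 l4 l3 l1 k24 k23 k34 k12 k14 k13 l0 k02 k04 k03 k01)
    (E l3 l0 l1 l2 k03 k13 k01 k23 k02 k12 l4 k34 k04 k14 k24))
    (Nat.add (E l3 l0 l1 l4 k03 k13 k01 k34 k04 k14 l2 k23 k02 k12 k24)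
    (E l3 l0 l2 l1 k03 k23 k02 k13 k01 k12 l4 k34 k04 k24 k14)))))
    (Nat.add (Nat.add (Nat.add (E l3 l0 l2 l4 k03 k23 k02 k34 k04 k24 l1 k13 k01 k12 k14)
    (Nat.add (E l3 l0 l4 l1 k03 k34 k04 k13 k01 k14 l2 k23 k02 k24 k12)
    (E l3 l0 l4 l2 k03 k34 k04 k23 k02 k24 l1 k13 k01 k14 k12)))
    (Nat.add (Nat.add (E l3 l1 l0 l2 k13 k03 k01 k23 k12 k02 l4 k34 k14 k04 k24)
    (E l3 l1 l0 l4 k13 k03 k01 k34 k14 k04 l2 k23 k12 k02 k24))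
    (Nat.add (E l3 l1 l2 l0 k13 k23 k12 k03 k01 k02 l4 k34 k14 k24 k04)
    (E l3 l1 l2 l4 k13 k23 k12 k34 k14 k24 l0 k03 k01 k02 k04))))
    (Nat.add (Nat.add (Nat.add (E l3 l1 l4 l0 k13 k34 k14 k03 k01 k04 l2 k23 k12 k24 k02)
    (E l3 l1 l4 l2 k13 k34 k14 k23 k12 k24 l0 k03 k01 k04 k02))
    (Nat.add (E l3 l2 l0 l1 k23 k03 k02 k13 k12 k01 l4 k34 k24 k04 k14)
    (E l3 l2 l0 l4 k23 k03 k02 k34 k24 k04 l1 k13 k12 k01 k14)))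
    (Nat.add (Nat.add (E l3 l2 l1 l0 k23 k13 k12 k03 k02 k01 l4 k34 k24 k14 k04)
    (E l3 l2 l1 l4 k23 k13 k12 k34 k24 k14 l0 k03 k02 k01 k04))
    (Nat.add (E l3 l2 l4 l0 k23 k34 k24 k03 k02 k04 l1 k13 k12 k14 k01)
    (E l3 l2 l4 l1 k23 k34 k24 k13 k12 k14 l0 k03 k02 k04 k01))))))
    (Nat.add (Nat.add (Nat.add (Nat.add (E l3 l4 l0 l1 k34 k03 k04 k13 k14 k01 l2 k23 k24 k02 k12)
    (Nat.add (E l3 l4 l0 l2 k34 k03 k04 k23 k24 k02 l1 k13 k14 k01 k12)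
    (E l3 l4 l1 l0 k34 k13 k14 k03 k04 k01 l2 k23 k24 k12 k02)))
    (Nat.add (Nat.add (E l3 l4 l1 l2 k34 k13 k14 k23 k24 k12 l0 k03 k04 k01 k02)
    (E l3 l4 l2 l0 k34 k23 k24 k03 k04 k02 l1 k13 k14 k12 k01))
    (Nat.add (E l3 l4 l2 l1 k34 k23 k24 k13 k14 k12 l0 k03 k04 k02 k01)
    (E l4 l0 l1 l2 k04 k14 k01 k24 k02 k12 l3 k34 k03 k13 k23))))
    (Nat.add (Nat.add (Nat.add (E l4 l0 l1 l3 k04 k14 k01 k34 k03 k13 l2 k24 k02 k12 k23)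
    (E l4 l0 l2 l1 k04 k24 k02 k14 k01 k12 l3 k34 k03 k23 k13))
    (Nat.add (E l4 l0 l2 l3 k04 k24 k02 k34 k03 k23 l1 k14 k01 k12 k13)
    (E l4 l0 l3 l1 k04 k34 k03 k14 k01 k13 l2 k24 k02 k23 k12)))
    (Nat.add (Nat.add (E l4 l0 l3 l2 k04 k34 k03 k24 k02 k23 l1 k14 k01 k13 k12)
    (E l4 l1 l0 l2 k14 k04 k01 k24 k12 k02 l3 k34 k13 k03 k23))
    (Nat.add (E l4 l1 l0 l3 k14 k04 k01 k34 k13 k03 l2 k24 k12 k02 k23)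
    (E l4 l1 l2 l0 k14 k24 k12 k04 k01 k02 l3 k34 k13 k23 k03)))))
    (Nat.add (Nat.add (Nat.add (E l4 l1 l2 l3 k14 k24 k12 k34 k13 k23 l0 k04 k01 k02 k03)
    (Nat.add (E l4 l1 l3 l0 k14 k34 k13 k04 k01 k03 l2 k24 k12 k23 k02)
    (E l4 l1 l3 l2 k14 k34 k13 k24 k12 k23 l0 k04 k01 k03 k02)))
    (Nat.add (Nat.add (E l4 l2 l0 l1 k24 k04 k02 k14 k12 k01 l3 k34 k23 k03 k13)
    (E l4 l2 l0 l3 k24 k04 k02 k34 k23 k03 l1 k14 k12 k01 k13))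
    (Nat.add (E l4 l2 l1 l0 k24 k14 k12 k04 k02 k01 l3 k34 k23 k13 k03)
    (E l4 l2 l1 l3 k24 k14 k12 k34 k23 k13 l0 k04 k02 k01 k03))))
    (Nat.add (Nat.add (Nat.add (E l4 l2 l3 l0 k24 k34 k23 k04 k02 k03 l1 k14 k12 k13 k01)
    (E l4 l2 l3 l1 k24 k34 k23 k14 k12 k13 l0 k04 k02 k03 k01))
    (Nat.add (E l4 l3 l0 l1 k34 k04 k03 k14 k13 k01 l2 k24 k23 k02 k12)
    (E l4 l3 l0 l2 k34 k04 k03 k24 k23 k02 l1 k14 k13 k01 k12)))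
    (Nat.add (Nat.add (E l4 l3 l1 l0 k34 k14 k13 k04 k03 k01 l2 k24 k23 k12 k02)
    (E l4 l3 l1 l2 k34 k14 k13 k24 k23 k12 l0 k04 k03 k01 k02))
    (Nat.add (E l4 l3 l2 l0 k34 k24 k23 k04 k03 k02 l1 k14 k13 k12 k01)
    (E l4 l3 l2 l1 k34 k24 k23 k14 k13 k12 l0 k04 k03 k02 k01))))))))

theorem S5_m0 (E : ℕ → ℕ → ℕ → ℕ → ℕ → ℕ → ℕ → ℕ → ℕ → ℕ → ℕ → ℕ → ℕ → ℕ → ℕ →  ℕ) (l0 l1 l2 l3 k01 k02 k12 k03 k13 k23 l4 k04 k14 k24 k34 : ℕ) :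
    S5 E l1 l0 l2 l3 k01 k12 k02 k13 k03 k23 l4 k14 k04 k24 k34 = S5 E l0 l1 l2 l3 k01 k02 k12 k03 k13 k23 l4 k04 k14 k24 k34 := by
  simp only [S5, Nat.add_eq]
  ring

theorem S5_m1 (E : ℕ → ℕ → ℕ → ℕ → ℕ → ℕ → ℕ → ℕ → ℕ → ℕ → ℕ → ℕ → ℕ → ℕ → ℕ →  ℕ) (l0 l1 l2 l3 k01 k02 k12 k03 k13 k23 l4 k04 k14 k24 k34 : ℕ) :
    S5 E l0 l2 l1 l3 k02 k01 k12 k03 k23 k13 l4 k04 k24 k14 k34 = S5 E l0 l1 l2 l3 k01 k02 k12 k03 k13 k23 l4 k04 k14 k24 k34 := by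
  simp only [S5, Nat.add_eq]
  ring

theorem S5_m2 (E : ℕ → ℕ → ℕ → ℕ → ℕ → ℕ → ℕ → ℕ → ℕ → ℕ → ℕ → ℕ → ℕ → ℕ → ℕ →  ℕ) (l0 l1 l2 l3 k01 k02 k12 k03 k13 k23 l4 k04 k14 k24 k34 : ℕ) :
    S5 E l0 l1 l3 l2 k01 k03 k13 k02 k12 k23 l4 k04 k14 k34 k24 = S5 E l0 l1 l2 l3 k01 k02 k12 k03 k13 k23 l4 k04 k14 k24 k34 := by
  simp only [S5, Nat.add_eq]
  ring

theorem S5_m3 (E : ℕ → ℕ → ℕ → ℕ → ℕ → ℕ → ℕ → ℕ → ℕ → ℕ → ℕ → ℕ → ℕ → ℕ → ℕ →  ℕ) (l0 l1 l2 l3 k01 k02 k12 k03 k13 k23 l4 k04 k14 k24 k34 : ℕ) :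
    S5 E l0 l1 l2 l4 k01 k02 k12 k04 k14 k24 l3 k03 k13 k23 k34 = S5 E l0 l1 l2 l3 k01 k02 k12 k03 k13 k23 l4 k04 k14 k24 k34 := by
  simp only [S5, Nat.add_eq]
  ring

/-- base 4 code of the first four points -/
def code4 (l0 l1 l2 l3 k01 k02 k12 k03 k13 k23 : ℕ) : ℕ :=
  Nat.add (Nat.mul (Nat.add (Nat.mul (Nat.add (Nat.mul (Nat.add (Nat.mul (Nat.add (Nat.mul (Nat.add (Nat.mul (Nat.add (Nat.mul (Nat.add (Nat.mul (Nat.add (Nat.mul (l0) 4) l1) 4) l2) 4) l3) 4) k01) 4) k02) 4) k12) 4) k03) 4) k13) 4) k23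

/-- base 4 code of the last point -/
def code1 (l4 k04 k14 k24 k34 : ℕ) : ℕ :=
  Nat.add (Nat.mul (Nat.add (Nat.mul (Nat.add (Nat.mul (Nat.add (Nat.mul (l4) 4) k04) 4) k14) 4) k24) 4) k34

/-- base 4 code of five points -/
def code5 (l0 l1 l2 l3 k01 k02 k12 k03 k13 k23 l4 k04 k14 k24 k34 : ℕ) : ℕ :=
  Nat.add (Nat.mul (code4 l0 l1 l2 l3 k01 k02 k12 k03 k13 k23) 1024) (code1 l4 k04 k14 k24 k34)

/-- all numbers below `n` -/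
noncomputable def allB (n : ℕ) (f : ℕ → Bool) : Bool := Nat.rec true (fun i ih => and (f i) ih) n

theorem allB_spec {n : ℕ} {f : ℕ → Bool} (h : allB n f = true) {i : ℕ} (hi : i < n) : f i = true := by
  induction n with
  | zero => omega
  | succ n ih =>
    have h' : and (f n) (allB n f) = true := h
    rw [Bool.and_eq_true] at h'
    rcases Nat.lt_succ_iff_lt_or_eq.1 hi with h2 | h2
    · exact ih h'.2 h2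
    · rw [h2]
      exact h'.1

/-- the check of the last point -/
noncomputable def chk1 (L K : ℕ) (adm : ℕ → ℕ → ℕ → ℕ → ℕ → ℕ → ℕ → ℕ → ℕ → ℕ → ℕ → ℕ → ℕ → ℕ → ℕ →  Bool) (E : ℕ → ℕ → ℕ → ℕ → ℕ → ℕ → ℕ → ℕ → ℕ → ℕ → ℕ → ℕ → ℕ → ℕ → ℕ →  ℕ) (CAP : ℕ) (l0 l1 l2 l3 k01 k02 k12 k03 k13 k23 : ℕ) : Bool :=
  allB L fun l4 => allB K fun k04 => allB K fun k14 => allB K fun k24 => allB K fun k34 =>
    cond (Nat.blt (code5 l0 l1 l2 l4 k01 k02 k12 k04 k14 k24 l3 k03 k13 k23 k34) (code5 l0 l1 l2 l3 k01 k02 k12 k03 k13 k23 l4 k04 k14 k24 k34)) true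
      (cond (adm l0 l1 l2 l3 k01 k02 k12 k03 k13 k23 l4 k04 k14 k24 k34) (Nat.ble (S5 E l0 l1 l2 l3 k01 k02 k12 k03 k13 k23 l4 k04 k14 k24 k34) CAP) true)

/-- the part of the check with the first three labels fixed -/
noncomputable def chkPart (L K : ℕ) (adm4 : ℕ → ℕ → ℕ → ℕ → ℕ → ℕ → ℕ → ℕ → ℕ → ℕ →  Bool) (adm : ℕ → ℕ → ℕ → ℕ → ℕ → ℕ → ℕ → ℕ → ℕ → ℕ → ℕ → ℕ → ℕ → ℕ → ℕ →  Bool) (E : ℕ → ℕ → ℕ → ℕ → ℕ → ℕ → ℕ → ℕ → ℕ → ℕ → ℕ → ℕ → ℕ → ℕ → ℕ →  ℕ) (CAP : ℕ) (l0 l1 l2 : ℕ) : Bool :=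
  allB L fun l3 =>
  allB K fun k01 => allB K fun k02 => allB K fun k12 =>
  allB K fun k03 => allB K fun k13 => allB K fun k23 =>
    cond (Nat.blt (code4 l1 l0 l2 l3 k01 k12 k02 k13 k03 k23) (code4 l0 l1 l2 l3 k01 k02 k12 k03 k13 k23)) true
    (cond (Nat.blt (code4 l0 l2 l1 l3 k02 k01 k12 k03 k23 k13) (code4 l0 l1 l2 l3 k01 k02 k12 k03 k13 k23)) true
    (cond (Nat.blt (code4 l0 l1 l3 l2 k01 k03 k13 k02 k12 k23) (code4 l0 l1 l2 l3 k01 k02 k12 k03 k13 k23)) true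
    (cond (adm4 l0 l1 l2 l3 k01 k02 k12 k03 k13 k23) (chk1 L K adm E CAP l0 l1 l2 l3 k01 k02 k12 k03 k13 k23) true)))

/-- the complete check -/
noncomputable def chk (L K : ℕ) (adm4 : ℕ → ℕ → ℕ → ℕ → ℕ → ℕ → ℕ → ℕ → ℕ → ℕ →  Bool) (adm : ℕ → ℕ → ℕ → ℕ → ℕ → ℕ → ℕ → ℕ → ℕ → ℕ → ℕ → ℕ → ℕ → ℕ → ℕ →  Bool) (E : ℕ → ℕ → ℕ → ℕ → ℕ → ℕ → ℕ → ℕ → ℕ → ℕ → ℕ → ℕ → ℕ → ℕ → ℕ →  ℕ) (CAP : ℕ) : Bool :=
  allB L fun l0 => allB L fun l1 => allB L fun l2 => chkPart L K adm4 adm E CAP l0 l1 l2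

theorem allB_of {n : ℕ} {f : ℕ → Bool} (h : ∀ i < n, f i = true) : allB n f = true := by
  induction n with
  | zero => rfl
  | succ n ih =>
    change and (f n) (allB n f) = true
    rw [Bool.and_eq_true]
    exact ⟨h n (Nat.lt_succ_self n), ih fun i hi => h i (Nat.lt_succ_of_lt hi)⟩

theorem chk_of {L K : ℕ} {adm4 : ℕ → ℕ → ℕ → ℕ → ℕ → ℕ → ℕ → ℕ → ℕ → ℕ →  Bool} {adm : ℕ → ℕ → ℕ → ℕ → ℕ → ℕ → ℕ → ℕ → ℕ → ℕ → ℕ → ℕ → ℕ → ℕ → ℕ →  Bool} {E : ℕ → ℕ → ℕ → ℕ → ℕ → ℕ → ℕ → ℕ → ℕ → ℕ → ℕ → ℕ → ℕ → ℕ → ℕ →  ℕ} {CAP : ℕ}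
    (h : ∀ l0 < L, ∀ l1 < L, ∀ l2 < L, chkPart L K adm4 adm E CAP l0 l1 l2 = true) :
    chk L K adm4 adm E CAP = true :=
  allB_of fun l0 h0 => allB_of fun l1 h1 => allB_of fun l2 h2 => h l0 h0 l1 h1 l2 h2

theorem code1_lt {l4 k04 k14 k24 k34 : ℕ} (h0 : l4 < 4) (h1 : k04 < 4) (h2 : k14 < 4) (h3 : k24 < 4)
    (h4 : k34 < 4) : code1 l4 k04 k14 k24 k34 < 1024 := by
  simp only [code1, Nat.add_eq, Nat.mul_eq]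
  omega

section
variable {V : Type*} [Fintype V] (l : V → ℕ) (c : V → V → ℕ)

/-- code of a 5-tuple of points -/
def cd (x : Fin 5 → V) : ℕ := code5 (l (x 0)) (l (x 1)) (l (x 2)) (l (x 3)) (c (x 0) (x 1)) (c (x 0) (x 2)) (c (x 1) (x 2)) (c (x 0) (x 3)) (c (x 1) (x 3)) (c (x 2) (x 3)) (l (x 4)) (c (x 0) (x 4)) (c (x 1) (x 4)) (c (x 2) (x 4)) (c (x 3) (x 4))

omit [Fintype V] in
theorem pointwise {L K : ℕ} (hL : L ≤ 4) (hK : K ≤ 4) (hl : ∀ x, l x < L) (hcK : ∀ x y, c x y < K)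
    (hc : ∀ x y, c x y = c y x) {adm4 : ℕ → ℕ → ℕ → ℕ → ℕ → ℕ → ℕ → ℕ → ℕ → ℕ →  Bool} {adm : ℕ → ℕ → ℕ → ℕ → ℕ → ℕ → ℕ → ℕ → ℕ → ℕ → ℕ → ℕ → ℕ → ℕ → ℕ →  Bool}
    (h4 : ∀ x : Fin 5 → V, adm4 (l (x 0)) (l (x 1)) (l (x 2)) (l (x 3)) (c (x 0) (x 1)) (c (x 0) (x 2)) (c (x 1) (x 2)) (c (x 0) (x 3)) (c (x 1) (x 3)) (c (x 2) (x 3)) = true)
    (h5 : ∀ x : Fin 5 → V, adm (l (x 0)) (l (x 1)) (l (x 2)) (l (x 3)) (c (x 0) (x 1)) (c (x 0) (x 2)) (c (x 1) (x 2)) (c (x 0) (x 3)) (c (x 1) (x 3)) (c (x 2) (x 3)) (l (x 4)) (c (x 0) (x 4)) (c (x 1) (x 4)) (c (x 2) (x 4)) (c (x 3) (x 4)) = true)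
    {E : ℕ → ℕ → ℕ → ℕ → ℕ → ℕ → ℕ → ℕ → ℕ → ℕ → ℕ → ℕ → ℕ → ℕ → ℕ →  ℕ} {CAP : ℕ} (h : chk L K adm4 adm E CAP = true) (x : Fin 5 → V) :
    S5 E (l (x 0)) (l (x 1)) (l (x 2)) (l (x 3)) (c (x 0) (x 1)) (c (x 0) (x 2)) (c (x 1) (x 2)) (c (x 0) (x 3)) (c (x 1) (x 3)) (c (x 2) (x 3)) (l (x 4)) (c (x 0) (x 4)) (c (x 1) (x 4)) (c (x 2) (x 4)) (c (x 3) (x 4)) ≤ CAP := by
  have key : ∀ n : ℕ, ∀ x : Fin 5 → V, cd l c x = n →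
      S5 E (l (x 0)) (l (x 1)) (l (x 2)) (l (x 3)) (c (x 0) (x 1)) (c (x 0) (x 2)) (c (x 1) (x 2)) (c (x 0) (x 3)) (c (x 1) (x 3)) (c (x 2) (x 3)) (l (x 4)) (c (x 0) (x 4)) (c (x 1) (x 4)) (c (x 2) (x 4)) (c (x 3) (x 4)) ≤ CAP := by
    intro n
    induction n using Nat.strong_induction_on with
    | _ n ih =>
      intro x hn
      have hl4 : ∀ x, l x < 4 := fun x => lt_of_lt_of_le (hl x) hL
      have hc4 : ∀ x y, c x y < 4 := fun x y => lt_of_lt_of_le (hcK x y) hK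
      have hx := allB_spec (allB_spec (allB_spec (allB_spec (allB_spec (allB_spec (allB_spec (allB_spec
        (allB_spec (allB_spec h (hl (x 0))) (hl (x 1))) (hl (x 2))) (hl (x 3))) (hcK (x 0) (x 1)))
        (hcK (x 0) (x 2))) (hcK (x 1) (x 2))) (hcK (x 0) (x 3))) (hcK (x 1) (x 3))) (hcK (x 2) (x 3))
      cases t0 : Nat.blt (code4 (l (x 1)) (l (x 0)) (l (x 2)) (l (x 3)) (c (x 0) (x 1)) (c (x 1) (x 2)) (c (x 0) (x 2)) (c (x 1) (x 3)) (c (x 0) (x 3)) (c (x 2) (x 3))) (code4 (l (x 0)) (l (x 1)) (l (x 2)) (l (x 3)) (c (x 0) (x 1)) (c (x 0) (x 2)) (c (x 1) (x 2)) (c (x 0) (x 3)) (c (x 1) (x 3)) (c (x 2) (x 3))) with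
      | true =>
        rw [Nat.blt_eq] at t0
        rw [← S5_m0]
        have e : cd l c ![x 1, x 0, x 2, x 3, x 4] = code5 (l (x 1)) (l (x 0)) (l (x 2)) (l (x 3)) (c (x 0) (x 1)) (c (x 1) (x 2)) (c (x 0) (x 2)) (c (x 1) (x 3)) (c (x 0) (x 3)) (c (x 2) (x 3)) (l (x 4)) (c (x 1) (x 4)) (c (x 0) (x 4)) (c (x 2) (x 4)) (c (x 3) (x 4)) := by
          change code5 (l (x 1)) (l (x 0)) (l (x 2)) (l (x 3)) (c (x 1) (x 0)) (c (x 1) (x 2)) (c (x 0) (x 2)) (c (x 1) (x 3)) (c (x 0) (x 3)) (c (x 2) (x 3)) (l (x 4)) (c (x 1) (x 4)) (c (x 0) (x 4)) (c (x 2) (x 4)) (c (x 3) (x 4)) = _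
          rw [hc (x 1) (x 0)]
        have hlt : cd l c ![x 1, x 0, x 2, x 3, x 4] < n := by
          rw [e, ← hn]
          have b1 := code1_lt (hl4 (x 4)) (hc4 (x 1) (x 4)) (hc4 (x 0) (x 4)) (hc4 (x 2) (x 4)) (hc4 (x 3) (x 4))
          simp only [cd, code5, Nat.add_eq, Nat.mul_eq]
          omega
        have := ih _ hlt ![x 1, x 0, x 2, x 3, x 4] rfl
        change S5 E (l (x 1)) (l (x 0)) (l (x 2)) (l (x 3)) (c (x 1) (x 0)) (c (x 1) (x 2)) (c (x 0) (x 2)) (c (x 1) (x 3)) (c (x 0) (x 3)) (c (x 2) (x 3)) (l (x 4)) (c (x 1) (x 4)) (c (x 0) (x 4)) (c (x 2) (x 4)) (c (x 3) (x 4)) ≤ CAP at this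
        rw [hc (x 1) (x 0)] at this
        exact this
      | false =>
        rw [t0, cond_false] at hx
        cases t1 : Nat.blt (code4 (l (x 0)) (l (x 2)) (l (x 1)) (l (x 3)) (c (x 0) (x 2)) (c (x 0) (x 1)) (c (x 1) (x 2)) (c (x 0) (x 3)) (c (x 2) (x 3)) (c (x 1) (x 3))) (code4 (l (x 0)) (l (x 1)) (l (x 2)) (l (x 3)) (c (x 0) (x 1)) (c (x 0) (x 2)) (c (x 1) (x 2)) (c (x 0) (x 3)) (c (x 1) (x 3)) (c (x 2) (x 3))) with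
        | true =>
          rw [Nat.blt_eq] at t1
          rw [← S5_m1]
          have e : cd l c ![x 0, x 2, x 1, x 3, x 4] = code5 (l (x 0)) (l (x 2)) (l (x 1)) (l (x 3)) (c (x 0) (x 2)) (c (x 0) (x 1)) (c (x 1) (x 2)) (c (x 0) (x 3)) (c (x 2) (x 3)) (c (x 1) (x 3)) (l (x 4)) (c (x 0) (x 4)) (c (x 2) (x 4)) (c (x 1) (x 4)) (c (x 3) (x 4)) := by
            change code5 (l (x 0)) (l (x 2)) (l (x 1)) (l (x 3)) (c (x 0) (x 2)) (c (x 0) (x 1)) (c (x 2) (x 1)) (c (x 0) (x 3)) (c (x 2) (x 3)) (c (x 1) (x 3)) (l (x 4)) (c (x 0) (x 4)) (c (x 2) (x 4)) (c (x 1) (x 4)) (c (x 3) (x 4)) = _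
            rw [hc (x 2) (x 1)]
          have hlt : cd l c ![x 0, x 2, x 1, x 3, x 4] < n := by
            rw [e, ← hn]
            have b1 := code1_lt (hl4 (x 4)) (hc4 (x 0) (x 4)) (hc4 (x 2) (x 4)) (hc4 (x 1) (x 4)) (hc4 (x 3) (x 4))
            simp only [cd, code5, Nat.add_eq, Nat.mul_eq]
            omega
          have := ih _ hlt ![x 0, x 2, x 1, x 3, x 4] rfl
          change S5 E (l (x 0)) (l (x 2)) (l (x 1)) (l (x 3)) (c (x 0) (x 2)) (c (x 0) (x 1)) (c (x 2) (x 1)) (c (x 0) (x 3)) (c (x 2) (x 3)) (c (x 1) (x 3)) (l (x 4)) (c (x 0) (x 4)) (c (x 2) (x 4)) (c (x 1) (x 4)) (c (x 3) (x 4)) ≤ CAP at this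
          rw [hc (x 2) (x 1)] at this
          exact this
        | false =>
          rw [t1, cond_false] at hx
          cases t2 : Nat.blt (code4 (l (x 0)) (l (x 1)) (l (x 3)) (l (x 2)) (c (x 0) (x 1)) (c (x 0) (x 3)) (c (x 1) (x 3)) (c (x 0) (x 2)) (c (x 1) (x 2)) (c (x 2) (x 3))) (code4 (l (x 0)) (l (x 1)) (l (x 2)) (l (x 3)) (c (x 0) (x 1)) (c (x 0) (x 2)) (c (x 1) (x 2)) (c (x 0) (x 3)) (c (x 1) (x 3)) (c (x 2) (x 3))) with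
          | true =>
            rw [Nat.blt_eq] at t2
            rw [← S5_m2]
            have e : cd l c ![x 0, x 1, x 3, x 2, x 4] = code5 (l (x 0)) (l (x 1)) (l (x 3)) (l (x 2)) (c (x 0) (x 1)) (c (x 0) (x 3)) (c (x 1) (x 3)) (c (x 0) (x 2)) (c (x 1) (x 2)) (c (x 2) (x 3)) (l (x 4)) (c (x 0) (x 4)) (c (x 1) (x 4)) (c (x 3) (x 4)) (c (x 2) (x 4)) := by
              change code5 (l (x 0)) (l (x 1)) (l (x 3)) (l (x 2)) (c (x 0) (x 1)) (c (x 0) (x 3)) (c (x 1) (x 3)) (c (x 0) (x 2)) (c (x 1) (x 2)) (c (x 3) (x 2)) (l (x 4)) (c (x 0) (x 4)) (c (x 1) (x 4)) (c (x 3) (x 4)) (c (x 2) (x 4)) = _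
              rw [hc (x 3) (x 2)]
            have hlt : cd l c ![x 0, x 1, x 3, x 2, x 4] < n := by
              rw [e, ← hn]
              have b1 := code1_lt (hl4 (x 4)) (hc4 (x 0) (x 4)) (hc4 (x 1) (x 4)) (hc4 (x 3) (x 4)) (hc4 (x 2) (x 4))
              simp only [cd, code5, Nat.add_eq, Nat.mul_eq]
              omega
            have := ih _ hlt ![x 0, x 1, x 3, x 2, x 4] rfl
            change S5 E (l (x 0)) (l (x 1)) (l (x 3)) (l (x 2)) (c (x 0) (x 1)) (c (x 0) (x 3)) (c (x 1) (x 3)) (c (x 0) (x 2)) (c (x 1) (x 2)) (c (x 3) (x 2)) (l (x 4)) (c (x 0) (x 4)) (c (x 1) (x 4)) (c (x 3) (x 4)) (c (x 2) (x 4)) ≤ CAP at this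
            rw [hc (x 3) (x 2)] at this
            exact this
          | false =>
            rw [t2, cond_false] at hx
            rw [h4 x, cond_true] at hx
            have hy := allB_spec (allB_spec (allB_spec (allB_spec (allB_spec hx (hl (x 4))) (hcK (x 0) (x 4)))
              (hcK (x 1) (x 4))) (hcK (x 2) (x 4))) (hcK (x 3) (x 4))
            cases t3 : Nat.blt (code5 (l (x 0)) (l (x 1)) (l (x 2)) (l (x 4)) (c (x 0) (x 1)) (c (x 0) (x 2)) (c (x 1) (x 2)) (c (x 0) (x 4)) (c (x 1) (x 4)) (c (x 2) (x 4)) (l (x 3)) (c (x 0) (x 3)) (c (x 1) (x 3)) (c (x 2) (x 3)) (c (x 3) (x 4))) (code5 (l (x 0)) (l (x 1)) (l (x 2)) (l (x 3)) (c (x 0) (x 1)) (c (x 0) (x 2)) (c (x 1) (x 2)) (c (x 0) (x 3)) (c (x 1) (x 3)) (c (x 2) (x 3)) (l (x 4)) (c (x 0) (x 4)) (c (x 1) (x 4)) (c (x 2) (x 4)) (c (x 3) (x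 4))) with
            | true =>
              rw [Nat.blt_eq] at t3
              rw [← S5_m3]
              have e : cd l c ![x 0, x 1, x 2, x 4, x 3] = code5 (l (x 0)) (l (x 1)) (l (x 2)) (l (x 4)) (c (x 0) (x 1)) (c (x 0) (x 2)) (c (x 1) (x 2)) (c (x 0) (x 4)) (c (x 1) (x 4)) (c (x 2) (x 4)) (l (x 3)) (c (x 0) (x 3)) (c (x 1) (x 3)) (c (x 2) (x 3)) (c (x 3) (x 4)) := by
                change code5 (l (x 0)) (l (x 1)) (l (x 2)) (l (x 4)) (c (x 0) (x 1)) (c (x 0) (x 2)) (c (x 1) (x 2)) (c (x 0) (x 4)) (c (x 1) (x 4)) (c (x 2) (x 4)) (l (x 3)) (c (x 0) (x 3)) (c (x 1) (x 3)) (c (x 2) (x 3)) (c (x 4) (x 3)) = _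
                rw [hc (x 4) (x 3)]
              have hlt : cd l c ![x 0, x 1, x 2, x 4, x 3] < n := by
                rw [e, ← hn]
                exact t3
              have := ih _ hlt ![x 0, x 1, x 2, x 4, x 3] rfl
              change S5 E (l (x 0)) (l (x 1)) (l (x 2)) (l (x 4)) (c (x 0) (x 1)) (c (x 0) (x 2)) (c (x 1) (x 2)) (c (x 0) (x 4)) (c (x 1) (x 4)) (c (x 2) (x 4)) (l (x 3)) (c (x 0) (x 3)) (c (x 1) (x 3)) (c (x 2) (x 3)) (c (x 4) (x 3)) ≤ CAP at this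
              rw [hc (x 4) (x 3)] at this
              exact this
            | false =>
              rw [t3, cond_false, h5 x, cond_true] at hy
              exact Nat.le_of_ble_eq_true hy
  exact key _ x rfl

theorem sum_S5 (hc : ∀ x y, c x y = c y x) (E : ℕ → ℕ → ℕ → ℕ → ℕ → ℕ → ℕ → ℕ → ℕ → ℕ → ℕ → ℕ → ℕ → ℕ → ℕ →  ℕ) :
    ∑ x : Fin 5 → V, S5 E (l (x 0)) (l (x 1)) (l (x 2)) (l (x 3)) (c (x 0) (x 1)) (c (x 0) (x 2)) (c (x 1) (x 2)) (c (x 0) (x 3)) (c (x 1) (x 3)) (c (x 2) (x 3)) (l (x 4)) (c (x 0) (x 4)) (c (x 1) (x 4)) (c (x 2) (x 4)) (c (x 3) (x 4)) = 120 * ∑ x : Fin 5 → V, E (l (x 0)) (l (x 1)) (l (x 2)) (l (x 3)) (c (x 0) (x 1)) (c (x 0) (x 2)) (c (x 1) (x 2)) (c (x 0) (x 3)) (c (x 1) (x 3)) (c (x 2) (x 3)) (l (x 4)) (c (x 0) (x 4)) (c (x 1) (x 4)) (c (x 2) (x 4)) (c (x 3) (x 4)) :=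 by
  let F : (Fin 5 → V) → ℕ := fun x => E (l (x 0)) (l (x 1)) (l (x 2)) (l (x 3)) (c (x 0) (x 1)) (c (x 0) (x 2)) (c (x 1) (x 2)) (c (x 0) (x 3)) (c (x 1) (x 3)) (c (x 2) (x 3)) (l (x 4)) (c (x 0) (x 4)) (c (x 1) (x 4)) (c (x 2) (x 4)) (c (x 3) (x 4))
  have h0 : ∑ x : Fin 5 → V, E (l (x 0)) (l (x 1)) (l (x 2)) (l (x 3)) (c (x 0) (x 1)) (c (x 0) (x 2)) (c (x 1) (x 2)) (c (x 0) (x 3)) (c (x 1) (x 3)) (c (x 2) (x 3)) (l (x 4)) (c (x 0) (x 4)) (c (x 1) (x 4)) (c (x 2) (x 4)) (c (x 3) (x 4)) = ∑ x, F x := rfl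
  have h1 : ∑ x : Fin 5 → V, E (l (x 0)) (l (x 1)) (l (x 2)) (l (x 4)) (c (x 0) (x 1)) (c (x 0) (x 2)) (c (x 1) (x 2)) (c (x 0) (x 4)) (c (x 1) (x 4)) (c (x 2) (x 4)) (l (x 3)) (c (x 0) (x 3)) (c (x 1) (x 3)) (c (x 2) (x 3)) (c (x 3) (x 4)) = ∑ x, F x := by
    rw [← sum_perm ![0, 1, 2, 4, 3] (by decide) F]
    refine Finset.sum_congr rfl fun x _ => ?_
    change _ = E (l (x 0)) (l (x 1)) (l (x 2)) (l (x 4)) (c (x 0) (x 1)) (c (x 0) (x 2)) (c (x 1) (x 2)) (c (x 0) (x 4)) (c (x 1) (x 4)) (c (x 2) (x 4)) (l (x 3)) (c (x 0) (x 3)) (c (x 1) (x 3)) (c (x 2) (x 3)) (c (x 4) (x 3))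
    rw [hc (x 4) (x 3)]
  have h2 : ∑ x : Fin 5 → V, E (l (x 0)) (l (x 1)) (l (x 3)) (l (x 2)) (c (x 0) (x 1)) (c (x 0) (x 3)) (c (x 1) (x 3)) (c (x 0) (x 2)) (c (x 1) (x 2)) (c (x 2) (x 3)) (l (x 4)) (c (x 0) (x 4)) (c (x 1) (x 4)) (c (x 3) (x 4)) (c (x 2) (x 4)) = ∑ x, F x := by
    rw [← sum_perm ![0, 1, 3, 2, 4] (by decide) F]
    refine Finset.sum_congr rfl fun x _ => ?_
    change _ = E (l (x 0)) (l (x 1)) (l (x 3)) (l (x 2)) (c (x 0) (x 1)) (c (x 0) (x 3)) (c (x 1) (x 3)) (c (x 0) (x 2)) (c (x 1) (x 2)) (c (x 3) (x 2)) (l (x 4)) (c (x 0) (x 4)) (c (x 1) (x 4)) (c (x 3) (x 4)) (c (x 2) (x 4))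
    rw [hc (x 3) (x 2)]
  have h3 : ∑ x : Fin 5 → V, E (l (x 0)) (l (x 1)) (l (x 3)) (l (x 4)) (c (x 0) (x 1)) (c (x 0) (x 3)) (c (x 1) (x 3)) (c (x 0) (x 4)) (c (x 1) (x 4)) (c (x 3) (x 4)) (l (x 2)) (c (x 0) (x 2)) (c (x 1) (x 2)) (c (x 2) (x 3)) (c (x 2) (x 4)) = ∑ x, F x := by
    rw [← sum_perm ![0, 1, 3, 4, 2] (by decide) F]
    refine Finset.sum_congr rfl fun x _ => ?_
    change _ = E (l (x 0)) (l (x 1)) (l (x 3)) (l (x 4)) (c (x 0) (x 1)) (c (x 0) (x 3)) (c (x 1) (x 3)) (c (x 0) (x 4)) (c (x 1) (x 4)) (c (x 3) (x 4)) (l (x 2)) (c (x 0) (x 2)) (c (x 1) (x 2)) (c (x 3) (x 2)) (c (x 4) (x 2))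
    rw [hc (x 3) (x 2), hc (x 4) (x 2)]
  have h4 : ∑ x : Fin 5 → V, E (l (x 0)) (l (x 1)) (l (x 4)) (l (x 2)) (c (x 0) (x 1)) (c (x 0) (x 4)) (c (x 1) (x 4)) (c (x 0) (x 2)) (c (x 1) (x 2)) (c (x 2) (x 4)) (l (x 3)) (c (x 0) (x 3)) (c (x 1) (x 3)) (c (x 3) (x 4)) (c (x 2) (x 3)) = ∑ x, F x := by
    rw [← sum_perm ![0, 1, 4, 2, 3] (by decide) F]
    refine Finset.sum_congr rfl fun x _ => ?_
    change _ = E (l (x 0)) (l (x 1)) (l (x 4)) (l (x 2)) (c (x 0) (x 1)) (c (x 0) (x 4)) (c (x 1) (x 4)) (c (x 0) (x 2)) (c (x 1) (x 2)) (c (x 4) (x 2)) (l (x 3)) (c (x 0) (x 3)) (c (x 1) (x 3)) (c (x 4) (x 3)) (c (x 2) (x 3))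
    rw [hc (x 4) (x 2), hc (x 4) (x 3)]
  have h5 : ∑ x : Fin 5 → V, E (l (x 0)) (l (x 1)) (l (x 4)) (l (x 3)) (c (x 0) (x 1)) (c (x 0) (x 4)) (c (x 1) (x 4)) (c (x 0) (x 3)) (c (x 1) (x 3)) (c (x 3) (x 4)) (l (x 2)) (c (x 0) (x 2)) (c (x 1) (x 2)) (c (x 2) (x 4)) (c (x 2) (x 3)) = ∑ x, F x := by
    rw [← sum_perm ![0, 1, 4, 3, 2] (by decide) F]
    refine Finset.sum_congr rfl fun x _ => ?_
    change _ = E (l (x 0)) (l (x 1)) (l (x 4)) (l (x 3)) (c (x 0) (x 1)) (c (x 0) (x 4)) (c (x 1) (x 4)) (c (x 0) (x 3)) (c (x 1) (x 3)) (c (x 4) (x 3)) (l (x 2)) (c (x 0) (x 2)) (c (x 1) (x 2)) (c (x 4) (x 2)) (c (x 3) (x 2))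
    rw [hc (x 4) (x 3), hc (x 4) (x 2), hc (x 3) (x 2)]
  have h6 : ∑ x : Fin 5 → V, E (l (x 0)) (l (x 2)) (l (x 1)) (l (x 3)) (c (x 0) (x 2)) (c (x 0) (x 1)) (c (x 1) (x 2)) (c (x 0) (x 3)) (c (x 2) (x 3)) (c (x 1) (x 3)) (l (x 4)) (c (x 0) (x 4)) (c (x 2) (x 4)) (c (x 1) (x 4)) (c (x 3) (x 4)) = ∑ x, F x := by
    rw [← sum_perm ![0, 2, 1, 3, 4] (by decide) F]
    refine Finset.sum_congr rfl fun x _ => ?_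
    change _ = E (l (x 0)) (l (x 2)) (l (x 1)) (l (x 3)) (c (x 0) (x 2)) (c (x 0) (x 1)) (c (x 2) (x 1)) (c (x 0) (x 3)) (c (x 2) (x 3)) (c (x 1) (x 3)) (l (x 4)) (c (x 0) (x 4)) (c (x 2) (x 4)) (c (x 1) (x 4)) (c (x 3) (x 4))
    rw [hc (x 2) (x 1)]
  have h7 : ∑ x : Fin 5 → V, E (l (x 0)) (l (x 2)) (l (x 1)) (l (x 4)) (c (x 0) (x 2)) (c (x 0) (x 1)) (c (x 1) (x 2)) (c (x 0) (x 4)) (c (x 2) (x 4)) (c (x 1) (x 4)) (l (x 3)) (c (x 0) (x 3)) (c (x 2) (x 3)) (c (x 1) (x 3)) (c (x 3) (x 4)) = ∑ x, F x := by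
    rw [← sum_perm ![0, 2, 1, 4, 3] (by decide) F]
    refine Finset.sum_congr rfl fun x _ => ?_
    change _ = E (l (x 0)) (l (x 2)) (l (x 1)) (l (x 4)) (c (x 0) (x 2)) (c (x 0) (x 1)) (c (x 2) (x 1)) (c (x 0) (x 4)) (c (x 2) (x 4)) (c (x 1) (x 4)) (l (x 3)) (c (x 0) (x 3)) (c (x 2) (x 3)) (c (x 1) (x 3)) (c (x 4) (x 3))
    rw [hc (x 2) (x 1), hc (x 4) (x 3)]
  have h8 : ∑ x : Fin 5 → V, E (l (x 0)) (l (x 2)) (l (x 3)) (l (x 1)) (c (x 0) (x 2)) (c (x 0) (x 3)) (c (x 2) (x 3)) (c (x 0) (x 1)) (c (x 1) (x 2)) (c (x 1) (x 3)) (l (x 4)) (c (x 0) (x 4)) (c (x 2) (x 4)) (c (x 3) (x 4)) (c (x 1) (x 4)) = ∑ x, F x := by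
    rw [← sum_perm ![0, 2, 3, 1, 4] (by decide) F]
    refine Finset.sum_congr rfl fun x _ => ?_
    change _ = E (l (x 0)) (l (x 2)) (l (x 3)) (l (x 1)) (c (x 0) (x 2)) (c (x 0) (x 3)) (c (x 2) (x 3)) (c (x 0) (x 1)) (c (x 2) (x 1)) (c (x 3) (x 1)) (l (x 4)) (c (x 0) (x 4)) (c (x 2) (x 4)) (c (x 3) (x 4)) (c (x 1) (x 4))
    rw [hc (x 2) (x 1), hc (x 3) (x 1)]
  have h9 : ∑ x : Fin 5 → V, E (l (x 0)) (l (x 2)) (l (x 3)) (l (x 4)) (c (x 0) (x 2)) (c (x 0) (x 3)) (c (x 2) (x 3)) (c (x 0) (x 4)) (c (x 2) (x 4)) (c (x 3) (x 4)) (l (x 1)) (c (x 0) (x 1)) (c (x 1) (x 2)) (c (x 1) (x 3)) (c (x 1) (x 4)) = ∑ x, F x := by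
    rw [← sum_perm ![0, 2, 3, 4, 1] (by decide) F]
    refine Finset.sum_congr rfl fun x _ => ?_
    change _ = E (l (x 0)) (l (x 2)) (l (x 3)) (l (x 4)) (c (x 0) (x 2)) (c (x 0) (x 3)) (c (x 2) (x 3)) (c (x 0) (x 4)) (c (x 2) (x 4)) (c (x 3) (x 4)) (l (x 1)) (c (x 0) (x 1)) (c (x 2) (x 1)) (c (x 3) (x 1)) (c (x 4) (x 1))
    rw [hc (x 2) (x 1), hc (x 3) (x 1), hc (x 4) (x 1)]
  have h10 : ∑ x : Fin 5 → V, E (l (x 0)) (l (x 2)) (l (x 4)) (l (x 1)) (c (x 0) (x 2)) (c (x 0) (x 4)) (c (x 2) (x 4)) (c (x 0) (x 1)) (c (x 1) (x 2)) (c (x 1) (x 4)) (l (x 3)) (c (x 0) (x 3)) (c (x 2) (x 3)) (c (x 3) (x 4)) (c (x 1) (x 3)) = ∑ x, F x := by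
    rw [← sum_perm ![0, 2, 4, 1, 3] (by decide) F]
    refine Finset.sum_congr rfl fun x _ => ?_
    change _ = E (l (x 0)) (l (x 2)) (l (x 4)) (l (x 1)) (c (x 0) (x 2)) (c (x 0) (x 4)) (c (x 2) (x 4)) (c (x 0) (x 1)) (c (x 2) (x 1)) (c (x 4) (x 1)) (l (x 3)) (c (x 0) (x 3)) (c (x 2) (x 3)) (c (x 4) (x 3)) (c (x 1) (x 3))
    rw [hc (x 2) (x 1), hc (x 4) (x 1), hc (x 4) (x 3)]
  have h11 : ∑ x : Fin 5 → V, E (l (x 0)) (l (x 2)) (l (x 4)) (l (x 3)) (c (x 0) (x 2)) (c (x 0) (x 4)) (c (x 2) (x 4)) (c (x 0) (x 3)) (c (x 2) (x 3)) (c (x 3) (x 4)) (l (x 1)) (c (x 0) (x 1)) (c (x 1) (x 2)) (c (x 1) (x 4)) (c (x 1) (x 3)) = ∑ x, F x := by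
    rw [← sum_perm ![0, 2, 4, 3, 1] (by decide) F]
    refine Finset.sum_congr rfl fun x _ => ?_
    change _ = E (l (x 0)) (l (x 2)) (l (x 4)) (l (x 3)) (c (x 0) (x 2)) (c (x 0) (x 4)) (c (x 2) (x 4)) (c (x 0) (x 3)) (c (x 2) (x 3)) (c (x 4) (x 3)) (l (x 1)) (c (x 0) (x 1)) (c (x 2) (x 1)) (c (x 4) (x 1)) (c (x 3) (x 1))
    rw [hc (x 4) (x 3), hc (x 2) (x 1), hc (x 4) (x 1), hc (x 3) (x 1)]
  have h12 : ∑ x : Fin 5 → V, E (l (x 0)) (l (x 3)) (l (x 1)) (l (x 2)) (c (x 0) (x 3)) (c (x 0) (x 1)) (c (x 1) (x 3)) (c (x 0) (x 2)) (c (x 2) (x 3)) (c (x 1) (x 2)) (l (x 4)) (c (x 0) (x 4)) (c (x 3) (x 4)) (c (x 1) (x 4)) (c (x 2) (x 4)) = ∑ x, F x := by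
    rw [← sum_perm ![0, 3, 1, 2, 4] (by decide) F]
    refine Finset.sum_congr rfl fun x _ => ?_
    change _ = E (l (x 0)) (l (x 3)) (l (x 1)) (l (x 2)) (c (x 0) (x 3)) (c (x 0) (x 1)) (c (x 3) (x 1)) (c (x 0) (x 2)) (c (x 3) (x 2)) (c (x 1) (x 2)) (l (x 4)) (c (x 0) (x 4)) (c (x 3) (x 4)) (c (x 1) (x 4)) (c (x 2) (x 4))
    rw [hc (x 3) (x 1), hc (x 3) (x 2)]
  have h13 : ∑ x : Fin 5 → V, E (l (x 0)) (l (x 3)) (l (x 1)) (l (x 4)) (c (x 0) (x 3)) (c (x 0) (x 1)) (c (x 1) (x 3)) (c (x 0) (x 4)) (c (x 3) (x 4)) (c (x 1) (x 4)) (l (x 2)) (c (x 0) (x 2)) (c (x 2) (x 3)) (c (x 1) (x 2)) (c (x 2) (x 4)) = ∑ x, F x := by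
    rw [← sum_perm ![0, 3, 1, 4, 2] (by decide) F]
    refine Finset.sum_congr rfl fun x _ => ?_
    change _ = E (l (x 0)) (l (x 3)) (l (x 1)) (l (x 4)) (c (x 0) (x 3)) (c (x 0) (x 1)) (c (x 3) (x 1)) (c (x 0) (x 4)) (c (x 3) (x 4)) (c (x 1) (x 4)) (l (x 2)) (c (x 0) (x 2)) (c (x 3) (x 2)) (c (x 1) (x 2)) (c (x 4) (x 2))
    rw [hc (x 3) (x 1), hc (x 3) (x 2), hc (x 4) (x 2)]
  have h14 : ∑ x : Fin 5 → V, E (l (x 0)) (l (x 3)) (l (x 2)) (l (x 1)) (c (x 0) (x 3)) (c (x 0) (x 2)) (c (x 2) (x 3)) (c (x 0) (x 1)) (c (x 1) (x 3)) (c (x 1) (x 2)) (l (x 4)) (c (x 0) (x 4)) (c (x 3) (x 4)) (c (x 2) (x 4)) (c (x 1) (x 4)) = ∑ x, F x := by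
    rw [← sum_perm ![0, 3, 2, 1, 4] (by decide) F]
    refine Finset.sum_congr rfl fun x _ => ?_
    change _ = E (l (x 0)) (l (x 3)) (l (x 2)) (l (x 1)) (c (x 0) (x 3)) (c (x 0) (x 2)) (c (x 3) (x 2)) (c (x 0) (x 1)) (c (x 3) (x 1)) (c (x 2) (x 1)) (l (x 4)) (c (x 0) (x 4)) (c (x 3) (x 4)) (c (x 2) (x 4)) (c (x 1) (x 4))
    rw [hc (x 3) (x 2), hc (x 3) (x 1), hc (x 2) (x 1)]
  have h15 : ∑ x : Fin 5 → V, E (l (x 0)) (l (x 3)) (l (x 2)) (l (x 4)) (c (x 0) (x 3)) (c (x 0) (x 2)) (c (x 2) (x 3)) (c (x 0) (x 4)) (c (x 3) (x 4)) (c (x 2) (x 4)) (l (x 1)) (c (x 0) (x 1)) (c (x 1) (x 3)) (c (x 1) (x 2)) (c (x 1) (x 4)) = ∑ x, F x := by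
    rw [← sum_perm ![0, 3, 2, 4, 1] (by decide) F]
    refine Finset.sum_congr rfl fun x _ => ?_
    change _ = E (l (x 0)) (l (x 3)) (l (x 2)) (l (x 4)) (c (x 0) (x 3)) (c (x 0) (x 2)) (c (x 3) (x 2)) (c (x 0) (x 4)) (c (x 3) (x 4)) (c (x 2) (x 4)) (l (x 1)) (c (x 0) (x 1)) (c (x 3) (x 1)) (c (x 2) (x 1)) (c (x 4) (x 1))
    rw [hc (x 3) (x 2), hc (x 3) (x 1), hc (x 2) (x 1), hc (x 4) (x 1)]
  have h16 : ∑ x : Fin 5 → V, E (l (x 0)) (l (x 3)) (l (x 4)) (l (x 1)) (c (x 0) (x 3)) (c (x 0) (x 4)) (c (x 3) (x 4)) (c (x 0) (x 1)) (c (x 1) (x 3)) (c (x 1) (x 4)) (l (x 2)) (c (x 0) (x 2)) (c (x 2) (x 3)) (c (x 2) (x 4)) (c (x 1) (x 2)) = ∑ x, F x := by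
    rw [← sum_perm ![0, 3, 4, 1, 2] (by decide) F]
    refine Finset.sum_congr rfl fun x _ => ?_
    change _ = E (l (x 0)) (l (x 3)) (l (x 4)) (l (x 1)) (c (x 0) (x 3)) (c (x 0) (x 4)) (c (x 3) (x 4)) (c (x 0) (x 1)) (c (x 3) (x 1)) (c (x 4) (x 1)) (l (x 2)) (c (x 0) (x 2)) (c (x 3) (x 2)) (c (x 4) (x 2)) (c (x 1) (x 2))
    rw [hc (x 3) (x 1), hc (x 4) (x 1), hc (x 3) (x 2), hc (x 4) (x 2)]
  have h17 : ∑ x : Fin 5 → V, E (l (x 0)) (l (x 3)) (l (x 4)) (l (x 2)) (c (x 0) (x 3)) (c (x 0) (x 4)) (c (x 3) (x 4)) (c (x 0) (x 2)) (c (x 2) (x 3)) (c (x 2) (x 4)) (l (x 1)) (c (x 0) (x 1)) (c (x 1) (x 3)) (c (x 1) (x 4)) (c (x 1) (x 2)) = ∑ x, F x := by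
    rw [← sum_perm ![0, 3, 4, 2, 1] (by decide) F]
    refine Finset.sum_congr rfl fun x _ => ?_
    change _ = E (l (x 0)) (l (x 3)) (l (x 4)) (l (x 2)) (c (x 0) (x 3)) (c (x 0) (x 4)) (c (x 3) (x 4)) (c (x 0) (x 2)) (c (x 3) (x 2)) (c (x 4) (x 2)) (l (x 1)) (c (x 0) (x 1)) (c (x 3) (x 1)) (c (x 4) (x 1)) (c (x 2) (x 1))
    rw [hc (x 3) (x 2), hc (x 4) (x 2), hc (x 3) (x 1), hc (x 4) (x 1), hc (x 2) (x 1)]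
  have h18 : ∑ x : Fin 5 → V, E (l (x 0)) (l (x 4)) (l (x 1)) (l (x 2)) (c (x 0) (x 4)) (c (x 0) (x 1)) (c (x 1) (x 4)) (c (x 0) (x 2)) (c (x 2) (x 4)) (c (x 1) (x 2)) (l (x 3)) (c (x 0) (x 3)) (c (x 3) (x 4)) (c (x 1) (x 3)) (c (x 2) (x 3)) = ∑ x, F x := by
    rw [← sum_perm ![0, 4, 1, 2, 3] (by decide) F]
    refine Finset.sum_congr rfl fun x _ => ?_
    change _ = E (l (x 0)) (l (x 4)) (l (x 1)) (l (x 2)) (c (x 0) (x 4)) (c (x 0) (x 1)) (c (x 4) (x 1)) (c (x 0) (x 2)) (c (x 4) (x 2)) (c (x 1) (x 2)) (l (x 3)) (c (x 0) (x 3)) (c (x 4) (x 3)) (c (x 1) (x 3)) (c (x 2) (x 3))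
    rw [hc (x 4) (x 1), hc (x 4) (x 2), hc (x 4) (x 3)]
  have h19 : ∑ x : Fin 5 → V, E (l (x 0)) (l (x 4)) (l (x 1)) (l (x 3)) (c (x 0) (x 4)) (c (x 0) (x 1)) (c (x 1) (x 4)) (c (x 0) (x 3)) (c (x 3) (x 4)) (c (x 1) (x 3)) (l (x 2)) (c (x 0) (x 2)) (c (x 2) (x 4)) (c (x 1) (x 2)) (c (x 2) (x 3)) = ∑ x, F x := by
    rw [← sum_perm ![0, 4, 1, 3, 2] (by decide) F]
    refine Finset.sum_congr rfl fun x _ => ?_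
    change _ = E (l (x 0)) (l (x 4)) (l (x 1)) (l (x 3)) (c (x 0) (x 4)) (c (x 0) (x 1)) (c (x 4) (x 1)) (c (x 0) (x 3)) (c (x 4) (x 3)) (c (x 1) (x 3)) (l (x 2)) (c (x 0) (x 2)) (c (x 4) (x 2)) (c (x 1) (x 2)) (c (x 3) (x 2))
    rw [hc (x 4) (x 1), hc (x 4) (x 3), hc (x 4) (x 2), hc (x 3) (x 2)]
  have h20 : ∑ x : Fin 5 → V, E (l (x 0)) (l (x 4)) (l (x 2)) (l (x 1)) (c (x 0) (x 4)) (c (x 0) (x 2)) (c (x 2) (x 4)) (c (x 0) (x 1)) (c (x 1) (x 4)) (c (x 1) (x 2)) (l (x 3)) (c (x 0) (x 3)) (c (x 3) (x 4)) (c (x 2) (x 3)) (c (x 1) (x 3)) = ∑ x, F x := by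
    rw [← sum_perm ![0, 4, 2, 1, 3] (by decide) F]
    refine Finset.sum_congr rfl fun x _ => ?_
    change _ = E (l (x 0)) (l (x 4)) (l (x 2)) (l (x 1)) (c (x 0) (x 4)) (c (x 0) (x 2)) (c (x 4) (x 2)) (c (x 0) (x 1)) (c (x 4) (x 1)) (c (x 2) (x 1)) (l (x 3)) (c (x 0) (x 3)) (c (x 4) (x 3)) (c (x 2) (x 3)) (c (x 1) (x 3))
    rw [hc (x 4) (x 2), hc (x 4) (x 1), hc (x 2) (x 1), hc (x 4) (x 3)]
  have h21 : ∑ x : Fin 5 → V, E (l (x 0)) (l (x 4)) (l (x 2)) (l (x 3)) (c (x 0) (x 4)) (c (x 0) (x 2)) (c (x 2) (x 4)) (c (x 0) (x 3)) (c (x 3) (x 4)) (c (x 2) (x 3)) (l (x 1)) (c (x 0) (x 1)) (c (x 1) (x 4)) (c (x 1) (x 2)) (c (x 1) (x 3)) = ∑ x, F x := by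
    rw [← sum_perm ![0, 4, 2, 3, 1] (by decide) F]
    refine Finset.sum_congr rfl fun x _ => ?_
    change _ = E (l (x 0)) (l (x 4)) (l (x 2)) (l (x 3)) (c (x 0) (x 4)) (c (x 0) (x 2)) (c (x 4) (x 2)) (c (x 0) (x 3)) (c (x 4) (x 3)) (c (x 2) (x 3)) (l (x 1)) (c (x 0) (x 1)) (c (x 4) (x 1)) (c (x 2) (x 1)) (c (x 3) (x 1))
    rw [hc (x 4) (x 2), hc (x 4) (x 3), hc (x 4) (x 1), hc (x 2) (x 1), hc (x 3) (x 1)]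
  have h22 : ∑ x : Fin 5 → V, E (l (x 0)) (l (x 4)) (l (x 3)) (l (x 1)) (c (x 0) (x 4)) (c (x 0) (x 3)) (c (x 3) (x 4)) (c (x 0) (x 1)) (c (x 1) (x 4)) (c (x 1) (x 3)) (l (x 2)) (c (x 0) (x 2)) (c (x 2) (x 4)) (c (x 2) (x 3)) (c (x 1) (x 2)) = ∑ x, F x := by
    rw [← sum_perm ![0, 4, 3, 1, 2] (by decide) F]
    refine Finset.sum_congr rfl fun x _ => ?_
    change _ = E (l (x 0)) (l (x 4)) (l (x 3)) (l (x 1)) (c (x 0) (x 4)) (c (x 0) (x 3)) (c (x 4) (x 3)) (c (x 0) (x 1)) (c (x 4) (x 1)) (c (x 3) (x 1)) (l (x 2)) (c (x 0) (x 2)) (c (x 4) (x 2)) (c (x 3) (x 2)) (c (x 1) (x 2))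
    rw [hc (x 4) (x 3), hc (x 4) (x 1), hc (x 3) (x 1), hc (x 4) (x 2), hc (x 3) (x 2)]
  have h23 : ∑ x : Fin 5 → V, E (l (x 0)) (l (x 4)) (l (x 3)) (l (x 2)) (c (x 0) (x 4)) (c (x 0) (x 3)) (c (x 3) (x 4)) (c (x 0) (x 2)) (c (x 2) (x 4)) (c (x 2) (x 3)) (l (x 1)) (c (x 0) (x 1)) (c (x 1) (x 4)) (c (x 1) (x 3)) (c (x 1) (x 2)) = ∑ x, F x := by
    rw [← sum_perm ![0, 4, 3, 2, 1] (by decide) F]
    refine Finset.sum_congr rfl fun x _ => ?_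
    change _ = E (l (x 0)) (l (x 4)) (l (x 3)) (l (x 2)) (c (x 0) (x 4)) (c (x 0) (x 3)) (c (x 4) (x 3)) (c (x 0) (x 2)) (c (x 4) (x 2)) (c (x 3) (x 2)) (l (x 1)) (c (x 0) (x 1)) (c (x 4) (x 1)) (c (x 3) (x 1)) (c (x 2) (x 1))
    rw [hc (x 4) (x 3), hc (x 4) (x 2), hc (x 3) (x 2), hc (x 4) (x 1), hc (x 3) (x 1), hc (x 2) (x 1)]
  have h24 : ∑ x : Fin 5 → V, E (l (x 1)) (l (x 0)) (l (x 2)) (l (x 3)) (c (x 0) (x 1)) (c (x 1) (x 2)) (c (x 0) (x 2)) (c (x 1) (x 3)) (c (x 0) (x 3)) (c (x 2) (x 3)) (l (x 4)) (c (x 1) (x 4)) (c (x 0) (x 4)) (c (x 2) (x 4)) (c (x 3) (x 4)) = ∑ x, F x := by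
    rw [← sum_perm ![1, 0, 2, 3, 4] (by decide) F]
    refine Finset.sum_congr rfl fun x _ => ?_
    change _ = E (l (x 1)) (l (x 0)) (l (x 2)) (l (x 3)) (c (x 1) (x 0)) (c (x 1) (x 2)) (c (x 0) (x 2)) (c (x 1) (x 3)) (c (x 0) (x 3)) (c (x 2) (x 3)) (l (x 4)) (c (x 1) (x 4)) (c (x 0) (x 4)) (c (x 2) (x 4)) (c (x 3) (x 4))
    rw [hc (x 1) (x 0)]
  have h25 : ∑ x : Fin 5 → V, E (l (x 1)) (l (x 0)) (l (x 2)) (l (x 4)) (c (x 0) (x 1)) (c (x 1) (x 2)) (c (x 0) (x 2)) (c (x 1) (x 4)) (c (x 0) (x 4)) (c (x 2) (x 4)) (l (x 3)) (c (x 1) (x 3)) (c (x 0) (x 3)) (c (x 2) (x 3)) (c (x 3) (x 4)) = ∑ x, F x := by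
    rw [← sum_perm ![1, 0, 2, 4, 3] (by decide) F]
    refine Finset.sum_congr rfl fun x _ => ?_
    change _ = E (l (x 1)) (l (x 0)) (l (x 2)) (l (x 4)) (c (x 1) (x 0)) (c (x 1) (x 2)) (c (x 0) (x 2)) (c (x 1) (x 4)) (c (x 0) (x 4)) (c (x 2) (x 4)) (l (x 3)) (c (x 1) (x 3)) (c (x 0) (x 3)) (c (x 2) (x 3)) (c (x 4) (x 3))
    rw [hc (x 1) (x 0), hc (x 4) (x 3)]
  have h26 : ∑ x : Fin 5 → V, E (l (x 1)) (l (x 0)) (l (x 3)) (l (x 2)) (c (x 0) (x 1)) (c (x 1) (x 3)) (c (x 0) (x 3)) (c (x 1) (x 2)) (c (x 0) (x 2)) (c (x 2) (x 3)) (l (x 4)) (c (x 1) (x 4)) (c (x 0) (x 4)) (c (x 3) (x 4)) (c (x 2) (x 4)) = ∑ x, F x := by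
    rw [← sum_perm ![1, 0, 3, 2, 4] (by decide) F]
    refine Finset.sum_congr rfl fun x _ => ?_
    change _ = E (l (x 1)) (l (x 0)) (l (x 3)) (l (x 2)) (c (x 1) (x 0)) (c (x 1) (x 3)) (c (x 0) (x 3)) (c (x 1) (x 2)) (c (x 0) (x 2)) (c (x 3) (x 2)) (l (x 4)) (c (x 1) (x 4)) (c (x 0) (x 4)) (c (x 3) (x 4)) (c (x 2) (x 4))
    rw [hc (x 1) (x 0), hc (x 3) (x 2)]
  have h27 : ∑ x : Fin 5 → V, E (l (x 1)) (l (x 0)) (l (x 3)) (l (x 4)) (c (x 0) (x 1)) (c (x 1) (x 3)) (c (x 0) (x 3)) (c (x 1) (x 4)) (c (x 0) (x 4)) (c (x 3) (x 4)) (l (x 2)) (c (x 1) (x 2)) (c (x 0) (x 2)) (c (x 2) (x 3)) (c (x 2) (x 4)) = ∑ x, F x := by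
    rw [← sum_perm ![1, 0, 3, 4, 2] (by decide) F]
    refine Finset.sum_congr rfl fun x _ => ?_
    change _ = E (l (x 1)) (l (x 0)) (l (x 3)) (l (x 4)) (c (x 1) (x 0)) (c (x 1) (x 3)) (c (x 0) (x 3)) (c (x 1) (x 4)) (c (x 0) (x 4)) (c (x 3) (x 4)) (l (x 2)) (c (x 1) (x 2)) (c (x 0) (x 2)) (c (x 3) (x 2)) (c (x 4) (x 2))
    rw [hc (x 1) (x 0), hc (x 3) (x 2), hc (x 4) (x 2)]
  have h28 : ∑ x : Fin 5 → V, E (l (x 1)) (l (x 0)) (l (x 4)) (l (x 2)) (c (x 0) (x 1)) (c (x 1) (x 4)) (c (x 0) (x 4)) (c (x 1) (x 2)) (c (x 0) (x 2)) (c (x 2) (x 4)) (l (x 3)) (c (x 1) (x 3)) (c (x 0) (x 3)) (c (x 3) (x 4)) (c (x 2) (x 3)) = ∑ x, F x := by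
    rw [← sum_perm ![1, 0, 4, 2, 3] (by decide) F]
    refine Finset.sum_congr rfl fun x _ => ?_
    change _ = E (l (x 1)) (l (x 0)) (l (x 4)) (l (x 2)) (c (x 1) (x 0)) (c (x 1) (x 4)) (c (x 0) (x 4)) (c (x 1) (x 2)) (c (x 0) (x 2)) (c (x 4) (x 2)) (l (x 3)) (c (x 1) (x 3)) (c (x 0) (x 3)) (c (x 4) (x 3)) (c (x 2) (x 3))
    rw [hc (x 1) (x 0), hc (x 4) (x 2), hc (x 4) (x 3)]
  have h29 : ∑ x : Fin 5 → V, E (l (x 1)) (l (x 0)) (l (x 4)) (l (x 3)) (c (x 0) (x 1)) (c (x 1) (x 4)) (c (x 0) (x 4)) (c (x 1) (x 3)) (c (x 0) (x 3)) (c (x 3) (x 4)) (l (x 2)) (c (x 1) (x 2)) (c (x 0) (x 2)) (c (x 2) (x 4)) (c (x 2) (x 3)) = ∑ x, F x := by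
    rw [← sum_perm ![1, 0, 4, 3, 2] (by decide) F]
    refine Finset.sum_congr rfl fun x _ => ?_
    change _ = E (l (x 1)) (l (x 0)) (l (x 4)) (l (x 3)) (c (x 1) (x 0)) (c (x 1) (x 4)) (c (x 0) (x 4)) (c (x 1) (x 3)) (c (x 0) (x 3)) (c (x 4) (x 3)) (l (x 2)) (c (x 1) (x 2)) (c (x 0) (x 2)) (c (x 4) (x 2)) (c (x 3) (x 2))
    rw [hc (x 1) (x 0), hc (x 4) (x 3), hc (x 4) (x 2), hc (x 3) (x 2)]
  have h30 : ∑ x : Fin 5 → V, E (l (x 1)) (l (x 2)) (l (x 0)) (l (x 3)) (c (x 1) (x 2)) (c (x 0) (x 1)) (c (x 0) (x 2)) (c (x 1) (x 3)) (c (x 2) (x 3)) (c (x 0) (x 3)) (l (x 4)) (c (x 1) (x 4)) (c (x 2) (x 4)) (c (x 0) (x 4)) (c (x 3) (x 4)) = ∑ x, F x := by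
    rw [← sum_perm ![1, 2, 0, 3, 4] (by decide) F]
    refine Finset.sum_congr rfl fun x _ => ?_
    change _ = E (l (x 1)) (l (x 2)) (l (x 0)) (l (x 3)) (c (x 1) (x 2)) (c (x 1) (x 0)) (c (x 2) (x 0)) (c (x 1) (x 3)) (c (x 2) (x 3)) (c (x 0) (x 3)) (l (x 4)) (c (x 1) (x 4)) (c (x 2) (x 4)) (c (x 0) (x 4)) (c (x 3) (x 4))
    rw [hc (x 1) (x 0), hc (x 2) (x 0)]
  have h31 : ∑ x : Fin 5 → V, E (l (x 1)) (l (x 2)) (l (x 0)) (l (x 4)) (c (x 1) (x 2)) (c (x 0) (x 1)) (c (x 0) (x 2)) (c (x 1) (x 4)) (c (x 2) (x 4)) (c (x 0) (x 4)) (l (x 3)) (c (x 1) (x 3)) (c (x 2) (x 3)) (c (x 0) (x 3)) (c (x 3) (x 4)) = ∑ x, F x := by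
    rw [← sum_perm ![1, 2, 0, 4, 3] (by decide) F]
    refine Finset.sum_congr rfl fun x _ => ?_
    change _ = E (l (x 1)) (l (x 2)) (l (x 0)) (l (x 4)) (c (x 1) (x 2)) (c (x 1) (x 0)) (c (x 2) (x 0)) (c (x 1) (x 4)) (c (x 2) (x 4)) (c (x 0) (x 4)) (l (x 3)) (c (x 1) (x 3)) (c (x 2) (x 3)) (c (x 0) (x 3)) (c (x 4) (x 3))
    rw [hc (x 1) (x 0), hc (x 2) (x 0), hc (x 4) (x 3)]
  have h32 : ∑ x : Fin 5 → V, E (l (x 1)) (l (x 2)) (l (x 3)) (l (x 0)) (c (x 1) (x 2)) (c (x 1) (x 3)) (c (x 2) (x 3)) (c (x 0) (x 1)) (c (x 0) (x 2)) (c (x 0) (x 3)) (l (x 4)) (c (x 1) (x 4)) (c (x 2) (x 4)) (c (x 3) (x 4)) (c (x 0) (x 4)) = ∑ x, F x := by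
    rw [← sum_perm ![1, 2, 3, 0, 4] (by decide) F]
    refine Finset.sum_congr rfl fun x _ => ?_
    change _ = E (l (x 1)) (l (x 2)) (l (x 3)) (l (x 0)) (c (x 1) (x 2)) (c (x 1) (x 3)) (c (x 2) (x 3)) (c (x 1) (x 0)) (c (x 2) (x 0)) (c (x 3) (x 0)) (l (x 4)) (c (x 1) (x 4)) (c (x 2) (x 4)) (c (x 3) (x 4)) (c (x 0) (x 4))
    rw [hc (x 1) (x 0), hc (x 2) (x 0), hc (x 3) (x 0)]
  have h33 : ∑ x : Fin 5 → V, E (l (x 1)) (l (x 2)) (l (x 3)) (l (x 4)) (c (x 1) (x 2)) (c (x 1) (x 3)) (c (x 2) (x 3)) (c (x 1) (x 4)) (c (x 2) (x 4)) (c (x 3) (x 4)) (l (x 0)) (c (x 0) (x 1)) (c (x 0) (x 2)) (c (x 0) (x 3)) (c (x 0) (x 4)) = ∑ x, F x := by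
    rw [← sum_perm ![1, 2, 3, 4, 0] (by decide) F]
    refine Finset.sum_congr rfl fun x _ => ?_
    change _ = E (l (x 1)) (l (x 2)) (l (x 3)) (l (x 4)) (c (x 1) (x 2)) (c (x 1) (x 3)) (c (x 2) (x 3)) (c (x 1) (x 4)) (c (x 2) (x 4)) (c (x 3) (x 4)) (l (x 0)) (c (x 1) (x 0)) (c (x 2) (x 0)) (c (x 3) (x 0)) (c (x 4) (x 0))
    rw [hc (x 1) (x 0), hc (x 2) (x 0), hc (x 3) (x 0), hc (x 4) (x 0)]
  have h34 : ∑ x : Fin 5 → V, E (l (x 1)) (l (x 2)) (l (x 4)) (l (x 0)) (c (x 1) (x 2)) (c (x 1) (x 4)) (c (x 2) (x 4)) (c (x 0) (x 1)) (c (x 0) (x 2)) (c (x 0) (x 4)) (l (x 3)) (c (x 1) (x 3)) (c (x 2) (x 3)) (c (x 3) (x 4)) (c (x 0) (x 3)) = ∑ x, F x := by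
    rw [← sum_perm ![1, 2, 4, 0, 3] (by decide) F]
    refine Finset.sum_congr rfl fun x _ => ?_
    change _ = E (l (x 1)) (l (x 2)) (l (x 4)) (l (x 0)) (c (x 1) (x 2)) (c (x 1) (x 4)) (c (x 2) (x 4)) (c (x 1) (x 0)) (c (x 2) (x 0)) (c (x 4) (x 0)) (l (x 3)) (c (x 1) (x 3)) (c (x 2) (x 3)) (c (x 4) (x 3)) (c (x 0) (x 3))
    rw [hc (x 1) (x 0), hc (x 2) (x 0), hc (x 4) (x 0), hc (x 4) (x 3)]
  have h35 : ∑ x : Fin 5 → V, E (l (x 1)) (l (x 2)) (l (x 4)) (l (x 3)) (c (x 1) (x 2)) (c (x 1) (x 4)) (c (x 2) (x 4)) (c (x 1) (x 3)) (c (x 2) (x 3)) (c (x 3) (x 4)) (l (x 0)) (c (x 0) (x 1)) (c (x 0) (x 2)) (c (x 0) (x 4)) (c (x 0) (x 3)) = ∑ x, F x := by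
    rw [← sum_perm ![1, 2, 4, 3, 0] (by decide) F]
    refine Finset.sum_congr rfl fun x _ => ?_
    change _ = E (l (x 1)) (l (x 2)) (l (x 4)) (l (x 3)) (c (x 1) (x 2)) (c (x 1) (x 4)) (c (x 2) (x 4)) (c (x 1) (x 3)) (c (x 2) (x 3)) (c (x 4) (x 3)) (l (x 0)) (c (x 1) (x 0)) (c (x 2) (x 0)) (c (x 4) (x 0)) (c (x 3) (x 0))
    rw [hc (x 4) (x 3), hc (x 1) (x 0), hc (x 2) (x 0), hc (x 4) (x 0), hc (x 3) (x 0)]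
  have h36 : ∑ x : Fin 5 → V, E (l (x 1)) (l (x 3)) (l (x 0)) (l (x 2)) (c (x 1) (x 3)) (c (x 0) (x 1)) (c (x 0) (x 3)) (c (x 1) (x 2)) (c (x 2) (x 3)) (c (x 0) (x 2)) (l (x 4)) (c (x 1) (x 4)) (c (x 3) (x 4)) (c (x 0) (x 4)) (c (x 2) (x 4)) = ∑ x, F x := by
    rw [← sum_perm ![1, 3, 0, 2, 4] (by decide) F]
    refine Finset.sum_congr rfl fun x _ => ?_
    change _ = E (l (x 1)) (l (x 3)) (l (x 0)) (l (x 2)) (c (x 1) (x 3)) (c (x 1) (x 0)) (c (x 3) (x 0)) (c (x 1) (x 2)) (c (x 3) (x 2)) (c (x 0) (x 2)) (l (x 4)) (c (x 1) (x 4)) (c (x 3) (x 4)) (c (x 0) (x 4)) (c (x 2) (x 4))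
    rw [hc (x 1) (x 0), hc (x 3) (x 0), hc (x 3) (x 2)]
  have h37 : ∑ x : Fin 5 → V, E (l (x 1)) (l (x 3)) (l (x 0)) (l (x 4)) (c (x 1) (x 3)) (c (x 0) (x 1)) (c (x 0) (x 3)) (c (x 1) (x 4)) (c (x 3) (x 4)) (c (x 0) (x 4)) (l (x 2)) (c (x 1) (x 2)) (c (x 2) (x 3)) (c (x 0) (x 2)) (c (x 2) (x 4)) = ∑ x, F x := by
    rw [← sum_perm ![1, 3, 0, 4, 2] (by decide) F]
    refine Finset.sum_congr rfl fun x _ => ?_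
    change _ = E (l (x 1)) (l (x 3)) (l (x 0)) (l (x 4)) (c (x 1) (x 3)) (c (x 1) (x 0)) (c (x 3) (x 0)) (c (x 1) (x 4)) (c (x 3) (x 4)) (c (x 0) (x 4)) (l (x 2)) (c (x 1) (x 2)) (c (x 3) (x 2)) (c (x 0) (x 2)) (c (x 4) (x 2))
    rw [hc (x 1) (x 0), hc (x 3) (x 0), hc (x 3) (x 2), hc (x 4) (x 2)]
  have h38 : ∑ x : Fin 5 → V, E (l (x 1)) (l (x 3)) (l (x 2)) (l (x 0)) (c (x 1) (x 3)) (c (x 1) (x 2)) (c (x 2) (x 3)) (c (x 0) (x 1)) (c (x 0) (x 3)) (c (x 0) (x 2)) (l (x 4)) (c (x 1) (x 4)) (c (x 3) (x 4)) (c (x 2) (x 4)) (c (x 0) (x 4)) = ∑ x, F x := by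
    rw [← sum_perm ![1, 3, 2, 0, 4] (by decide) F]
    refine Finset.sum_congr rfl fun x _ => ?_
    change _ = E (l (x 1)) (l (x 3)) (l (x 2)) (l (x 0)) (c (x 1) (x 3)) (c (x 1) (x 2)) (c (x 3) (x 2)) (c (x 1) (x 0)) (c (x 3) (x 0)) (c (x 2) (x 0)) (l (x 4)) (c (x 1) (x 4)) (c (x 3) (x 4)) (c (x 2) (x 4)) (c (x 0) (x 4))
    rw [hc (x 3) (x 2), hc (x 1) (x 0), hc (x 3) (x 0), hc (x 2) (x 0)]
  have h39 : ∑ x : Fin 5 → V, E (l (x 1)) (l (x 3)) (l (x 2)) (l (x 4)) (c (x 1) (x 3)) (c (x 1) (x 2)) (c (x 2) (x 3)) (c (x 1) (x 4)) (c (x 3) (x 4)) (c (x 2) (x 4)) (l (x 0)) (c (x 0) (x 1)) (c (x 0) (x 3)) (c (x 0) (x 2)) (c (x 0) (x 4)) = ∑ x, F x := by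
    rw [← sum_perm ![1, 3, 2, 4, 0] (by decide) F]
    refine Finset.sum_congr rfl fun x _ => ?_
    change _ = E (l (x 1)) (l (x 3)) (l (x 2)) (l (x 4)) (c (x 1) (x 3)) (c (x 1) (x 2)) (c (x 3) (x 2)) (c (x 1) (x 4)) (c (x 3) (x 4)) (c (x 2) (x 4)) (l (x 0)) (c (x 1) (x 0)) (c (x 3) (x 0)) (c (x 2) (x 0)) (c (x 4) (x 0))
    rw [hc (x 3) (x 2), hc (x 1) (x 0), hc (x 3) (x 0), hc (x 2) (x 0), hc (x 4) (x 0)]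
  have h40 : ∑ x : Fin 5 → V, E (l (x 1)) (l (x 3)) (l (x 4)) (l (x 0)) (c (x 1) (x 3)) (c (x 1) (x 4)) (c (x 3) (x 4)) (c (x 0) (x 1)) (c (x 0) (x 3)) (c (x 0) (x 4)) (l (x 2)) (c (x 1) (x 2)) (c (x 2) (x 3)) (c (x 2) (x 4)) (c (x 0) (x 2)) = ∑ x, F x := by
    rw [← sum_perm ![1, 3, 4, 0, 2] (by decide) F]
    refine Finset.sum_congr rfl fun x _ => ?_
    change _ = E (l (x 1)) (l (x 3)) (l (x 4)) (l (x 0)) (c (x 1) (x 3)) (c (x 1) (x 4)) (c (x 3) (x 4)) (c (x 1) (x 0)) (c (x 3) (x 0)) (c (x 4) (x 0)) (l (x 2)) (c (x 1) (x 2)) (c (x 3) (x 2)) (c (x 4) (x 2)) (c (x 0) (x 2))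
    rw [hc (x 1) (x 0), hc (x 3) (x 0), hc (x 4) (x 0), hc (x 3) (x 2), hc (x 4) (x 2)]
  have h41 : ∑ x : Fin 5 → V, E (l (x 1)) (l (x 3)) (l (x 4)) (l (x 2)) (c (x 1) (x 3)) (c (x 1) (x 4)) (c (x 3) (x 4)) (c (x 1) (x 2)) (c (x 2) (x 3)) (c (x 2) (x 4)) (l (x 0)) (c (x 0) (x 1)) (c (x 0) (x 3)) (c (x 0) (x 4)) (c (x 0) (x 2)) = ∑ x, F x := by
    rw [← sum_perm ![1, 3, 4, 2, 0] (by decide) F]
    refine Finset.sum_congr rfl fun x _ => ?_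
    change _ = E (l (x 1)) (l (x 3)) (l (x 4)) (l (x 2)) (c (x 1) (x 3)) (c (x 1) (x 4)) (c (x 3) (x 4)) (c (x 1) (x 2)) (c (x 3) (x 2)) (c (x 4) (x 2)) (l (x 0)) (c (x 1) (x 0)) (c (x 3) (x 0)) (c (x 4) (x 0)) (c (x 2) (x 0))
    rw [hc (x 3) (x 2), hc (x 4) (x 2), hc (x 1) (x 0), hc (x 3) (x 0), hc (x 4) (x 0), hc (x 2) (x 0)]
  have h42 : ∑ x : Fin 5 → V, E (l (x 1)) (l (x 4)) (l (x 0)) (l (x 2)) (c (x 1) (x 4)) (c (x 0) (x 1)) (c (x 0) (x 4)) (c (x 1) (x 2)) (c (x 2) (x 4)) (c (x 0) (x 2)) (l (x 3)) (c (x 1) (x 3)) (c (x 3) (x 4)) (c (x 0) (x 3)) (c (x 2) (x 3)) = ∑ x, F x := by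
    rw [← sum_perm ![1, 4, 0, 2, 3] (by decide) F]
    refine Finset.sum_congr rfl fun x _ => ?_
    change _ = E (l (x 1)) (l (x 4)) (l (x 0)) (l (x 2)) (c (x 1) (x 4)) (c (x 1) (x 0)) (c (x 4) (x 0)) (c (x 1) (x 2)) (c (x 4) (x 2)) (c (x 0) (x 2)) (l (x 3)) (c (x 1) (x 3)) (c (x 4) (x 3)) (c (x 0) (x 3)) (c (x 2) (x 3))
    rw [hc (x 1) (x 0), hc (x 4) (x 0), hc (x 4) (x 2), hc (x 4) (x 3)]
  have h43 : ∑ x : Fin 5 → V, E (l (x 1)) (l (x 4)) (l (x 0)) (l (x 3)) (c (x 1) (x 4)) (c (x 0) (x 1)) (c (x 0) (x 4)) (c (x 1) (x 3)) (c (x 3) (x 4)) (c (x 0) (x 3)) (l (x 2)) (c (x 1) (x 2)) (c (x 2) (x 4)) (c (x 0) (x 2)) (c (x 2) (x 3)) = ∑ x, F x := by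
    rw [← sum_perm ![1, 4, 0, 3, 2] (by decide) F]
    refine Finset.sum_congr rfl fun x _ => ?_
    change _ = E (l (x 1)) (l (x 4)) (l (x 0)) (l (x 3)) (c (x 1) (x 4)) (c (x 1) (x 0)) (c (x 4) (x 0)) (c (x 1) (x 3)) (c (x 4) (x 3)) (c (x 0) (x 3)) (l (x 2)) (c (x 1) (x 2)) (c (x 4) (x 2)) (c (x 0) (x 2)) (c (x 3) (x 2))
    rw [hc (x 1) (x 0), hc (x 4) (x 0), hc (x 4) (x 3), hc (x 4) (x 2), hc (x 3) (x 2)]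
  have h44 : ∑ x : Fin 5 → V, E (l (x 1)) (l (x 4)) (l (x 2)) (l (x 0)) (c (x 1) (x 4)) (c (x 1) (x 2)) (c (x 2) (x 4)) (c (x 0) (x 1)) (c (x 0) (x 4)) (c (x 0) (x 2)) (l (x 3)) (c (x 1) (x 3)) (c (x 3) (x 4)) (c (x 2) (x 3)) (c (x 0) (x 3)) = ∑ x, F x := by
    rw [← sum_perm ![1, 4, 2, 0, 3] (by decide) F]
    refine Finset.sum_congr rfl fun x _ => ?_
    change _ = E (l (x 1)) (l (x 4)) (l (x 2)) (l (x 0)) (c (x 1) (x 4)) (c (x 1) (x 2)) (c (x 4) (x 2)) (c (x 1) (x 0)) (c (x 4) (x 0)) (c (x 2) (x 0)) (l (x 3)) (c (x 1) (x 3)) (c (x 4) (x 3)) (c (x 2) (x 3)) (c (x 0) (x 3))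
    rw [hc (x 4) (x 2), hc (x 1) (x 0), hc (x 4) (x 0), hc (x 2) (x 0), hc (x 4) (x 3)]
  have h45 : ∑ x : Fin 5 → V, E (l (x 1)) (l (x 4)) (l (x 2)) (l (x 3)) (c (x 1) (x 4)) (c (x 1) (x 2)) (c (x 2) (x 4)) (c (x 1) (x 3)) (c (x 3) (x 4)) (c (x 2) (x 3)) (l (x 0)) (c (x 0) (x 1)) (c (x 0) (x 4)) (c (x 0) (x 2)) (c (x 0) (x 3)) = ∑ x, F x := by
    rw [← sum_perm ![1, 4, 2, 3, 0] (by decide) F]
    refine Finset.sum_congr rfl fun x _ => ?_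
    change _ = E (l (x 1)) (l (x 4)) (l (x 2)) (l (x 3)) (c (x 1) (x 4)) (c (x 1) (x 2)) (c (x 4) (x 2)) (c (x 1) (x 3)) (c (x 4) (x 3)) (c (x 2) (x 3)) (l (x 0)) (c (x 1) (x 0)) (c (x 4) (x 0)) (c (x 2) (x 0)) (c (x 3) (x 0))
    rw [hc (x 4) (x 2), hc (x 4) (x 3), hc (x 1) (x 0), hc (x 4) (x 0), hc (x 2) (x 0), hc (x 3) (x 0)]
  have h46 : ∑ x : Fin 5 → V, E (l (x 1)) (l (x 4)) (l (x 3)) (l (x 0)) (c (x 1) (x 4)) (c (x 1) (x 3)) (c (x 3) (x 4)) (c (x 0) (x 1)) (c (x 0) (x 4)) (c (x 0) (x 3)) (l (x 2)) (c (x 1) (x 2)) (c (x 2) (x 4)) (c (x 2) (x 3)) (c (x 0) (x 2)) = ∑ x, F x := by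
    rw [← sum_perm ![1, 4, 3, 0, 2] (by decide) F]
    refine Finset.sum_congr rfl fun x _ => ?_
    change _ = E (l (x 1)) (l (x 4)) (l (x 3)) (l (x 0)) (c (x 1) (x 4)) (c (x 1) (x 3)) (c (x 4) (x 3)) (c (x 1) (x 0)) (c (x 4) (x 0)) (c (x 3) (x 0)) (l (x 2)) (c (x 1) (x 2)) (c (x 4) (x 2)) (c (x 3) (x 2)) (c (x 0) (x 2))
    rw [hc (x 4) (x 3), hc (x 1) (x 0), hc (x 4) (x 0), hc (x 3) (x 0), hc (x 4) (x 2), hc (x 3) (x 2)]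
  have h47 : ∑ x : Fin 5 → V, E (l (x 1)) (l (x 4)) (l (x 3)) (l (x 2)) (c (x 1) (x 4)) (c (x 1) (x 3)) (c (x 3) (x 4)) (c (x 1) (x 2)) (c (x 2) (x 4)) (c (x 2) (x 3)) (l (x 0)) (c (x 0) (x 1)) (c (x 0) (x 4)) (c (x 0) (x 3)) (c (x 0) (x 2)) = ∑ x, F x := by
    rw [← sum_perm ![1, 4, 3, 2, 0] (by decide) F]
    refine Finset.sum_congr rfl fun x _ => ?_
    change _ = E (l (x 1)) (l (x 4)) (l (x 3)) (l (x 2)) (c (x 1) (x 4)) (c (x 1) (x 3)) (c (x 4) (x 3)) (c (x 1) (x 2)) (c (x 4) (x 2)) (c (x 3) (x 2)) (l (x 0)) (c (x 1) (x 0)) (c (x 4) (x 0)) (c (x 3) (x 0)) (c (x 2) (x 0))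
    rw [hc (x 4) (x 3), hc (x 4) (x 2), hc (x 3) (x 2), hc (x 1) (x 0), hc (x 4) (x 0), hc (x 3) (x 0), hc (x 2) (x 0)]
  have h48 : ∑ x : Fin 5 → V, E (l (x 2)) (l (x 0)) (l (x 1)) (l (x 3)) (c (x 0) (x 2)) (c (x 1) (x 2)) (c (x 0) (x 1)) (c (x 2) (x 3)) (c (x 0) (x 3)) (c (x 1) (x 3)) (l (x 4)) (c (x 2) (x 4)) (c (x 0) (x 4)) (c (x 1) (x 4)) (c (x 3) (x 4)) = ∑ x, F x := by
    rw [← sum_perm ![2, 0, 1, 3, 4] (by decide) F]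
    refine Finset.sum_congr rfl fun x _ => ?_
    change _ = E (l (x 2)) (l (x 0)) (l (x 1)) (l (x 3)) (c (x 2) (x 0)) (c (x 2) (x 1)) (c (x 0) (x 1)) (c (x 2) (x 3)) (c (x 0) (x 3)) (c (x 1) (x 3)) (l (x 4)) (c (x 2) (x 4)) (c (x 0) (x 4)) (c (x 1) (x 4)) (c (x 3) (x 4))
    rw [hc (x 2) (x 0), hc (x 2) (x 1)]
  have h49 : ∑ x : Fin 5 → V, E (l (x 2)) (l (x 0)) (l (x 1)) (l (x 4)) (c (x 0) (x 2)) (c (x 1) (x 2)) (c (x 0) (x 1)) (c (x 2) (x 4)) (c (x 0) (x 4)) (c (x 1) (x 4)) (l (x 3)) (c (x 2) (x 3)) (c (x 0) (x 3)) (c (x 1) (x 3)) (c (x 3) (x 4)) = ∑ x, F x := by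
    rw [← sum_perm ![2, 0, 1, 4, 3] (by decide) F]
    refine Finset.sum_congr rfl fun x _ => ?_
    change _ = E (l (x 2)) (l (x 0)) (l (x 1)) (l (x 4)) (c (x 2) (x 0)) (c (x 2) (x 1)) (c (x 0) (x 1)) (c (x 2) (x 4)) (c (x 0) (x 4)) (c (x 1) (x 4)) (l (x 3)) (c (x 2) (x 3)) (c (x 0) (x 3)) (c (x 1) (x 3)) (c (x 4) (x 3))
    rw [hc (x 2) (x 0), hc (x 2) (x 1), hc (x 4) (x 3)]
  have h50 : ∑ x : Fin 5 → V, E (l (x 2)) (l (x 0)) (l (x 3)) (l (x 1)) (c (x 0) (x 2)) (c (x 2) (x 3)) (c (x 0) (x 3)) (c (x 1) (x 2)) (c (x 0) (x 1)) (c (x 1) (x 3)) (l (x 4)) (c (x 2) (x 4)) (c (x 0) (x 4)) (c (x 3) (x 4)) (c (x 1) (x 4)) = ∑ x, F x := by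
    rw [← sum_perm ![2, 0, 3, 1, 4] (by decide) F]
    refine Finset.sum_congr rfl fun x _ => ?_
    change _ = E (l (x 2)) (l (x 0)) (l (x 3)) (l (x 1)) (c (x 2) (x 0)) (c (x 2) (x 3)) (c (x 0) (x 3)) (c (x 2) (x 1)) (c (x 0) (x 1)) (c (x 3) (x 1)) (l (x 4)) (c (x 2) (x 4)) (c (x 0) (x 4)) (c (x 3) (x 4)) (c (x 1) (x 4))
    rw [hc (x 2) (x 0), hc (x 2) (x 1), hc (x 3) (x 1)]
  have h51 : ∑ x : Fin 5 → V, E (l (x 2)) (l (x 0)) (l (x 3)) (l (x 4)) (c (x 0) (x 2)) (c (x 2) (x 3)) (c (x 0) (x 3)) (c (x 2) (x 4)) (c (x 0) (x 4)) (c (x 3) (x 4)) (l (x 1)) (c (x 1) (x 2)) (c (x 0) (x 1)) (c (x 1) (x 3)) (c (x 1) (x 4)) = ∑ x, F x := by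
    rw [← sum_perm ![2, 0, 3, 4, 1] (by decide) F]
    refine Finset.sum_congr rfl fun x _ => ?_
    change _ = E (l (x 2)) (l (x 0)) (l (x 3)) (l (x 4)) (c (x 2) (x 0)) (c (x 2) (x 3)) (c (x 0) (x 3)) (c (x 2) (x 4)) (c (x 0) (x 4)) (c (x 3) (x 4)) (l (x 1)) (c (x 2) (x 1)) (c (x 0) (x 1)) (c (x 3) (x 1)) (c (x 4) (x 1))
    rw [hc (x 2) (x 0), hc (x 2) (x 1), hc (x 3) (x 1), hc (x 4) (x 1)]
  have h52 : ∑ x : Fin 5 → V, E (l (x 2)) (l (x 0)) (l (x 4)) (l (x 1)) (c (x 0) (x 2)) (c (x 2) (x 4)) (c (x 0) (x 4)) (c (x 1) (x 2)) (c (x 0) (x 1)) (c (x 1) (x 4)) (l (x 3)) (c (x 2) (x 3)) (c (x 0) (x 3)) (c (x 3) (x 4)) (c (x 1) (x 3)) = ∑ x, F x := by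
    rw [← sum_perm ![2, 0, 4, 1, 3] (by decide) F]
    refine Finset.sum_congr rfl fun x _ => ?_
    change _ = E (l (x 2)) (l (x 0)) (l (x 4)) (l (x 1)) (c (x 2) (x 0)) (c (x 2) (x 4)) (c (x 0) (x 4)) (c (x 2) (x 1)) (c (x 0) (x 1)) (c (x 4) (x 1)) (l (x 3)) (c (x 2) (x 3)) (c (x 0) (x 3)) (c (x 4) (x 3)) (c (x 1) (x 3))
    rw [hc (x 2) (x 0), hc (x 2) (x 1), hc (x 4) (x 1), hc (x 4) (x 3)]
  have h53 : ∑ x : Fin 5 → V, E (l (x 2)) (l (x 0)) (l (x 4)) (l (x 3)) (c (x 0) (x 2)) (c (x 2) (x 4)) (c (x 0) (x 4)) (c (x 2) (x 3)) (c (x 0) (x 3)) (c (x 3) (x 4)) (l (x 1)) (c (x 1) (x 2)) (c (x 0) (x 1)) (c (x 1) (x 4)) (c (x 1) (x 3)) = ∑ x, F x := by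
    rw [← sum_perm ![2, 0, 4, 3, 1] (by decide) F]
    refine Finset.sum_congr rfl fun x _ => ?_
    change _ = E (l (x 2)) (l (x 0)) (l (x 4)) (l (x 3)) (c (x 2) (x 0)) (c (x 2) (x 4)) (c (x 0) (x 4)) (c (x 2) (x 3)) (c (x 0) (x 3)) (c (x 4) (x 3)) (l (x 1)) (c (x 2) (x 1)) (c (x 0) (x 1)) (c (x 4) (x 1)) (c (x 3) (x 1))
    rw [hc (x 2) (x 0), hc (x 4) (x 3), hc (x 2) (x 1), hc (x 4) (x 1), hc (x 3) (x 1)]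
  have h54 : ∑ x : Fin 5 → V, E (l (x 2)) (l (x 1)) (l (x 0)) (l (x 3)) (c (x 1) (x 2)) (c (x 0) (x 2)) (c (x 0) (x 1)) (c (x 2) (x 3)) (c (x 1) (x 3)) (c (x 0) (x 3)) (l (x 4)) (c (x 2) (x 4)) (c (x 1) (x 4)) (c (x 0) (x 4)) (c (x 3) (x 4)) = ∑ x, F x := by
    rw [← sum_perm ![2, 1, 0, 3, 4] (by decide) F]
    refine Finset.sum_congr rfl fun x _ => ?_
    change _ = E (l (x 2)) (l (x 1)) (l (x 0)) (l (x 3)) (c (x 2) (x 1)) (c (x 2) (x 0)) (c (x 1) (x 0)) (c (x 2) (x 3)) (c (x 1) (x 3)) (c (x 0) (x 3)) (l (x 4)) (c (x 2) (x 4)) (c (x 1) (x 4)) (c (x 0) (x 4)) (c (x 3) (x 4))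
    rw [hc (x 2) (x 1), hc (x 2) (x 0), hc (x 1) (x 0)]
  have h55 : ∑ x : Fin 5 → V, E (l (x 2)) (l (x 1)) (l (x 0)) (l (x 4)) (c (x 1) (x 2)) (c (x 0) (x 2)) (c (x 0) (x 1)) (c (x 2) (x 4)) (c (x 1) (x 4)) (c (x 0) (x 4)) (l (x 3)) (c (x 2) (x 3)) (c (x 1) (x 3)) (c (x 0) (x 3)) (c (x 3) (x 4)) = ∑ x, F x := by
    rw [← sum_perm ![2, 1, 0, 4, 3] (by decide) F]
    refine Finset.sum_congr rfl fun x _ => ?_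
    change _ = E (l (x 2)) (l (x 1)) (l (x 0)) (l (x 4)) (c (x 2) (x 1)) (c (x 2) (x 0)) (c (x 1) (x 0)) (c (x 2) (x 4)) (c (x 1) (x 4)) (c (x 0) (x 4)) (l (x 3)) (c (x 2) (x 3)) (c (x 1) (x 3)) (c (x 0) (x 3)) (c (x 4) (x 3))
    rw [hc (x 2) (x 1), hc (x 2) (x 0), hc (x 1) (x 0), hc (x 4) (x 3)]
  have h56 : ∑ x : Fin 5 → V, E (l (x 2)) (l (x 1)) (l (x 3)) (l (x 0)) (c (x 1) (x 2)) (c (x 2) (x 3)) (c (x 1) (x 3)) (c (x 0) (x 2)) (c (x 0) (x 1)) (c (x 0) (x 3)) (l (x 4)) (c (x 2) (x 4)) (c (x 1) (x 4)) (c (x 3) (x 4)) (c (x 0) (x 4)) = ∑ x, F x := by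
    rw [← sum_perm ![2, 1, 3, 0, 4] (by decide) F]
    refine Finset.sum_congr rfl fun x _ => ?_
    change _ = E (l (x 2)) (l (x 1)) (l (x 3)) (l (x 0)) (c (x 2) (x 1)) (c (x 2) (x 3)) (c (x 1) (x 3)) (c (x 2) (x 0)) (c (x 1) (x 0)) (c (x 3) (x 0)) (l (x 4)) (c (x 2) (x 4)) (c (x 1) (x 4)) (c (x 3) (x 4)) (c (x 0) (x 4))
    rw [hc (x 2) (x 1), hc (x 2) (x 0), hc (x 1) (x 0), hc (x 3) (x 0)]
  have h57 : ∑ x : Fin 5 → V, E (l (x 2)) (l (x 1)) (l (x 3)) (l (x 4)) (c (x 1) (x 2)) (c (x 2) (x 3)) (c (x 1) (x 3)) (c (x 2) (x 4)) (c (x 1) (x 4)) (c (x 3) (x 4)) (l (x 0)) (c (x 0) (x 2)) (c (x 0) (x 1)) (c (x 0) (x 3)) (c (x 0) (x 4)) = ∑ x, F x := by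
    rw [← sum_perm ![2, 1, 3, 4, 0] (by decide) F]
    refine Finset.sum_congr rfl fun x _ => ?_
    change _ = E (l (x 2)) (l (x 1)) (l (x 3)) (l (x 4)) (c (x 2) (x 1)) (c (x 2) (x 3)) (c (x 1) (x 3)) (c (x 2) (x 4)) (c (x 1) (x 4)) (c (x 3) (x 4)) (l (x 0)) (c (x 2) (x 0)) (c (x 1) (x 0)) (c (x 3) (x 0)) (c (x 4) (x 0))
    rw [hc (x 2) (x 1), hc (x 2) (x 0), hc (x 1) (x 0), hc (x 3) (x 0), hc (x 4) (x 0)]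
  have h58 : ∑ x : Fin 5 → V, E (l (x 2)) (l (x 1)) (l (x 4)) (l (x 0)) (c (x 1) (x 2)) (c (x 2) (x 4)) (c (x 1) (x 4)) (c (x 0) (x 2)) (c (x 0) (x 1)) (c (x 0) (x 4)) (l (x 3)) (c (x 2) (x 3)) (c (x 1) (x 3)) (c (x 3) (x 4)) (c (x 0) (x 3)) = ∑ x, F x := by
    rw [← sum_perm ![2, 1, 4, 0, 3] (by decide) F]
    refine Finset.sum_congr rfl fun x _ => ?_
    change _ = E (l (x 2)) (l (x 1)) (l (x 4)) (l (x 0)) (c (x 2) (x 1)) (c (x 2) (x 4)) (c (x 1) (x 4)) (c (x 2) (x 0)) (c (x 1) (x 0)) (c (x 4) (x 0)) (l (x 3)) (c (x 2) (x 3)) (c (x 1) (x 3)) (c (x 4) (x 3)) (c (x 0) (x 3))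
    rw [hc (x 2) (x 1), hc (x 2) (x 0), hc (x 1) (x 0), hc (x 4) (x 0), hc (x 4) (x 3)]
  have h59 : ∑ x : Fin 5 → V, E (l (x 2)) (l (x 1)) (l (x 4)) (l (x 3)) (c (x 1) (x 2)) (c (x 2) (x 4)) (c (x 1) (x 4)) (c (x 2) (x 3)) (c (x 1) (x 3)) (c (x 3) (x 4)) (l (x 0)) (c (x 0) (x 2)) (c (x 0) (x 1)) (c (x 0) (x 4)) (c (x 0) (x 3)) = ∑ x, F x := by
    rw [← sum_perm ![2, 1, 4, 3, 0] (by decide) F]
    refine Finset.sum_congr rfl fun x _ => ?_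
    change _ = E (l (x 2)) (l (x 1)) (l (x 4)) (l (x 3)) (c (x 2) (x 1)) (c (x 2) (x 4)) (c (x 1) (x 4)) (c (x 2) (x 3)) (c (x 1) (x 3)) (c (x 4) (x 3)) (l (x 0)) (c (x 2) (x 0)) (c (x 1) (x 0)) (c (x 4) (x 0)) (c (x 3) (x 0))
    rw [hc (x 2) (x 1), hc (x 4) (x 3), hc (x 2) (x 0), hc (x 1) (x 0), hc (x 4) (x 0), hc (x 3) (x 0)]
  have h60 : ∑ x : Fin 5 → V, E (l (x 2)) (l (x 3)) (l (x 0)) (l (x 1)) (c (x 2) (x 3)) (c (x 0) (x 2)) (c (x 0) (x 3)) (c (x 1) (x 2)) (c (x 1) (x 3)) (c (x 0) (x 1)) (l (x 4)) (c (x 2) (x 4)) (c (x 3) (x 4)) (c (x 0) (x 4)) (c (x 1) (x 4)) = ∑ x, F x := by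
    rw [← sum_perm ![2, 3, 0, 1, 4] (by decide) F]
    refine Finset.sum_congr rfl fun x _ => ?_
    change _ = E (l (x 2)) (l (x 3)) (l (x 0)) (l (x 1)) (c (x 2) (x 3)) (c (x 2) (x 0)) (c (x 3) (x 0)) (c (x 2) (x 1)) (c (x 3) (x 1)) (c (x 0) (x 1)) (l (x 4)) (c (x 2) (x 4)) (c (x 3) (x 4)) (c (x 0) (x 4)) (c (x 1) (x 4))
    rw [hc (x 2) (x 0), hc (x 3) (x 0), hc (x 2) (x 1), hc (x 3) (x 1)]
  have h61 : ∑ x : Fin 5 → V, E (l (x 2)) (l (x 3)) (l (x 0)) (l (x 4)) (c (x 2) (x 3)) (c (x 0) (x 2)) (c (x 0) (x 3)) (c (x 2) (x 4)) (c (x 3) (x 4)) (c (x 0) (x 4)) (l (x 1)) (c (x 1) (x 2)) (c (x 1) (x 3)) (c (x 0) (x 1)) (c (x 1) (x 4)) = ∑ x, F x := by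
    rw [← sum_perm ![2, 3, 0, 4, 1] (by decide) F]
    refine Finset.sum_congr rfl fun x _ => ?_
    change _ = E (l (x 2)) (l (x 3)) (l (x 0)) (l (x 4)) (c (x 2) (x 3)) (c (x 2) (x 0)) (c (x 3) (x 0)) (c (x 2) (x 4)) (c (x 3) (x 4)) (c (x 0) (x 4)) (l (x 1)) (c (x 2) (x 1)) (c (x 3) (x 1)) (c (x 0) (x 1)) (c (x 4) (x 1))
    rw [hc (x 2) (x 0), hc (x 3) (x 0), hc (x 2) (x 1), hc (x 3) (x 1), hc (x 4) (x 1)]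
  have h62 : ∑ x : Fin 5 → V, E (l (x 2)) (l (x 3)) (l (x 1)) (l (x 0)) (c (x 2) (x 3)) (c (x 1) (x 2)) (c (x 1) (x 3)) (c (x 0) (x 2)) (c (x 0) (x 3)) (c (x 0) (x 1)) (l (x 4)) (c (x 2) (x 4)) (c (x 3) (x 4)) (c (x 1) (x 4)) (c (x 0) (x 4)) = ∑ x, F x := by
    rw [← sum_perm ![2, 3, 1, 0, 4] (by decide) F]
    refine Finset.sum_congr rfl fun x _ => ?_
    change _ = E (l (x 2)) (l (x 3)) (l (x 1)) (l (x 0)) (c (x 2) (x 3)) (c (x 2) (x 1)) (c (x 3) (x 1)) (c (x 2) (x 0)) (c (x 3) (x 0)) (c (x 1) (x 0)) (l (x 4)) (c (x 2) (x 4)) (c (x 3) (x 4)) (c (x 1) (x 4)) (c (x 0) (x 4))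
    rw [hc (x 2) (x 1), hc (x 3) (x 1), hc (x 2) (x 0), hc (x 3) (x 0), hc (x 1) (x 0)]
  have h63 : ∑ x : Fin 5 → V, E (l (x 2)) (l (x 3)) (l (x 1)) (l (x 4)) (c (x 2) (x 3)) (c (x 1) (x 2)) (c (x 1) (x 3)) (c (x 2) (x 4)) (c (x 3) (x 4)) (c (x 1) (x 4)) (l (x 0)) (c (x 0) (x 2)) (c (x 0) (x 3)) (c (x 0) (x 1)) (c (x 0) (x 4)) = ∑ x, F x := by
    rw [← sum_perm ![2, 3, 1, 4, 0] (by decide) F]
    refine Finset.sum_congr rfl fun x _ => ?_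
    change _ = E (l (x 2)) (l (x 3)) (l (x 1)) (l (x 4)) (c (x 2) (x 3)) (c (x 2) (x 1)) (c (x 3) (x 1)) (c (x 2) (x 4)) (c (x 3) (x 4)) (c (x 1) (x 4)) (l (x 0)) (c (x 2) (x 0)) (c (x 3) (x 0)) (c (x 1) (x 0)) (c (x 4) (x 0))
    rw [hc (x 2) (x 1), hc (x 3) (x 1), hc (x 2) (x 0), hc (x 3) (x 0), hc (x 1) (x 0), hc (x 4) (x 0)]
  have h64 : ∑ x : Fin 5 → V, E (l (x 2)) (l (x 3)) (l (x 4)) (l (x 0)) (c (x 2) (x 3)) (c (x 2) (x 4)) (c (x 3) (x 4)) (c (x 0) (x 2)) (c (x 0) (x 3)) (c (x 0) (x 4)) (l (x 1)) (c (x 1) (x 2)) (c (x 1) (x 3)) (c (x 1) (x 4)) (c (x 0) (x 1)) = ∑ x, F x := by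
    rw [← sum_perm ![2, 3, 4, 0, 1] (by decide) F]
    refine Finset.sum_congr rfl fun x _ => ?_
    change _ = E (l (x 2)) (l (x 3)) (l (x 4)) (l (x 0)) (c (x 2) (x 3)) (c (x 2) (x 4)) (c (x 3) (x 4)) (c (x 2) (x 0)) (c (x 3) (x 0)) (c (x 4) (x 0)) (l (x 1)) (c (x 2) (x 1)) (c (x 3) (x 1)) (c (x 4) (x 1)) (c (x 0) (x 1))
    rw [hc (x 2) (x 0), hc (x 3) (x 0), hc (x 4) (x 0), hc (x 2) (x 1), hc (x 3) (x 1), hc (x 4) (x 1)]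
  have h65 : ∑ x : Fin 5 → V, E (l (x 2)) (l (x 3)) (l (x 4)) (l (x 1)) (c (x 2) (x 3)) (c (x 2) (x 4)) (c (x 3) (x 4)) (c (x 1) (x 2)) (c (x 1) (x 3)) (c (x 1) (x 4)) (l (x 0)) (c (x 0) (x 2)) (c (x 0) (x 3)) (c (x 0) (x 4)) (c (x 0) (x 1)) = ∑ x, F x := by
    rw [← sum_perm ![2, 3, 4, 1, 0] (by decide) F]
    refine Finset.sum_congr rfl fun x _ => ?_
    change _ = E (l (x 2)) (l (x 3)) (l (x 4)) (l (x 1)) (c (x 2) (x 3)) (c (x 2) (x 4)) (c (x 3) (x 4)) (c (x 2) (x 1)) (c (x 3) (x 1)) (c (x 4) (x 1)) (l (x 0)) (c (x 2) (x 0)) (c (x 3) (x 0)) (c (x 4) (x 0)) (c (x 1) (x 0))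
    rw [hc (x 2) (x 1), hc (x 3) (x 1), hc (x 4) (x 1), hc (x 2) (x 0), hc (x 3) (x 0), hc (x 4) (x 0), hc (x 1) (x 0)]
  have h66 : ∑ x : Fin 5 → V, E (l (x 2)) (l (x 4)) (l (x 0)) (l (x 1)) (c (x 2) (x 4)) (c (x 0) (x 2)) (c (x 0) (x 4)) (c (x 1) (x 2)) (c (x 1) (x 4)) (c (x 0) (x 1)) (l (x 3)) (c (x 2) (x 3)) (c (x 3) (x 4)) (c (x 0) (x 3)) (c (x 1) (x 3)) = ∑ x, F x := by
    rw [← sum_perm ![2, 4, 0, 1, 3] (by decide) F]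
    refine Finset.sum_congr rfl fun x _ => ?_
    change _ = E (l (x 2)) (l (x 4)) (l (x 0)) (l (x 1)) (c (x 2) (x 4)) (c (x 2) (x 0)) (c (x 4) (x 0)) (c (x 2) (x 1)) (c (x 4) (x 1)) (c (x 0) (x 1)) (l (x 3)) (c (x 2) (x 3)) (c (x 4) (x 3)) (c (x 0) (x 3)) (c (x 1) (x 3))
    rw [hc (x 2) (x 0), hc (x 4) (x 0), hc (x 2) (x 1), hc (x 4) (x 1), hc (x 4) (x 3)]
  have h67 : ∑ x : Fin 5 → V, E (l (x 2)) (l (x 4)) (l (x 0)) (l (x 3)) (c (x 2) (x 4)) (c (x 0) (x 2)) (c (x 0) (x 4)) (c (x 2) (x 3)) (c (x 3) (x 4)) (c (x 0) (x 3)) (l (x 1)) (c (x 1) (x 2)) (c (x 1) (x 4)) (c (x 0) (x 1)) (c (x 1) (x 3)) = ∑ x, F x := by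
    rw [← sum_perm ![2, 4, 0, 3, 1] (by decide) F]
    refine Finset.sum_congr rfl fun x _ => ?_
    change _ = E (l (x 2)) (l (x 4)) (l (x 0)) (l (x 3)) (c (x 2) (x 4)) (c (x 2) (x 0)) (c (x 4) (x 0)) (c (x 2) (x 3)) (c (x 4) (x 3)) (c (x 0) (x 3)) (l (x 1)) (c (x 2) (x 1)) (c (x 4) (x 1)) (c (x 0) (x 1)) (c (x 3) (x 1))
    rw [hc (x 2) (x 0), hc (x 4) (x 0), hc (x 4) (x 3), hc (x 2) (x 1), hc (x 4) (x 1), hc (x 3) (x 1)]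
  have h68 : ∑ x : Fin 5 → V, E (l (x 2)) (l (x 4)) (l (x 1)) (l (x 0)) (c (x 2) (x 4)) (c (x 1) (x 2)) (c (x 1) (x 4)) (c (x 0) (x 2)) (c (x 0) (x 4)) (c (x 0) (x 1)) (l (x 3)) (c (x 2) (x 3)) (c (x 3) (x 4)) (c (x 1) (x 3)) (c (x 0) (x 3)) = ∑ x, F x := by
    rw [← sum_perm ![2, 4, 1, 0, 3] (by decide) F]
    refine Finset.sum_congr rfl fun x _ => ?_
    change _ = E (l (x 2)) (l (x 4)) (l (x 1)) (l (x 0)) (c (x 2) (x 4)) (c (x 2) (x 1)) (c (x 4) (x 1)) (c (x 2) (x 0)) (c (x 4) (x 0)) (c (x 1) (x 0)) (l (x 3)) (c (x 2) (x 3)) (c (x 4) (x 3)) (c (x 1) (x 3)) (c (x 0) (x 3))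
    rw [hc (x 2) (x 1), hc (x 4) (x 1), hc (x 2) (x 0), hc (x 4) (x 0), hc (x 1) (x 0), hc (x 4) (x 3)]
  have h69 : ∑ x : Fin 5 → V, E (l (x 2)) (l (x 4)) (l (x 1)) (l (x 3)) (c (x 2) (x 4)) (c (x 1) (x 2)) (c (x 1) (x 4)) (c (x 2) (x 3)) (c (x 3) (x 4)) (c (x 1) (x 3)) (l (x 0)) (c (x 0) (x 2)) (c (x 0) (x 4)) (c (x 0) (x 1)) (c (x 0) (x 3)) = ∑ x, F x := by
    rw [← sum_perm ![2, 4, 1, 3, 0] (by decide) F]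
    refine Finset.sum_congr rfl fun x _ => ?_
    change _ = E (l (x 2)) (l (x 4)) (l (x 1)) (l (x 3)) (c (x 2) (x 4)) (c (x 2) (x 1)) (c (x 4) (x 1)) (c (x 2) (x 3)) (c (x 4) (x 3)) (c (x 1) (x 3)) (l (x 0)) (c (x 2) (x 0)) (c (x 4) (x 0)) (c (x 1) (x 0)) (c (x 3) (x 0))
    rw [hc (x 2) (x 1), hc (x 4) (x 1), hc (x 4) (x 3), hc (x 2) (x 0), hc (x 4) (x 0), hc (x 1) (x 0), hc (x 3) (x 0)]
  have h70 : ∑ x : Fin 5 → V, E (l (x 2)) (l (x 4)) (l (x 3)) (l (x 0)) (c (x 2) (x 4)) (c (x 2) (x 3)) (c (x 3) (x 4)) (c (x 0) (x 2)) (c (x 0) (x 4)) (c (x 0) (x 3)) (l (x 1)) (c (x 1) (x 2)) (c (x 1) (x 4)) (c (x 1) (x 3)) (c (x 0) (x 1)) = ∑ x, F x := by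
    rw [← sum_perm ![2, 4, 3, 0, 1] (by decide) F]
    refine Finset.sum_congr rfl fun x _ => ?_
    change _ = E (l (x 2)) (l (x 4)) (l (x 3)) (l (x 0)) (c (x 2) (x 4)) (c (x 2) (x 3)) (c (x 4) (x 3)) (c (x 2) (x 0)) (c (x 4) (x 0)) (c (x 3) (x 0)) (l (x 1)) (c (x 2) (x 1)) (c (x 4) (x 1)) (c (x 3) (x 1)) (c (x 0) (x 1))
    rw [hc (x 4) (x 3), hc (x 2) (x 0), hc (x 4) (x 0), hc (x 3) (x 0), hc (x 2) (x 1), hc (x 4) (x 1), hc (x 3) (x 1)]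
  have h71 : ∑ x : Fin 5 → V, E (l (x 2)) (l (x 4)) (l (x 3)) (l (x 1)) (c (x 2) (x 4)) (c (x 2) (x 3)) (c (x 3) (x 4)) (c (x 1) (x 2)) (c (x 1) (x 4)) (c (x 1) (x 3)) (l (x 0)) (c (x 0) (x 2)) (c (x 0) (x 4)) (c (x 0) (x 3)) (c (x 0) (x 1)) = ∑ x, F x := by
    rw [← sum_perm ![2, 4, 3, 1, 0] (by decide) F]
    refine Finset.sum_congr rfl fun x _ => ?_
    change _ = E (l (x 2)) (l (x 4)) (l (x 3)) (l (x 1)) (c (x 2) (x 4)) (c (x 2) (x 3)) (c (x 4) (x 3)) (c (x 2) (x 1)) (c (x 4) (x 1)) (c (x 3) (x 1)) (l (x 0)) (c (x 2) (x 0)) (c (x 4) (x 0)) (c (x 3) (x 0)) (c (x 1) (x 0))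
    rw [hc (x 4) (x 3), hc (x 2) (x 1), hc (x 4) (x 1), hc (x 3) (x 1), hc (x 2) (x 0), hc (x 4) (x 0), hc (x 3) (x 0), hc (x 1) (x 0)]
  have h72 : ∑ x : Fin 5 → V, E (l (x 3)) (l (x 0)) (l (x 1)) (l (x 2)) (c (x 0) (x 3)) (c (x 1) (x 3)) (c (x 0) (x 1)) (c (x 2) (x 3)) (c (x 0) (x 2)) (c (x 1) (x 2)) (l (x 4)) (c (x 3) (x 4)) (c (x 0) (x 4)) (c (x 1) (x 4)) (c (x 2) (x 4)) = ∑ x, F x := by
    rw [← sum_perm ![3, 0, 1, 2, 4] (by decide) F]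
    refine Finset.sum_congr rfl fun x _ => ?_
    change _ = E (l (x 3)) (l (x 0)) (l (x 1)) (l (x 2)) (c (x 3) (x 0)) (c (x 3) (x 1)) (c (x 0) (x 1)) (c (x 3) (x 2)) (c (x 0) (x 2)) (c (x 1) (x 2)) (l (x 4)) (c (x 3) (x 4)) (c (x 0) (x 4)) (c (x 1) (x 4)) (c (x 2) (x 4))
    rw [hc (x 3) (x 0), hc (x 3) (x 1), hc (x 3) (x 2)]
  have h73 : ∑ x : Fin 5 → V, E (l (x 3)) (l (x 0)) (l (x 1)) (l (x 4)) (c (x 0) (x 3)) (c (x 1) (x 3)) (c (x 0) (x 1)) (c (x 3) (x 4)) (c (x 0) (x 4)) (c (x 1) (x 4)) (l (x 2)) (c (x 2) (x 3)) (c (x 0) (x 2)) (c (x 1) (x 2)) (c (x 2) (x 4)) = ∑ x, F x := by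
    rw [← sum_perm ![3, 0, 1, 4, 2] (by decide) F]
    refine Finset.sum_congr rfl fun x _ => ?_
    change _ = E (l (x 3)) (l (x 0)) (l (x 1)) (l (x 4)) (c (x 3) (x 0)) (c (x 3) (x 1)) (c (x 0) (x 1)) (c (x 3) (x 4)) (c (x 0) (x 4)) (c (x 1) (x 4)) (l (x 2)) (c (x 3) (x 2)) (c (x 0) (x 2)) (c (x 1) (x 2)) (c (x 4) (x 2))
    rw [hc (x 3) (x 0), hc (x 3) (x 1), hc (x 3) (x 2), hc (x 4) (x 2)]
  have h74 : ∑ x : Fin 5 → V, E (l (x 3)) (l (x 0)) (l (x 2)) (l (x 1)) (c (x 0) (x 3)) (c (x 2) (x 3)) (c (x 0) (x 2)) (c (x 1) (x 3)) (c (x 0) (x 1)) (c (x 1) (x 2)) (l (x 4)) (c (x 3) (x 4)) (c (x 0) (x 4)) (c (x 2) (x 4)) (c (x 1) (x 4)) = ∑ x, F x := by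
    rw [← sum_perm ![3, 0, 2, 1, 4] (by decide) F]
    refine Finset.sum_congr rfl fun x _ => ?_
    change _ = E (l (x 3)) (l (x 0)) (l (x 2)) (l (x 1)) (c (x 3) (x 0)) (c (x 3) (x 2)) (c (x 0) (x 2)) (c (x 3) (x 1)) (c (x 0) (x 1)) (c (x 2) (x 1)) (l (x 4)) (c (x 3) (x 4)) (c (x 0) (x 4)) (c (x 2) (x 4)) (c (x 1) (x 4))
    rw [hc (x 3) (x 0), hc (x 3) (x 2), hc (x 3) (x 1), hc (x 2) (x 1)]
  have h75 : ∑ x : Fin 5 → V, E (l (x 3)) (l (x 0)) (l (x 2)) (l (x 4)) (c (x 0) (x 3)) (c (x 2) (x 3)) (c (x 0) (x 2)) (c (x 3) (x 4)) (c (x 0) (x 4)) (c (x 2) (x 4)) (l (x 1)) (c (x 1) (x 3)) (c (x 0) (x 1)) (c (x 1) (x 2)) (c (x 1) (x 4)) = ∑ x, F x := by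
    rw [← sum_perm ![3, 0, 2, 4, 1] (by decide) F]
    refine Finset.sum_congr rfl fun x _ => ?_
    change _ = E (l (x 3)) (l (x 0)) (l (x 2)) (l (x 4)) (c (x 3) (x 0)) (c (x 3) (x 2)) (c (x 0) (x 2)) (c (x 3) (x 4)) (c (x 0) (x 4)) (c (x 2) (x 4)) (l (x 1)) (c (x 3) (x 1)) (c (x 0) (x 1)) (c (x 2) (x 1)) (c (x 4) (x 1))
    rw [hc (x 3) (x 0), hc (x 3) (x 2), hc (x 3) (x 1), hc (x 2) (x 1), hc (x 4) (x 1)]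
  have h76 : ∑ x : Fin 5 → V, E (l (x 3)) (l (x 0)) (l (x 4)) (l (x 1)) (c (x 0) (x 3)) (c (x 3) (x 4)) (c (x 0) (x 4)) (c (x 1) (x 3)) (c (x 0) (x 1)) (c (x 1) (x 4)) (l (x 2)) (c (x 2) (x 3)) (c (x 0) (x 2)) (c (x 2) (x 4)) (c (x 1) (x 2)) = ∑ x, F x := by
    rw [← sum_perm ![3, 0, 4, 1, 2] (by decide) F]
    refine Finset.sum_congr rfl fun x _ => ?_
    change _ = E (l (x 3)) (l (x 0)) (l (x 4)) (l (x 1)) (c (x 3) (x 0)) (c (x 3) (x 4)) (c (x 0) (x 4)) (c (x 3) (x 1)) (c (x 0) (x 1)) (c (x 4) (x 1)) (l (x 2)) (c (x 3) (x 2)) (c (x 0) (x 2)) (c (x 4) (x 2)) (c (x 1) (x 2))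
    rw [hc (x 3) (x 0), hc (x 3) (x 1), hc (x 4) (x 1), hc (x 3) (x 2), hc (x 4) (x 2)]
  have h77 : ∑ x : Fin 5 → V, E (l (x 3)) (l (x 0)) (l (x 4)) (l (x 2)) (c (x 0) (x 3)) (c (x 3) (x 4)) (c (x 0) (x 4)) (c (x 2) (x 3)) (c (x 0) (x 2)) (c (x 2) (x 4)) (l (x 1)) (c (x 1) (x 3)) (c (x 0) (x 1)) (c (x 1) (x 4)) (c (x 1) (x 2)) = ∑ x, F x := by
    rw [← sum_perm ![3, 0, 4, 2, 1] (by decide) F]
    refine Finset.sum_congr rfl fun x _ => ?_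
    change _ = E (l (x 3)) (l (x 0)) (l (x 4)) (l (x 2)) (c (x 3) (x 0)) (c (x 3) (x 4)) (c (x 0) (x 4)) (c (x 3) (x 2)) (c (x 0) (x 2)) (c (x 4) (x 2)) (l (x 1)) (c (x 3) (x 1)) (c (x 0) (x 1)) (c (x 4) (x 1)) (c (x 2) (x 1))
    rw [hc (x 3) (x 0), hc (x 3) (x 2), hc (x 4) (x 2), hc (x 3) (x 1), hc (x 4) (x 1), hc (x 2) (x 1)]
  have h78 : ∑ x : Fin 5 → V, E (l (x 3)) (l (x 1)) (l (x 0)) (l (x 2)) (c (x 1) (x 3)) (c (x 0) (x 3)) (c (x 0) (x 1)) (c (x 2) (x 3)) (c (x 1) (x 2)) (c (x 0) (x 2)) (l (x 4)) (c (x 3) (x 4)) (c (x 1) (x 4)) (c (x 0) (x 4)) (c (x 2) (x 4)) = ∑ x, F x := by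
    rw [← sum_perm ![3, 1, 0, 2, 4] (by decide) F]
    refine Finset.sum_congr rfl fun x _ => ?_
    change _ = E (l (x 3)) (l (x 1)) (l (x 0)) (l (x 2)) (c (x 3) (x 1)) (c (x 3) (x 0)) (c (x 1) (x 0)) (c (x 3) (x 2)) (c (x 1) (x 2)) (c (x 0) (x 2)) (l (x 4)) (c (x 3) (x 4)) (c (x 1) (x 4)) (c (x 0) (x 4)) (c (x 2) (x 4))
    rw [hc (x 3) (x 1), hc (x 3) (x 0), hc (x 1) (x 0), hc (x 3) (x 2)]
  have h79 : ∑ x : Fin 5 → V, E (l (x 3)) (l (x 1)) (l (x 0)) (l (x 4)) (c (x 1) (x 3)) (c (x 0) (x 3)) (c (x 0) (x 1)) (c (x 3) (x 4)) (c (x 1) (x 4)) (c (x 0) (x 4)) (l (x 2)) (c (x 2) (x 3)) (c (x 1) (x 2)) (c (x 0) (x 2)) (c (x 2) (x 4)) = ∑ x, F x := by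
    rw [← sum_perm ![3, 1, 0, 4, 2] (by decide) F]
    refine Finset.sum_congr rfl fun x _ => ?_
    change _ = E (l (x 3)) (l (x 1)) (l (x 0)) (l (x 4)) (c (x 3) (x 1)) (c (x 3) (x 0)) (c (x 1) (x 0)) (c (x 3) (x 4)) (c (x 1) (x 4)) (c (x 0) (x 4)) (l (x 2)) (c (x 3) (x 2)) (c (x 1) (x 2)) (c (x 0) (x 2)) (c (x 4) (x 2))
    rw [hc (x 3) (x 1), hc (x 3) (x 0), hc (x 1) (x 0), hc (x 3) (x 2), hc (x 4) (x 2)]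
  have h80 : ∑ x : Fin 5 → V, E (l (x 3)) (l (x 1)) (l (x 2)) (l (x 0)) (c (x 1) (x 3)) (c (x 2) (x 3)) (c (x 1) (x 2)) (c (x 0) (x 3)) (c (x 0) (x 1)) (c (x 0) (x 2)) (l (x 4)) (c (x 3) (x 4)) (c (x 1) (x 4)) (c (x 2) (x 4)) (c (x 0) (x 4)) = ∑ x, F x := by
    rw [← sum_perm ![3, 1, 2, 0, 4] (by decide) F]
    refine Finset.sum_congr rfl fun x _ => ?_
    change _ = E (l (x 3)) (l (x 1)) (l (x 2)) (l (x 0)) (c (x 3) (x 1)) (c (x 3) (x 2)) (c (x 1) (x 2)) (c (x 3) (x 0)) (c (x 1) (x 0)) (c (x 2) (x 0)) (l (x 4)) (c (x 3) (x 4)) (c (x 1) (x 4)) (c (x 2) (x 4)) (c (x 0) (x 4))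
    rw [hc (x 3) (x 1), hc (x 3) (x 2), hc (x 3) (x 0), hc (x 1) (x 0), hc (x 2) (x 0)]
  have h81 : ∑ x : Fin 5 → V, E (l (x 3)) (l (x 1)) (l (x 2)) (l (x 4)) (c (x 1) (x 3)) (c (x 2) (x 3)) (c (x 1) (x 2)) (c (x 3) (x 4)) (c (x 1) (x 4)) (c (x 2) (x 4)) (l (x 0)) (c (x 0) (x 3)) (c (x 0) (x 1)) (c (x 0) (x 2)) (c (x 0) (x 4)) = ∑ x, F x := by
    rw [← sum_perm ![3, 1, 2, 4, 0] (by decide) F]
    refine Finset.sum_congr rfl fun x _ => ?_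
    change _ = E (l (x 3)) (l (x 1)) (l (x 2)) (l (x 4)) (c (x 3) (x 1)) (c (x 3) (x 2)) (c (x 1) (x 2)) (c (x 3) (x 4)) (c (x 1) (x 4)) (c (x 2) (x 4)) (l (x 0)) (c (x 3) (x 0)) (c (x 1) (x 0)) (c (x 2) (x 0)) (c (x 4) (x 0))
    rw [hc (x 3) (x 1), hc (x 3) (x 2), hc (x 3) (x 0), hc (x 1) (x 0), hc (x 2) (x 0), hc (x 4) (x 0)]
  have h82 : ∑ x : Fin 5 → V, E (l (x 3)) (l (x 1)) (l (x 4)) (l (x 0)) (c (x 1) (x 3)) (c (x 3) (x 4)) (c (x 1) (x 4)) (c (x 0) (x 3)) (c (x 0) (x 1)) (c (x 0) (x 4)) (l (x 2)) (c (x 2) (x 3)) (c (x 1) (x 2)) (c (x 2) (x 4)) (c (x 0) (x 2)) = ∑ x, F x := by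
    rw [← sum_perm ![3, 1, 4, 0, 2] (by decide) F]
    refine Finset.sum_congr rfl fun x _ => ?_
    change _ = E (l (x 3)) (l (x 1)) (l (x 4)) (l (x 0)) (c (x 3) (x 1)) (c (x 3) (x 4)) (c (x 1) (x 4)) (c (x 3) (x 0)) (c (x 1) (x 0)) (c (x 4) (x 0)) (l (x 2)) (c (x 3) (x 2)) (c (x 1) (x 2)) (c (x 4) (x 2)) (c (x 0) (x 2))
    rw [hc (x 3) (x 1), hc (x 3) (x 0), hc (x 1) (x 0), hc (x 4) (x 0), hc (x 3) (x 2), hc (x 4) (x 2)]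
  have h83 : ∑ x : Fin 5 → V, E (l (x 3)) (l (x 1)) (l (x 4)) (l (x 2)) (c (x 1) (x 3)) (c (x 3) (x 4)) (c (x 1) (x 4)) (c (x 2) (x 3)) (c (x 1) (x 2)) (c (x 2) (x 4)) (l (x 0)) (c (x 0) (x 3)) (c (x 0) (x 1)) (c (x 0) (x 4)) (c (x 0) (x 2)) = ∑ x, F x := by
    rw [← sum_perm ![3, 1, 4, 2, 0] (by decide) F]
    refine Finset.sum_congr rfl fun x _ => ?_
    change _ = E (l (x 3)) (l (x 1)) (l (x 4)) (l (x 2)) (c (x 3) (x 1)) (c (x 3) (x 4)) (c (x 1) (x 4)) (c (x 3) (x 2)) (c (x 1) (x 2)) (c (x 4) (x 2)) (l (x 0)) (c (x 3) (x 0)) (c (x 1) (x 0)) (c (x 4) (x 0)) (c (x 2) (x 0))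
    rw [hc (x 3) (x 1), hc (x 3) (x 2), hc (x 4) (x 2), hc (x 3) (x 0), hc (x 1) (x 0), hc (x 4) (x 0), hc (x 2) (x 0)]
  have h84 : ∑ x : Fin 5 → V, E (l (x 3)) (l (x 2)) (l (x 0)) (l (x 1)) (c (x 2) (x 3)) (c (x 0) (x 3)) (c (x 0) (x 2)) (c (x 1) (x 3)) (c (x 1) (x 2)) (c (x 0) (x 1)) (l (x 4)) (c (x 3) (x 4)) (c (x 2) (x 4)) (c (x 0) (x 4)) (c (x 1) (x 4)) = ∑ x, F x := by
    rw [← sum_perm ![3, 2, 0, 1, 4] (by decide) F]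
    refine Finset.sum_congr rfl fun x _ => ?_
    change _ = E (l (x 3)) (l (x 2)) (l (x 0)) (l (x 1)) (c (x 3) (x 2)) (c (x 3) (x 0)) (c (x 2) (x 0)) (c (x 3) (x 1)) (c (x 2) (x 1)) (c (x 0) (x 1)) (l (x 4)) (c (x 3) (x 4)) (c (x 2) (x 4)) (c (x 0) (x 4)) (c (x 1) (x 4))
    rw [hc (x 3) (x 2), hc (x 3) (x 0), hc (x 2) (x 0), hc (x 3) (x 1), hc (x 2) (x 1)]
  have h85 : ∑ x : Fin 5 → V, E (l (x 3)) (l (x 2)) (l (x 0)) (l (x 4)) (c (x 2) (x 3)) (c (x 0) (x 3)) (c (x 0) (x 2)) (c (x 3) (x 4)) (c (x 2) (x 4)) (c (x 0) (x 4)) (l (x 1)) (c (x 1) (x 3)) (c (x 1) (x 2)) (c (x 0) (x 1)) (c (x 1) (x 4)) = ∑ x, F x := by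
    rw [← sum_perm ![3, 2, 0, 4, 1] (by decide) F]
    refine Finset.sum_congr rfl fun x _ => ?_
    change _ = E (l (x 3)) (l (x 2)) (l (x 0)) (l (x 4)) (c (x 3) (x 2)) (c (x 3) (x 0)) (c (x 2) (x 0)) (c (x 3) (x 4)) (c (x 2) (x 4)) (c (x 0) (x 4)) (l (x 1)) (c (x 3) (x 1)) (c (x 2) (x 1)) (c (x 0) (x 1)) (c (x 4) (x 1))
    rw [hc (x 3) (x 2), hc (x 3) (x 0), hc (x 2) (x 0), hc (x 3) (x 1), hc (x 2) (x 1), hc (x 4) (x 1)]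
  have h86 : ∑ x : Fin 5 → V, E (l (x 3)) (l (x 2)) (l (x 1)) (l (x 0)) (c (x 2) (x 3)) (c (x 1) (x 3)) (c (x 1) (x 2)) (c (x 0) (x 3)) (c (x 0) (x 2)) (c (x 0) (x 1)) (l (x 4)) (c (x 3) (x 4)) (c (x 2) (x 4)) (c (x 1) (x 4)) (c (x 0) (x 4)) = ∑ x, F x := by
    rw [← sum_perm ![3, 2, 1, 0, 4] (by decide) F]
    refine Finset.sum_congr rfl fun x _ => ?_
    change _ = E (l (x 3)) (l (x 2)) (l (x 1)) (l (x 0)) (c (x 3) (x 2)) (c (x 3) (x 1)) (c (x 2) (x 1)) (c (x 3) (x 0)) (c (x 2) (x 0)) (c (x 1) (x 0)) (l (x 4)) (c (x 3) (x 4)) (c (x 2) (x 4)) (c (x 1) (x 4)) (c (x 0) (x 4))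
    rw [hc (x 3) (x 2), hc (x 3) (x 1), hc (x 2) (x 1), hc (x 3) (x 0), hc (x 2) (x 0), hc (x 1) (x 0)]
  have h87 : ∑ x : Fin 5 → V, E (l (x 3)) (l (x 2)) (l (x 1)) (l (x 4)) (c (x 2) (x 3)) (c (x 1) (x 3)) (c (x 1) (x 2)) (c (x 3) (x 4)) (c (x 2) (x 4)) (c (x 1) (x 4)) (l (x 0)) (c (x 0) (x 3)) (c (x 0) (x 2)) (c (x 0) (x 1)) (c (x 0) (x 4)) = ∑ x, F x := by
    rw [← sum_perm ![3, 2, 1, 4, 0] (by decide) F]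
    refine Finset.sum_congr rfl fun x _ => ?_
    change _ = E (l (x 3)) (l (x 2)) (l (x 1)) (l (x 4)) (c (x 3) (x 2)) (c (x 3) (x 1)) (c (x 2) (x 1)) (c (x 3) (x 4)) (c (x 2) (x 4)) (c (x 1) (x 4)) (l (x 0)) (c (x 3) (x 0)) (c (x 2) (x 0)) (c (x 1) (x 0)) (c (x 4) (x 0))
    rw [hc (x 3) (x 2), hc (x 3) (x 1), hc (x 2) (x 1), hc (x 3) (x 0), hc (x 2) (x 0), hc (x 1) (x 0), hc (x 4) (x 0)]
  have h88 : ∑ x : Fin 5 → V, E (l (x 3)) (l (x 2)) (l (x 4)) (l (x 0)) (c (x 2) (x 3)) (c (x 3) (x 4)) (c (x 2) (x 4)) (c (x 0) (x 3)) (c (x 0) (x 2)) (c (x 0) (x 4)) (l (x 1)) (c (x 1) (x 3)) (c (x 1) (x 2)) (c (x 1) (x 4)) (c (x 0) (x 1)) = ∑ x, F x := by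
    rw [← sum_perm ![3, 2, 4, 0, 1] (by decide) F]
    refine Finset.sum_congr rfl fun x _ => ?_
    change _ = E (l (x 3)) (l (x 2)) (l (x 4)) (l (x 0)) (c (x 3) (x 2)) (c (x 3) (x 4)) (c (x 2) (x 4)) (c (x 3) (x 0)) (c (x 2) (x 0)) (c (x 4) (x 0)) (l (x 1)) (c (x 3) (x 1)) (c (x 2) (x 1)) (c (x 4) (x 1)) (c (x 0) (x 1))
    rw [hc (x 3) (x 2), hc (x 3) (x 0), hc (x 2) (x 0), hc (x 4) (x 0), hc (x 3) (x 1), hc (x 2) (x 1), hc (x 4) (x 1)]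
  have h89 : ∑ x : Fin 5 → V, E (l (x 3)) (l (x 2)) (l (x 4)) (l (x 1)) (c (x 2) (x 3)) (c (x 3) (x 4)) (c (x 2) (x 4)) (c (x 1) (x 3)) (c (x 1) (x 2)) (c (x 1) (x 4)) (l (x 0)) (c (x 0) (x 3)) (c (x 0) (x 2)) (c (x 0) (x 4)) (c (x 0) (x 1)) = ∑ x, F x := by
    rw [← sum_perm ![3, 2, 4, 1, 0] (by decide) F]
    refine Finset.sum_congr rfl fun x _ => ?_
    change _ = E (l (x 3)) (l (x 2)) (l (x 4)) (l (x 1)) (c (x 3) (x 2)) (c (x 3) (x 4)) (c (x 2) (x 4)) (c (x 3) (x 1)) (c (x 2) (x 1)) (c (x 4) (x 1)) (l (x 0)) (c (x 3) (x 0)) (c (x 2) (x 0)) (c (x 4) (x 0)) (c (x 1) (x 0))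
    rw [hc (x 3) (x 2), hc (x 3) (x 1), hc (x 2) (x 1), hc (x 4) (x 1), hc (x 3) (x 0), hc (x 2) (x 0), hc (x 4) (x 0), hc (x 1) (x 0)]
  have h90 : ∑ x : Fin 5 → V, E (l (x 3)) (l (x 4)) (l (x 0)) (l (x 1)) (c (x 3) (x 4)) (c (x 0) (x 3)) (c (x 0) (x 4)) (c (x 1) (x 3)) (c (x 1) (x 4)) (c (x 0) (x 1)) (l (x 2)) (c (x 2) (x 3)) (c (x 2) (x 4)) (c (x 0) (x 2)) (c (x 1) (x 2)) = ∑ x, F x := by
    rw [← sum_perm ![3, 4, 0, 1, 2] (by decide) F]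
    refine Finset.sum_congr rfl fun x _ => ?_
    change _ = E (l (x 3)) (l (x 4)) (l (x 0)) (l (x 1)) (c (x 3) (x 4)) (c (x 3) (x 0)) (c (x 4) (x 0)) (c (x 3) (x 1)) (c (x 4) (x 1)) (c (x 0) (x 1)) (l (x 2)) (c (x 3) (x 2)) (c (x 4) (x 2)) (c (x 0) (x 2)) (c (x 1) (x 2))
    rw [hc (x 3) (x 0), hc (x 4) (x 0), hc (x 3) (x 1), hc (x 4) (x 1), hc (x 3) (x 2), hc (x 4) (x 2)]
  have h91 : ∑ x : Fin 5 → V, E (l (x 3)) (l (x 4)) (l (x 0)) (l (x 2)) (c (x 3) (x 4)) (c (x 0) (x 3)) (c (x 0) (x 4)) (c (x 2) (x 3)) (c (x 2) (x 4)) (c (x 0) (x 2)) (l (x 1)) (c (x 1) (x 3)) (c (x 1) (x 4)) (c (x 0) (x 1)) (c (x 1) (x 2)) = ∑ x, F x := by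
    rw [← sum_perm ![3, 4, 0, 2, 1] (by decide) F]
    refine Finset.sum_congr rfl fun x _ => ?_
    change _ = E (l (x 3)) (l (x 4)) (l (x 0)) (l (x 2)) (c (x 3) (x 4)) (c (x 3) (x 0)) (c (x 4) (x 0)) (c (x 3) (x 2)) (c (x 4) (x 2)) (c (x 0) (x 2)) (l (x 1)) (c (x 3) (x 1)) (c (x 4) (x 1)) (c (x 0) (x 1)) (c (x 2) (x 1))
    rw [hc (x 3) (x 0), hc (x 4) (x 0), hc (x 3) (x 2), hc (x 4) (x 2), hc (x 3) (x 1), hc (x 4) (x 1), hc (x 2) (x 1)]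
  have h92 : ∑ x : Fin 5 → V, E (l (x 3)) (l (x 4)) (l (x 1)) (l (x 0)) (c (x 3) (x 4)) (c (x 1) (x 3)) (c (x 1) (x 4)) (c (x 0) (x 3)) (c (x 0) (x 4)) (c (x 0) (x 1)) (l (x 2)) (c (x 2) (x 3)) (c (x 2) (x 4)) (c (x 1) (x 2)) (c (x 0) (x 2)) = ∑ x, F x := by
    rw [← sum_perm ![3, 4, 1, 0, 2] (by decide) F]
    refine Finset.sum_congr rfl fun x _ => ?_
    change _ = E (l (x 3)) (l (x 4)) (l (x 1)) (l (x 0)) (c (x 3) (x 4)) (c (x 3) (x 1)) (c (x 4) (x 1)) (c (x 3) (x 0)) (c (x 4) (x 0)) (c (x 1) (x 0)) (l (x 2)) (c (x 3) (x 2)) (c (x 4) (x 2)) (c (x 1) (x 2)) (c (x 0) (x 2))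
    rw [hc (x 3) (x 1), hc (x 4) (x 1), hc (x 3) (x 0), hc (x 4) (x 0), hc (x 1) (x 0), hc (x 3) (x 2), hc (x 4) (x 2)]
  have h93 : ∑ x : Fin 5 → V, E (l (x 3)) (l (x 4)) (l (x 1)) (l (x 2)) (c (x 3) (x 4)) (c (x 1) (x 3)) (c (x 1) (x 4)) (c (x 2) (x 3)) (c (x 2) (x 4)) (c (x 1) (x 2)) (l (x 0)) (c (x 0) (x 3)) (c (x 0) (x 4)) (c (x 0) (x 1)) (c (x 0) (x 2)) = ∑ x, F x := by
    rw [← sum_perm ![3, 4, 1, 2, 0] (by decide) F]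
    refine Finset.sum_congr rfl fun x _ => ?_
    change _ = E (l (x 3)) (l (x 4)) (l (x 1)) (l (x 2)) (c (x 3) (x 4)) (c (x 3) (x 1)) (c (x 4) (x 1)) (c (x 3) (x 2)) (c (x 4) (x 2)) (c (x 1) (x 2)) (l (x 0)) (c (x 3) (x 0)) (c (x 4) (x 0)) (c (x 1) (x 0)) (c (x 2) (x 0))
    rw [hc (x 3) (x 1), hc (x 4) (x 1), hc (x 3) (x 2), hc (x 4) (x 2), hc (x 3) (x 0), hc (x 4) (x 0), hc (x 1) (x 0), hc (x 2) (x 0)]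
  have h94 : ∑ x : Fin 5 → V, E (l (x 3)) (l (x 4)) (l (x 2)) (l (x 0)) (c (x 3) (x 4)) (c (x 2) (x 3)) (c (x 2) (x 4)) (c (x 0) (x 3)) (c (x 0) (x 4)) (c (x 0) (x 2)) (l (x 1)) (c (x 1) (x 3)) (c (x 1) (x 4)) (c (x 1) (x 2)) (c (x 0) (x 1)) = ∑ x, F x := by
    rw [← sum_perm ![3, 4, 2, 0, 1] (by decide) F]
    refine Finset.sum_congr rfl fun x _ => ?_
    change _ = E (l (x 3)) (l (x 4)) (l (x 2)) (l (x 0)) (c (x 3) (x 4)) (c (x 3) (x 2)) (c (x 4) (x 2)) (c (x 3) (x 0)) (c (x 4) (x 0)) (c (x 2) (x 0)) (l (x 1)) (c (x 3) (x 1)) (c (x 4) (x 1)) (c (x 2) (x 1)) (c (x 0) (x 1))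
    rw [hc (x 3) (x 2), hc (x 4) (x 2), hc (x 3) (x 0), hc (x 4) (x 0), hc (x 2) (x 0), hc (x 3) (x 1), hc (x 4) (x 1), hc (x 2) (x 1)]
  have h95 : ∑ x : Fin 5 → V, E (l (x 3)) (l (x 4)) (l (x 2)) (l (x 1)) (c (x 3) (x 4)) (c (x 2) (x 3)) (c (x 2) (x 4)) (c (x 1) (x 3)) (c (x 1) (x 4)) (c (x 1) (x 2)) (l (x 0)) (c (x 0) (x 3)) (c (x 0) (x 4)) (c (x 0) (x 2)) (c (x 0) (x 1)) = ∑ x, F x := by
    rw [← sum_perm ![3, 4, 2, 1, 0] (by decide) F]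
    refine Finset.sum_congr rfl fun x _ => ?_
    change _ = E (l (x 3)) (l (x 4)) (l (x 2)) (l (x 1)) (c (x 3) (x 4)) (c (x 3) (x 2)) (c (x 4) (x 2)) (c (x 3) (x 1)) (c (x 4) (x 1)) (c (x 2) (x 1)) (l (x 0)) (c (x 3) (x 0)) (c (x 4) (x 0)) (c (x 2) (x 0)) (c (x 1) (x 0))
    rw [hc (x 3) (x 2), hc (x 4) (x 2), hc (x 3) (x 1), hc (x 4) (x 1), hc (x 2) (x 1), hc (x 3) (x 0), hc (x 4) (x 0), hc (x 2) (x 0), hc (x 1) (x 0)]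
  have h96 : ∑ x : Fin 5 → V, E (l (x 4)) (l (x 0)) (l (x 1)) (l (x 2)) (c (x 0) (x 4)) (c (x 1) (x 4)) (c (x 0) (x 1)) (c (x 2) (x 4)) (c (x 0) (x 2)) (c (x 1) (x 2)) (l (x 3)) (c (x 3) (x 4)) (c (x 0) (x 3)) (c (x 1) (x 3)) (c (x 2) (x 3)) = ∑ x, F x := by
    rw [← sum_perm ![4, 0, 1, 2, 3] (by decide) F]
    refine Finset.sum_congr rfl fun x _ => ?_
    change _ = E (l (x 4)) (l (x 0)) (l (x 1)) (l (x 2)) (c (x 4) (x 0)) (c (x 4) (x 1)) (c (x 0) (x 1)) (c (x 4) (x 2)) (c (x 0) (x 2)) (c (x 1) (x 2)) (l (x 3)) (c (x 4) (x 3)) (c (x 0) (x 3)) (c (x 1) (x 3)) (c (x 2) (x 3))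
    rw [hc (x 4) (x 0), hc (x 4) (x 1), hc (x 4) (x 2), hc (x 4) (x 3)]
  have h97 : ∑ x : Fin 5 → V, E (l (x 4)) (l (x 0)) (l (x 1)) (l (x 3)) (c (x 0) (x 4)) (c (x 1) (x 4)) (c (x 0) (x 1)) (c (x 3) (x 4)) (c (x 0) (x 3)) (c (x 1) (x 3)) (l (x 2)) (c (x 2) (x 4)) (c (x 0) (x 2)) (c (x 1) (x 2)) (c (x 2) (x 3)) = ∑ x, F x := by
    rw [← sum_perm ![4, 0, 1, 3, 2] (by decide) F]
    refine Finset.sum_congr rfl fun x _ => ?_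
    change _ = E (l (x 4)) (l (x 0)) (l (x 1)) (l (x 3)) (c (x 4) (x 0)) (c (x 4) (x 1)) (c (x 0) (x 1)) (c (x 4) (x 3)) (c (x 0) (x 3)) (c (x 1) (x 3)) (l (x 2)) (c (x 4) (x 2)) (c (x 0) (x 2)) (c (x 1) (x 2)) (c (x 3) (x 2))
    rw [hc (x 4) (x 0), hc (x 4) (x 1), hc (x 4) (x 3), hc (x 4) (x 2), hc (x 3) (x 2)]
  have h98 : ∑ x : Fin 5 → V, E (l (x 4)) (l (x 0)) (l (x 2)) (l (x 1)) (c (x 0) (x 4)) (c (x 2) (x 4)) (c (x 0) (x 2)) (c (x 1) (x 4)) (c (x 0) (x 1)) (c (x 1) (x 2)) (l (x 3)) (c (x 3) (x 4)) (c (x 0) (x 3)) (c (x 2) (x 3)) (c (x 1) (x 3)) = ∑ x, F x := by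
    rw [← sum_perm ![4, 0, 2, 1, 3] (by decide) F]
    refine Finset.sum_congr rfl fun x _ => ?_
    change _ = E (l (x 4)) (l (x 0)) (l (x 2)) (l (x 1)) (c (x 4) (x 0)) (c (x 4) (x 2)) (c (x 0) (x 2)) (c (x 4) (x 1)) (c (x 0) (x 1)) (c (x 2) (x 1)) (l (x 3)) (c (x 4) (x 3)) (c (x 0) (x 3)) (c (x 2) (x 3)) (c (x 1) (x 3))
    rw [hc (x 4) (x 0), hc (x 4) (x 2), hc (x 4) (x 1), hc (x 2) (x 1), hc (x 4) (x 3)]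
  have h99 : ∑ x : Fin 5 → V, E (l (x 4)) (l (x 0)) (l (x 2)) (l (x 3)) (c (x 0) (x 4)) (c (x 2) (x 4)) (c (x 0) (x 2)) (c (x 3) (x 4)) (c (x 0) (x 3)) (c (x 2) (x 3)) (l (x 1)) (c (x 1) (x 4)) (c (x 0) (x 1)) (c (x 1) (x 2)) (c (x 1) (x 3)) = ∑ x, F x := by
    rw [← sum_perm ![4, 0, 2, 3, 1] (by decide) F]
    refine Finset.sum_congr rfl fun x _ => ?_
    change _ = E (l (x 4)) (l (x 0)) (l (x 2)) (l (x 3)) (c (x 4) (x 0)) (c (x 4) (x 2)) (c (x 0) (x 2)) (c (x 4) (x 3)) (c (x 0) (x 3)) (c (x 2) (x 3)) (l (x 1)) (c (x 4) (x 1)) (c (x 0) (x 1)) (c (x 2) (x 1)) (c (x 3) (x 1))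
    rw [hc (x 4) (x 0), hc (x 4) (x 2), hc (x 4) (x 3), hc (x 4) (x 1), hc (x 2) (x 1), hc (x 3) (x 1)]
  have h100 : ∑ x : Fin 5 → V, E (l (x 4)) (l (x 0)) (l (x 3)) (l (x 1)) (c (x 0) (x 4)) (c (x 3) (x 4)) (c (x 0) (x 3)) (c (x 1) (x 4)) (c (x 0) (x 1)) (c (x 1) (x 3)) (l (x 2)) (c (x 2) (x 4)) (c (x 0) (x 2)) (c (x 2) (x 3)) (c (x 1) (x 2)) = ∑ x, F x := by
    rw [← sum_perm ![4, 0, 3, 1, 2] (by decide) F]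
    refine Finset.sum_congr rfl fun x _ => ?_
    change _ = E (l (x 4)) (l (x 0)) (l (x 3)) (l (x 1)) (c (x 4) (x 0)) (c (x 4) (x 3)) (c (x 0) (x 3)) (c (x 4) (x 1)) (c (x 0) (x 1)) (c (x 3) (x 1)) (l (x 2)) (c (x 4) (x 2)) (c (x 0) (x 2)) (c (x 3) (x 2)) (c (x 1) (x 2))
    rw [hc (x 4) (x 0), hc (x 4) (x 3), hc (x 4) (x 1), hc (x 3) (x 1), hc (x 4) (x 2), hc (x 3) (x 2)]
  have h101 : ∑ x : Fin 5 → V, E (l (x 4)) (l (x 0)) (l (x 3)) (l (x 2)) (c (x 0) (x 4)) (c (x 3) (x 4)) (c (x 0) (x 3)) (c (x 2) (x 4)) (c (x 0) (x 2)) (c (x 2) (x 3)) (l (x 1)) (c (x 1) (x 4)) (c (x 0) (x 1)) (c (x 1) (x 3)) (c (x 1) (x 2)) = ∑ x, F x := by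
    rw [← sum_perm ![4, 0, 3, 2, 1] (by decide) F]
    refine Finset.sum_congr rfl fun x _ => ?_
    change _ = E (l (x 4)) (l (x 0)) (l (x 3)) (l (x 2)) (c (x 4) (x 0)) (c (x 4) (x 3)) (c (x 0) (x 3)) (c (x 4) (x 2)) (c (x 0) (x 2)) (c (x 3) (x 2)) (l (x 1)) (c (x 4) (x 1)) (c (x 0) (x 1)) (c (x 3) (x 1)) (c (x 2) (x 1))
    rw [hc (x 4) (x 0), hc (x 4) (x 3), hc (x 4) (x 2), hc (x 3) (x 2), hc (x 4) (x 1), hc (x 3) (x 1), hc (x 2) (x 1)]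
  have h102 : ∑ x : Fin 5 → V, E (l (x 4)) (l (x 1)) (l (x 0)) (l (x 2)) (c (x 1) (x 4)) (c (x 0) (x 4)) (c (x 0) (x 1)) (c (x 2) (x 4)) (c (x 1) (x 2)) (c (x 0) (x 2)) (l (x 3)) (c (x 3) (x 4)) (c (x 1) (x 3)) (c (x 0) (x 3)) (c (x 2) (x 3)) = ∑ x, F x := by
    rw [← sum_perm ![4, 1, 0, 2, 3] (by decide) F]
    refine Finset.sum_congr rfl fun x _ => ?_
    change _ = E (l (x 4)) (l (x 1)) (l (x 0)) (l (x 2)) (c (x 4) (x 1)) (c (x 4) (x 0)) (c (x 1) (x 0)) (c (x 4) (x 2)) (c (x 1) (x 2)) (c (x 0) (x 2)) (l (x 3)) (c (x 4) (x 3)) (c (x 1) (x 3)) (c (x 0) (x 3)) (c (x 2) (x 3))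
    rw [hc (x 4) (x 1), hc (x 4) (x 0), hc (x 1) (x 0), hc (x 4) (x 2), hc (x 4) (x 3)]
  have h103 : ∑ x : Fin 5 → V, E (l (x 4)) (l (x 1)) (l (x 0)) (l (x 3)) (c (x 1) (x 4)) (c (x 0) (x 4)) (c (x 0) (x 1)) (c (x 3) (x 4)) (c (x 1) (x 3)) (c (x 0) (x 3)) (l (x 2)) (c (x 2) (x 4)) (c (x 1) (x 2)) (c (x 0) (x 2)) (c (x 2) (x 3)) = ∑ x, F x := by
    rw [← sum_perm ![4, 1, 0, 3, 2] (by decide) F]
    refine Finset.sum_congr rfl fun x _ => ?_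
    change _ = E (l (x 4)) (l (x 1)) (l (x 0)) (l (x 3)) (c (x 4) (x 1)) (c (x 4) (x 0)) (c (x 1) (x 0)) (c (x 4) (x 3)) (c (x 1) (x 3)) (c (x 0) (x 3)) (l (x 2)) (c (x 4) (x 2)) (c (x 1) (x 2)) (c (x 0) (x 2)) (c (x 3) (x 2))
    rw [hc (x 4) (x 1), hc (x 4) (x 0), hc (x 1) (x 0), hc (x 4) (x 3), hc (x 4) (x 2), hc (x 3) (x 2)]
  have h104 : ∑ x : Fin 5 → V, E (l (x 4)) (l (x 1)) (l (x 2)) (l (x 0)) (c (x 1) (x 4)) (c (x 2) (x 4)) (c (x 1) (x 2)) (c (x 0) (x 4)) (c (x 0) (x 1)) (c (x 0) (x 2)) (l (x 3)) (c (x 3) (x 4)) (c (x 1) (x 3)) (c (x 2) (x 3)) (c (x 0) (x 3)) = ∑ x, F x := by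
    rw [← sum_perm ![4, 1, 2, 0, 3] (by decide) F]
    refine Finset.sum_congr rfl fun x _ => ?_
    change _ = E (l (x 4)) (l (x 1)) (l (x 2)) (l (x 0)) (c (x 4) (x 1)) (c (x 4) (x 2)) (c (x 1) (x 2)) (c (x 4) (x 0)) (c (x 1) (x 0)) (c (x 2) (x 0)) (l (x 3)) (c (x 4) (x 3)) (c (x 1) (x 3)) (c (x 2) (x 3)) (c (x 0) (x 3))
    rw [hc (x 4) (x 1), hc (x 4) (x 2), hc (x 4) (x 0), hc (x 1) (x 0), hc (x 2) (x 0), hc (x 4) (x 3)]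
  have h105 : ∑ x : Fin 5 → V, E (l (x 4)) (l (x 1)) (l (x 2)) (l (x 3)) (c (x 1) (x 4)) (c (x 2) (x 4)) (c (x 1) (x 2)) (c (x 3) (x 4)) (c (x 1) (x 3)) (c (x 2) (x 3)) (l (x 0)) (c (x 0) (x 4)) (c (x 0) (x 1)) (c (x 0) (x 2)) (c (x 0) (x 3)) = ∑ x, F x := by
    rw [← sum_perm ![4, 1, 2, 3, 0] (by decide) F]
    refine Finset.sum_congr rfl fun x _ => ?_
    change _ = E (l (x 4)) (l (x 1)) (l (x 2)) (l (x 3)) (c (x 4) (x 1)) (c (x 4) (x 2)) (c (x 1) (x 2)) (c (x 4) (x 3)) (c (x 1) (x 3)) (c (x 2) (x 3)) (l (x 0)) (c (x 4) (x 0)) (c (x 1) (x 0)) (c (x 2) (x 0)) (c (x 3) (x 0))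
    rw [hc (x 4) (x 1), hc (x 4) (x 2), hc (x 4) (x 3), hc (x 4) (x 0), hc (x 1) (x 0), hc (x 2) (x 0), hc (x 3) (x 0)]
  have h106 : ∑ x : Fin 5 → V, E (l (x 4)) (l (x 1)) (l (x 3)) (l (x 0)) (c (x 1) (x 4)) (c (x 3) (x 4)) (c (x 1) (x 3)) (c (x 0) (x 4)) (c (x 0) (x 1)) (c (x 0) (x 3)) (l (x 2)) (c (x 2) (x 4)) (c (x 1) (x 2)) (c (x 2) (x 3)) (c (x 0) (x 2)) = ∑ x, F x := by
    rw [← sum_perm ![4, 1, 3, 0, 2] (by decide) F]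
    refine Finset.sum_congr rfl fun x _ => ?_
    change _ = E (l (x 4)) (l (x 1)) (l (x 3)) (l (x 0)) (c (x 4) (x 1)) (c (x 4) (x 3)) (c (x 1) (x 3)) (c (x 4) (x 0)) (c (x 1) (x 0)) (c (x 3) (x 0)) (l (x 2)) (c (x 4) (x 2)) (c (x 1) (x 2)) (c (x 3) (x 2)) (c (x 0) (x 2))
    rw [hc (x 4) (x 1), hc (x 4) (x 3), hc (x 4) (x 0), hc (x 1) (x 0), hc (x 3) (x 0), hc (x 4) (x 2), hc (x 3) (x 2)]
  have h107 : ∑ x : Fin 5 → V, E (l (x 4)) (l (x 1)) (l (x 3)) (l (x 2)) (c (x 1) (x 4)) (c (x 3) (x 4)) (c (x 1) (x 3)) (c (x 2) (x 4)) (c (x 1) (x 2)) (c (x 2) (x 3)) (l (x 0)) (c (x 0) (x 4)) (c (x 0) (x 1)) (c (x 0) (x 3)) (c (x 0) (x 2)) = ∑ x, F x := by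
    rw [← sum_perm ![4, 1, 3, 2, 0] (by decide) F]
    refine Finset.sum_congr rfl fun x _ => ?_
    change _ = E (l (x 4)) (l (x 1)) (l (x 3)) (l (x 2)) (c (x 4) (x 1)) (c (x 4) (x 3)) (c (x 1) (x 3)) (c (x 4) (x 2)) (c (x 1) (x 2)) (c (x 3) (x 2)) (l (x 0)) (c (x 4) (x 0)) (c (x 1) (x 0)) (c (x 3) (x 0)) (c (x 2) (x 0))
    rw [hc (x 4) (x 1), hc (x 4) (x 3), hc (x 4) (x 2), hc (x 3) (x 2), hc (x 4) (x 0), hc (x 1) (x 0), hc (x 3) (x 0), hc (x 2) (x 0)]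
  have h108 : ∑ x : Fin 5 → V, E (l (x 4)) (l (x 2)) (l (x 0)) (l (x 1)) (c (x 2) (x 4)) (c (x 0) (x 4)) (c (x 0) (x 2)) (c (x 1) (x 4)) (c (x 1) (x 2)) (c (x 0) (x 1)) (l (x 3)) (c (x 3) (x 4)) (c (x 2) (x 3)) (c (x 0) (x 3)) (c (x 1) (x 3)) = ∑ x, F x := by
    rw [← sum_perm ![4, 2, 0, 1, 3] (by decide) F]
    refine Finset.sum_congr rfl fun x _ => ?_
    change _ = E (l (x 4)) (l (x 2)) (l (x 0)) (l (x 1)) (c (x 4) (x 2)) (c (x 4) (x 0)) (c (x 2) (x 0)) (c (x 4) (x 1)) (c (x 2) (x 1)) (c (x 0) (x 1)) (l (x 3)) (c (x 4) (x 3)) (c (x 2) (x 3)) (c (x 0) (x 3)) (c (x 1) (x 3))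
    rw [hc (x 4) (x 2), hc (x 4) (x 0), hc (x 2) (x 0), hc (x 4) (x 1), hc (x 2) (x 1), hc (x 4) (x 3)]
  have h109 : ∑ x : Fin 5 → V, E (l (x 4)) (l (x 2)) (l (x 0)) (l (x 3)) (c (x 2) (x 4)) (c (x 0) (x 4)) (c (x 0) (x 2)) (c (x 3) (x 4)) (c (x 2) (x 3)) (c (x 0) (x 3)) (l (x 1)) (c (x 1) (x 4)) (c (x 1) (x 2)) (c (x 0) (x 1)) (c (x 1) (x 3)) = ∑ x, F x := by
    rw [← sum_perm ![4, 2, 0, 3, 1] (by decide) F]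
    refine Finset.sum_congr rfl fun x _ => ?_
    change _ = E (l (x 4)) (l (x 2)) (l (x 0)) (l (x 3)) (c (x 4) (x 2)) (c (x 4) (x 0)) (c (x 2) (x 0)) (c (x 4) (x 3)) (c (x 2) (x 3)) (c (x 0) (x 3)) (l (x 1)) (c (x 4) (x 1)) (c (x 2) (x 1)) (c (x 0) (x 1)) (c (x 3) (x 1))
    rw [hc (x 4) (x 2), hc (x 4) (x 0), hc (x 2) (x 0), hc (x 4) (x 3), hc (x 4) (x 1), hc (x 2) (x 1), hc (x 3) (x 1)]
  have h110 : ∑ x : Fin 5 → V, E (l (x 4)) (l (x 2)) (l (x 1)) (l (x 0)) (c (x 2) (x 4)) (c (x 1) (x 4)) (c (x 1) (x 2)) (c (x 0) (x 4)) (c (x 0) (x 2)) (c (x 0) (x 1)) (l (x 3)) (c (x 3) (x 4)) (c (x 2) (x 3)) (c (x 1) (x 3)) (c (x 0) (x 3)) = ∑ x, F x := by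
    rw [← sum_perm ![4, 2, 1, 0, 3] (by decide) F]
    refine Finset.sum_congr rfl fun x _ => ?_
    change _ = E (l (x 4)) (l (x 2)) (l (x 1)) (l (x 0)) (c (x 4) (x 2)) (c (x 4) (x 1)) (c (x 2) (x 1)) (c (x 4) (x 0)) (c (x 2) (x 0)) (c (x 1) (x 0)) (l (x 3)) (c (x 4) (x 3)) (c (x 2) (x 3)) (c (x 1) (x 3)) (c (x 0) (x 3))
    rw [hc (x 4) (x 2), hc (x 4) (x 1), hc (x 2) (x 1), hc (x 4) (x 0), hc (x 2) (x 0), hc (x 1) (x 0), hc (x 4) (x 3)]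
  have h111 : ∑ x : Fin 5 → V, E (l (x 4)) (l (x 2)) (l (x 1)) (l (x 3)) (c (x 2) (x 4)) (c (x 1) (x 4)) (c (x 1) (x 2)) (c (x 3) (x 4)) (c (x 2) (x 3)) (c (x 1) (x 3)) (l (x 0)) (c (x 0) (x 4)) (c (x 0) (x 2)) (c (x 0) (x 1)) (c (x 0) (x 3)) = ∑ x, F x := by
    rw [← sum_perm ![4, 2, 1, 3, 0] (by decide) F]
    refine Finset.sum_congr rfl fun x _ => ?_
    change _ = E (l (x 4)) (l (x 2)) (l (x 1)) (l (x 3)) (c (x 4) (x 2)) (c (x 4) (x 1)) (c (x 2) (x 1)) (c (x 4) (x 3)) (c (x 2) (x 3)) (c (x 1) (x 3)) (l (x 0)) (c (x 4) (x 0)) (c (x 2) (x 0)) (c (x 1) (x 0)) (c (x 3) (x 0))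
    rw [hc (x 4) (x 2), hc (x 4) (x 1), hc (x 2) (x 1), hc (x 4) (x 3), hc (x 4) (x 0), hc (x 2) (x 0), hc (x 1) (x 0), hc (x 3) (x 0)]
  have h112 : ∑ x : Fin 5 → V, E (l (x 4)) (l (x 2)) (l (x 3)) (l (x 0)) (c (x 2) (x 4)) (c (x 3) (x 4)) (c (x 2) (x 3)) (c (x 0) (x 4)) (c (x 0) (x 2)) (c (x 0) (x 3)) (l (x 1)) (c (x 1) (x 4)) (c (x 1) (x 2)) (c (x 1) (x 3)) (c (x 0) (x 1)) = ∑ x, F x := by
    rw [← sum_perm ![4, 2, 3, 0, 1] (by decide) F]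
    refine Finset.sum_congr rfl fun x _ => ?_
    change _ = E (l (x 4)) (l (x 2)) (l (x 3)) (l (x 0)) (c (x 4) (x 2)) (c (x 4) (x 3)) (c (x 2) (x 3)) (c (x 4) (x 0)) (c (x 2) (x 0)) (c (x 3) (x 0)) (l (x 1)) (c (x 4) (x 1)) (c (x 2) (x 1)) (c (x 3) (x 1)) (c (x 0) (x 1))
    rw [hc (x 4) (x 2), hc (x 4) (x 3), hc (x 4) (x 0), hc (x 2) (x 0), hc (x 3) (x 0), hc (x 4) (x 1), hc (x 2) (x 1), hc (x 3) (x 1)]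
  have h113 : ∑ x : Fin 5 → V, E (l (x 4)) (l (x 2)) (l (x 3)) (l (x 1)) (c (x 2) (x 4)) (c (x 3) (x 4)) (c (x 2) (x 3)) (c (x 1) (x 4)) (c (x 1) (x 2)) (c (x 1) (x 3)) (l (x 0)) (c (x 0) (x 4)) (c (x 0) (x 2)) (c (x 0) (x 3)) (c (x 0) (x 1)) = ∑ x, F x := by
    rw [← sum_perm ![4, 2, 3, 1, 0] (by decide) F]
    refine Finset.sum_congr rfl fun x _ => ?_
    change _ = E (l (x 4)) (l (x 2)) (l (x 3)) (l (x 1)) (c (x 4) (x 2)) (c (x 4) (x 3)) (c (x 2) (x 3)) (c (x 4) (x 1)) (c (x 2) (x 1)) (c (x 3) (x 1)) (l (x 0)) (c (x 4) (x 0)) (c (x 2) (x 0)) (c (x 3) (x 0)) (c (x 1) (x 0))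
    rw [hc (x 4) (x 2), hc (x 4) (x 3), hc (x 4) (x 1), hc (x 2) (x 1), hc (x 3) (x 1), hc (x 4) (x 0), hc (x 2) (x 0), hc (x 3) (x 0), hc (x 1) (x 0)]
  have h114 : ∑ x : Fin 5 → V, E (l (x 4)) (l (x 3)) (l (x 0)) (l (x 1)) (c (x 3) (x 4)) (c (x 0) (x 4)) (c (x 0) (x 3)) (c (x 1) (x 4)) (c (x 1) (x 3)) (c (x 0) (x 1)) (l (x 2)) (c (x 2) (x 4)) (c (x 2) (x 3)) (c (x 0) (x 2)) (c (x 1) (x 2)) = ∑ x, F x := by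
    rw [← sum_perm ![4, 3, 0, 1, 2] (by decide) F]
    refine Finset.sum_congr rfl fun x _ => ?_
    change _ = E (l (x 4)) (l (x 3)) (l (x 0)) (l (x 1)) (c (x 4) (x 3)) (c (x 4) (x 0)) (c (x 3) (x 0)) (c (x 4) (x 1)) (c (x 3) (x 1)) (c (x 0) (x 1)) (l (x 2)) (c (x 4) (x 2)) (c (x 3) (x 2)) (c (x 0) (x 2)) (c (x 1) (x 2))
    rw [hc (x 4) (x 3), hc (x 4) (x 0), hc (x 3) (x 0), hc (x 4) (x 1), hc (x 3) (x 1), hc (x 4) (x 2), hc (x 3) (x 2)]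
  have h115 : ∑ x : Fin 5 → V, E (l (x 4)) (l (x 3)) (l (x 0)) (l (x 2)) (c (x 3) (x 4)) (c (x 0) (x 4)) (c (x 0) (x 3)) (c (x 2) (x 4)) (c (x 2) (x 3)) (c (x 0) (x 2)) (l (x 1)) (c (x 1) (x 4)) (c (x 1) (x 3)) (c (x 0) (x 1)) (c (x 1) (x 2)) = ∑ x, F x := by
    rw [← sum_perm ![4, 3, 0, 2, 1] (by decide) F]
    refine Finset.sum_congr rfl fun x _ => ?_
    change _ = E (l (x 4)) (l (x 3)) (l (x 0)) (l (x 2)) (c (x 4) (x 3)) (c (x 4) (x 0)) (c (x 3) (x 0)) (c (x 4) (x 2)) (c (x 3) (x 2)) (c (x 0) (x 2)) (l (x 1)) (c (x 4) (x 1)) (c (x 3) (x 1)) (c (x 0) (x 1)) (c (x 2) (x 1))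
    rw [hc (x 4) (x 3), hc (x 4) (x 0), hc (x 3) (x 0), hc (x 4) (x 2), hc (x 3) (x 2), hc (x 4) (x 1), hc (x 3) (x 1), hc (x 2) (x 1)]
  have h116 : ∑ x : Fin 5 → V, E (l (x 4)) (l (x 3)) (l (x 1)) (l (x 0)) (c (x 3) (x 4)) (c (x 1) (x 4)) (c (x 1) (x 3)) (c (x 0) (x 4)) (c (x 0) (x 3)) (c (x 0) (x 1)) (l (x 2)) (c (x 2) (x 4)) (c (x 2) (x 3)) (c (x 1) (x 2)) (c (x 0) (x 2)) = ∑ x, F x := by
    rw [← sum_perm ![4, 3, 1, 0, 2] (by decide) F]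
    refine Finset.sum_congr rfl fun x _ => ?_
    change _ = E (l (x 4)) (l (x 3)) (l (x 1)) (l (x 0)) (c (x 4) (x 3)) (c (x 4) (x 1)) (c (x 3) (x 1)) (c (x 4) (x 0)) (c (x 3) (x 0)) (c (x 1) (x 0)) (l (x 2)) (c (x 4) (x 2)) (c (x 3) (x 2)) (c (x 1) (x 2)) (c (x 0) (x 2))
    rw [hc (x 4) (x 3), hc (x 4) (x 1), hc (x 3) (x 1), hc (x 4) (x 0), hc (x 3) (x 0), hc (x 1) (x 0), hc (x 4) (x 2), hc (x 3) (x 2)]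
  have h117 : ∑ x : Fin 5 → V, E (l (x 4)) (l (x 3)) (l (x 1)) (l (x 2)) (c (x 3) (x 4)) (c (x 1) (x 4)) (c (x 1) (x 3)) (c (x 2) (x 4)) (c (x 2) (x 3)) (c (x 1) (x 2)) (l (x 0)) (c (x 0) (x 4)) (c (x 0) (x 3)) (c (x 0) (x 1)) (c (x 0) (x 2)) = ∑ x, F x := by
    rw [← sum_perm ![4, 3, 1, 2, 0] (by decide) F]
    refine Finset.sum_congr rfl fun x _ => ?_
    change _ = E (l (x 4)) (l (x 3)) (l (x 1)) (l (x 2)) (c (x 4) (x 3)) (c (x 4) (x 1)) (c (x 3) (x 1)) (c (x 4) (x 2)) (c (x 3) (x 2)) (c (x 1) (x 2)) (l (x 0)) (c (x 4) (x 0)) (c (x 3) (x 0)) (c (x 1) (x 0)) (c (x 2) (x 0))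
    rw [hc (x 4) (x 3), hc (x 4) (x 1), hc (x 3) (x 1), hc (x 4) (x 2), hc (x 3) (x 2), hc (x 4) (x 0), hc (x 3) (x 0), hc (x 1) (x 0), hc (x 2) (x 0)]
  have h118 : ∑ x : Fin 5 → V, E (l (x 4)) (l (x 3)) (l (x 2)) (l (x 0)) (c (x 3) (x 4)) (c (x 2) (x 4)) (c (x 2) (x 3)) (c (x 0) (x 4)) (c (x 0) (x 3)) (c (x 0) (x 2)) (l (x 1)) (c (x 1) (x 4)) (c (x 1) (x 3)) (c (x 1) (x 2)) (c (x 0) (x 1)) = ∑ x, F x := by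
    rw [← sum_perm ![4, 3, 2, 0, 1] (by decide) F]
    refine Finset.sum_congr rfl fun x _ => ?_
    change _ = E (l (x 4)) (l (x 3)) (l (x 2)) (l (x 0)) (c (x 4) (x 3)) (c (x 4) (x 2)) (c (x 3) (x 2)) (c (x 4) (x 0)) (c (x 3) (x 0)) (c (x 2) (x 0)) (l (x 1)) (c (x 4) (x 1)) (c (x 3) (x 1)) (c (x 2) (x 1)) (c (x 0) (x 1))
    rw [hc (x 4) (x 3), hc (x 4) (x 2), hc (x 3) (x 2), hc (x 4) (x 0), hc (x 3) (x 0), hc (x 2) (x 0), hc (x 4) (x 1), hc (x 3) (x 1), hc (x 2) (x 1)]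
  have h119 : ∑ x : Fin 5 → V, E (l (x 4)) (l (x 3)) (l (x 2)) (l (x 1)) (c (x 3) (x 4)) (c (x 2) (x 4)) (c (x 2) (x 3)) (c (x 1) (x 4)) (c (x 1) (x 3)) (c (x 1) (x 2)) (l (x 0)) (c (x 0) (x 4)) (c (x 0) (x 3)) (c (x 0) (x 2)) (c (x 0) (x 1)) = ∑ x, F x := by
    rw [← sum_perm ![4, 3, 2, 1, 0] (by decide) F]
    refine Finset.sum_congr rfl fun x _ => ?_
    change _ = E (l (x 4)) (l (x 3)) (l (x 2)) (l (x 1)) (c (x 4) (x 3)) (c (x 4) (x 2)) (c (x 3) (x 2)) (c (x 4) (x 1)) (c (x 3) (x 1)) (c (x 2) (x 1)) (l (x 0)) (c (x 4) (x 0)) (c (x 3) (x 0)) (c (x 2) (x 0)) (c (x 1) (x 0))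
    rw [hc (x 4) (x 3), hc (x 4) (x 2), hc (x 3) (x 2), hc (x 4) (x 1), hc (x 3) (x 1), hc (x 2) (x 1), hc (x 4) (x 0), hc (x 3) (x 0), hc (x 2) (x 0), hc (x 1) (x 0)]
  change _ = 120 * ∑ x, F x
  simp only [S5, Nat.add_eq, Finset.sum_add_distrib]
  rw [h0, h1, h2, h3, h4, h5, h6, h7, h8, h9, h10, h11, h12, h13, h14, h15, h16, h17, h18, h19, h20, h21, h22, h23, h24, h25, h26, h27, h28, h29, h30, h31, h32, h33, h34, h35, h36, h37, h38, h39, h40, h41, h42, h43, h44, h45, h46, h47, h48, h49, h50, h51, h52, h53, h54, h55, h56, h57, h58, h59, h60, h61, h62, h63, h64, h65, h66, h67, h68, h69, h70, h71, h72, h73, h74, h75, h76, h77, h78, h79, h80, h81, h82, h83, h84, h85, h86, h87, h88, h89, h90, h91, h92, h93, h94, h95, h96, h97, h98, h99, h100, h101, h102, h103, h104, h105, h106, h107, h108, h109,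 h110, h111, h112, h113, h114, h115, h116, h117, h118, h119]
  ring

/-- main theorem -/
theorem sum_le {L K : ℕ} (hL : L ≤ 4) (hK : K ≤ 4) (hl : ∀ x, l x < L) (hcK : ∀ x y, c x y < K)
    (hc : ∀ x y, c x y = c y x) {adm4 : ℕ → ℕ → ℕ → ℕ → ℕ → ℕ → ℕ → ℕ → ℕ → ℕ →  Bool} {adm : ℕ → ℕ → ℕ → ℕ → ℕ → ℕ → ℕ → ℕ → ℕ → ℕ → ℕ → ℕ → ℕ → ℕ → ℕ →  Bool}
    (h4 : ∀ x : Fin 5 → V, adm4 (l (x 0)) (l (x 1)) (l (x 2)) (l (x 3)) (c (x 0) (x 1)) (c (x 0) (x 2)) (c (x 1) (x 2)) (c (x 0) (x 3)) (c (x 1) (x 3)) (c (x 2) (x 3)) = true)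
    (h5 : ∀ x : Fin 5 → V, adm (l (x 0)) (l (x 1)) (l (x 2)) (l (x 3)) (c (x 0) (x 1)) (c (x 0) (x 2)) (c (x 1) (x 2)) (c (x 0) (x 3)) (c (x 1) (x 3)) (c (x 2) (x 3)) (l (x 4)) (c (x 0) (x 4)) (c (x 1) (x 4)) (c (x 2) (x 4)) (c (x 3) (x 4)) = true)
    {E : ℕ → ℕ → ℕ → ℕ → ℕ → ℕ → ℕ → ℕ → ℕ → ℕ → ℕ → ℕ → ℕ → ℕ → ℕ →  ℕ} {CAP : ℕ} (h : chk L K adm4 adm E CAP = true) :
    120 * ∑ x0, ∑ x1, ∑ x2, ∑ x3, ∑ x4, E (l x0) (l x1) (l x2) (l x3) (c x0 x1) (c x0 x2) (c x1 x2) (c x0 x3) (c x1 x3) (c x2 x3) (l x4) (c x0 x4) (c x1 x4) (c x2 x4) (c x3 x4) ≤ CAP * Fintype.card V ^ 5 := by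
  have h1 : ∑ x : Fin 5 → V, S5 E (l (x 0)) (l (x 1)) (l (x 2)) (l (x 3)) (c (x 0) (x 1)) (c (x 0) (x 2)) (c (x 1) (x 2)) (c (x 0) (x 3)) (c (x 1) (x 3)) (c (x 2) (x 3)) (l (x 4)) (c (x 0) (x 4)) (c (x 1) (x 4)) (c (x 2) (x 4)) (c (x 3) (x 4)) ≤ CAP * Fintype.card V ^ 5 := by
    calc _ ≤ ∑ _x : Fin 5 → V, CAP := Finset.sum_le_sum fun x _ => pointwise l c hL hK hl hcK hc h4 h5 h x
      _ = CAP * Fintype.card V ^ 5 := by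
        rw [Finset.sum_const, Finset.card_univ, Fintype.card_fun, Fintype.card_fin, smul_eq_mul, mul_comm]
  rw [sum_S5 l c hc, sum5 (fun x0 x1 x2 x3 x4 => E (l x0) (l x1) (l x2) (l x3) (c x0 x1) (c x0 x2) (c x1 x2) (c x0 x3) (c x1 x3) (c x2 x3) (l x4) (c x0 x4) (c x1 x4) (c x2 x4) (c x3 x4))] at h1
  exact h1

end

end Pool.Agent.C44.G
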