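import Pool.Agent.C44.Sums

/-!
# Gram matrices, multipliers and the corner inequality
-/

open Finset

namespace Pool.Agent.C44

/-- weighted dot product -/
noncomputable def wd (W : List ℕ) : List ℕ → List ℕ → ℕ :=
  List.rec (fun _ _ => 0) (fun w _ ih l m =>
    List.rec 0 (fun a l' _ => List.rec 0 (fun b m' _ => Nat.add (Nat.mul w (Nat.mul a b)) (ih l' m')) m) l) W

/-- weighted sum -/
noncomputable def ws (W : List ℕ) : List ℕ → ℕ :=
  List.rec (fun _ => 0) (fun w _ ih l => List.rec 0 (fun a l' _ => Nat.add (Nat.mul w a) (ih l')) l) W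

/-- sum of the weights -/
noncomputable def wt (W : List ℕ) : ℕ := List.rec 0 (fun w _ ih => Nat.add w ih) W

/-- entry of a list of lists -/
noncomputable def nth (l : List (List ℕ)) : ℕ → List ℕ :=
  List.rec (fun _ => []) (fun a _ ih i => Nat.rec a (fun n _ => ih n) i) l

theorem wd_eq (W l m : List ℕ) :
    wd W l m = ∑ r ∈ range W.length, W.getD r 0 * (l.getD r 0 * m.getD r 0) := by
  induction W generalizing l m with
  | nil => rfl
  | cons w W ih =>
    cases l with
    | nil =>
      have : wd (w :: W) [] m = 0 := rfl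
      rw [this]
      simp
    | cons a l =>
      cases m with
      | nil =>
        have : wd (w :: W) (a :: l) [] = 0 := rfl
        rw [this]
        simp
      | cons b m =>
        have : wd (w :: W) (a :: l) (b :: m) = w * (a * b) + wd W l m := rfl
        rw [this, ih, List.length_cons, Finset.sum_range_succ']
        simp [add_comm]

theorem ws_eq (W l : List ℕ) :
    ws W l = ∑ r ∈ range W.length, W.getD r 0 * l.getD r 0 := by
  induction W generalizing l with
  | nil => rfl
  | cons w W ih =>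
    cases l with
    | nil =>
      have : ws (w :: W) [] = 0 := rfl
      rw [this]
      simp
    | cons a l =>
      have : ws (w :: W) (a :: l) = w * a + ws W l := rfl
      rw [this, ih, List.length_cons, Finset.sum_range_succ']
      simp [add_comm]

theorem wt_eq (W : List ℕ) : wt W = ∑ r ∈ range W.length, W.getD r 0 := by
  induction W with
  | nil => rfl
  | cons w W ih =>
    have : wt (w :: W) = w + wt W := rfl
    rw [this, ih, List.length_cons, Finset.sum_range_succ']
    simp [add_comm]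

/-- The Gram matrix of the columns `C` with weights `W` and offset `o`. -/
noncomputable def gram (W : List ℕ) (o : ℕ) (C : List (List ℕ)) (u v : ℕ) : ℤ :=
  ∑ r ∈ range W.length, (W.getD r 0 : ℤ) *
    ((((nth C u).getD r 0 : ℕ) : ℤ) - o) * ((((nth C v).getD r 0 : ℕ) : ℤ) - o)

theorem gram_eq (W : List ℕ) (o : ℕ) (C : List (List ℕ)) (u v : ℕ) :
    gram W o C u v = (wd W (nth C u) (nth C v) : ℤ) - o * (ws W (nth C u) + ws W (nth C v)) +
      o ^ 2 * wt W := by
  rw [wd_eq, ws_eq, ws_eq, wt_eq, gram]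
  push_cast
  rw [← Finset.sum_add_distrib, Finset.mul_sum, Finset.mul_sum, ← Finset.sum_sub_distrib,
    ← Finset.sum_add_distrib]
  refine Finset.sum_congr rfl fun r _ => ?_
  ring

/-- positivity of Gram matrices -/
theorem gram_nonneg {P : Type*} (s : Finset P) (f : P → ℕ) (W : List ℕ) (o : ℕ) (C : List (List ℕ)) :
    0 ≤ ∑ p ∈ s, ∑ q ∈ s, gram W o C (f p) (f q) := by
  have : ∑ p ∈ s, ∑ q ∈ s, gram W o C (f p) (f q) =
      ∑ r ∈ range W.length, (W.getD r 0 : ℤ) * (∑ p ∈ s, ((((nth C (f p)).getD r 0 : ℕ) : ℤ) - o)) ^ 2 := by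
    simp only [gram]
    rw [Finset.sum_congr rfl fun p _ => Finset.sum_comm, Finset.sum_comm]
    refine Finset.sum_congr rfl fun r _ => ?_
    rw [pow_two, Finset.sum_mul_sum, Finset.mul_sum]
    refine Finset.sum_congr rfl fun p _ => ?_
    rw [Finset.mul_sum]
    refine Finset.sum_congr rfl fun q _ => ?_
    ring
  rw [this]
  exact Finset.sum_nonneg fun r _ => mul_nonneg (Int.natCast_nonneg _) (sq_nonneg _)

/-- the table `T` consists of the entries `OFF + gram / den` -/
noncomputable def chkG (T OFF den : ℕ) (W : List ℕ) (o : ℕ) (C : List (List ℕ)) : Bool :=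
  all3 fun a => all3 fun b => all3 fun c => all3 fun d => all3 fun e => all3 fun f =>
    Nat.beq (Nat.add (Nat.mul den (lk T (d6 a b c d e f)))
        (Nat.mul o (Nat.add (ws W (nth C (d3 a b c))) (ws W (nth C (d3 d e f))))))
      (Nat.add (Nat.add (Nat.mul den OFF) (Nat.mul (Nat.mul o o) (wt W)))
        (wd W (nth C (d3 a b c)) (nth C (d3 d e f))))

theorem chkG_spec {T OFF den : ℕ} {W : List ℕ} {o : ℕ} {C : List (List ℕ)}
    (h : chkG T OFF den W o C = true) (a b c d e f : Fin 3) :
    (den : ℤ) * ((lk T (d6 a b c d e f) : ℤ) - OFF) = gram W o C (d3 a b c) (d3 d e f) := by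
  have h := all3_spec (all3_spec (all3_spec (all3_spec (all3_spec (all3_spec h a) b) c) d) e) f
  rw [Nat.beq_eq] at h
  simp only [Nat.add_eq, Nat.mul_eq] at h
  rw [gram_eq]
  have h' : (den : ℤ) * (lk T (d6 a b c d e f) : ℤ) +
      o * (ws W (nth C (d3 a b c)) + ws W (nth C (d3 d e f))) =
      den * OFF + o * o * wt W + wd W (nth C (d3 a b c)) (nth C (d3 d e f)) := by
    exact_mod_cast h
  linarith

/-- weight of a 4-set: `w0` if no perfect matching is monochromatic, `w1` if exactly one is,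
`0` otherwise; the colours are those of 01, 02, 12, 03, 13, 23 -/
def ph (w0 w1 a b c d e f : ℕ) : ℕ :=
  cond (Nat.beq a f) (cond (Nat.beq b e) 0 (cond (Nat.beq c d) 0 w1))
    (cond (Nat.beq b e) (cond (Nat.beq c d) 0 w1) (cond (Nat.beq c d) w1 w0))

/-- multipliers -/
def mult (al R r0 r1 r2 : ℕ) (a b c j : ℕ) : ℤ :=
  (R : ℤ) * lk al (Nat.add (Nat.mul (d3 a b c) 3) j) -
    ((lk al (Nat.mul (d3 a b c) 3) : ℤ) * r0 + lk al (Nat.add (Nat.mul (d3 a b c) 3) 1) * r1 +
      lk al (Nat.add (Nat.mul (d3 a b c) 3) 2) * r2)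

/-- check of the multiplier table `mt` (81 fields) -/
def chkM (mt al OFF R r0 r1 r2 : ℕ) : Bool :=
  all3 fun a => all3 fun b => all3 fun c => all3 fun j =>
    Nat.beq (Nat.add (lk mt (Nat.add (Nat.mul (d3 a b c) 3) j))
        (Nat.add (Nat.mul (lk al (Nat.mul (d3 a b c) 3)) r0)
          (Nat.add (Nat.mul (lk al (Nat.add (Nat.mul (d3 a b c) 3) 1)) r1)
            (Nat.mul (lk al (Nat.add (Nat.mul (d3 a b c) 3) 2)) r2))))
      (Nat.add OFF (Nat.mul R (lk al (Nat.add (Nat.mul (d3 a b c) 3) j))))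

theorem chkM_spec {mt al OFF R r0 r1 r2 : ℕ} (h : chkM mt al OFF R r0 r1 r2 = true)
    (a b c j : Fin 3) :
    (lk mt (Nat.add (Nat.mul (d3 a b c) 3) j) : ℤ) = OFF + mult al R r0 r1 r2 a b c j := by
  have h := all3_spec (all3_spec (all3_spec (all3_spec h a) b) c) j
  rw [Nat.beq_eq] at h
  have h' : (lk mt (Nat.add (Nat.mul (d3 a b c) 3) j) : ℤ) +
      ((lk al (Nat.mul (d3 a b c) 3) : ℤ) * r0 + (lk al (Nat.add (Nat.mul (d3 a b c) 3) 1) * r1 +
      lk al (Nat.add (Nat.mul (d3 a b c) 3) 2) * r2)) =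
      OFF + R * lk al (Nat.add (Nat.mul (d3 a b c) 3) j) := by
    exact_mod_cast h
  rw [mult]
  linarith

/-- check of the table `T` for one root -/
def chkA (T ga mt OFF : ℕ) : Bool :=
  all3 fun a => all3 fun b => all3 fun c => all3 fun d => all3 fun e => all3 fun f =>
    Nat.beq (Nat.add (fA T a b c d e f) (Nat.mul 2 OFF))
      (Nat.add (lk ga (d6 a b c d e f)) (Nat.add (lk mt (Nat.add (Nat.mul (d3 a b c) 3) f))
        (lk mt (Nat.add (Nat.mul (d3 d e f) 3) c))))

theorem chkA_spec {T ga mt OFF : ℕ} (h : chkA T ga mt OFF = true) (a b c d e f : Fin 3) :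
    (fA T a b c d e f : ℤ) + 2 * OFF = lk ga (d6 a b c d e f) +
      (lk mt (Nat.add (Nat.mul (d3 a b c) 3) f) + lk mt (Nat.add (Nat.mul (d3 d e f) 3) c)) := by
  have h := all3_spec (all3_spec (all3_spec (all3_spec (all3_spec (all3_spec h a) b) c) d) e) f
  rw [Nat.beq_eq] at h
  exact_mod_cast h

/-- sorted triple -/
def srt (a b c : ℕ) : Bool := and (Nat.ble a b) (Nat.ble b c)

/-- data for the three-root tables: weights, columns -/
structure BData where
  W : ℕ → ℕ → ℕ → List ℕ
  C : ℕ → ℕ → ℕ → List (List ℕ)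
  gb : ℕ → ℕ → ℕ → ℕ

/-- one summand -/
def kb (gb : ℕ → ℕ → ℕ → ℕ) (a b c d e f g h i : ℕ) : ℕ :=
  cond (srt a b c) (lk (gb a b c) (d6 d e f g h i)) 0

/-- count of sorted orders times `OFF` -/
def ko (OFF a b c : ℕ) : ℕ := cond (srt a b c) OFF 0

/-- check of the tables for three roots -/
def chkB (w0 w1 : ℕ) (tb gb : ℕ → ℕ → ℕ → ℕ) (OFF Q : ℕ) : Bool :=
  all3 fun a => all3 fun b => all3 fun c => all3 fun d => all3 fun e => all3 fun f =>
  all3 fun g => all3 fun h => all3 fun i =>
    Nat.beq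
      (Nat.add (fB tb a b c d e f g h i)
        (Nat.add (ko OFF a b c) (Nat.add (ko OFF b a c) (Nat.add (ko OFF a c b)
          (Nat.add (ko OFF c a b) (Nat.add (ko OFF b c a) (ko OFF c b a)))))))
      (Nat.add (Nat.add OFF (Nat.mul Q (Nat.add (ph w0 w1 a b c d e f) (ph w0 w1 a b c g h i))))
        (Nat.add (kb gb a b c d e f g h i) (Nat.add (kb gb b a c d f e g i h)
          (Nat.add (kb gb a c b e d f h g i) (Nat.add (kb gb c a b e f d h i g)
            (Nat.add (kb gb b c a f d e i g h) (kb gb c b a f e d i h g)))))))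

/-- check of all Gram tables of sorted types -/
noncomputable def chkGB (D : BData) (OFF o : ℕ) : Bool :=
  all3 fun a => all3 fun b => all3 fun c =>
    cond (srt a b c) (chkG (D.gb a b c) OFF 1 (D.W a b c) o (D.C a b c)) true

/-- the quadratic form belonging to one order of the roots -/
noncomputable def kq (D : BData) (o : ℕ) (a b c d e f g h i : ℕ) : ℤ :=
  cond (srt a b c) (gram (D.W a b c) o (D.C a b c) (d3 d e f) (d3 g h i)) 0

theorem kb_eq {D : BData} {OFF o : ℕ} (h : chkGB D OFF o = true) (a b c d e f g h' i : Fin 3) :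
    (kb D.gb a b c d e f g h' i : ℤ) = ko OFF a b c + kq D o a b c d e f g h' i := by
  have h := all3_spec (all3_spec (all3_spec h a) b) c
  unfold kb ko kq
  cases hs : srt a b c with
  | false => simp
  | true =>
    rw [hs, cond_true] at h
    rw [cond_true, cond_true, cond_true]
    have := chkG_spec h d e f g h' i
    push_cast at this
    linarith

theorem fB_eq {w0 w1 : ℕ} {tb : ℕ → ℕ → ℕ → ℕ} {D : BData} {OFF Q o : ℕ}
    (hB : chkB w0 w1 tb D.gb OFF Q = true)
    (hG : chkGB D OFF o = true) (a b c d e f g h i : Fin 3) :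
    (fB tb a b c d e f g h i : ℤ) = OFF + Q * (ph w0 w1 a b c d e f + ph w0 w1 a b c g h i) +
      (kq D o a b c d e f g h i + kq D o b a c d f e g i h + kq D o a c b e d f h g i +
        kq D o c a b e f d h i g + kq D o b c a f d e i g h + kq D o c b a f e d i h g) := by
  have h1 := all3_spec (all3_spec (all3_spec (all3_spec (all3_spec (all3_spec
      (all3_spec (all3_spec (all3_spec hB a) b) c) d) e) f) g) h) i
  rw [Nat.beq_eq] at h1
  simp only [Nat.add_eq, Nat.mul_eq] at h1
  have h2 : (fB tb a b c d e f g h i : ℤ) + (ko OFF a b c + (ko OFF b a c + (ko OFF a c b +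
      (ko OFF c a b + (ko OFF b c a + ko OFF c b a))))) =
      OFF + Q * (ph w0 w1 a b c d e f + ph w0 w1 a b c g h i) + (kb D.gb a b c d e f g h i +
        (kb D.gb b a c d f e g i h + (kb D.gb a c b e d f h g i + (kb D.gb c a b e f d h i g +
          (kb D.gb b c a f d e i g h + kb D.gb c b a f e d i h g))))) := by
    exact_mod_cast h1
  rw [kb_eq hG, kb_eq hG, kb_eq hG, kb_eq hG, kb_eq hG, kb_eq hG] at h2
  linarith

variable {V : Type*} [Fintype V]

theorem kq_nonneg (D : BData) (o : ℕ) (a b c : ℕ) (d e f : V → ℕ) :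
    0 ≤ ∑ x, ∑ y, kq D o a b c (d x) (e x) (f x) (d y) (e y) (f y) := by
  unfold kq
  cases srt a b c with
  | false => simp
  | true =>
    simp only [cond_true]
    exact gram_nonneg univ (fun x => d3 (d x) (e x) (f x)) _ o _

end Pool.Agent.C44
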