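import Pool.Agent.C44.CISem
import Pool.Agent.C44.Gen5
import Pool.Agent.C44.Gram

/-!
# The function `E` of the cell certificates

Five points with labels `0` (in `A`) and `1` (outside), pair colours `0, 1, 2` (`0` inside `A`).
`E` is a sum of table look-ups:
* `pU`: four points and a fifth one: the values of the 4-tuples, the size of `A`, `Phi`, local optimality,
* `pT`: squares with three roots,
* `pF`: squares with one root,
* `pW`: one root, global minimality of `A`.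
-/

set_option autoImplicit false

open Finset

namespace Pool.Agent.C44.CI

/-- element of a list -/
noncomputable def nt (l : List ℕ) : ℕ → ℕ := List.rec (fun _ => 0) (fun a _ ih i => Nat.rec a (fun n _ => ih n) i) l

/-- element of a list of lists of lists -/
noncomputable def nt3 (l : List (List (List ℕ))) : ℕ → List (List ℕ) :=
  List.rec (fun _ => []) (fun a _ ih i => Nat.rec a (fun n _ => ih n) i) l

/-- the offset `2^47` -/
def OFF : ℕ := 140737488355328

/-- field number `i` (8 bits) -/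
def lk8 (T i : ℕ) : ℕ := Nat.land (Nat.shiftRight T (Nat.mul 8 i)) 255

/-- field number `i` (12 bits) -/
def lk12 (T i : ℕ) : ℕ := Nat.land (Nat.shiftRight T (Nat.mul 12 i)) 4095

/-- field number `i` (32 bits) -/
def lk32 (T i : ℕ) : ℕ := Nat.land (Nat.shiftRight T (Nat.mul 32 i)) 4294967295

/-- the recolouring coded by the byte `q` -/
def rb (q l : ℕ) : ℕ := Nat.land (Nat.shiftRight q (Nat.mul 2 l)) 3

/-- code of a flag with three roots -/
def fl (q l x y z : ℕ) : ℕ := Nat.add (cond (Nat.beq l 0) 27 0) (d3 (rb q x) (rb q y) (rb q z))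

/-- table with rows of length `n`, eight rows in one number -/
noncomputable def ent (rows : List ℕ) (n f g : ℕ) : ℕ :=
  lk (nt rows (Nat.shiftRight f 3)) (Nat.add (Nat.mul (Nat.land f 7) n) g)

/-- parts of the index of three points -/
def fF (x : ℕ) : ℕ := Nat.land x 255
def fT (x : ℕ) : ℕ := Nat.land (Nat.shiftRight x 8) 255
def fQ (x : ℕ) : ℕ := Nat.land (Nat.shiftRight x 16) 255
def fS (x : ℕ) : ℕ := Nat.shiftRight x 24

/-- certificate data -/
structure CD where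
  /-- index of three points, by labels -/
  c3 : ℕ → ℕ → ℕ → ℕ
  /-- class of four points, by labels -/
  c4 : ℕ → ℕ → ℕ → ℕ → ℕ
  /-- values for the classes with label 0 (1) at the root -/
  uA : List ℕ
  uD : List ℕ
  /-- tables for three roots -/
  t3 : List (List ℕ)
  /-- sizes of the tables for three roots -/
  sz : ℕ
  /-- tables for one root -/
  tA : List ℕ
  tD : List ℕ
  /-- table for global minimality -/
  w : List ℕ
  /-- number of classes with root label 0 (1) -/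
  nA : ℕ
  nD : ℕ
  /-- multipliers of the classes -/
  mA : List ℕ
  mD : List ℕ
  /-- values of the classes -/
  vA : ℕ
  vD : ℕ
  /-- multipliers of `Phi` -/
  cm : ℕ → ℕ → ℕ → ℕ
  Lam : ℕ
  td : ℕ
  tn : ℕ
  an : ℕ
  ad : ℕ
  bn : ℕ
  bd : ℕ
  vW : ℕ
  vS : ℕ
  vQ : ℕ
  /-- number of types with three roots -/
  NT : ℕ
  /-- number of multipliers of global minimality plus one, the multipliers, the set -/
  NS : ℕ
  sm : ℕ
  ts : ℕ → ℕ → Bool
  /-- columns of the squares -/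
  o : ℕ
  w3 : List (List ℕ)
  g3 : List (List (List ℕ))
  oA : ℕ
  dA : ℕ
  wA : List ℕ
  gA : List (List ℕ)
  oD : ℕ
  dD : ℕ
  wD : List ℕ
  gD : List (List ℕ)

/-- class of four points given -/
noncomputable def pU1 (us : List ℕ) (i ps : ℕ) : ℕ :=
  lk (nt us (Nat.shiftRight i 6)) (Nat.add (Nat.mul (Nat.land i 63) 6) ps)

/-- class of four points -/
def i4 (D : CD) (l0 l1 l2 l3 k01 k02 k12 k03 k13 k23 : ℕ) : ℕ :=
  lk12 (D.c4 l0 l1 l2 l3) (d6 k01 k02 k12 k03 k13 k23)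

/-- four points and a fifth one -/
noncomputable def pU (D : CD) (l0 l1 l2 l3 k01 k02 k12 k03 k13 k23 l4 k04 : ℕ) : ℕ :=
  cond (Nat.beq l0 0) (pU1 D.uA (i4 D l0 l1 l2 l3 k01 k02 k12 k03 k13 k23) (Nat.add (Nat.mul 3 l4) k04))
    (pU1 D.uD (i4 D l0 l1 l2 l3 k01 k02 k12 k03 k13 k23) (Nat.add (Nat.mul 3 l4) k04))

/-- index of three points -/
def x3 (D : CD) (l0 l1 l2 k01 k02 k12 : ℕ) : ℕ := lk32 (D.c3 l0 l1 l2) (d3 k01 k02 k12)

/-- three roots, type and recolouring given -/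
noncomputable def pT (D : CD) (t q l3 k03 k13 k23 l4 k04 k14 k24 : ℕ) : ℕ :=
  cond (Nat.beq t 0) OFF (ent (nth D.t3 t) (lk8 D.sz t) (fl q l3 k03 k13 k23) (fl q l4 k04 k14 k24))

/-- one root, first flag given -/
noncomputable def pF1 (D : CD) (l0 f g : ℕ) : ℕ :=
  cond (Nat.beq g 0) OFF (cond (Nat.beq l0 0) (ent D.tA 29 f g) (ent D.tD 52 f g))

/-- one root -/
noncomputable def pF (D : CD) (l0 f l3 l4 k03 k04 k34 : ℕ) : ℕ :=
  cond (Nat.beq f 0) OFF (pF1 D l0 f (fF (x3 D l0 l3 l4 k03 k04 k34)))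

/-- code of two points over a root -/
def c5 (l3 k03 l4 k04 k34 : ℕ) : ℕ :=
  Nat.add (Nat.mul (Nat.add (Nat.mul (Nat.add (Nat.mul (Nat.add (Nat.mul l3 3) k03) 2) l4) 3) k04) 3) k34

/-- global minimality -/
noncomputable def pW (D : CD) (s l3 k03 l4 k04 k34 : ℕ) : ℕ :=
  cond (Nat.beq s 0) OFF (lk (nt D.w (Nat.shiftRight s 2)) (Nat.add (Nat.mul (Nat.land s 3) 108) (c5 l3 k03 l4 k04 k34)))

/-- the parts which use the index of the first three points -/
noncomputable def pZ (D : CD) (x l0 l3 k03 k13 k23 l4 k04 k14 k24 k34 : ℕ) : ℕ :=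
  Nat.add (pT D (fT x) (fQ x) l3 k03 k13 k23 l4 k04 k14 k24)
    (Nat.add (pF D l0 (fF x) l3 l4 k03 k04 k34) (pW D (fS x) l3 k03 l4 k04 k34))

/-- the function to be summed -/
noncomputable def E (D : CD) (l0 l1 l2 l3 k01 k02 k12 k03 k13 k23 l4 k04 k14 k24 k34 : ℕ) : ℕ :=
  Nat.add (pU D l0 l1 l2 l3 k01 k02 k12 k03 k13 k23 l4 k04)
    (pZ D (x3 D l0 l1 l2 k01 k02 k12) l0 l3 k03 k13 k23 l4 k04 k14 k24 k34)

/-- colour 0 inside `A` -/
def aa (l m k : ℕ) : Bool := cond (Nat.beq (Nat.add l m) 0) (Nat.beq k 0) true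

def adm4 (l0 l1 l2 l3 k01 k02 k12 k03 k13 k23 : ℕ) : Bool :=
  and (aa l0 l1 k01) (and (aa l0 l2 k02) (and (aa l1 l2 k12) (and (aa l0 l3 k03) (and (aa l1 l3 k13) (aa l2 l3 k23)))))

def adm (l0 l1 l2 l3 k01 k02 k12 k03 k13 k23 l4 k04 k14 k24 k34 : ℕ) : Bool :=
  and (adm4 l0 l1 l2 l3 k01 k02 k12 k03 k13 k23)
    (and (aa l0 l4 k04) (and (aa l1 l4 k14) (and (aa l2 l4 k24) (aa l3 l4 k34))))

/-! ### the checks -/

/-- multiplier number `j` of class `i` -/
noncomputable def ml (ms : List ℕ) (j i : ℕ) : ℕ := lk (nt ms j) i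

/-- classes of four points: root label `l0`, number `N` of classes, values `v`, multipliers `ms` -/
noncomputable def chkV (D : CD) (l0 N v : ℕ) (ms : List ℕ) : Bool :=
  G.allB 2 fun l1 => G.allB 2 fun l2 => G.allB 2 fun l3 =>
  G.allB 3 fun k01 => G.allB 3 fun k02 => G.allB 3 fun k12 =>
  G.allB 3 fun k03 => G.allB 3 fun k13 => G.allB 3 fun k23 =>
    cond (adm4 l0 l1 l2 l3 k01 k02 k12 k03 k13 k23)
      (and (Nat.blt (i4 D l0 l1 l2 l3 k01 k02 k12 k03 k13 k23) N)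
        (and (Nat.beq (v4 D.vW D.vS D.vQ l0 l1 l2 l3 k01 k02 k12 k03 k13 k23)
            (lk12 v (i4 D l0 l1 l2 l3 k01 k02 k12 k03 k13 k23)))
          (Nat.beq (ml ms 2 (i4 D l0 l1 l2 l3 k01 k02 k12 k03 k13 k23)) (lk (D.cm l1 l2 l3) (d3 k12 k13 k23))))) true

/-- local optimality plus 13 -/
def lo13 (lv ly k : ℕ) : ℕ :=
  cond (Nat.beq lv 0) (cond (Nat.beq ly 0) 24 (cond (Nat.beq k 0) 16 0))
    (cond (Nat.beq ly 0) (cond (Nat.beq k 0) 14 2) (cond (Nat.beq k 0) 10 26))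

/-- the table of the classes -/
noncomputable def chkU (D : CD) (l0 N v : ℕ) (us ms : List ℕ) : Bool :=
  G.allB N fun i => G.allB 2 fun l4 => G.allB 3 fun k04 =>
    Nat.beq
      (Nat.add (pU1 us i (Nat.add (Nat.mul 3 l4) k04))
        (Nat.add (Nat.mul D.Lam D.tn) (Nat.add (Nat.mul (ml ms 0 i) D.an)
          (Nat.add (cond (Nat.beq l4 0) (Nat.mul (ml ms 1 i) D.bd) 0)
            (Nat.add (Nat.mul (ml ms 2 i) (Nat.mul 25 (om l0 l4 k04))) (Nat.mul 13 (ml ms 3 i)))))))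
      (Nat.add OFF (Nat.add (Nat.mul D.Lam (Nat.mul D.td (lk12 v i)))
        (Nat.add (cond (Nat.beq l4 0) (Nat.mul (ml ms 0 i) D.ad) 0)
          (Nat.add (Nat.mul (ml ms 1 i) D.bn)
            (Nat.add (Nat.mul 12 (ml ms 2 i)) (Nat.mul (ml ms 3 i) (lo13 l0 l4 k04)))))))

/-- the indices of three points -/
noncomputable def chkX (D : CD) : Bool :=
  G.allB 2 fun l0 => G.allB 2 fun l1 => G.allB 2 fun l2 =>
  G.allB 3 fun k01 => G.allB 3 fun k02 => G.allB 3 fun k12 =>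
    and (Nat.blt (fS (x3 D l0 l1 l2 k01 k02 k12)) D.NS)
      (and (Nat.blt (fF (x3 D l0 l1 l2 k01 k02 k12)) (cond (Nat.beq l0 0) 29 52))
        (and (Nat.ble (fT (x3 D l0 l1 l2 k01 k02 k12)) D.NT)
          (cond (Nat.beq (fT (x3 D l0 l1 l2 k01 k02 k12)) 0) true
            (G.allB 2 fun l3 => G.allB 3 fun k03 => G.allB 3 fun k13 => G.allB 3 fun k23 =>
              cond (and (aa l0 l3 k03) (and (aa l1 l3 k13) (aa l2 l3 k23)))
                (Nat.blt (fl (fQ (x3 D l0 l1 l2 k01 k02 k12)) l3 k03 k13 k23)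
                  (lk8 D.sz (fT (x3 D l0 l1 l2 k01 k02 k12)))) true))))

/-- price difference plus 7 -/
def ds7 (t : ℕ → ℕ → Bool) (lx ly kvx kvy kxy : ℕ) : ℕ :=
  Nat.add (prs (t lx kvx) (t ly kvy) lx ly kxy) (Nat.add (cond (t lx kvx) 1 0) (Nat.sub 7 (om lx ly kxy)))

/-- the table of global minimality -/
noncomputable def chkW (D : CD) : Bool :=
  G.allB D.NS fun s => G.allB 2 fun l3 => G.allB 3 fun k03 => G.allB 2 fun l4 => G.allB 3 fun k04 => G.allB 3 fun k34 =>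
    cond (Nat.beq s 0) true
      (Nat.beq (Nat.add (pW D s l3 k03 l4 k04 k34) (Nat.mul 7 (lk D.sm s)))
        (Nat.add OFF (Nat.mul (lk D.sm s) (ds7 D.ts l3 l4 k03 k04 k34))))

/-- a table is offset plus Gram matrix divided by `den` -/
noncomputable def chkP (rows : List ℕ) (n den o : ℕ) (W : List ℕ) (C : List (List ℕ)) : Bool :=
  G.allB n fun f => G.allB n fun g =>
    Nat.beq (Nat.add (Nat.mul den (ent rows n f g)) (Nat.mul o (Nat.add (ws W (nth C f)) (ws W (nth C g)))))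
      (Nat.add (Nat.add (Nat.mul den OFF) (Nat.mul (Nat.mul o o) (wt W))) (wd W (nth C f) (nth C g)))

/-- the table number `t` for three roots -/
noncomputable def chkT (D : CD) (t : ℕ) : Bool :=
  chkP (nth D.t3 t) (lk8 D.sz t) 1 D.o (nth D.w3 t) (nt3 D.g3 t)

/-- all checks -/
structure Checked (D : CD) : Prop where
  V0 : chkV D 0 D.nA D.vA D.mA = true
  V1 : chkV D 1 D.nD D.vD D.mD = true
  U0 : chkU D 0 D.nA D.vA D.uA D.mA = true
  U1 : chkU D 1 D.nD D.vD D.uD D.mD = true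
  X : chkX D = true
  W : chkW D = true
  T : ∀ t, t ≠ 0 → t ≤ D.NT → chkT D t = true
  A : chkP D.tA 29 D.dA D.oA D.wA D.gA = true
  Dd : chkP D.tD 52 D.dD D.oD D.wD D.gD = true
  dA : 0 < D.dA
  dD : 0 < D.dD
  all : G.chk 2 3 adm4 adm (E D) (480 * OFF) = true

end Pool.Agent.C44.CI
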