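import Pool.Agent.C44.CIE

/-!
# The cell theorem

A checked certificate makes the cell impossible.
-/

set_option autoImplicit false

open Finset

namespace Pool.Agent.C44.CI

/-! ### reading the checks -/

lemma chkP_spec {rows : List ℕ} {m den o : ℕ} {W : List ℕ} {C : List (List ℕ)}
    (h : chkP rows m den o W C = true) {f g : ℕ} (hf : f < m) (hg : g < m) :
    (den : ℤ) * ((ent rows m f g : ℤ) - OFF) = gram W o C f g := by
  have h1 := G.allB_spec (G.allB_spec h hf) hg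
  rw [Nat.beq_eq] at h1
  simp only [Nat.add_eq, Nat.mul_eq] at h1
  rw [gram_eq]
  have h' : (den : ℤ) * (ent rows m f g : ℤ) + o * (ws W (nth C f) + ws W (nth C g)) =
      den * OFF + o * o * wt W + wd W (nth C f) (nth C g) := by
    exact_mod_cast h1
  linarith

lemma aa_of {p q r : ℕ} (h : p = 0 → q = 0 → r = 0) : aa p q r = true := by
  unfold aa
  cases hb : Nat.beq (Nat.add p q) 0 with
  | false => rfl
  | true =>
    have h0 : Nat.add p q = 0 := Nat.eq_of_beq_eq_true hb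
    rw [Nat.add_eq] at h0
    rw [h (by omega) (by omega)]
    rfl

lemma and_of {p q : Bool} (hp : p = true) (hq : q = true) : and p q = true := by
  rw [hp, hq]; rfl

lemma and_l {p q : Bool} (h : and p q = true) : p = true := by
  rw [Bool.and_eq_true] at h; exact h.1

lemma and_r {p q : Bool} (h : and p q = true) : q = true := by
  rw [Bool.and_eq_true] at h; exact h.2

lemma beq_zero_false {t : ℕ} (h : t ≠ 0) : Nat.beq t 0 = false := by
  cases hb : Nat.beq t 0 with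
  | false => rfl
  | true => exact absurd (Nat.eq_of_beq_eq_true hb) h

section spec

variable {D : CD} (hX : chkX D = true) {l0 l1 l2 k01 k02 k12 : ℕ} (h0 : l0 < 2) (h1 : l1 < 2) (h2 : l2 < 2)
  (h01 : k01 < 3) (h02 : k02 < 3) (h12 : k12 < 3)

include hX h0 h1 h2 h01 h02 h12

lemma X_all :
    and (Nat.blt (fS (x3 D l0 l1 l2 k01 k02 k12)) D.NS)
      (and (Nat.blt (fF (x3 D l0 l1 l2 k01 k02 k12)) (cond (Nat.beq l0 0) 29 52))
        (and (Nat.ble (fT (x3 D l0 l1 l2 k01 k02 k12)) D.NT)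
          (cond (Nat.beq (fT (x3 D l0 l1 l2 k01 k02 k12)) 0) true
            (G.allB 2 fun l3 => G.allB 3 fun k03 => G.allB 3 fun k13 => G.allB 3 fun k23 =>
              cond (and (aa l0 l3 k03) (and (aa l1 l3 k13) (aa l2 l3 k23)))
                (Nat.blt (fl (fQ (x3 D l0 l1 l2 k01 k02 k12)) l3 k03 k13 k23)
                  (lk8 D.sz (fT (x3 D l0 l1 l2 k01 k02 k12)))) true)))) = true :=
  G.allB_spec (G.allB_spec (G.allB_spec (G.allB_spec (G.allB_spec (G.allB_spec hX h0) h1) h2) h01) h02) h12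

lemma X_S : fS (x3 D l0 l1 l2 k01 k02 k12) < D.NS := by
  have h := and_l (X_all hX h0 h1 h2 h01 h02 h12)
  rwa [Nat.blt_eq] at h

lemma X_F : fF (x3 D l0 l1 l2 k01 k02 k12) < cond (Nat.beq l0 0) 29 52 := by
  have h := and_l (and_r (X_all hX h0 h1 h2 h01 h02 h12))
  rwa [Nat.blt_eq] at h

lemma X_T : fT (x3 D l0 l1 l2 k01 k02 k12) ≤ D.NT := by
  have h := and_l (and_r (and_r (X_all hX h0 h1 h2 h01 h02 h12)))
  exact Nat.le_of_ble_eq_true h

lemma X_fl (ht : fT (x3 D l0 l1 l2 k01 k02 k12) ≠ 0) {l3 k03 k13 k23 : ℕ} (h3 : l3 < 2) (h03 : k03 < 3)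
    (h13 : k13 < 3) (h23 : k23 < 3) (a0 : aa l0 l3 k03 = true) (a1 : aa l1 l3 k13 = true)
    (a2 : aa l2 l3 k23 = true) :
    fl (fQ (x3 D l0 l1 l2 k01 k02 k12)) l3 k03 k13 k23 < lk8 D.sz (fT (x3 D l0 l1 l2 k01 k02 k12)) := by
  have h := and_r (and_r (and_r (X_all hX h0 h1 h2 h01 h02 h12)))
  rw [beq_zero_false ht, cond_false] at h
  have h' := G.allB_spec (G.allB_spec (G.allB_spec (G.allB_spec h h3) h03) h13) h23
  rw [and_of a0 (and_of a1 a2), cond_true, Nat.blt_eq] at h'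
  exact h'

end spec

section W

variable {D : CD} (hW : chkW D = true)

lemma om_le (lx ly k : ℕ) : om lx ly k ≤ 7 := by
  unfold om; split_ifs <;> omega

lemma ds7_eq (t : ℕ → ℕ → Bool) (lx ly kvx kvy kxy : ℕ) :
    (ds7 t lx ly kvx kvy kxy : ℤ) = dst t lx ly kvx kvy kxy + 7 := by
  unfold ds7 dst
  have h := om_le lx ly kxy
  simp only [Nat.add_eq, Nat.sub_eq]
  push_cast [Nat.cast_sub h]
  cases t lx kvx <;> simp <;> ring

include hW in
lemma W_eq {s l3 k03 l4 k04 k34 : ℕ} (hs : s < D.NS) (hs0 : s ≠ 0) (h3 : l3 < 2) (h03 : k03 < 3) (h4 : l4 < 2)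
    (h04 : k04 < 3) (h34 : k34 < 3) :
    (pW D s l3 k03 l4 k04 k34 : ℤ) = OFF + (lk D.sm s : ℤ) * dst D.ts l3 l4 k03 k04 k34 := by
  have h := G.allB_spec (G.allB_spec (G.allB_spec (G.allB_spec (G.allB_spec (G.allB_spec hW hs) h3) h03) h4) h04) h34
  rw [beq_zero_false hs0, cond_false, Nat.beq_eq] at h
  simp only [Nat.add_eq, Nat.mul_eq] at h
  have h' : (pW D s l3 k03 l4 k04 k34 : ℤ) + 7 * lk D.sm s = OFF + lk D.sm s * ds7 D.ts l3 l4 k03 k04 k34 := by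
    exact_mod_cast h
  rw [ds7_eq] at h'
  linarith

end W

/-! ### the sums -/

section sums

variable {n : ℕ} {L : List (ℝ × ℝ)} {l : Fin n → ℕ} {k : Fin n → Fin n → ℕ} {D : CD}

/-- index of three vertices -/
noncomputable def XX (D : CD) (l : Fin n → ℕ) (k : Fin n → Fin n → ℕ) (a b c : Fin n) : ℕ :=
  x3 D (l a) (l b) (l c) (k a b) (k a c) (k b c)

lemma sum_T (hX : chkX D = true) (hT : ∀ t, t ≠ 0 → t ≤ D.NT → chkT D t = true) (hS : Sem n L l k)
    (a b c : Fin n) :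
    (n : ℤ) ^ 2 * OFF ≤ ∑ d, ∑ e, (pT D (fT (XX D l k a b c)) (fQ (XX D l k a b c)) (l d) (k a d) (k b d) (k c d)
      (l e) (k a e) (k b e) (k c e) : ℤ) := by
  by_cases ht : fT (XX D l k a b c) = 0
  · have : ∀ d e : Fin n, pT D (fT (XX D l k a b c)) (fQ (XX D l k a b c)) (l d) (k a d) (k b d) (k c d)
      (l e) (k a e) (k b e) (k c e) = OFF := by
      intro d e
      unfold pT
      rw [ht]; rfl
    simp only [this, Finset.sum_const, Finset.card_univ, Fintype.card_fin, nsmul_eq_mul]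
    rw [← mul_assoc, ← pow_two]
  · have hle := X_T hX (hS.l2 a) (hS.l2 b) (hS.l2 c) (hS.k3 a b) (hS.k3 a c) (hS.k3 b c)
    have hc := hT _ ht hle
    have hlt : ∀ d : Fin n, fl (fQ (XX D l k a b c)) (l d) (k a d) (k b d) (k c d)
        < lk8 D.sz (fT (XX D l k a b c)) := fun d =>
      X_fl hX (hS.l2 a) (hS.l2 b) (hS.l2 c) (hS.k3 a b) (hS.k3 a c) (hS.k3 b c) ht (hS.l2 d) (hS.k3 a d)
        (hS.k3 b d) (hS.k3 c d) (aa_of (hS.kA a d)) (aa_of (hS.kA b d)) (aa_of (hS.kA c d))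
    have he : ∀ d e : Fin n, (pT D (fT (XX D l k a b c)) (fQ (XX D l k a b c)) (l d) (k a d) (k b d) (k c d)
        (l e) (k a e) (k b e) (k c e) : ℤ) = OFF + gram (nth D.w3 (fT (XX D l k a b c))) D.o
          (nt3 D.g3 (fT (XX D l k a b c))) (fl (fQ (XX D l k a b c)) (l d) (k a d) (k b d) (k c d))
          (fl (fQ (XX D l k a b c)) (l e) (k a e) (k b e) (k c e)) := by
      intro d e
      have := chkP_spec hc (hlt d) (hlt e)
      unfold pT
      rw [beq_zero_false ht, cond_false]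
      push_cast at this
      linarith
    simp only [he, Finset.sum_add_distrib, Finset.sum_const, Finset.card_univ, Fintype.card_fin, nsmul_eq_mul]
    have h0 := gram_nonneg univ (fun d => fl (fQ (XX D l k a b c)) (l d) (k a d) (k b d) (k c d))
      (nth D.w3 (fT (XX D l k a b c))) D.o (nt3 D.g3 (fT (XX D l k a b c)))
    rw [← mul_assoc, ← pow_two]
    linarith

lemma sum_F (hX : chkX D = true) (hA : chkP D.tA 29 D.dA D.oA D.wA D.gA = true)
    (hDd : chkP D.tD 52 D.dD D.oD D.wD D.gD = true) (dA : 0 < D.dA) (dD : 0 < D.dD) (hS : Sem n L l k)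
    (a : Fin n) :
    (n : ℤ) ^ 4 * OFF ≤ ∑ b, ∑ c, ∑ d, ∑ e, (pF D (l a) (fF (XX D l k a b c)) (l d) (l e) (k a d) (k a e)
      (k d e) : ℤ) := by
  set φ : Fin n × Fin n → ℕ := fun p => fF (XX D l k a p.1 p.2) with hφ
  set s : Finset (Fin n × Fin n) := univ.filter (fun p => φ p ≠ 0) with hs
  have hlt : ∀ p, φ p < cond (Nat.beq (l a) 0) 29 52 := fun p =>
    X_F hX (hS.l2 a) (hS.l2 p.1) (hS.l2 p.2) (hS.k3 a p.1) (hS.k3 a p.2) (hS.k3 p.1 p.2)
  obtain ⟨den, hden, W, o, C, hpw⟩ : ∃ den : ℤ, 0 < den ∧ ∃ (W : List ℕ) (o : ℕ) (C : List (List ℕ)),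
      ∀ p q : Fin n × Fin n, den * ((pF D (l a) (φ p) (l q.1) (l q.2) (k a q.1) (k a q.2) (k q.1 q.2) : ℤ) - OFF)
        = if φ p ≠ 0 ∧ φ q ≠ 0 then gram W o C (φ p) (φ q) else 0 := by
    rcases Nat.lt_succ_iff_lt_or_eq.1 (hS.l2 a) with h | h
    · have hla : l a = 0 := by omega
      refine ⟨D.dA, by exact_mod_cast dA, D.wA, D.oA, D.gA, fun p q => ?_⟩
      have hp := hlt p
      have hq := hlt q
      rw [hla] at hp hq
      unfold pF pF1
      by_cases h1 : φ p = 0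
      · rw [h1]; simp
      · rw [beq_zero_false h1, cond_false]
        by_cases h2 : φ q = 0
        · have h2' : fF (x3 D (l a) (l q.1) (l q.2) (k a q.1) (k a q.2) (k q.1 q.2)) = 0 := h2
          rw [h2', if_neg (fun hh => hh.2 h2)]
          simp
        · have h2' : fF (x3 D (l a) (l q.1) (l q.2) (k a q.1) (k a q.2) (k q.1 q.2)) = φ q := rfl
          rw [h2', beq_zero_false h2, cond_false, if_pos ⟨h1, h2⟩, hla]
          exact chkP_spec hA hp hq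
    · have hla : l a = 1 := by omega
      refine ⟨D.dD, by exact_mod_cast dD, D.wD, D.oD, D.gD, fun p q => ?_⟩
      have hp := hlt p
      have hq := hlt q
      rw [hla] at hp hq
      unfold pF pF1
      by_cases h1 : φ p = 0
      · rw [h1]; simp
      · rw [beq_zero_false h1, cond_false]
        by_cases h2 : φ q = 0
        · have h2' : fF (x3 D (l a) (l q.1) (l q.2) (k a q.1) (k a q.2) (k q.1 q.2)) = 0 := h2
          rw [h2', if_neg (fun hh => hh.2 h2)]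
          simp
        · have h2' : fF (x3 D (l a) (l q.1) (l q.2) (k a q.1) (k a q.2) (k q.1 q.2)) = φ q := rfl
          rw [h2', beq_zero_false h2, cond_false, if_pos ⟨h1, h2⟩, hla]
          exact chkP_spec hDd hp hq
  have h1 : ∑ b, ∑ c, ∑ d, ∑ e, (pF D (l a) (fF (XX D l k a b c)) (l d) (l e) (k a d) (k a e) (k d e) : ℤ)
      = ∑ p : Fin n × Fin n, ∑ q : Fin n × Fin n,
        (pF D (l a) (φ p) (l q.1) (l q.2) (k a q.1) (k a q.2) (k q.1 q.2) : ℤ) := by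
    simp only [Fintype.sum_prod_type, hφ]
  rw [h1]
  have h2 : den * ((∑ p : Fin n × Fin n, ∑ q : Fin n × Fin n,
        (pF D (l a) (φ p) (l q.1) (l q.2) (k a q.1) (k a q.2) (k q.1 q.2) : ℤ)) - (n : ℤ) ^ 4 * OFF)
      = ∑ p : Fin n × Fin n, ∑ q : Fin n × Fin n, if φ p ≠ 0 ∧ φ q ≠ 0 then gram W o C (φ p) (φ q) else 0 := by
    have h3 : (n : ℤ) ^ 4 * OFF = ∑ _p : Fin n × Fin n, ∑ _q : Fin n × Fin n, (OFF : ℤ) := by
      simp only [Finset.sum_const, Finset.card_univ, Fintype.card_prod, Fintype.card_fin, nsmul_eq_mul]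
      push_cast
      ring
    rw [h3, ← Finset.sum_sub_distrib, Finset.mul_sum]
    refine Finset.sum_congr rfl (fun p _ => ?_)
    rw [← Finset.sum_sub_distrib, Finset.mul_sum]
    exact Finset.sum_congr rfl (fun q _ => hpw p q)
  have h4 : (∑ p : Fin n × Fin n, ∑ q : Fin n × Fin n, if φ p ≠ 0 ∧ φ q ≠ 0 then gram W o C (φ p) (φ q) else 0)
      = ∑ p ∈ s, ∑ q ∈ s, gram W o C (φ p) (φ q) := by
    rw [hs, Finset.sum_filter]
    refine Finset.sum_congr rfl (fun p _ => ?_)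
    by_cases hp : φ p ≠ 0
    · rw [if_pos hp, Finset.sum_filter]
      refine Finset.sum_congr rfl (fun q _ => ?_)
      by_cases hq : φ q ≠ 0
      · rw [if_pos ⟨hp, hq⟩, if_pos hq]
      · rw [if_neg (fun hh => hq hh.2), if_neg hq]
    · rw [if_neg hp]
      refine Finset.sum_eq_zero (fun q _ => ?_)
      rw [if_neg (fun hh => hp hh.1)]
  have h5 := gram_nonneg s φ W o C
  rw [h4] at h2
  rw [← h2] at h5
  have h6 := nonneg_of_mul_nonneg_right h5 hden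
  linarith

lemma sum_W (hX : chkX D = true) (hW : chkW D = true) (hS : Sem n L l k) (a b c : Fin n) :
    (n : ℤ) ^ 2 * OFF ≤ ∑ d, ∑ e, (pW D (fS (XX D l k a b c)) (l d) (k a d) (l e) (k a e) (k d e) : ℤ) := by
  have hlt := X_S hX (hS.l2 a) (hS.l2 b) (hS.l2 c) (hS.k3 a b) (hS.k3 a c) (hS.k3 b c)
  by_cases hs : fS (XX D l k a b c) = 0
  · have : ∀ d e : Fin n, pW D (fS (XX D l k a b c)) (l d) (k a d) (l e) (k a e) (k d e) = OFF := by
      intro d e
      unfold pW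
      rw [hs]; rfl
    simp only [this, Finset.sum_const, Finset.card_univ, Fintype.card_fin, nsmul_eq_mul]
    rw [← mul_assoc, ← pow_two]
  · have he : ∀ d e : Fin n, (pW D (fS (XX D l k a b c)) (l d) (k a d) (l e) (k a e) (k d e) : ℤ)
        = OFF + (lk D.sm (fS (XX D l k a b c)) : ℤ) * dst D.ts (l d) (l e) (k a d) (k a e) (k d e) :=
      fun d e => W_eq hW hlt hs (hS.l2 d) (hS.k3 a d) (hS.l2 e) (hS.k3 a e) (hS.k3 d e)
    simp only [he, Finset.sum_add_distrib, Finset.sum_const, Finset.card_univ, Fintype.card_fin, nsmul_eq_mul,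
      ← Finset.mul_sum]
    have h1 := hS.hmin D.ts a
    have h2 : (0 : ℤ) ≤ ∑ d, ∑ e, dst D.ts (l d) (l e) (k a d) (k a e) (k d e) := by
      exact_mod_cast h1
    have h3 : (0 : ℤ) ≤ (lk D.sm (fS (XX D l k a b c)) : ℤ) *
        ∑ d, ∑ e, dst D.ts (l d) (l e) (k a d) (k a e) (k d e) := mul_nonneg (Int.natCast_nonneg _) h2
    rw [← mul_assoc, ← pow_two]
    linarith

end sums

/-! ### the part with four points and a fifth one -/

lemma lo13_eq (lv ly k : ℕ) : (lo13 lv ly k : ℝ) = (lo lv ly k : ℝ) + 13 := by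
  have hz : Nat.beq 0 0 = true := rfl
  unfold lo13 lo
  by_cases h1 : lv = 0 <;> by_cases h2 : ly = 0 <;> by_cases h3 : k = 0
  · subst h1 h2 h3; rw [hz]; simp; norm_num
  · subst h1 h2; rw [hz]; simp; norm_num
  · subst h1 h3; rw [hz, beq_zero_false h2]; simp [h2]; norm_num
  · subst h1; rw [hz, beq_zero_false h2, beq_zero_false h3]; simp [h2, h3]
  · subst h2 h3; rw [hz, beq_zero_false h1]; simp [h1]; norm_num
  · subst h2; rw [hz, beq_zero_false h1, beq_zero_false h3]; simp [h1, h3]; norm_num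
  · subst h3; rw [hz, beq_zero_false h1, beq_zero_false h2]; simp [h1, h2]; norm_num
  · rw [beq_zero_false h1, beq_zero_false h2, beq_zero_false h3]; simp [h1, h2, h3]; norm_num

section U

variable {D : CD} {l0 N v : ℕ} {us ms : List ℕ} (hV : chkV D l0 N v ms = true) (hU : chkU D l0 N v us ms = true)
  {l1 l2 l3 k01 k02 k12 k03 k13 k23 : ℕ} (h1 : l1 < 2) (h2 : l2 < 2) (h3 : l3 < 2) (h01 : k01 < 3)
  (h02 : k02 < 3) (h12 : k12 < 3) (h03 : k03 < 3) (h13 : k13 < 3) (h23 : k23 < 3)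
  (ha : adm4 l0 l1 l2 l3 k01 k02 k12 k03 k13 k23 = true)

include hV h1 h2 h3 h01 h02 h12 h03 h13 h23 ha

lemma V_spec : i4 D l0 l1 l2 l3 k01 k02 k12 k03 k13 k23 < N ∧
    v4 D.vW D.vS D.vQ l0 l1 l2 l3 k01 k02 k12 k03 k13 k23 =
      lk12 v (i4 D l0 l1 l2 l3 k01 k02 k12 k03 k13 k23) ∧
    ml ms 2 (i4 D l0 l1 l2 l3 k01 k02 k12 k03 k13 k23) = lk (D.cm l1 l2 l3) (d3 k12 k13 k23) := by
  have h := G.allB_spec (G.allB_spec (G.allB_spec (G.allB_spec (G.allB_spec (G.allB_spec (G.allB_spec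
    (G.allB_spec (G.allB_spec hV h1) h2) h3) h01) h02) h12) h03) h13) h23
  rw [ha, cond_true] at h
  refine ⟨?_, ?_, ?_⟩
  · have := and_l h
    rwa [Nat.blt_eq] at this
  · have := and_l (and_r h)
    rwa [Nat.beq_eq] at this
  · have := and_r (and_r h)
    rwa [Nat.beq_eq] at this

include hU in
lemma U_spec {l4 k04 : ℕ} (h4 : l4 < 2) (h04 : k04 < 3) :
    (pU1 us (i4 D l0 l1 l2 l3 k01 k02 k12 k03 k13 k23) (Nat.add (Nat.mul 3 l4) k04) : ℝ)
      = OFF + D.Lam * (D.td * v4 D.vW D.vS D.vQ l0 l1 l2 l3 k01 k02 k12 k03 k13 k23 - D.tn)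
        + ml ms 0 (i4 D l0 l1 l2 l3 k01 k02 k12 k03 k13 k23) * (D.ad * (if l4 = 0 then 1 else 0) - D.an)
        + ml ms 1 (i4 D l0 l1 l2 l3 k01 k02 k12 k03 k13 k23) * (D.bn - D.bd * (if l4 = 0 then 1 else 0))
        + lk (D.cm l1 l2 l3) (d3 k12 k13 k23) * (12 - 25 * om l0 l4 k04)
        + ml ms 3 (i4 D l0 l1 l2 l3 k01 k02 k12 k03 k13 k23) * lo l0 l4 k04 := by
  obtain ⟨hi, hv, hm⟩ := V_spec hV h1 h2 h3 h01 h02 h12 h03 h13 h23 ha
  set i := i4 D l0 l1 l2 l3 k01 k02 k12 k03 k13 k23 with hidef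
  have h := G.allB_spec (G.allB_spec (G.allB_spec hU hi) h4) h04
  rw [Nat.beq_eq] at h
  simp only [Nat.add_eq, Nat.mul_eq] at h
  rw [← hm, hv]
  have hl := lo13_eq l0 l4 k04
  rcases Nat.eq_zero_or_pos l4 with h5 | h5
  · subst h5
    have hb : Nat.beq 0 0 = true := rfl
    rw [hb, cond_true, cond_true] at h
    have h' : (pU1 us i (3 * 0 + k04) : ℝ) + ((D.Lam : ℝ) * D.tn + ((ml ms 0 i : ℝ) * D.an + ((ml ms 1 i : ℝ) * D.bd
        + ((ml ms 2 i : ℝ) * (25 * om l0 0 k04) + 13 * ml ms 3 i))))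
        = OFF + ((D.Lam : ℝ) * (D.td * lk12 v i) + ((ml ms 0 i : ℝ) * D.ad + ((ml ms 1 i : ℝ) * D.bn
        + (12 * (ml ms 2 i : ℝ) + (ml ms 3 i : ℝ) * lo13 l0 0 k04)))) := by
      exact_mod_cast h
    rw [hl] at h'
    simp only [Nat.add_eq, Nat.mul_eq, if_true]
    linarith
  · rw [beq_zero_false (by omega : l4 ≠ 0), cond_false, cond_false] at h
    have h' : (pU1 us i (3 * l4 + k04) : ℝ) + ((D.Lam : ℝ) * D.tn + ((ml ms 0 i : ℝ) * D.an + (0
        + ((ml ms 2 i : ℝ) * (25 * om l0 l4 k04) + 13 * ml ms 3 i))))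
        = OFF + ((D.Lam : ℝ) * (D.td * lk12 v i) + (0 + ((ml ms 1 i : ℝ) * D.bn
        + (12 * (ml ms 2 i : ℝ) + (ml ms 3 i : ℝ) * lo13 l0 l4 k04)))) := by
      exact_mod_cast h
    rw [hl] at h'
    simp only [Nat.add_eq, Nat.mul_eq, if_neg (by omega : ¬ l4 = 0)]
    linarith

end U

section final

variable {n : ℕ} {L : List (ℝ × ℝ)} {l : Fin n → ℕ} {k : Fin n → Fin n → ℕ} {D : CD}

lemma adm4_of (hS : Sem n L l k) (a b c d : Fin n) :
    adm4 (l a) (l b) (l c) (l d) (k a b) (k a c) (k b c) (k a d) (k b d) (k c d) = true :=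
  and_of (aa_of (hS.kA a b)) (and_of (aa_of (hS.kA a c)) (and_of (aa_of (hS.kA b c)) (and_of (aa_of (hS.kA a d))
    (and_of (aa_of (hS.kA b d)) (aa_of (hS.kA c d))))))

/-- the part `pU` for the first root -/
lemma exU (h : Checked D) (hS : Sem n L l k) (a : Fin n) : ∃ M : ℕ → Fin n → Fin n → Fin n → ℕ,
    ∀ b c d e : Fin n,
    (pU D (l a) (l b) (l c) (l d) (k a b) (k a c) (k b c) (k a d) (k b d) (k c d) (l e) (k a e) : ℝ)
      = OFF + D.Lam * (D.td * v4 D.vW D.vS D.vQ (l a) (l b) (l c) (l d) (k a b) (k a c) (k b c) (k a d) (k b d)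
          (k c d) - D.tn)
        + M 0 b c d * (D.ad * (if l e = 0 then 1 else 0) - D.an)
        + M 1 b c d * (D.bn - D.bd * (if l e = 0 then 1 else 0))
        + lk (D.cm (l b) (l c) (l d)) (d3 (k b c) (k b d) (k c d)) * (12 - 25 * om (l a) (l e) (k a e))
        + M 3 b c d * lo (l a) (l e) (k a e) := by
  rcases Nat.lt_succ_iff_lt_or_eq.1 (hS.l2 a) with h0 | h0
  · have hla : l a = 0 := by omega
    refine ⟨fun j b c d => ml D.mA j (i4 D (l a) (l b) (l c) (l d) (k a b) (k a c) (k b c) (k a d) (k b d) (k c d)),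
      fun b c d e => ?_⟩
    have hadm := adm4_of hS a b c d
    rw [hla] at hadm
    unfold pU
    rw [hla]
    exact U_spec h.V0 h.U0 (hS.l2 b) (hS.l2 c) (hS.l2 d) (hS.k3 a b) (hS.k3 a c) (hS.k3 b c) (hS.k3 a d)
      (hS.k3 b d) (hS.k3 c d) hadm (hS.l2 e) (hS.k3 a e)
  · have hla : l a = 1 := by omega
    refine ⟨fun j b c d => ml D.mD j (i4 D (l a) (l b) (l c) (l d) (k a b) (k a c) (k b c) (k a d) (k b d) (k c d)),
      fun b c d e => ?_⟩
    have hadm := adm4_of hS a b c d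
    rw [hla] at hadm
    unfold pU
    rw [hla]
    exact U_spec h.V1 h.U1 (hS.l2 b) (hS.l2 c) (hS.l2 d) (hS.k3 a b) (hS.k3 a c) (hS.k3 b c) (hS.k3 a d)
      (hS.k3 b d) (hS.k3 c d) hadm (hS.l2 e) (hS.k3 a e)

/-- the sum of `pU` over the last point -/
lemma sumU_e (h : Checked D) (hS : Sem n L l k) (hα : (D.an : ℝ) * n ≤ D.ad * ∑ x, (if l x = 0 then 1 else 0 : ℝ))
    (hβ : (D.bd : ℝ) * ∑ x, (if l x = 0 then 1 else 0 : ℝ) ≤ D.bn * n) (a b c d : Fin n) :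
    (n : ℝ) * OFF + D.Lam * n * (D.td * v4 D.vW D.vS D.vQ (l a) (l b) (l c) (l d) (k a b) (k a c) (k b c) (k a d)
          (k b d) (k c d) - D.tn)
      + lk (D.cm (l b) (l c) (l d)) (d3 (k b c) (k b d) (k c d)) *
        (12 * n - 25 * ∑ e, (om (l a) (l e) (k a e) : ℝ))
    ≤ ∑ e, (pU D (l a) (l b) (l c) (l d) (k a b) (k a c) (k b c) (k a d) (k b d) (k c d) (l e) (k a e) : ℝ) := by
  obtain ⟨M, hM⟩ := exU h hS a
  simp only [hM b c d, Finset.sum_add_distrib, ← Finset.mul_sum, Finset.sum_sub_distrib, Finset.sum_const,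
    Finset.card_univ, Fintype.card_fin, nsmul_eq_mul]
  have h1 : (0 : ℝ) ≤ M 0 b c d * (D.ad * ∑ x, (if l x = 0 then 1 else 0 : ℝ) - n * D.an) :=
    mul_nonneg (Nat.cast_nonneg _) (by linarith)
  have h2 : (0 : ℝ) ≤ M 1 b c d * (n * D.bn - D.bd * ∑ x, (if l x = 0 then 1 else 0 : ℝ)) :=
    mul_nonneg (Nat.cast_nonneg _) (by linarith)
  have h3 : (0 : ℝ) ≤ M 3 b c d * ∑ e, (lo (l a) (l e) (k a e) : ℝ) :=
    mul_nonneg (Nat.cast_nonneg _) (hS.loc a)
  nlinarith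

/-- the sum of `pU` -/
lemma sum_U (h : Checked D) (hS : Sem n L l k) (hα : (D.an : ℝ) * n ≤ D.ad * ∑ x, (if l x = 0 then 1 else 0 : ℝ))
    (hβ : (D.bd : ℝ) * ∑ x, (if l x = 0 then 1 else 0 : ℝ) ≤ D.bn * n) (hLam : 0 < D.Lam)
    (hv : (D.tn : ℝ) * n ^ 4 < D.td * ∑ a, ∑ b, ∑ c, ∑ d,
      (v4 D.vW D.vS D.vQ (l a) (l b) (l c) (l d) (k a b) (k a c) (k b c) (k a d) (k b d) (k c d) : ℝ)) :
    (n : ℝ) ^ 5 * OFF < ∑ a, ∑ b, ∑ c, ∑ d, ∑ e,
      (pU D (l a) (l b) (l c) (l d) (k a b) (k a c) (k b c) (k a d) (k b d) (k c d) (l e) (k a e) : ℝ) := by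
  have hn : (0 : ℝ) < n := by exact_mod_cast hS.pos
  have hL : (0 : ℝ) < D.Lam := by exact_mod_cast hLam
  set G : Fin n → ℝ := fun a => 12 * n - 25 * ∑ e, (om (l a) (l e) (k a e) : ℝ) with hG
  set C : Fin n → Fin n → Fin n → ℝ := fun b c d => (lk (D.cm (l b) (l c) (l d)) (d3 (k b c) (k b d) (k c d)) : ℝ)
    with hC
  set Wv : Fin n → Fin n → Fin n → Fin n → ℝ := fun a b c d =>
    (v4 D.vW D.vS D.vQ (l a) (l b) (l c) (l d) (k a b) (k a c) (k b c) (k a d) (k b d) (k c d) : ℝ) with hWv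
  have h1 : ∑ a, ∑ b, ∑ c, ∑ d, ((n : ℝ) * OFF + D.Lam * n * (D.td * Wv a b c d - D.tn) + C b c d * G a)
      ≤ ∑ a, ∑ b, ∑ c, ∑ d, ∑ e,
      (pU D (l a) (l b) (l c) (l d) (k a b) (k a c) (k b c) (k a d) (k b d) (k c d) (l e) (k a e) : ℝ) :=
    Finset.sum_le_sum (fun a _ => Finset.sum_le_sum (fun b _ => Finset.sum_le_sum (fun c _ =>
      Finset.sum_le_sum (fun d _ => sumU_e h hS hα hβ a b c d))))
  have h2 : ∑ a, ∑ b, ∑ c, ∑ d, ((n : ℝ) * OFF + D.Lam * n * (D.td * Wv a b c d - D.tn) + C b c d * G a)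
      = (n : ℝ) ^ 5 * OFF + D.Lam * n * (D.td * (∑ a, ∑ b, ∑ c, ∑ d, Wv a b c d) - n ^ 4 * D.tn)
        + (∑ b, ∑ c, ∑ d, C b c d) * ∑ a, G a := by
    have e1 : ∑ a, ∑ b, ∑ c, ∑ d, C b c d * G a = (∑ b, ∑ c, ∑ d, C b c d) * ∑ a, G a := by
      rw [Finset.mul_sum]
      refine Finset.sum_congr rfl (fun a _ => ?_)
      simp only [Finset.sum_mul]
    simp only [Finset.sum_add_distrib]
    rw [e1]
    simp only [← Finset.mul_sum, Finset.sum_sub_distrib, Finset.sum_const, Finset.card_univ, Fintype.card_fin,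
      nsmul_eq_mul]
    ring
  have h3 : 0 ≤ ∑ a, G a := by
    have := hS.phi
    have e2 : ∑ a, G a = 12 * (n : ℝ) ^ 2 - 25 * ∑ a, ∑ e, (om (l a) (l e) (k a e) : ℝ) := by
      rw [hG]
      simp only [Finset.sum_sub_distrib, Finset.sum_const, Finset.card_univ, Fintype.card_fin, nsmul_eq_mul,
        ← Finset.mul_sum]
      ring
    rw [e2]
    linarith
  have h4 : 0 ≤ ∑ b, ∑ c, ∑ d, C b c d :=
    Finset.sum_nonneg (fun b _ => Finset.sum_nonneg (fun c _ => Finset.sum_nonneg (fun d _ =>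
      Nat.cast_nonneg _)))
  have h5 := mul_nonneg h4 h3
  have h6 : 0 < D.Lam * (n : ℝ) * (D.td * (∑ a, ∑ b, ∑ c, ∑ d, Wv a b c d) - n ^ 4 * D.tn) :=
    mul_pos (mul_pos hL hn) (by linarith)
  rw [h2] at h1
  linarith

/-- **a checked certificate makes the cell impossible** -/
theorem cell_of (D : CD) (h : Checked D) (L : List (ℝ × ℝ)) (a b b' ρ e : ℝ) (hz : (b', ρ) ∈ L)
    (hbb : b ≤ b') (hQ : 0 < D.vQ) (hL : 0 < D.Lam) (hd : 0 < D.td) (ha : (D.an : ℝ) = a * D.ad)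
    (hb : (D.bn : ℝ) = b * D.bd) (he : 0 ≤ e)
    (hw : (D.vW : ℝ) / D.vQ - ρ * ((D.vS : ℝ) / D.vQ) ≤ e)
    (ht : (D.tn : ℝ) = (9 / 14 - e * (63 / 10000)) * (6 * D.vQ) * D.td) :
    CIF (63 / 10000) L 3 (1 / 2) 0 (6 / 25) a b := by
  refine CIF_of_sem L a b ?_
  intro n l k hS h1 h2
  have hn : (0 : ℝ) < n := by exact_mod_cast hS.pos
  have hdR : (0 : ℝ) < D.td := by exact_mod_cast hd
  have hα : (D.an : ℝ) * n ≤ D.ad * ∑ x, (if l x = 0 then 1 else 0 : ℝ) := by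
    rw [ha]
    have := mul_le_mul_of_nonneg_left h1 (Nat.cast_nonneg D.ad : (0 : ℝ) ≤ D.ad)
    linarith
  have hβ : (D.bd : ℝ) * ∑ x, (if l x = 0 then 1 else 0 : ℝ) ≤ D.bn * n := by
    rw [hb]
    have := mul_le_mul_of_nonneg_left h2 (Nat.cast_nonneg D.bd : (0 : ℝ) ≤ D.bd)
    linarith
  have hacc := hS.acc (b', ρ) hz (le_trans h2 (mul_le_mul_of_nonneg_right hbb hn.le)) D.vW D.vS D.vQ hQ e he hw
  have hv : (D.tn : ℝ) * n ^ 4 < D.td * ∑ a, ∑ b, ∑ c, ∑ d,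
      (v4 D.vW D.vS D.vQ (l a) (l b) (l c) (l d) (k a b) (k a c) (k b c) (k a d) (k b d) (k c d) : ℝ) := by
    rw [ht]
    have := mul_lt_mul_of_pos_left hacc hdR
    linarith
  have hUs := sum_U h hS hα hβ hL hv
  have hTs : (n : ℤ) ^ 5 * OFF ≤ ∑ a, ∑ b, ∑ c, ∑ d, ∑ e, (pT D (fT (XX D l k a b c)) (fQ (XX D l k a b c)) (l d)
      (k a d) (k b d) (k c d) (l e) (k a e) (k b e) (k c e) : ℤ) := by
    have := Finset.sum_le_sum (s := (univ : Finset (Fin n))) (fun a _ => Finset.sum_le_sum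
      (s := (univ : Finset (Fin n))) (fun b _ => Finset.sum_le_sum (s := (univ : Finset (Fin n)))
        (fun c _ => sum_T h.X h.T hS a b c)))
    simp only [Finset.sum_const, Finset.card_univ, Fintype.card_fin, nsmul_eq_mul] at this
    refine le_trans (le_of_eq ?_) this
    ring
  have hWs : (n : ℤ) ^ 5 * OFF ≤ ∑ a, ∑ b, ∑ c, ∑ d, ∑ e, (pW D (fS (XX D l k a b c)) (l d) (k a d) (l e)
      (k a e) (k d e) : ℤ) := by
    have := Finset.sum_le_sum (s := (univ : Finset (Fin n))) (fun a _ => Finset.sum_le_sum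
      (s := (univ : Finset (Fin n))) (fun b _ => Finset.sum_le_sum (s := (univ : Finset (Fin n)))
        (fun c _ => sum_W h.X h.W hS a b c)))
    simp only [Finset.sum_const, Finset.card_univ, Fintype.card_fin, nsmul_eq_mul] at this
    refine le_trans (le_of_eq ?_) this
    ring
  have hFs : (n : ℤ) ^ 5 * OFF ≤ ∑ a, ∑ b, ∑ c, ∑ d, ∑ e, (pF D (l a) (fF (XX D l k a b c)) (l d) (l e) (k a d)
      (k a e) (k d e) : ℤ) := by
    have := Finset.sum_le_sum (s := (univ : Finset (Fin n))) (fun a _ => sum_F h.X h.A h.Dd h.dA h.dD hS a)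
    simp only [Finset.sum_const, Finset.card_univ, Fintype.card_fin, nsmul_eq_mul] at this
    refine le_trans (le_of_eq ?_) this
    ring
  have hcap := G.sum_le (L := 2) (K := 3) l k (by norm_num) (by norm_num) hS.l2 hS.k3 hS.symm
    (adm4 := adm4) (adm := adm) (fun x => adm4_of hS _ _ _ _)
    (fun x => and_of (adm4_of hS _ _ _ _) (and_of (aa_of (hS.kA _ _)) (and_of (aa_of (hS.kA _ _))
      (and_of (aa_of (hS.kA _ _)) (aa_of (hS.kA _ _)))))) h.all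
  rw [Fintype.card_fin] at hcap
  have hsplit : ∑ a, ∑ b, ∑ c, ∑ d, ∑ e, E D (l a) (l b) (l c) (l d) (k a b) (k a c) (k b c) (k a d) (k b d)
        (k c d) (l e) (k a e) (k b e) (k c e) (k d e)
      = ∑ a, ∑ b, ∑ c, ∑ d, ∑ e, pU D (l a) (l b) (l c) (l d) (k a b) (k a c) (k b c) (k a d) (k b d) (k c d)
          (l e) (k a e)
        + (∑ a, ∑ b, ∑ c, ∑ d, ∑ e, pT D (fT (XX D l k a b c)) (fQ (XX D l k a b c)) (l d)
            (k a d) (k b d) (k c d) (l e) (k a e) (k b e) (k c e)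
          + (∑ a, ∑ b, ∑ c, ∑ d, ∑ e, pF D (l a) (fF (XX D l k a b c)) (l d) (l e) (k a d) (k a e) (k d e)
          + ∑ a, ∑ b, ∑ c, ∑ d, ∑ e, pW D (fS (XX D l k a b c)) (l d) (k a d) (l e) (k a e) (k d e))) := by
    simp only [E, pZ, XX, Nat.add_eq, Finset.sum_add_distrib]
  rw [hsplit] at hcap
  have hR : (120 : ℝ) * ((∑ a, ∑ b, ∑ c, ∑ d, ∑ e,
      (pU D (l a) (l b) (l c) (l d) (k a b) (k a c) (k b c) (k a d) (k b d) (k c d) (l e) (k a e) : ℝ))
        + ((∑ a, ∑ b, ∑ c, ∑ d, ∑ e, (pT D (fT (XX D l k a b c)) (fQ (XX D l k a b c)) (l d)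
            (k a d) (k b d) (k c d) (l e) (k a e) (k b e) (k c e) : ℝ))
          + ((∑ a, ∑ b, ∑ c, ∑ d, ∑ e, (pF D (l a) (fF (XX D l k a b c)) (l d) (l e) (k a d) (k a e)
              (k d e) : ℝ))
          + ∑ a, ∑ b, ∑ c, ∑ d, ∑ e, (pW D (fS (XX D l k a b c)) (l d) (k a d) (l e) (k a e) (k d e) : ℝ))))
      ≤ 480 * OFF * (n : ℝ) ^ 5 := by
    exact_mod_cast hcap
  have hTR : (n : ℝ) ^ 5 * OFF ≤ ∑ a, ∑ b, ∑ c, ∑ d, ∑ e, (pT D (fT (XX D l k a b c)) (fQ (XX D l k a b c)) (l d)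
      (k a d) (k b d) (k c d) (l e) (k a e) (k b e) (k c e) : ℝ) := by exact_mod_cast hTs
  have hWR : (n : ℝ) ^ 5 * OFF ≤ ∑ a, ∑ b, ∑ c, ∑ d, ∑ e, (pW D (fS (XX D l k a b c)) (l d) (k a d) (l e)
      (k a e) (k d e) : ℝ) := by exact_mod_cast hWs
  have hFR : (n : ℝ) ^ 5 * OFF ≤ ∑ a, ∑ b, ∑ c, ∑ d, ∑ e, (pF D (l a) (fF (XX D l k a b c)) (l d) (l e) (k a d)
      (k a e) (k d e) : ℝ) := by exact_mod_cast hFs
  linarith

end final

end Pool.Agent.C44.CI
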