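import Pool.Agent.C44.CIG
import Pool.Agent.C44.CAC
import Pool.Agent.C44.CBC
import Pool.Agent.C44.CCC
import Pool.Agent.C44.CDC
import Pool.Agent.C44.CEC

/-!
The five cells.
-/

set_option autoImplicit false

namespace Pool.Agent.C44

open CI

theorem cellA (L : List (ℝ × ℝ)) (h : ((1 / 10 : ℝ), (4 : ℝ)) ∈ L) :
    CIF (63 / 10000) L 3 (1 / 2) 0 (6 / 25) 0 (1 / 10) :=
  cell_of CA.D CA.checked L 0 (1 / 10) (1 / 10) 4 0 h le_rfl (by norm_num [CA.D]) (by norm_num [CA.D])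
    (by norm_num [CA.D]) (by norm_num [CA.D]) (by norm_num [CA.D]) le_rfl (by norm_num [CA.D])
    (by norm_num [CA.D])

theorem cellB (L : List (ℝ × ℝ)) (h : ((1 / 5 : ℝ), (3 : ℝ)) ∈ L) :
    CIF (63 / 10000) L 3 (1 / 2) 0 (6 / 25) (1 / 10) (1 / 5) :=
  cell_of CB.D CB.checked L (1 / 10) (1 / 5) (1 / 5) 3 0 h le_rfl (by norm_num [CB.D]) (by norm_num [CB.D])
    (by norm_num [CB.D]) (by norm_num [CB.D]) (by norm_num [CB.D]) le_rfl (by norm_num [CB.D])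
    (by norm_num [CB.D])

theorem cellC (L : List (ℝ × ℝ)) (h : ((23 / 100 : ℝ), (5 / 2 : ℝ)) ∈ L) :
    CIF (63 / 10000) L 3 (1 / 2) 0 (6 / 25) (1 / 5) (23 / 100) :=
  cell_of CC.D CC.checked L (1 / 5) (23 / 100) (23 / 100) (5 / 2) 0 h le_rfl (by norm_num [CC.D])
    (by norm_num [CC.D]) (by norm_num [CC.D]) (by norm_num [CC.D]) (by norm_num [CC.D]) le_rfl
    (by norm_num [CC.D]) (by norm_num [CC.D])

theorem cellD (L : List (ℝ × ℝ)) (h : ((13 / 50 : ℝ), (11 / 5 : ℝ)) ∈ L) :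
    CIF (63 / 10000) L 3 (1 / 2) 0 (6 / 25) (23 / 100) (13 / 50) :=
  cell_of CD.D CD.checked L (23 / 100) (13 / 50) (13 / 50) (11 / 5) (39 / 50) h le_rfl (by norm_num [CD.D])
    (by norm_num [CD.D]) (by norm_num [CD.D]) (by norm_num [CD.D]) (by norm_num [CD.D]) (by norm_num)
    (by norm_num [CD.D]) (by norm_num [CD.D])

theorem cellE (L : List (ℝ × ℝ)) (h : ((4 / 5 : ℝ), (0 : ℝ)) ∈ L) :
    CIF (63 / 10000) L 3 (1 / 2) 0 (6 / 25) (13 / 50) (12 / 25) :=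
  cell_of CE.D CE.checked L (13 / 50) (12 / 25) (4 / 5) 0 (9 / 4) h (by norm_num) (by norm_num [CE.D])
    (by norm_num [CE.D]) (by norm_num [CE.D]) (by norm_num [CE.D]) (by norm_num [CE.D]) (by norm_num)
    (by norm_num [CE.D]) (by norm_num [CE.D])

end Pool.Agent.C44
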