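import Pool.Agent.C44.Assembly3

/-!
The semantic half of the cells: labels, masked colours and the tables of all constraints.
`l x = 0` in `A` and `1` outside, `k x y = 0` if both are in `A`, otherwise the value of `c (x, y) - F`.
-/

set_option autoImplicit false

open Finset Classical

namespace Pool.Agent.C44

/-- label -/
noncomputable def lab {n : ℕ} (A : Finset (Fin n)) (x : Fin n) : ℕ := if x ∈ A then 0 else 1

/-- masked colour -/
noncomputable def mcol {n : ℕ} (c : Fin n × Fin n → Fin 3) (F : Fin 3) (A : Finset (Fin n)) (x y : Fin n) : ℕ :=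
  if x ∈ A ∧ y ∈ A then 0 else (c (x, y) - F).val

/-- type of a matching: 0 inactive (some pair inside `A`), 1 monochromatic, 2 bichromatic -/
def mty (la lb ld le kab kde : ℕ) : ℕ :=
  if (la = 0 ∧ lb = 0) ∨ (ld = 0 ∧ le = 0) then 0 else if kab = kde then 1 else 2

/-- number of matchings of type `t` in a 4-tuple -/
def mnum (t l0 l1 l2 l3 k01 k02 k12 k03 k13 k23 : ℕ) : ℕ :=
  (if mty l0 l1 l2 l3 k01 k23 = t then 1 else 0) + (if mty l0 l2 l1 l3 k02 k13 = t then 1 else 0)
    + (if mty l0 l3 l1 l2 k03 k12 = t then 1 else 0)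

/-- number of labels 0 in a 4-tuple -/
def zer (l0 l1 l2 l3 : ℕ) : ℕ :=
  (if l0 = 0 then 1 else 0) + (if l1 = 0 then 1 else 0) + (if l2 = 0 then 1 else 0) + (if l3 = 0 then 1 else 0)

/-- value table of `VALw A c w σ` with `w = W / Q`, `σ = S / Q`, times `6 Q` -/
def v4 (W S Q l0 l1 l2 l3 k01 k02 k12 k03 k13 k23 : ℕ) : ℕ :=
  if zer l0 l1 l2 l3 = 4 then 3 * Q else if zer l0 l1 l2 l3 = 3 then 6 * Q
  else max (6 * Q - 2 * W * mnum 1 l0 l1 l2 l3 k01 k02 k12 k03 k13 k23)
    (2 * S * mnum 2 l0 l1 l2 l3 k01 k02 k12 k03 k13 k23)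

/-- upper bound of the value table of `VALw ∅ c w σ`, times `6 Q` -/
def v4e (W S Q l0 l1 l2 l3 k01 k02 k12 k03 k13 k23 : ℕ) : ℕ :=
  max (6 * Q - 2 * W * mnum 1 l0 l1 l2 l3 k01 k02 k12 k03 k13 k23)
    (2 * S * (mnum 2 l0 l1 l2 l3 k01 k02 k12 k03 k13 k23 + mnum 0 l0 l1 l2 l3 k01 k02 k12 k03 k13 k23))

/-- table of `2 PhF` -/
def om (lx ly k : ℕ) : ℕ :=
  (if lx = ly then (if lx = 0 then 0 else if k = 0 then 2 else 0) else if k = 0 then 0 else 6)
    + (if lx = 0 then 1 else 0)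

/-- table of four times the local optimality: label of the root, label and colour of the other vertex -/
def lo (lv ly k : ℕ) : ℤ :=
  if lv = 0 then (if ly = 0 then 11 else if k = 0 then 3 else -13)
  else (if ly = 0 then (if k = 0 then 1 else -11) else if k = 0 then -3 else 13)

/-- upper bound of twice the price of a pair, `sx`, `sy` membership in the new set -/
def prs (sx sy : Bool) (lx ly k : ℕ) : ℕ :=
  if lx = 0 ∧ ly = 0 then (if sx = sy then (if sx then 0 else 2) else 6)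
  else (if sx = sy then (if sx then 0 else if k = 0 then 2 else 0) else if k = 0 then 0 else 6)

/-- table of `2 (PhF S - PhF A)` for the set `S` of all `x` with `t (l x) (k v x)` -/
def dst (t : ℕ → ℕ → Bool) (lx ly kvx kvy kxy : ℕ) : ℤ :=
  (prs (t lx kvx) (t ly kvy) lx ly kxy : ℤ) + (if t lx kvx then 1 else 0) - (om lx ly kxy : ℤ)

/-- the set `N_F(v)` -/
def tN : ℕ → ℕ → Bool := fun _ k => k == 0

/-- the set of all `x` in `A` with colour `F` to `v` -/
def tAN : ℕ → ℕ → Bool := fun l k => l == 0 && k == 0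

section basic

variable {n : ℕ} (c : Fin n × Fin n → Fin 3) (F : Fin 3) (A : Finset (Fin n))

lemma lab_zero {x : Fin n} : lab A x = 0 ↔ x ∈ A := by
  unfold lab; split_ifs with h <;> simp [h]

lemma lab_one {x : Fin n} : lab A x = 1 ↔ x ∉ A := by
  unfold lab; split_ifs with h <;> simp [h]

lemma lab_lt (x : Fin n) : lab A x < 2 := by
  unfold lab; split_ifs <;> norm_num

lemma mcol_lt (x y : Fin n) : mcol c F A x y < 3 := by
  unfold mcol; split_ifs
  · norm_num
  · exact Fin.isLt _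

lemma mcol_symm (hc : ∀ x : Fin n × Fin n, c x.swap = c x) (x y : Fin n) : mcol c F A x y = mcol c F A y x := by
  unfold mcol
  have := hc (y, x)
  simp only [Prod.swap_prod_mk] at this
  rw [this]
  by_cases h1 : x ∈ A <;> by_cases h2 : y ∈ A <;> simp [h1, h2]

lemma mcol_AA {x y : Fin n} (hx : lab A x = 0) (hy : lab A y = 0) : mcol c F A x y = 0 := by
  rw [lab_zero] at hx hy
  unfold mcol; rw [if_pos ⟨hx, hy⟩]

lemma fin3_sub_val (a F : Fin 3) : (a - F).val = 0 ↔ a = F := by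
  revert a F; decide

lemma fin3_sub_inj (a b F : Fin 3) : (a - F).val = (b - F).val ↔ a = b := by
  revert a b F; decide

lemma mcol_zero {x y : Fin n} (h : ¬ (x ∈ A ∧ y ∈ A)) : mcol c F A x y = 0 ↔ c (x, y) = F := by
  unfold mcol; rw [if_neg h, fin3_sub_val]

lemma mcol_diag (hd : ∀ v, c (v, v) ≠ F) {x : Fin n} (hx : lab A x = 1) : mcol c F A x x ≠ 0 := by
  rw [lab_one] at hx
  rw [Ne, mcol_zero c F A (fun h => hx h.1)]
  exact hd x

lemma card_lab : (A.card : ℝ) = ∑ x, (if lab A x = 0 then 1 else 0 : ℝ) := by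
  simp only [lab_zero]
  rw [Finset.sum_boole]
  congr 2
  ext x; simp

end basic

section tables

variable {n : ℕ} (c : Fin n × Fin n → Fin 3) (F : Fin 3) (A : Finset (Fin n))

lemma al_in {x : Fin n} (h : x ∈ A) : al A x = 1 := by unfold al; rw [if_pos h]
lemma al_out {x : Fin n} (h : x ∉ A) : al A x = 0 := by unfold al; rw [if_neg h]
lemma lab_in {x : Fin n} (h : x ∈ A) : lab A x = 0 := (lab_zero A).2 h
lemma lab_out {x : Fin n} (h : x ∉ A) : lab A x = 1 := (lab_one A).2 h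

lemma eF_mcol {x y : Fin n} (h : ¬ (x ∈ A ∧ y ∈ A)) :
    eF c F x y = if mcol c F A x y = 0 then 1 else 0 := by
  unfold eF
  simp only [mcol_zero c F A h]

lemma om_eq (x y : Fin n) : (om (lab A x) (lab A y) (mcol c F A x y) : ℝ) = 2 * kk c F 3 A x y + al A x := by
  unfold kk om
  by_cases hx : x ∈ A <;> by_cases hy : y ∈ A
  · simp [lab_in A hx, lab_in A hy, al_in A hx, al_in A hy]
  · rw [eF_mcol c F A (fun h => hy h.2)]
    by_cases hk : mcol c F A x y = 0
    · simp [lab_in A hx, lab_out A hy, al_in A hx, al_out A hy, hk]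
    · simp [lab_in A hx, lab_out A hy, al_in A hx, al_out A hy, hk]; norm_num
  · rw [eF_mcol c F A (fun h => hx h.1)]
    by_cases hk : mcol c F A x y = 0
    · simp [lab_out A hx, lab_in A hy, al_out A hx, al_in A hy, hk]
    · simp [lab_out A hx, lab_in A hy, al_out A hx, al_in A hy, hk]; norm_num
  · rw [eF_mcol c F A (fun h => hx h.1)]
    by_cases hk : mcol c F A x y = 0
    · simp [lab_out A hx, lab_out A hy, al_out A hx, al_out A hy, hk]
    · simp [lab_out A hx, lab_out A hy, al_out A hx, al_out A hy, hk]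

lemma al_sum : ∑ x, al A x = (A.card : ℝ) := by
  unfold al
  rw [Finset.sum_boole]
  congr 2
  ext x; simp

lemma PhF_two : 2 * PhF c F 3 (1 / 2) 0 A = ∑ x, ∑ y, (2 * kk c F 3 A x y + al A x) := by
  have h1 : ∑ x : Fin n, ∑ _y : Fin n, al A x = (n : ℝ) * A.card := by
    simp only [Finset.sum_const, Finset.card_univ, Fintype.card_fin, nsmul_eq_mul]
    rw [← Finset.mul_sum, al_sum]
  simp only [Finset.sum_add_distrib]
  rw [h1]
  unfold PhF
  simp only [← Finset.mul_sum, Fintype.card_fin]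
  ring

lemma om_sum : ∑ x, ∑ y, (om (lab A x) (lab A y) (mcol c F A x y) : ℝ) = 2 * PhF c F 3 (1 / 2) 0 A := by
  rw [PhF_two]
  exact Finset.sum_congr rfl (fun x _ => Finset.sum_congr rfl (fun y _ => om_eq c F A x y))

lemma lo_in {v : Fin n} (hv : v ∈ A) (y : Fin n) : (lo (lab A v) (lab A y) (mcol c F A v y) : ℝ)
    = 4 * ((1 - al A y) * (eF c F v y - 3 * (1 - eF c F v y))) + 12 * al A y - 1 := by
  unfold lo
  by_cases hy : y ∈ A
  · simp [lab_in A hv, lab_in A hy, al_in A hy]; norm_num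
  · rw [eF_mcol c F A (fun h => hy h.2)]
    by_cases hk : mcol c F A v y = 0
    · simp [lab_in A hv, lab_out A hy, al_out A hy, hk]; norm_num
    · simp [lab_in A hv, lab_out A hy, al_out A hy, hk]; norm_num

lemma lo_out {v : Fin n} (hv : v ∉ A) (y : Fin n) : (lo (lab A v) (lab A y) (mcol c F A v y) : ℝ)
    = 4 * ((1 - al A y) * (3 * (1 - eF c F v y) - eF c F v y)) - 12 * (al A y * (1 - eF c F v y)) + 1 := by
  unfold lo
  rw [eF_mcol c F A (fun h => hv h.1)]
  by_cases hy : y ∈ A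
  · by_cases hk : mcol c F A v y = 0
    · simp [lab_out A hv, lab_in A hy, al_in A hy, hk]
    · simp [lab_out A hv, lab_in A hy, al_in A hy, hk]; norm_num
  · by_cases hk : mcol c F A v y = 0
    · simp [lab_out A hv, lab_out A hy, al_out A hy, hk]; norm_num
    · simp [lab_out A hv, lab_out A hy, al_out A hy, hk]; norm_num

lemma prs_le (S : Finset (Fin n)) (sx sy : Bool) (x y : Fin n) (hx : x ∈ S ↔ sx = true) (hy : y ∈ S ↔ sy = true) :
    2 * kk c F 3 S x y ≤ (prs sx sy (lab A x) (lab A y) (mcol c F A x y) : ℝ) := by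
  have he0 : 0 ≤ eF c F x y := by unfold eF; split_ifs <;> norm_num
  have he1 : eF c F x y ≤ 1 := by unfold eF; split_ifs <;> norm_num
  have hax : al S x = if sx = true then 1 else 0 := by
    by_cases h : x ∈ S
    · rw [al_in S h, if_pos (hx.1 h)]
    · rw [al_out S h, if_neg (fun hh => h (hx.2 hh))]
  have hay : al S y = if sy = true then 1 else 0 := by
    by_cases h : y ∈ S
    · rw [al_in S h, if_pos (hy.1 h)]
    · rw [al_out S h, if_neg (fun hh => h (hy.2 hh))]
  unfold kk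
  rw [hax, hay]
  by_cases hA : x ∈ A ∧ y ∈ A
  · have hp : prs sx sy (lab A x) (lab A y) (mcol c F A x y) = (if sx = sy then (if sx then 0 else 2) else 6) := by
      unfold prs
      rw [if_pos ⟨lab_in A hA.1, lab_in A hA.2⟩]
    rw [hp]
    cases sx <;> cases sy <;> simp <;> linarith
  · have hl : ¬ (lab A x = 0 ∧ lab A y = 0) := by
      rw [lab_zero, lab_zero]; exact hA
    have hp : prs sx sy (lab A x) (lab A y) (mcol c F A x y)
        = (if sx = sy then (if sx then 0 else if mcol c F A x y = 0 then 2 else 0)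
          else if mcol c F A x y = 0 then 0 else 6) := by
      unfold prs
      rw [if_neg hl]
    rw [hp, eF_mcol c F A hA]
    by_cases hk : mcol c F A x y = 0 <;> cases sx <;> cases sy <;> simp [hk] <;> norm_num

lemma zer_eq (a b d e : Fin n) : al A a + al A b + al A d + al A e
    = (zer (lab A a) (lab A b) (lab A d) (lab A e) : ℝ) := by
  have h : ∀ x, al A x = ((if lab A x = 0 then 1 else 0 : ℕ) : ℝ) := by
    intro x
    by_cases hx : x ∈ A
    · rw [al_in A hx, lab_in A hx]; simp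
    · rw [al_out A hx, lab_out A hx]; simp
  rw [h a, h b, h d, h e]
  unfold zer
  push_cast
  ring

lemma mcol_eq {p q r s : Fin n} (h1 : ¬ (p ∈ A ∧ q ∈ A)) (h2 : ¬ (r ∈ A ∧ s ∈ A)) :
    mcol c F A p q = mcol c F A r s ↔ c (p, q) = c (r, s) := by
  unfold mcol
  rw [if_neg h1, if_neg h2, fin3_sub_inj]

lemma mty_zero (p q r s : Fin n) : mty (lab A p) (lab A q) (lab A r) (lab A s) (mcol c F A p q) (mcol c F A r s) = 0
    ↔ ¬ Act A (p, q) (r, s) := by
  unfold mty Act
  simp only [lab_zero]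
  by_cases h1 : p ∈ A ∧ q ∈ A
  · simp [h1]
  · by_cases h2 : r ∈ A ∧ s ∈ A
    · simp [h2]
    · rw [if_neg (by tauto)]
      constructor
      · intro h; split_ifs at h
      · intro h; exact absurd ⟨h1, h2⟩ h

lemma mty_one (p q r s : Fin n) : mty (lab A p) (lab A q) (lab A r) (lab A s) (mcol c F A p q) (mcol c F A r s) = 1
    ↔ (Act A (p, q) (r, s) ∧ c (p, q) = c (r, s)) := by
  unfold mty Act
  simp only [lab_zero]
  by_cases h1 : p ∈ A ∧ q ∈ A
  · simp [h1]
  · by_cases h2 : r ∈ A ∧ s ∈ A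
    · simp [h2]
    · rw [if_neg (by tauto)]
      by_cases h3 : c (p, q) = c (r, s)
      · rw [if_pos ((mcol_eq c F A h1 h2).2 h3)]
        exact ⟨fun _ => ⟨⟨h1, h2⟩, h3⟩, fun _ => rfl⟩
      · rw [if_neg (fun hh => h3 ((mcol_eq c F A h1 h2).1 hh))]
        exact ⟨fun hh => absurd hh (by norm_num), fun hh => absurd hh.2 h3⟩

lemma mty_two (p q r s : Fin n) : mty (lab A p) (lab A q) (lab A r) (lab A s) (mcol c F A p q) (mcol c F A r s) = 2
    ↔ (Act A (p, q) (r, s) ∧ c (p, q) ≠ c (r, s)) := by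
  unfold mty Act
  simp only [lab_zero]
  by_cases h1 : p ∈ A ∧ q ∈ A
  · simp [h1]
  · by_cases h2 : r ∈ A ∧ s ∈ A
    · simp [h2]
    · rw [if_neg (by tauto)]
      by_cases h3 : c (p, q) = c (r, s)
      · rw [if_pos ((mcol_eq c F A h1 h2).2 h3)]
        exact ⟨fun hh => absurd hh (by norm_num), fun hh => absurd h3 hh.2⟩
      · rw [if_neg (fun hh => h3 ((mcol_eq c F A h1 h2).1 hh))]
        exact ⟨fun _ => ⟨⟨h1, h2⟩, h3⟩, fun _ => rfl⟩

lemma mcost_eq (w : ℝ) (p q r s : Fin n) : mcost A c (fun _ => w) (p, q) (r, s)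
    = w / 3 * ((if mty (lab A p) (lab A q) (lab A r) (lab A s) (mcol c F A p q) (mcol c F A r s) = 1
        then 1 else 0 : ℕ) : ℝ) := by
  unfold mcost
  by_cases h : Act A (p, q) (r, s) ∧ c (p, q) = c (r, s)
  · rw [if_pos h, if_pos ((mty_one c F A p q r s).2 h)]; simp
  · rw [if_neg h, if_neg (fun hh => h ((mty_one c F A p q r s).1 hh))]; simp

lemma mgain_eq (σ : ℝ) (p q r s : Fin n) : mgain A c σ (p, q) (r, s)
    = σ / 3 * ((if mty (lab A p) (lab A q) (lab A r) (lab A s) (mcol c F A p q) (mcol c F A r s) = 2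
        then 1 else 0 : ℕ) : ℝ) := by
  unfold mgain
  by_cases h : Act A (p, q) (r, s) ∧ c (p, q) ≠ c (r, s)
  · rw [if_pos h, if_pos ((mty_two c F A p q r s).2 h)]; simp
  · rw [if_neg h, if_neg (fun hh => h ((mty_two c F A p q r s).1 hh))]; simp

/-- natural subtraction inside a maximum -/
lemma cast_max_sub (a b x : ℕ) : ((max (a - b) x : ℕ) : ℝ) = max ((a : ℝ) - b) x := by
  rcases le_total b a with h | h
  · rw [Nat.cast_max, Nat.cast_sub h]
  · rw [Nat.sub_eq_zero_of_le h, Nat.cast_max, Nat.cast_zero]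
    have h1 : (a : ℝ) - b ≤ 0 := by
      have : (a : ℝ) ≤ b := by exact_mod_cast h
      linarith
    have h2 : (0 : ℝ) ≤ x := Nat.cast_nonneg x
    rw [max_eq_right h2, max_eq_right (le_trans h1 h2)]

lemma v4_eq (W S Q : ℕ) (hQ : 0 < Q) (a b d e : Fin n) :
    (v4 W S Q (lab A a) (lab A b) (lab A d) (lab A e) (mcol c F A a b) (mcol c F A a d) (mcol c F A b d)
      (mcol c F A a e) (mcol c F A b e) (mcol c F A d e) : ℝ)
    = 6 * Q * val A c (fun _ => (W : ℝ) / Q) ((S : ℝ) / Q) a b d e := by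
  have hQR : (0 : ℝ) < Q := by exact_mod_cast hQ
  unfold val v4
  rw [zer_eq]
  by_cases h4 : zer (lab A a) (lab A b) (lab A d) (lab A e) = 4
  · have h4' : (zer (lab A a) (lab A b) (lab A d) (lab A e) : ℝ) = 4 := by exact_mod_cast h4
    rw [if_pos h4, if_pos h4']
    push_cast; ring
  · have h4' : ¬ ((zer (lab A a) (lab A b) (lab A d) (lab A e) : ℝ) = 4) := by exact_mod_cast h4
    rw [if_neg h4, if_neg h4']
    by_cases h3 : zer (lab A a) (lab A b) (lab A d) (lab A e) = 3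
    · have h3' : (zer (lab A a) (lab A b) (lab A d) (lab A e) : ℝ) = 3 := by exact_mod_cast h3
      rw [if_pos h3, if_pos h3']
      push_cast; ring
    · have h3' : ¬ ((zer (lab A a) (lab A b) (lab A d) (lab A e) : ℝ) = 3) := by exact_mod_cast h3
      rw [if_neg h3, if_neg h3']
      rw [cast_max_sub, mul_max_of_nonneg _ _ (by positivity)]
      rw [mcost_eq c F A, mcost_eq c F A, mcost_eq c F A, mgain_eq c F A, mgain_eq c F A, mgain_eq c F A]
      unfold mnum
      push_cast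
      congr 1
      · field_simp
        ring
      · field_simp
        ring

lemma VALw_v4 (W S Q : ℕ) (hQ : 0 < Q) :
    ∑ x0, ∑ x1, ∑ x2, ∑ x3, (v4 W S Q (lab A x0) (lab A x1) (lab A x2) (lab A x3) (mcol c F A x0 x1)
      (mcol c F A x0 x2) (mcol c F A x1 x2) (mcol c F A x0 x3) (mcol c F A x1 x3) (mcol c F A x2 x3) : ℝ)
    = 6 * Q * VALw A c (fun _ => (W : ℝ) / Q) ((S : ℝ) / Q) := by
  unfold VALw
  simp only [Finset.mul_sum]
  exact Finset.sum_congr rfl (fun a _ => Finset.sum_congr rfl (fun b _ => Finset.sum_congr rfl (fun d _ =>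
    Finset.sum_congr rfl (fun e _ => v4_eq c F A W S Q hQ a b d e))))

lemma act_empty (p q : Fin n × Fin n) : Act (∅ : Finset (Fin n)) p q := by
  unfold Act; simp

lemma mcost_empty (w : ℝ) (hw : 0 ≤ w) (p q r s : Fin n) :
    w / 3 * ((if mty (lab A p) (lab A q) (lab A r) (lab A s) (mcol c F A p q) (mcol c F A r s) = 1
        then 1 else 0 : ℕ) : ℝ) ≤ mcost ∅ c (fun _ => w) (p, q) (r, s) := by
  unfold mcost
  by_cases h : mty (lab A p) (lab A q) (lab A r) (lab A s) (mcol c F A p q) (mcol c F A r s) = 1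
  · rw [if_pos h, if_pos ⟨act_empty _ _, ((mty_one c F A p q r s).1 h).2⟩]; simp
  · rw [if_neg h]
    simp only [Nat.cast_zero, mul_zero]
    split_ifs
    · positivity
    · exact le_refl _

lemma mgain_empty (σ : ℝ) (hσ : 0 ≤ σ) (p q r s : Fin n) : mgain ∅ c σ (p, q) (r, s)
    ≤ σ / 3 * (((if mty (lab A p) (lab A q) (lab A r) (lab A s) (mcol c F A p q) (mcol c F A r s) = 2
        then 1 else 0 : ℕ) : ℝ) + ((if mty (lab A p) (lab A q) (lab A r) (lab A s) (mcol c F A p q)
        (mcol c F A r s) = 0 then 1 else 0 : ℕ) : ℝ)) := by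
  unfold mgain
  by_cases h0 : Act A (p, q) (r, s)
  · by_cases h : c (p, q) = c (r, s)
    · rw [if_neg (fun hh => hh.2 h)]
      positivity
    · rw [if_pos ⟨act_empty _ _, h⟩, if_pos ((mty_two c F A p q r s).2 ⟨h0, h⟩)]
      have : (0 : ℝ) ≤ ((if mty (lab A p) (lab A q) (lab A r) (lab A s) (mcol c F A p q)
        (mcol c F A r s) = 0 then 1 else 0 : ℕ) : ℝ) := Nat.cast_nonneg _
      push_cast at this ⊢
      nlinarith
  · rw [if_pos ((mty_zero c F A p q r s).2 h0)]
    have : (0 : ℝ) ≤ ((if mty (lab A p) (lab A q) (lab A r) (lab A s) (mcol c F A p q)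
        (mcol c F A r s) = 2 then 1 else 0 : ℕ) : ℝ) := Nat.cast_nonneg _
    push_cast at this ⊢
    split_ifs at this ⊢ <;> linarith

lemma v4e_le (W S Q : ℕ) (hQ : 0 < Q) (a b d e : Fin n) :
    6 * Q * val ∅ c (fun _ => (W : ℝ) / Q) ((S : ℝ) / Q) a b d e
    ≤ (v4e W S Q (lab A a) (lab A b) (lab A d) (lab A e) (mcol c F A a b) (mcol c F A a d) (mcol c F A b d)
      (mcol c F A a e) (mcol c F A b e) (mcol c F A d e) : ℝ) := by
  have hQR : (0 : ℝ) < Q := by exact_mod_cast hQ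
  have hW : (0 : ℝ) ≤ (W : ℝ) / Q := by positivity
  have hS : (0 : ℝ) ≤ (S : ℝ) / Q := by positivity
  have e1 : 6 * (Q : ℝ) * (((W : ℝ) / Q) / 3) = 2 * W := by field_simp; ring
  have e2 : 6 * (Q : ℝ) * (((S : ℝ) / Q) / 3) = 2 * S := by field_simp; ring
  unfold val v4e
  have h0 : ∀ x : Fin n, al ∅ x = 0 := fun x => al_out ∅ (by simp)
  rw [h0 a, h0 b, h0 d, h0 e]
  rw [if_neg (by norm_num), if_neg (by norm_num), cast_max_sub, mul_max_of_nonneg _ _ (by positivity)]
  unfold mnum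
  apply max_le_max
  · have h1 := mcost_empty c F A _ hW a b d e
    have h2 := mcost_empty c F A _ hW a d b e
    have h3 := mcost_empty c F A _ hW a e b d
    have h := mul_le_mul_of_nonneg_left (add_le_add (add_le_add h1 h2) h3) (show (0 : ℝ) ≤ 6 * Q by positivity)
    push_cast at h ⊢
    rw [mul_add, mul_add, ← mul_assoc, ← mul_assoc, ← mul_assoc, e1] at h
    linarith
  · have h1 := mgain_empty c F A _ hS a b d e
    have h2 := mgain_empty c F A _ hS a d b e
    have h3 := mgain_empty c F A _ hS a e b d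
    have h := mul_le_mul_of_nonneg_left (add_le_add (add_le_add h1 h2) h3) (show (0 : ℝ) ≤ 6 * Q by positivity)
    push_cast at h ⊢
    refine le_trans h ?_
    rw [mul_add, mul_add, ← mul_assoc, ← mul_assoc, ← mul_assoc, e2]
    linarith

lemma VALw_v4e (W S Q : ℕ) (hQ : 0 < Q) :
    6 * Q * VALw ∅ c (fun _ => (W : ℝ) / Q) ((S : ℝ) / Q) ≤
    ∑ x0, ∑ x1, ∑ x2, ∑ x3, (v4e W S Q (lab A x0) (lab A x1) (lab A x2) (lab A x3) (mcol c F A x0 x1)
      (mcol c F A x0 x2) (mcol c F A x1 x2) (mcol c F A x0 x3) (mcol c F A x1 x3) (mcol c F A x2 x3) : ℝ) := by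
  unfold VALw
  simp only [Finset.mul_sum]
  exact Finset.sum_le_sum (fun a _ => Finset.sum_le_sum (fun b _ => Finset.sum_le_sum (fun d _ =>
    Finset.sum_le_sum (fun e _ => v4e_le c F A W S Q hQ a b d e))))

end tables

/-- all constraints of a cell in terms of labels and masked colours -/
structure Sem (n : ℕ) (L : List (ℝ × ℝ)) (l : Fin n → ℕ) (k : Fin n → Fin n → ℕ) : Prop where
  pos : 0 < n
  l2 : ∀ x, l x < 2
  k3 : ∀ x y, k x y < 3
  symm : ∀ x y, k x y = k y x
  kA : ∀ x y, l x = 0 → l y = 0 → k x y = 0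
  diag : ∀ x, l x = 1 → k x x ≠ 0
  phi : ∑ x, ∑ y, (om (l x) (l y) (k x y) : ℝ) < 12 / 25 * (n : ℝ) ^ 2
  loc : ∀ v, 0 ≤ ∑ y, (lo (l v) (l y) (k v y) : ℝ)
  hmin : ∀ (t : ℕ → ℕ → Bool) (v : Fin n), 0 ≤ ∑ x, ∑ y, (dst t (l x) (l y) (k v x) (k v y) (k x y) : ℝ)
  acc : ∀ z ∈ L, (∑ x, (if l x = 0 then 1 else 0 : ℝ)) ≤ z.1 * n → ∀ W S Q : ℕ, 0 < Q → ∀ e : ℝ, 0 ≤ e →
    (W : ℝ) / Q - z.2 * ((S : ℝ) / Q) ≤ e →
    (9 / 14 - e * (63 / 10000)) * (6 * Q) * (n : ℝ) ^ 4 <
      ∑ x0, ∑ x1, ∑ x2, ∑ x3, (v4 W S Q (l x0) (l x1) (l x2) (l x3) (k x0 x1) (k x0 x2) (k x1 x2)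
        (k x0 x3) (k x1 x3) (k x2 x3) : ℝ)
  accE : ∀ z ∈ L, 0 ≤ z.1 → ∀ W S Q : ℕ, 0 < Q → ∀ e : ℝ, 0 ≤ e → (W : ℝ) / Q - z.2 * ((S : ℝ) / Q) ≤ e →
    (9 / 14 - e * (63 / 10000)) * (6 * Q) * (n : ℝ) ^ 4 <
      ∑ x0, ∑ x1, ∑ x2, ∑ x3, (v4e W S Q (l x0) (l x1) (l x2) (l x3) (k x0 x1) (k x0 x2) (k x1 x2)
        (k x0 x3) (k x1 x3) (k x2 x3) : ℝ)

theorem sem_of_hyp {n : ℕ} {L : List (ℝ × ℝ)} {c : Fin n × Fin n → Fin 3} {F : Fin 3} {A : Finset (Fin n)}
    (h : CIhypF (63 / 10000) L 3 (1 / 2) 0 (6 / 25) n c F A) : Sem n L (lab A) (mcol c F A) where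
  pos := h.pos
  l2 := lab_lt A
  k3 := mcol_lt c F A
  symm := mcol_symm c F A h.symm
  kA := fun x y hx hy => mcol_AA c F A hx hy
  diag := fun x hx => mcol_diag c F A h.diag hx
  phi := by
    rw [om_sum]
    have := h.phi
    linarith
  loc := by
    intro v
    by_cases hv : v ∈ A
    · have h1 := h.la v hv
      rw [Fintype.card_fin] at h1
      simp only [lo_in c F A hv]
      have h2 : ∑ y, (4 * ((1 - al A y) * (eF c F v y - 3 * (1 - eF c F v y))) + 12 * al A y - 1)
          = 4 * ∑ y, (1 - al A y) * (eF c F v y - 3 * (1 - eF c F v y)) + 12 * A.card - n := by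
        rw [Finset.sum_sub_distrib, Finset.sum_add_distrib, ← Finset.mul_sum, ← Finset.mul_sum, al_sum]
        simp
      rw [h2]
      linarith
    · have h1 := h.ld v hv
      rw [Fintype.card_fin] at h1
      simp only [lo_out c F A hv]
      have h2 : ∑ y, (4 * ((1 - al A y) * (3 * (1 - eF c F v y) - eF c F v y))
            - 12 * (al A y * (1 - eF c F v y)) + 1)
          = 4 * ∑ y, (1 - al A y) * (3 * (1 - eF c F v y) - eF c F v y)
            - 12 * ∑ y, al A y * (1 - eF c F v y) + n := by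
        rw [Finset.sum_add_distrib, Finset.sum_sub_distrib, ← Finset.mul_sum, ← Finset.mul_sum]
        simp
      rw [h2]
      linarith
  hmin := by
    intro t v
    set S : Finset (Fin n) := univ.filter (fun x => t (lab A x) (mcol c F A v x) = true) with hS
    have hm : ∀ x, x ∈ S ↔ t (lab A x) (mcol c F A v x) = true := by intro x; simp [hS]
    have h1 := h.hmin S
    have h2 := PhF_two c F A
    have h3 := PhF_two c F S
    have h4 := om_sum c F A
    have h5 : ∑ x, ∑ y, (2 * kk c F 3 S x y + al S x) ≤ ∑ x, ∑ y,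
        ((prs (t (lab A x) (mcol c F A v x)) (t (lab A y) (mcol c F A v y)) (lab A x) (lab A y)
          (mcol c F A x y) : ℝ) + (if t (lab A x) (mcol c F A v x) then 1 else 0 : ℝ)) := by
      refine Finset.sum_le_sum (fun x _ => Finset.sum_le_sum (fun y _ => ?_))
      have := prs_le c F A S _ _ x y (hm x) (hm y)
      have h6 : al S x = (if t (lab A x) (mcol c F A v x) then 1 else 0 : ℝ) := by
        unfold al
        simp only [hm x]
      rw [h6]
      linarith
    have h7 : ∑ x, ∑ y, (dst t (lab A x) (lab A y) (mcol c F A v x) (mcol c F A v y) (mcol c F A x y) : ℝ)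
        = ∑ x, ∑ y, ((prs (t (lab A x) (mcol c F A v x)) (t (lab A y) (mcol c F A v y)) (lab A x) (lab A y)
          (mcol c F A x y) : ℝ) + (if t (lab A x) (mcol c F A v x) then 1 else 0 : ℝ))
          - ∑ x, ∑ y, (om (lab A x) (lab A y) (mcol c F A x y) : ℝ) := by
      rw [← Finset.sum_sub_distrib]
      refine Finset.sum_congr rfl (fun x _ => ?_)
      rw [← Finset.sum_sub_distrib]
      refine Finset.sum_congr rfl (fun y _ => ?_)
      unfold dst
      push_cast
      ring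
    rw [h7]
    linarith
  acc := by
    intro z hz hA W S Q hQ e he hw
    have hQR : (0 : ℝ) < Q := by exact_mod_cast hQ
    rw [← card_lab] at hA
    have h1 := h.acc z hz A hA (fun _ => (W : ℝ) / Q) ((S : ℝ) / Q) e (by positivity) he (fun _ => hw)
    rw [VALw_v4 c F A W S Q hQ]
    have h2 := mul_lt_mul_of_pos_left h1 (show (0 : ℝ) < 6 * Q by positivity)
    linarith
  accE := by
    intro z hz hA W S Q hQ e he hw
    have hQR : (0 : ℝ) < Q := by exact_mod_cast hQ
    have h1 := h.acc z hz ∅ (by simpa using mul_nonneg hA (Nat.cast_nonneg n)) (fun _ => (W : ℝ) / Q)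
      ((S : ℝ) / Q) e (by positivity) he (fun _ => hw)
    have h2 := mul_lt_mul_of_pos_left h1 (show (0 : ℝ) < 6 * Q by positivity)
    have h3 := VALw_v4e c F A W S Q hQ
    linarith

/-- **the interface for the cells** -/
theorem CIF_of_sem (L : List (ℝ × ℝ)) (a b : ℝ)
    (H : ∀ (n : ℕ) (l : Fin n → ℕ) (k : Fin n → Fin n → ℕ), Sem n L l k →
      a * n ≤ ∑ x, (if l x = 0 then 1 else 0 : ℝ) → (∑ x, (if l x = 0 then 1 else 0 : ℝ)) ≤ b * n → False) :
    CIF (63 / 10000) L 3 (1 / 2) 0 (6 / 25) a b := by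
  intro n c F A h h1 h2
  rw [card_lab] at h1 h2
  exact H n _ _ (sem_of_hyp h) h1 h2

end Pool.Agent.C44
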