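import Pool.Agent.C44.Corner

/-!
# Convex combinations of corner inequalities, and the covering of the density triangle
-/

open Finset

namespace Pool.Agent.C44

section
variable {V : Type} [Fintype V] (c : V → V → Fin 3)

theorem Pm_eq (al R : ℕ) : ∃ b0 b1 b2 : ℤ, ∀ r0 r1 r2 : ℕ, Pm c al R r0 r1 r2 =
    R * (b0 * Mc c 0 + b1 * Mc c 1 + b2 * Mc c 2) -
      (Fintype.card V : ℤ) ^ 2 * (b0 * r0 + b1 * r1 + b2 * r2) := by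
  refine ⟨∑ x0, ∑ x1, ∑ x2, (lk al (Nat.mul (d3 (c x0 x1) (c x0 x2) (c x1 x2)) 3) : ℤ),
    ∑ x0, ∑ x1, ∑ x2, (lk al (Nat.add (Nat.mul (d3 (c x0 x1) (c x0 x2) (c x1 x2)) 3) 1) : ℤ),
    ∑ x0, ∑ x1, ∑ x2, (lk al (Nat.add (Nat.mul (d3 (c x0 x1) (c x0 x2) (c x1 x2)) 3) 2) : ℤ),
    fun r0 r1 r2 => ?_⟩
  have hM : (Fintype.card V : ℤ) ^ 2 = Mc c 0 + Mc c 1 + Mc c 2 := by
    have := Mc_sum c
    exact_mod_cast this.symm
  have h : ∀ a b d : ℕ, mult al R r0 r1 r2 a b d 0 * Mc c 0 + mult al R r0 r1 r2 a b d 1 * Mc c 1 +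
      mult al R r0 r1 r2 a b d 2 * Mc c 2 =
      (lk al (Nat.mul (d3 a b d) 3) : ℤ) * (R * Mc c 0 - (Fintype.card V : ℤ) ^ 2 * r0) +
      (lk al (Nat.add (Nat.mul (d3 a b d) 3) 1) : ℤ) * (R * Mc c 1 - (Fintype.card V : ℤ) ^ 2 * r1) +
      (lk al (Nat.add (Nat.mul (d3 a b d) 3) 2) : ℤ) * (R * Mc c 2 - (Fintype.card V : ℤ) ^ 2 * r2) := by
    intro a b d
    have e0 : Nat.add (Nat.mul (d3 a b d) 3) 0 = Nat.mul (d3 a b d) 3 := rfl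
    simp only [mult, e0]
    rw [hM]
    ring
  rw [Pm]
  simp only [h, Finset.sum_add_distrib, ← Finset.sum_mul]
  ring

theorem cell3 {w0 w1 al R Q B : ℕ} {r10 r11 r12 r20 r21 r22 r30 r31 r32 : ℕ}
    (h1 : CI w0 w1 al R Q B r10 r11 r12) (h2 : CI w0 w1 al R Q B r20 r21 r22)
    (h3 : CI w0 w1 al R Q B r30 r31 r32) (hs : ∀ x y, c x y = c y x)
    {a1 a2 a3 : ℝ} (ha1 : 0 ≤ a1) (ha2 : 0 ≤ a2) (ha3 : 0 ≤ a3) (hS : 0 < a1 + a2 + a3)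
    (e0 : (a1 * r10 + a2 * r20 + a3 * r30) * (Fintype.card V : ℝ) ^ 2 = (a1 + a2 + a3) * (R * Mc c 0))
    (e1 : (a1 * r11 + a2 * r21 + a3 * r31) * (Fintype.card V : ℝ) ^ 2 = (a1 + a2 + a3) * (R * Mc c 1))
    (e2 : (a1 * r12 + a2 * r22 + a3 * r32) * (Fintype.card V : ℝ) ^ 2 = (a1 + a2 + a3) * (R * Mc c 2))
    (hn : 0 < Fintype.card V) :
    20 * (Q : ℝ) * Phi c w0 w1 ≤ B * (Fintype.card V : ℝ) ^ 4 := by
  obtain ⟨b0, b1, b2, hb⟩ := Pm_eq c al R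
  have g1 := h1 V c hs
  have g2 := h2 V c hs
  have g3 := h3 V c hs
  rw [hb] at g1 g2 g3
  have g1' : 30 * ((R : ℝ) * (b0 * Mc c 0 + b1 * Mc c 1 + b2 * Mc c 2) -
      (Fintype.card V : ℝ) ^ 2 * (b0 * r10 + b1 * r11 + b2 * r12)) + 20 * Q * ((Fintype.card V : ℝ) * Phi c w0 w1) ≤
      B * (Fintype.card V : ℝ) ^ 5 := by exact_mod_cast g1
  have g2' : 30 * ((R : ℝ) * (b0 * Mc c 0 + b1 * Mc c 1 + b2 * Mc c 2) -
      (Fintype.card V : ℝ) ^ 2 * (b0 * r20 + b1 * r21 + b2 * r22)) + 20 * Q * ((Fintype.card V : ℝ) * Phi c w0 w1) ≤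
      B * (Fintype.card V : ℝ) ^ 5 := by exact_mod_cast g2
  have g3' : 30 * ((R : ℝ) * (b0 * Mc c 0 + b1 * Mc c 1 + b2 * Mc c 2) -
      (Fintype.card V : ℝ) ^ 2 * (b0 * r30 + b1 * r31 + b2 * r32)) + 20 * Q * ((Fintype.card V : ℝ) * Phi c w0 w1) ≤
      B * (Fintype.card V : ℝ) ^ 5 := by exact_mod_cast g3
  have k1 := mul_le_mul_of_nonneg_left g1' ha1
  have k2 := mul_le_mul_of_nonneg_left g2' ha2
  have k3 := mul_le_mul_of_nonneg_left g3' ha3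
  have hz : (a1 + a2 + a3) * ((R : ℝ) * (b0 * Mc c 0 + b1 * Mc c 1 + b2 * Mc c 2)) =
      (Fintype.card V : ℝ) ^ 2 * (b0 * (a1 * r10 + a2 * r20 + a3 * r30) +
        b1 * (a1 * r11 + a2 * r21 + a3 * r31) + b2 * (a1 * r12 + a2 * r22 + a3 * r32)) := by
    linear_combination (-(b0 : ℝ)) * e0 + (-(b1 : ℝ)) * e1 + (-(b2 : ℝ)) * e2
  have hn' : (0 : ℝ) < Fintype.card V := by exact_mod_cast hn
  have k : (a1 + a2 + a3) * (Fintype.card V : ℝ) * (20 * Q * Phi c w0 w1) ≤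
      (a1 + a2 + a3) * (Fintype.card V : ℝ) * (B * (Fintype.card V : ℝ) ^ 4) := by
    nlinarith [k1, k2, k3, hz]
  exact le_of_mul_le_mul_left k (mul_pos hS hn')

/-- corner with the coordinates `p = 1024 ρ₃`, `q = 1024 (ρ₁ - ρ₂)` -/
def Pt (w0 w1 al Q B p q : ℕ) : Prop := CI w0 w1 al 2048 Q B (1024 - p + q) (1024 - p - q) (2 * p)

theorem tri {w0 w1 al Q B p1 q1 p2 q2 p3 q3 : ℕ}
    (h1 : Pt w0 w1 al Q B p1 q1) (h2 : Pt w0 w1 al Q B p2 q2) (h3 : Pt w0 w1 al Q B p3 q3)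
    (hp1 : p1 + q1 ≤ 1024) (hp2 : p2 + q2 ≤ 1024) (hp3 : p3 + q3 ≤ 1024)
    (hs : ∀ x y, c x y = c y x) {X Y : ℝ}
    (hX : X * (Fintype.card V : ℝ) ^ 2 = 1024 * Mc c 2)
    (hY : Y * (Fintype.card V : ℝ) ^ 2 = 1024 * (Mc c 0 - Mc c 1))
    (hn : 0 < Fintype.card V)
    (hS : (0 : ℝ) < p1 * (q2 - q3) + p2 * (q3 - q1) + p3 * (q1 - q2))
    (A1 : 0 ≤ (p2 - X) * (q3 - Y) - (p3 - X) * (q2 - Y))
    (A2 : 0 ≤ (p3 - X) * (q1 - Y) - (p1 - X) * (q3 - Y))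
    (A3 : 0 ≤ (p1 - X) * (q2 - Y) - (p2 - X) * (q1 - Y)) :
    20 * (Q : ℝ) * Phi c w0 w1 ≤ B * (Fintype.card V : ℝ) ^ 4 := by
  have hM : (Fintype.card V : ℝ) ^ 2 = Mc c 0 + Mc c 1 + Mc c 2 := by
    have := Mc_sum c
    exact_mod_cast this.symm
  have c0 : ∀ p q : ℕ, p + q ≤ 1024 → ((1024 - p + q : ℕ) : ℝ) = 1024 - p + q := by
    intro p q h
    rw [Nat.cast_add, Nat.cast_sub (by omega)]
    norm_num
  have c1 : ∀ p q : ℕ, p + q ≤ 1024 → ((1024 - p - q : ℕ) : ℝ) = 1024 - p - q := by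
    intro p q h
    rw [Nat.cast_sub (by omega), Nat.cast_sub (by omega)]
    norm_num
  refine cell3 c h1 h2 h3 hs A1 A2 A3 ?_ ?_ ?_ ?_ hn
  · have : (p2 - X) * (q3 - Y) - (p3 - X) * (q2 - Y) + ((p3 - X) * (q1 - Y) - (p1 - X) * (q3 - Y)) +
      ((p1 - X) * (q2 - Y) - (p2 - X) * (q1 - Y)) =
      p1 * (q2 - q3) + p2 * (q3 - q1) + p3 * (q1 - q2) := by ring
    rw [this]
    exact hS
  · rw [c0 _ _ hp1, c0 _ _ hp2, c0 _ _ hp3]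
    push_cast
    have e : (p2 - X) * (q3 - Y) - (p3 - X) * (q2 - Y) + ((p3 - X) * (q1 - Y) - (p1 - X) * (q3 - Y)) +
      ((p1 - X) * (q2 - Y) - (p2 - X) * (q1 - Y)) =
      p1 * (q2 - q3) + p2 * (q3 - q1) + p3 * (q1 - q2) := by ring
    linear_combination (p1 * (q2 - q3) + p2 * (q3 - q1) + p3 * (q1 - q2) : ℝ) *
      (1024 * hM - hX + hY)
  · rw [c1 _ _ hp1, c1 _ _ hp2, c1 _ _ hp3]
    push_cast
    linear_combination (p1 * (q2 - q3) + p2 * (q3 - q1) + p3 * (q1 - q2) : ℝ) *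
      (1024 * hM - hX - hY)
  · push_cast
    linear_combination (p1 * (q2 - q3) + p2 * (q3 - q1) + p3 * (q1 - q2) : ℝ) * (2 * hX)

end

end Pool.Agent.C44
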