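import Mathlib

/-!
# Kernel level checks for flag certificates on five vertices and three colours

`lk T i` reads the field number `i` (48 bits) of a table stored as one natural number.
`fA`, `fB` are the entries of the table for a root vertex and for three root vertices,
`SA`, `SB` their sums over the 15 (10) inequivalent placements in a coloured `K_5`.
-/

namespace Pool.Agent.C44

/-- field number `i` (48 bits) of the table `T` -/
def lk (T i : ℕ) : ℕ := Nat.land (Nat.shiftRight T (Nat.mul 48 i)) 281474976710655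

/-- the number with the three base 3 digits `a b c` -/
def d3 (a b c : ℕ) : ℕ := Nat.add (Nat.mul (Nat.add (Nat.mul a 3) b) 3) c

/-- the number with six base 3 digits -/
def d6 (a b c d e f : ℕ) : ℕ := Nat.add (Nat.mul (d3 a b c) 27) (d3 d e f)

/-- table with a root vertex `0`: the colours are those of 01, 02, 12 and 03, 04, 34 -/
def fA (T a b c d e f : ℕ) : ℕ := lk T (d6 a b c d e f)

/-- table with the roots 0, 1, 2: the colours are those of 01, 02, 12, then 03, 13, 23 and 04, 14, 24 -/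
def fB (tb : ℕ → ℕ → ℕ → ℕ) (a b c d e f g h i : ℕ) : ℕ := lk (tb a b c) (d6 d e f g h i)

/-- sum of `fA` over the 15 placements -/
def SA (T k01 k02 k12 k03 k13 k23 k04 k14 k24 k34 : ℕ) : ℕ :=
  Nat.add (fA T k01 k02 k12 k03 k04 k34)
    (Nat.add (fA T k01 k03 k13 k02 k04 k24)
    (Nat.add (fA T k01 k04 k14 k02 k03 k23)
    (Nat.add (fA T k01 k12 k02 k13 k14 k34)
    (Nat.add (fA T k01 k13 k03 k12 k14 k24)
    (Nat.add (fA T k01 k14 k04 k12 k13 k23)
    (Nat.add (fA T k02 k12 k01 k23 k24 k34)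
    (Nat.add (fA T k02 k23 k03 k12 k24 k14)
    (Nat.add (fA T k02 k24 k04 k12 k23 k13)
    (Nat.add (fA T k03 k13 k01 k23 k34 k24)
    (Nat.add (fA T k03 k23 k02 k13 k34 k14)
    (Nat.add (fA T k03 k34 k04 k13 k23 k12)
    (Nat.add (fA T k04 k14 k01 k24 k34 k23)
    (Nat.add (fA T k04 k24 k02 k14 k34 k13)
    (fA T k04 k34 k03 k14 k24 k12))))))))))))))

/-- sum of `fB` over the 10 placements -/
def SB (tb : ℕ → ℕ → ℕ → ℕ) (k01 k02 k12 k03 k13 k23 k04 k14 k24 k34 : ℕ) : ℕ :=
  Nat.add (fB tb k01 k02 k12 k03 k13 k23 k04 k14 k24)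
    (Nat.add (fB tb k01 k03 k13 k02 k12 k23 k04 k14 k34)
    (Nat.add (fB tb k01 k04 k14 k02 k12 k24 k03 k13 k34)
    (Nat.add (fB tb k02 k03 k23 k01 k12 k13 k04 k24 k34)
    (Nat.add (fB tb k02 k04 k24 k01 k12 k14 k03 k23 k34)
    (Nat.add (fB tb k03 k04 k34 k01 k13 k14 k02 k23 k24)
    (Nat.add (fB tb k12 k13 k23 k01 k02 k03 k14 k24 k34)
    (Nat.add (fB tb k12 k14 k24 k01 k02 k04 k13 k23 k34)
    (Nat.add (fB tb k13 k14 k34 k01 k03 k04 k12 k23 k24)
    (fB tb k23 k24 k34 k02 k03 k04 k12 k13 k14)))))))))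

def S (T : ℕ) (tb : ℕ → ℕ → ℕ → ℕ) (k01 k02 k12 k03 k13 k23 k04 k14 k24 k34 : ℕ) : ℕ :=
  Nat.add (SA T k01 k02 k12 k03 k13 k23 k04 k14 k24 k34) (SB tb k01 k02 k12 k03 k13 k23 k04 k14 k24 k34)

/-- choice between three values -/
noncomputable def sel {α : Type} (i : ℕ) (a b c : α) : α := Nat.rec a (fun n _ => Nat.rec b (fun _ _ => c) n) i

def all3 (f : ℕ → Bool) : Bool := and (f 0) (and (f 1) (f 2))

theorem all3_spec {f : ℕ → Bool} (h : all3 f = true) (i : Fin 3) : f i = true := by
  simp only [all3, Bool.and_eq_true] at h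
  obtain ⟨h0, h1, h2⟩ := h
  fin_cases i
  · exact h0
  · exact h1
  · exact h2

/-- symmetry of a table `fA` -/
def symA (T : ℕ) : Bool :=
  all3 fun a => all3 fun b => all3 fun c => all3 fun d => all3 fun e => all3 fun f =>
    and (Nat.beq (fA T a b c d e f) (fA T b a c d e f)) (Nat.beq (fA T a b c d e f) (fA T d e f a b c))

/-- symmetry of the tables `fB` -/
def symB (tb : ℕ → ℕ → ℕ → ℕ) : Bool :=
  all3 fun a => all3 fun b => all3 fun c => all3 fun d => all3 fun e => all3 fun f =>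
  all3 fun g => all3 fun h => all3 fun i =>
    and (Nat.beq (fB tb a b c d e f g h i) (fB tb a c b e d f h g i))
      (and (Nat.beq (fB tb a b c d e f g h i) (fB tb b a c d f e g i h))
        (Nat.beq (fB tb a b c d e f g h i) (fB tb a b c g h i d e f)))

/-- the bound for all colourings whose restriction to 0123 cannot be made smaller by a transposition -/
def bnd (T : ℕ) (tb : ℕ → ℕ → ℕ → ℕ) (CAP : ℕ) : Bool :=
  all3 fun a => all3 fun b => all3 fun c => all3 fun d => all3 fun e => all3 fun f =>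
    cond (Nat.blt (d6 a c b e d f) (d6 a b c d e f)) true
    (cond (Nat.blt (d6 b a c d f e) (d6 a b c d e f)) true
    (cond (Nat.blt (d6 a d e b c f) (d6 a b c d e f)) true
    (all3 fun p => all3 fun q => all3 fun r => all3 fun s =>
      Nat.ble (S T tb a b c d e f p q r s) CAP)))

end Pool.Agent.C44
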