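import Pool.Agent.C44.Gram

/-!
# The corner inequality and its convex combinations
-/

open Finset

namespace Pool.Agent.C44

section
variable {V : Type*} [Fintype V] (c : V → V → Fin 3)

/-- number of ordered pairs (equal points allowed) with colour `j` -/
def Mc (j : Fin 3) : ℕ := #{p : V × V | c p.1 p.2 = j}

/-- sum over all 4-tuples of the weight -/
def Phi (w0 w1 : ℕ) : ℕ := ∑ x0, ∑ x1, ∑ x2, ∑ x3, ph w0 w1 (c x0 x1) (c x0 x2) (c x1 x2) (c x0 x3) (c x1 x3) (c x2 x3)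

theorem sum_pairs (m : ℕ → ℤ) :
    ∑ x, ∑ y, m (c x y) = m 0 * Mc c 0 + m 1 * Mc c 1 + m 2 * Mc c 2 := by
  rw [← Fintype.sum_prod_type' (f := fun x y => m (c x y))]
  have h : ∀ p : V × V, m (c p.1 p.2) = ∑ j : Fin 3, if c p.1 p.2 = j then m j else 0 := by
    intro p
    simp
  rw [Finset.sum_congr rfl fun p _ => h p, Finset.sum_comm, Fin.sum_univ_three]
  simp only [← Finset.sum_filter, Finset.sum_const, nsmul_eq_mul, Mc]
  simp only [Fin.val_zero, Fin.val_one, Fin.val_two]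
  ring

theorem Mc_sum : Mc c 0 + Mc c 1 + Mc c 2 = Fintype.card V ^ 2 := by
  have h := sum_pairs c (fun _ => 1)
  simp only [Finset.sum_const, Finset.card_univ, nsmul_eq_mul, mul_one, one_mul] at h
  have : ((Mc c 0 + Mc c 1 + Mc c 2 : ℕ) : ℤ) = ((Fintype.card V ^ 2 : ℕ) : ℤ) := by
    push_cast
    rw [← h]
    ring
  exact_mod_cast this

/-- the multiplier sum -/
noncomputable def Pm (al R r0 r1 r2 : ℕ) : ℤ :=
  ∑ x0, ∑ x1, ∑ x2, (mult al R r0 r1 r2 (c x0 x1) (c x0 x2) (c x1 x2) 0 * Mc c 0 +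
    mult al R r0 r1 r2 (c x0 x1) (c x0 x2) (c x1 x2) 1 * Mc c 1 +
    mult al R r0 r1 r2 (c x0 x1) (c x0 x2) (c x1 x2) 2 * Mc c 2)

end

theorem sumA {V : Type*} [Fintype V] (c : V → V → Fin 3)
    {T ga mt al OFF R r0 r1 r2 o den : ℕ} {WA : List ℕ} {CA : List (List ℕ)}
    (hA : chkA T ga mt OFF = true) (hM : chkM mt al OFF R r0 r1 r2 = true)
    (hG : chkG ga OFF den WA o CA = true) (hd : 0 < den) :
    (OFF : ℤ) * (Fintype.card V : ℤ) ^ 5 + 2 * Pm c al R r0 r1 r2 ≤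
      ((∑ x0, ∑ x1, ∑ x2, ∑ x3, ∑ x4,
        fA T (c x0 x1) (c x0 x2) (c x1 x2) (c x0 x3) (c x0 x4) (c x3 x4) : ℕ) : ℤ) := by
  have h1 : ∀ a b c' d e f : Fin 3, (fA T a b c' d e f : ℤ) =
      OFF + ((lk ga (d6 a b c' d e f) : ℤ) - OFF) +
      (mult al R r0 r1 r2 a b c' f + mult al R r0 r1 r2 d e f c') := by
    intro a b c' d e f
    have h1 := chkA_spec hA a b c' d e f
    rw [chkM_spec hM, chkM_spec hM] at h1
    linarith
  have hG0 : 0 ≤ ∑ x0, ∑ x1, ∑ x2, ∑ x3, ∑ x4,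
      ((lk ga (d6 (c x0 x1) (c x0 x2) (c x1 x2) (c x0 x3) (c x0 x4) (c x3 x4)) : ℤ) - OFF) := by
    refine Finset.sum_nonneg fun x0 _ => ?_
    have := gram_nonneg (univ : Finset (V × V))
      (fun p => d3 (c x0 p.1) (c x0 p.2) (c p.1 p.2)) WA o CA
    simp only [Fintype.sum_prod_type, ← chkG_spec hG, ← Finset.mul_sum] at this
    exact nonneg_of_mul_nonneg_right this (by exact_mod_cast hd)
  have hP1 : ∑ x0, ∑ x1, ∑ x2, ∑ x3, ∑ x4,
      mult al R r0 r1 r2 (c x0 x1) (c x0 x2) (c x1 x2) (c x3 x4) = Pm c al R r0 r1 r2 := by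
    rw [Pm]
    refine Finset.sum_congr rfl fun x0 _ => Finset.sum_congr rfl fun x1 _ =>
      Finset.sum_congr rfl fun x2 _ => ?_
    exact sum_pairs c _
  have hP2 : ∑ x0, ∑ x1, ∑ x2, ∑ x3, ∑ x4,
      mult al R r0 r1 r2 (c x0 x3) (c x0 x4) (c x3 x4) (c x1 x2) = Pm c al R r0 r1 r2 := by
    rw [Pm]
    refine Finset.sum_congr rfl fun x0 _ => ?_
    have e1 : ∀ g : V → V → V → V → ℤ, ∑ x1, ∑ x2, ∑ x3, ∑ x4, g x1 x2 x3 x4 =
        ∑ x3, ∑ x4, ∑ x1, ∑ x2, g x1 x2 x3 x4 := by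
      intro g
      have := Finset.sum_comm (s := (univ : Finset (V × V))) (t := (univ : Finset (V × V)))
        (f := fun p q => g p.1 p.2 q.1 q.2)
      simpa only [Fintype.sum_prod_type] using this
    rw [e1]
    refine Finset.sum_congr rfl fun x1 _ => Finset.sum_congr rfl fun x2 _ => ?_
    exact sum_pairs c (fun j => mult al R r0 r1 r2 (c x0 x1) (c x0 x2) (c x1 x2) j)
  push_cast
  simp only [h1, Finset.sum_add_distrib, hP1, hP2]
  simp only [Finset.sum_const, Finset.card_univ, nsmul_eq_mul]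
  have : (Fintype.card V : ℤ) * ((Fintype.card V : ℤ) * ((Fintype.card V : ℤ) * ((Fintype.card V : ℤ) *
      ((Fintype.card V : ℤ) * OFF)))) = OFF * (Fintype.card V : ℤ) ^ 5 := by ring
  linarith

theorem sumB {V : Type*} [Fintype V] (c : V → V → Fin 3)
    {w0 w1 : ℕ} {tb : ℕ → ℕ → ℕ → ℕ} {D : BData} {OFF Q o : ℕ} (hB : chkB w0 w1 tb D.gb OFF Q = true)
    (hG : chkGB D OFF o = true) :
    (OFF : ℤ) * (Fintype.card V : ℤ) ^ 5 + 2 * Q * ((Fintype.card V : ℤ) * Phi c w0 w1) ≤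
      ((∑ x0, ∑ x1, ∑ x2, ∑ x3, ∑ x4, fB tb (c x0 x1) (c x0 x2) (c x1 x2) (c x0 x3) (c x1 x3) (c x2 x3)
        (c x0 x4) (c x1 x4) (c x2 x4) : ℕ) : ℤ) := by
  have hq : ∀ (g : V → V → V → V → V → ℤ), (∀ x0 x1 x2, 0 ≤ ∑ x3, ∑ x4, g x0 x1 x2 x3 x4) →
      0 ≤ ∑ x0, ∑ x1, ∑ x2, ∑ x3, ∑ x4, g x0 x1 x2 x3 x4 := by
    intro g hg
    exact Finset.sum_nonneg fun x0 _ => Finset.sum_nonneg fun x1 _ => Finset.sum_nonneg fun x2 _ =>
      hg x0 x1 x2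
  have q1 := hq _ fun x0 x1 x2 => kq_nonneg D o (c x0 x1) (c x0 x2) (c x1 x2) (fun x => c x0 x) (fun x => c x1 x) (fun x => c x2 x)
  have q2 := hq _ fun x0 x1 x2 => kq_nonneg D o (c x0 x2) (c x0 x1) (c x1 x2) (fun x => c x0 x) (fun x => c x2 x) (fun x => c x1 x)
  have q3 := hq _ fun x0 x1 x2 => kq_nonneg D o (c x0 x1) (c x1 x2) (c x0 x2) (fun x => c x1 x) (fun x => c x0 x) (fun x => c x2 x)
  have q4 := hq _ fun x0 x1 x2 => kq_nonneg D o (c x1 x2) (c x0 x1) (c x0 x2) (fun x => c x1 x) (fun x => c x2 x) (fun x => c x0 x)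
  have q5 := hq _ fun x0 x1 x2 => kq_nonneg D o (c x0 x2) (c x1 x2) (c x0 x1) (fun x => c x2 x) (fun x => c x0 x) (fun x => c x1 x)
  have q6 := hq _ fun x0 x1 x2 => kq_nonneg D o (c x1 x2) (c x0 x2) (c x0 x1) (fun x => c x2 x) (fun x => c x1 x) (fun x => c x0 x)
  push_cast
  simp only [fB_eq hB hG, Finset.sum_add_distrib, ← Finset.mul_sum]
  simp only [Finset.sum_const, Finset.card_univ, nsmul_eq_mul]
  have p1 : ∑ x0, ∑ x1, ∑ x2, ∑ x3, (Fintype.card V : ℤ) *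
      (ph w0 w1 (c x0 x1) (c x0 x2) (c x1 x2) (c x0 x3) (c x1 x3) (c x2 x3) : ℤ) =
      (Fintype.card V : ℤ) * Phi c w0 w1 := by
    simp only [← Finset.mul_sum]
    rw [Phi]
    push_cast
    rfl
  have p2 : ∑ x0, ∑ x1, ∑ x2, (Fintype.card V : ℤ) *
      ∑ x3, (ph w0 w1 (c x0 x1) (c x0 x2) (c x1 x2) (c x0 x3) (c x1 x3) (c x2 x3) : ℤ) =
      (Fintype.card V : ℤ) * Phi c w0 w1 := by
    simp only [← Finset.mul_sum]
    rw [Phi]
    push_cast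
    rfl
  rw [p1, p2]
  have : (Fintype.card V : ℤ) * ((Fintype.card V : ℤ) * ((Fintype.card V : ℤ) * ((Fintype.card V : ℤ) *
      ((Fintype.card V : ℤ) * OFF)))) = OFF * (Fintype.card V : ℤ) ^ 5 := by ring
  linarith

/-- the inequality of one corner -/
def CI (w0 w1 al R Q B r0 r1 r2 : ℕ) : Prop :=
  ∀ (V : Type) [Fintype V] (c : V → V → Fin 3), (∀ x y, c x y = c y x) →
    30 * Pm c al R r0 r1 r2 + 20 * Q * ((Fintype.card V : ℤ) * Phi c w0 w1) ≤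
      B * (Fintype.card V : ℤ) ^ 5

theorem corner {w0 w1 : ℕ} {T ga mt al OFF R r0 r1 r2 o oB den Q B CAP : ℕ} {WA : List ℕ} {CA : List (List ℕ)}
    {tb : ℕ → ℕ → ℕ → ℕ} {D : BData}
    (sA : symA T = true) (sB : symB tb = true) (hb : bnd T tb CAP = true)
    (hA : chkA T ga mt OFF = true) (hM : chkM mt al OFF R r0 r1 r2 = true)
    (hGA : chkG ga OFF den WA o CA = true) (hd : 0 < den) (hB : chkB w0 w1 tb D.gb OFF Q = true)
    (hGB : chkGB D OFF oB = true) (hc : CAP ≤ B + 25 * OFF) : CI w0 w1 al R Q B r0 r1 r2 := by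
  intro V _ c hs
  have h := sum_bound sA sB hb c hs
  have h1 := sumA c hA hM hGA hd
  have h2 := sumB c hB hGB
  have h' : 15 * ((∑ x0, ∑ x1, ∑ x2, ∑ x3, ∑ x4,
        fA T (c x0 x1) (c x0 x2) (c x1 x2) (c x0 x3) (c x0 x4) (c x3 x4) : ℕ) : ℤ) +
      10 * ((∑ x0, ∑ x1, ∑ x2, ∑ x3, ∑ x4, fB tb (c x0 x1) (c x0 x2) (c x1 x2) (c x0 x3) (c x1 x3) (c x2 x3)
        (c x0 x4) (c x1 x4) (c x2 x4) : ℕ) : ℤ) ≤ (B + 25 * OFF) * (Fintype.card V : ℤ) ^ 5 := by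
    refine le_trans (b := ((CAP * Fintype.card V ^ 5 : ℕ) : ℤ)) (by exact_mod_cast h) ?_
    push_cast
    exact mul_le_mul_of_nonneg_right (by exact_mod_cast hc) (by positivity)
  have e1 : 15 * ((OFF : ℤ) * (Fintype.card V : ℤ) ^ 5) + 10 * ((OFF : ℤ) * (Fintype.card V : ℤ) ^ 5) +
      B * (Fintype.card V : ℤ) ^ 5 = (B + 25 * OFF) * (Fintype.card V : ℤ) ^ 5 := by ring
  linarith

end Pool.Agent.C44
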