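import Pool.Agent.C44.Corner

open Finset

namespace Pool.Agent.C44

/-- number of pairs `P ⊆ e` with the same colour as the complementary pair (0, 2, 4 or 6) -/
def monoP {n : ℕ} (χ : Finset (Fin n) → Fin 3) (e : Finset (Fin n)) : ℕ :=
  #{P ∈ e.powersetCard 2 | χ P = χ (e \ P)}

theorem monoP_map {n : ℕ} (χ : Finset (Fin n) → Fin 3) (x : Fin 4 ↪ Fin n) :
    monoP χ (univ.map x) =
      2 * ((if χ {x 0, x 1} = χ {x 2, x 3} then 1 else 0) + (if χ {x 0, x 2} = χ {x 1, x 3} then 1 else 0) +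
        (if χ {x 0, x 3} = χ {x 1, x 2} then 1 else 0)) := by
  have h6 : (univ : Finset (Fin 4)).powersetCard 2 =
      {{0, 1}, {2, 3}, {0, 2}, {1, 3}, {0, 3}, {1, 2}} := by decide
  have hc : ∀ P : Finset (Fin 4), (univ.map x) \ (P.map x) = (univ \ P).map x := by
    intro P
    rw [Finset.map_sdiff]
  unfold monoP
  rw [Finset.powersetCard_map, Finset.filter_map, Finset.card_map, h6]
  simp only [Function.comp_def, RelEmbedding.coe_toEmbedding, Finset.mapEmbedding_apply, hc]
  have e1 : (univ \ {0, 1} : Finset (Fin 4)) = {2, 3} := by decide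
  have e2 : (univ \ {2, 3} : Finset (Fin 4)) = {0, 1} := by decide
  have e3 : (univ \ {0, 2} : Finset (Fin 4)) = {1, 3} := by decide
  have e4 : (univ \ {1, 3} : Finset (Fin 4)) = {0, 2} := by decide
  have e5 : (univ \ {0, 3} : Finset (Fin 4)) = {1, 2} := by decide
  have e6 : (univ \ {1, 2} : Finset (Fin 4)) = {0, 3} := by decide
  rw [Finset.card_filter]
  rw [Finset.sum_insert (by decide), Finset.sum_insert (by decide), Finset.sum_insert (by decide),
    Finset.sum_insert (by decide), Finset.sum_insert (by decide), Finset.sum_singleton]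
  rw [e1, e2, e3, e4, e5, e6]
  simp only [Finset.map_insert, Finset.map_singleton]
  have sw : ∀ a b : Fin 3, (if a = b then 1 else 0 : ℕ) = if b = a then 1 else 0 := by decide
  rw [sw (χ {x 2, x 3}), sw (χ {x 1, x 3}), sw (χ {x 1, x 2})]
  ring

/-- tuples as nested products -/
def tup4 (V : Type*) : (Fin 4 → V) ≃ V × V × V × V where
  toFun x := (x 0, x 1, x 2, x 3)
  invFun p := ![p.1, p.2.1, p.2.2.1, p.2.2.2]
  left_inv x := by
    funext i
    fin_cases i <;> rfl
  right_inv p := rfl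

theorem sum4 {V M : Type*} [Fintype V] [AddCommMonoid M] (g : V → V → V → V → M) :
    ∑ x : Fin 4 → V, g (x 0) (x 1) (x 2) (x 3) = ∑ a, ∑ b, ∑ c, ∑ d, g a b c d := by
  rw [← Equiv.sum_comp (tup4 V).symm]
  simp only [Fintype.sum_prod_type]
  rfl

theorem ph_eq (w0 w1 : ℕ) (a b d e f g : Fin 3) :
    ph w0 w1 a b d e f g = if (if a = g then 1 else 0) + (if b = f then 1 else 0) +
      (if e = d then 1 else 0) = 0 then w0 else if (if a = g then 1 else 0) + (if b = f then 1 else 0) +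
      (if e = d then 1 else 0) = 1 then w1 else 0 := by
  have h1 : Nat.beq (a : ℕ) g = decide (a = g) := by
    rw [Bool.eq_iff_iff]
    simp [Fin.ext_iff]
  have h2 : Nat.beq (b : ℕ) f = decide (b = f) := by
    rw [Bool.eq_iff_iff]
    simp [Fin.ext_iff]
  have h3 : Nat.beq (d : ℕ) e = decide (e = d) := by
    rw [Bool.eq_iff_iff, Nat.beq_eq, decide_eq_true_iff, Fin.ext_iff]
    exact eq_comm
  unfold ph
  rw [h1, h2, h3]
  by_cases u : a = g <;> by_cases v : b = f <;> by_cases w : e = d <;> simp [u, v, w]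

/-- the weight of an edge -/
def wgt {n : ℕ} (χ : Finset (Fin n) → Fin 3) (w0 w1 : ℕ) (e : Finset (Fin n)) : ℕ :=
  if monoP χ e = 0 then w0 else if monoP χ e = 2 then w1 else 0

theorem count {n : ℕ} (χ : Finset (Fin n) → Fin 3) (w0 w1 : ℕ) (H : Finset (Finset (Fin n)))
    (hH : ∀ e ∈ H, e.card = 4) :
    24 * ∑ e ∈ H, wgt χ w0 w1 e ≤ Phi (fun x y => χ {x, y}) w0 w1 := by
  classical
  have h1 : Phi (fun x y => χ {x, y}) w0 w1 = ∑ x : Fin 4 → Fin n,
      ph w0 w1 (χ {x 0, x 1}) (χ {x 0, x 2}) (χ {x 1, x 2}) (χ {x 0, x 3}) (χ {x 1, x 3}) (χ {x 2, x 3}) := by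
    rw [Phi, ← sum4]
  rw [h1]
  -- tuples with image e
  have h2 : ∑ e ∈ H, ∑ x ∈ (univ : Finset (Fin 4 → Fin n)).filter (fun x => univ.image x = e),
      ph w0 w1 (χ {x 0, x 1}) (χ {x 0, x 2}) (χ {x 1, x 2}) (χ {x 0, x 3}) (χ {x 1, x 3}) (χ {x 2, x 3}) ≤
      ∑ x : Fin 4 → Fin n,
      ph w0 w1 (χ {x 0, x 1}) (χ {x 0, x 2}) (χ {x 1, x 2}) (χ {x 0, x 3}) (χ {x 1, x 3}) (χ {x 2, x 3}) := by
    rw [← Finset.sum_fiberwise_of_maps_to (s := (univ : Finset (Fin 4 → Fin n))) (t := univ)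
      (g := fun x => univ.image x) (fun x _ => mem_univ _)]
    exact Finset.sum_le_sum_of_subset (subset_univ H)
  refine le_trans ?_ h2
  rw [Finset.mul_sum]
  refine Finset.sum_le_sum fun e he => ?_
  have hc := hH e he
  have h3 : ∀ x ∈ (univ : Finset (Fin 4 → Fin n)).filter (fun x => univ.image x = e),
      ph w0 w1 (χ {x 0, x 1}) (χ {x 0, x 2}) (χ {x 1, x 2}) (χ {x 0, x 3}) (χ {x 1, x 3}) (χ {x 2, x 3}) =
      wgt χ w0 w1 e := by
    intro x hx
    rw [Finset.mem_filter] at hx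
    have hinj : Function.Injective x := by
      have : (univ.image x).card = (univ : Finset (Fin 4)).card := by
        rw [hx.2, hc, Finset.card_univ, Fintype.card_fin]
      have := Finset.card_image_iff.1 this
      rwa [Finset.coe_univ, Set.injOn_univ] at this
    have he' : univ.map ⟨x, hinj⟩ = e := by
      rw [Finset.map_eq_image]
      exact hx.2
    have hm := monoP_map χ ⟨x, hinj⟩
    rw [he'] at hm
    simp only [Function.Embedding.coeFn_mk] at hm
    rw [ph_eq, wgt, hm]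
    generalize (if χ {x 0, x 1} = χ {x 2, x 3} then 1 else 0) + (if χ {x 0, x 2} = χ {x 1, x 3} then 1 else 0) +
        (if χ {x 0, x 3} = χ {x 1, x 2} then 1 else 0) = N
    have a1 : (2 * N = 0) = (N = 0) := by
      apply propext
      omega
    have a2 : (2 * N = 2) = (N = 1) := by
      apply propext
      omega
    simp only [a1, a2]
  rw [Finset.sum_congr rfl h3, Finset.sum_const, smul_eq_mul]
  refine Nat.mul_le_mul_right _ ?_
  have e0 : Fin 4 ≃ {a // a ∈ e} := (Finset.equivFinOfCardEq hc).symm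
  have h24 : Fintype.card (Fin 4 ≃ {a // a ∈ e}) = 24 := by
    rw [Fintype.card_equiv e0, Fintype.card_fin]
    rfl
  rw [← h24, ← Finset.card_univ]
  refine Finset.card_le_card_of_injOn (fun σ i => ((σ i : {a // a ∈ e}) : Fin n)) ?_ ?_
  · intro σ _
    rw [Finset.mem_coe, Finset.mem_filter]
    refine ⟨mem_univ _, ?_⟩
    ext a
    rw [Finset.mem_image]
    constructor
    · rintro ⟨i, _, rfl⟩
      exact (σ i).2
    · intro ha
      exact ⟨σ.symm ⟨a, ha⟩, mem_univ _, by simp⟩
  · intro σ _ τ _ h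
    ext i
    exact congrArg Fin.val (congrFun h i)

end Pool.Agent.C44
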