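import Pool.Agent.C44.Cells

/-!
# The bound for all colour densities
-/

open Finset

namespace Pool.Agent.C44

section
variable {V : Type} [Fintype V] (c : V → V → Fin 3)

theorem Phi_eq (w0 w1 : ℕ) : Phi c w0 w1 = ∑ x0, ∑ x1, ∑ x2, ∑ x3,
    ph w0 w1 (c x0 x1) (c x0 x2) (c x1 x2) (c x0 x3) (c x1 x3) (c x2 x3) := rfl

theorem ph_le {w0 w1 : ℕ} (hw : 3 * w1 ≤ 2 * w0) (a b d e f g : Fin 3) :
    3 * ph w0 w1 a b d e f g ≤ w0 * ((if a = g then 0 else 1) + (if b = f then 0 else 1) +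
      (if d = e then 0 else 1)) := by
  have h1 : Nat.beq (a : ℕ) g = decide (a = g) := by
    rw [Bool.eq_iff_iff]
    simp [Fin.ext_iff]
  have h2 : Nat.beq (b : ℕ) f = decide (b = f) := by
    rw [Bool.eq_iff_iff]
    simp [Fin.ext_iff]
  have h3 : Nat.beq (d : ℕ) e = decide (d = e) := by
    rw [Bool.eq_iff_iff]
    simp [Fin.ext_iff]
  unfold ph
  rw [h1, h2, h3]
  by_cases u : a = g <;> by_cases v : b = f <;> by_cases w : d = e <;> simp [u, v, w] <;> omega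

/-- number of pairs of pairs with the same colour -/
theorem sum_eq_color : ∑ x0, ∑ x1, ∑ x2, ∑ x3, (if c x0 x1 = c x2 x3 then 1 else 0 : ℕ) =
    Mc c 0 ^ 2 + Mc c 1 ^ 2 + Mc c 2 ^ 2 := by
  have h : ∀ j : Fin 3, ∑ x2, ∑ x3, (if j = c x2 x3 then 1 else 0 : ℕ) = Mc c j := by
    intro j
    rw [← Fintype.sum_prod_type' (f := fun x y => if j = c x y then 1 else 0)]
    rw [Finset.sum_boole]
    simp only [Mc, eq_comm, Nat.cast_id]
  simp only [h]
  rw [← Fintype.sum_prod_type' (f := fun x y => Mc c (c x y))]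
  have h' : ∀ p : V × V, Mc c (c p.1 p.2) = ∑ j : Fin 3, if c p.1 p.2 = j then Mc c j else 0 := by
    intro p
    simp
  rw [Finset.sum_congr rfl fun p _ => h' p, Finset.sum_comm, Fin.sum_univ_three]
  simp only [← Finset.sum_filter, Finset.sum_const, smul_eq_mul]
  have e : ∀ j : Fin 3, #{p : V × V | c p.1 p.2 = j} = Mc c j := fun j => rfl
  rw [e, e, e]
  ring

theorem trivial_bound {w0 w1 : ℕ} (hw : 3 * w1 ≤ 2 * w0) :
    Phi c w0 w1 + w0 * (Mc c 0 ^ 2 + Mc c 1 ^ 2 + Mc c 2 ^ 2) ≤ w0 * Fintype.card V ^ 4 := by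
  have s1 : ∑ x0, ∑ x1, ∑ x2, ∑ x3, (if c x0 x1 = c x2 x3 then 0 else 1 : ℕ) +
      (Mc c 0 ^ 2 + Mc c 1 ^ 2 + Mc c 2 ^ 2) = Fintype.card V ^ 4 := by
    rw [← sum_eq_color]
    simp only [← Finset.sum_add_distrib]
    have : ∀ x0 x1 x2 x3 : V, ((if c x0 x1 = c x2 x3 then 0 else 1 : ℕ) +
        if c x0 x1 = c x2 x3 then 1 else 0) = 1 := by
      intro x0 x1 x2 x3
      split_ifs <;> rfl
    simp only [this, Finset.sum_const, Finset.card_univ, smul_eq_mul]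
    ring
  have s2 : ∑ x0, ∑ x1, ∑ x2, ∑ x3, (if c x0 x2 = c x1 x3 then 0 else 1 : ℕ) =
      ∑ x0, ∑ x1, ∑ x2, ∑ x3, (if c x0 x1 = c x2 x3 then 0 else 1 : ℕ) := by
    refine Finset.sum_congr rfl fun x0 _ => ?_
    rw [Finset.sum_comm]
  have s3 : ∑ x0, ∑ x1, ∑ x2, ∑ x3, (if c x1 x2 = c x0 x3 then 0 else 1 : ℕ) =
      ∑ x0, ∑ x1, ∑ x2, ∑ x3, (if c x0 x1 = c x2 x3 then 0 else 1 : ℕ) := by
    have e1 : ∀ x0, ∑ x1, ∑ x2, ∑ x3, (if c x1 x2 = c x0 x3 then 0 else 1 : ℕ) =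
        ∑ x3, ∑ x1, ∑ x2, (if c x1 x2 = c x0 x3 then 0 else 1 : ℕ) := by
      intro x0
      rw [Finset.sum_congr rfl fun x1 _ => Finset.sum_comm, Finset.sum_comm]
    rw [Finset.sum_congr rfl fun x0 _ => e1 x0]
    refine Finset.sum_congr rfl fun x0 _ => Finset.sum_congr rfl fun x1 _ =>
      Finset.sum_congr rfl fun x2 _ => Finset.sum_congr rfl fun x3 _ => ?_
    simp only [eq_comm]
  have h : 3 * Phi c w0 w1 ≤ w0 * (3 * ∑ x0, ∑ x1, ∑ x2, ∑ x3, (if c x0 x1 = c x2 x3 then 0 else 1 : ℕ)) := by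
    have h0 : 3 * Phi c w0 w1 ≤ ∑ x0, ∑ x1, ∑ x2, ∑ x3, w0 * ((if c x0 x1 = c x2 x3 then 0 else 1) +
        (if c x0 x2 = c x1 x3 then 0 else 1) + (if c x1 x2 = c x0 x3 then 0 else 1)) := by
      rw [Phi_eq]
      simp only [Finset.mul_sum]
      exact Finset.sum_le_sum fun x0 _ => Finset.sum_le_sum fun x1 _ => Finset.sum_le_sum fun x2 _ =>
        Finset.sum_le_sum fun x3 _ => ph_le hw _ _ _ _ _ _
    simp only [← Finset.mul_sum, Finset.sum_add_distrib] at h0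
    rw [s2, s3] at h0
    linarith
  nlinarith [h, s1]

/-- in the region to the left of the line through (195,0) and (261,246) the trivial bound suffices -/
theorem trivial_region {X Y : ℝ} (h : 246 * (X - 195) ≤ 66 * Y) :
    5 * (2 * 1024 ^ 2) ≤ 7 * ((1024 - X + Y) ^ 2 + (1024 - X - Y) ^ 2 + 4 * X ^ 2) := by
  nlinarith [sq_nonneg (X - 221), sq_nonneg (Y - 97), sq_nonneg (X - 221 - (Y - 97)),
    sq_nonneg (6 * (X - 221) + (Y - 97))]

end

/-- all corner inequalities of the four cells; `K` is the bound -/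
structure Family (w0 w1 : ℕ) (K : ℝ) : Prop where
  hw : 3 * w1 ≤ 2 * w0
  hK : 9 * (w0 : ℝ) ≤ 14 * K
  T : ∃ al Q B : ℕ, 0 < Q ∧ (B : ℝ) ≤ 20 * Q * K ∧ Pt w0 w1 al Q B 195 0 ∧ Pt w0 w1 al Q B 294 0 ∧
    Pt w0 w1 al Q B 287 20
  A : ∃ al Q B : ℕ, 0 < Q ∧ (B : ℝ) ≤ 20 * Q * K ∧ Pt w0 w1 al Q B 195 0 ∧ Pt w0 w1 al Q B 287 20 ∧
    Pt w0 w1 al Q B 293 149 ∧ Pt w0 w1 al Q B 261 246
  M : ∃ al Q B : ℕ, 0 < Q ∧ (B : ℝ) ≤ 20 * Q * K ∧ Pt w0 w1 al Q B 287 20 ∧ Pt w0 w1 al Q B 294 0 ∧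
    Pt w0 w1 al Q B 316 0 ∧ Pt w0 w1 al Q B 293 149
  C : ∃ al Q B : ℕ, 0 < Q ∧ (B : ℝ) ≤ 20 * Q * K ∧ Pt w0 w1 al Q B 316 0 ∧ Pt w0 w1 al Q B 293 149 ∧
    Pt w0 w1 al Q B 342 0

theorem fin_of {Q B P K N : ℝ} (hQ : 0 < Q) (hB : B ≤ 20 * Q * K) (hN : 0 ≤ N)
    (h : 20 * Q * P ≤ B * N) : P ≤ K * N := by
  have h1 : 20 * Q * P ≤ 20 * Q * (K * N) := by
    calc _ ≤ B * N := h
      _ ≤ 20 * Q * K * N := mul_le_mul_of_nonneg_right hB hN
      _ = _ := by ring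
  exact le_of_mul_le_mul_left h1 (by positivity)

/-- the bound when the colours are sorted by frequency -/
theorem Family.sorted {w0 w1 : ℕ} {K : ℝ} (F : Family w0 w1 K) {V : Type} [Fintype V]
    (c : V → V → Fin 3) (hs : ∀ x y, c x y = c y x) (h01 : Mc c 1 ≤ Mc c 0) (h12 : Mc c 2 ≤ Mc c 1) :
    (Phi c w0 w1 : ℝ) ≤ K * (Fintype.card V : ℝ) ^ 4 := by
  rcases Nat.eq_zero_or_pos (Fintype.card V) with hn | hn
  · have : IsEmpty V := Fintype.card_eq_zero_iff.1 hn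
    have h0 : Phi c w0 w1 = 0 := by
      rw [Phi_eq]
      simp
    rw [h0, hn]
    simp
  have hM : (Fintype.card V : ℝ) ^ 2 = Mc c 0 + Mc c 1 + Mc c 2 := by
    have := Mc_sum c
    exact_mod_cast this.symm
  have hn' : (0 : ℝ) < (Fintype.card V : ℝ) ^ 2 := by positivity
  have hN4 : (0 : ℝ) ≤ (Fintype.card V : ℝ) ^ 4 := by positivity
  obtain ⟨X, hXdef⟩ : ∃ X : ℝ, X = 1024 * Mc c 2 / (Fintype.card V : ℝ) ^ 2 := ⟨_, rfl⟩
  obtain ⟨Y, hYdef⟩ : ∃ Y : ℝ, Y = 1024 * (Mc c 0 - Mc c 1) / (Fintype.card V : ℝ) ^ 2 := ⟨_, rfl⟩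
  have hX : X * (Fintype.card V : ℝ) ^ 2 = 1024 * Mc c 2 := by
    rw [hXdef]
    field_simp
  have hY : Y * (Fintype.card V : ℝ) ^ 2 = 1024 * (Mc c 0 - Mc c 1) := by
    rw [hYdef]
    field_simp
  have r01 : (Mc c 1 : ℝ) ≤ Mc c 0 := by exact_mod_cast h01
  have r12 : (Mc c 2 : ℝ) ≤ Mc c 1 := by exact_mod_cast h12
  have hY0 : 0 ≤ Y := by
    rw [hYdef]
    apply div_nonneg _ hn'.le
    linarith
  have hXY : Y ≤ 1024 - 3 * X := by
    have : Y * (Fintype.card V : ℝ) ^ 2 ≤ (1024 - 3 * X) * (Fintype.card V : ℝ) ^ 2 := by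
      linarith
    exact le_of_mul_le_mul_right this hn'
  by_cases t0 : 246 * (X - 195) ≤ 66 * Y
  · -- trivial region
    have h := trivial_region t0
    have hb := trivial_bound c F.hw
    have hb' : (Phi c w0 w1 : ℝ) + w0 * ((Mc c 0 : ℝ) ^ 2 + (Mc c 1 : ℝ) ^ 2 + (Mc c 2 : ℝ) ^ 2) ≤
        w0 * (Fintype.card V : ℝ) ^ 4 := by exact_mod_cast hb
    have hsq : 5 * (Fintype.card V : ℝ) ^ 4 ≤
        14 * ((Mc c 0 : ℝ) ^ 2 + (Mc c 1 : ℝ) ^ 2 + (Mc c 2 : ℝ) ^ 2) := by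
      have m0 : 2048 * (Mc c 0 : ℝ) = (1024 - X + Y) * (Fintype.card V : ℝ) ^ 2 := by linarith
      have m1 : 2048 * (Mc c 1 : ℝ) = (1024 - X - Y) * (Fintype.card V : ℝ) ^ 2 := by linarith
      have m2 : 2048 * (Mc c 2 : ℝ) = 2 * X * (Fintype.card V : ℝ) ^ 2 := by linarith
      have e : 2048 ^ 2 * ((Mc c 0 : ℝ) ^ 2 + (Mc c 1 : ℝ) ^ 2 + (Mc c 2 : ℝ) ^ 2) =
          ((1024 - X + Y) ^ 2 + (1024 - X - Y) ^ 2 + 4 * X ^ 2) * (Fintype.card V : ℝ) ^ 4 := by
        calc _ = (2048 * (Mc c 0 : ℝ)) ^ 2 + (2048 * (Mc c 1 : ℝ)) ^ 2 + (2048 * (Mc c 2 : ℝ)) ^ 2 := by ring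
          _ = _ := by
            rw [m0, m1, m2]
            ring
      have := mul_le_mul_of_nonneg_right h hN4
      linarith
    have hw0 : (0 : ℝ) ≤ w0 := Nat.cast_nonneg _
    have k1 := mul_le_mul_of_nonneg_left hsq hw0
    have k2 := mul_le_mul_of_nonneg_right F.hK hN4
    linarith
  · rw [not_le] at t0
    by_cases t1 : 149 * (X - 195) ≤ 98 * Y
    · obtain ⟨al, Q, B, hQ, hB, g0, g1, g2, g3⟩ := F.A
      refine fin_of (by exact_mod_cast hQ) hB hN4 (tri c g0 g2 g3 (by norm_num) (by norm_num) (by norm_num)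
        hs hX hY hn ?_ ?_ ?_ ?_)
      all_goals push_cast; linarith
    · rw [not_le] at t1
      by_cases t2 : 20 * (X - 195) ≤ 92 * Y
      · by_cases t3 : 129 * (X - 287) ≤ 6 * (Y - 20)
        · obtain ⟨al, Q, B, hQ, hB, g0, g1, g2, g3⟩ := F.A
          refine fin_of (by exact_mod_cast hQ) hB hN4 (tri c g0 g1 g2 (by norm_num) (by norm_num)
            (by norm_num) hs hX hY hn ?_ ?_ ?_ ?_)
          all_goals push_cast; linarith
        · rw [not_le] at t3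
          by_cases t4 : 149 * (X - 294) ≤ - Y
          · obtain ⟨al, Q, B, hQ, hB, g0, g1, g2, g3⟩ := F.M
            refine fin_of (by exact_mod_cast hQ) hB hN4 (tri c g0 g1 g3 (by norm_num) (by norm_num)
              (by norm_num) hs hX hY hn ?_ ?_ ?_ ?_)
            all_goals push_cast; linarith
          · rw [not_le] at t4
            by_cases t5 : 149 * (X - 316) ≤ - 23 * Y
            · obtain ⟨al, Q, B, hQ, hB, g0, g1, g2, g3⟩ := F.M
              refine fin_of (by exact_mod_cast hQ) hB hN4 (tri c g1 g2 g3 (by norm_num) (by norm_num)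
                (by norm_num) hs hX hY hn ?_ ?_ ?_ ?_)
              all_goals push_cast; linarith
            · rw [not_le] at t5
              obtain ⟨al, Q, B, hQ, hB, g0, g1, g2⟩ := F.C
              refine fin_of (by exact_mod_cast hQ) hB hN4 (tri c g0 g2 g1 (by norm_num) (by norm_num)
                (by norm_num) hs hX hY hn ?_ ?_ ?_ ?_)
              all_goals push_cast; linarith
      · rw [not_le] at t2
        by_cases t3 : 20 * (X - 294) ≤ - 7 * Y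
        · obtain ⟨al, Q, B, hQ, hB, g0, g1, g2⟩ := F.T
          refine fin_of (by exact_mod_cast hQ) hB hN4 (tri c g0 g1 g2 (by norm_num) (by norm_num)
            (by norm_num) hs hX hY hn ?_ ?_ ?_ ?_)
          all_goals push_cast; linarith
        · rw [not_le] at t3
          by_cases t4 : 149 * (X - 294) ≤ - Y
          · obtain ⟨al, Q, B, hQ, hB, g0, g1, g2, g3⟩ := F.M
            refine fin_of (by exact_mod_cast hQ) hB hN4 (tri c g0 g1 g3 (by norm_num) (by norm_num)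
              (by norm_num) hs hX hY hn ?_ ?_ ?_ ?_)
            all_goals push_cast; linarith
          · rw [not_le] at t4
            by_cases t5 : 149 * (X - 316) ≤ - 23 * Y
            · obtain ⟨al, Q, B, hQ, hB, g0, g1, g2, g3⟩ := F.M
              refine fin_of (by exact_mod_cast hQ) hB hN4 (tri c g1 g2 g3 (by norm_num) (by norm_num)
                (by norm_num) hs hX hY hn ?_ ?_ ?_ ?_)
              all_goals push_cast; linarith
            · rw [not_le] at t5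
              obtain ⟨al, Q, B, hQ, hB, g0, g1, g2⟩ := F.C
              refine fin_of (by exact_mod_cast hQ) hB hN4 (tri c g0 g2 g1 (by norm_num) (by norm_num)
                (by norm_num) hs hX hY hn ?_ ?_ ?_ ?_)
              all_goals push_cast; linarith

theorem beq_perm (σ : Equiv.Perm (Fin 3)) (a b : Fin 3) :
    Nat.beq (σ a : ℕ) (σ b) = Nat.beq (a : ℕ) b := by
  rw [Bool.eq_iff_iff]
  simp only [Nat.beq_eq, Fin.val_inj, EmbeddingLike.apply_eq_iff_eq]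

theorem Phi_perm (σ : Equiv.Perm (Fin 3)) {V : Type} [Fintype V] (c : V → V → Fin 3) (w0 w1 : ℕ) :
    Phi (fun x y => σ (c x y)) w0 w1 = Phi c w0 w1 := by
  simp only [Phi, ph, beq_perm]

theorem Mc_perm (σ : Equiv.Perm (Fin 3)) {V : Type} [Fintype V] (c : V → V → Fin 3) (j : Fin 3) :
    Mc (fun x y => σ (c x y)) j = Mc c (σ.symm j) := by
  unfold Mc
  congr 1
  ext p
  simp only [Finset.mem_filter, Finset.mem_univ, true_and]
  exact (Equiv.eq_symm_apply σ).symm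

/-- the bound for every 3-colouring -/
theorem Family.all {w0 w1 : ℕ} {K : ℝ} (F : Family w0 w1 K) {V : Type} [Fintype V]
    (c : V → V → Fin 3) (hs : ∀ x y, c x y = c y x) :
    (Phi c w0 w1 : ℝ) ≤ K * (Fintype.card V : ℝ) ^ 4 := by
  have key : ∀ σ : Equiv.Perm (Fin 3), Mc c (σ.symm 1) ≤ Mc c (σ.symm 0) →
      Mc c (σ.symm 2) ≤ Mc c (σ.symm 1) → (Phi c w0 w1 : ℝ) ≤ K * (Fintype.card V : ℝ) ^ 4 := by
    intro σ h01 h12
    rw [← Phi_perm σ c w0 w1]
    refine F.sorted _ (fun x y => by rw [hs]) ?_ ?_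
    · rw [Mc_perm, Mc_perm]
      exact h01
    · rw [Mc_perm, Mc_perm]
      exact h12
  have f1 : ∀ τ : Equiv.Perm (Fin 3), Mc c (τ 1) ≤ Mc c (τ 0) → Mc c (τ 2) ≤ Mc c (τ 1) →
      (Phi c w0 w1 : ℝ) ≤ K * (Fintype.card V : ℝ) ^ 4 := by
    intro τ h1 h2
    exact key τ.symm h1 h2
  have g : ∀ a b d : Fin 3, a ≠ b → a ≠ d → b ≠ d → Mc c b ≤ Mc c a → Mc c d ≤ Mc c b →
      (Phi c w0 w1 : ℝ) ≤ K * (Fintype.card V : ℝ) ^ 4 := by
    intro a b d hab had hbd h1 h2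
    let τ : Equiv.Perm (Fin 3) := Equiv.ofBijective ![a, b, d] (by
      rw [← Finite.injective_iff_bijective]
      intro i j hij
      fin_cases i <;> fin_cases j <;> simp_all [eq_comm])
    exact f1 τ h1 h2
  rcases le_total (Mc c 1) (Mc c 0) with h | h <;> rcases le_total (Mc c 2) (Mc c 1) with h' | h' <;>
    rcases le_total (Mc c 2) (Mc c 0) with h'' | h''
  · exact g 0 1 2 (by decide) (by decide) (by decide) h h'
  · exact g 0 1 2 (by decide) (by decide) (by decide) h h'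
  · exact g 0 2 1 (by decide) (by decide) (by decide) h'' h'
  · exact g 2 0 1 (by decide) (by decide) (by decide) h'' h
  · exact g 1 0 2 (by decide) (by decide) (by decide) h h''
  · exact g 1 2 0 (by decide) (by decide) (by decide) h' h''
  · exact g 2 1 0 (by decide) (by decide) (by decide) h' h
  · exact g 2 1 0 (by decide) (by decide) (by decide) h' h

end Pool.Agent.C44
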