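import Pool.Agent.C44.Cover
import Pool.Agent.C44.ET
import Pool.Agent.C44.EA
import Pool.Agent.C44.EM0
import Pool.Agent.C44.EM1
import Pool.Agent.C44.EM2
import Pool.Agent.C44.EC0
import Pool.Agent.C44.EC1
import Pool.Agent.C44.EC2

/-!
# `q0 + (7/16) q1 ≤ 9/14` for every 3-colouring of the pairs
-/

namespace Pool.Agent.C44

theorem exact_family : Family 16 7 (72 / 7) where
  hw := by norm_num
  hK := by norm_num
  T := ⟨ET.al, 1443109011456, 296868139499520, by norm_num, by norm_num, ET.pt0, ET.pt1, ET.pt2⟩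
  A := ⟨EA.al, 412316860416, 84819468428434, by norm_num, by norm_num, EA.pt0, EA.pt1, EA.pt2, EA.pt3⟩
  M := ⟨EM0.al, 412316860416, 84819468428434, by norm_num, by norm_num, EM0.pt0, EM0.pt1, EM1.pt2, EM2.pt3⟩
  C := ⟨EC0.al, 412316860416, 84819468428434, by norm_num, by norm_num, EC0.pt0, EC1.pt1, EC2.pt2⟩

theorem exact_bound {V : Type} [Fintype V] (c : V → V → Fin 3) (hs : ∀ x y, c x y = c y x) :
    7 * Phi c 16 7 ≤ 72 * Fintype.card V ^ 4 := by
  have h := exact_family.all c hs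
  have : (7 : ℝ) * Phi c 16 7 ≤ 72 * (Fintype.card V : ℝ) ^ 4 := by linarith
  exact_mod_cast this

end Pool.Agent.C44
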