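import Pool.Agent.C44.K4A

set_option maxRecDepth 100000

namespace Pool.Agent.C44.K4A

theorem chk3 : K4.chk3 D = true := by decide +kernel
theorem chkC : K4.chkC D = true := by decide +kernel
theorem chkB : K4.chkB1 D.off D.o D.n1 D.t1 D.w1 D.c1 = true := by decide +kernel
theorem chkBz : K4.chkB1 D.off D.o D.n1z D.t1z D.w1z D.c1z = true := by decide +kernel
theorem chkI : K4.chkI D = true := by decide +kernel

end Pool.Agent.C44.K4A
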