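import Pool.Agent.C44.K4G
import Pool.Agent.C44.Assembly2

/-!
# `KFour` from a certificate
-/

set_option autoImplicit false

open Finset Classical

namespace Pool.Agent.C44.K4

section
variable {n : ℕ} (H : Finset (Finset (Fin n))) (c : Fin n × Fin n → Fin 3) (A : Finset (Fin n))

/-- adjacency as a number -/
noncomputable def ka (x y : Fin n × Fin n) : ℕ := if Adj H x y then 1 else 0

/-- the label: the colour, or 3 inside `A` -/
noncomputable def la (x : Fin n × Fin n) : ℕ := if x.1 ∈ A ∧ x.2 ∈ A then 3 else (c x).val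

lemma ka_lt (x y : Fin n × Fin n) : ka H x y < 2 := by unfold ka; split_ifs <;> norm_num

lemma ka_one {x y : Fin n × Fin n} : ka H x y = 1 ↔ Adj H x y := by
  unfold ka; split_ifs with h <;> simp [h]

lemma ka_zero {x y : Fin n × Fin n} : ka H x y = 0 ↔ ¬ Adj H x y := by
  unfold ka; split_ifs with h <;> simp [h]

lemma ka_symm (x y : Fin n × Fin n) : ka H x y = ka H y x := by
  unfold ka
  by_cases h : Adj H x y
  · rw [if_pos h, if_pos (adj_symm h)]
  · rw [if_neg h, if_neg (fun hh => h (adj_symm hh))]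

lemma la_three {x : Fin n × Fin n} : la c A x = 3 ↔ (x.1 ∈ A ∧ x.2 ∈ A) := by
  unfold la
  split_ifs with h
  · simp [h]
  · have := (c x).isLt
    constructor
    · intro h1; omega
    · intro h1; exact absurd h1 h

lemma la_of {x : Fin n × Fin n} (h : ¬ (x.1 ∈ A ∧ x.2 ∈ A)) : la c A x = (c x).val := by
  unfold la; rw [if_neg h]

lemma la_lt (x : Fin n × Fin n) : la c A x < 4 := by
  unfold la
  split_ifs
  · norm_num
  · have := (c x).isLt; omega

lemma mo_eq (x y : Fin n × Fin n) :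
    mo (la c A) (ka H) x y = ∑ i, if (Act A x y ∧ Adj H x y ∧ c x = i ∧ c y = i) then (1 : ℤ) else 0 := by
  unfold mo
  by_cases h : Act A x y ∧ Adj H x y ∧ c x = c y
  · obtain ⟨⟨ha1, ha2⟩, h2, h3⟩ := h
    rw [if_pos ⟨(ka_one H).2 h2, by rw [la_of c A ha1, la_of c A ha2, h3], by
      rw [ne_eq, la_three]; exact ha1⟩]
    rw [Finset.sum_eq_single (c x)]
    · rw [if_pos ⟨⟨ha1, ha2⟩, h2, rfl, h3.symm⟩]
    · intro b _ hb
      rw [if_neg]
      rintro ⟨-, -, h5, -⟩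
      exact hb h5.symm
    · intro h; exact absurd (Finset.mem_univ _) h
  · rw [if_neg]
    · symm
      refine Finset.sum_eq_zero fun i _ => ?_
      rw [if_neg]
      rintro ⟨h1, h2, h3, h4⟩
      exact h ⟨h1, h2, h3.trans h4.symm⟩
    · rintro ⟨h1, h2, h3⟩
      rw [ne_eq, la_three] at h3
      have h4 : ¬ (y.1 ∈ A ∧ y.2 ∈ A) := by
        intro hy
        rw [← la_three c A, ← h2, la_three] at hy
        exact h3 hy
      rw [la_of c A h3, la_of c A h4] at h2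
      exact h ⟨⟨h3, h4⟩, (ka_one H).1 h1, Fin.ext h2⟩

lemma sum_mo : ∑ x, ∑ y, mo (la c A) (ka H) x y = ∑ i, (Ymono H A c i : ℤ) := by
  have : ∀ i, (Ymono H A c i : ℤ) = ∑ x, ∑ y, if (Act A x y ∧ Adj H x y ∧ c x = i ∧ c y = i) then (1 : ℤ) else 0 := by
    intro i
    unfold Ymono
    rw [Finset.card_filter]
    push_cast
    rw [Fintype.sum_prod_type (f := fun p : (Fin n × Fin n) × (Fin n × Fin n) =>
      if (Act A p.1 p.2 ∧ Adj H p.1 p.2 ∧ c p.1 = i ∧ c p.2 = i) then (1 : ℤ) else 0)]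
  simp only [this, mo_eq]
  rw [Finset.sum_comm (s := (univ : Finset (Fin 3)))]
  refine Finset.sum_congr rfl fun x _ => ?_
  rw [Finset.sum_comm]

lemma sum_mi : ∑ x, ∑ y, mi (la c A) (ka H) x y = (Mmiss H A c : ℤ) := by
  unfold Mmiss
  rw [Finset.card_filter]
  push_cast
  rw [Fintype.sum_prod_type (f := fun p : (Fin n × Fin n) × (Fin n × Fin n) =>
      if (Act A p.1 p.2 ∧ ¬ Adj H p.1 p.2 ∧ c p.1 ≠ c p.2) then (1 : ℤ) else 0)]
  refine Finset.sum_congr rfl fun x _ => Finset.sum_congr rfl fun y _ => ?_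
  unfold mi
  have key : (ka H x y = 0 ∧ la c A x ≠ la c A y ∧ la c A x ≠ 3 ∧ la c A y ≠ 3) ↔
      (Act A x y ∧ ¬ Adj H x y ∧ c x ≠ c y) := by
    rw [ka_zero, ne_eq (la c A x) 3, ne_eq (la c A y) 3, la_three, la_three]
    constructor
    · rintro ⟨h1, h2, h3, h4⟩
      refine ⟨⟨h3, h4⟩, h1, ?_⟩
      intro h
      apply h2
      rw [la_of c A h3, la_of c A h4, h]
    · rintro ⟨⟨h3, h4⟩, h1, h2⟩
      refine ⟨h1, ?_, h3, h4⟩
      rw [la_of c A h3, la_of c A h4]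
      exact fun h => h2 (Fin.ext h)
  by_cases h : Act A x y ∧ ¬ Adj H x y ∧ c x ≠ c y
  · rw [if_pos (key.2 h), if_pos h]
  · rw [if_neg (fun hh => h (key.1 hh)), if_neg h]

lemma sum_ka (h4 : ∀ e ∈ H, e.card = 4) : ∑ x, ∑ y, (ka H x y : ℤ) = 24 * (H.card : ℤ) := by
  have h := pair_count H h4
  rw [Finset.card_filter] at h
  have h' : (∑ p : (Fin n × Fin n) × (Fin n × Fin n), (if Adj H p.1 p.2 then (1 : ℤ) else 0)) = 24 * (H.card : ℤ) := by
    exact_mod_cast h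
  rw [← h', Fintype.sum_prod_type (f := fun p : (Fin n × Fin n) × (Fin n × Fin n) =>
      if Adj H p.1 p.2 then (1 : ℤ) else 0)]
  refine Finset.sum_congr rfl fun x _ => Finset.sum_congr rfl fun y _ => ?_
  unfold ka
  split_ifs <;> simp

lemma sum_three : ∑ x, (if la c A x = 3 then (1 : ℤ) else 0) = (A.card : ℤ) ^ 2 := by
  have : ∀ x : Fin n × Fin n, (if la c A x = 3 then (1 : ℤ) else 0) =
      (if x.1 ∈ A then (1 : ℤ) else 0) * (if x.2 ∈ A then (1 : ℤ) else 0) := by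
    intro x
    by_cases h1 : x.1 ∈ A <;> by_cases h2 : x.2 ∈ A <;> simp [la_three, h1, h2]
  simp only [this]
  have h2 : ∑ v : Fin n, (if v ∈ A then (1 : ℤ) else 0) = A.card := by simp
  calc ∑ x : Fin n × Fin n, (if x.1 ∈ A then (1 : ℤ) else 0) * (if x.2 ∈ A then (1 : ℤ) else 0)
      = ∑ a : Fin n, ∑ b : Fin n, (if a ∈ A then (1 : ℤ) else 0) * (if b ∈ A then (1 : ℤ) else 0) :=
        Fintype.sum_prod_type _
    _ = (∑ a : Fin n, if a ∈ A then (1 : ℤ) else 0) * (∑ b : Fin n, if b ∈ A then (1 : ℤ) else 0) := by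
        rw [Finset.sum_mul_sum]
    _ = _ := by rw [h2]; ring

lemma cut_sum (hl : ∀ T : Fin n × Fin n, ∀ j : Fin 3, nb (Adj H) c T (c T) ≤ nb (Adj H) c T j)
    (x : Fin n × Fin n) (h3 : la c A x ≠ 3) (s : ℕ) (hs : s < 2) :
    0 ≤ ∑ y, wj (la c A) (ka H) (tg (la c A x) s) x y := by
  have hx : ¬ (x.1 ∈ A ∧ x.2 ∈ A) := by rw [← la_three c A]; exact h3
  have hlx := la_of c A hx
  have hj : tg (la c A x) s < 3 := by
    change (la c A x + (s + 1)) % 3 < 3
    omega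
  have h := hl x ⟨tg (la c A x) s, hj⟩
  have e : ∀ i : Fin 3, ((nb (Adj H) c x i : ℕ) : ℤ) = ∑ y, if (Adj H x y ∧ c y = i) then (1 : ℤ) else 0 := by
    intro i
    unfold nb
    rw [Finset.card_filter]
    push_cast
    rfl
  have h2 : ((nb (Adj H) c x ⟨tg (la c A x) s, hj⟩ : ℕ) : ℤ) - ((nb (Adj H) c x (c x) : ℕ) : ℤ) ≤
      ∑ y, wj (la c A) (ka H) (tg (la c A x) s) x y := by
    rw [e, e, ← Finset.sum_sub_distrib]
    refine Finset.sum_le_sum fun y _ => ?_
    unfold wj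
    by_cases h1 : Adj H x y
    · rw [if_pos ((ka_one H).2 h1)]
      simp only [h1, true_and]
      by_cases hy : y.1 ∈ A ∧ y.2 ∈ A
      · have hy3 : la c A y = 3 := (la_three c A).2 hy
        have a1 : ¬ (la c A y = la c A x) := by rw [hy3]; exact fun hh => h3 hh.symm
        rw [if_neg a1, if_pos hy3]
        have b1 : (if c y = ⟨tg (la c A x) s, hj⟩ then (1 : ℤ) else 0) ≤ 1 := by split_ifs <;> norm_num
        have b2 : (0 : ℤ) ≤ (if c y = c x then (1 : ℤ) else 0) := by split_ifs <;> norm_num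
        have b3 : (0 : ℤ) ≤ (if la c A y = tg (la c A x) s then (1 : ℤ) else 0) := by split_ifs <;> norm_num
        linarith
      · have hy3 := la_of c A hy
        have a0 : ¬ (la c A y = 3) := by rw [la_three]; exact hy
        rw [if_neg a0]
        have a1 : (la c A y = tg (la c A x) s) ↔ (c y = ⟨tg (la c A x) s, hj⟩) := by
          rw [hy3, Fin.ext_iff]
        have a2 : (la c A y = la c A x) ↔ (c y = c x) := by
          rw [hy3, hlx, Fin.ext_iff]
        have c1 : (if la c A y = tg (la c A x) s then (1 : ℤ) else 0) = (if c y = ⟨tg (la c A x) s, hj⟩ then (1 : ℤ) else 0) := by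
          by_cases hh : la c A y = tg (la c A x) s
          · rw [if_pos hh, if_pos (a1.1 hh)]
          · rw [if_neg hh, if_neg (fun h => hh (a1.2 h))]
        have c2 : (if la c A y = la c A x then (1 : ℤ) else 0) = (if c y = c x then (1 : ℤ) else 0) := by
          by_cases hh : la c A y = la c A x
          · rw [if_pos hh, if_pos (a2.1 hh)]
          · rw [if_neg hh, if_neg (fun h => hh (a2.2 h))]
        rw [c1, c2]
        linarith
    · rw [if_neg (fun hh => h1 ((ka_one H).1 hh))]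
      simp [h1]
  have : ((nb (Adj H) c x (c x) : ℕ) : ℤ) ≤ ((nb (Adj H) c x ⟨tg (la c A x) s, hj⟩ : ℕ) : ℤ) := by exact_mod_cast h
  linarith

end

/-- all the checks of a certificate -/
structure Checked (D : CD) (L : ℕ) : Prop where
  R : chkR D = true
  I : chkI D = true
  T : chk3 D = true
  C : chkC D = true
  B : chkB1 D.off D.o D.n1 D.t1 D.w1 D.c1 = true
  Bz : chkB1 D.off D.o D.n1z D.t1z D.w1z D.c1z = true
  Q : 0 < D.Q
  all : G.chk L 2 adm4 adm (E D) (840 * D.off) = true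
  h9 : D.hn = 9
  h14 : D.hd = 14

theorem KFour_of {D : CD} {L : ℕ} (hD : Checked D L) (hL : L = 4 ∨ (L = 3 ∧ D.zn = 0 ∧ 0 < D.zd)) {y₀ ζ w σ : ℝ}
    (hy : y₀ * D.yd ≤ D.yn) (hz : ζ * D.zd ≤ D.zn) (hw : 0 < D.kp) (hσ : 0 ≤ σ)
    (hk : w * D.kq ≤ σ * D.kp) (hkq : 0 < D.kq) :
    KFour y₀ ζ w σ := by
  intro n H hG c hc hm A hA
  have hN : (Fintype.card (Fin n × Fin n) : ℤ) = (n : ℤ) ^ 2 := by
    rw [Fintype.card_prod, Fintype.card_fin]; push_cast; ring
  have hzA : (D.zd : ℤ) * (A.card : ℤ) ^ 2 ≤ D.zn * (n : ℤ) ^ 2 := by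
    have h1 : (D.zd : ℝ) * (A.card : ℝ) ^ 2 ≤ D.zn * (n : ℝ) ^ 2 := by
      have h2 : (D.zd : ℝ) * (A.card : ℝ) ^ 2 ≤ (D.zd : ℝ) * (ζ * (n : ℝ) ^ 2) :=
        mul_le_mul_of_nonneg_left hA (Nat.cast_nonneg _)
      have h3 : (ζ * D.zd) * (n : ℝ) ^ 2 ≤ D.zn * (n : ℝ) ^ 2 := mul_le_mul_of_nonneg_right hz (by positivity)
      linarith
    exact_mod_cast h1
  have hl : ∀ x, la c A x < L := by
    rcases hL with h | ⟨h, h0, hd⟩
    · rw [h]; exact la_lt c A
    · rw [h]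
      intro x
      rw [h0] at hzA
      have hA0 : (A.card : ℤ) ^ 2 = 0 := by
        have hd' : (0 : ℤ) < D.zd := by exact_mod_cast hd
        have h5 : (0 : ℤ) ≤ (A.card : ℤ) ^ 2 := by positivity
        have h6 : (D.zd : ℤ) * (A.card : ℤ) ^ 2 ≤ 0 := by simpa using hzA
        by_contra hne
        have : 0 < (D.zd : ℤ) * (A.card : ℤ) ^ 2 := mul_pos hd' (lt_of_le_of_ne h5 (Ne.symm hne))
        linarith
      have hA1 : A = ∅ := by
        rw [← Finset.card_eq_zero]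
        have := pow_eq_zero_iff (two_ne_zero) |>.1 hA0
        exact_mod_cast this
      have : ¬ (x.1 ∈ A ∧ x.2 ∈ A) := by rw [hA1]; simp
      rw [la_of c A this]
      exact (c x).isLt
  have hdR : (9 : ℝ) * (n : ℝ) ^ 4 ≤ 14 * (24 * (H.card : ℝ)) := by
    have := hG.dense
    linarith
  have hdZ : (9 : ℤ) * (n : ℤ) ^ 4 ≤ 14 * (24 * (H.card : ℤ)) := by exact_mod_cast hdR
  have hYR : (D.yd : ℤ) * (monoE (Adj H) c : ℤ) ≤ D.yn * (n : ℤ) ^ 4 := by
    have h1 : (D.yd : ℝ) * (monoE (Adj H) c : ℝ) ≤ D.yn * (n : ℝ) ^ 4 := by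
      have h2 : (D.yd : ℝ) * (monoE (Adj H) c : ℝ) ≤ (D.yd : ℝ) * (y₀ * (n : ℝ) ^ 4) :=
        mul_le_mul_of_nonneg_left hm (Nat.cast_nonneg _)
      have h3 : (y₀ * D.yd) * (n : ℝ) ^ 4 ≤ D.yn * (n : ℝ) ^ 4 := mul_le_mul_of_nonneg_right hy (by positivity)
      linarith
    exact_mod_cast h1
  have hYle : ∑ i, (Ymono H A c i : ℤ) ≤ (monoE (Adj H) c : ℤ) := by
    have := sum_Ymono_le H A c
    exact_mod_cast this
  have hH : Hyp D (la c A) (ka H) := by
    refine ⟨la_lt c A, ka_lt H, ka_symm H, ?_, ?_, ?_, ?_, ?_⟩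
    · rintro a b d e ⟨h1, h2, h3, h4, h5, h6⟩
      refine pair_k4free hG.unif hG.free ![a, b, d, e] ?_
      have r1 := (ka_one H).1 h1
      have r2 := (ka_one H).1 h2
      have r3 := (ka_one H).1 h3
      have r4 := (ka_one H).1 h4
      have r5 := (ka_one H).1 h5
      have r6 := (ka_one H).1 h6
      intro i j hij
      fin_cases i <;> fin_cases j <;> first | exact absurd rfl hij | skip
      all_goals first | assumption | exact adj_symm (by assumption)
    · rw [sum_mo, hN]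
      have h1 : (D.yd : ℤ) * ∑ i, (Ymono H A c i : ℤ) ≤ D.yd * (monoE (Adj H) c : ℤ) :=
        mul_le_mul_of_nonneg_left hYle (Int.natCast_nonneg _)
      have e4 : ((n : ℤ) ^ 2) ^ 2 = (n : ℤ) ^ 4 := by ring
      rw [e4]
      linarith
    · rw [sum_ka H hG.unif, hN, hD.h9, hD.h14]
      have e4 : ((n : ℤ) ^ 2) ^ 2 = (n : ℤ) ^ 4 := by ring
      rw [e4]
      push_cast
      linarith
    · rw [sum_three, hN]
      exact hzA
    · intro x h3 s hs
      exact cut_sum H c A hc.loc x h3 s hs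
  have hmain := main (D := D) (L := L) (by rcases hL with h | ⟨h, -⟩ <;> omega) hl hH hD.R hD.I hD.T hD.C hD.B hD.Bz hD.Q
    le_rfl hD.all
  rw [sum_mo, sum_mi] at hmain
  have hR : (D.kp : ℝ) * ∑ i, (Ymono H A c i : ℝ) ≤ D.kq * (Mmiss H A c : ℝ) := by exact_mod_cast hmain
  have hkp : (0 : ℝ) < D.kp := by exact_mod_cast hw
  have hkq' : (0 : ℝ) < D.kq := by exact_mod_cast hkq
  set Y : ℝ := ∑ i, (Ymono H A c i : ℝ) with hY
  have hY0 : 0 ≤ Y := by rw [hY]; exact Finset.sum_nonneg fun i _ => Nat.cast_nonneg _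
  -- w Y ≤ σ M
  have h1 : (w * D.kq) * Y ≤ (σ * D.kp) * Y := mul_le_mul_of_nonneg_right hk hY0
  have h2 : σ * (D.kp * Y) ≤ σ * (D.kq * (Mmiss H A c : ℝ)) := mul_le_mul_of_nonneg_left hR hσ
  have h3 : D.kq * (w * Y) ≤ D.kq * (σ * (Mmiss H A c : ℝ)) := by linarith
  exact le_of_mul_le_mul_left h3 hkq'

end Pool.Agent.C44.K4
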