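import Pool.Agent.C44.K4AC
import Pool.Agent.C44.K4AT
import Pool.Agent.C44.K4M

/-!
# `KFour` for the empty set, ratio 9/2
-/

namespace Pool.Agent.C44.K4A

theorem checked : K4.Checked D 3 where
  R := by decide +kernel
  I := chkI
  T := chk3
  C := chkC
  B := chkB
  Bz := chkBz
  Q := by decide +kernel
  all := chk
  h9 := rfl
  h14 := rfl

/-- **K4** without a special set: `(3/2) Y ≤ (1/3) M` -/
theorem kfour : KFour (63 / 10000) 0 (3 / 2) (1 / 3) :=
  K4.KFour_of checked (Or.inr ⟨rfl, rfl, by decide⟩) (by norm_num [D]) (by norm_num [D]) (by decide) (by norm_num)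
    (by norm_num [D]) (by decide)

end Pool.Agent.C44.K4A
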