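import Pool.Agent.C44.K4Z23C
import Pool.Agent.C44.K4Z23T
import Pool.Agent.C44.K4M

/-!
# `KFour` for sets with at most `23n/100` elements, ratio 5/2
-/

namespace Pool.Agent.C44.K4Z23

theorem checked : K4.Checked D 4 where
  R := by decide +kernel
  I := chkI
  T := chk3
  C := chkC
  B := chkB
  Bz := chkBz
  Q := by decide +kernel
  all := chk
  h9 := rfl
  h14 := rfl

/-- **K4** for `|A|² ≤ (529 / 10000) n²`: `5 Y ≤ 2 M` -/
theorem kfour {w σ : ℝ} (hσ : 0 ≤ σ) (h : w ≤ 5 / 2 * σ) : KFour (63 / 10000) (529 / 10000) w σ :=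
  K4.KFour_of checked (Or.inl rfl) (by norm_num [D]) (by norm_num [D]) (by decide) hσ
    (by simp only [D]; push_cast; linarith) (by decide)

end Pool.Agent.C44.K4Z23
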