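import Pool.Agent.C44.S1All
import Pool.Agent.C44.Assembly2

/-!
The statement `SOne (63/10000)`.
-/

set_option autoImplicit false

open Finset Classical

namespace Pool.Agent.C44.S1

open Pool.Agent.C44 Pool.Agent.C44.G

section
variable {V : Type} [Fintype V] [DecidableEq V]

/-- adjacency as a number -/
noncomputable def ka (H : Finset (Finset V)) (x y : V × V) : ℕ := if Adj H x y then 1 else 0

omit [Fintype V] in
lemma ka_lt (H : Finset (Finset V)) (x y : V × V) : ka H x y < 2 := by unfold ka; split_ifs <;> norm_num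

omit [Fintype V] in
lemma ka_one {H : Finset (Finset V)} {x y : V × V} (h : ka H x y = 1) : Adj H x y := by
  unfold ka at h; by_contra hh; rw [if_neg hh] at h; exact absurd h (by norm_num)

omit [Fintype V] in
lemma ka_symm (H : Finset (Finset V)) (x y : V × V) : ka H x y = ka H y x := by
  unfold ka
  by_cases h : Adj H x y
  · rw [if_pos h, if_pos (adj_symm h)]
  · rw [if_neg h, if_neg (fun hh => h (adj_symm hh))]

lemma KK_eq (H : Finset (Finset V)) (h4 : ∀ e ∈ H, e.card = 4) : KK (ka H) = 24 * H.card := by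
  rw [← pair_count H h4]
  unfold KK ka
  rw [Finset.card_filter, ← Finset.sum_product']
  rfl

lemma YY_eq (H : Finset (Finset V)) (c : V × V → Fin 3) :
    YY (fun x => (c x).val) (ka H) = monoE (Adj H) c := by
  unfold YY monoE
  refine Finset.sum_congr rfl (fun x _ => Finset.sum_congr rfl (fun y _ => ?_))
  unfold mo ka
  by_cases h : Adj H x y <;> by_cases h2 : c x = c y
  · simp [h, h2]
  · have h3 : (c x).val ≠ (c y).val := fun hh => h2 (Fin.ext hh)
    have h3' : Nat.beq (c x).val (c y).val = false := by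
      rw [← Bool.not_eq_true, Nat.beq_eq]; exact h3
    simp [h, h2, h3']
  · simp [h, show Nat.beq 0 1 = false from rfl]
  · simp [h, show Nat.beq 0 1 = false from rfl]

lemma cw_sum (H : Finset (Finset V)) (c : V × V → Fin 3)
    (hl : ∀ T : V × V, ∀ j : Fin 3, nb (Adj H) c T (c T) ≤ nb (Adj H) c T j) (x : V × V) (j : ℕ) (hj : j < 3) :
    0 ≤ ∑ y, cw (c x).val (c y).val (ka H x y) j := by
  have h := hl x ⟨j, hj⟩
  have e : ∀ i : Fin 3, ((nb (Adj H) c x i : ℕ) : ℤ) = ∑ y, if (Adj H x y ∧ c y = i) then (1 : ℤ) else 0 := by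
    intro i
    unfold nb
    rw [Finset.card_filter]
    push_cast
    rfl
  have h2 : ∑ y, cw (c x).val (c y).val (ka H x y) j
      = ((nb (Adj H) c x ⟨j, hj⟩ : ℕ) : ℤ) - ((nb (Adj H) c x (c x) : ℕ) : ℤ) := by
    rw [e, e, ← Finset.sum_sub_distrib]
    refine Finset.sum_congr rfl (fun y _ => ?_)
    unfold cw ka
    have a1 : ((c y).val = j) ↔ c y = ⟨j, hj⟩ := by rw [Fin.ext_iff]
    have a2 : ((c y).val = (c x).val) ↔ c y = c x := by rw [Fin.ext_iff]
    by_cases h1 : Adj H x y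
    · simp only [h1, if_true, true_and, a1, a2]
    · simp [h1]
  rw [h2]
  have : ((nb (Adj H) c x (c x) : ℕ) : ℤ) ≤ ((nb (Adj H) c x ⟨j, hj⟩ : ℕ) : ℤ) := by exact_mod_cast h
  linarith

end

/-- **S1**: the mono density of a cut of a good 4-graph is at most `.0063`. -/
theorem SOne_main : SOne (63 / 10000) := by
  intro n H hG c hc
  have hN : Fintype.card (Fin n × Fin n) = n ^ 2 := by rw [Fintype.card_prod, Fintype.card_fin]; ring
  have hd : (9 : ℝ) * (n : ℝ) ^ 4 ≤ 14 * (24 * (H.card : ℝ)) := by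
    have := hG.dense
    linarith
  have hdZ : (9 : ℤ) * (n : ℤ) ^ 4 ≤ 14 * (24 * (H.card : ℤ)) := by exact_mod_cast hd
  have hf := cut_mono_le H hG.unif hG.free c hc.glob
  rw [Fintype.card_fin] at hf
  have hfZ : (3 : ℤ) * (24 * (H.card : ℤ) + (monoE (Adj H) c : ℤ)) ≤ 2 * (n : ℤ) ^ 4 := by exact_mod_cast hf
  have hmain := graph_bound (Ω := Fin n × Fin n) (l := fun x => (c x).val) (k := ka H)
    (fun x => (c x).isLt) (ka_lt H) (ka_symm H)
    (by
      rintro a b d e ⟨h1, h2, h3, h4, h5, h6⟩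
      refine pair_k4free hG.unif hG.free ![a, b, d, e] ?_
      have r1 := ka_one h1
      have r2 := ka_one h2
      have r3 := ka_one h3
      have r4 := ka_one h4
      have r5 := ka_one h5
      have r6 := ka_one h6
      intro i j hij
      fin_cases i <;> fin_cases j <;> first | exact absurd rfl hij | skip
      all_goals simp only [Fin.isValue, Matrix.cons_val]
      all_goals first | assumption | exact adj_symm (by assumption))
    (lc := lc) (lh := lh) (Q := Q) (CAP := CAP) pos3 (posE_of_chk cT1) pos2 (posE_of_chk cTY)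
    (fun x j hj => cw_sum H c hc.loc x j hj)
    (by rw [KK_eq H hG.unif, hN]; push_cast; linarith [hdZ, show ((n : ℤ) ^ 2) ^ 2 = (n : ℤ) ^ 4 by ring])
    (by rw [YY_eq, hN]; push_cast; linarith [hfZ, hdZ, show ((n : ℤ) ^ 2) ^ 2 = (n : ℤ) ^ 4 by ring])
    chk_ok
  rw [YY_eq, hN] at hmain
  have hnum : ((CAP : ℤ) - 6720 * OF) * 10000 ≤ 63 * (120 * Q) := by
    unfold CAP OF Q; norm_num
  have hQ : (0 : ℤ) < 120 * Q := by unfold Q; norm_num
  have hZ : (10000 : ℤ) * (monoE (Adj H) c : ℤ) ≤ 63 * (n : ℤ) ^ 4 := by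
    have h1 : (120 * (Q : ℤ)) * (10000 * (monoE (Adj H) c : ℤ)) ≤ (120 * (Q : ℤ)) * (63 * (n : ℤ) ^ 4) := by
      have h2 : ((CAP : ℤ) - 6720 * OF) * 10000 * (n : ℤ) ^ 4 ≤ 63 * (120 * Q) * (n : ℤ) ^ 4 :=
        mul_le_mul_of_nonneg_right hnum (by positivity)
      push_cast at hmain
      have e4 : ((n : ℤ) ^ 2) ^ 2 = (n : ℤ) ^ 4 := by ring
      rw [e4] at hmain
      nlinarith
    exact le_of_mul_le_mul_left h1 hQ
  have hR : (10000 : ℝ) * (monoE (Adj H) c : ℝ) ≤ 63 * (n : ℝ) ^ 4 := by exact_mod_cast hZ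
  linarith

end Pool.Agent.C44.S1
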