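import Pool.Agent.C44.SixDD

/-!
# Checks: invariance of the tables with four roots
-/

set_option autoImplicit false
set_option maxHeartbeats 4000000
set_option maxRecDepth 100000

namespace Pool.Agent.C44.S6

theorem i4_0 : chkI4 DD 0 = true := by decide +kernel
theorem i4_1 : chkI4 DD 1 = true := by decide +kernel
theorem i4_2 : chkI4 DD 2 = true := by decide +kernel
theorem i4_3 : chkI4 DD 3 = true := by decide +kernel
theorem i4_4 : chkI4 DD 4 = true := by decide +kernel
theorem i4_5 : chkI4 DD 5 = true := by decide +kernel
theorem i4_6 : chkI4 DD 6 = true := by decide +kernel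
theorem i4_7 : chkI4 DD 7 = true := by decide +kernel
theorem i4_8 : chkI4 DD 8 = true := by decide +kernel
theorem i4_9 : chkI4 DD 9 = true := by decide +kernel
theorem i4_10 : chkI4 DD 10 = true := by decide +kernel
theorem i4_11 : chkI4 DD 11 = true := by decide +kernel
theorem i4_12 : chkI4 DD 12 = true := by decide +kernel
theorem i4_13 : chkI4 DD 13 = true := by decide +kernel
theorem i4_14 : chkI4 DD 14 = true := by decide +kernel
theorem i4 : ∀ t < 15, chkI4 DD t = true := by
  intro t ht
  interval_cases t
  · exact i4_0
  · exact i4_1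
  · exact i4_2
  · exact i4_3
  · exact i4_4
  · exact i4_5
  · exact i4_6
  · exact i4_7
  · exact i4_8
  · exact i4_9
  · exact i4_10
  · exact i4_11
  · exact i4_12
  · exact i4_13
  · exact i4_14

end Pool.Agent.C44.S6
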