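import Pool.Agent.C44.SixDD

/-!
# Checks: relabelling of four roots
-/

set_option autoImplicit false
set_option maxHeartbeats 4000000
set_option maxRecDepth 100000

namespace Pool.Agent.C44.S6

theorem gc1 : chkC DD T_dl1 (fun s0 s1 s2 s3 s4 s5 => d6 s0 s2 s1 s4 s3 s5) (fun p q r s => d4 q p r s) = true := by decide +kernel
theorem gc2 : chkC DD T_dl2 (fun s0 s1 s2 s3 s4 s5 => d6 s1 s0 s2 s3 s5 s4) (fun p q r s => d4 p r q s) = true := by decide +kernel
theorem gc3 : chkC DD T_dl3 (fun s0 s1 s2 s3 s4 s5 => d6 s0 s3 s4 s1 s2 s5) (fun p q r s => d4 p q s r) = true := by decide +kernel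
theorem gc4 : chkC DD T_dl4 (fun a b c d e f => d6 (s1 a) (s1 b) (s1 c) (s1 d) (s1 e) (s1 f))
    (fun p q r s => d4 (s1 p) (s1 q) (s1 r) (s1 s)) = true := by decide +kernel
theorem gc5 : chkC DD T_dl5 (fun a b c d e f => d6 (s2 a) (s2 b) (s2 c) (s2 d) (s2 e) (s2 f))
    (fun p q r s => d4 (s2 p) (s2 q) (s2 r) (s2 s)) = true := by decide +kernel

end Pool.Agent.C44.S6
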