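import Pool.Agent.C44.SixDD

/-!
# Checks: two roots, no root, multipliers
-/

set_option autoImplicit false
set_option maxHeartbeats 4000000
set_option maxRecDepth 100000

namespace Pool.Agent.C44.S6

theorem okPh : chkPh DD.w0 DD.w1 = true := by decide +kernel
/-- colour maps of classes -/
noncomputable def paf (s x : ℕ) : ℕ := sel s (cm1 x) (cm1 x) (cm2 x)
noncomputable def pbf (s x : ℕ) : ℕ := sel s (cm2 x) (cm2 x) (cm2 x)
theorem okCl : chkCl DD cm0 paf pbf = true := by decide +kernel
theorem okI0 : chkI2 DD cm0 = true := by decide +kernel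
theorem okI1 : chkI2 DD cm1 = true := by decide +kernel
theorem okI2 : chkI2 DD cm2 = true := by decide +kernel
theorem okS2 : chkS2 DD = true := by decide +kernel
theorem ok2 : Ok2 DD := ⟨⟨cm0, paf, pbf, okCl, okI0, fun s => by
    fin_cases s
    · exact okI1
    · exact okI1
    · exact okI2, fun s => by
    fin_cases s
    · exact okI2
    · exact okI2
    · exact okI2⟩, okS2⟩
def p0a (x : ℕ) : ℕ := lb T_p0a x
def p0b (x : ℕ) : ℕ := lb T_p0b x
def pua (x : ℕ) : ℕ := lb T_pua x
def pub (x : ℕ) : ℕ := lb T_pub x
theorem ok0 : chk0 DD p0a p0b = true := by decide +kernel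
theorem okU : chkU DD pua pub = true := by decide +kernel
theorem okT : chkT DD pua pub = true := by decide +kernel
theorem okW : chkW DD OFF muF = true := by decide +kernel

end Pool.Agent.C44.S6
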