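import Pool.Agent.C44.SixDD
import Pool.Agent.C44.SixL0

/-!
# Checks: positivity
-/

set_option autoImplicit false
set_option maxHeartbeats 4000000
set_option maxRecDepth 100000

namespace Pool.Agent.C44.S6

theorem psd_0 : chkP 81 (DD.q4 0) OFF Lc_0 2097152 67108864 42250963 = true := by decide +kernel
theorem psd_1 : chkP 81 (DD.q4 1) OFF Lc_1 2097152 67108864 48023982 = true := by decide +kernel
theorem psd_2 : chkP 81 (DD.q4 2) OFF Lc_2 2097152 67108864 46794906 = true := by decide +kernel

end Pool.Agent.C44.S6
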