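import Pool.Agent.C44.SixDD
import Pool.Agent.C44.SixL1

/-!
# Checks: positivity
-/

set_option autoImplicit false
set_option maxHeartbeats 4000000
set_option maxRecDepth 100000

namespace Pool.Agent.C44.S6

theorem psd_3 : chkP 81 (DD.q4 3) OFF Lc_3 2097152 67108864 50081604 = true := by decide +kernel
theorem psd_4 : chkP 81 (DD.q4 4) OFF Lc_4 1048576 67108864 32677185 = true := by decide +kernel
theorem psd_5 : chkP 81 (DD.q4 5) OFF Lc_5 2097152 67108864 41085170 = true := by decide +kernel

end Pool.Agent.C44.S6
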