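import Pool.Agent.C44.SixDD
import Pool.Agent.C44.SixL2

/-!
# Checks: positivity
-/

set_option autoImplicit false
set_option maxHeartbeats 4000000
set_option maxRecDepth 100000

namespace Pool.Agent.C44.S6

theorem psd_6 : chkP 81 (DD.q4 6) OFF Lc_6 2097152 67108864 40439289 = true := by decide +kernel
theorem psd_7 : chkP 81 (DD.q4 7) OFF Lc_7 2097152 67108864 46010946 = true := by decide +kernel
theorem psd_8 : chkP 81 (DD.q4 8) OFF Lc_8 2097152 67108864 52584103 = true := by decide +kernel

end Pool.Agent.C44.S6
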