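import Pool.Agent.C44.SixDD
import Pool.Agent.C44.SixL3

/-!
# Checks: positivity
-/

set_option autoImplicit false
set_option maxHeartbeats 4000000
set_option maxRecDepth 100000

namespace Pool.Agent.C44.S6

theorem psd_9 : chkP 81 (DD.q4 9) OFF Lc_9 2097152 67108864 52345299 = true := by decide +kernel
theorem psd_10 : chkP 81 (DD.q4 10) OFF Lc_10 2097152 67108864 46015619 = true := by decide +kernel
theorem psd_11 : chkP 81 (DD.q4 11) OFF Lc_11 2097152 67108864 47151672 = true := by decide +kernel

end Pool.Agent.C44.S6
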