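import Pool.Agent.C44.SixDD
import Pool.Agent.C44.SixL4

/-!
# Checks: positivity
-/

set_option autoImplicit false
set_option maxHeartbeats 4000000
set_option maxRecDepth 100000

namespace Pool.Agent.C44.S6

theorem psd_12 : chkP 81 (DD.q4 12) OFF Lc_12 1048576 67108864 37819208 = true := by decide +kernel
theorem psd_13 : chkP 81 (DD.q4 13) OFF Lc_13 2097152 67108864 51651593 = true := by decide +kernel
theorem psd_14 : chkP 81 (DD.q4 14) OFF Lc_14 1048576 67108864 38570183 = true := by decide +kernel

end Pool.Agent.C44.S6
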