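import Pool.Agent.C44.SixDD
import Pool.Agent.C44.SixL5

/-!
# Checks: positivity
-/

set_option autoImplicit false
set_option maxHeartbeats 4000000
set_option maxRecDepth 100000

namespace Pool.Agent.C44.S6

theorem psd_15 : chkP 135 DD.q2 OFF Lc_15 4194304 67108864 63307692 = true := by decide +kernel
theorem psd_16 : chkP 10 DD.q0 OFF Lc_16 67108864 67108864 38905555 = true := by decide +kernel

end Pool.Agent.C44.S6
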