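import Pool.Agent.C44.SixD
import Pool.Agent.C44.Assembly3

/-!
# The certificate on six points gives `STwoF`
-/

set_option autoImplicit false
set_option maxHeartbeats 4000000

open Finset

namespace Pool.Agent.C44.S6

/-- price of a pair `x, y` seen from a root: `x`, `y` are the colours of the edges to the root, `z` the
colour of the pair, `F` the distinguished colour; in units of `1/100` -/
def wt (F x y z : ℕ) : ℕ :=
  cond (Nat.beq x F) (cond (Nat.beq y F) 50 (Nat.add 25 (cond (Nat.beq z F) 0 300)))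
    (cond (Nat.beq y F) (Nat.add 25 (cond (Nat.beq z F) 0 300)) (cond (Nat.beq z F) 100 0))

/-- check of the multiplier table -/
noncomputable def chkW (D : Dat) (OFF : ℕ) (mu : ℕ → ℕ → ℕ) : Bool :=
  all3 fun x => all3 fun y => all3 fun z => allN D.nu fun c =>
    Nat.beq (Nat.add (D.tw (d3 x y z) c) (Nat.mul 24 (Nat.add (mu 0 c) (Nat.add (mu 1 c) (mu 2 c)))))
      (Nat.add OFF (Nat.add (Nat.mul (wt 0 x y z) (mu 0 c))
        (Nat.add (Nat.mul (wt 1 x y z) (mu 1 c)) (Nat.mul (wt 2 x y z) (mu 2 c)))))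

section sums
variable {V : Type*} [Fintype V]

theorem part4 (D : Dat) (hD : Ok D) (OFF : ℕ)
    (hp : ∀ t < 15, ∃ (L : List ℕ) (s o ρ : ℕ), 0 < s ∧ chkP 81 (D.q4 t) OFF L s o ρ = true)
    (c : V → V → Fin 3) :
    (Fintype.card V : ℤ) ^ 2 * (∑ x0, ∑ x1, ∑ x2, ∑ x3,
      (ph D.w0 D.w1 (c x0 x1) (c x0 x2) (c x1 x2) (c x0 x3) (c x1 x3) (c x2 x3) : ℤ)) +
      OFF * (Fintype.card V : ℤ) ^ 6 ≤
    ∑ x0, ∑ x1, ∑ x2, ∑ x3, ∑ x4, ∑ x5, ((blk D).e4 (c x0 x1) (c x0 x2) (c x1 x2) (c x0 x3) (c x1 x3)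
      (c x2 x3) (c x0 x4) (c x1 x4) (c x2 x4) (c x3 x4) (c x0 x5) (c x1 x5) (c x2 x5) (c x3 x5) : ℤ) := by
  have key : ∀ x0 x1 x2 x3 : V, (Fintype.card V : ℤ) ^ 2 *
      (ph D.w0 D.w1 (c x0 x1) (c x0 x2) (c x1 x2) (c x0 x3) (c x1 x3) (c x2 x3) : ℤ) +
      OFF * (Fintype.card V : ℤ) ^ 2 ≤ ∑ x4, ∑ x5, ((blk D).e4 (c x0 x1) (c x0 x2) (c x1 x2) (c x0 x3) (c x1 x3)
      (c x2 x3) (c x0 x4) (c x1 x4) (c x2 x4) (c x3 x4) (c x0 x5) (c x1 x5) (c x2 x5) (c x3 x5) : ℤ) := by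
    intro x0 x1 x2 x3
    have hs := hD.o4.rs _ (d6_lt (c x0 x1) (c x0 x2) (c x1 x2) (c x0 x3) (c x1 x3) (c x2 x3))
    obtain ⟨L, s, o, ρ, h0, h1⟩ := hp _ hs.2
    have h2 := psd_nonneg h1 h0 (univ : Finset V)
      (fun y => rl D (lb D.ca (d6 (c x0 x1) (c x0 x2) (c x1 x2) (c x0 x3) (c x1 x3) (c x2 x3)))
        (d4 (c x0 y) (c x1 y) (c x2 y) (c x3 y)))
      (fun y => hD.o4.rr _ hs.1 _ (d4_lt _ _ _ _))
    have h3 : ∑ x4, ∑ x5, ((blk D).e4 (c x0 x1) (c x0 x2) (c x1 x2) (c x0 x3) (c x1 x3)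
        (c x2 x3) (c x0 x4) (c x1 x4) (c x2 x4) (c x3 x4) (c x0 x5) (c x1 x5) (c x2 x5) (c x3 x5) : ℤ) =
      (Fintype.card V : ℤ) ^ 2 *
      (ph D.w0 D.w1 (c x0 x1) (c x0 x2) (c x1 x2) (c x0 x3) (c x1 x3) (c x2 x3) : ℤ) +
      OFF * (Fintype.card V : ℤ) ^ 2 + ∑ p : V, ∑ q : V,
        ((D.q4 (lb D.ty (d6 (c x0 x1) (c x0 x2) (c x1 x2) (c x0 x3) (c x1 x3) (c x2 x3)))
          (rl D (lb D.ca (d6 (c x0 x1) (c x0 x2) (c x1 x2) (c x0 x3) (c x1 x3) (c x2 x3)))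
            (d4 (c x0 p) (c x1 p) (c x2 p) (c x3 p)))
          (rl D (lb D.ca (d6 (c x0 x1) (c x0 x2) (c x1 x2) (c x0 x3) (c x1 x3) (c x2 x3)))
            (d4 (c x0 q) (c x1 q) (c x2 q) (c x3 q))) : ℤ) - OFF) := by
      simp only [blk, E4, Nat.add_eq, Nat.cast_add, Finset.sum_add_distrib, Finset.sum_sub_distrib,
        Finset.sum_const, Finset.card_univ, nsmul_eq_mul]
      ring
    rw [h3]
    linarith
  calc _ = ∑ x0, ∑ x1, ∑ x2, ∑ x3, ((Fintype.card V : ℤ) ^ 2 *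
      (ph D.w0 D.w1 (c x0 x1) (c x0 x2) (c x1 x2) (c x0 x3) (c x1 x3) (c x2 x3) : ℤ) +
      OFF * (Fintype.card V : ℤ) ^ 2) := by
        simp only [Finset.sum_add_distrib, ← Finset.mul_sum, Finset.sum_const, Finset.card_univ, nsmul_eq_mul]
        ring
    _ ≤ _ := Finset.sum_le_sum fun x0 _ => Finset.sum_le_sum fun x1 _ => Finset.sum_le_sum fun x2 _ =>
        Finset.sum_le_sum fun x3 _ => key x0 x1 x2 x3

theorem cl_lt {D : Dat} (hD : Ok D) (s p q r t m : Fin 3) : D.cl (Nat.add (Nat.mul 243 s) (d5 p q r t m)) < 135 := by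
  obtain ⟨ps, pa, pb, g1, g2, g3, g4⟩ := hD.o2.ex
  have k := all3_spec (all3_spec (all3_spec (all3_spec (all3_spec (all3_spec g1 s) p) q) r) t) m
  simp only [Bool.and_eq_true, Nat.beq_eq, Nat.blt_eq] at k
  exact k.1

theorem part2 (D : Dat) (hD : Ok D) (OFF : ℕ)
    (hp : ∃ (L : List ℕ) (s o ρ : ℕ), 0 < s ∧ chkP 135 D.q2 OFF L s o ρ = true)
    (c : V → V → Fin 3) :
    OFF * (Fintype.card V : ℤ) ^ 6 ≤
    ∑ x0, ∑ x1, ∑ x2, ∑ x3, ∑ x4, ∑ x5, ((blk D).e2 (c x0 x1) (c x0 x2) (c x1 x2) (c x0 x3) (c x1 x3)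
      (c x2 x3) (c x0 x4) (c x1 x4) (c x0 x5) (c x1 x5) (c x4 x5) : ℤ) := by
  obtain ⟨L, s, o, ρ, h0, h1⟩ := hp
  have key : ∀ x0 x1 : V, OFF * (Fintype.card V : ℤ) ^ 4 ≤
      ∑ x2, ∑ x3, ∑ x4, ∑ x5, ((blk D).e2 (c x0 x1) (c x0 x2) (c x1 x2) (c x0 x3) (c x1 x3)
      (c x2 x3) (c x0 x4) (c x1 x4) (c x0 x5) (c x1 x5) (c x4 x5) : ℤ) := by
    intro x0 x1
    have h2 := psd_nonneg h1 h0 (univ : Finset (V × V))
      (fun y => D.cl (Nat.add (Nat.mul 243 (c x0 x1))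
        (d5 (c x0 y.1) (c x1 y.1) (c x0 y.2) (c x1 y.2) (c y.1 y.2))))
      (fun y => cl_lt hD _ _ _ _ _ _)
    simp only [Fintype.sum_prod_type] at h2
    have h3 : ∑ x2, ∑ x3, ∑ x4, ∑ x5, ((blk D).e2 (c x0 x1) (c x0 x2) (c x1 x2) (c x0 x3) (c x1 x3)
      (c x2 x3) (c x0 x4) (c x1 x4) (c x0 x5) (c x1 x5) (c x4 x5) : ℤ) =
      OFF * (Fintype.card V : ℤ) ^ 4 + ∑ x2, ∑ x3, ∑ x4, ∑ x5,
        ((D.q2 (D.cl (Nat.add (Nat.mul 243 (c x0 x1)) (d5 (c x0 x2) (c x1 x2) (c x0 x3) (c x1 x3) (c x2 x3))))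
          (D.cl (Nat.add (Nat.mul 243 (c x0 x1)) (d5 (c x0 x4) (c x1 x4) (c x0 x5) (c x1 x5) (c x4 x5)))) : ℤ)
          - OFF) := by
      simp only [blk, Finset.sum_sub_distrib, Finset.sum_const, Finset.card_univ, nsmul_eq_mul]
      ring
    rw [h3]
    linarith
  calc _ = ∑ _x0 : V, ∑ _x1 : V, OFF * (Fintype.card V : ℤ) ^ 4 := by
        simp only [Finset.sum_const, Finset.card_univ, nsmul_eq_mul]
        ring
    _ ≤ _ := Finset.sum_le_sum fun x0 _ => Finset.sum_le_sum fun x1 _ => key x0 x1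

theorem c0_lt {D : Dat} (hD : Ok D) (p q r : Fin 3) : D.c0 (d3 p q r) < 10 := by
  obtain ⟨pa, pb, g1⟩ := hD.o0
  rw [chk0, Bool.and_eq_true] at g1
  have k := all3_spec (all3_spec (all3_spec g1.1 p) q) r
  simp only [Bool.and_eq_true, Nat.beq_eq, Nat.blt_eq] at k
  exact k.1

theorem part0 (D : Dat) (hD : Ok D) (OFF : ℕ)
    (hp : ∃ (L : List ℕ) (s o ρ : ℕ), 0 < s ∧ chkP 10 D.q0 OFF L s o ρ = true)
    (c : V → V → Fin 3) :
    OFF * (Fintype.card V : ℤ) ^ 6 ≤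
    ∑ x0, ∑ x1, ∑ x2, ∑ x3, ∑ x4, ∑ x5, ((blk D).e0 (c x0 x1) (c x0 x2) (c x1 x2) (c x3 x4) (c x3 x5)
      (c x4 x5) : ℤ) := by
  obtain ⟨L, s, o, ρ, h0, h1⟩ := hp
  have h2 := psd_nonneg h1 h0 (univ : Finset (V × V × V))
    (fun y => D.c0 (d3 (c y.1 y.2.1) (c y.1 y.2.2) (c y.2.1 y.2.2))) (fun y => c0_lt hD _ _ _)
  simp only [Fintype.sum_prod_type] at h2
  have h3 : ∑ x0, ∑ x1, ∑ x2, ∑ x3, ∑ x4, ∑ x5, ((blk D).e0 (c x0 x1) (c x0 x2) (c x1 x2) (c x3 x4) (c x3 x5)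
      (c x4 x5) : ℤ) = OFF * (Fintype.card V : ℤ) ^ 6 + ∑ x0, ∑ x1, ∑ x2, ∑ x3, ∑ x4, ∑ x5,
        ((D.q0 (D.c0 (d3 (c x0 x1) (c x0 x2) (c x1 x2))) (D.c0 (d3 (c x3 x4) (c x3 x5) (c x4 x5))) : ℤ)
          - OFF) := by
    simp only [blk, Finset.sum_sub_distrib, Finset.sum_const, Finset.card_univ, nsmul_eq_mul]
    ring
  rw [h3]
  linarith

theorem uc_lt {D : Dat} (hD : Ok D) (u v w a b c : Fin 3) : D.uc (d6 u v w a b c) < D.nu := by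
  obtain ⟨pa, pb, g1, g2⟩ := hD.ou
  have k := all3_spec (all3_spec (all3_spec (all3_spec (all3_spec (all3_spec g1 u) v) w) a) b) c
  simp only [Bool.and_eq_true, Nat.beq_eq, Nat.blt_eq] at k
  exact k.1

theorem partW (D : Dat) (hD : Ok D) (OFF : ℕ) (mu : ℕ → ℕ → ℕ) (hW : chkW D OFF mu = true)
    (c : V → V → Fin 3)
    (hc : ∀ (F : Fin 3) (v : V), 24 * (Fintype.card V : ℤ) ^ 2 ≤ ∑ x, ∑ y, (wt F (c v x) (c v y) (c x y) : ℤ)) :
    OFF * (Fintype.card V : ℤ) ^ 6 ≤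
    ∑ x0, ∑ x1, ∑ x2, ∑ x3, ∑ x4, ∑ x5, ((blk D).ew (c x0 x1) (c x0 x2) (c x1 x2) (c x0 x3) (c x0 x4)
      (c x0 x5) (c x3 x4) (c x3 x5) (c x4 x5) : ℤ) := by
  have key : ∀ x0 : V, OFF * (Fintype.card V : ℤ) ^ 5 ≤ ∑ x1, ∑ x2, ∑ x3, ∑ x4, ∑ x5,
      ((blk D).ew (c x0 x1) (c x0 x2) (c x1 x2) (c x0 x3) (c x0 x4) (c x0 x5) (c x3 x4) (c x3 x5) (c x4 x5) : ℤ) := by
    intro v
    let U : V → V → V → ℕ := fun a b d => D.uc (d6 (c v a) (c v b) (c v d) (c a b) (c a d) (c b d))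
    have h1 : ∀ x y a b d : V, ((blk D).ew (c v x) (c v y) (c x y) (c v a) (c v b) (c v d) (c a b) (c a d) (c b d) : ℤ) =
        OFF + (((wt 0 (c v x) (c v y) (c x y) : ℤ) - 24) * mu 0 (U a b d) +
          ((wt 1 (c v x) (c v y) (c x y) : ℤ) - 24) * mu 1 (U a b d) +
          ((wt 2 (c v x) (c v y) (c x y) : ℤ) - 24) * mu 2 (U a b d)) := by
      intro x y a b d
      have k := allN_spec (all3_spec (all3_spec (all3_spec hW (c v x)) (c v y)) (c x y))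
        (uc_lt hD (c v a) (c v b) (c v d) (c a b) (c a d) (c b d))
      rw [Nat.beq_eq] at k
      simp only [Nat.add_eq, Nat.mul_eq] at k
      have k' : (D.tw (d3 (c v x) (c v y) (c x y)) (U a b d) : ℤ) +
          24 * (mu 0 (U a b d) + (mu 1 (U a b d) + mu 2 (U a b d))) =
          OFF + (wt 0 (c v x) (c v y) (c x y) * mu 0 (U a b d) + (wt 1 (c v x) (c v y) (c x y) * mu 1 (U a b d) +
            wt 2 (c v x) (c v y) (c x y) * mu 2 (U a b d))) := by exact_mod_cast k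
      change (D.tw (d3 (c v x) (c v y) (c x y)) (U a b d) : ℤ) = _
      linarith
    simp only [h1]
    have h2 : ∀ F : ℕ, ∑ x, ∑ y, ∑ a, ∑ b, ∑ d, ((wt F (c v x) (c v y) (c x y) : ℤ) - 24) * mu F (U a b d) =
        (∑ x, ∑ y, ((wt F (c v x) (c v y) (c x y) : ℤ) - 24)) * ∑ a, ∑ b, ∑ d, (mu F (U a b d) : ℤ) := by
      intro F
      calc _ = ∑ x, ∑ y, ((wt F (c v x) (c v y) (c x y) : ℤ) - 24) * ∑ a, ∑ b, ∑ d, (mu F (U a b d) : ℤ) := by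
            simp only [Finset.mul_sum]
        _ = _ := by simp only [← Finset.sum_mul]
    have h3 : ∀ F : Fin 3, 0 ≤ (∑ x, ∑ y, ((wt F (c v x) (c v y) (c x y) : ℤ) - 24)) *
        ∑ a, ∑ b, ∑ d, (mu F (U a b d) : ℤ) := by
      intro F
      refine mul_nonneg ?_ (Finset.sum_nonneg fun a _ => Finset.sum_nonneg fun b _ =>
        Finset.sum_nonneg fun d _ => Int.natCast_nonneg _)
      have := hc F v
      simp only [Finset.sum_sub_distrib, Finset.sum_const, Finset.card_univ, nsmul_eq_mul]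
      linarith
    have h4 := h3 0
    have h5 := h3 1
    have h6 := h3 2
    have e0 : ((0 : Fin 3) : ℕ) = 0 := rfl
    have e1 : ((1 : Fin 3) : ℕ) = 1 := rfl
    have e2 : ((2 : Fin 3) : ℕ) = 2 := rfl
    rw [e0] at h4
    rw [e1] at h5
    rw [e2] at h6
    simp only [Finset.sum_add_distrib]
    rw [h2, h2, h2]
    simp only [Finset.sum_const, Finset.card_univ, nsmul_eq_mul]
    nlinarith [h4, h5, h6]
  calc _ = ∑ _x0 : V, OFF * (Fintype.card V : ℤ) ^ 5 := by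
        simp only [Finset.sum_const, Finset.card_univ, nsmul_eq_mul]
        ring
    _ ≤ _ := Finset.sum_le_sum fun x0 _ => key x0

end sums

/-- **the certificate theorem** -/
theorem cert (D : Dat) (hD : Ok D) {CAP : ℕ} (hb : Pt (blk D) CAP) (O4 O2 O0 OW : ℕ)
    (h4 : ∀ t < 15, ∃ (L : List ℕ) (s o ρ : ℕ), 0 < s ∧ chkP 81 (D.q4 t) O4 L s o ρ = true)
    (h2 : ∃ (L : List ℕ) (s o ρ : ℕ), 0 < s ∧ chkP 135 D.q2 O2 L s o ρ = true)
    (h0 : ∃ (L : List ℕ) (s o ρ : ℕ), 0 < s ∧ chkP 10 D.q0 O0 L s o ρ = true)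
    (mu : ℕ → ℕ → ℕ) (hW : chkW D OW mu = true)
    {V : Type*} [Fintype V] (c : V → V → Fin 3) (hs : ∀ x y, c x y = c y x)
    (hc : ∀ (F : Fin 3) (v : V), 24 * (Fintype.card V : ℤ) ^ 2 ≤ ∑ x, ∑ y, (wt F (c v x) (c v y) (c x y) : ℤ)) :
    15 * (Fintype.card V : ℤ) ^ 2 * (∑ x0, ∑ x1, ∑ x2, ∑ x3,
      (ph D.w0 D.w1 (c x0 x1) (c x0 x2) (c x1 x2) (c x0 x3) (c x1 x3) (c x2 x3) : ℤ)) ≤
    (CAP - (15 * O4 + 45 * O2 + 10 * O0 + 60 * OW)) * (Fintype.card V : ℤ) ^ 6 := by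
  have k := sum_bound6 hD.symA hb c hs
  have k' : 15 * (∑ x0, ∑ x1, ∑ x2, ∑ x3, ∑ x4, ∑ x5, ((blk D).e4 (c x0 x1) (c x0 x2) (c x1 x2) (c x0 x3) (c x1 x3)
      (c x2 x3) (c x0 x4) (c x1 x4) (c x2 x4) (c x3 x4) (c x0 x5) (c x1 x5) (c x2 x5) (c x3 x5) : ℤ)) +
    (45 * (∑ x0, ∑ x1, ∑ x2, ∑ x3, ∑ x4, ∑ x5, ((blk D).e2 (c x0 x1) (c x0 x2) (c x1 x2) (c x0 x3) (c x1 x3)
      (c x2 x3) (c x0 x4) (c x1 x4) (c x0 x5) (c x1 x5) (c x4 x5) : ℤ)) +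
    (10 * (∑ x0, ∑ x1, ∑ x2, ∑ x3, ∑ x4, ∑ x5, ((blk D).e0 (c x0 x1) (c x0 x2) (c x1 x2) (c x3 x4) (c x3 x5)
      (c x4 x5) : ℤ)) +
    60 * (∑ x0, ∑ x1, ∑ x2, ∑ x3, ∑ x4, ∑ x5, ((blk D).ew (c x0 x1) (c x0 x2) (c x1 x2) (c x0 x3) (c x0 x4)
      (c x0 x5) (c x3 x4) (c x3 x5) (c x4 x5) : ℤ)))) ≤ CAP * (Fintype.card V : ℤ) ^ 6 := by
    exact_mod_cast k
  have p4 := part4 D hD O4 h4 c
  have p2 := part2 D hD O2 h2 c
  have p0 := part0 D hD O0 h0 c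
  have pw := partW D hD OW mu hW c hc
  linarith

/-- `PhF` of a neighbourhood -/
theorem PhF_NF {n : ℕ} (c : Fin n × Fin n → Fin 3) (F : Fin 3) (v : Fin n) :
    100 * PhF c F 3 (1 / 2) 0 (NF c F v) = ∑ x, ∑ y, (wt F (c (v, x)) (c (v, y)) (c (x, y)) : ℝ) := by
  classical
  have ha : ∀ x, al (NF c F v) x = if c (v, x) = F then 1 else 0 := by
    intro x
    unfold al NF
    simp only [Finset.mem_filter, Finset.mem_univ, true_and]
  have h1 : ((NF c F v).card : ℝ) = ∑ x, (if c (v, x) = F then (1 : ℝ) else 0) := by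
    unfold NF
    rw [Finset.card_filter]
    push_cast
    rfl
  have hw : ∀ x y z G : Fin 3, (wt G x y z : ℝ) =
      100 * (3 * ((if x = G then (1 : ℝ) else 0) * (1 - if y = G then (1 : ℝ) else 0) +
        (1 - if x = G then (1 : ℝ) else 0) * (if y = G then (1 : ℝ) else 0)) * (1 - if z = G then (1 : ℝ) else 0) +
        (1 - if x = G then (1 : ℝ) else 0) * (1 - if y = G then (1 : ℝ) else 0) * (if z = G then (1 : ℝ) else 0)) +
      25 * ((if x = G then (1 : ℝ) else 0) + (if y = G then (1 : ℝ) else 0)) := by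
    intro x y z G
    have hb : ∀ a b : Fin 3, Nat.beq (a : ℕ) (b : ℕ) = decide (a = b) := by decide
    unfold wt
    rw [hb, hb, hb]
    by_cases hx : x = G <;> by_cases hy : y = G <;> by_cases hz : z = G <;> simp [hx, hy, hz] <;> norm_num
  have h2 : ∀ x y, (wt F (c (v, x)) (c (v, y)) (c (x, y)) : ℝ) = 100 * kk c F 3 (NF c F v) x y +
      25 * ((if c (v, x) = F then (1 : ℝ) else 0) + (if c (v, y) = F then (1 : ℝ) else 0)) := by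
    intro x y
    rw [hw]
    unfold kk eF
    rw [ha, ha]
  simp only [h2, Finset.sum_add_distrib, ← Finset.mul_sum, Finset.sum_const, Finset.card_univ, nsmul_eq_mul,
    ← h1, Fintype.card_fin]
  unfold PhF
  rw [Fintype.card_fin]
  ring

/-- the value for the empty set, price 2 and reward 0 -/
theorem VALw_two {n : ℕ} (c : Fin n × Fin n → Fin 3) (A : ℕ) :
    3 * (A : ℝ) * VALw ∅ c (fun _ => 2) 0 = ∑ x0, ∑ x1, ∑ x2, ∑ x3,
      (ph (3 * A) A (c (x0, x1)) (c (x0, x2)) (c (x1, x2)) (c (x0, x3)) (c (x1, x3)) (c (x2, x3)) : ℝ) := by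
  classical
  unfold VALw
  simp only [Finset.mul_sum]
  refine Finset.sum_congr rfl fun a _ => Finset.sum_congr rfl fun b _ => Finset.sum_congr rfl fun d _ =>
    Finset.sum_congr rfl fun e _ => ?_
  have hb : ∀ x y : Fin 3, Nat.beq (x : ℕ) (y : ℕ) = decide (x = y) := by decide
  have ha : ∀ x : Fin n, al (∅ : Finset (Fin n)) x = 0 := by
    intro x; unfold al; simp
  have hact : ∀ p q : Fin n × Fin n, Act (∅ : Finset (Fin n)) p q := by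
    intro p q; unfold Act; simp
  unfold val mcost mgain
  simp only [ha, hact, true_and, ph, hb]
  generalize c (a, b) = x1
  generalize c (d, e) = x2
  generalize c (a, d) = x3
  generalize c (b, e) = x4
  generalize c (a, e) = x5
  generalize c (b, d) = x6
  rw [if_neg (by norm_num), if_neg (by norm_num)]
  by_cases h1 : x1 = x2 <;> by_cases h2 : x3 = x4 <;> by_cases h3 : x5 = x6 <;>
    simp [h1, h2, h3, eq_comm (a := x6) (b := x5)] <;> norm_num <;> ring_nf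

theorem stwo_of (D : Dat) (hD : Ok D) {CAP : ℕ} (hb : Pt (blk D) CAP) (O4 O2 O0 OW : ℕ)
    (h4 : ∀ t < 15, ∃ (L : List ℕ) (s o ρ : ℕ), 0 < s ∧ chkP 81 (D.q4 t) O4 L s o ρ = true)
    (h2 : ∃ (L : List ℕ) (s o ρ : ℕ), 0 < s ∧ chkP 135 D.q2 O2 L s o ρ = true)
    (h0 : ∃ (L : List ℕ) (s o ρ : ℕ), 0 < s ∧ chkP 10 D.q0 O0 L s o ρ = true)
    (mu : ℕ → ℕ → ℕ) (hW : chkW D OW mu = true) (A : ℕ) (hA : 0 < A) (hw0 : D.w0 = 3 * A) (hw1 : D.w1 = A)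
    (hcap : (CAP : ℝ) - (15 * O4 + 45 * O2 + 10 * O0 + 60 * OW) ≤ 45 * A * (9 / 14 - 2 * (63 / 10000)))
    (L : List (ℝ × ℝ)) (hL : ∃ x ∈ L, 0 ≤ x.1) : STwoF (63 / 10000) L 3 (1 / 2) 0 (6 / 25) := by
  intro n c hn hsym hacc
  by_contra hcon
  push Not at hcon
  have hs : ∀ x y, c (x, y) = c (y, x) := fun x y => by
    have := hsym (y, x)
    simpa using this
  have hcon' : ∀ (F : Fin 3) (v : Fin n), 24 * (Fintype.card (Fin n) : ℤ) ^ 2 ≤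
      ∑ x, ∑ y, (wt F (c (v, x)) (c (v, y)) (c (x, y)) : ℤ) := by
    intro F v
    have h1 := hcon (NF c F v) F
    have h3 := PhF_NF c F v
    have h5 : 24 * (Fintype.card (Fin n) : ℝ) ^ 2 ≤ ∑ x, ∑ y, (wt F (c (v, x)) (c (v, y)) (c (x, y)) : ℝ) := by
      rw [← h3, Fintype.card_fin]
      linarith
    exact_mod_cast h5
  have key := cert D hD hb O4 O2 O0 OW h4 h2 h0 mu hW (fun x y => c (x, y)) hs hcon'
  obtain ⟨x, hx, hx0⟩ := hL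
  have hv := hacc x hx ∅ (by rw [Finset.card_empty, Nat.cast_zero]; positivity) (fun _ => 2) 0 2 le_rfl
    (by norm_num) (fun i => by linarith)
  have hv2 := VALw_two c A
  rw [hw0, hw1] at key
  have key' : 15 * (n : ℝ) ^ 2 * (3 * (A : ℝ) * VALw ∅ c (fun _ => 2) 0) ≤
      ((CAP : ℝ) - (15 * O4 + 45 * O2 + 10 * O0 + 60 * OW)) * (n : ℝ) ^ 6 := by
    rw [hv2]
    rw [Fintype.card_fin] at key
    exact_mod_cast key
  have hnR : (0 : ℝ) < n := by exact_mod_cast hn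
  have hAR : (0 : ℝ) < A := by exact_mod_cast hA
  have h6 : ((CAP : ℝ) - (15 * O4 + 45 * O2 + 10 * O0 + 60 * OW)) * (n : ℝ) ^ 6 ≤
      45 * A * (9 / 14 - 2 * (63 / 10000)) * (n : ℝ) ^ 6 := mul_le_mul_of_nonneg_right hcap (by positivity)
  have h7 : 45 * (A : ℝ) * (n : ℝ) ^ 2 * ((9 / 14 - 2 * (63 / 10000)) * (n : ℝ) ^ 4) <
      45 * (A : ℝ) * (n : ℝ) ^ 2 * VALw ∅ c (fun _ => 2) 0 :=
    mul_lt_mul_of_pos_left hv (by positivity)
  have h8 : 45 * (A : ℝ) * (n : ℝ) ^ 2 * ((9 / 14 - 2 * (63 / 10000)) * (n : ℝ) ^ 4) =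
      45 * A * (9 / 14 - 2 * (63 / 10000)) * (n : ℝ) ^ 6 := by ring
  have h9 : 45 * (A : ℝ) * (n : ℝ) ^ 2 * VALw ∅ c (fun _ => 2) 0 =
      15 * (n : ℝ) ^ 2 * (3 * (A : ℝ) * VALw ∅ c (fun _ => 2) 0) := by ring
  rw [h8, h9] at h7
  linarith

end Pool.Agent.C44.S6
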