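import Pool.Agent.C44.SixP

/-!
# Splitting the pointwise check
-/

set_option autoImplicit false
set_option maxHeartbeats 4000000

namespace Pool.Agent.C44.S6

/-- one ninth of `chk5` -/
noncomputable def pc (b : Blk) (CAP C k01 k02 k12 k03 k13 k23 k04 k14 : ℕ) : Bool :=
  all3 fun k24 => all3 fun k34 =>
    force (d4 k04 k14 k24 k34) fun D =>
      cond (p5 C D k01 k02 k12 k03 k13 k23 k04 k14 k24 k34) true (chk6 b CAP C D k01 k02 k12 k03 k13 k23 k04 k14 k24 k34)

theorem all3_intro {f : ℕ → Bool} (h0 : f 0 = true) (h1 : f 1 = true) (h2 : f 2 = true) : all3 f = true := by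
  unfold all3
  rw [h0, h1, h2]
  rfl

theorem chk5_intro {b : Blk} {CAP C k01 k02 k12 k03 k13 k23 : ℕ}
    (h00 : pc b CAP C k01 k02 k12 k03 k13 k23 0 0 = true) (h01 : pc b CAP C k01 k02 k12 k03 k13 k23 0 1 = true)
    (h02 : pc b CAP C k01 k02 k12 k03 k13 k23 0 2 = true) (h10 : pc b CAP C k01 k02 k12 k03 k13 k23 1 0 = true)
    (h11 : pc b CAP C k01 k02 k12 k03 k13 k23 1 1 = true) (h12 : pc b CAP C k01 k02 k12 k03 k13 k23 1 2 = true)
    (h20 : pc b CAP C k01 k02 k12 k03 k13 k23 2 0 = true) (h21 : pc b CAP C k01 k02 k12 k03 k13 k23 2 1 = true)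
    (h22 : pc b CAP C k01 k02 k12 k03 k13 k23 2 2 = true) : chk5 b CAP C k01 k02 k12 k03 k13 k23 = true :=
  all3_intro (all3_intro h00 h01 h02) (all3_intro h10 h11 h12) (all3_intro h20 h21 h22)

/-- membership in the list of locally minimal codes -/
noncomputable def memL (L : List ℕ) (C : ℕ) : Bool := List.rec false (fun a _ r => or (Nat.beq a C) r) L

theorem memL_spec {L : List ℕ} {C : ℕ} (h : memL L C = true) : C ∈ L := by
  induction L with
  | nil => exact absurd h (by simp [memL])
  | cons a L ih =>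
    have h' : or (Nat.beq a C) (memL L C) = true := h
    rw [Bool.or_eq_true, Nat.beq_eq] at h'
    rcases h' with h' | h'
    · rw [h']; exact List.mem_cons_self
    · exact List.mem_cons_of_mem _ (ih h')

def minL : List ℕ := [0, 1, 4, 5, 13, 14, 32, 36, 37, 38, 41, 44, 45, 46, 47, 50, 53, 156]

/-- every code is locally minimal or can be lowered -/
theorem chk4 : (all3 fun a => all3 fun b => all3 fun c => all3 fun d => all3 fun e => all3 fun f =>
    or (p4 (d6 a b c d e f) a b c d e f) (memL minL (d6 a b c d e f))) = true := by decide +kernel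

end Pool.Agent.C44.S6
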