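import Pool.Agent.C44.SixDD
import Pool.Agent.C44.SixV

/-!
# Checks: pointwise bound
-/

set_option autoImplicit false
set_option maxHeartbeats 4000000
set_option maxRecDepth 100000

namespace Pool.Agent.C44.S6

theorem c_001102_21 : pc (blk DD) CAP (d6 0 0 1 1 0 2) 0 0 1 1 0 2 2 1 = true := by decide +kernel
theorem c_001122_20 : pc (blk DD) CAP (d6 0 0 1 1 2 2) 0 0 1 1 2 2 2 0 = true := by decide +kernel
theorem c_001200_20 : pc (blk DD) CAP (d6 0 0 1 2 0 0) 0 0 1 2 0 0 2 0 = true := by decide +kernel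
theorem c_001201_10 : pc (blk DD) CAP (d6 0 0 1 2 0 1) 0 0 1 2 0 1 1 0 = true := by decide +kernel
theorem c_001202_20 : pc (blk DD) CAP (d6 0 0 1 2 0 2) 0 0 1 2 0 2 2 0 = true := by decide +kernel
theorem c_001202_22 : pc (blk DD) CAP (d6 0 0 1 2 0 2) 0 0 1 2 0 2 2 2 = true := by decide +kernel
theorem c_001212_00 : pc (blk DD) CAP (d6 0 0 1 2 1 2) 0 0 1 2 1 2 0 0 = true := by decide +kernel
theorem c_001222_02 : pc (blk DD) CAP (d6 0 0 1 2 2 2) 0 0 1 2 2 2 0 2 = true := by decide +kernel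
theorem c_012210_10 : pc (blk DD) CAP (d6 0 1 2 2 1 0) 0 1 2 2 1 0 1 0 = true := by decide +kernel

end Pool.Agent.C44.S6
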