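import Pool.Agent.C44.SixC0
import Pool.Agent.C44.SixC1
import Pool.Agent.C44.SixC2
import Pool.Agent.C44.SixC3
import Pool.Agent.C44.SixC4
import Pool.Agent.C44.SixC5
import Pool.Agent.C44.SixC6
import Pool.Agent.C44.SixC7
import Pool.Agent.C44.SixC8
import Pool.Agent.C44.SixC9
import Pool.Agent.C44.SixC10
import Pool.Agent.C44.SixC11
import Pool.Agent.C44.SixC12
import Pool.Agent.C44.SixC13

/-!
# The pointwise bound
-/

set_option autoImplicit false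
set_option maxHeartbeats 4000000
set_option maxRecDepth 100000

namespace Pool.Agent.C44.S6

theorem ptDD : Pt (blk DD) CAP := by
  intro a b c d e f
  have h := all3_spec (all3_spec (all3_spec (all3_spec (all3_spec (all3_spec chk4 a) b) c) d) e) f
  rw [Bool.or_eq_true] at h
  rcases h with h | h
  · exact Or.inl h
  · right
    have h := memL_spec h
    have ha := a.2
    have hb := b.2
    have hc := c.2
    have hd := d.2
    have he := e.2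
    have hf := f.2
    simp only [minL, List.mem_cons, List.not_mem_nil, or_false] at h
    rcases h with h | h | h | h | h | h | h | h | h | h | h | h | h | h | h | h | h | h
    · obtain ⟨h1, h2, h3, h4, h5, h6⟩ : (a : ℕ) = 0 ∧ (b : ℕ) = 0 ∧ (c : ℕ) = 0 ∧ (d : ℕ) = 0 ∧ (e : ℕ) = 0 ∧ (f : ℕ) = 0 := by
        simp only [d6, d3, Nat.add_eq, Nat.mul_eq] at h
        omega
      rw [h1, h2, h3, h4, h5, h6]
      exact chk5_intro c_000000_00 c_000000_01 c_000000_02 c_000000_10 c_000000_11 c_000000_12 c_000000_20 c_000000_21 c_000000_22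
    · obtain ⟨h1, h2, h3, h4, h5, h6⟩ : (a : ℕ) = 0 ∧ (b : ℕ) = 0 ∧ (c : ℕ) = 0 ∧ (d : ℕ) = 0 ∧ (e : ℕ) = 0 ∧ (f : ℕ) = 1 := by
        simp only [d6, d3, Nat.add_eq, Nat.mul_eq] at h
        omega
      rw [h1, h2, h3, h4, h5, h6]
      exact chk5_intro c_000001_00 c_000001_01 c_000001_02 c_000001_10 c_000001_11 c_000001_12 c_000001_20 c_000001_21 c_000001_22
    · obtain ⟨h1, h2, h3, h4, h5, h6⟩ : (a : ℕ) = 0 ∧ (b : ℕ) = 0 ∧ (c : ℕ) = 0 ∧ (d : ℕ) = 0 ∧ (e : ℕ) = 1 ∧ (f : ℕ) = 1 := by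
        simp only [d6, d3, Nat.add_eq, Nat.mul_eq] at h
        omega
      rw [h1, h2, h3, h4, h5, h6]
      exact chk5_intro c_000011_00 c_000011_01 c_000011_02 c_000011_10 c_000011_11 c_000011_12 c_000011_20 c_000011_21 c_000011_22
    · obtain ⟨h1, h2, h3, h4, h5, h6⟩ : (a : ℕ) = 0 ∧ (b : ℕ) = 0 ∧ (c : ℕ) = 0 ∧ (d : ℕ) = 0 ∧ (e : ℕ) = 1 ∧ (f : ℕ) = 2 := by
        simp only [d6, d3, Nat.add_eq, Nat.mul_eq] at h
        omega
      rw [h1, h2, h3, h4, h5, h6]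
      exact chk5_intro c_000012_00 c_000012_01 c_000012_02 c_000012_10 c_000012_11 c_000012_12 c_000012_20 c_000012_21 c_000012_22
    · obtain ⟨h1, h2, h3, h4, h5, h6⟩ : (a : ℕ) = 0 ∧ (b : ℕ) = 0 ∧ (c : ℕ) = 0 ∧ (d : ℕ) = 1 ∧ (e : ℕ) = 1 ∧ (f : ℕ) = 1 := by
        simp only [d6, d3, Nat.add_eq, Nat.mul_eq] at h
        omega
      rw [h1, h2, h3, h4, h5, h6]
      exact chk5_intro c_000111_00 c_000111_01 c_000111_02 c_000111_10 c_000111_11 c_000111_12 c_000111_20 c_000111_21 c_000111_22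
    · obtain ⟨h1, h2, h3, h4, h5, h6⟩ : (a : ℕ) = 0 ∧ (b : ℕ) = 0 ∧ (c : ℕ) = 0 ∧ (d : ℕ) = 1 ∧ (e : ℕ) = 1 ∧ (f : ℕ) = 2 := by
        simp only [d6, d3, Nat.add_eq, Nat.mul_eq] at h
        omega
      rw [h1, h2, h3, h4, h5, h6]
      exact chk5_intro c_000112_00 c_000112_01 c_000112_02 c_000112_10 c_000112_11 c_000112_12 c_000112_20 c_000112_21 c_000112_22
    · obtain ⟨h1, h2, h3, h4, h5, h6⟩ : (a : ℕ) = 0 ∧ (b : ℕ) = 0 ∧ (c : ℕ) = 1 ∧ (d : ℕ) = 0 ∧ (e : ℕ) = 1 ∧ (f : ℕ) = 2 := by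
        simp only [d6, d3, Nat.add_eq, Nat.mul_eq] at h
        omega
      rw [h1, h2, h3, h4, h5, h6]
      exact chk5_intro c_001012_00 c_001012_01 c_001012_02 c_001012_10 c_001012_11 c_001012_12 c_001012_20 c_001012_21 c_001012_22
    · obtain ⟨h1, h2, h3, h4, h5, h6⟩ : (a : ℕ) = 0 ∧ (b : ℕ) = 0 ∧ (c : ℕ) = 1 ∧ (d : ℕ) = 1 ∧ (e : ℕ) = 0 ∧ (f : ℕ) = 0 := by
        simp only [d6, d3, Nat.add_eq, Nat.mul_eq] at h
        omega
      rw [h1, h2, h3, h4, h5, h6]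
      exact chk5_intro c_001100_00 c_001100_01 c_001100_02 c_001100_10 c_001100_11 c_001100_12 c_001100_20 c_001100_21 c_001100_22
    · obtain ⟨h1, h2, h3, h4, h5, h6⟩ : (a : ℕ) = 0 ∧ (b : ℕ) = 0 ∧ (c : ℕ) = 1 ∧ (d : ℕ) = 1 ∧ (e : ℕ) = 0 ∧ (f : ℕ) = 1 := by
        simp only [d6, d3, Nat.add_eq, Nat.mul_eq] at h
        omega
      rw [h1, h2, h3, h4, h5, h6]
      exact chk5_intro c_001101_00 c_001101_01 c_001101_02 c_001101_10 c_001101_11 c_001101_12 c_001101_20 c_001101_21 c_001101_22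
    · obtain ⟨h1, h2, h3, h4, h5, h6⟩ : (a : ℕ) = 0 ∧ (b : ℕ) = 0 ∧ (c : ℕ) = 1 ∧ (d : ℕ) = 1 ∧ (e : ℕ) = 0 ∧ (f : ℕ) = 2 := by
        simp only [d6, d3, Nat.add_eq, Nat.mul_eq] at h
        omega
      rw [h1, h2, h3, h4, h5, h6]
      exact chk5_intro c_001102_00 c_001102_01 c_001102_02 c_001102_10 c_001102_11 c_001102_12 c_001102_20 c_001102_21 c_001102_22
    · obtain ⟨h1, h2, h3, h4, h5, h6⟩ : (a : ℕ) = 0 ∧ (b : ℕ) = 0 ∧ (c : ℕ) = 1 ∧ (d : ℕ) = 1 ∧ (e : ℕ) = 1 ∧ (f : ℕ) = 2 := by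
        simp only [d6, d3, Nat.add_eq, Nat.mul_eq] at h
        omega
      rw [h1, h2, h3, h4, h5, h6]
      exact chk5_intro c_001112_00 c_001112_01 c_001112_02 c_001112_10 c_001112_11 c_001112_12 c_001112_20 c_001112_21 c_001112_22
    · obtain ⟨h1, h2, h3, h4, h5, h6⟩ : (a : ℕ) = 0 ∧ (b : ℕ) = 0 ∧ (c : ℕ) = 1 ∧ (d : ℕ) = 1 ∧ (e : ℕ) = 2 ∧ (f : ℕ) = 2 := by
        simp only [d6, d3, Nat.add_eq, Nat.mul_eq] at h
        omega
      rw [h1, h2, h3, h4, h5, h6]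
      exact chk5_intro c_001122_00 c_001122_01 c_001122_02 c_001122_10 c_001122_11 c_001122_12 c_001122_20 c_001122_21 c_001122_22
    · obtain ⟨h1, h2, h3, h4, h5, h6⟩ : (a : ℕ) = 0 ∧ (b : ℕ) = 0 ∧ (c : ℕ) = 1 ∧ (d : ℕ) = 2 ∧ (e : ℕ) = 0 ∧ (f : ℕ) = 0 := by
        simp only [d6, d3, Nat.add_eq, Nat.mul_eq] at h
        omega
      rw [h1, h2, h3, h4, h5, h6]
      exact chk5_intro c_001200_00 c_001200_01 c_001200_02 c_001200_10 c_001200_11 c_001200_12 c_001200_20 c_001200_21 c_001200_22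
    · obtain ⟨h1, h2, h3, h4, h5, h6⟩ : (a : ℕ) = 0 ∧ (b : ℕ) = 0 ∧ (c : ℕ) = 1 ∧ (d : ℕ) = 2 ∧ (e : ℕ) = 0 ∧ (f : ℕ) = 1 := by
        simp only [d6, d3, Nat.add_eq, Nat.mul_eq] at h
        omega
      rw [h1, h2, h3, h4, h5, h6]
      exact chk5_intro c_001201_00 c_001201_01 c_001201_02 c_001201_10 c_001201_11 c_001201_12 c_001201_20 c_001201_21 c_001201_22
    · obtain ⟨h1, h2, h3, h4, h5, h6⟩ : (a : ℕ) = 0 ∧ (b : ℕ) = 0 ∧ (c : ℕ) = 1 ∧ (d : ℕ) = 2 ∧ (e : ℕ) = 0 ∧ (f : ℕ) = 2 := by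
        simp only [d6, d3, Nat.add_eq, Nat.mul_eq] at h
        omega
      rw [h1, h2, h3, h4, h5, h6]
      exact chk5_intro c_001202_00 c_001202_01 c_001202_02 c_001202_10 c_001202_11 c_001202_12 c_001202_20 c_001202_21 c_001202_22
    · obtain ⟨h1, h2, h3, h4, h5, h6⟩ : (a : ℕ) = 0 ∧ (b : ℕ) = 0 ∧ (c : ℕ) = 1 ∧ (d : ℕ) = 2 ∧ (e : ℕ) = 1 ∧ (f : ℕ) = 2 := by
        simp only [d6, d3, Nat.add_eq, Nat.mul_eq] at h
        omega
      rw [h1, h2, h3, h4, h5, h6]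
      exact chk5_intro c_001212_00 c_001212_01 c_001212_02 c_001212_10 c_001212_11 c_001212_12 c_001212_20 c_001212_21 c_001212_22
    · obtain ⟨h1, h2, h3, h4, h5, h6⟩ : (a : ℕ) = 0 ∧ (b : ℕ) = 0 ∧ (c : ℕ) = 1 ∧ (d : ℕ) = 2 ∧ (e : ℕ) = 2 ∧ (f : ℕ) = 2 := by
        simp only [d6, d3, Nat.add_eq, Nat.mul_eq] at h
        omega
      rw [h1, h2, h3, h4, h5, h6]
      exact chk5_intro c_001222_00 c_001222_01 c_001222_02 c_001222_10 c_001222_11 c_001222_12 c_001222_20 c_001222_21 c_001222_22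
    · obtain ⟨h1, h2, h3, h4, h5, h6⟩ : (a : ℕ) = 0 ∧ (b : ℕ) = 1 ∧ (c : ℕ) = 2 ∧ (d : ℕ) = 2 ∧ (e : ℕ) = 1 ∧ (f : ℕ) = 0 := by
        simp only [d6, d3, Nat.add_eq, Nat.mul_eq] at h
        omega
      rw [h1, h2, h3, h4, h5, h6]
      exact chk5_intro c_012210_00 c_012210_01 c_012210_02 c_012210_10 c_012210_11 c_012210_12 c_012210_20 c_012210_21 c_012210_22

end Pool.Agent.C44.S6
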