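import Pool.Agent.C44.SixA0
import Pool.Agent.C44.SixA1
import Pool.Agent.C44.SixA2
import Pool.Agent.C44.SixA3
import Pool.Agent.C44.SixB0
import Pool.Agent.C44.SixB1
import Pool.Agent.C44.SixB2
import Pool.Agent.C44.SixB3
import Pool.Agent.C44.SixB4
import Pool.Agent.C44.SixB5
import Pool.Agent.C44.SixY
import Pool.Agent.C44.SixF

/-!
# `STwoF` for the constants of the proof
-/

set_option autoImplicit false
set_option maxHeartbeats 4000000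

namespace Pool.Agent.C44.S6

theorem okDD : Ok DD where
  o4 := ⟨(chkR_spec okR).1, (chkR_spec okR).2, s4, i4⟩
  g := ⟨T_dl1, T_dl2, T_dl3, T_dl4, T_dl5, gc1, gc2, gc3, gc4, gc5⟩
  ph := okPh
  o2 := ok2
  o0 := ⟨p0a, p0b, ok0⟩
  ou := ⟨pua, pub, okU, okT⟩

theorem psd4 : ∀ t < 15, ∃ (L : List ℕ) (s o ρ : ℕ), 0 < s ∧ chkP 81 (DD.q4 t) OFF L s o ρ = true := by
  intro t ht
  interval_cases t
  · exact ⟨_, _, _, _, by norm_num, psd_0⟩
  · exact ⟨_, _, _, _, by norm_num, psd_1⟩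
  · exact ⟨_, _, _, _, by norm_num, psd_2⟩
  · exact ⟨_, _, _, _, by norm_num, psd_3⟩
  · exact ⟨_, _, _, _, by norm_num, psd_4⟩
  · exact ⟨_, _, _, _, by norm_num, psd_5⟩
  · exact ⟨_, _, _, _, by norm_num, psd_6⟩
  · exact ⟨_, _, _, _, by norm_num, psd_7⟩
  · exact ⟨_, _, _, _, by norm_num, psd_8⟩
  · exact ⟨_, _, _, _, by norm_num, psd_9⟩
  · exact ⟨_, _, _, _, by norm_num, psd_10⟩
  · exact ⟨_, _, _, _, by norm_num, psd_11⟩
  · exact ⟨_, _, _, _, by norm_num, psd_12⟩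
  · exact ⟨_, _, _, _, by norm_num, psd_13⟩
  · exact ⟨_, _, _, _, by norm_num, psd_14⟩

theorem stwoF (L : List (ℝ × ℝ)) (hL : ∃ x ∈ L, 0 ≤ x.1) : STwoF (63 / 10000) L 3 (1 / 2) 0 (6 / 25) :=
  stwo_of DD okDD ptDD OFF OFF OFF OFF psd4 ⟨_, _, _, _, by norm_num, psd_15⟩ ⟨_, _, _, _, by norm_num, psd_16⟩
    muF okW 268435456 (by norm_num) rfl rfl (by norm_num [CAP, OFF]) L hL

end Pool.Agent.C44.S6
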