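import Pool.Agent.C44.Assembly3
import Pool.Agent.C44.S1Main
import Pool.Agent.C44.K4AM
import Pool.Agent.C44.K4BM
import Pool.Agent.C44.K4Z10M
import Pool.Agent.C44.K4Z23M
import Pool.Agent.C44.K4Z26M
import Pool.Agent.C44.SixZ
import Pool.Agent.C44.CIM

/-!
Final assembly of S09431: the list of pairs `(b, rho)` and the covering by cells.
-/

set_option autoImplicit false

namespace Pool.Agent.C44

/-- the list of pairs `(b, rho)` -/
noncomputable def LL : List (ℝ × ℝ) :=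
  [(0, 9 / 2), (1 / 10, 4), (1 / 5, 3), (23 / 100, 5 / 2), (13 / 50, 11 / 5), (4 / 5, 0)]

/-- the cells -/
noncomputable def LC : List (ℝ × ℝ) :=
  [(0, 1 / 10), (1 / 10, 1 / 5), (1 / 5, 23 / 100), (23 / 100, 13 / 50), (13 / 50, 12 / 25)]

lemma LL_ok : ∀ x ∈ LL, 0 ≤ x.1 ∧ x.1 ≤ 4 / 5 ∧ KFour (63 / 10000) (x.1 ^ 2) x.2 1 := by
  intro x hx
  simp only [LL, List.mem_cons, List.not_mem_nil, or_false] at hx
  rcases hx with rfl | rfl | rfl | rfl | rfl | rfl
  · refine ⟨by norm_num, by norm_num, ?_⟩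
    have := KFour_scale (σ := 1 / 3) (by norm_num) K4A.kfour
    norm_num at this ⊢
    exact this
  · refine ⟨by norm_num, by norm_num, ?_⟩
    have := K4Z10.kfour (w := 4) (σ := 1) (by norm_num) (by norm_num)
    norm_num at this ⊢
    exact this
  · refine ⟨by norm_num, by norm_num, ?_⟩
    have := K4B.kfour (w := 3) (σ := 1) (by norm_num) (by norm_num)
    norm_num at this ⊢
    exact this
  · refine ⟨by norm_num, by norm_num, ?_⟩
    have := K4Z23.kfour (w := 5 / 2) (σ := 1) (by norm_num) (by norm_num)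
    norm_num at this ⊢
    exact this
  · refine ⟨by norm_num, by norm_num, ?_⟩
    have := K4Z26.kfour (w := 11 / 5) (σ := 1) (by norm_num) (by norm_num)
    norm_num at this ⊢
    exact this
  · refine ⟨by norm_num, by norm_num, ?_⟩
    exact KFour_zero (63 / 10000) ((4 / 5) ^ 2)

lemma LC_cover : ∀ t : ℝ, 0 ≤ t → t ≤ 1 → (1 / 2 : ℝ) * t + 0 * t ^ 2 < 6 / 25 → ∃ x ∈ LC, x.1 ≤ t ∧ t ≤ x.2 := by
  intro t h0 _ h1
  have h2 : t ≤ 12 / 25 := by linarith
  simp only [LC, List.mem_cons, List.not_mem_nil, or_false, exists_eq_or_imp, exists_eq_left]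
  by_cases c1 : t ≤ 1 / 10
  · left; exact ⟨h0, c1⟩
  right
  by_cases c2 : t ≤ 1 / 5
  · left; exact ⟨by push Not at c1; exact c1.le, c2⟩
  right
  by_cases c3 : t ≤ 23 / 100
  · left; exact ⟨by push Not at c2; exact c2.le, c3⟩
  right
  by_cases c4 : t ≤ 13 / 50
  · left; exact ⟨by push Not at c3; exact c3.le, c4⟩
  right
  exact ⟨by push Not at c4; exact c4.le, h2⟩

lemma LC_ok : ∀ x ∈ LC, CIF (63 / 10000) LL 3 (1 / 2) 0 (6 / 25) x.1 x.2 := by
  intro x hx
  simp only [LC, List.mem_cons, List.not_mem_nil, or_false] at hx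
  rcases hx with rfl | rfl | rfl | rfl | rfl
  · exact cellA LL (by simp [LL])
  · exact cellB LL (by simp [LL])
  · exact cellC LL (by simp [LL])
  · exact cellD LL (by simp [LL])
  · exact cellE LL (by simp [LL])

lemma LL_two : STwoF (63 / 10000) LL 3 (1 / 2) 0 (6 / 25) :=
  S6.stwoF LL ⟨(0, 9 / 2), by simp [LL], le_refl _⟩

/-- **the Turan density of the expanded 4-clique** -/
theorem final :
    ∀ ε : ℝ, 0 < ε → ∃ N : ℕ, ∀ n : ℕ, N ≤ n →
      (∀ H : Finset (Finset (Fin n)), (∀ e ∈ H, e.card = 4) →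
        (¬ ∃ f : Fin 4 × Fin 2 → Fin n, Function.Injective f ∧
            ∀ i j : Fin 4, i ≠ j →
              ({f (i, 0), f (i, 1), f (j, 0), f (j, 1)} : Finset (Fin n)) ∈ H) →
        (H.card : ℝ) ≤ (9 / 14 + ε) * ((n.choose 4 : ℕ) : ℝ)) ∧
      (∃ H : Finset (Finset (Fin n)), (∀ e ∈ H, e.card = 4) ∧
        (¬ ∃ f : Fin 4 × Fin 2 → Fin n, Function.Injective f ∧
            ∀ i j : Fin 4, i ≠ j →
              ({f (i, 0), f (i, 1), f (j, 0), f (j, 1)} : Finset (Fin n)) ∈ H) ∧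
        (9 / 14 - ε) * ((n.choose 4 : ℕ) : ℝ) ≤ (H.card : ℝ)) :=
  final_of_family (63 / 10000) 3 (1 / 2) 0 (6 / 25) (by norm_num) (by norm_num) LL LL_ok
    S1.SOne_main LL_two LC LC_ok LC_cover

end Pool.Agent.C44
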