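import Pool.Agent.C44.K4AP0

namespace Pool.Agent.C44.K4A

theorem chk : G.chk 3 2 K4.adm4 K4.adm (K4.E D) 59109745109237760 = true := by
  refine G.chk_of ?_
  intro l0 h0 l1 h1 l2 h2
  interval_cases l0 <;> interval_cases l1 <;> interval_cases l2
  · exact p000
  · exact p001
  · exact p002
  · exact p010
  · exact p011
  · exact p012
  · exact p020
  · exact p021
  · exact p022
  · exact p100
  · exact p101
  · exact p102
  · exact p110
  · exact p111
  · exact p112
  · exact p120
  · exact p121
  · exact p122
  · exact p200
  · exact p201
  · exact p202
  · exact p210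
  · exact p211
  · exact p212
  · exact p220
  · exact p221
  · exact p222

end Pool.Agent.C44.K4A
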