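import Pool.Agent.C44.K4A

set_option maxRecDepth 100000

namespace Pool.Agent.C44.K4A

theorem p000 : G.chkPart 3 2 K4.adm4 K4.adm (K4.E D) 59109745109237760 0 0 0 = true := by decide +kernel
theorem p001 : G.chkPart 3 2 K4.adm4 K4.adm (K4.E D) 59109745109237760 0 0 1 = true := by decide +kernel
theorem p002 : G.chkPart 3 2 K4.adm4 K4.adm (K4.E D) 59109745109237760 0 0 2 = true := by decide +kernel
theorem p010 : G.chkPart 3 2 K4.adm4 K4.adm (K4.E D) 59109745109237760 0 1 0 = true := by decide +kernel
theorem p011 : G.chkPart 3 2 K4.adm4 K4.adm (K4.E D) 59109745109237760 0 1 1 = true := by decide +kernel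
theorem p012 : G.chkPart 3 2 K4.adm4 K4.adm (K4.E D) 59109745109237760 0 1 2 = true := by decide +kernel
theorem p020 : G.chkPart 3 2 K4.adm4 K4.adm (K4.E D) 59109745109237760 0 2 0 = true := by decide +kernel
theorem p021 : G.chkPart 3 2 K4.adm4 K4.adm (K4.E D) 59109745109237760 0 2 1 = true := by decide +kernel
theorem p022 : G.chkPart 3 2 K4.adm4 K4.adm (K4.E D) 59109745109237760 0 2 2 = true := by decide +kernel
theorem p100 : G.chkPart 3 2 K4.adm4 K4.adm (K4.E D) 59109745109237760 1 0 0 = true := by decide +kernel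
theorem p101 : G.chkPart 3 2 K4.adm4 K4.adm (K4.E D) 59109745109237760 1 0 1 = true := by decide +kernel
theorem p102 : G.chkPart 3 2 K4.adm4 K4.adm (K4.E D) 59109745109237760 1 0 2 = true := by decide +kernel
theorem p110 : G.chkPart 3 2 K4.adm4 K4.adm (K4.E D) 59109745109237760 1 1 0 = true := by decide +kernel
theorem p111 : G.chkPart 3 2 K4.adm4 K4.adm (K4.E D) 59109745109237760 1 1 1 = true := by decide +kernel
theorem p112 : G.chkPart 3 2 K4.adm4 K4.adm (K4.E D) 59109745109237760 1 1 2 = true := by decide +kernel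
theorem p120 : G.chkPart 3 2 K4.adm4 K4.adm (K4.E D) 59109745109237760 1 2 0 = true := by decide +kernel
theorem p121 : G.chkPart 3 2 K4.adm4 K4.adm (K4.E D) 59109745109237760 1 2 1 = true := by decide +kernel
theorem p122 : G.chkPart 3 2 K4.adm4 K4.adm (K4.E D) 59109745109237760 1 2 2 = true := by decide +kernel
theorem p200 : G.chkPart 3 2 K4.adm4 K4.adm (K4.E D) 59109745109237760 2 0 0 = true := by decide +kernel
theorem p201 : G.chkPart 3 2 K4.adm4 K4.adm (K4.E D) 59109745109237760 2 0 1 = true := by decide +kernel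
theorem p202 : G.chkPart 3 2 K4.adm4 K4.adm (K4.E D) 59109745109237760 2 0 2 = true := by decide +kernel
theorem p210 : G.chkPart 3 2 K4.adm4 K4.adm (K4.E D) 59109745109237760 2 1 0 = true := by decide +kernel
theorem p211 : G.chkPart 3 2 K4.adm4 K4.adm (K4.E D) 59109745109237760 2 1 1 = true := by decide +kernel
theorem p212 : G.chkPart 3 2 K4.adm4 K4.adm (K4.E D) 59109745109237760 2 1 2 = true := by decide +kernel
theorem p220 : G.chkPart 3 2 K4.adm4 K4.adm (K4.E D) 59109745109237760 2 2 0 = true := by decide +kernel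
theorem p221 : G.chkPart 3 2 K4.adm4 K4.adm (K4.E D) 59109745109237760 2 2 1 = true := by decide +kernel
theorem p222 : G.chkPart 3 2 K4.adm4 K4.adm (K4.E D) 59109745109237760 2 2 2 = true := by decide +kernel

end Pool.Agent.C44.K4A
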