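import Pool.Agent.C44.K4B

set_option maxRecDepth 100000

namespace Pool.Agent.C44.K4B

theorem p001 : G.chkPart 4 2 K4.adm4 K4.adm (K4.E D) 59109745109237760 0 0 1 = true := by decide +kernel
theorem p023 : G.chkPart 4 2 K4.adm4 K4.adm (K4.E D) 59109745109237760 0 2 3 = true := by decide +kernel
theorem p233 : G.chkPart 4 2 K4.adm4 K4.adm (K4.E D) 59109745109237760 2 3 3 = true := by decide +kernel

end Pool.Agent.C44.K4B
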