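import Pool.Agent.C44.K4BP0
import Pool.Agent.C44.K4BP1
import Pool.Agent.C44.K4BP2
import Pool.Agent.C44.K4BP3
import Pool.Agent.C44.K4BP4
import Pool.Agent.C44.K4BP5
import Pool.Agent.C44.K4BP6
import Pool.Agent.C44.K4BP7

namespace Pool.Agent.C44.K4B

theorem chk : G.chk 4 2 K4.adm4 K4.adm (K4.E D) 59109745109237760 = true := by
  refine G.chk_of ?_
  intro l0 h0 l1 h1 l2 h2
  interval_cases l0 <;> interval_cases l1 <;> interval_cases l2
  · exact p000
  · exact p001
  · exact p002
  · exact p003
  · exact p010
  · exact p011
  · exact p012
  · exact p013
  · exact p020
  · exact p021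
  · exact p022
  · exact p023
  · exact p030
  · exact p031
  · exact p032
  · exact p033
  · exact p100
  · exact p101
  · exact p102
  · exact p103
  · exact p110
  · exact p111
  · exact p112
  · exact p113
  · exact p120
  · exact p121
  · exact p122
  · exact p123
  · exact p130
  · exact p131
  · exact p132
  · exact p133
  · exact p200
  · exact p201
  · exact p202
  · exact p203
  · exact p210
  · exact p211
  · exact p212
  · exact p213
  · exact p220
  · exact p221
  · exact p222
  · exact p223
  · exact p230
  · exact p231
  · exact p232
  · exact p233
  · exact p300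
  · exact p301
  · exact p302
  · exact p303
  · exact p310
  · exact p311
  · exact p312
  · exact p313
  · exact p320
  · exact p321
  · exact p322
  · exact p323
  · exact p330
  · exact p331
  · exact p332
  · exact p333

end Pool.Agent.C44.K4B
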