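import Pool.Agent.C44.Gen5
import Pool.Agent.C44.Gram

/-!
# The function `E` of the pair graph certificates

Five points with labels `0, 1, 2` (classes of the cut) and `3` (pairs inside the vertex set `A`), pair
colours `0, 1` (adjacent or not). `E` is a sum of table look-ups:
squares with three roots, with one root, localised squares with two roots, and multipliers.
-/

open Finset

namespace Pool.Agent.C44.K4

/-- element of a list -/
noncomputable def nt (l : List ℕ) : ℕ → ℕ := List.rec (fun _ => 0) (fun a _ ih i => Nat.rec a (fun n _ => ih n) i) l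

/-- element of a list of lists of lists -/
noncomputable def nt3 (l : List (List (List ℕ))) : ℕ → List (List ℕ) :=
  List.rec (fun _ => []) (fun a _ ih i => Nat.rec a (fun n _ => ih n) i) l

/-- field number `i` (8 bits) -/
def lk8 (T i : ℕ) : ℕ := Nat.land (Nat.shiftRight T (Nat.mul 8 i)) 255

/-- field number `i` (16 bits) -/
def lk16 (T i : ℕ) : ℕ := Nat.land (Nat.shiftRight T (Nat.mul 16 i)) 65535

/-- the relabelling coded by the byte `q` -/
def rb (q l : ℕ) : ℕ := Nat.land (Nat.shiftRight q (Nat.mul 2 l)) 3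

/-- code of three labelled points -/
def tcd (a b c x y z : ℕ) : ℕ :=
  Nat.add (Nat.mul (Nat.add (Nat.mul (Nat.add (Nat.mul a 4) b) 4) c) 8)
    (Nat.add (Nat.mul 4 x) (Nat.add (Nat.mul 2 y) z))

/-- code of a flag with three roots -/
def fl3 (l x y z : ℕ) : ℕ := Nat.add (Nat.mul 8 l) (Nat.add (Nat.mul 4 x) (Nat.add (Nat.mul 2 y) z))

/-- code of a flag with one root -/
def fl1 (a b x y z : ℕ) : ℕ :=
  Nat.add (Nat.mul (Nat.add (Nat.mul a 4) b) 8) (Nat.add (Nat.mul 4 x) (Nat.add (Nat.mul 2 y) z))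

/-- code of a flag with two roots -/
def fl2 (l x y : ℕ) : ℕ := Nat.add (Nat.mul 4 l) (Nat.add (Nat.mul 2 x) y)

/-- certificate data -/
structure CD where
  /-- offset -/
  off : ℕ
  /-- offset of the columns -/
  o : ℕ
  /-- scale of the objective -/
  Q : ℕ
  kp : ℕ
  kq : ℕ
  hn : ℕ
  hd : ℕ
  yn : ℕ
  yd : ℕ
  zn : ℕ
  zd : ℕ
  /-- number of types with three roots -/
  NT : ℕ
  /-- type id + 256 * relabelling for all raw types -/
  tr : ℕ
  f1 : ℕ
  f1z : ℕ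
  n1 : ℕ
  n1z : ℕ
  t3 : List ℕ
  t1 : List ℕ
  t1z : List ℕ
  tc : List ℕ
  lam : List ℕ
  mu : ℕ
  nu : ℕ
  zz : ℕ
  w3 : List (List ℕ)
  c3 : List (List (List ℕ))
  w1 : List ℕ
  c1 : List (List ℕ)
  w1z : List ℕ
  c1z : List (List ℕ)
  wc : List (List ℕ)
  cc : List (List (List ℕ))

/-- monochromatic adjacent pair -/
def mon (k a b : ℕ) : Bool := and (Nat.beq k 1) (and (Nat.beq a b) (not (Nat.beq a 3)))

/-- multipliers of the density and of the monochromatic pairs -/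
def pY (D : CD) (mu nu : ℕ) (m kk : Bool) : ℕ :=
  Nat.sub (Nat.add D.off (Nat.add (cond m 0 (Nat.mul mu D.yn)) (cond kk (Nat.mul nu (Nat.sub D.hd D.hn)) 0)))
    (Nat.add (cond m (Nat.mul mu (Nat.sub D.yd D.yn)) 0) (cond kk 0 (Nat.mul nu D.hn)))

/-- multiplier of the label 3 -/
def pZ (D : CD) (z l4 : ℕ) : ℕ :=
  cond (Nat.beq l4 3) (Nat.sub D.off (Nat.mul z (Nat.sub D.zd D.zn))) (Nat.add D.off (Nat.mul z D.zn))

/-- three roots, type `t > 0` -/
noncomputable def pA1 (D : CD) (t f3 f4 l4 : ℕ) (m kk : Bool) : ℕ :=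
  Nat.add (lk (nt D.t3 t) (Nat.add (Nat.mul 32 f3) f4))
    (Nat.add (pY D (lk D.mu t) (lk D.nu t) m kk) (pZ D (lk D.zz (Nat.add (Nat.mul 32 t) f3)) l4))

/-- three roots, type and relabelling given -/
noncomputable def pA0 (D : CD) (t q l3 k03 k13 k23 l4 k04 k14 k24 k34 : ℕ) : ℕ :=
  cond (Nat.beq t 0) (Nat.mul 3 D.off)
    (pA1 D t (fl3 (rb q l3) k03 k13 k23) (fl3 (rb q l4) k04 k14 k24) l4 (mon k34 l3 l4) (Nat.beq k34 1))

/-- three roots -/
noncomputable def pA (D : CD) (l0 l1 l2 l3 k01 k02 k12 k03 k13 k23 l4 k04 k14 k24 k34 : ℕ) : ℕ :=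
  pA0 D (Nat.land (lk16 D.tr (tcd l0 l1 l2 k01 k02 k12)) 255)
    (Nat.shiftRight (lk16 D.tr (tcd l0 l1 l2 k01 k02 k12)) 8) l3 k03 k13 k23 l4 k04 k14 k24 k34

/-- relabelling for one root -/
def rq (l0 : ℕ) : ℕ := lk8 3838435812 l0

/-- one root: value for two flags -/
noncomputable def pB1 (rows : List ℕ) (n off f g : ℕ) : ℕ :=
  cond (Nat.beq f 0) off (cond (Nat.beq g 0) off
    (lk (nt rows (Nat.shiftRight f 3)) (Nat.add (Nat.mul (Nat.land f 7) n) g)))

/-- one root -/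
noncomputable def pB (D : CD) (l0 l1 l2 l3 k01 k02 k12 k03 l4 k04 k34 : ℕ) : ℕ :=
  cond (Nat.beq l0 3)
    (pB1 D.t1z D.n1z D.off (lk8 D.f1z (fl1 l1 l2 k01 k02 k12)) (lk8 D.f1z (fl1 l3 l4 k03 k04 k34)))
    (pB1 D.t1 D.n1 D.off (lk8 D.f1 (fl1 (rb (rq l0) l1) (rb (rq l0) l2) k01 k02 k12))
      (lk8 D.f1 (fl1 (rb (rq l0) l3) (rb (rq l0) l4) k03 k04 k34)))

/-- relabelling for a root and a target -/
def cq (l0 s : ℕ) : ℕ := lk8 218570379417828 (Nat.add (Nat.mul 2 l0) s)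

/-- the target -/
def tg (l0 s : ℕ) : ℕ := Nat.mod (Nat.add l0 (Nat.add s 1)) 3

/-- value of the localised square and of the multiplier -/
noncomputable def pV (D : CD) (q l1 l2 l3 k01 k02 k12 k03 k13 k23 : ℕ) : ℕ :=
  Nat.add (lk (nt D.lam (Nat.add (Nat.mul 16 (rb q l1)) (Nat.add (Nat.mul 4 (rb q l2)) (rb q l3))))
      (Nat.add (Nat.mul 8 (Nat.add (Nat.mul 4 k01) (Nat.add (Nat.mul 2 k02) k03)))
        (Nat.add (Nat.mul 4 k12) (Nat.add (Nat.mul 2 k13) k23))))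
    (lk (nt D.tc (Nat.add (Nat.mul 2 (rb q l1)) k01))
      (Nat.add (Nat.mul 16 (fl2 (rb q l2) k02 k12)) (fl2 (rb q l3) k03 k13)))

/-- local optimality of the cut at the root: `V0`, `V1` are the values for the two targets -/
def pC0 (off l0 l4 k04 V0 V1 : ℕ) : ℕ :=
  cond (or (Nat.beq l0 3) (Nat.beq k04 0)) (Nat.mul 2 off)
    (cond (Nat.beq l4 l0) (Nat.sub (Nat.mul 4 off) (Nat.add V0 V1))
      (cond (Nat.beq l4 3) (Nat.add V0 V1)
        (cond (Nat.beq l4 (tg l0 0)) (Nat.add off V0) (Nat.add off V1))))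

/-- local optimality of the cut at the root -/
noncomputable def pC (D : CD) (l0 l1 l2 l3 k01 k02 k12 k03 k13 k23 l4 k04 : ℕ) : ℕ :=
  pC0 D.off l0 l4 k04 (pV D (cq l0 0) l1 l2 l3 k01 k02 k12 k03 k13 k23)
    (pV D (cq l0 1) l1 l2 l3 k01 k02 k12 k03 k13 k23)

/-- the objective -/
def pO (D : CD) (l0 l1 k01 : ℕ) : ℕ :=
  cond (or (Nat.beq l0 3) (Nat.beq l1 3)) D.off
    (cond (Nat.beq k01 1) (cond (Nat.beq l0 l1) (Nat.add D.off (Nat.mul D.kp D.Q)) D.off)
      (cond (Nat.beq l0 l1) D.off (Nat.sub D.off (Nat.mul D.kq D.Q))))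

/-- the function to be summed -/
noncomputable def E (D : CD) (l0 l1 l2 l3 k01 k02 k12 k03 k13 k23 l4 k04 k14 k24 k34 : ℕ) : ℕ :=
  Nat.add (Nat.add (pA D l0 l1 l2 l3 k01 k02 k12 k03 k13 k23 l4 k04 k14 k24 k34)
      (pB D l0 l1 l2 l3 k01 k02 k12 k03 l4 k04 k34))
    (Nat.add (pC D l0 l1 l2 l3 k01 k02 k12 k03 k13 k23 l4 k04) (pO D l0 l1 k01))

/-- not all six pairs are adjacent -/
def a4 (x01 x02 x12 x03 x13 x23 : ℕ) : Bool :=
  not (Nat.beq (Nat.add x01 (Nat.add x02 (Nat.add x12 (Nat.add x03 (Nat.add x13 x23))))) 6)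

def adm4 (_ _ _ _ k01 k02 k12 k03 k13 k23 : ℕ) : Bool := a4 k01 k02 k12 k03 k13 k23

def adm (_ _ _ _ k01 k02 k12 k03 k13 k23 _ k04 k14 k24 k34 : ℕ) : Bool :=
  and (a4 k01 k02 k12 k03 k13 k23) (and (a4 k01 k02 k12 k04 k14 k24) (and (a4 k01 k03 k13 k04 k14 k34)
    (and (a4 k02 k03 k23 k04 k24 k34) (a4 k12 k13 k23 k14 k24 k34))))

/-- all tables `T` (with `m × m` fields, row length `m`) are offset plus Gram matrix -/
noncomputable def chkT (m off o T : ℕ) (W : List ℕ) (C : List (List ℕ)) : Bool :=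
  G.allB m fun f => G.allB m fun g =>
    Nat.beq (Nat.add (lk T (Nat.add (Nat.mul m f) g)) (Nat.mul o (Nat.add (ws W (nth C f)) (ws W (nth C g)))))
      (Nat.add (Nat.add off (Nat.mul (Nat.mul o o) (wt W))) (wd W (nth C f) (nth C g)))

/-- the tables for three roots -/
noncomputable def chk3 (D : CD) : Bool :=
  G.allB D.NT fun t => chkT 32 D.off D.o (nt D.t3 (Nat.succ t)) (nth D.w3 (Nat.succ t)) (nt3 D.c3 (Nat.succ t))

/-- the tables for the localised squares -/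
noncomputable def chkC (D : CD) : Bool :=
  G.allB 8 fun t => chkT 16 D.off D.o (nt D.tc t) (nth D.wc t) (nt3 D.cc t)

/-- the rows for one root -/
noncomputable def chkB1 (off o n : ℕ) (rows W : List ℕ) (C : List (List ℕ)) : Bool :=
  G.allB n fun f => G.allB n fun g => cond (Nat.beq f 0) true (cond (Nat.beq g 0) true
    (Nat.beq (Nat.add (lk (nt rows (Nat.shiftRight f 3)) (Nat.add (Nat.mul (Nat.land f 7) n) g))
        (Nat.mul o (Nat.add (ws W (nth C f)) (ws W (nth C g)))))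
      (Nat.add (Nat.add off (Nat.mul (Nat.mul o o) (wt W))) (wd W (nth C f) (nth C g)))))

/-- sizes of the entries of the type table -/
def chkR (D : CD) : Bool :=
  and (Nat.ble D.yn D.yd) (and (Nat.ble D.hn D.hd) (Nat.ble D.zn D.zd))

/-- type ids are bounded -/
noncomputable def chkI (D : CD) : Bool :=
  and (G.allB 512 fun i => Nat.ble (Nat.land (lk16 D.tr i) 255) D.NT)
    (and (G.allB 128 fun i => Nat.blt (lk8 D.f1 i) D.n1) (G.allB 128 fun i => Nat.blt (lk8 D.f1z i) D.n1z))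

end Pool.Agent.C44.K4
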