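import Pool.Agent.C44.K4E

/-!
# From the checks to the graph inequality
-/

open Finset

namespace Pool.Agent.C44.K4

theorem cb {α : Type*} (a b : ℕ) (x y : α) : cond (Nat.beq a b) x y = if a = b then x else y := by
  by_cases h : a = b
  · subst h; simp
  · have : Nat.beq a b = false := by
      cases hb : Nat.beq a b with
      | false => rfl
      | true => exact absurd (Nat.eq_of_beq_eq_true hb) h
    rw [this, if_neg h]; rfl

theorem cor {α : Type*} (p q : Bool) (x y : α) : cond (or p q) x y = cond p x (cond q x y) := by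
  cases p <;> cases q <;> rfl

/-! ### Gram tables -/

theorem chkT_spec {m off o T : ℕ} {W : List ℕ} {C : List (List ℕ)} (h : chkT m off o T W C = true)
    {f g : ℕ} (hf : f < m) (hg : g < m) :
    (lk T (Nat.add (Nat.mul m f) g) : ℤ) = off + gram W o C f g := by
  have h1 := G.allB_spec (G.allB_spec h hf) hg
  rw [Nat.beq_eq] at h1
  simp only [Nat.add_eq, Nat.mul_eq] at h1 ⊢
  rw [gram_eq]
  have h' : (lk T (m * f + g) : ℤ) + o * (ws W (nth C f) + ws W (nth C g)) =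
      off + o * o * wt W + wd W (nth C f) (nth C g) := by
    exact_mod_cast h1
  linarith

/-! ### Weights -/

section
variable {Ω : Type*} [Fintype Ω]

/-- weight of `y` in the cut inequality at `x` with target `j` -/
def wj (l : Ω → ℕ) (c : Ω → Ω → ℕ) (j : ℕ) (x y : Ω) : ℤ :=
  if c x y = 1 then (if l y = j then 1 else 0) + (if l y = 3 then 1 else 0) - (if l y = l x then 1 else 0)
  else 0

/-- monochromatic adjacency -/
def mo (l : Ω → ℕ) (c : Ω → Ω → ℕ) (x y : Ω) : ℤ := if c x y = 1 ∧ l x = l y ∧ l x ≠ 3 then 1 else 0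

/-- missing bichromatic pair -/
def mi (l : Ω → ℕ) (c : Ω → Ω → ℕ) (x y : Ω) : ℤ :=
  if c x y = 0 ∧ l x ≠ l y ∧ l x ≠ 3 ∧ l y ≠ 3 then 1 else 0

/-- the hypotheses on the labelled graph -/
structure Hyp (D : CD) (l : Ω → ℕ) (c : Ω → Ω → ℕ) : Prop where
  l4 : ∀ x, l x < 4
  c2 : ∀ x y, c x y < 2
  symm : ∀ x y, c x y = c y x
  k4 : ∀ x0 x1 x2 x3, ¬ (c x0 x1 = 1 ∧ c x0 x2 = 1 ∧ c x1 x2 = 1 ∧ c x0 x3 = 1 ∧ c x1 x3 = 1 ∧ c x2 x3 = 1)
  hY : (D.yd : ℤ) * ∑ x, ∑ y, mo l c x y ≤ D.yn * (Fintype.card Ω : ℤ) ^ 2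
  hH : (D.hn : ℤ) * (Fintype.card Ω : ℤ) ^ 2 ≤ D.hd * ∑ x, ∑ y, (c x y : ℤ)
  hZ : (D.zd : ℤ) * ∑ x, (if l x = 3 then (1 : ℤ) else 0) ≤ D.zn * (Fintype.card Ω : ℤ)
  cut : ∀ x, l x ≠ 3 → ∀ s < 2, 0 ≤ ∑ y, wj l c (tg (l x) s) x y

/-! ### Local optimality -/

theorem tg0 (l : ℕ) : tg l 0 = (l + 1) % 3 := rfl
theorem tg1 (l : ℕ) : tg l 1 = (l + 2) % 3 := rfl

theorem pC0_ge (off l0 l4 k V0 V1 : ℕ) (h0 : l0 < 4) (h4 : l4 < 4) (hk : k < 2) :
    2 * (off : ℤ) + (if l0 = 3 then 0 else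
      (if k = 1 then (if l4 = tg l0 0 then 1 else 0) + (if l4 = 3 then 1 else 0) - (if l4 = l0 then 1 else 0)
        else 0) * ((V0 : ℤ) - off) +
      (if k = 1 then (if l4 = tg l0 1 then 1 else 0) + (if l4 = 3 then 1 else 0) - (if l4 = l0 then 1 else 0)
        else 0) * ((V1 : ℤ) - off)) ≤ (pC0 off l0 l4 k V0 V1 : ℤ) := by
  unfold pC0
  simp only [cor, cb, Nat.add_eq, Nat.mul_eq, Nat.sub_eq]
  rw [tg0, tg1]
  interval_cases l0 <;> interval_cases l4 <;> interval_cases k <;> simp <;> omega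

theorem rb_lt (q l : ℕ) : rb q l < 4 := by
  have : rb q l ≤ 3 := Nat.and_le_right
  omega

theorem fl3_lt {l x y z : ℕ} (hl : l < 4) (hx : x < 2) (hy : y < 2) (hz : z < 2) : fl3 l x y z < 32 := by
  simp only [fl3, Nat.add_eq, Nat.mul_eq]; omega

theorem fl1_lt {a b x y z : ℕ} (ha : a < 4) (hb : b < 4) (hx : x < 2) (hy : y < 2) (hz : z < 2) :
    fl1 a b x y z < 128 := by
  simp only [fl1, Nat.add_eq, Nat.mul_eq]; omega

theorem fl2_lt {l x y : ℕ} (hl : l < 4) (hx : x < 2) (hy : y < 2) : fl2 l x y < 16 := by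
  simp only [fl2, Nat.add_eq, Nat.mul_eq]; omega

theorem tcd_lt {a b c x y z : ℕ} (ha : a < 4) (hb : b < 4) (hc : c < 4) (hx : x < 2) (hy : y < 2) (hz : z < 2) :
    tcd a b c x y z < 512 := by
  simp only [tcd, Nat.add_eq, Nat.mul_eq]; omega

/-- multiplier of the cut inequality -/
noncomputable def lamv (D : CD) (q l1 l2 l3 k01 k02 k12 k03 k13 k23 : ℕ) : ℕ :=
  lk (nt D.lam (Nat.add (Nat.mul 16 (rb q l1)) (Nat.add (Nat.mul 4 (rb q l2)) (rb q l3))))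
      (Nat.add (Nat.mul 8 (Nat.add (Nat.mul 4 k01) (Nat.add (Nat.mul 2 k02) k03)))
        (Nat.add (Nat.mul 4 k12) (Nat.add (Nat.mul 2 k13) k23)))

/-- localised Gram matrix -/
noncomputable def gc (D : CD) (q l1 k01 : ℕ) (f g : ℕ) : ℤ :=
  gram (nth D.wc (Nat.add (Nat.mul 2 (rb q l1)) k01)) D.o (nt3 D.cc (Nat.add (Nat.mul 2 (rb q l1)) k01)) f g

theorem pV_eq {D : CD} (h : chkC D = true) (q l1 l2 l3 : ℕ) {k01 k02 k12 k03 k13 k23 : ℕ}
    (h01 : k01 < 2) (h02 : k02 < 2) (h12 : k12 < 2) (h03 : k03 < 2) (h13 : k13 < 2) :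
    (pV D q l1 l2 l3 k01 k02 k12 k03 k13 k23 : ℤ) - D.off =
      lamv D q l1 l2 l3 k01 k02 k12 k03 k13 k23 +
        gc D q l1 k01 (fl2 (rb q l2) k02 k12) (fl2 (rb q l3) k03 k13) := by
  have hi : Nat.add (Nat.mul 2 (rb q l1)) k01 < 8 := by
    have := rb_lt q l1
    simp only [Nat.add_eq, Nat.mul_eq]; omega
  have h1 := chkT_spec (G.allB_spec h hi) (fl2_lt (rb_lt q l2) h02 h12) (fl2_lt (rb_lt q l3) h03 h13)
  have : (pV D q l1 l2 l3 k01 k02 k12 k03 k13 k23 : ℤ) =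
      lamv D q l1 l2 l3 k01 k02 k12 k03 k13 k23 + lk (nt D.tc (Nat.add (Nat.mul 2 (rb q l1)) k01))
      (Nat.add (Nat.mul 16 (fl2 (rb q l2) k02 k12)) (fl2 (rb q l3) k03 k13)) := by
    rw [pV, Nat.add_eq]; push_cast; rfl
  rw [this, h1, gc]
  ring

section sumC
variable {D : CD} {l : Ω → ℕ} {c : Ω → Ω → ℕ}

theorem sumC (hH : Hyp D l c) (hC : chkC D = true) (x0 x1 : Ω) :
    2 * (D.off : ℤ) * (Fintype.card Ω : ℤ) ^ 3 ≤
      ∑ x2, ∑ x3, ∑ x4, (pC D (l x0) (l x1) (l x2) (l x3) (c x0 x1) (c x0 x2) (c x1 x2) (c x0 x3) (c x1 x3)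
        (c x2 x3) (l x4) (c x0 x4) : ℤ) := by
  have h1 : ∀ x2 x3 x4, 2 * (D.off : ℤ) + (if l x0 = 3 then 0 else
      wj l c (tg (l x0) 0) x0 x4 * ((lamv D (cq (l x0) 0) (l x1) (l x2) (l x3) (c x0 x1) (c x0 x2) (c x1 x2)
          (c x0 x3) (c x1 x3) (c x2 x3) : ℤ) +
        gc D (cq (l x0) 0) (l x1) (c x0 x1) (fl2 (rb (cq (l x0) 0) (l x2)) (c x0 x2) (c x1 x2))
          (fl2 (rb (cq (l x0) 0) (l x3)) (c x0 x3) (c x1 x3))) +
      wj l c (tg (l x0) 1) x0 x4 * ((lamv D (cq (l x0) 1) (l x1) (l x2) (l x3) (c x0 x1) (c x0 x2) (c x1 x2)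
          (c x0 x3) (c x1 x3) (c x2 x3) : ℤ) +
        gc D (cq (l x0) 1) (l x1) (c x0 x1) (fl2 (rb (cq (l x0) 1) (l x2)) (c x0 x2) (c x1 x2))
          (fl2 (rb (cq (l x0) 1) (l x3)) (c x0 x3) (c x1 x3)))) ≤
      (pC D (l x0) (l x1) (l x2) (l x3) (c x0 x1) (c x0 x2) (c x1 x2) (c x0 x3) (c x1 x3)
        (c x2 x3) (l x4) (c x0 x4) : ℤ) := by
    intro x2 x3 x4
    have := pC0_ge D.off (l x0) (l x4) (c x0 x4)
      (pV D (cq (l x0) 0) (l x1) (l x2) (l x3) (c x0 x1) (c x0 x2) (c x1 x2) (c x0 x3) (c x1 x3) (c x2 x3))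
      (pV D (cq (l x0) 1) (l x1) (l x2) (l x3) (c x0 x1) (c x0 x2) (c x1 x2) (c x0 x3) (c x1 x3) (c x2 x3))
      (hH.l4 x0) (hH.l4 x4) (hH.c2 x0 x4)
    rw [pV_eq hC _ _ _ _ (hH.c2 _ _) (hH.c2 _ _) (hH.c2 _ _) (hH.c2 _ _) (hH.c2 _ _),
      pV_eq hC _ _ _ _ (hH.c2 _ _) (hH.c2 _ _) (hH.c2 _ _) (hH.c2 _ _) (hH.c2 _ _)] at this
    exact this
  have key : ∀ s < 2, l x0 ≠ 3 → 0 ≤ ∑ x2, ∑ x3, ∑ x4, wj l c (tg (l x0) s) x0 x4 *
      ((lamv D (cq (l x0) s) (l x1) (l x2) (l x3) (c x0 x1) (c x0 x2) (c x1 x2)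
          (c x0 x3) (c x1 x3) (c x2 x3) : ℤ) +
        gc D (cq (l x0) s) (l x1) (c x0 x1) (fl2 (rb (cq (l x0) s) (l x2)) (c x0 x2) (c x1 x2))
          (fl2 (rb (cq (l x0) s) (l x3)) (c x0 x3) (c x1 x3))) := by
    intro s hs h3
    have hW := hH.cut x0 h3 s hs
    simp only [← Finset.sum_mul]
    simp only [← Finset.mul_sum]
    refine mul_nonneg hW ?_
    simp only [Finset.sum_add_distrib]
    refine add_nonneg (Finset.sum_nonneg fun _ _ => Finset.sum_nonneg fun _ _ => Int.natCast_nonneg _) ?_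
    exact gram_nonneg (univ : Finset Ω)
      (fun x => fl2 (rb (cq (l x0) s) (l x)) (c x0 x) (c x1 x)) _ _ _
  refine le_trans ?_ (Finset.sum_le_sum fun x2 _ => Finset.sum_le_sum fun x3 _ =>
    Finset.sum_le_sum fun x4 _ => h1 x2 x3 x4)
  by_cases h3 : l x0 = 3
  · simp only [h3, if_true, add_zero, Finset.sum_const, Finset.card_univ, nsmul_eq_mul]
    apply le_of_eq; ring
  · simp only [h3, if_false, Finset.sum_add_distrib]
    have k0 := key 0 (by norm_num) h3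
    have k1 := key 1 (by norm_num) h3
    simp only [Finset.sum_const, Finset.card_univ, nsmul_eq_mul]
    have e : (Fintype.card Ω : ℤ) * ((Fintype.card Ω : ℤ) * ((Fintype.card Ω : ℤ) * (2 * (D.off : ℤ)))) =
      2 * (D.off : ℤ) * (Fintype.card Ω : ℤ) ^ 3 := by ring
    linarith

end sumC

/-! ### Three roots -/

theorem mon_iff (k a b : ℕ) : mon k a b = true ↔ (k = 1 ∧ a = b ∧ a ≠ 3) := by
  unfold mon
  by_cases h1 : k = 1
  · by_cases h2 : a = b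
    · by_cases h3 : a = 3
      · subst h1 h2 h3; simp
      · have : Nat.beq a 3 = false := by
          cases hb : Nat.beq a 3 with
          | false => rfl
          | true => exact absurd (Nat.eq_of_beq_eq_true hb) h3
        subst h1 h2
        simp [this, h3]
    · have : Nat.beq a b = false := by
        cases hb : Nat.beq a b with
        | false => rfl
        | true => exact absurd (Nat.eq_of_beq_eq_true hb) h2
      simp [this, h2]
  · have : Nat.beq k 1 = false := by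
      cases hb : Nat.beq k 1 with
      | false => rfl
      | true => exact absurd (Nat.eq_of_beq_eq_true hb) h1
    simp [this, h1]

theorem pY_ge {D : CD} (hR : chkR D = true) (mu nu : ℕ) (m kk : Bool) :
    (D.off : ℤ) + mu * (D.yn - D.yd * (if m = true then 1 else 0)) +
      nu * (D.hd * (if kk = true then 1 else 0) - D.hn) ≤ (pY D mu nu m kk : ℤ) := by
  unfold chkR at hR
  simp only [Bool.and_eq_true, Nat.ble_eq] at hR
  obtain ⟨hy, hh, -⟩ := hR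
  obtain ⟨y, hy'⟩ := Nat.exists_eq_add_of_le hy
  obtain ⟨g, hh'⟩ := Nat.exists_eq_add_of_le hh
  unfold pY
  simp only [Nat.add_eq, Nat.mul_eq, Nat.sub_eq]
  have e1 : D.yd - D.yn = y := by omega
  have e2 : D.hd - D.hn = g := by omega
  rw [e1, e2, hy', hh']
  have hs : ∀ a b : ℕ, (a : ℤ) - b ≤ ((a - b : ℕ) : ℤ) := fun a b => by omega
  refine le_trans ?_ (hs _ _)
  cases m <;> cases kk <;> push_cast <;> simp <;> ring_nf <;> omega

theorem pZ_ge {D : CD} (hR : chkR D = true) (z l4 : ℕ) :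
    (D.off : ℤ) + z * (D.zn - D.zd * (if l4 = 3 then 1 else 0)) ≤ (pZ D z l4 : ℤ) := by
  unfold chkR at hR
  simp only [Bool.and_eq_true, Nat.ble_eq] at hR
  obtain ⟨-, -, hz⟩ := hR
  obtain ⟨y, hy'⟩ := Nat.exists_eq_add_of_le hz
  unfold pZ
  simp only [cb, Nat.add_eq, Nat.mul_eq, Nat.sub_eq]
  have e1 : D.zd - D.zn = y := by omega
  have hs : ∀ a b : ℕ, (a : ℤ) - b ≤ ((a - b : ℕ) : ℤ) := fun a b => by omega
  by_cases h : l4 = 3
  · rw [if_pos h, if_pos h]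
    refine le_trans ?_ (hs _ _)
    rw [e1, hy']; push_cast; apply le_of_eq; ring
  · rw [if_neg h, if_neg h]
    push_cast; apply le_of_eq; ring

section sumA
variable {D : CD} {l : Ω → ℕ} {c : Ω → Ω → ℕ}

/-- type of three roots -/
def tid (D : CD) (l0 l1 l2 k01 k02 k12 : ℕ) : ℕ := Nat.land (lk16 D.tr (tcd l0 l1 l2 k01 k02 k12)) 255

/-- relabelling of three roots -/
def tre (D : CD) (l0 l1 l2 k01 k02 k12 : ℕ) : ℕ := Nat.shiftRight (lk16 D.tr (tcd l0 l1 l2 k01 k02 k12)) 8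

theorem sumA (hH : Hyp D l c) (hR : chkR D = true) (hI : chkI D = true) (h3 : chk3 D = true)
    (x0 x1 x2 : Ω) :
    3 * (D.off : ℤ) * (Fintype.card Ω : ℤ) ^ 2 ≤
      ∑ x3, ∑ x4, (pA D (l x0) (l x1) (l x2) (l x3) (c x0 x1) (c x0 x2) (c x1 x2) (c x0 x3) (c x1 x3)
        (c x2 x3) (l x4) (c x0 x4) (c x1 x4) (c x2 x4) (c x3 x4) : ℤ) := by
  set t := tid D (l x0) (l x1) (l x2) (c x0 x1) (c x0 x2) (c x1 x2) with ht
  set q := tre D (l x0) (l x1) (l x2) (c x0 x1) (c x0 x2) (c x1 x2) with hq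
  by_cases h0 : t = 0
  · have : ∀ x3 x4, (pA D (l x0) (l x1) (l x2) (l x3) (c x0 x1) (c x0 x2) (c x1 x2) (c x0 x3) (c x1 x3)
        (c x2 x3) (l x4) (c x0 x4) (c x1 x4) (c x2 x4) (c x3 x4) : ℤ) = 3 * (D.off : ℤ) := by
      intro x3 x4
      have : pA D (l x0) (l x1) (l x2) (l x3) (c x0 x1) (c x0 x2) (c x1 x2) (c x0 x3) (c x1 x3)
        (c x2 x3) (l x4) (c x0 x4) (c x1 x4) (c x2 x4) (c x3 x4) = 3 * D.off := by
        change pA0 D t q _ _ _ _ _ _ _ _ _ = _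
        unfold pA0
        rw [cb, if_pos h0]; rfl
      rw [this]; push_cast; ring
    simp only [this, Finset.sum_const, Finset.card_univ, nsmul_eq_mul]
    apply le_of_eq; ring
  · have htN : t ≤ D.NT := by
      have h1 := hI
      unfold chkI at h1
      rw [Bool.and_eq_true] at h1
      have := G.allB_spec h1.1 (tcd_lt (hH.l4 x0) (hH.l4 x1) (hH.l4 x2) (hH.c2 x0 x1) (hH.c2 x0 x2) (hH.c2 x1 x2))
      exact Nat.le_of_ble_eq_true this
    obtain ⟨t', ht'⟩ : ∃ t', t = Nat.succ t' := Nat.exists_eq_succ_of_ne_zero h0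
    have ht'N : t' < D.NT := by omega
    have hT := G.allB_spec h3 ht'N
    set f : Ω → ℕ := fun x => fl3 (rb q (l x)) (c x0 x) (c x1 x) (c x2 x) with hf
    have hfl : ∀ x, f x < 32 := fun x => fl3_lt (rb_lt _ _) (hH.c2 _ _) (hH.c2 _ _) (hH.c2 _ _)
    have hpt : ∀ x3 x4, 3 * (D.off : ℤ) + gram (nth D.w3 t) D.o (nt3 D.c3 t) (f x3) (f x4) +
        lk D.mu t * ((D.yn : ℤ) - D.yd * mo l c x3 x4) + lk D.nu t * ((D.hd : ℤ) * c x3 x4 - D.hn) +
        lk D.zz (32 * t + f x3) * ((D.zn : ℤ) - D.zd * (if l x4 = 3 then 1 else 0)) ≤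
        (pA D (l x0) (l x1) (l x2) (l x3) (c x0 x1) (c x0 x2) (c x1 x2) (c x0 x3) (c x1 x3)
        (c x2 x3) (l x4) (c x0 x4) (c x1 x4) (c x2 x4) (c x3 x4) : ℤ) := by
      intro x3 x4
      have e : pA D (l x0) (l x1) (l x2) (l x3) (c x0 x1) (c x0 x2) (c x1 x2) (c x0 x3) (c x1 x3)
        (c x2 x3) (l x4) (c x0 x4) (c x1 x4) (c x2 x4) (c x3 x4) =
          lk (nt D.t3 t) (Nat.add (Nat.mul 32 (f x3)) (f x4)) +
          (pY D (lk D.mu t) (lk D.nu t) (mon (c x3 x4) (l x3) (l x4)) (Nat.beq (c x3 x4) 1) +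
            pZ D (lk D.zz (Nat.add (Nat.mul 32 t) (f x3))) (l x4)) := by
        change pA0 D t q _ _ _ _ _ _ _ _ _ = _
        unfold pA0
        rw [cb, if_neg h0]; rfl
      rw [e]
      push_cast
      have g1 : (lk (nt D.t3 t) (Nat.add (Nat.mul 32 (f x3)) (f x4)) : ℤ) =
          D.off + gram (nth D.w3 t) D.o (nt3 D.c3 t) (f x3) (f x4) := by
        rw [ht']
        exact chkT_spec hT (hfl x3) (hfl x4)
      have g2 := pY_ge hR (lk D.mu t) (lk D.nu t) (mon (c x3 x4) (l x3) (l x4)) (Nat.beq (c x3 x4) 1)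
      have g3 := pZ_ge hR (lk D.zz (Nat.add (Nat.mul 32 t) (f x3))) (l x4)
      have m1 : (if mon (c x3 x4) (l x3) (l x4) = true then (1 : ℤ) else 0) = mo l c x3 x4 := by
        unfold mo
        by_cases h : c x3 x4 = 1 ∧ l x3 = l x4 ∧ l x3 ≠ 3
        · rw [if_pos ((mon_iff _ _ _).2 h), if_pos h]
        · rw [if_neg (fun hh => h ((mon_iff _ _ _).1 hh)), if_neg h]
      have m2 : (if Nat.beq (c x3 x4) 1 = true then (1 : ℤ) else 0) = c x3 x4 := by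
        have h2 := hH.c2 x3 x4
        have h3' : c x3 x4 = 0 ∨ c x3 x4 = 1 := by omega
        rcases h3' with h3' | h3' <;> rw [h3'] <;> rfl
      rw [m1, m2] at g2
      rw [g1]
      simp only [Nat.add_eq, Nat.mul_eq] at g2 g3 ⊢
      linarith
    refine le_trans ?_ (Finset.sum_le_sum fun x3 _ => Finset.sum_le_sum fun x4 _ => hpt x3 x4)
    simp only [Finset.sum_add_distrib]
    have s1 : 0 ≤ ∑ x3, ∑ x4, gram (nth D.w3 t) D.o (nt3 D.c3 t) (f x3) (f x4) :=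
      gram_nonneg (univ : Finset Ω) f _ _ _
    have s2 : 0 ≤ ∑ x3, ∑ x4, (lk D.mu t : ℤ) * ((D.yn : ℤ) - D.yd * mo l c x3 x4) := by
      simp only [← Finset.mul_sum]
      refine mul_nonneg (Int.natCast_nonneg _) ?_
      simp only [Finset.sum_sub_distrib, Finset.sum_const, Finset.card_univ, nsmul_eq_mul, ← Finset.mul_sum]
      have := hH.hY
      nlinarith
    have s3 : 0 ≤ ∑ x3, ∑ x4, (lk D.nu t : ℤ) * ((D.hd : ℤ) * c x3 x4 - D.hn) := by
      simp only [← Finset.mul_sum]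
      refine mul_nonneg (Int.natCast_nonneg _) ?_
      simp only [Finset.sum_sub_distrib, Finset.sum_const, Finset.card_univ, nsmul_eq_mul, ← Finset.mul_sum]
      have := hH.hH
      nlinarith
    have s4 : 0 ≤ ∑ x3, ∑ x4, (lk D.zz (32 * t + f x3) : ℤ) * ((D.zn : ℤ) - D.zd * (if l x4 = 3 then 1 else 0)) := by
      simp only [← Finset.mul_sum]
      refine Finset.sum_nonneg fun x3 _ => mul_nonneg (Int.natCast_nonneg _) ?_
      simp only [Finset.sum_sub_distrib, Finset.sum_const, Finset.card_univ, nsmul_eq_mul, ← Finset.mul_sum]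
      have := hH.hZ
      nlinarith
    have s0 : ∑ _x3 : Ω, ∑ _x4 : Ω, 3 * (D.off : ℤ) = 3 * (D.off : ℤ) * (Fintype.card Ω : ℤ) ^ 2 := by
      simp only [Finset.sum_const, Finset.card_univ, nsmul_eq_mul]; ring
    linarith

end sumA

/-! ### One root -/

section sumB
variable {D : CD} {l : Ω → ℕ} {c : Ω → Ω → ℕ}

theorem chkB1_spec {off o n : ℕ} {rows W : List ℕ} {C : List (List ℕ)} (h : chkB1 off o n rows W C = true)
    {f g : ℕ} (hf : f < n) (hg : g < n) (hf0 : f ≠ 0) (hg0 : g ≠ 0) :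
    (lk (nt rows (Nat.shiftRight f 3)) (Nat.add (Nat.mul (Nat.land f 7) n) g) : ℤ) = off + gram W o C f g := by
  have h1 := G.allB_spec (G.allB_spec h hf) hg
  rw [cb, if_neg hf0, cb, if_neg hg0, Nat.beq_eq] at h1
  simp only [Nat.add_eq, Nat.mul_eq] at h1 ⊢
  rw [gram_eq]
  have h' : (lk (nt rows (Nat.shiftRight f 3)) (Nat.land f 7 * n + g) : ℤ) +
      o * (ws W (nth C f) + ws W (nth C g)) = off + o * o * wt W + wd W (nth C f) (nth C g) := by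
    exact_mod_cast h1
  linarith

theorem pB1_sum {off o n : ℕ} {rows W : List ℕ} {C : List (List ℕ)} (h : chkB1 off o n rows W C = true)
    (f : Ω → Ω → ℕ) (hf : ∀ x y, f x y < n) :
    (off : ℤ) * (Fintype.card Ω : ℤ) ^ 4 ≤
      ∑ x1, ∑ x2, ∑ x3, ∑ x4, (pB1 rows n off (f x1 x2) (f x3 x4) : ℤ) := by
  classical
  set S : Finset (Ω × Ω) := univ.filter (fun p => f p.1 p.2 ≠ 0) with hS
  have e1 : ∀ p q : Ω × Ω, (pB1 rows n off (f p.1 p.2) (f q.1 q.2) : ℤ) = off +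
      (if f p.1 p.2 ≠ 0 then (if f q.1 q.2 ≠ 0 then gram W o C (f p.1 p.2) (f q.1 q.2) else 0) else 0) := by
    intro p q
    unfold pB1
    rw [cb, cb]
    by_cases h1 : f p.1 p.2 = 0
    · rw [if_pos h1, if_neg (fun hh => hh h1)]; ring
    · rw [if_neg h1, if_pos h1]
      by_cases h2 : f q.1 q.2 = 0
      · rw [if_pos h2, if_neg (fun hh => hh h2)]; ring
      · rw [if_neg h2, if_pos h2]
        exact chkB1_spec h (hf _ _) (hf _ _) h1 h2
  have e2 : ∑ x1, ∑ x2, ∑ x3, ∑ x4, (pB1 rows n off (f x1 x2) (f x3 x4) : ℤ) =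
      ∑ p : Ω × Ω, ∑ q : Ω × Ω, (pB1 rows n off (f p.1 p.2) (f q.1 q.2) : ℤ) := by
    rw [Fintype.sum_prod_type]
    refine Finset.sum_congr rfl fun x1 _ => Finset.sum_congr rfl fun x2 _ => ?_
    rw [Fintype.sum_prod_type]
  rw [e2]
  simp only [e1, Finset.sum_add_distrib]
  have e3 : ∑ p : Ω × Ω, ∑ q : Ω × Ω, (if f p.1 p.2 ≠ 0 then
      (if f q.1 q.2 ≠ 0 then gram W o C (f p.1 p.2) (f q.1 q.2) else 0) else 0) =
      ∑ p ∈ S, ∑ q ∈ S, gram W o C (f p.1 p.2) (f q.1 q.2) := by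
    rw [hS, Finset.sum_filter]
    refine Finset.sum_congr rfl fun p _ => ?_
    by_cases h1 : f p.1 p.2 ≠ 0
    · simp only [if_pos h1]
      rw [Finset.sum_filter]
    · simp only [if_neg h1, Finset.sum_const_zero]
  rw [e3]
  have g := gram_nonneg S (fun p => f p.1 p.2) W o C
  simp only [Finset.sum_const, Finset.card_univ, nsmul_eq_mul, Fintype.card_prod]
  push_cast
  have : (Fintype.card Ω : ℤ) * (Fintype.card Ω : ℤ) * ((Fintype.card Ω : ℤ) * (Fintype.card Ω : ℤ) * (off : ℤ)) =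
    (off : ℤ) * (Fintype.card Ω : ℤ) ^ 4 := by ring
  linarith

theorem sumB (hH : Hyp D l c) (hI : chkI D = true)
    (hB : chkB1 D.off D.o D.n1 D.t1 D.w1 D.c1 = true)
    (hBz : chkB1 D.off D.o D.n1z D.t1z D.w1z D.c1z = true) (x0 : Ω) :
    (D.off : ℤ) * (Fintype.card Ω : ℤ) ^ 4 ≤
      ∑ x1, ∑ x2, ∑ x3, ∑ x4, (pB D (l x0) (l x1) (l x2) (l x3) (c x0 x1) (c x0 x2) (c x1 x2) (c x0 x3)
        (l x4) (c x0 x4) (c x3 x4) : ℤ) := by
  have h1 := hI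
  unfold chkI at h1
  rw [Bool.and_eq_true, Bool.and_eq_true] at h1
  obtain ⟨-, hi1, hi2⟩ := h1
  by_cases h : l x0 = 3
  · have := pB1_sum hBz (fun x y => lk8 D.f1z (fl1 (l x) (l y) (c x0 x) (c x0 y) (c x y))) (fun x y => by
      have := G.allB_spec hi2 (fl1_lt (hH.l4 x) (hH.l4 y) (hH.c2 x0 x) (hH.c2 x0 y) (hH.c2 x y))
      rw [Nat.blt_eq] at this
      exact this)
    unfold pB
    rw [h]
    exact this
  · have := pB1_sum hB (fun x y => lk8 D.f1 (fl1 (rb (rq (l x0)) (l x)) (rb (rq (l x0)) (l y)) (c x0 x) (c x0 y) (c x y)))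
      (fun x y => by
      have := G.allB_spec hi1 (fl1_lt (rb_lt (rq (l x0)) (l x)) (rb_lt (rq (l x0)) (l y)) (hH.c2 x0 x) (hH.c2 x0 y) (hH.c2 x y))
      rw [Nat.blt_eq] at this
      exact this)
    unfold pB
    simp only [cb, if_neg h]
    exact this

end sumB

/-! ### The objective -/

section sumO
variable {D : CD} {l : Ω → ℕ} {c : Ω → Ω → ℕ}

theorem pO_ge (hH : Hyp D l c) (x0 x1 : Ω) :
    (D.off : ℤ) + D.Q * (D.kp * mo l c x0 x1 - D.kq * mi l c x0 x1) ≤ (pO D (l x0) (l x1) (c x0 x1) : ℤ) := by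
  unfold pO mo mi
  simp only [cor, cb, Nat.add_eq, Nat.mul_eq, Nat.sub_eq]
  have hs : ∀ a b : ℕ, (a : ℤ) - b ≤ ((a - b : ℕ) : ℤ) := fun a b => by omega
  have hc := hH.c2 x0 x1
  by_cases h0 : l x0 = 3
  · simp [h0]
  · by_cases h1 : l x1 = 3
    · simp only [h1, if_true, if_neg h0]
      have : ¬ (l x0 = 3) := h0
      simp [this]
    · simp only [if_neg h0, if_neg h1]
      by_cases h2 : l x0 = l x1
      · simp only [h2, if_true]
        by_cases h3 : c x0 x1 = 1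
        · simp [h3, h1]; apply le_of_eq; ring
        · simp [h3]
      · simp only [if_neg h2]
        by_cases h3 : c x0 x1 = 1
        · simp [h3, h2]
        · have h4 : c x0 x1 = 0 := by omega
          simp only [h4, h2, h0, h1, if_neg, not_false_eq_true, ne_eq, and_true, if_true,
            show ¬ ((0 : ℕ) = 1) by norm_num, false_and]
          refine le_trans ?_ (hs _ _)
          push_cast; apply le_of_eq; ring

end sumO

/-! ### Main inequality -/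

theorem a4_of {a b c d e f : ℕ} (ha : a < 2) (hb : b < 2) (hc : c < 2) (hd : d < 2) (he : e < 2) (hf : f < 2)
    (h : ¬ (a = 1 ∧ b = 1 ∧ c = 1 ∧ d = 1 ∧ e = 1 ∧ f = 1)) : a4 a b c d e f = true := by
  unfold a4
  simp only [Nat.add_eq]
  have hne : a + (b + (c + (d + (e + f)))) ≠ 6 := by omega
  cases hb : Nat.beq (a + (b + (c + (d + (e + f))))) 6 with
  | false => rfl
  | true => exact absurd (Nat.eq_of_beq_eq_true hb) hne

theorem main {D : CD} {L : ℕ} (hL : L ≤ 4) {l : Ω → ℕ} {c : Ω → Ω → ℕ} (hl : ∀ x, l x < L) (hH : Hyp D l c)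
    (hR : chkR D = true) (hI : chkI D = true) (h3 : chk3 D = true) (hC : chkC D = true)
    (hB : chkB1 D.off D.o D.n1 D.t1 D.w1 D.c1 = true)
    (hBz : chkB1 D.off D.o D.n1z D.t1z D.w1z D.c1z = true) (hQ : 0 < D.Q)
    {CAP : ℕ} (hcap : CAP ≤ 840 * D.off)
    (hchk : G.chk L 2 adm4 adm (E D) CAP = true) :
    (D.kp : ℤ) * ∑ x, ∑ y, mo l c x y ≤ D.kq * ∑ x, ∑ y, mi l c x y := by
  have hs := G.sum_le l c hL (by norm_num) hl hH.c2 hH.symm (adm4 := adm4) (adm := adm)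
    (fun x => a4_of (hH.c2 _ _) (hH.c2 _ _) (hH.c2 _ _) (hH.c2 _ _) (hH.c2 _ _) (hH.c2 _ _) (hH.k4 _ _ _ _))
    (fun x => by
      unfold adm
      rw [a4_of (hH.c2 _ _) (hH.c2 _ _) (hH.c2 _ _) (hH.c2 _ _) (hH.c2 _ _) (hH.c2 _ _) (hH.k4 _ _ _ _),
        a4_of (hH.c2 _ _) (hH.c2 _ _) (hH.c2 _ _) (hH.c2 _ _) (hH.c2 _ _) (hH.c2 _ _) (hH.k4 (x 0) (x 1) (x 2) (x 4)),
        a4_of (hH.c2 _ _) (hH.c2 _ _) (hH.c2 _ _) (hH.c2 _ _) (hH.c2 _ _) (hH.c2 _ _) (hH.k4 (x 0) (x 1) (x 3) (x 4)),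
        a4_of (hH.c2 _ _) (hH.c2 _ _) (hH.c2 _ _) (hH.c2 _ _) (hH.c2 _ _) (hH.c2 _ _) (hH.k4 (x 0) (x 2) (x 3) (x 4)),
        a4_of (hH.c2 _ _) (hH.c2 _ _) (hH.c2 _ _) (hH.c2 _ _) (hH.c2 _ _) (hH.c2 _ _) (hH.k4 (x 1) (x 2) (x 3) (x 4))]
      rfl)
    hchk
  set N : ℤ := (Fintype.card Ω : ℤ) with hN
  set Y : ℤ := ∑ x, ∑ y, mo l c x y with hY
  set M : ℤ := ∑ x, ∑ y, mi l c x y with hM
  have hsum : ((∑ x0, ∑ x1, ∑ x2, ∑ x3, ∑ x4, E D (l x0) (l x1) (l x2) (l x3) (c x0 x1) (c x0 x2) (c x1 x2)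
      (c x0 x3) (c x1 x3) (c x2 x3) (l x4) (c x0 x4) (c x1 x4) (c x2 x4) (c x3 x4) : ℕ) : ℤ) =
      (∑ x0, ∑ x1, ∑ x2, ∑ x3, ∑ x4, (pA D (l x0) (l x1) (l x2) (l x3) (c x0 x1) (c x0 x2) (c x1 x2) (c x0 x3) (c x1 x3)
        (c x2 x3) (l x4) (c x0 x4) (c x1 x4) (c x2 x4) (c x3 x4) : ℤ)) +
      (∑ x0, ∑ x1, ∑ x2, ∑ x3, ∑ x4, (pB D (l x0) (l x1) (l x2) (l x3) (c x0 x1) (c x0 x2) (c x1 x2) (c x0 x3)
        (l x4) (c x0 x4) (c x3 x4) : ℤ)) +
      ((∑ x0, ∑ x1, ∑ x2, ∑ x3, ∑ x4, (pC D (l x0) (l x1) (l x2) (l x3) (c x0 x1) (c x0 x2) (c x1 x2) (c x0 x3) (c x1 x3)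
        (c x2 x3) (l x4) (c x0 x4) : ℤ)) +
      (∑ x0, ∑ x1, ∑ _x2 : Ω, ∑ _x3 : Ω, ∑ _x4 : Ω, (pO D (l x0) (l x1) (c x0 x1) : ℤ))) := by
    push_cast
    simp only [E, Nat.add_eq]
    push_cast
    simp only [Finset.sum_add_distrib]
  have hA : 3 * (D.off : ℤ) * N ^ 5 ≤ (∑ x0, ∑ x1, ∑ x2, ∑ x3, ∑ x4, (pA D (l x0) (l x1) (l x2) (l x3) (c x0 x1) (c x0 x2) (c x1 x2) (c x0 x3) (c x1 x3)
        (c x2 x3) (l x4) (c x0 x4) (c x1 x4) (c x2 x4) (c x3 x4) : ℤ)) := by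
    refine le_trans ?_ (Finset.sum_le_sum fun x0 _ => Finset.sum_le_sum fun x1 _ =>
      Finset.sum_le_sum fun x2 _ => sumA hH hR hI h3 x0 x1 x2)
    simp only [Finset.sum_const, Finset.card_univ, nsmul_eq_mul]
    apply le_of_eq; ring
  have hB' : (D.off : ℤ) * N ^ 5 ≤ (∑ x0, ∑ x1, ∑ x2, ∑ x3, ∑ x4, (pB D (l x0) (l x1) (l x2) (l x3) (c x0 x1) (c x0 x2) (c x1 x2) (c x0 x3)
        (l x4) (c x0 x4) (c x3 x4) : ℤ)) := by
    refine le_trans ?_ (Finset.sum_le_sum fun x0 _ => sumB hH hI hB hBz x0)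
    simp only [Finset.sum_const, Finset.card_univ, nsmul_eq_mul]
    apply le_of_eq; ring
  have hC' : 2 * (D.off : ℤ) * N ^ 5 ≤ (∑ x0, ∑ x1, ∑ x2, ∑ x3, ∑ x4, (pC D (l x0) (l x1) (l x2) (l x3) (c x0 x1) (c x0 x2) (c x1 x2) (c x0 x3) (c x1 x3)
        (c x2 x3) (l x4) (c x0 x4) : ℤ)) := by
    refine le_trans ?_ (Finset.sum_le_sum fun x0 _ => Finset.sum_le_sum fun x1 _ => sumC hH hC x0 x1)
    simp only [Finset.sum_const, Finset.card_univ, nsmul_eq_mul]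
    apply le_of_eq; ring
  have hO : (D.off : ℤ) * N ^ 5 + N ^ 3 * (D.Q * (D.kp * Y - D.kq * M)) ≤
      (∑ x0, ∑ x1, ∑ _x2 : Ω, ∑ _x3 : Ω, ∑ _x4 : Ω, (pO D (l x0) (l x1) (c x0 x1) : ℤ)) := by
    refine le_trans ?_ (Finset.sum_le_sum fun x0 _ => Finset.sum_le_sum fun x1 _ =>
      Finset.sum_le_sum fun _ _ => Finset.sum_le_sum fun _ _ => Finset.sum_le_sum fun _ _ => pO_ge hH x0 x1)
    simp only [Finset.sum_const, Finset.card_univ, nsmul_eq_mul, Finset.sum_add_distrib, mul_add,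
      ← Finset.mul_sum, mul_sub, Finset.sum_sub_distrib]
    rw [← hN, ← hY, ← hM]
    apply le_of_eq; ring
  have hs' : 120 * (((∑ x0, ∑ x1, ∑ x2, ∑ x3, ∑ x4, E D (l x0) (l x1) (l x2) (l x3) (c x0 x1) (c x0 x2) (c x1 x2)
      (c x0 x3) (c x1 x3) (c x2 x3) (l x4) (c x0 x4) (c x1 x4) (c x2 x4) (c x3 x4) : ℕ) : ℤ)) ≤ (CAP : ℤ) * N ^ 5 := by
    rw [hN]
    exact_mod_cast hs
  rw [hsum] at hs'
  have hN0 : 0 ≤ N := Int.natCast_nonneg _
  have hcap' : (CAP : ℤ) ≤ 840 * D.off := by exact_mod_cast hcap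
  have hc2 : (CAP : ℤ) * N ^ 5 ≤ 840 * D.off * N ^ 5 := mul_le_mul_of_nonneg_right hcap' (pow_nonneg hN0 5)
  have hfin : N ^ 3 * (D.Q * (D.kp * Y - D.kq * M)) ≤ 0 := by linarith
  rcases hN0.eq_or_lt with h0 | hpos
  · have : IsEmpty Ω := by
      rw [← Fintype.card_eq_zero_iff]
      have : (Fintype.card Ω : ℤ) = 0 := by rw [← hN]; exact h0.symm
      exact_mod_cast this
    have y0 : Y = 0 := by rw [hY]; simp
    have m0 : M = 0 := by rw [hM]; simp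
    rw [y0, m0]; simp
  · have h1 : D.Q * ((D.kp : ℤ) * Y - D.kq * M) ≤ 0 := by
      by_contra hcon
      push Not at hcon
      have := mul_pos (pow_pos hpos 3) hcon
      linarith
    have hQ' : (0 : ℤ) < D.Q := by exact_mod_cast hQ
    have h2 : (D.kp : ℤ) * Y - D.kq * M ≤ 0 := by
      by_contra hcon
      push Not at hcon
      have := mul_pos hQ' hcon
      linarith
    linarith

end

end Pool.Agent.C44.K4
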