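import Pool.Agent.C44.K4Z10

set_option maxRecDepth 100000

namespace Pool.Agent.C44.K4Z10

theorem p002 : G.chkPart 4 2 K4.adm4 K4.adm (K4.E D) 59109745109237760 0 0 2 = true := by decide +kernel
theorem p020 : G.chkPart 4 2 K4.adm4 K4.adm (K4.E D) 59109745109237760 0 2 0 = true := by decide +kernel
theorem p031 : G.chkPart 4 2 K4.adm4 K4.adm (K4.E D) 59109745109237760 0 3 1 = true := by decide +kernel
theorem p122 : G.chkPart 4 2 K4.adm4 K4.adm (K4.E D) 59109745109237760 1 2 2 = true := by decide +kernel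
theorem p130 : G.chkPart 4 2 K4.adm4 K4.adm (K4.E D) 59109745109237760 1 3 0 = true := by decide +kernel
theorem p202 : G.chkPart 4 2 K4.adm4 K4.adm (K4.E D) 59109745109237760 2 0 2 = true := by decide +kernel
theorem p211 : G.chkPart 4 2 K4.adm4 K4.adm (K4.E D) 59109745109237760 2 1 1 = true := by decide +kernel
theorem p300 : G.chkPart 4 2 K4.adm4 K4.adm (K4.E D) 59109745109237760 3 0 0 = true := by decide +kernel
theorem p321 : G.chkPart 4 2 K4.adm4 K4.adm (K4.E D) 59109745109237760 3 2 1 = true := by decide +kernel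
theorem p322 : G.chkPart 4 2 K4.adm4 K4.adm (K4.E D) 59109745109237760 3 2 2 = true := by decide +kernel
theorem p323 : G.chkPart 4 2 K4.adm4 K4.adm (K4.E D) 59109745109237760 3 2 3 = true := by decide +kernel

end Pool.Agent.C44.K4Z10
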