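import Pool.Agent.C44.K4Z10

set_option maxRecDepth 100000

namespace Pool.Agent.C44.K4Z10

theorem p000 : G.chkPart 4 2 K4.adm4 K4.adm (K4.E D) 59109745109237760 0 0 0 = true := by decide +kernel
theorem p223 : G.chkPart 4 2 K4.adm4 K4.adm (K4.E D) 59109745109237760 2 2 3 = true := by decide +kernel

end Pool.Agent.C44.K4Z10
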