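import Pool.Agent.C44.K4Z23

set_option maxRecDepth 100000

namespace Pool.Agent.C44.K4Z23

theorem p010 : G.chkPart 4 2 K4.adm4 K4.adm (K4.E D) 59109745109237760 0 1 0 = true := by decide +kernel
theorem p021 : G.chkPart 4 2 K4.adm4 K4.adm (K4.E D) 59109745109237760 0 2 1 = true := by decide +kernel
theorem p111 : G.chkPart 4 2 K4.adm4 K4.adm (K4.E D) 59109745109237760 1 1 1 = true := by decide +kernel
theorem p113 : G.chkPart 4 2 K4.adm4 K4.adm (K4.E D) 59109745109237760 1 1 3 = true := by decide +kernel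
theorem p120 : G.chkPart 4 2 K4.adm4 K4.adm (K4.E D) 59109745109237760 1 2 0 = true := by decide +kernel
theorem p132 : G.chkPart 4 2 K4.adm4 K4.adm (K4.E D) 59109745109237760 1 3 2 = true := by decide +kernel
theorem p201 : G.chkPart 4 2 K4.adm4 K4.adm (K4.E D) 59109745109237760 2 0 1 = true := by decide +kernel
theorem p230 : G.chkPart 4 2 K4.adm4 K4.adm (K4.E D) 59109745109237760 2 3 0 = true := by decide +kernel
theorem p311 : G.chkPart 4 2 K4.adm4 K4.adm (K4.E D) 59109745109237760 3 1 1 = true := by decide +kernel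
theorem p312 : G.chkPart 4 2 K4.adm4 K4.adm (K4.E D) 59109745109237760 3 1 2 = true := by decide +kernel
theorem p313 : G.chkPart 4 2 K4.adm4 K4.adm (K4.E D) 59109745109237760 3 1 3 = true := by decide +kernel

end Pool.Agent.C44.K4Z23
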