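import Pool.Agent.C44.K4Z26

set_option maxRecDepth 100000

namespace Pool.Agent.C44.K4Z26

theorem p012 : G.chkPart 4 2 K4.adm4 K4.adm (K4.E D) 59109745109237760 0 1 2 = true := by decide +kernel
theorem p030 : G.chkPart 4 2 K4.adm4 K4.adm (K4.E D) 59109745109237760 0 3 0 = true := by decide +kernel
theorem p101 : G.chkPart 4 2 K4.adm4 K4.adm (K4.E D) 59109745109237760 1 0 1 = true := by decide +kernel
theorem p200 : G.chkPart 4 2 K4.adm4 K4.adm (K4.E D) 59109745109237760 2 0 0 = true := by decide +kernel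
theorem p212 : G.chkPart 4 2 K4.adm4 K4.adm (K4.E D) 59109745109237760 2 1 2 = true := by decide +kernel
theorem p221 : G.chkPart 4 2 K4.adm4 K4.adm (K4.E D) 59109745109237760 2 2 1 = true := by decide +kernel
theorem p222 : G.chkPart 4 2 K4.adm4 K4.adm (K4.E D) 59109745109237760 2 2 2 = true := by decide +kernel
theorem p310 : G.chkPart 4 2 K4.adm4 K4.adm (K4.E D) 59109745109237760 3 1 0 = true := by decide +kernel
theorem p331 : G.chkPart 4 2 K4.adm4 K4.adm (K4.E D) 59109745109237760 3 3 1 = true := by decide +kernel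
theorem p332 : G.chkPart 4 2 K4.adm4 K4.adm (K4.E D) 59109745109237760 3 3 2 = true := by decide +kernel

end Pool.Agent.C44.K4Z26
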