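import Mathlib

/-!
Lower bound half of S09431: the construction A1, A2, B, C gives a 4-graph without expanded 4-clique
and with at least (9/14 - eps) C(n,4) edges.
-/

set_option autoImplicit false

open Finset

namespace Pool.Agent.C44

/-- number of vertices of `e` of the second kind (`D = B u C`) -/
def sg (A v : ℕ) : ℕ := if v < A then 0 else 1

/-- edge condition for a 4-set -/
def Edge (A : ℕ) {n : ℕ} (e : Finset (Fin n)) : Prop :=
  e.card = 4 ∧ ((∑ v ∈ e, sg A v) % 2 = 1 ∨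
    (((∑ v ∈ e, sg A v) = 0 ∨ (∑ v ∈ e, sg A v) = 4) ∧ (∑ v ∈ e, (v : ℕ) % 2) % 2 = 1))

open Classical in
/-- the 4-graph -/
noncomputable def HG (A n : ℕ) : Finset (Finset (Fin n)) := univ.filter (fun e => Edge A e)

lemma fin_key : ∀ p : Fin 4 → Fin 3, ∀ q : Fin 4 → Fin 3,
    ¬ ∀ i j : Fin 4, i ≠ j → (((p i : ℕ) + (p j : ℕ)) % 2 = 1 ∨
      ((((p i : ℕ) + (p j : ℕ)) = 0 ∨ ((p i : ℕ) + (p j : ℕ)) = 4) ∧ ((q i : ℕ) + (q j : ℕ)) % 2 = 1)) := by
  decide +kernel

lemma sum_four {n : ℕ} (w : Fin n → ℕ) {a b c d : Fin n} (hab : a ≠ b) (hac : a ≠ c) (had : a ≠ d)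
    (hbc : b ≠ c) (hbd : b ≠ d) (hcd : c ≠ d) :
    ∑ v ∈ ({a, b, c, d} : Finset (Fin n)), w v = w a + w b + (w c + w d) := by
  rw [Finset.sum_insert (by simp [hab, hac, had]), Finset.sum_insert (by simp [hbc, hbd]),
    Finset.sum_insert (by simp [hcd]), Finset.sum_singleton]
  ring

lemma HG_free (A n : ℕ) : ¬ ∃ f : Fin 4 × Fin 2 → Fin n, Function.Injective f ∧
    ∀ i j : Fin 4, i ≠ j →
      ({f (i, 0), f (i, 1), f (j, 0), f (j, 1)} : Finset (Fin n)) ∈ HG A n := by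
  rintro ⟨f, hf, hH⟩
  have hs : ∀ v : ℕ, sg A v ≤ 1 := by intro v; unfold sg; split_ifs <;> omega
  have h2 : ∀ v : ℕ, v % 2 ≤ 1 := by intro v; omega
  let p : Fin 4 → Fin 3 := fun i => ⟨sg A (f (i, 0)) + sg A (f (i, 1)), by
    have := hs (f (i, 0)); have := hs (f (i, 1)); omega⟩
  let q : Fin 4 → Fin 3 := fun i => ⟨(f (i, 0) : ℕ) % 2 + (f (i, 1) : ℕ) % 2, by omega⟩
  refine fin_key p q ?_
  intro i j hij
  have h := hH i j hij
  have ne : ∀ x y : Fin 4 × Fin 2, x ≠ y → f x ≠ f y := fun x y hxy h => hxy (hf h)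
  simp only [HG, Finset.mem_filter, Finset.mem_univ, true_and, Edge] at h
  rw [sum_four (fun v : Fin n => sg A v) (ne _ _ (by simp)) (ne _ _ (by simp [hij])) (ne _ _ (by simp [hij]))
      (ne _ _ (by simp [hij])) (ne _ _ (by simp [hij])) (ne _ _ (by simp)),
    sum_four (fun v : Fin n => (v : ℕ) % 2) (ne _ _ (by simp)) (ne _ _ (by simp [hij])) (ne _ _ (by simp [hij]))
      (ne _ _ (by simp [hij])) (ne _ _ (by simp [hij])) (ne _ _ (by simp))] at h
  exact h.2

/-- tuples with the pattern -/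
def Pat (A : ℕ) {n : ℕ} (x : Fin 4 → Fin n) : Prop :=
  (∑ i, sg A (x i)) % 2 = 1 ∨
    (((∑ i, sg A (x i)) = 0 ∨ (∑ i, sg A (x i)) = 4) ∧ (∑ i, ((x i : ℕ) % 2)) % 2 = 1)

open Classical in
lemma fiber_le {n : ℕ} (e : Finset (Fin n)) (he : e.card = 4) :
    (univ.filter (fun x : Fin 4 → Fin n => Function.Injective x ∧ Finset.image x univ = e)).card ≤ 24 := by
  have h1 : Fintype.card (Fin 4 ↪ e) = 24 := by
    rw [Fintype.card_embedding_eq]
    simp [he, Nat.descFactorial]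
  rw [← h1, ← Finset.card_univ]
  refine Finset.card_le_card_of_surjOn (s := (univ : Finset (Fin 4 ↪ e))) (fun g i => ((g i : e) : Fin n)) ?_
  intro x hx
  simp only [Finset.coe_filter, Finset.mem_univ, true_and, Set.mem_ofPred_eq] at hx
  obtain ⟨hinj, him⟩ := hx
  refine ⟨⟨fun i => ⟨x i, ?_⟩, ?_⟩, by simp, ?_⟩
  · rw [← him]; exact Finset.mem_image_of_mem _ (Finset.mem_univ _)
  · intro i j hij
    simp only [Subtype.mk.injEq] at hij
    exact hinj hij
  · rfl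

open Classical in
lemma count_HG (A n : ℕ) :
    (univ.filter (fun x : Fin 4 → Fin n => Function.Injective x ∧ Pat A x)).card ≤ 24 * (HG A n).card := by
  set S := univ.filter (fun x : Fin 4 → Fin n => Function.Injective x ∧ Pat A x) with hS
  have h1 := Finset.card_le_mul_card_image (f := fun x : Fin 4 → Fin n => Finset.image x univ) S 24
    (by
      intro e he
      obtain ⟨x, hx, rfl⟩ := Finset.mem_image.1 he
      rw [hS, Finset.mem_filter] at hx
      refine le_trans (Finset.card_le_card ?_) (fiber_le (Finset.image x univ) ?_)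
      · intro y hy
        rw [Finset.mem_filter, hS, Finset.mem_filter] at hy
        rw [Finset.mem_filter]
        exact ⟨Finset.mem_univ _, hy.1.2.1, hy.2⟩
      · rw [Finset.card_image_of_injective _ hx.2.1]; simp)
  refine le_trans h1 (Nat.mul_le_mul_left _ (Finset.card_le_card ?_))
  intro e he
  obtain ⟨x, hx, rfl⟩ := Finset.mem_image.1 he
  rw [hS, Finset.mem_filter] at hx
  obtain ⟨-, hinj, hp⟩ := hx
  rw [HG, Finset.mem_filter]
  refine ⟨Finset.mem_univ _, ?_, ?_⟩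
  · rw [Finset.card_image_of_injective _ hinj]; simp
  · rw [Finset.sum_image (fun a _ b _ h => hinj h), Finset.sum_image (fun a _ b _ h => hinj h)]
    exact hp

/-- indicator of the pattern by characters -/
lemma pat_indicator (A : ℕ) {n : ℕ} (x : Fin 4 → Fin n) :
    ((1 : ℝ) - ∏ i, (if (x i : ℕ) < A then (1 : ℝ) else -1)) / 2
      + ((∏ i, (if (x i : ℕ) < A then (1 : ℝ) else 0))
          - ∏ i, (if (x i : ℕ) < A then (-1 : ℝ) ^ (x i : ℕ) else 0)) / 2
      + ((∏ i, (if (x i : ℕ) < A then (0 : ℝ) else 1))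
          - ∏ i, (if (x i : ℕ) < A then 0 else (-1 : ℝ) ^ (x i : ℕ))) / 2
      = (@ite ℝ (Pat A x) (Classical.propDecidable _) 1 0) := by
  have key : ∀ v : ℕ, ((-1 : ℝ) ^ v = 1 ∧ v % 2 = 0) ∨ ((-1 : ℝ) ^ v = -1 ∧ v % 2 = 1) := by
    intro v
    rcases Nat.even_or_odd v with h | h
    · left; exact ⟨h.neg_one_pow, Nat.even_iff.1 h⟩
    · right; exact ⟨h.neg_one_pow, Nat.odd_iff.1 h⟩
  simp only [Fin.prod_univ_four, Pat, Fin.sum_univ_four, sg]
  generalize (x 0 : ℕ) = a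
  generalize (x 1 : ℕ) = b
  generalize (x 2 : ℕ) = c
  generalize (x 3 : ℕ) = d
  by_cases ha : a < A <;> by_cases hb : b < A <;> by_cases hc : c < A <;> by_cases hd : d < A <;>
    rcases key a with ⟨h1, h1'⟩ | ⟨h1, h1'⟩ <;> rcases key b with ⟨h2, h2'⟩ | ⟨h2, h2'⟩ <;>
    rcases key c with ⟨h3, h3'⟩ | ⟨h3, h3'⟩ <;> rcases key d with ⟨h4, h4'⟩ | ⟨h4, h4'⟩ <;>
    simp [ha, hb, hc, hd, h1, h2, h3, h4, h1', h2', h3', h4']

end Pool.Agent.C44
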