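import Pool.Agent.C44.Lower

set_option autoImplicit false

open Finset

namespace Pool.Agent.C44

lemma geom_abs (m : ℕ) : |∑ i ∈ range m, (-1 : ℝ) ^ i| ≤ 1 := by
  rw [neg_one_geom_sum]
  split_ifs <;> simp

lemma sum_split (A B : ℕ) (g : ℕ → ℝ) (h : ℕ → ℝ) :
    ∑ v : Fin (A + B), (if (v : ℕ) < A then g v else h v)
      = ∑ i ∈ range A, g i + ∑ i ∈ range B, h (A + i) := by
  rw [Fin.sum_univ_eq_sum_range (fun i => if i < A then g i else h i) (A + B), Finset.sum_range_add]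
  congr 1
  · refine Finset.sum_congr rfl ?_
    intro i hi
    rw [if_pos (Finset.mem_range.1 hi)]
  · refine Finset.sum_congr rfl ?_
    intro i _
    rw [if_neg (by omega)]

open Classical in
/-- number of tuples with the pattern -/
lemma pat_count (A B : ℕ) : ∃ r : ℝ, |r| ≤ 1 ∧
    ((univ.filter (fun x : Fin 4 → Fin (A + B) => Pat A x)).card : ℝ)
      = (((A + B : ℝ)) ^ 4 - ((A : ℝ) - B) ^ 4) / 2 + ((A : ℝ) ^ 4 + (B : ℝ) ^ 4) / 2 - r := by
  have h0 : ((univ.filter (fun x : Fin 4 → Fin (A + B) => Pat A x)).card : ℝ)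
      = ∑ x : Fin 4 → Fin (A + B), (if Pat A x then (1 : ℝ) else 0) := by
    rw [Finset.sum_boole]
  set u : ℝ := ∑ i ∈ range A, (-1 : ℝ) ^ i with hu
  set w : ℝ := ∑ i ∈ range B, (-1 : ℝ) ^ (A + i) with hw
  have hu1 : |u| ≤ 1 := geom_abs A
  have hw1 : |w| ≤ 1 := by
    have : w = (-1 : ℝ) ^ A * ∑ i ∈ range B, (-1 : ℝ) ^ i := by
      rw [hw, Finset.mul_sum]
      exact Finset.sum_congr rfl (fun i _ => by rw [pow_add])
    rw [this, abs_mul, abs_pow, abs_neg, abs_one, one_pow, one_mul]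
    exact geom_abs B
  refine ⟨(u ^ 4 + w ^ 4) / 2, ?_, ?_⟩
  · have h4 : ∀ t : ℝ, |t| ≤ 1 → 0 ≤ t ^ 4 ∧ t ^ 4 ≤ 1 := by
      intro t ht
      constructor
      · positivity
      · have : t ^ 4 = |t| ^ 4 := by rw [← abs_pow, abs_of_nonneg (by positivity : (0 : ℝ) ≤ t ^ 4)]
        rw [this]
        exact pow_le_one₀ (abs_nonneg _) ht
    have := h4 u hu1
    have := h4 w hw1
    rw [abs_le]
    constructor <;> linarith
  · rw [h0]
    have h1 : ∀ x : Fin 4 → Fin (A + B), (if Pat A x then (1 : ℝ) else 0)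
        = ((1 : ℝ) - ∏ i, (if (x i : ℕ) < A then (1 : ℝ) else -1)) / 2
      + ((∏ i, (if (x i : ℕ) < A then (1 : ℝ) else 0))
          - ∏ i, (if (x i : ℕ) < A then (-1 : ℝ) ^ (x i : ℕ) else 0)) / 2
      + ((∏ i, (if (x i : ℕ) < A then (0 : ℝ) else 1))
          - ∏ i, (if (x i : ℕ) < A then 0 else (-1 : ℝ) ^ (x i : ℕ))) / 2 := by
      intro x
      rw [pat_indicator A x]
    rw [Finset.sum_congr rfl (fun x _ => h1 x)]
    rw [Finset.sum_add_distrib, Finset.sum_add_distrib, ← Finset.sum_div, ← Finset.sum_div, ← Finset.sum_div,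
      Finset.sum_sub_distrib, Finset.sum_sub_distrib, Finset.sum_sub_distrib]
    rw [← Fintype.sum_pow (fun v : Fin (A + B) => (if (v : ℕ) < A then (1 : ℝ) else -1)) 4,
      ← Fintype.sum_pow (fun v : Fin (A + B) => (if (v : ℕ) < A then (1 : ℝ) else 0)) 4,
      ← Fintype.sum_pow (fun v : Fin (A + B) => (if (v : ℕ) < A then (-1 : ℝ) ^ (v : ℕ) else 0)) 4,
      ← Fintype.sum_pow (fun v : Fin (A + B) => (if (v : ℕ) < A then (0 : ℝ) else 1)) 4,
      ← Fintype.sum_pow (fun v : Fin (A + B) => (if (v : ℕ) < A then 0 else (-1 : ℝ) ^ (v : ℕ))) 4]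
    rw [sum_split A B (fun _ => 1) (fun _ => -1), sum_split A B (fun _ => 1) (fun _ => 0),
      sum_split A B (fun v => (-1 : ℝ) ^ v) (fun _ => 0), sum_split A B (fun _ => 0) (fun _ => 1),
      sum_split A B (fun _ => 0) (fun v => (-1 : ℝ) ^ v)]
    simp only [Finset.sum_const, Finset.card_range, nsmul_eq_mul, mul_one, mul_zero, add_zero, zero_add,
      mul_neg, Finset.card_univ, Fintype.card_pi, Fintype.card_fin, Finset.prod_const,
      Nat.cast_pow, Nat.cast_add]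
    rw [← hu, ← hw]
    ring

open Classical in
lemma noninj_count (n : ℕ) :
    ((univ.filter (fun x : Fin 4 → Fin n => ¬ Function.Injective x)).card : ℝ) ≤ 6 * (n : ℝ) ^ 3 := by
  have h1 : (univ.filter (fun x : Fin 4 → Fin n => Function.Injective x)).card = n.descFactorial 4 := by
    have h := Fintype.card_congr (Equiv.subtypeInjectiveEquivEmbedding (Fin 4) (Fin n))
    rw [Fintype.card_embedding_eq] at h
    simp only [Fintype.card_fin] at h
    rw [← h, Fintype.card_subtype]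
  have h2 : (univ.filter (fun x : Fin 4 → Fin n => Function.Injective x)).card
      + (univ.filter (fun x : Fin 4 → Fin n => ¬ Function.Injective x)).card = n ^ 4 := by
    rw [Finset.card_filter_add_card_filter_not]
    simp
  have h3 : (n : ℝ) ^ 4 - 6 * (n : ℝ) ^ 3 ≤ (n.descFactorial 4 : ℝ) := by
    rcases Nat.lt_or_ge n 3 with h | h
    · interval_cases n <;> norm_num
    · obtain ⟨m, rfl⟩ := Nat.exists_eq_add_of_le h
      have : (3 + m).descFactorial 4 = (3 + m) * (2 + m) * (1 + m) * m := by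
        simp only [Nat.descFactorial_succ, Nat.descFactorial_zero]
        have e1 : 3 + m - 3 = m := by omega
        have e2 : 3 + m - 2 = 1 + m := by omega
        have e3 : 3 + m - 1 = 2 + m := by omega
        have e4 : 3 + m - 0 = 3 + m := by omega
        rw [e1, e2, e3, e4]; ring
      rw [this]
      push_cast
      have hm : (0 : ℝ) ≤ m := Nat.cast_nonneg m
      nlinarith [mul_nonneg hm hm, hm]
  have h4 : ((univ.filter (fun x : Fin 4 → Fin n => Function.Injective x)).card : ℝ)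
      + ((univ.filter (fun x : Fin 4 → Fin n => ¬ Function.Injective x)).card : ℝ) = (n : ℝ) ^ 4 := by
    exact_mod_cast h2
  rw [h1] at h4
  linarith

open Classical in
lemma HG_large (A B : ℕ) :
    ((9 : ℝ) / 14 * ((A : ℝ) + B) ^ 4
      - 7 / 4 * ((A : ℝ) ^ 2 + (B : ℝ) ^ 2 - 5 / 7 * ((A : ℝ) + B) ^ 2) ^ 2 - 1 - 6 * ((A : ℝ) + B) ^ 3)
      ≤ 24 * ((HG A (A + B)).card : ℝ) := by
  obtain ⟨r, hr, hc⟩ := pat_count A B
  have h1 : (univ.filter (fun x : Fin 4 → Fin (A + B) => Pat A x)).card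
      ≤ (univ.filter (fun x : Fin 4 → Fin (A + B) => Function.Injective x ∧ Pat A x)).card
        + (univ.filter (fun x : Fin 4 → Fin (A + B) => ¬ Function.Injective x)).card := by
    rw [← Finset.card_filter_add_card_filter_not (s := univ.filter (fun x : Fin 4 → Fin (A + B) => Pat A x))
      (fun x => Function.Injective x)]
    refine Nat.add_le_add (Finset.card_le_card ?_) (Finset.card_le_card ?_)
    · intro x hx; simp only [Finset.mem_filter, Finset.mem_univ, true_and] at hx ⊢; exact ⟨hx.2, hx.1⟩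
    · intro x hx; simp only [Finset.mem_filter, Finset.mem_univ, true_and] at hx ⊢; exact hx.2
  have h2 := count_HG A (A + B)
  have h3 := noninj_count (A + B)
  have h4 : ((univ.filter (fun x : Fin 4 → Fin (A + B) => Pat A x)).card : ℝ)
      ≤ ((univ.filter (fun x : Fin 4 → Fin (A + B) => Function.Injective x ∧ Pat A x)).card : ℝ)
        + ((univ.filter (fun x : Fin 4 → Fin (A + B) => ¬ Function.Injective x)).card : ℝ) := by
    exact_mod_cast h1
  have h5 : ((univ.filter (fun x : Fin 4 → Fin (A + B) => Function.Injective x ∧ Pat A x)).card : ℝ)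
      ≤ 24 * ((HG A (A + B)).card : ℝ) := by exact_mod_cast h2
  have h6 : (((A + B : ℝ)) ^ 4 - ((A : ℝ) - B) ^ 4) / 2 + ((A : ℝ) ^ 4 + (B : ℝ) ^ 4) / 2
      = (9 : ℝ) / 14 * ((A : ℝ) + B) ^ 4
      - 7 / 4 * ((A : ℝ) ^ 2 + (B : ℝ) ^ 2 - 5 / 7 * ((A : ℝ) + B) ^ 2) ^ 2 := by ring
  rw [h6] at hc
  have := (abs_le.1 hr).2
  push_cast at h3
  linarith

/-- **Lower bound** for the Turan density of the expanded 4-clique. -/
theorem lower (ε : ℝ) (hε : 0 < ε) : ∃ N : ℕ, ∀ n : ℕ, N ≤ n →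
    ∃ H : Finset (Finset (Fin n)), (∀ e ∈ H, e.card = 4) ∧
        (¬ ∃ f : Fin 4 × Fin 2 → Fin n, Function.Injective f ∧
            ∀ i j : Fin 4, i ≠ j →
              ({f (i, 0), f (i, 1), f (j, 0), f (j, 1)} : Finset (Fin n)) ∈ H) ∧
        (9 / 14 - ε) * ((n.choose 4 : ℕ) : ℝ) ≤ (H.card : ℝ) := by
  refine ⟨⌈35 / ε⌉₊ + 1, ?_⟩
  intro n hn
  set α : ℝ := (7 - Real.sqrt 21) / 14 with hα
  have hs : Real.sqrt 21 ^ 2 = 21 := Real.sq_sqrt (by norm_num)
  have hs0 : 0 ≤ Real.sqrt 21 := Real.sqrt_nonneg _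
  have hs7 : Real.sqrt 21 ≤ 7 := by
    rw [show (7 : ℝ) = Real.sqrt 49 by rw [show (49 : ℝ) = 7 ^ 2 by norm_num, Real.sqrt_sq (by norm_num)]]
    exact Real.sqrt_le_sqrt (by norm_num)
  have hα0 : 0 ≤ α := by rw [hα]; linarith
  have hα1 : α ≤ 1 / 2 := by rw [hα]; linarith
  have hαq : α ^ 2 + (1 - α) ^ 2 = 5 / 7 := by
    rw [hα]; ring_nf; rw [hs]; norm_num
  set A : ℕ := ⌊α * n⌋₊ with hA
  have hn0 : (0 : ℝ) ≤ n := Nat.cast_nonneg n
  have hA1 : (A : ℝ) ≤ α * n := Nat.floor_le (mul_nonneg hα0 hn0)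
  have hA2 : α * n < A + 1 := Nat.lt_floor_add_one _
  have hAn : A ≤ n := by
    have : (A : ℝ) ≤ n := by nlinarith
    exact_mod_cast this
  obtain ⟨B, hB⟩ := Nat.exists_eq_add_of_le hAn
  have hn1 : (1 : ℝ) ≤ n := by
    have : 1 ≤ n := by omega
    exact_mod_cast this
  have hεn : 35 ≤ ε * n := by
    have h1 : 35 / ε ≤ (⌈35 / ε⌉₊ : ℝ) := Nat.le_ceil _
    have h2 : ((⌈35 / ε⌉₊ : ℕ) : ℝ) + 1 ≤ n := by exact_mod_cast hn
    have h3 : 35 / ε ≤ n := by linarith
    rw [div_le_iff₀ hε] at h3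
    linarith
  clear_value A
  subst hB
  refine ⟨HG A (A + B), ?_, HG_free A (A + B), ?_⟩
  · intro e he
    classical
    rw [HG, Finset.mem_filter] at he
    exact he.2.1
  · have h := HG_large A B
    obtain ⟨x, hx⟩ : ∃ x : ℝ, x = (A : ℝ) + B := ⟨_, rfl⟩
    rw [← hx] at h
    have hxn : (((A + B : ℕ)) : ℝ) = x := by rw [hx]; push_cast; rfl
    rw [hxn] at hn1 hεn hA1 hA2 hn0
    have hBx : (B : ℝ) = x - A := by rw [hx]; ring
    have hd : |(A : ℝ) ^ 2 + (B : ℝ) ^ 2 - 5 / 7 * x ^ 2| ≤ 4 * x := by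
      have e1 : (A : ℝ) ^ 2 + (B : ℝ) ^ 2 - 5 / 7 * x ^ 2
          = 2 * (α * x - A) * x * (1 - 2 * α) + 2 * (α * x - A) ^ 2 := by
        rw [hBx, ← hαq]; ring
      rw [e1]
      have r0 : 0 ≤ α * x - A := by linarith
      have r1 : α * x - A ≤ 1 := by linarith
      have t1 : 0 ≤ 1 - 2 * α := by linarith
      have t2 : 1 - 2 * α ≤ 1 := by linarith
      have u1 : 0 ≤ (α * x - A) * (x * (1 - 2 * α)) := mul_nonneg r0 (mul_nonneg hn0 t1)
      have u2 : (α * x - A) * (x * (1 - 2 * α)) ≤ 1 * (x * 1) :=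
        mul_le_mul r1 (mul_le_mul_of_nonneg_left t2 hn0) (mul_nonneg hn0 t1) (by norm_num)
      have u3 : (α * x - A) ^ 2 ≤ 1 := pow_le_one₀ r0 r1
      rw [abs_le]
      have u4 : 2 * (α * x - A) * x * (1 - 2 * α) = 2 * ((α * x - A) * (x * (1 - 2 * α))) := by ring
      have u5 := sq_nonneg (α * x - A)
      rw [u4]
      constructor
      · linarith
      · linarith
    have hd2 : ((A : ℝ) ^ 2 + (B : ℝ) ^ 2 - 5 / 7 * x ^ 2) ^ 2 ≤ 16 * x ^ 2 := by
      have := sq_le_sq' (abs_le.1 hd).1 (abs_le.1 hd).2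
      linarith [this, (by ring : (4 * x) ^ 2 = 16 * x ^ 2)]
    have hcard : (0 : ℝ) ≤ ((HG A (A + B)).card : ℝ) := Nat.cast_nonneg _
    have hch : (((A + B).choose 4 : ℕ) : ℝ) ≤ x ^ 4 / 24 := by
      have := Nat.choose_le_pow_div (α := ℝ) 4 (A + B)
      rw [hxn] at this
      simpa [Nat.factorial] using this
    have hch0 : (0 : ℝ) ≤ (((A + B).choose 4 : ℕ) : ℝ) := Nat.cast_nonneg _
    rcases le_or_gt (9 / 14 - ε) 0 with hneg | hpos
    · exact le_trans (mul_nonpos_of_nonpos_of_nonneg hneg hch0) hcard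
    · have h7 : (9 / 14 - ε) * (((A + B).choose 4 : ℕ) : ℝ) ≤ (9 / 14 - ε) * (x ^ 4 / 24) :=
        mul_le_mul_of_nonneg_left hch hpos.le
      have hx2 : x ^ 2 ≤ x ^ 3 := pow_le_pow_right₀ hn1 (by norm_num)
      have hx3 : (1 : ℝ) ≤ x ^ 3 := one_le_pow₀ hn1
      have hx4 : 35 * x ^ 3 ≤ ε * x ^ 4 := by
        have := mul_le_mul_of_nonneg_right hεn (by positivity : (0 : ℝ) ≤ x ^ 3)
        calc 35 * x ^ 3 ≤ ε * x * x ^ 3 := this
          _ = ε * x ^ 4 := by ring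
      have h8 : (9 / 14 - ε) * (x ^ 4 / 24) = 9 / 14 * x ^ 4 / 24 - ε * x ^ 4 / 24 := by ring
      rw [h8] at h7
      linarith

end Pool.Agent.C44
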