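import Pool.Agent.C44.S1Data

/-! Checks of the certificate S1, part 2. -/

namespace Pool.Agent.C44.S1

open Pool.Agent.C44.G

theorem p011 : chkPart 3 2 adm4 adm E0 CAP 0 1 1 = true := by decide +kernel
theorem p012 : chkPart 3 2 adm4 adm E0 CAP 0 1 2 = true := by decide +kernel
theorem p022 : chkPart 3 2 adm4 adm E0 CAP 0 2 2 = true := by decide +kernel

end Pool.Agent.C44.S1
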