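import Pool.Agent.C44.S1Chk0
import Pool.Agent.C44.S1Chk1
import Pool.Agent.C44.S1Chk2
import Pool.Agent.C44.S1Chk3

/-! The complete check of the certificate S1. -/

namespace Pool.Agent.C44.S1

open Pool.Agent.C44.G

theorem p010 : chkPart 3 2 adm4 adm E0 CAP 0 1 0 = true := by decide +kernel
theorem p020 : chkPart 3 2 adm4 adm E0 CAP 0 2 0 = true := by decide +kernel
theorem p021 : chkPart 3 2 adm4 adm E0 CAP 0 2 1 = true := by decide +kernel
theorem p100 : chkPart 3 2 adm4 adm E0 CAP 1 0 0 = true := by decide +kernel
theorem p101 : chkPart 3 2 adm4 adm E0 CAP 1 0 1 = true := by decide +kernel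
theorem p102 : chkPart 3 2 adm4 adm E0 CAP 1 0 2 = true := by decide +kernel
theorem p110 : chkPart 3 2 adm4 adm E0 CAP 1 1 0 = true := by decide +kernel
theorem p120 : chkPart 3 2 adm4 adm E0 CAP 1 2 0 = true := by decide +kernel
theorem p121 : chkPart 3 2 adm4 adm E0 CAP 1 2 1 = true := by decide +kernel
theorem p200 : chkPart 3 2 adm4 adm E0 CAP 2 0 0 = true := by decide +kernel
theorem p201 : chkPart 3 2 adm4 adm E0 CAP 2 0 1 = true := by decide +kernel
theorem p202 : chkPart 3 2 adm4 adm E0 CAP 2 0 2 = true := by decide +kernel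
theorem p210 : chkPart 3 2 adm4 adm E0 CAP 2 1 0 = true := by decide +kernel
theorem p211 : chkPart 3 2 adm4 adm E0 CAP 2 1 1 = true := by decide +kernel
theorem p212 : chkPart 3 2 adm4 adm E0 CAP 2 1 2 = true := by decide +kernel
theorem p220 : chkPart 3 2 adm4 adm E0 CAP 2 2 0 = true := by decide +kernel
theorem p221 : chkPart 3 2 adm4 adm E0 CAP 2 2 1 = true := by decide +kernel

theorem chk_ok : chk 3 2 adm4 adm E0 CAP = true := by
  refine chk_of ?_
  intro l0 h0 l1 h1 l2 h2
  interval_cases l0 <;> interval_cases l1 <;> interval_cases l2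
  · exact p000
  · exact p001
  · exact p002
  · exact p010
  · exact p011
  · exact p012
  · exact p020
  · exact p021
  · exact p022
  · exact p100
  · exact p101
  · exact p102
  · exact p110
  · exact p111
  · exact p112
  · exact p120
  · exact p121
  · exact p122
  · exact p200
  · exact p201
  · exact p202
  · exact p210
  · exact p211
  · exact p212
  · exact p220
  · exact p221
  · exact p222

end Pool.Agent.C44.S1
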