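import Pool.Agent.C44.Gen5
import Pool.Agent.C44.Gram

/-!
Library for the certificate S1: labels 0, 1, 2 on the points of a `K_4`-free graph, local cut inequalities.
-/

set_option autoImplicit false

open Finset

namespace Pool.Agent.C44.S1

open Pool.Agent.C44.G

/-- field number `i` (64 bits) -/
def lq (T i : ℕ) : ℕ := Nat.land (Nat.shiftRight T (Nat.mul 64 i)) 18446744073709551615

/-- offset `2^62` -/
def OF : ℕ := 4611686018427387904

/-- rotation of the labels which takes `a` to 0 -/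
def rt (a x : ℕ) : ℕ := Nat.mod (Nat.sub (Nat.add x 3) a) 3

/-- relabelling by three roots -/
def r3 (a b c x : ℕ) : ℕ :=
  cond (Nat.beq x a) 0 (cond (Nat.beq b a) (cond (Nat.beq c a) (rt a x) (cond (Nat.beq x c) 1 2))
    (cond (Nat.beq x b) 1 2))

/-- relabelling `a -> 0`, `j -> 1` -/
def rj (a j x : ℕ) : ℕ := cond (Nat.beq x a) 0 (cond (Nat.beq x j) 1 2)

lemma rt_lt {a x : ℕ} : rt a x < 3 := Nat.mod_lt _ (by norm_num)

lemma r3_lt {a b c x : ℕ} : r3 a b c x < 3 := by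
  unfold r3
  cases Nat.beq x a <;> cases Nat.beq b a <;> cases Nat.beq c a <;> cases Nat.beq x c <;>
    cases Nat.beq x b <;> simp [rt_lt]

lemma rj_lt {a b x : ℕ} : rj a b x < 3 := by
  unfold rj
  cases Nat.beq x a <;> cases Nat.beq x b <;> simp

/-- the entries `ent i j` (`i, j < n`) are `OF + gram` -/
noncomputable def chkE (ent : ℕ → ℕ → ℕ) (n : ℕ) (W : List ℕ) (o : ℕ) (C : List (List ℕ)) : Bool :=
  allB n fun i => allB n fun j =>
    Nat.beq (Nat.add (ent i j) (Nat.mul o (Nat.add (ws W (nth C i)) (ws W (nth C j)))))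
      (Nat.add (Nat.add OF (Nat.mul (Nat.mul o o) (wt W))) (wd W (nth C i) (nth C j)))

lemma chkE_spec {ent : ℕ → ℕ → ℕ} {n : ℕ} {W : List ℕ} {o : ℕ} {C : List (List ℕ)}
    (h : chkE ent n W o C = true) {i j : ℕ} (hi : i < n) (hj : j < n) :
    (ent i j : ℤ) = OF + gram W o C i j := by
  have h := allB_spec (allB_spec h hi) hj
  rw [Nat.beq_eq] at h
  simp only [Nat.add_eq, Nat.mul_eq] at h
  rw [gram_eq]
  have h' : (ent i j : ℤ) + o * (ws W (nth C i) + ws W (nth C j)) =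
      OF + o * o * wt W + wd W (nth C i) (nth C j) := by exact_mod_cast h
  linarith

/-- a good table: value at least a positive semidefinite form -/
def PosE (ent : ℕ → ℕ → ℕ) (n : ℕ) : Prop :=
  ∃ (W : List ℕ) (o : ℕ) (C : List (List ℕ)), ∀ i < n, ∀ j < n, (ent i j : ℤ) = OF + gram W o C i j

lemma posE_of_chk {ent : ℕ → ℕ → ℕ} {n : ℕ} {W : List ℕ} {o : ℕ} {C : List (List ℕ)}
    (h : chkE ent n W o C = true) : PosE ent n :=
  ⟨W, o, C, fun _ hi _ hj => chkE_spec h hi hj⟩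

/-- the constant table -/
lemma posE_const (n : ℕ) : PosE (fun _ _ => OF) n :=
  ⟨[], 0, [], fun i _ j _ => by simp [gram]⟩

section
variable {P : Type*}

lemma posE_sum {ent : ℕ → ℕ → ℕ} {n : ℕ} (h : PosE ent n) (s : Finset P) (f : P → ℕ) (hf : ∀ p ∈ s, f p < n) :
    0 ≤ ∑ p ∈ s, ∑ q ∈ s, ((ent (f p) (f q) : ℤ) - OF) := by
  obtain ⟨W, o, C, hC⟩ := h
  have := gram_nonneg s f W o C
  refine le_trans this (le_of_eq ?_)
  refine Finset.sum_congr rfl (fun p hp => Finset.sum_congr rfl (fun q hq => ?_))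
  rw [hC _ (hf p hp) _ (hf q hq)]
  ring

end

/-- entry of a table or `OF` -/
def g3 (T i j : ℕ) : ℕ := cond (Nat.beq T 0) OF (lq T (Nat.add (Nat.mul i 24) j))

/-- entry of a table of size 12 or `OF` -/
def g2 (T i j : ℕ) : ℕ := cond (Nat.beq T 0) OF (lq T (Nat.add (Nat.mul i 12) j))

/-- index of a flag over three roots -/
def fi (l a b c : ℕ) : ℕ := Nat.add (Nat.mul l 8) (Nat.add (Nat.mul a 4) (Nat.add (Nat.mul b 2) c))

/-- index of a flag over two roots -/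
def fj (l a b : ℕ) : ℕ := Nat.add (Nat.mul l 4) (Nat.add (Nat.mul a 2) b)

/-- index of a point over one root -/
def fk (l a : ℕ) : ℕ := Nat.add (Nat.mul l 2) a

/-- canonical pair of points over one root -/
def cn (u w : ℕ) : Bool := Nat.ble u w

/-- index of a canonical pair -/
def fp (u w e : ℕ) : ℕ := Nat.add (Nat.mul w (Nat.add w 1)) (Nat.add (Nat.mul 2 u) e)

/-- part of the square with three roots -/
def P3 (tt : ℕ → ℕ → ℕ → ℕ → ℕ → ℕ) (l0 l1 l2 l3 k01 k02 k12 k03 k13 k23 l4 k04 k14 k24 : ℕ) : ℕ :=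
  g3 (tt (r3 l0 l1 l2 l1) (r3 l0 l1 l2 l2) k01 k02 k12) (fi (r3 l0 l1 l2 l3) k03 k13 k23)
    (fi (r3 l0 l1 l2 l4) k04 k14 k24)

/-- part of the square with one root -/
def P1 (ent : ℕ → ℕ → ℕ) (l0 l1 l2 l3 k01 k02 k12 k03 l4 k04 k34 : ℕ) : ℕ :=
  cond (and (cn (fk (rt l0 l1) k01) (fk (rt l0 l2) k02)) (cn (fk (rt l0 l3) k03) (fk (rt l0 l4) k04)))
    (ent (fp (fk (rt l0 l1) k01) (fk (rt l0 l2) k02) k12) (fp (fk (rt l0 l3) k03) (fk (rt l0 l4) k04) k34)) OF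

/-- cut multiplier with target label `j`, offset `OF` -/
def tC (t2 : ℕ → ℕ → ℕ) (lc : ℕ → ℕ → ℕ → ℕ → ℕ → ℕ → ℕ) (l0 l1 l2 l3 k01 k02 k12 k03 k13 k23 j : ℕ) : ℕ :=
  Nat.add (g2 (t2 (rj l0 j l1) k01) (fj (rj l0 j l2) k02 k12) (fj (rj l0 j l3) k03 k13))
    (lc (fk (rj l0 j l1) k01) (fk (rj l0 j l2) k02) (fk (rj l0 j l3) k03) k12 k13 k23)

/-- the cut part -/
def PC (t : ℕ → ℕ) (l0 l4 k04 : ℕ) : ℕ :=
  cond (Nat.beq k04 0) (Nat.mul 4 OF)
    (cond (Nat.beq l4 l0)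
      (Nat.sub (Nat.mul 6 OF) (Nat.add (t (Nat.mod (Nat.add l0 1) 3)) (t (Nat.mod (Nat.add l0 2) 3))))
      (Nat.add (Nat.mul 3 OF) (t l4)))

/-- the density part -/
def PH (b k34 : ℕ) : ℕ :=
  cond (Nat.beq k34 0) (Nat.mul 9 (Nat.sub OF b)) (Nat.add (Nat.mul 9 OF) (Nat.mul 5 b))

/-- indicator of a monochromatic edge -/
def mo (l0 l1 k01 : ℕ) : ℕ := cond (and (Nat.beq k01 1) (Nat.beq l0 l1)) 1 0

/-- the part of the bound on the mono density -/
def PY (t m : ℕ) : ℕ :=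
  cond (Nat.beq m 0) (Nat.add (Nat.mul 40 OF) t) (Nat.mul 41 (Nat.sub (Nat.mul 2 OF) t))

/-- cut weight -/
def cw (l0 l4 k04 j : ℕ) : ℤ := if k04 = 1 then (if l4 = j then 1 else 0) - (if l4 = l0 then 1 else 0) else 0

lemma PH_ge (b k : ℕ) (hk : k < 2) : 9 * (OF : ℤ) + (b : ℤ) * (14 * k - 9) ≤ (PH b k : ℤ) := by
  interval_cases k
  · unfold PH
    rw [show Nat.beq 0 0 = true from rfl, cond_true]
    simp only [Nat.mul_eq, Nat.sub_eq]
    have : (OF : ℤ) - b ≤ ((OF - b : ℕ) : ℤ) := by omega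
    push_cast [Nat.cast_sub]
    push_cast at this
    linarith
  · unfold PH
    rw [show Nat.beq 1 0 = false from rfl, cond_false]
    simp only [Nat.mul_eq, Nat.add_eq]
    push_cast
    linarith

lemma PY_ge (t m : ℕ) (hm : m < 2) :
    41 * (OF : ℤ) + ((t : ℤ) - OF) * (1 - 42 * m) ≤ (PY t m : ℤ) := by
  interval_cases m
  · unfold PY
    rw [show Nat.beq 0 0 = true from rfl, cond_true]
    simp only [Nat.mul_eq, Nat.add_eq]
    push_cast
    linarith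
  · unfold PY
    rw [show Nat.beq 1 0 = false from rfl, cond_false]
    simp only [Nat.mul_eq, Nat.sub_eq]
    have : 2 * (OF : ℤ) - t ≤ ((2 * OF - t : ℕ) : ℤ) := by omega
    push_cast at this ⊢
    linarith

lemma PC_ge (t : ℕ → ℕ) (l0 l4 k : ℕ) (h0 : l0 < 3) (h4 : l4 < 3) (hk : k < 2) :
    4 * (OF : ℤ) + (((t ((l0 + 1) % 3) : ℕ) : ℤ) - OF) * cw l0 l4 k ((l0 + 1) % 3)
      + (((t ((l0 + 2) % 3) : ℕ) : ℤ) - OF) * cw l0 l4 k ((l0 + 2) % 3) ≤ (PC t l0 l4 k : ℤ) := by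
  have key : ∀ a b : ℕ, 6 * (OF : ℤ) - a - b ≤ ((6 * OF - (a + b) : ℕ) : ℤ) := by intro a b; omega
  interval_cases k
  · unfold PC cw
    rw [show Nat.beq 0 0 = true from rfl, cond_true]
    simp
  · have k0 := key (t 0) (t 1)
    have k1 := key (t 1) (t 2)
    have k2 := key (t 2) (t 0)
    interval_cases l0 <;> interval_cases l4 <;> simp [PC, cw, cond] <;> push_cast at k0 k1 k2 ⊢ <;> linarith

end Pool.Agent.C44.S1
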