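import Pool.Agent.C44.S1Lib

/-!
Sums over 5-tuples for the certificate S1.
-/

set_option autoImplicit false

open Finset

namespace Pool.Agent.C44.S1

open Pool.Agent.C44.G

/-- the function of the certificate -/
def E (tt : ℕ → ℕ → ℕ → ℕ → ℕ → ℕ) (e1 : ℕ → ℕ → ℕ) (t2 : ℕ → ℕ → ℕ) (lc : ℕ → ℕ → ℕ → ℕ → ℕ → ℕ → ℕ)
    (lh : ℕ → ℕ → ℕ → ℕ → ℕ → ℕ) (gy : ℕ → ℕ → ℕ) (Q : ℕ)
    (l0 l1 l2 l3 k01 k02 k12 k03 k13 k23 l4 k04 k14 k24 k34 : ℕ) : ℕ :=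
  Nat.add (Nat.mul Q (mo l0 l1 k01))
    (Nat.add (P3 tt l0 l1 l2 l3 k01 k02 k12 k03 k13 k23 l4 k04 k14 k24)
      (Nat.add (P1 e1 l0 l1 l2 l3 k01 k02 k12 k03 l4 k04 k34)
        (Nat.add (PC (tC t2 lc l0 l1 l2 l3 k01 k02 k12 k03 k13 k23) l0 l4 k04)
          (Nat.add (PH (lh (r3 l0 l1 l2 l1) (r3 l0 l1 l2 l2) k01 k02 k12) k34)
            (PY (gy (fk (rt l0 l1) k01) (fk (rt l0 l2) k02)) (mo l3 l4 k34))))))

section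
variable {Ω : Type} [Fintype Ω] (l : Ω → ℕ) (k : Ω → Ω → ℕ)

/-- number of monochromatic ordered pairs -/
def YY : ℕ := ∑ x, ∑ y, mo (l x) (l y) (k x y)

/-- number of adjacent ordered pairs -/
def KK : ℕ := ∑ x, ∑ y, k x y

variable {l k}

lemma fi_lt {a b c d : ℕ} (ha : a < 3) (hb : b < 2) (hc : c < 2) (hd : d < 2) : fi a b c d < 24 := by
  simp only [fi, Nat.add_eq, Nat.mul_eq]; omega

lemma fj_lt {a b c : ℕ} (ha : a < 3) (hb : b < 2) (hc : c < 2) : fj a b c < 12 := by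
  simp only [fj, Nat.add_eq, Nat.mul_eq]; omega

lemma fk_lt {a b : ℕ} (ha : a < 3) (hb : b < 2) : fk a b < 6 := by
  simp only [fk, Nat.add_eq, Nat.mul_eq]; omega

lemma fp_lt {u w e : ℕ} (hw : w < 6) (hu : cn u w = true) (he : e < 2) : fp u w e < 42 := by
  have hu : u ≤ w := by unfold cn at hu; rwa [Nat.ble_eq] at hu
  simp only [fp, Nat.add_eq, Nat.mul_eq]
  have : w * (w + 1) ≤ 30 := by interval_cases w <;> norm_num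
  omega

lemma mo_lt {a b c : ℕ} : mo a b c < 2 := by
  unfold mo
  cases (and (Nat.beq c 1) (Nat.beq a b)) <;> simp

lemma part3 (hk : ∀ x y, k x y < 2) {tt : ℕ → ℕ → ℕ → ℕ → ℕ → ℕ}
    (ht : ∀ a b c d e, a < 3 → b < 3 → c < 2 → d < 2 → e < 2 → PosE (g3 (tt a b c d e)) 24) :
    0 ≤ ∑ x0, ∑ x1, ∑ x2, ∑ x3, ∑ x4, ((P3 tt (l x0) (l x1) (l x2) (l x3) (k x0 x1) (k x0 x2) (k x1 x2)
      (k x0 x3) (k x1 x3) (k x2 x3) (l x4) (k x0 x4) (k x1 x4) (k x2 x4) : ℤ) - OF) := by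
  refine Finset.sum_nonneg (fun x0 _ => Finset.sum_nonneg (fun x1 _ => Finset.sum_nonneg (fun x2 _ => ?_)))
  exact posE_sum (ht _ _ _ _ _ r3_lt r3_lt (hk x0 x1) (hk x0 x2) (hk x1 x2)) univ
    (fun x => fi (r3 (l x0) (l x1) (l x2) (l x)) (k x0 x) (k x1 x) (k x2 x))
    (fun x _ => fi_lt r3_lt (hk _ _) (hk _ _) (hk _ _))

lemma part1 (hk : ∀ x y, k x y < 2) {e1 : ℕ → ℕ → ℕ} (he : PosE e1 42) :
    0 ≤ ∑ x0, ∑ x1, ∑ x2, ∑ x3, ∑ x4, ((P1 e1 (l x0) (l x1) (l x2) (l x3) (k x0 x1) (k x0 x2) (k x1 x2)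
      (k x0 x3) (l x4) (k x0 x4) (k x3 x4) : ℤ) - OF) := by
  refine Finset.sum_nonneg (fun x0 _ => ?_)
  have conv : ∀ g : Ω → Ω → Ω → Ω → ℤ, ∑ x1, ∑ x2, ∑ x3, ∑ x4, g x1 x2 x3 x4
      = ∑ p : Ω × Ω, ∑ q : Ω × Ω, g p.1 p.2 q.1 q.2 := by
    intro g
    simp only [Fintype.sum_prod_type]
  rw [conv]
  set u : Ω → ℕ := fun x => fk (rt (l x0) (l x)) (k x0 x) with hu
  set s : Finset (Ω × Ω) := univ.filter (fun p => cn (u p.1) (u p.2) = true) with hs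
  have key := posE_sum he s (fun p => fp (u p.1) (u p.2) (k p.1 p.2)) (by
    intro p hp
    exact fp_lt (fk_lt rt_lt (hk _ _)) (Finset.mem_filter.1 hp).2 (hk _ _))
  refine le_trans key (le_of_eq ?_)
  rw [hs, Finset.sum_filter]
  refine Finset.sum_congr rfl (fun p _ => ?_)
  rw [Finset.sum_filter]
  by_cases hp : cn (u p.1) (u p.2) = true
  · rw [if_pos hp]
    refine Finset.sum_congr rfl (fun q _ => ?_)
    by_cases hq : cn (u q.1) (u q.2) = true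
    · rw [if_pos hq]
      unfold P1
      simp only [hu] at hp hq
      simp only [hp, hq, Bool.and_true, cond_true, hu]
    · rw [if_neg hq]
      unfold P1
      simp only [hu] at hp hq
      rw [Bool.not_eq_true] at hq
      simp only [hp, hq, Bool.and_false, cond_false, sub_self]
  · rw [if_neg hp]
    symm
    refine Finset.sum_eq_zero (fun q _ => ?_)
    unfold P1
    simp only [hu] at hp
    rw [Bool.not_eq_true] at hp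
    simp only [hp, Bool.false_and, cond_false, sub_self]

lemma tC_sum (hk : ∀ x y, k x y < 2) {t2 : ℕ → ℕ → ℕ}
    (ht : ∀ a b, a < 3 → b < 2 → PosE (g2 (t2 a b)) 12) (lc : ℕ → ℕ → ℕ → ℕ → ℕ → ℕ → ℕ) (x0 : Ω) (j : ℕ) :
    0 ≤ ∑ x1, ∑ x2, ∑ x3, ((tC t2 lc (l x0) (l x1) (l x2) (l x3) (k x0 x1) (k x0 x2) (k x1 x2)
      (k x0 x3) (k x1 x3) (k x2 x3) j : ℤ) - OF) := by
  refine Finset.sum_nonneg (fun x1 _ => ?_)
  have h1 := posE_sum (ht _ _ (rj_lt (a := l x0) (b := j) (x := l x1)) (hk x0 x1)) univ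
    (fun x => fj (rj (l x0) j (l x)) (k x0 x) (k x1 x))
    (fun x _ => fj_lt rj_lt (hk _ _) (hk _ _))
  refine le_trans h1 (Finset.sum_le_sum (fun x2 _ => Finset.sum_le_sum (fun x3 _ => ?_)))
  unfold tC
  simp only [Nat.add_eq]
  push_cast
  have : (0 : ℤ) ≤ (lc (fk (rj (l x0) j (l x1)) (k x0 x1)) (fk (rj (l x0) j (l x2)) (k x0 x2))
    (fk (rj (l x0) j (l x3)) (k x0 x3)) (k x1 x2) (k x1 x3) (k x2 x3) : ℤ) := Int.natCast_nonneg _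
  linarith

lemma partC (hl : ∀ x, l x < 3) (hk : ∀ x y, k x y < 2) {t2 : ℕ → ℕ → ℕ}
    (ht : ∀ a b, a < 3 → b < 2 → PosE (g2 (t2 a b)) 12) (lc : ℕ → ℕ → ℕ → ℕ → ℕ → ℕ → ℕ)
    (hcut : ∀ x j, j < 3 → 0 ≤ ∑ y, cw (l x) (l y) (k x y) j) :
    0 ≤ ∑ x0, ∑ x1, ∑ x2, ∑ x3, ∑ x4, ((PC (tC t2 lc (l x0) (l x1) (l x2) (l x3) (k x0 x1) (k x0 x2) (k x1 x2)
      (k x0 x3) (k x1 x3) (k x2 x3)) (l x0) (l x4) (k x0 x4) : ℤ) - 4 * OF) := by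
  refine Finset.sum_nonneg (fun x0 _ => ?_)
  set t : Ω → Ω → Ω → ℕ → ℕ := fun x1 x2 x3 => tC t2 lc (l x0) (l x1) (l x2) (l x3) (k x0 x1) (k x0 x2)
    (k x1 x2) (k x0 x3) (k x1 x3) (k x2 x3) with htd
  set j1 := (l x0 + 1) % 3
  set j2 := (l x0 + 2) % 3
  have hp : ∀ x1 x2 x3 x4, ((t x1 x2 x3 j1 : ℤ) - OF) * cw (l x0) (l x4) (k x0 x4) j1
      + ((t x1 x2 x3 j2 : ℤ) - OF) * cw (l x0) (l x4) (k x0 x4) j2
      ≤ (PC (t x1 x2 x3) (l x0) (l x4) (k x0 x4) : ℤ) - 4 * OF := by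
    intro x1 x2 x3 x4
    have := PC_ge (t x1 x2 x3) (l x0) (l x4) (k x0 x4) (hl _) (hl _) (hk _ _)
    linarith
  have hsum : ∑ x1, ∑ x2, ∑ x3, ∑ x4, (((t x1 x2 x3 j1 : ℤ) - OF) * cw (l x0) (l x4) (k x0 x4) j1
      + ((t x1 x2 x3 j2 : ℤ) - OF) * cw (l x0) (l x4) (k x0 x4) j2)
      = (∑ x1, ∑ x2, ∑ x3, ((t x1 x2 x3 j1 : ℤ) - OF)) * (∑ x4, cw (l x0) (l x4) (k x0 x4) j1)
        + (∑ x1, ∑ x2, ∑ x3, ((t x1 x2 x3 j2 : ℤ) - OF)) * (∑ x4, cw (l x0) (l x4) (k x0 x4) j2) := by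
    simp only [Finset.sum_add_distrib, ← Finset.mul_sum, ← Finset.sum_mul]
  refine le_trans ?_ (Finset.sum_le_sum (fun x1 _ => Finset.sum_le_sum (fun x2 _ =>
    Finset.sum_le_sum (fun x3 _ => Finset.sum_le_sum (fun x4 _ => hp x1 x2 x3 x4)))))
  rw [hsum]
  have h1 := tC_sum (l := l) hk ht lc x0 j1
  have h2 := tC_sum (l := l) hk ht lc x0 j2
  exact add_nonneg (mul_nonneg h1 (hcut x0 j1 (Nat.mod_lt _ (by norm_num))))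
    (mul_nonneg h2 (hcut x0 j2 (Nat.mod_lt _ (by norm_num))))

lemma sum_prod3 (b : Ω → Ω → Ω → ℤ) (w : Ω → Ω → ℤ) :
    ∑ x0, ∑ x1, ∑ x2, ∑ x3, ∑ x4, b x0 x1 x2 * w x3 x4 = (∑ x0, ∑ x1, ∑ x2, b x0 x1 x2) * ∑ x3, ∑ x4, w x3 x4 := by
  simp only [← Finset.mul_sum, ← Finset.sum_mul]

lemma partH (hk : ∀ x y, k x y < 2) (b : Ω → Ω → Ω → ℕ)
    (hK : 9 * (Fintype.card Ω : ℤ) ^ 2 ≤ 14 * (KK k : ℤ)) :
    0 ≤ ∑ x0, ∑ x1, ∑ x2, ∑ x3, ∑ x4, ((PH (b x0 x1 x2) (k x3 x4) : ℤ) - 9 * OF) := by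
  have hp : ∀ x0 x1 x2 x3 x4, (b x0 x1 x2 : ℤ) * (14 * (k x3 x4 : ℤ) - 9) ≤
      (PH (b x0 x1 x2) (k x3 x4) : ℤ) - 9 * OF := by
    intro x0 x1 x2 x3 x4
    have := PH_ge (b x0 x1 x2) (k x3 x4) (hk _ _)
    linarith
  refine le_trans ?_ (Finset.sum_le_sum (fun x0 _ => Finset.sum_le_sum (fun x1 _ => Finset.sum_le_sum (fun x2 _ =>
    Finset.sum_le_sum (fun x3 _ => Finset.sum_le_sum (fun x4 _ => hp x0 x1 x2 x3 x4))))))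
  rw [sum_prod3 (fun x0 x1 x2 => (b x0 x1 x2 : ℤ)) (fun x3 x4 => 14 * (k x3 x4 : ℤ) - 9)]
  refine mul_nonneg (Finset.sum_nonneg (fun _ _ => Finset.sum_nonneg (fun _ _ => Finset.sum_nonneg (fun _ _ =>
    Int.natCast_nonneg _)))) ?_
  simp only [Finset.sum_sub_distrib, ← Finset.mul_sum, Finset.sum_const, Finset.card_univ, nsmul_eq_mul]
  have : ((KK k : ℕ) : ℤ) = ∑ x, ∑ y, (k x y : ℤ) := by unfold KK; push_cast; rfl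
  rw [this] at hK
  linarith

lemma partY (hk : ∀ x y, k x y < 2) {gy : ℕ → ℕ → ℕ} (hg : PosE gy 6)
    (hY : 42 * (YY l k : ℤ) ≤ (Fintype.card Ω : ℤ) ^ 2) :
    0 ≤ ∑ x0, ∑ x1, ∑ x2, ∑ x3, ∑ x4, ((PY (gy (fk (rt (l x0) (l x1)) (k x0 x1)) (fk (rt (l x0) (l x2)) (k x0 x2)))
      (mo (l x3) (l x4) (k x3 x4)) : ℤ) - 41 * OF) := by
  set t : Ω → Ω → Ω → ℤ := fun x0 x1 x2 =>
    ((gy (fk (rt (l x0) (l x1)) (k x0 x1)) (fk (rt (l x0) (l x2)) (k x0 x2)) : ℕ) : ℤ) - OF with ht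
  have hp : ∀ x0 x1 x2 x3 x4, t x0 x1 x2 * (1 - 42 * (mo (l x3) (l x4) (k x3 x4) : ℤ)) ≤
      (PY (gy (fk (rt (l x0) (l x1)) (k x0 x1)) (fk (rt (l x0) (l x2)) (k x0 x2)))
        (mo (l x3) (l x4) (k x3 x4)) : ℤ) - 41 * OF := by
    intro x0 x1 x2 x3 x4
    have := PY_ge (gy (fk (rt (l x0) (l x1)) (k x0 x1)) (fk (rt (l x0) (l x2)) (k x0 x2)))
      (mo (l x3) (l x4) (k x3 x4)) mo_lt
    simp only [ht]
    linarith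
  refine le_trans ?_ (Finset.sum_le_sum (fun x0 _ => Finset.sum_le_sum (fun x1 _ => Finset.sum_le_sum (fun x2 _ =>
    Finset.sum_le_sum (fun x3 _ => Finset.sum_le_sum (fun x4 _ => hp x0 x1 x2 x3 x4))))))
  rw [sum_prod3 t (fun x3 x4 => 1 - 42 * (mo (l x3) (l x4) (k x3 x4) : ℤ))]
  refine mul_nonneg (Finset.sum_nonneg (fun x0 _ => ?_)) ?_
  · exact posE_sum hg univ (fun x => fk (rt (l x0) (l x)) (k x0 x)) (fun x _ => fk_lt rt_lt (hk _ _))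
  · simp only [Finset.sum_sub_distrib, ← Finset.mul_sum, Finset.sum_const, Finset.card_univ, nsmul_eq_mul]
    have : ((YY l k : ℕ) : ℤ) = ∑ x, ∑ y, (mo (l x) (l y) (k x y) : ℤ) := by unfold YY; push_cast; rfl
    rw [this] at hY
    linarith

lemma const5 (c : ℤ) : ∑ _x0 : Ω, ∑ _x1 : Ω, ∑ _x2 : Ω, ∑ _x3 : Ω, ∑ _x4 : Ω, c = c * (Fintype.card Ω : ℤ) ^ 5 := by
  simp only [Finset.sum_const, Finset.card_univ, nsmul_eq_mul]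
  ring

lemma part0 (Q : ℕ) : ∑ x0, ∑ x1, ∑ _x2 : Ω, ∑ _x3 : Ω, ∑ _x4 : Ω, ((Q * mo (l x0) (l x1) (k x0 x1) : ℕ) : ℤ)
    = Q * (YY l k : ℤ) * (Fintype.card Ω : ℤ) ^ 3 := by
  have : ((YY l k : ℕ) : ℤ) = ∑ x, ∑ y, (mo (l x) (l y) (k x y) : ℤ) := by unfold YY; push_cast; rfl
  rw [this]
  push_cast
  simp only [Finset.sum_const, Finset.card_univ, nsmul_eq_mul, ← Finset.mul_sum]
  ring

/-- **Lower bound for the sum of `E`** -/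
theorem sum_E_ge (hl : ∀ x, l x < 3) (hk : ∀ x y, k x y < 2) {tt : ℕ → ℕ → ℕ → ℕ → ℕ → ℕ}
    {e1 : ℕ → ℕ → ℕ} {t2 : ℕ → ℕ → ℕ} (lc : ℕ → ℕ → ℕ → ℕ → ℕ → ℕ → ℕ)
    (lh : ℕ → ℕ → ℕ → ℕ → ℕ → ℕ) {gy : ℕ → ℕ → ℕ} (Q : ℕ)
    (h3 : ∀ a b c d e, a < 3 → b < 3 → c < 2 → d < 2 → e < 2 → PosE (g3 (tt a b c d e)) 24)
    (h1 : PosE e1 42) (h2 : ∀ a b, a < 3 → b < 2 → PosE (g2 (t2 a b)) 12) (hg : PosE gy 6)
    (hcut : ∀ x j, j < 3 → 0 ≤ ∑ y, cw (l x) (l y) (k x y) j)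
    (hK : 9 * (Fintype.card Ω : ℤ) ^ 2 ≤ 14 * (KK k : ℤ))
    (hY : 42 * (YY l k : ℤ) ≤ (Fintype.card Ω : ℤ) ^ 2) :
    Q * (YY l k : ℤ) * (Fintype.card Ω : ℤ) ^ 3 + 56 * OF * (Fintype.card Ω : ℤ) ^ 5 ≤
      ∑ x0, ∑ x1, ∑ x2, ∑ x3, ∑ x4, (E tt e1 t2 lc lh gy Q (l x0) (l x1) (l x2) (l x3) (k x0 x1) (k x0 x2)
        (k x1 x2) (k x0 x3) (k x1 x3) (k x2 x3) (l x4) (k x0 x4) (k x1 x4) (k x2 x4) (k x3 x4) : ℤ) := by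
  have q0 := part0 (l := l) (k := k) Q
  have q3 := part3 (l := l) hk h3
  have q1 := part1 (l := l) hk h1
  have qC := partC hl hk h2 lc hcut
  have qH := partH hk (fun x0 x1 x2 => lh (r3 (l x0) (l x1) (l x2) (l x1)) (r3 (l x0) (l x1) (l x2) (l x2))
    (k x0 x1) (k x0 x2) (k x1 x2)) hK
  have qY := partY hk hg hY
  have c1 := const5 (Ω := Ω) (OF : ℤ)
  have c4 := const5 (Ω := Ω) (4 * (OF : ℤ))
  have c9 := const5 (Ω := Ω) (9 * (OF : ℤ))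
  have c41 := const5 (Ω := Ω) (41 * (OF : ℤ))
  simp only [Finset.sum_sub_distrib] at q3 q1 qC qH qY
  rw [c1] at q3 q1
  rw [c4] at qC
  rw [c9] at qH
  rw [c41] at qY
  unfold E
  simp only [Nat.add_eq, Nat.mul_eq]
  push_cast at q0 ⊢
  simp only [Finset.sum_add_distrib]
  rw [q0]
  linarith

/-- `K_4`-free on four points -/
def adm4 (_l0 _l1 _l2 _l3 k01 k02 k12 k03 k13 k23 : ℕ) : Bool :=
  Nat.beq (Nat.mul (Nat.mul (Nat.mul k01 k02) (Nat.mul k12 k03)) (Nat.mul k13 k23)) 0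

/-- `K_4`-free on five points -/
def adm (l0 l1 l2 l3 k01 k02 k12 k03 k13 k23 l4 k04 k14 k24 k34 : ℕ) : Bool :=
  and (adm4 l0 l1 l2 l3 k01 k02 k12 k03 k13 k23) (and (adm4 l0 l1 l2 l4 k01 k02 k12 k04 k14 k24)
    (and (adm4 l0 l1 l3 l4 k01 k03 k13 k04 k14 k34) (and (adm4 l0 l2 l3 l4 k02 k03 k23 k04 k24 k34)
      (adm4 l1 l2 l3 l4 k12 k13 k23 k14 k24 k34))))

lemma adm4_of {a b c d e f : ℕ} (p q r s : ℕ) (ha : a < 2) (hb : b < 2) (hc : c < 2) (hd : d < 2) (he : e < 2)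
    (hf : f < 2) (h : ¬ (a = 1 ∧ b = 1 ∧ c = 1 ∧ d = 1 ∧ e = 1 ∧ f = 1)) : adm4 p q r s a b c d e f = true := by
  unfold adm4
  simp only [Nat.mul_eq, Nat.beq_eq]
  by_contra hne
  apply h
  have h' : a ≠ 0 ∧ b ≠ 0 ∧ c ≠ 0 ∧ d ≠ 0 ∧ e ≠ 0 ∧ f ≠ 0 := by
    refine ⟨?_, ?_, ?_, ?_, ?_, ?_⟩ <;> rintro rfl <;> simp at hne
  omega

/-- **The graph statement from the checks** -/
theorem graph_bound (hl : ∀ x, l x < 3) (hk : ∀ x y, k x y < 2) (hs : ∀ x y, k x y = k y x)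
    (hfree : ∀ a b c d, ¬ (k a b = 1 ∧ k a c = 1 ∧ k b c = 1 ∧ k a d = 1 ∧ k b d = 1 ∧ k c d = 1))
    {tt : ℕ → ℕ → ℕ → ℕ → ℕ → ℕ}
    {e1 : ℕ → ℕ → ℕ} {t2 : ℕ → ℕ → ℕ} {lc : ℕ → ℕ → ℕ → ℕ → ℕ → ℕ → ℕ}
    {lh : ℕ → ℕ → ℕ → ℕ → ℕ → ℕ} {gy : ℕ → ℕ → ℕ} {Q CAP : ℕ}
    (h3 : ∀ a b c d e, a < 3 → b < 3 → c < 2 → d < 2 → e < 2 → PosE (g3 (tt a b c d e)) 24)
    (h1 : PosE e1 42) (h2 : ∀ a b, a < 3 → b < 2 → PosE (g2 (t2 a b)) 12) (hg : PosE gy 6)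
    (hcut : ∀ x j, j < 3 → 0 ≤ ∑ y, cw (l x) (l y) (k x y) j)
    (hK : 9 * (Fintype.card Ω : ℤ) ^ 2 ≤ 14 * (KK k : ℤ))
    (hY : 42 * (YY l k : ℤ) ≤ (Fintype.card Ω : ℤ) ^ 2)
    (hchk : chk 3 2 adm4 adm (E tt e1 t2 lc lh gy Q) CAP = true) :
    120 * Q * (YY l k : ℤ) ≤ ((CAP : ℤ) - 6720 * OF) * (Fintype.card Ω : ℤ) ^ 2 := by
  have ha : ∀ a b c d p q r s, adm4 p q r s (k a b) (k a c) (k b c) (k a d) (k b d) (k c d) = true := by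
    intro a b c d p q r s
    exact adm4_of p q r s (hk _ _) (hk _ _) (hk _ _) (hk _ _) (hk _ _) (hk _ _) (hfree a b c d)
  have hle := sum_le l k (by norm_num) (by norm_num) hl hk hs (adm4 := adm4) (adm := adm)
    (fun x => ha _ _ _ _ _ _ _ _) (fun x => by
      unfold adm
      rw [ha (x 0) (x 1) (x 2) (x 3), ha (x 0) (x 1) (x 2) (x 4), ha (x 0) (x 1) (x 3) (x 4),
        ha (x 0) (x 2) (x 3) (x 4), ha (x 1) (x 2) (x 3) (x 4)]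
      rfl) hchk
  have hge := sum_E_ge hl hk lc lh Q h3 h1 h2 hg hcut hK hY
  have hle' : 120 * ∑ x0, ∑ x1, ∑ x2, ∑ x3, ∑ x4, (E tt e1 t2 lc lh gy Q (l x0) (l x1) (l x2) (l x3) (k x0 x1)
        (k x0 x2) (k x1 x2) (k x0 x3) (k x1 x3) (k x2 x3) (l x4) (k x0 x4) (k x1 x4) (k x2 x4) (k x3 x4) : ℤ)
      ≤ CAP * (Fintype.card Ω : ℤ) ^ 5 := by exact_mod_cast hle
  rcases Nat.eq_zero_or_pos (Fintype.card Ω) with h0 | hpos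
  · have : IsEmpty Ω := Fintype.card_eq_zero_iff.1 h0
    have hY0 : YY l k = 0 := by unfold YY; exact Finset.sum_eq_zero (fun x _ => (this.false x).elim)
    rw [hY0, h0]; simp
  · have hN : (0 : ℤ) < (Fintype.card Ω : ℤ) := by exact_mod_cast hpos
    have hN3 : (0 : ℤ) < (Fintype.card Ω : ℤ) ^ 3 := by positivity
    have h5 : (Fintype.card Ω : ℤ) ^ 3 * (120 * Q * (YY l k : ℤ)) ≤
        (Fintype.card Ω : ℤ) ^ 3 * (((CAP : ℤ) - 6720 * OF) * (Fintype.card Ω : ℤ) ^ 2) := by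
      have e : (Fintype.card Ω : ℤ) ^ 3 * (((CAP : ℤ) - 6720 * OF) * (Fintype.card Ω : ℤ) ^ 2)
          = CAP * (Fintype.card Ω : ℤ) ^ 5 - 6720 * OF * (Fintype.card Ω : ℤ) ^ 5 := by ring
      rw [e]
      linarith
    exact le_of_mul_le_mul_left h5 hN3

end

end Pool.Agent.C44.S1
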