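import Pool.Agent.C44.SixG
import Pool.Agent.C44.Gram

/-!
# Six points: data of a certificate, checks, and their consequences
-/

set_option autoImplicit false
set_option maxHeartbeats 4000000

open Finset

namespace Pool.Agent.C44.S6

/-- tables of a certificate -/
structure Dat where
  ca : ℕ
  ty : ℕ
  rel : ℕ
  iv : ℕ
  q4 : ℕ → ℕ → ℕ → ℕ
  w0 : ℕ
  w1 : ℕ
  cl : ℕ → ℕ
  q2 : ℕ → ℕ → ℕ
  c0 : ℕ → ℕ
  q0 : ℕ → ℕ → ℕ
  uc : ℕ → ℕ
  nu : ℕ
  tw : ℕ → ℕ → ℕ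

/-- relabelling of a flag -/
def rl (D : Dat) (i g : ℕ) : ℕ := lb D.rel (Nat.add (Nat.mul 81 i) g)

/-- four roots: value from the code of the root colouring and of the two flags -/
def E4 (D : Dat) (σ g h : ℕ) : ℕ :=
  D.q4 (lb D.ty σ) (rl D (lb D.ca σ) g) (rl D (lb D.ca σ) h)

/-- the building blocks of a certificate -/
def blk (D : Dat) : Blk where
  e4 s0 s1 s2 s3 s4 s5 p q r s u v w z :=
    Nat.add (ph D.w0 D.w1 s0 s1 s2 s3 s4 s5) (E4 D (d6 s0 s1 s2 s3 s4 s5) (d4 p q r s) (d4 u v w z))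
  e2 s p q r t m u v w x n :=
    D.q2 (D.cl (Nat.add (Nat.mul 243 s) (d5 p q r t m))) (D.cl (Nat.add (Nat.mul 243 s) (d5 u v w x n)))
  e0 p q r u v w := D.q0 (D.c0 (d3 p q r)) (D.c0 (d3 u v w))
  ew x y z u v w a b c := D.tw (d3 x y z) (D.uc (d6 u v w a b c))

/-! ### ranges -/

noncomputable def chkR (D : Dat) : Bool :=
  and (allN 729 fun σ => and (Nat.blt (lb D.ca σ) 144) (Nat.blt (lb D.ty σ) 15))
    (allN 144 fun i => allN 81 fun g => Nat.blt (rl D i g) 81)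

theorem chkR_spec {D : Dat} (h : chkR D = true) :
    (∀ σ < 729, lb D.ca σ < 144 ∧ lb D.ty σ < 15) ∧ ∀ i < 144, ∀ g < 81, rl D i g < 81 := by
  rw [chkR, Bool.and_eq_true] at h
  refine ⟨fun σ hσ => ?_, fun i hi g hg => ?_⟩
  · have := allN_spec h.1 hσ
    rw [Bool.and_eq_true, Nat.blt_eq, Nat.blt_eq] at this
    exact this
  · have := allN_spec (allN_spec h.2 hi) hg
    rwa [Nat.blt_eq] at this

theorem d3_lt (a b c : Fin 3) : d3 a b c < 27 := by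
  have := a.2; have := b.2; have := c.2
  simp only [d3, Nat.add_eq, Nat.mul_eq]
  omega

theorem d6_lt (a b c d e f : Fin 3) : d6 a b c d e f < 729 := by
  have := d3_lt a b c; have := d3_lt d e f
  simp only [d6, Nat.add_eq, Nat.mul_eq]
  omega

/-! ### four roots -/

/-- symmetry of the tables for type `t` -/
noncomputable def chkS4 (D : Dat) (t : ℕ) : Bool :=
  allN 81 fun x => allN 81 fun y => Nat.beq (D.q4 t x y) (D.q4 t y x)

/-- invariance of the table of type `t` under the relabellings of the list -/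
noncomputable def chkI4 (D : Dat) (t : ℕ) : Bool :=
  allN 144 fun i => cond (Nat.beq (lb D.iv (Nat.add (Nat.mul 144 t) i)) 1)
    (allN 81 fun x => allN (Nat.succ x) fun y => Nat.beq (D.q4 t (rl D i x) (rl D i y)) (D.q4 t x y)) true

theorem chkI4_spec {D : Dat} {t : ℕ} (hs : chkS4 D t = true) (h : chkI4 D t = true)
    (hR : ∀ i < 144, ∀ g < 81, rl D i g < 81)
    {i : ℕ} (hi : i < 144) (hiv : lb D.iv (Nat.add (Nat.mul 144 t) i) = 1) {x y : ℕ} (hx : x < 81) (hy : y < 81) :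
    D.q4 t (rl D i x) (rl D i y) = D.q4 t x y := by
  have key : ∀ {x y : ℕ}, x < 81 → y ≤ x → D.q4 t (rl D i x) (rl D i y) = D.q4 t x y := by
    intro x y hx hyx
    have h1 := allN_spec h hi
    rw [hiv, Nat.beq_refl, cond_true] at h1
    have h2 := allN_spec (allN_spec h1 hx) (Nat.lt_succ_of_le hyx)
    exact Nat.eq_of_beq_eq_true h2
  have hsym : ∀ {x y : ℕ}, x < 81 → y < 81 → D.q4 t x y = D.q4 t y x := fun hx hy =>
    Nat.eq_of_beq_eq_true (allN_spec (allN_spec hs hx) hy)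
  rcases Nat.le_total y x with hxy | hxy
  · exact key hx hxy
  · rw [hsym (hR i hi x hx) (hR i hi y hy), hsym hx hy]
    exact key hy hxy

/-- conditions on the tables for four roots -/
structure Ok4 (D : Dat) : Prop where
  rs : ∀ σ < 729, lb D.ca σ < 144 ∧ lb D.ty σ < 15
  rr : ∀ i < 144, ∀ g < 81, rl D i g < 81
  sy : ∀ t < 15, chkS4 D t = true
  iv : ∀ t < 15, chkI4 D t = true

theorem Ok4.sym {D : Dat} (h : Ok4 D) (σ : ℕ) (hσ : σ < 729) (x y : ℕ) (hx : x < 81) (hy : y < 81) :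
    E4 D σ x y = E4 D σ y x := by
  have h1 := h.rs σ hσ
  exact Nat.eq_of_beq_eq_true (allN_spec (allN_spec (h.sy _ h1.2) (h.rr _ h1.1 x hx)) (h.rr _ h1.1 y hy))

/-- one relabelling step -/
theorem Ok4.step {D : Dat} (h : Ok4 D) {σ σ' δ g h' g' h'' : ℕ} (hσ : σ < 729) (hδ : δ < 144)
    (hg : g < 81) (hh : h' < 81)
    (ht : lb D.ty σ' = lb D.ty σ) (hi : lb D.iv (Nat.add (Nat.mul 144 (lb D.ty σ)) δ) = 1)
    (e1 : rl D (lb D.ca σ') g' = rl D δ (rl D (lb D.ca σ) g))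
    (e2 : rl D (lb D.ca σ') h'' = rl D δ (rl D (lb D.ca σ) h')) :
    E4 D σ' g' h'' = E4 D σ g h' := by
  have h1 := h.rs σ hσ
  unfold E4
  rw [ht, e1, e2]
  exact chkI4_spec (h.sy _ h1.2) (h.iv _ h1.2) h.rr hδ hi (h.rr _ h1.1 g hg) (h.rr _ h1.1 h' hh)

/-- check of one generator: `τs` acts on root colourings, `τg` on flags -/
noncomputable def chkC (D : Dat) (dl : ℕ) (τs : ℕ → ℕ → ℕ → ℕ → ℕ → ℕ → ℕ) (τg : ℕ → ℕ → ℕ → ℕ → ℕ) : Bool :=
  all3 fun s0 => all3 fun s1 => all3 fun s2 => all3 fun s3 => all3 fun s4 => all3 fun s5 =>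
    and (Nat.beq (lb D.ty (τs s0 s1 s2 s3 s4 s5)) (lb D.ty (d6 s0 s1 s2 s3 s4 s5)))
    (and (Nat.blt (lb dl (d6 s0 s1 s2 s3 s4 s5)) 144)
    (and (Nat.beq (lb D.iv (Nat.add (Nat.mul 144 (lb D.ty (d6 s0 s1 s2 s3 s4 s5))) (lb dl (d6 s0 s1 s2 s3 s4 s5)))) 1)
    (all3 fun p => all3 fun q => all3 fun r => all3 fun s =>
      Nat.beq (rl D (lb D.ca (τs s0 s1 s2 s3 s4 s5)) (τg p q r s))
        (rl D (lb dl (d6 s0 s1 s2 s3 s4 s5)) (rl D (lb D.ca (d6 s0 s1 s2 s3 s4 s5)) (d4 p q r s))))))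

theorem chkC_spec {D : Dat} (h : Ok4 D) {dl : ℕ} {τs : ℕ → ℕ → ℕ → ℕ → ℕ → ℕ → ℕ} {τg : ℕ → ℕ → ℕ → ℕ → ℕ}
    (hc : chkC D dl τs τg = true) (s0 s1 s2 s3 s4 s5 p q r s u v w z : Fin 3) :
    E4 D (τs s0 s1 s2 s3 s4 s5) (τg p q r s) (τg u v w z) =
      E4 D (d6 s0 s1 s2 s3 s4 s5) (d4 p q r s) (d4 u v w z) := by
  have h1 := all3_spec (all3_spec (all3_spec (all3_spec (all3_spec (all3_spec hc s0) s1) s2) s3) s4) s5
  rw [Bool.and_eq_true, Bool.and_eq_true, Bool.and_eq_true] at h1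
  obtain ⟨a1, a2, a3, a4⟩ := h1
  exact h.step (d6_lt s0 s1 s2 s3 s4 s5) (by rwa [Nat.blt_eq] at a2) (d4_lt p q r s) (d4_lt u v w z)
    (Nat.eq_of_beq_eq_true a1) (Nat.eq_of_beq_eq_true a3)
    (Nat.eq_of_beq_eq_true (all3_spec (all3_spec (all3_spec (all3_spec a4 p) q) r) s))
    (Nat.eq_of_beq_eq_true (all3_spec (all3_spec (all3_spec (all3_spec a4 u) v) w) z))

/-- the weights -/
noncomputable def chkPh (w0 w1 : ℕ) : Bool :=
  all3 fun s0 => all3 fun s1 => all3 fun s2 => all3 fun s3 => all3 fun s4 => all3 fun s5 =>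
    and (Nat.beq (ph w0 w1 s0 s2 s1 s4 s3 s5) (ph w0 w1 s0 s1 s2 s3 s4 s5))
    (and (Nat.beq (ph w0 w1 s1 s0 s2 s3 s5 s4) (ph w0 w1 s0 s1 s2 s3 s4 s5))
    (and (Nat.beq (ph w0 w1 s0 s3 s4 s1 s2 s5) (ph w0 w1 s0 s1 s2 s3 s4 s5))
    (and (Nat.beq (ph w0 w1 (s1' s0) (s1' s1) (s1' s2) (s1' s3) (s1' s4) (s1' s5)) (ph w0 w1 s0 s1 s2 s3 s4 s5))
    (Nat.beq (ph w0 w1 (s2' s0) (s2' s1) (s2' s2) (s2' s3) (s2' s4) (s2' s5)) (ph w0 w1 s0 s1 s2 s3 s4 s5)))))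
where
  s1' (x : ℕ) : ℕ := S6.s1 x
  s2' (x : ℕ) : ℕ := S6.s2 x

/-! ### two roots -/

/-- a map of classes under which the table is invariant -/
noncomputable def chkI2 (D : Dat) (f : ℕ → ℕ) : Bool :=
  allN 135 fun x => allN 135 fun y => Nat.beq (D.q2 (f x) (f y)) (D.q2 x y)

noncomputable def chkS2 (D : Dat) : Bool :=
  allN 135 fun x => allN 135 fun y => Nat.beq (D.q2 x y) (D.q2 y x)

/-- the classes of flags with two roots; `ps` root exchange, `pa`, `pb` colour maps (depending on the colour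
of the roots) -/
noncomputable def chkCl (D : Dat) (ps : ℕ → ℕ) (pa pb : ℕ → ℕ → ℕ) : Bool :=
  all3 fun s => all3 fun p => all3 fun q => all3 fun r => all3 fun t => all3 fun m =>
    and (Nat.blt (D.cl (Nat.add (Nat.mul 243 s) (d5 p q r t m))) 135)
    (and (Nat.beq (D.cl (Nat.add (Nat.mul 243 s) (d5 r t p q m))) (D.cl (Nat.add (Nat.mul 243 s) (d5 p q r t m))))
    (and (Nat.beq (D.cl (Nat.add (Nat.mul 243 s) (d5 q p t r m))) (ps (D.cl (Nat.add (Nat.mul 243 s) (d5 p q r t m)))))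
    (and (Nat.beq (D.cl (Nat.add (Nat.mul 243 (s1 s)) (d5 (s1 p) (s1 q) (s1 r) (s1 t) (s1 m))))
        (pa s (D.cl (Nat.add (Nat.mul 243 s) (d5 p q r t m)))))
    (Nat.beq (D.cl (Nat.add (Nat.mul 243 (s2 s)) (d5 (s2 p) (s2 q) (s2 r) (s2 t) (s2 m))))
        (pb s (D.cl (Nat.add (Nat.mul 243 s) (d5 p q r t m))))))))

structure Ok2 (D : Dat) : Prop where
  ex : ∃ ps : ℕ → ℕ, ∃ pa pb : ℕ → ℕ → ℕ, chkCl D ps pa pb = true ∧ chkI2 D ps = true ∧
    (∀ s : Fin 3, chkI2 D (pa s) = true) ∧ (∀ s : Fin 3, chkI2 D (pb s) = true)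
  sy : chkS2 D = true

/-! ### no roots -/

noncomputable def chk0 (D : Dat) (pa pb : ℕ → ℕ) : Bool :=
  and (all3 fun p => all3 fun q => all3 fun r =>
    and (Nat.blt (D.c0 (d3 p q r)) 10)
    (and (Nat.beq (D.c0 (d3 p r q)) (D.c0 (d3 p q r)))
    (and (Nat.beq (D.c0 (d3 q p r)) (D.c0 (d3 p q r)))
    (and (Nat.beq (D.c0 (d3 (s1 p) (s1 q) (s1 r))) (pa (D.c0 (d3 p q r))))
    (Nat.beq (D.c0 (d3 (s2 p) (s2 q) (s2 r))) (pb (D.c0 (d3 p q r))))))))
  (allN 10 fun x => allN 10 fun y => and (Nat.beq (D.q0 x y) (D.q0 y x))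
    (and (Nat.beq (D.q0 (pa x) (pa y)) (D.q0 x y)) (Nat.beq (D.q0 (pb x) (pb y)) (D.q0 x y))))

/-! ### the multiplier table -/

noncomputable def chkU (D : Dat) (pa pb : ℕ → ℕ) : Bool :=
  all3 fun u => all3 fun v => all3 fun w => all3 fun a => all3 fun b => all3 fun c =>
    and (Nat.blt (D.uc (d6 u v w a b c)) D.nu)
    (and (Nat.beq (D.uc (d6 v u w a c b)) (D.uc (d6 u v w a b c)))
    (and (Nat.beq (D.uc (d6 u w v b a c)) (D.uc (d6 u v w a b c)))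
    (and (Nat.beq (D.uc (d6 (s1 u) (s1 v) (s1 w) (s1 a) (s1 b) (s1 c))) (pa (D.uc (d6 u v w a b c))))
    (Nat.beq (D.uc (d6 (s2 u) (s2 v) (s2 w) (s2 a) (s2 b) (s2 c))) (pb (D.uc (d6 u v w a b c)))))))

noncomputable def chkT (D : Dat) (pa pb : ℕ → ℕ) : Bool :=
  all3 fun x => all3 fun y => all3 fun z => allN D.nu fun c =>
    and (Nat.beq (D.tw (d3 y x z) c) (D.tw (d3 x y z) c))
    (and (Nat.beq (D.tw (d3 (s1 x) (s1 y) (s1 z)) (pa c)) (D.tw (d3 x y z) c))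
    (Nat.beq (D.tw (d3 (s2 x) (s2 y) (s2 z)) (pb c)) (D.tw (d3 x y z) c)))

/-- all checks of symmetry -/
structure Ok (D : Dat) : Prop where
  o4 : Ok4 D
  g : ∃ d1 d2 d3' d4' d5' : ℕ,
    chkC D d1 (fun s0 s1 s2 s3 s4 s5 => d6 s0 s2 s1 s4 s3 s5) (fun p q r s => d4 q p r s) = true ∧
    chkC D d2 (fun s0 s1 s2 s3 s4 s5 => d6 s1 s0 s2 s3 s5 s4) (fun p q r s => d4 p r q s) = true ∧
    chkC D d3' (fun s0 s1 s2 s3 s4 s5 => d6 s0 s3 s4 s1 s2 s5) (fun p q r s => d4 p q s r) = true ∧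
    chkC D d4' (fun a b c d e f => d6 (s1 a) (s1 b) (s1 c) (s1 d) (s1 e) (s1 f))
      (fun p q r s => d4 (s1 p) (s1 q) (s1 r) (s1 s)) = true ∧
    chkC D d5' (fun a b c d e f => d6 (s2 a) (s2 b) (s2 c) (s2 d) (s2 e) (s2 f))
      (fun p q r s => d4 (s2 p) (s2 q) (s2 r) (s2 s)) = true
  ph : chkPh D.w0 D.w1 = true
  o2 : Ok2 D
  o0 : ∃ pa pb : ℕ → ℕ, chk0 D pa pb = true
  ou : ∃ pa pb : ℕ → ℕ, chkU D pa pb = true ∧ chkT D pa pb = true

theorem chkPh_spec {w0 w1 : ℕ} (h : chkPh w0 w1 = true) (s0 s1 s2 s3 s4 s5 : Fin 3) :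
    ph w0 w1 s0 s2 s1 s4 s3 s5 = ph w0 w1 s0 s1 s2 s3 s4 s5 ∧
    ph w0 w1 s1 s0 s2 s3 s5 s4 = ph w0 w1 s0 s1 s2 s3 s4 s5 ∧
    ph w0 w1 s0 s3 s4 s1 s2 s5 = ph w0 w1 s0 s1 s2 s3 s4 s5 ∧
    ph w0 w1 (cs1 s0) (cs1 s1) (cs1 s2) (cs1 s3) (cs1 s4) (cs1 s5) = ph w0 w1 s0 s1 s2 s3 s4 s5 ∧
    ph w0 w1 (cs2 s0) (cs2 s1) (cs2 s2) (cs2 s3) (cs2 s4) (cs2 s5) = ph w0 w1 s0 s1 s2 s3 s4 s5 := by
  have h1 := all3_spec (all3_spec (all3_spec (all3_spec (all3_spec (all3_spec h s0) s1) s2) s3) s4) s5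
  simp only [Bool.and_eq_true, Nat.beq_eq, chkPh.s1', chkPh.s2', s1_eq, s2_eq] at h1
  exact h1

theorem Ok.sym {D : Dat} (h : Ok D) : Sym (blk D) where
  a1 s0 s1 s2 s3 s4 s5 p q r s u v w z := by
    obtain ⟨d1, d2, d3', d4', d5', g1, g2, g3, g4, g5⟩ := h.g
    have e1 := (chkPh_spec h.ph s0 s1 s2 s3 s4 s5).1
    have e2 := chkC_spec h.o4 g1 s0 s1 s2 s3 s4 s5 p q r s u v w z
    simp only [blk]
    rw [e1]
    exact congrArg _ e2
  a2 s0 s1 s2 s3 s4 s5 p q r s u v w z := by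
    obtain ⟨d1, d2, d3', d4', d5', g1, g2, g3, g4, g5⟩ := h.g
    have e1 := (chkPh_spec h.ph s0 s1 s2 s3 s4 s5).2.1
    have e2 := chkC_spec h.o4 g2 s0 s1 s2 s3 s4 s5 p q r s u v w z
    simp only [blk]
    rw [e1]
    exact congrArg _ e2
  a3 s0 s1 s2 s3 s4 s5 p q r s u v w z := by
    obtain ⟨d1, d2, d3', d4', d5', g1, g2, g3, g4, g5⟩ := h.g
    have e1 := (chkPh_spec h.ph s0 s1 s2 s3 s4 s5).2.2.1
    have e2 := chkC_spec h.o4 g3 s0 s1 s2 s3 s4 s5 p q r s u v w z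
    simp only [blk]
    rw [e1]
    exact congrArg _ e2
  a4 s0 s1 s2 s3 s4 s5 p q r s u v w z := by
    simp only [blk]
    exact congrArg _ (h.o4.sym _ (d6_lt _ _ _ _ _ _) _ _ (d4_lt _ _ _ _) (d4_lt _ _ _ _))
  b1 s p q r t m u v w x n := by
    obtain ⟨ps, pa, pb, g1, g2, g3, g4⟩ := h.o2.ex
    have k := fun (p q r t m : Fin 3) =>
      all3_spec (all3_spec (all3_spec (all3_spec (all3_spec (all3_spec g1 s) p) q) r) t) m
    simp only [Bool.and_eq_true, Nat.beq_eq, Nat.blt_eq] at k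
    have i := fun (x y : ℕ) (hx : x < 135) (hy : y < 135) =>
      Nat.eq_of_beq_eq_true (allN_spec (allN_spec g2 hx) hy)
    simp only [blk]
    rw [(k p q r t m).2.2.1, (k u v w x n).2.2.1]
    exact i _ _ (k p q r t m).1 (k u v w x n).1
  b2 s p q r t m u v w x n := by
    obtain ⟨ps, pa, pb, g1, g2, g3, g4⟩ := h.o2.ex
    have k := fun (p q r t m : Fin 3) =>
      all3_spec (all3_spec (all3_spec (all3_spec (all3_spec (all3_spec g1 s) p) q) r) t) m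
    simp only [Bool.and_eq_true, Nat.beq_eq, Nat.blt_eq] at k
    simp only [blk]
    rw [(k p q r t m).2.1]
  b3 s p q r t m u v w x n := by
    obtain ⟨ps, pa, pb, g1, g2, g3, g4⟩ := h.o2.ex
    have k := fun (p q r t m : Fin 3) =>
      all3_spec (all3_spec (all3_spec (all3_spec (all3_spec (all3_spec g1 s) p) q) r) t) m
    simp only [Bool.and_eq_true, Nat.beq_eq, Nat.blt_eq] at k
    simp only [blk]
    exact Nat.eq_of_beq_eq_true (allN_spec (allN_spec h.o2.sy (k u v w x n).1) (k p q r t m).1)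
  c1 p q r u v w := by
    obtain ⟨pa, pb, g1⟩ := h.o0
    rw [chk0, Bool.and_eq_true] at g1
    have k := fun (p q r : Fin 3) => all3_spec (all3_spec (all3_spec g1.1 p) q) r
    simp only [Bool.and_eq_true, Nat.beq_eq, Nat.blt_eq] at k
    simp only [blk]
    rw [(k p q r).2.1]
  c2 p q r u v w := by
    obtain ⟨pa, pb, g1⟩ := h.o0
    rw [chk0, Bool.and_eq_true] at g1
    have k := fun (p q r : Fin 3) => all3_spec (all3_spec (all3_spec g1.1 p) q) r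
    simp only [Bool.and_eq_true, Nat.beq_eq, Nat.blt_eq] at k
    simp only [blk]
    rw [(k p q r).2.2.1]
  c3 p q r u v w := by
    obtain ⟨pa, pb, g1⟩ := h.o0
    rw [chk0, Bool.and_eq_true] at g1
    have k := fun (p q r : Fin 3) => all3_spec (all3_spec (all3_spec g1.1 p) q) r
    simp only [Bool.and_eq_true, Nat.beq_eq, Nat.blt_eq] at k
    have g2 := allN_spec (allN_spec g1.2 (k u v w).1) (k p q r).1
    rw [Bool.and_eq_true] at g2
    exact Nat.eq_of_beq_eq_true g2.1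
  d1 x y z u v w a b' c := by
    obtain ⟨pa, pb, g1, g2⟩ := h.ou
    have k := all3_spec (all3_spec (all3_spec (all3_spec (all3_spec (all3_spec g1 u) v) w) a) b') c
    simp only [Bool.and_eq_true, Nat.beq_eq, Nat.blt_eq] at k
    have l := allN_spec (all3_spec (all3_spec (all3_spec g2 x) y) z) k.1
    simp only [Bool.and_eq_true, Nat.beq_eq] at l
    exact l.1
  d2 x y z u v w a b' c := by
    obtain ⟨pa, pb, g1, g2⟩ := h.ou
    have k := all3_spec (all3_spec (all3_spec (all3_spec (all3_spec (all3_spec g1 u) v) w) a) b') c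
    simp only [Bool.and_eq_true, Nat.beq_eq, Nat.blt_eq] at k
    simp only [blk]
    rw [k.2.1]
  d3 x y z u v w a b' c := by
    obtain ⟨pa, pb, g1, g2⟩ := h.ou
    have k := all3_spec (all3_spec (all3_spec (all3_spec (all3_spec (all3_spec g1 u) v) w) a) b') c
    simp only [Bool.and_eq_true, Nat.beq_eq, Nat.blt_eq] at k
    simp only [blk]
    rw [k.2.2.1]

theorem Ok.colx {D : Dat} (h : Ok D) : ColSym (blk D) cs1 where
  fa s0 s1 s2 s3 s4 s5 p q r s u v w z := by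
    obtain ⟨d1, d2, d3', d4', d5', g1, g2, g3, g4, g5⟩ := h.g
    have e1 := (chkPh_spec h.ph s0 s1 s2 s3 s4 s5).2.2.2.1
    have e2 := chkC_spec h.o4 g4 s0 s1 s2 s3 s4 s5 p q r s u v w z
    simp only [s1_eq] at e2
    simp only [blk]
    rw [e1, e2]
  fb s p q r t m u v w x n := by
    obtain ⟨ps, pa, pb, g1, g2, g3, g4⟩ := h.o2.ex
    have k := fun (p q r t m : Fin 3) =>
      all3_spec (all3_spec (all3_spec (all3_spec (all3_spec (all3_spec g1 s) p) q) r) t) m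
    simp only [Bool.and_eq_true, Nat.beq_eq, Nat.blt_eq, s1_eq, s2_eq] at k
    have i := fun (x y : ℕ) (hx : x < 135) (hy : y < 135) =>
      Nat.eq_of_beq_eq_true (allN_spec (allN_spec (g3 s) hx) hy)
    simp only [blk]
    rw [(k p q r t m).2.2.2.1, (k u v w x n).2.2.2.1]
    exact i _ _ (k p q r t m).1 (k u v w x n).1
  fc p q r u v w := by
    obtain ⟨pa, pb, g1⟩ := h.o0
    rw [chk0, Bool.and_eq_true] at g1
    have k := fun (p q r : Fin 3) => all3_spec (all3_spec (all3_spec g1.1 p) q) r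
    simp only [Bool.and_eq_true, Nat.beq_eq, Nat.blt_eq, s1_eq, s2_eq] at k
    have g2 := allN_spec (allN_spec g1.2 (k p q r).1) (k u v w).1
    simp only [Bool.and_eq_true, Nat.beq_eq] at g2
    simp only [blk]
    rw [(k p q r).2.2.2.1, (k u v w).2.2.2.1]
    exact g2.2.1
  fd x y z u v w a b' c := by
    obtain ⟨pa, pb, g1, g2⟩ := h.ou
    have k := all3_spec (all3_spec (all3_spec (all3_spec (all3_spec (all3_spec g1 u) v) w) a) b') c
    simp only [Bool.and_eq_true, Nat.beq_eq, Nat.blt_eq, s1_eq, s2_eq] at k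
    have l := allN_spec (all3_spec (all3_spec (all3_spec g2 x) y) z) k.1
    simp only [Bool.and_eq_true, Nat.beq_eq, s1_eq, s2_eq] at l
    simp only [blk]
    rw [k.2.2.2.1]
    exact l.2.1

theorem Ok.coly {D : Dat} (h : Ok D) : ColSym (blk D) cs2 where
  fa s0 s1 s2 s3 s4 s5 p q r s u v w z := by
    obtain ⟨d1, d2, d3', d4', d5', g1, g2, g3, g4, g5⟩ := h.g
    have e1 := (chkPh_spec h.ph s0 s1 s2 s3 s4 s5).2.2.2.2
    have e2 := chkC_spec h.o4 g5 s0 s1 s2 s3 s4 s5 p q r s u v w z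
    simp only [s2_eq] at e2
    simp only [blk]
    rw [e1, e2]
  fb s p q r t m u v w x n := by
    obtain ⟨ps, pa, pb, g1, g2, g3, g4⟩ := h.o2.ex
    have k := fun (p q r t m : Fin 3) =>
      all3_spec (all3_spec (all3_spec (all3_spec (all3_spec (all3_spec g1 s) p) q) r) t) m
    simp only [Bool.and_eq_true, Nat.beq_eq, Nat.blt_eq, s1_eq, s2_eq] at k
    have i := fun (x y : ℕ) (hx : x < 135) (hy : y < 135) =>
      Nat.eq_of_beq_eq_true (allN_spec (allN_spec (g4 s) hx) hy)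
    simp only [blk]
    rw [(k p q r t m).2.2.2.2, (k u v w x n).2.2.2.2]
    exact i _ _ (k p q r t m).1 (k u v w x n).1
  fc p q r u v w := by
    obtain ⟨pa, pb, g1⟩ := h.o0
    rw [chk0, Bool.and_eq_true] at g1
    have k := fun (p q r : Fin 3) => all3_spec (all3_spec (all3_spec g1.1 p) q) r
    simp only [Bool.and_eq_true, Nat.beq_eq, Nat.blt_eq, s1_eq, s2_eq] at k
    have g2 := allN_spec (allN_spec g1.2 (k p q r).1) (k u v w).1
    simp only [Bool.and_eq_true, Nat.beq_eq] at g2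
    simp only [blk]
    rw [(k p q r).2.2.2.2, (k u v w).2.2.2.2]
    exact g2.2.2
  fd x y z u v w a b' c := by
    obtain ⟨pa, pb, g1, g2⟩ := h.ou
    have k := all3_spec (all3_spec (all3_spec (all3_spec (all3_spec (all3_spec g1 u) v) w) a) b') c
    simp only [Bool.and_eq_true, Nat.beq_eq, Nat.blt_eq, s1_eq, s2_eq] at k
    have l := allN_spec (all3_spec (all3_spec (all3_spec g2 x) y) z) k.1
    simp only [Bool.and_eq_true, Nat.beq_eq, s1_eq, s2_eq] at l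
    simp only [blk]
    rw [k.2.2.2.2]
    exact l.2.2

theorem Ok.symA {D : Dat} (h : Ok D) : SymA (blk D) := ⟨h.sym, h.colx, h.coly⟩

end Pool.Agent.C44.S6
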