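import Pool.Agent.C44.SixT
import Pool.Agent.C44.SixQ0
import Pool.Agent.C44.SixQ1
import Pool.Agent.C44.SixQ2

/-!
# The certificate on six points
-/

set_option autoImplicit false
set_option maxHeartbeats 4000000
set_option maxRecDepth 100000

namespace Pool.Agent.C44.S6

/-- the certificate -/
noncomputable def DD : Dat where
  ca := T_ca
  ty := T_ty
  rel := T_rel
  iv := T_iv
  q4 t x y := lk (sel (Nat.div t 9) (sel (Nat.mod (Nat.div t 3) 3) (sel (Nat.mod t 3) (q4r_0 x) (q4r_1 x) (q4r_2 x)) (sel (Nat.mod t 3) (q4r_3 x) (q4r_4 x) (q4r_5 x)) (sel (Nat.mod t 3) (q4r_6 x) (q4r_7 x) (q4r_8 x))) (sel (Nat.mod (Nat.div t 3) 3) (sel (Nat.mod t 3) (q4r_9 x) (q4r_10 x) (q4r_11 x)) (sel (Nat.mod t 3) (q4r_12 x) (q4r_13 x) (q4r_14 x)) (sel (Nat.mod t 3) (q4r_14 x) (q4r_14 x) (q4r_14 x))) 0) (Nat.add (Nat.mul 81 (Nat.mod x 9)) y)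
  w0 := 805306368
  w1 := 268435456
  cl i := lb T_cl i
  q2 x y := lk (q2r (Nat.div x 5)) (Nat.add (Nat.mul 135 (Nat.mod x 5)) y)
  c0 i := lb T_c0 i
  q0 x y := lk T_q0 (Nat.add (Nat.mul 10 x) y)
  uc i := lb T_uc i
  nu := 165
  tw x c := lk (twr x) c

def OFF : ℕ := 70368744177664
def CAP : ℕ := 9147944356347679

end Pool.Agent.C44.S6
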