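import Pool.Agent.C44.SixU

/-!
# Positive semidefinite tables: packed columns, residual bounded by a diagonally dominant matrix
-/

set_option autoImplicit false
set_option maxHeartbeats 4000000

open Finset

namespace Pool.Agent.C44.S6

/-- 8 bit field -/
def lb (T i : ℕ) : ℕ := Nat.land (Nat.shiftRight T (Nat.mul 8 i)) 255
/-- 64 bit field -/
def lq (T i : ℕ) : ℕ := Nat.land (Nat.shiftRight T (Nat.mul 64 i)) 18446744073709551615

/-- for all `i < n` -/
noncomputable def allN (n : ℕ) (f : ℕ → Bool) : Bool := Nat.rec true (fun i ih => and (f i) ih) n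

theorem allN_spec {n : ℕ} {f : ℕ → Bool} (h : allN n f = true) {i : ℕ} (hi : i < n) : f i = true := by
  induction n with
  | zero => omega
  | succ n ih =>
    have h' : (f n && allN n f) = true := h
    rw [Bool.and_eq_true] at h'
    rcases Nat.lt_succ_iff_lt_or_eq.1 hi with h1 | h1
    · exact ih h'.2 h1
    · rw [h1]; exact h'.1

theorem lq_eq (T i : ℕ) : lq T i = T / (2 ^ 64) ^ i % 2 ^ 64 := by
  unfold lq
  change Nat.land _ (2 ^ 64 - 1) = _
  have h1 : Nat.land (T.shiftRight (Nat.mul 64 i)) (2 ^ 64 - 1) = (T >>> (64 * i)) &&& (2 ^ 64 - 1) := rfl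
  rw [h1, Nat.and_two_pow_sub_one_eq_mod, Nat.shiftRight_eq_div_pow, pow_mul]

/-- weighted sum of the packed columns -/
noncomputable def row (g : ℕ) : List ℕ → ℕ := List.rec 0 (fun C _ ih => Nat.add (Nat.mul (lq C g) C) ih)

/-- sum of the packed columns -/
noncomputable def colsum : List ℕ → ℕ := List.rec 0 (fun C _ ih => Nat.add C ih)

/-- all elements of a list -/
noncomputable def allL (f : ℕ → Bool) : List ℕ → Bool := List.rec true (fun C _ ih => and (f C) ih)

theorem allL_spec {f : ℕ → Bool} {l : List ℕ} (h : allL f l = true) : ∀ C ∈ l, f C = true := by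
  induction l with
  | nil => intro C hC; simp at hC
  | cons a l ih =>
    have h' : (f a && allL f l) = true := h
    rw [Bool.and_eq_true] at h'
    intro C hC
    rcases List.mem_cons.1 hC with h1 | h1
    · rw [h1]; exact h'.1
    · exact ih h'.2 C h1

/-- all digits of the packed columns are below `2 ^ 27` -/
noncomputable def okC (n : ℕ) (L : List ℕ) : Bool :=
  and (Nat.ble L.length 200)
    (allL (fun C => and (Nat.ble (Nat.add C 1) (Nat.pow 18446744073709551616 n))
      (allN n fun h => Nat.ble (lq C h) 134217727)) L)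

theorem okC_spec {n : ℕ} {L : List ℕ} (h : okC n L = true) :
    L.length ≤ 200 ∧ ∀ C ∈ L, ∀ j, C / (2 ^ 64) ^ j % 2 ^ 64 < 2 ^ 27 := by
  rw [okC, Bool.and_eq_true] at h
  refine ⟨Nat.le_of_ble_eq_true h.1, fun C hC j => ?_⟩
  have h2 := allL_spec h.2 C hC
  rw [Bool.and_eq_true] at h2
  have h3 : C + 1 ≤ (18446744073709551616) ^ n := Nat.le_of_ble_eq_true h2.1
  by_cases hj : j < n
  · have h4 := Nat.le_of_ble_eq_true (allN_spec h2.2 hj)
    rw [lq_eq] at h4
    omega
  · have h5 : C < (2 ^ 64) ^ j := by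
      have h6 : (2 ^ 64 : ℕ) ^ n ≤ (2 ^ 64) ^ j := Nat.pow_le_pow_right (by norm_num) (by omega)
      have h7 : (18446744073709551616 : ℕ) = 2 ^ 64 := by norm_num
      rw [h7] at h3
      omega
    rw [Nat.div_eq_of_lt h5]
    norm_num

/-- digits of a linear combination without carries -/
theorem digits_lin {L : List ℕ} (hL : L.length ≤ 200)
    (hd : ∀ C ∈ L, ∀ j, C / (2 ^ 64) ^ j % 2 ^ 64 < 2 ^ 27) (w : ℕ → ℕ) (hw : ∀ C ∈ L, w C < 2 ^ 27) (j : ℕ) :
    (L.map fun C => w C * C).sum / (2 ^ 64) ^ j = (L.map fun C => w C * (C / (2 ^ 64) ^ j)).sum := by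
  induction j with
  | zero => simp
  | succ j ih =>
    rw [pow_succ, ← Nat.div_div_eq_div_mul, ih]
    have h1 : (L.map fun C => w C * (C / (2 ^ 64) ^ j)).sum =
        2 ^ 64 * (L.map fun C => w C * (C / ((2 ^ 64) ^ j * 2 ^ 64))).sum +
          (L.map fun C => w C * (C / (2 ^ 64) ^ j % 2 ^ 64)).sum := by
      rw [← List.sum_map_mul_left, ← List.sum_map_add]
      congr 1
      refine List.map_congr_left fun C _ => ?_
      have := Nat.div_add_mod (C / (2 ^ 64) ^ j) (2 ^ 64)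
      rw [Nat.div_div_eq_div_mul] at this
      calc w C * (C / (2 ^ 64) ^ j) = w C * (2 ^ 64 * (C / ((2 ^ 64) ^ j * 2 ^ 64)) + C / (2 ^ 64) ^ j % 2 ^ 64) := by
            rw [this]
        _ = _ := by ring
    have h2 : (L.map fun C => w C * (C / (2 ^ 64) ^ j % 2 ^ 64)).sum < 2 ^ 64 := by
      have h3 : (L.map fun C => w C * (C / (2 ^ 64) ^ j % 2 ^ 64)).sum ≤ (L.map fun _ => 2 ^ 54).sum := by
        refine List.sum_le_sum fun C hC => ?_
        have a1 := hd C hC j
        have a2 := hw C hC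
        calc w C * (C / (2 ^ 64) ^ j % 2 ^ 64) ≤ 2 ^ 27 * 2 ^ 27 := Nat.mul_le_mul a2.le a1.le
          _ = 2 ^ 54 := by norm_num
      rw [List.map_const', List.sum_replicate, smul_eq_mul] at h3
      have : L.length * 2 ^ 54 ≤ 200 * 2 ^ 54 := Nat.mul_le_mul_right _ hL
      omega
    rw [h1, Nat.mul_add_div (by norm_num), Nat.div_eq_of_lt h2, add_zero]

theorem row_eq (g : ℕ) (L : List ℕ) : row g L = (L.map fun C => lq C g * C).sum := by
  induction L with
  | nil => rfl
  | cons a l ih =>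
    have : row g (a :: l) = lq a g * a + row g l := rfl
    rw [this, ih, List.map_cons, List.sum_cons]

theorem colsum_eq (L : List ℕ) : colsum L = (L.map fun C => 1 * C).sum := by
  induction L with
  | nil => rfl
  | cons a l ih =>
    have : colsum (a :: l) = a + colsum l := rfl
    rw [this, ih, List.map_cons, List.sum_cons, one_mul]

theorem lin_digit {L : List ℕ} (hL : L.length ≤ 200)
    (hd : ∀ C ∈ L, ∀ j, C / (2 ^ 64) ^ j % 2 ^ 64 < 2 ^ 27) (w : ℕ → ℕ) (hw : ∀ C ∈ L, w C < 2 ^ 27) (j : ℕ) :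
    lq (L.map fun C => w C * C).sum j = (L.map fun C => w C * lq C j).sum := by
  rw [lq_eq, digits_lin hL hd w hw]
  have h1 : (L.map fun C => w C * (C / (2 ^ 64) ^ j)).sum =
      2 ^ 64 * (L.map fun C => w C * (C / (2 ^ 64) ^ j / 2 ^ 64)).sum +
        (L.map fun C => w C * lq C j).sum := by
    rw [← List.sum_map_mul_left, ← List.sum_map_add]
    congr 1
    refine List.map_congr_left fun C _ => ?_
    have := Nat.div_add_mod (C / (2 ^ 64) ^ j) (2 ^ 64)
    rw [lq_eq]
    calc w C * (C / (2 ^ 64) ^ j) = w C * (2 ^ 64 * (C / (2 ^ 64) ^ j / 2 ^ 64) + C / (2 ^ 64) ^ j % 2 ^ 64) := by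
          rw [this]
      _ = _ := by ring
  have h2 : (L.map fun C => w C * lq C j).sum < 2 ^ 64 := by
    have h3 : (L.map fun C => w C * lq C j).sum ≤ (L.map fun _ => 2 ^ 54).sum := by
      refine List.sum_le_sum fun C hC => ?_
      have a1 := hd C hC j
      have a2 := hw C hC
      rw [lq_eq]
      calc w C * (C / (2 ^ 64) ^ j % 2 ^ 64) ≤ 2 ^ 27 * 2 ^ 27 := Nat.mul_le_mul a2.le a1.le
        _ = 2 ^ 54 := by norm_num
    rw [List.map_const', List.sum_replicate, smul_eq_mul] at h3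
    have : L.length * 2 ^ 54 ≤ 200 * 2 ^ 54 := Nat.mul_le_mul_right _ hL
    omega
  rw [h1, Nat.mul_add_mod, Nat.mod_eq_of_lt h2]

/-- entry check -/
def chkE (s Q OFF o r Ag Ah G ρ : ℕ) (d : Bool) : Bool :=
  cond d
    (Nat.ble (Nat.add (Nat.add (Nat.mul s OFF) (Nat.mul (Nat.mul o o) r)) (Nat.add G ρ))
      (Nat.add (Nat.mul s Q) (Nat.mul o (Nat.add Ag Ah))))
    (and (Nat.ble (Nat.add (Nat.add (Nat.mul s OFF) (Nat.mul (Nat.mul o o) r)) G)
        (Nat.add (Nat.add (Nat.mul s Q) (Nat.mul o (Nat.add Ag Ah))) ρ))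
      (Nat.ble (Nat.add (Nat.mul s Q) (Nat.mul o (Nat.add Ag Ah)))
        (Nat.add (Nat.add (Nat.mul s OFF) (Nat.mul (Nat.mul o o) r)) (Nat.add G ρ))))

/-- the whole check; `Q` is the table with offset `OFF` -/
noncomputable def chkP (n : ℕ) (Q : ℕ → ℕ → ℕ) (OFF : ℕ) (L : List ℕ) (s o ρ : ℕ) : Bool :=
  and (okC n L)
    (allN n fun g => forceB (row g L) fun R => forceB (colsum L) fun S =>
      allN n fun h => cond (Nat.beq g h)
        (chkE s (Q g h) OFF o L.length (lq S g) (lq S h) (lq R h) (Nat.mul n ρ) true)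
        (chkE s (Q g h) OFF o L.length (lq S g) (lq S h) (lq R h) ρ false))
where
  forceB (n : ℕ) (F : ℕ → Bool) : Bool := Nat.rec (F 0) (fun m _ => F (Nat.succ m)) n

/-- Gram matrix of the columns -/
noncomputable def gr (o : ℕ) (L : List ℕ) (g h : ℕ) : ℤ :=
  (L.map fun C => ((lq C g : ℤ) - o) * ((lq C h : ℤ) - o)).sum

theorem forceB_eq (n : ℕ) (F : ℕ → Bool) : chkP.forceB n F = F n := by cases n <;> rfl

theorem chkP_okC {n : ℕ} {Q : ℕ → ℕ → ℕ} {OFF : ℕ} {L : List ℕ} {s o ρ : ℕ}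
    (h : chkP n Q OFF L s o ρ = true) : okC n L = true := by
  rw [chkP, Bool.and_eq_true] at h
  exact h.1

theorem gr_eq {n : ℕ} {L : List ℕ} (hok : okC n L = true) (o g h' : ℕ) :
    gr o L g h' = (lq (row g L) h' : ℤ) - o * (lq (colsum L) g + lq (colsum L) h') + o ^ 2 * L.length := by
  obtain ⟨hL, hd⟩ := okC_spec hok
  have h1 : lq (row g L) h' = (L.map fun C => lq C g * lq C h').sum := by
    rw [row_eq]
    exact lin_digit hL hd (fun C => lq C g) (fun C hC => by rw [lq_eq]; exact hd C hC g) h'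
  have h2 : ∀ j, lq (colsum L) j = (L.map fun C => lq C j).sum := by
    intro j
    rw [colsum_eq, lin_digit hL hd (fun _ => 1) (fun _ _ => by norm_num) j]
    simp only [one_mul]
  rw [h1, h2, h2, gr]
  clear h1 h2 hL hd hok
  induction L with
  | nil => simp
  | cons a l ih =>
    simp only [List.map_cons, List.sum_cons, List.length_cons]
    rw [ih]
    push_cast
    ring

theorem chkP_spec {n : ℕ} {Q : ℕ → ℕ → ℕ} {OFF : ℕ} {L : List ℕ} {s o ρ : ℕ}
    (h : chkP n Q OFF L s o ρ = true) {g h' : ℕ} (hg : g < n) (hh : h' < n) :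
    (if g = h' then ((n : ℤ) + 1) * ρ else 0) - ρ ≤ s * ((Q g h' : ℤ) - OFF) - gr o L g h' := by
  have hok := chkP_okC h
  rw [chkP, Bool.and_eq_true] at h
  have h2 := allN_spec h.2 hg
  rw [forceB_eq, forceB_eq] at h2
  have h3 := allN_spec h2 hh
  rw [gr_eq hok]
  split_ifs with hgh
  · subst hgh
    rw [Nat.beq_refl, cond_true, chkE, cond_true] at h3
    have h4 := Nat.le_of_ble_eq_true h3
    simp only [Nat.add_eq, Nat.mul_eq] at h4
    have h5 : (s : ℤ) * OFF + o * o * L.length + (lq (row g L) g + n * ρ) ≤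
        s * Q g g + o * (lq (colsum L) g + lq (colsum L) g) := by exact_mod_cast h4
    linarith
  · have hb : Nat.beq g h' = false := by
      cases hx : Nat.beq g h' with
      | true => exact absurd (Nat.eq_of_beq_eq_true hx) hgh
      | false => rfl
    rw [hb, cond_false, chkE, cond_false, Bool.and_eq_true] at h3
    have h4 := Nat.le_of_ble_eq_true h3.1
    simp only [Nat.add_eq, Nat.mul_eq] at h4
    have h5 : (s : ℤ) * OFF + o * o * L.length + lq (row g L) h' ≤
        s * Q g h' + o * (lq (colsum L) g + lq (colsum L) h') + ρ := by exact_mod_cast h4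
    linarith

/-- positivity -/
theorem psd_nonneg {P : Type*} {n : ℕ} {Q : ℕ → ℕ → ℕ} {OFF : ℕ} {L : List ℕ} {s o ρ : ℕ}
    (h : chkP n Q OFF L s o ρ = true) (hs : 0 < s) (t : Finset P) (f : P → ℕ) (hf : ∀ p, f p < n) :
    0 ≤ ∑ p ∈ t, ∑ q ∈ t, ((Q (f p) (f q) : ℤ) - OFF) := by
  have h1 : ∀ p q, (if f p = f q then ((n : ℤ) + 1) * ρ else 0) - ρ + gr o L (f p) (f q) ≤
      s * ((Q (f p) (f q) : ℤ) - OFF) := fun p q => by
    have := chkP_spec h (hf p) (hf q)
    linarith
  have h2 : 0 ≤ ∑ p ∈ t, ∑ q ∈ t, gr o L (f p) (f q) := by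
    have : ∑ p ∈ t, ∑ q ∈ t, gr o L (f p) (f q) =
        (L.map fun C => (∑ p ∈ t, ((lq C (f p) : ℤ) - o)) ^ 2).sum := by
      clear h1 h
      induction L with
      | nil => simp [gr]
      | cons a l ih =>
        simp only [gr, List.map_cons, List.sum_cons, Finset.sum_add_distrib] at ih ⊢
        rw [ih, pow_two, Finset.sum_mul_sum]
    rw [this]
    refine List.sum_nonneg ?_
    intro x hx
    obtain ⟨C, _, rfl⟩ := List.mem_map.1 hx
    exact sq_nonneg _
  have h3 : ((t.card : ℤ)) ^ 2 ≤ n * ∑ p ∈ t, ∑ q ∈ t, (if f p = f q then (1 : ℤ) else 0) := by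
    have e1 : ∑ p ∈ t, ∑ q ∈ t, (if f p = f q then (1 : ℤ) else 0) =
        ∑ g ∈ range n, (∑ p ∈ t, if f p = g then (1 : ℤ) else 0) ^ 2 := by
      have e2 : ∀ p q, (if f p = f q then (1 : ℤ) else 0) =
          ∑ g ∈ range n, (if f p = g then (1 : ℤ) else 0) * (if f q = g then (1 : ℤ) else 0) := by
        intro p q
        rw [Finset.sum_eq_single (f p)]
        · rw [if_pos rfl, one_mul]
          by_cases hpq : f p = f q
          · rw [if_pos hpq, if_pos hpq.symm]
          · rw [if_neg hpq, if_neg fun hh => hpq hh.symm]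
        · intro g _ hg
          rw [if_neg fun hh => hg hh.symm, zero_mul]
        · intro hg
          exact absurd (Finset.mem_range.2 (hf p)) hg
      simp only [e2]
      rw [Finset.sum_congr rfl fun p _ => Finset.sum_comm, Finset.sum_comm]
      refine Finset.sum_congr rfl fun g _ => ?_
      rw [pow_two, Finset.sum_mul_sum]
    have e3 : (t.card : ℤ) = ∑ g ∈ range n, ∑ p ∈ t, (if f p = g then (1 : ℤ) else 0) := by
      rw [Finset.sum_comm, Finset.card_eq_sum_ones]
      push_cast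
      refine Finset.sum_congr rfl fun p _ => ?_
      rw [Finset.sum_eq_single (f p)]
      · rw [if_pos rfl]
      · intro g _ hg
        rw [if_neg fun hh => hg hh.symm]
      · intro hg
        exact absurd (Finset.mem_range.2 (hf p)) hg
    rw [e1, e3]
    have := sq_sum_le_card_mul_sum_sq (s := range n) (f := fun g => ∑ p ∈ t, (if f p = g then (1 : ℤ) else 0))
    rwa [Finset.card_range] at this
  have h4 : 0 ≤ ∑ p ∈ t, ∑ q ∈ t, (if f p = f q then (1 : ℤ) else 0) :=
    Finset.sum_nonneg fun p _ => Finset.sum_nonneg fun q _ => by split_ifs <;> norm_num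
  have h5 : ∑ p ∈ t, ∑ q ∈ t, ((if f p = f q then ((n : ℤ) + 1) * ρ else 0) - ρ + gr o L (f p) (f q)) ≤
      ∑ p ∈ t, ∑ q ∈ t, (s * ((Q (f p) (f q) : ℤ) - OFF)) :=
    Finset.sum_le_sum fun p _ => Finset.sum_le_sum fun q _ => h1 p q
  have h6 : ∑ p ∈ t, ∑ q ∈ t, ((if f p = f q then ((n : ℤ) + 1) * ρ else 0) - ρ + gr o L (f p) (f q)) =
      ((n : ℤ) + 1) * ρ * (∑ p ∈ t, ∑ q ∈ t, (if f p = f q then (1 : ℤ) else 0)) - ρ * (t.card : ℤ) ^ 2 +
        ∑ p ∈ t, ∑ q ∈ t, gr o L (f p) (f q) := by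
    simp only [Finset.sum_add_distrib, Finset.sum_sub_distrib, Finset.mul_sum, mul_ite, mul_one, mul_zero,
      Finset.sum_const, nsmul_eq_mul]
    ring
  have h7 : ∑ p ∈ t, ∑ q ∈ t, (s * ((Q (f p) (f q) : ℤ) - OFF)) =
      s * ∑ p ∈ t, ∑ q ∈ t, ((Q (f p) (f q) : ℤ) - OFF) := by
    simp only [Finset.mul_sum]
  rw [h6, h7] at h5
  have hρ : (0 : ℤ) ≤ ρ := Int.natCast_nonneg _
  have h8 : 0 ≤ s * ∑ p ∈ t, ∑ q ∈ t, ((Q (f p) (f q) : ℤ) - OFF) := by
    have a1 : ρ * (t.card : ℤ) ^ 2 ≤ ρ * (n * ∑ p ∈ t, ∑ q ∈ t, (if f p = f q then (1 : ℤ) else 0)) :=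
      mul_le_mul_of_nonneg_left h3 hρ
    have a2 : 0 ≤ (ρ : ℤ) * ∑ p ∈ t, ∑ q ∈ t, (if f p = f q then (1 : ℤ) else 0) := mul_nonneg hρ h4
    nlinarith
  have hs' : (0 : ℤ) < s := by exact_mod_cast hs
  exact nonneg_of_mul_nonneg_right h8 hs'

end Pool.Agent.C44.S6
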