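import Pool.Agent.C44.SixS

/-!
# Invariance of the symmetrised sum under adjacent transpositions
-/

set_option autoImplicit false
set_option maxHeartbeats 4000000
set_option maxRecDepth 100000

open Finset

namespace Pool.Agent.C44.S6

theorem map_sum_eq (pl : List (Fin 6 → Fin 6)) (F : (Fin 6 → Fin 6) → ℕ) :
    (pl.map F).sum = ∑ i ∈ Finset.range pl.length, F (pl.getD i id) := by
  induction pl with
  | nil => rfl
  | cons a l ih =>
    rw [List.map_cons, List.sum_cons, ih, List.length_cons, Finset.sum_range_succ', add_comm]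
    rfl

/-- index of the image of a placement -/
def ix (W : List (ℕ × ℕ)) (i : ℕ) : ℕ := (W.getD i (0, 0)).1

/-- the map on placements is an involution -/
def inv (n : ℕ) (W : List (ℕ × ℕ)) : Bool := (List.range n).all fun i => (ix W i).blt n && Nat.beq (ix W (ix W i)) i

theorem sum_inv (f : (Fin 6 → Fin 6 → Fin 3) → ℕ) (pl gs : List (Fin 6 → Fin 6)) (τ : Fin 6 → Fin 6)
    (W : List (ℕ × ℕ)) (hlen : W.length = pl.length)
    (hW : ∀ i < pl.length, ∀ k, τ (pl.getD i id k) = pl.getD (ix W i) id (gs.getD (W.getD i (0, 0)).2 id k))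
    (hP : inv pl.length W = true)
    (hg : ∀ g ∈ gs, ∀ K, SymK K → f (res K g) = f K) (K : Fin 6 → Fin 6 → Fin 3) (hK : SymK K) :
    (pl.map fun p => f (res (res K τ) p)).sum = (pl.map fun p => f (res K p)).sum := by
  rw [map_sum_eq, map_sum_eq]
  have hP' : ∀ i < pl.length, ix W i < pl.length ∧ ix W (ix W i) = i := by
    intro i hi
    have := List.all_eq_true.1 hP i (List.mem_range.2 hi)
    rw [Bool.and_eq_true, Nat.beq_eq] at this
    exact ⟨by simpa [Nat.blt_eq] using this.1, this.2⟩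
  refine Finset.sum_nbij' (ix W) (ix W) ?_ ?_ ?_ ?_ ?_
  · intro i hi
    exact Finset.mem_range.2 (hP' i (Finset.mem_range.1 hi)).1
  · intro i hi
    exact Finset.mem_range.2 (hP' i (Finset.mem_range.1 hi)).1
  · intro i hi
    exact (hP' i (Finset.mem_range.1 hi)).2
  · intro i hi
    exact (hP' i (Finset.mem_range.1 hi)).2
  · intro i hi
    have hi' := Finset.mem_range.1 hi
    have e : res (res K τ) (pl.getD i id) = res (res K (pl.getD (ix W i) id)) (gs.getD (W.getD i (0, 0)).2 id) := by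
      funext a c
      simp only [res]
      rw [hW i hi' a, hW i hi' c]
    rw [e]
    by_cases hh : (W.getD i (0, 0)).2 < gs.length
    · refine hg _ ?_ _ (hK.res _)
      rw [List.getD_eq_getElem _ _ hh]
      exact List.getElem_mem hh
    · have : gs.getD (W.getD i (0, 0)).2 id = id := by
        rw [List.getD_eq_default]
        omega
      rw [this]
      rfl

/-- generators -/
def gs4 : List (Fin 6 → Fin 6) := [id, sw 0 1, sw 1 2, sw 2 3, sw 4 5]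
def gs2 : List (Fin 6 → Fin 6) := [id, sw 0 1, sw 2 3, sw 4 5, swp]
def gs0 : List (Fin 6 → Fin 6) := [id, sw 0 1, sw 1 2, sw 3 4, sw 4 5, swt]
def gsw : List (Fin 6 → Fin 6) := [id, sw 1 2, sw 3 4, sw 4 5]

def w4_0 : List (ℕ × ℕ) := [(0, 1), (1, 1), (2, 1), (3, 1), (4, 1), (5, 1), (10, 0), (11, 0), (12, 0), (13, 0), (6, 0), (7, 0), (8, 0), (9, 0), (14, 4)]
def w4_1 : List (ℕ × ℕ) := [(0, 2), (1, 2), (2, 2), (6, 0), (7, 0), (8, 0), (3, 0), (4, 0), (5, 0), (9, 4), (10, 1), (11, 1), (12, 1), (14, 0), (13, 0)]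
def w4_2 : List (ℕ × ℕ) := [(0, 3), (3, 0), (4, 0), (1, 0), (2, 0), (5, 4), (6, 2), (7, 2), (9, 0), (8, 0), (10, 2), (11, 2), (13, 0), (12, 0), (14, 1)]
def w4_3 : List (ℕ × ℕ) := [(1, 0), (0, 0), (2, 4), (3, 3), (5, 0), (4, 0), (6, 3), (8, 0), (7, 0), (9, 2), (10, 3), (12, 0), (11, 0), (13, 2), (14, 2)]
def w4_4 : List (ℕ × ℕ) := [(0, 4), (2, 0), (1, 0), (4, 0), (3, 0), (5, 3), (7, 0), (6, 0), (8, 3), (9, 3), (11, 0), (10, 0), (12, 3), (13, 3), (14, 3)]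
def w2_0 : List (ℕ × ℕ) := [(0, 1), (1, 1), (2, 1), (15, 0), (16, 0), (17, 0), (18, 0), (19, 0), (20, 0), (21, 0), (22, 0), (23, 0), (24, 0), (25, 0), (26, 0), (3, 0), (4, 0), (5, 0), (6, 0), (7, 0), (8, 0), (9, 0), (10, 0), (11, 0), (12, 0), (13, 0), (14, 0), (27, 2), (29, 4), (28, 4), (30, 2), (32, 4), (31, 4), (33, 2), (35, 4), (34, 4), (36, 2), (38, 4), (37, 4), (39, 2), (41, 4), (40, 4), (42, 2), (44, 4), (43, 4)]
def w2_1 : List (ℕ × ℕ) := [(3, 0), (4, 0), (5, 0), (0, 0), (1, 0), (2, 0), (6, 2), (8, 4), (7, 4), (9, 2), (11, 4), (10, 4), (12, 2), (14, 4), (13, 4), (15, 1), (16, 1), (17, 1), (27, 0), (28, 0), (29, 0), (30, 0), (31, 0), (32, 0), (33, 0), (34, 0), (35, 0), (18, 0), (19, 0), (20, 0), (21, 0), (22, 0), (23, 0), (24, 0), (25, 0), (26, 0), (37, 0), (36, 0), (38, 3), (40, 0), (39, 0), (41, 3), (43, 0), (42, 0), (44, 3)]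
def w2_2 : List (ℕ × ℕ) := [(0, 2), (2, 4), (1, 4), (6, 0), (7, 0), (8, 0), (3, 0), (4, 0), (5, 0), (10, 0), (9, 0), (11, 3), (13, 0), (12, 0), (14, 3), (18, 0), (19, 0), (20, 0), (15, 0), (16, 0), (17, 0), (22, 0), (21, 0), (23, 3), (25, 0), (24, 0), (26, 3), (27, 1), (28, 1), (29, 1), (36, 0), (37, 0), (38, 0), (39, 0), (40, 0), (41, 0), (30, 0), (31, 0), (32, 0), (33, 0), (34, 0), (35, 0), (42, 3), (44, 0), (43, 0)]
def w2_3 : List (ℕ × ℕ) := [(1, 0), (0, 0), (2, 3), (4, 0), (3, 0), (5, 3), (9, 0), (10, 0), (11, 0), (6, 0), (7, 0), (8, 0), (12, 3), (14, 0), (13, 0), (16, 0), (15, 0), (17, 3), (21, 0), (22, 0), (23, 0), (18, 0), (19, 0), (20, 0), (24, 3), (26, 0), (25, 0), (30, 0), (31, 0), (32, 0), (27, 0), (28, 0), (29, 0), (33, 3), (35, 0), (34, 0), (36, 1), (37, 1), (38, 1), (42, 0), (43, 0), (44, 0), (39, 0), (40, 0), (41, 0)]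
def w2_4 : List (ℕ × ℕ) := [(0, 3), (2, 0), (1, 0), (3, 3), (5, 0), (4, 0), (6, 3), (8, 0), (7, 0), (12, 0), (13, 0), (14, 0), (9, 0), (10, 0), (11, 0), (15, 3), (17, 0), (16, 0), (18, 3), (20, 0), (19, 0), (24, 0), (25, 0), (26, 0), (21, 0), (22, 0), (23, 0), (27, 3), (29, 0), (28, 0), (33, 0), (34, 0), (35, 0), (30, 0), (31, 0), (32, 0), (39, 0), (40, 0), (41, 0), (36, 0), (37, 0), (38, 0), (42, 1), (43, 1), (44, 1)]
def w0_0 : List (ℕ × ℕ) := [(0, 1), (1, 1), (2, 1), (3, 1), (9, 5), (8, 5), (7, 5), (6, 5), (5, 5), (4, 5)]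
def w0_1 : List (ℕ × ℕ) := [(0, 2), (4, 0), (5, 0), (6, 0), (1, 0), (2, 0), (3, 0), (7, 3), (8, 3), (9, 3)]
def w0_2 : List (ℕ × ℕ) := [(1, 0), (0, 0), (2, 3), (3, 3), (4, 2), (7, 0), (8, 0), (5, 0), (6, 0), (9, 4)]
def w0_3 : List (ℕ × ℕ) := [(0, 3), (2, 0), (1, 0), (3, 4), (5, 0), (4, 0), (6, 4), (7, 2), (9, 0), (8, 0)]
def w0_4 : List (ℕ × ℕ) := [(0, 4), (1, 4), (3, 0), (2, 0), (4, 4), (6, 0), (5, 0), (8, 0), (7, 0), (9, 2)]
def ww_0 : List (ℕ × ℕ) := [(10, 0), (11, 0), (12, 0), (13, 0), (14, 0), (15, 0), (16, 0), (17, 0), (18, 0), (19, 0), (0, 0), (1, 0), (2, 0), (3, 0), (4, 0), (5, 0), (6, 0), (7, 0), (8, 0), (9, 0), (20, 1), (24, 0), (25, 0), (26, 0), (21, 0), (22, 0), (23, 0), (27, 2), (28, 2), (29, 2), (30, 1), (34, 0), (35, 0), (36, 0), (31, 0), (32, 0), (33, 0), (37, 2), (38, 2), (39, 2), (40, 1), (44, 0), (45, 0), (46, 0), (41, 0), (42, 0), (43, 0), (47, 2), (48, 2), (49,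 2), (50, 1), (54, 0), (55, 0), (56, 0), (51, 0), (52, 0), (53, 0), (57, 2), (58, 2), (59, 2)]
def ww_1 : List (ℕ × ℕ) := [(0, 1), (4, 0), (5, 0), (6, 0), (1, 0), (2, 0), (3, 0), (7, 2), (8, 2), (9, 2), (20, 0), (21, 0), (22, 0), (23, 0), (24, 0), (25, 0), (26, 0), (27, 0), (28, 0), (29, 0), (10, 0), (11, 0), (12, 0), (13, 0), (14, 0), (15, 0), (16, 0), (17, 0), (18, 0), (19, 0), (31, 0), (30, 0), (32, 2), (33, 2), (34, 1), (37, 0), (38, 0), (35, 0), (36, 0), (39, 3), (41, 0), (40, 0), (42, 2), (43, 2), (44, 1), (47, 0), (48, 0), (45, 0), (46, 0), (49, 3), (51, 0), (50, 0), (52, 2), (53, 2), (54, 1), (57, 0), (58, 0), (55, 0), (56, 0), (59, 3)]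
def ww_2 : List (ℕ × ℕ) := [(1, 0), (0, 0), (2, 2), (3, 2), (4, 1), (7, 0), (8, 0), (5, 0), (6, 0), (9, 3), (11, 0), (10, 0), (12, 2), (13, 2), (14, 1), (17, 0), (18, 0), (15, 0), (16, 0), (19, 3), (30, 0), (31, 0), (32, 0), (33, 0), (34, 0), (35, 0), (36, 0), (37, 0), (38, 0), (39, 0), (20, 0), (21, 0), (22, 0), (23, 0), (24, 0), (25, 0), (26, 0), (27, 0), (28, 0), (29, 0), (40, 2), (42, 0), (41, 0), (43, 3), (45, 0), (44, 0), (46, 3), (47, 1), (49, 0), (48, 0), (50, 2), (52, 0), (51, 0), (53, 3), (55, 0), (54, 0), (56, 3), (57, 1), (59, 0), (58, 0)]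
def ww_3 : List (ℕ × ℕ) := [(0, 2), (2, 0), (1, 0), (3, 3), (5, 0), (4, 0), (6, 3), (7, 1), (9, 0), (8, 0), (10, 2), (12, 0), (11, 0), (13, 3), (15, 0), (14, 0), (16, 3), (17, 1), (19, 0), (18, 0), (20, 2), (22, 0), (21, 0), (23, 3), (25, 0), (24, 0), (26, 3), (27, 1), (29, 0), (28, 0), (40, 0), (41, 0), (42, 0), (43, 0), (44, 0), (45, 0), (46, 0), (47, 0), (48, 0), (49, 0), (30, 0), (31, 0), (32, 0), (33, 0), (34, 0), (35, 0), (36, 0), (37, 0), (38, 0), (39, 0), (50, 3), (51, 3), (53, 0), (52, 0), (54, 3), (56, 0), (55, 0), (58, 0), (57, 0), (59, 1)]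
def ww_4 : List (ℕ × ℕ) := [(0, 3), (1, 3), (3, 0), (2, 0), (4, 3), (6, 0), (5, 0), (8, 0), (7, 0), (9, 1), (10, 3), (11, 3), (13, 0), (12, 0), (14, 3), (16, 0), (15, 0), (18, 0), (17, 0), (19, 1), (20, 3), (21, 3), (23, 0), (22, 0), (24, 3), (26, 0), (25, 0), (28, 0), (27, 0), (29, 1), (30, 3), (31, 3), (33, 0), (32, 0), (34, 3), (36, 0), (35, 0), (38, 0), (37, 0), (39, 1), (50, 0), (51, 0), (52, 0), (53, 0), (54, 0), (55, 0), (56, 0), (57, 0), (58, 0), (59, 0), (40, 0), (41, 0), (42, 0), (43, 0), (44, 0), (45, 0), (46, 0), (47, 0), (48, 0), (49, 0)]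

section
variable {b : Blk} (h : Sym b)
include h

theorem f2_45 (K : Fin 6 → Fin 6 → Fin 3) (hK : SymK K) : f2 b (res K (sw 4 5)) = f2 b K := by
  have e : res K (sw 4 5) = res (res (res K swp) (sw 2 3)) swp := by
    funext i j
    fin_cases i <;> fin_cases j <;> rfl
  rw [e, f2_p h, f2_23 h _ (hK.res _), f2_p h]

theorem f0_34 (K : Fin 6 → Fin 6 → Fin 3) (hK : SymK K) : f0 b (res K (sw 3 4)) = f0 b K := by
  have e : res K (sw 3 4) = res (res (res K swt) (sw 0 1)) swt := by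
    funext i j
    fin_cases i <;> fin_cases j <;> rfl
  rw [e, f0_t h, f0_01 h _ (hK.res _), f0_t h]

theorem f0_45 (K : Fin 6 → Fin 6 → Fin 3) (hK : SymK K) : f0 b (res K (sw 4 5)) = f0 b K := by
  have e : res K (sw 4 5) = res (res (res K swt) (sw 1 2)) swt := by
    funext i j
    fin_cases i <;> fin_cases j <;> rfl
  rw [e, f0_t h, f0_12 h _ (hK.res _), f0_t h]

theorem g4 : ∀ g ∈ gs4, ∀ K, SymK K → f4 b (res K g) = f4 b K := by
  intro g hg K hK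
  simp only [gs4, List.mem_cons, List.not_mem_nil, or_false] at hg
  rcases hg with rfl | rfl | rfl | rfl | rfl
  · rfl
  · exact f4_01 h K hK
  · exact f4_12 h K hK
  · exact f4_23 h K hK
  · exact f4_45 h K

theorem g2 : ∀ g ∈ gs2, ∀ K, SymK K → f2 b (res K g) = f2 b K := by
  intro g hg K hK
  simp only [gs2, List.mem_cons, List.not_mem_nil, or_false] at hg
  rcases hg with rfl | rfl | rfl | rfl | rfl
  · rfl
  · exact f2_01 h K hK
  · exact f2_23 h K hK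
  · exact f2_45 h K hK
  · exact f2_p h K

theorem g0 : ∀ g ∈ gs0, ∀ K, SymK K → f0 b (res K g) = f0 b K := by
  intro g hg K hK
  simp only [gs0, List.mem_cons, List.not_mem_nil, or_false] at hg
  rcases hg with rfl | rfl | rfl | rfl | rfl | rfl
  · rfl
  · exact f0_01 h K hK
  · exact f0_12 h K hK
  · exact f0_34 h K hK
  · exact f0_45 h K hK
  · exact f0_t h K

theorem gw : ∀ g ∈ gsw, ∀ K, SymK K → fw b (res K g) = fw b K := by
  intro g hg K hK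
  simp only [gsw, List.mem_cons, List.not_mem_nil, or_false] at hg
  rcases hg with rfl | rfl | rfl | rfl
  · rfl
  · exact fw_12 h K hK
  · exact fw_34 h K hK
  · exact fw_45 h K hK

end

theorem GS_inv0 {b : Blk} (h : Sym b) (K : Fin 6 → Fin 6 → Fin 3) (hK : SymK K) :
    GS b (res K (sw 0 1)) = GS b K := by
  rw [GS, GS, sum_inv (f4 b) pl4 gs4 (sw 0 1) w4_0 rfl (by decide +kernel) (by decide +kernel) (g4 h) K hK,
    sum_inv (f2 b) pl2 gs2 (sw 0 1) w2_0 rfl (by decide +kernel) (by decide +kernel) (g2 h) K hK,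
    sum_inv (f0 b) pl0 gs0 (sw 0 1) w0_0 rfl (by decide +kernel) (by decide +kernel) (g0 h) K hK,
    sum_inv (fw b) plW gsw (sw 0 1) ww_0 rfl (by decide +kernel) (by decide +kernel) (gw h) K hK]

theorem GS_inv1 {b : Blk} (h : Sym b) (K : Fin 6 → Fin 6 → Fin 3) (hK : SymK K) :
    GS b (res K (sw 1 2)) = GS b K := by
  rw [GS, GS, sum_inv (f4 b) pl4 gs4 (sw 1 2) w4_1 rfl (by decide +kernel) (by decide +kernel) (g4 h) K hK,
    sum_inv (f2 b) pl2 gs2 (sw 1 2) w2_1 rfl (by decide +kernel) (by decide +kernel) (g2 h) K hK,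
    sum_inv (f0 b) pl0 gs0 (sw 1 2) w0_1 rfl (by decide +kernel) (by decide +kernel) (g0 h) K hK,
    sum_inv (fw b) plW gsw (sw 1 2) ww_1 rfl (by decide +kernel) (by decide +kernel) (gw h) K hK]

theorem GS_inv2 {b : Blk} (h : Sym b) (K : Fin 6 → Fin 6 → Fin 3) (hK : SymK K) :
    GS b (res K (sw 2 3)) = GS b K := by
  rw [GS, GS, sum_inv (f4 b) pl4 gs4 (sw 2 3) w4_2 rfl (by decide +kernel) (by decide +kernel) (g4 h) K hK,
    sum_inv (f2 b) pl2 gs2 (sw 2 3) w2_2 rfl (by decide +kernel) (by decide +kernel) (g2 h) K hK,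
    sum_inv (f0 b) pl0 gs0 (sw 2 3) w0_2 rfl (by decide +kernel) (by decide +kernel) (g0 h) K hK,
    sum_inv (fw b) plW gsw (sw 2 3) ww_2 rfl (by decide +kernel) (by decide +kernel) (gw h) K hK]

theorem GS_inv3 {b : Blk} (h : Sym b) (K : Fin 6 → Fin 6 → Fin 3) (hK : SymK K) :
    GS b (res K (sw 3 4)) = GS b K := by
  rw [GS, GS, sum_inv (f4 b) pl4 gs4 (sw 3 4) w4_3 rfl (by decide +kernel) (by decide +kernel) (g4 h) K hK,
    sum_inv (f2 b) pl2 gs2 (sw 3 4) w2_3 rfl (by decide +kernel) (by decide +kernel) (g2 h) K hK,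
    sum_inv (f0 b) pl0 gs0 (sw 3 4) w0_3 rfl (by decide +kernel) (by decide +kernel) (g0 h) K hK,
    sum_inv (fw b) plW gsw (sw 3 4) ww_3 rfl (by decide +kernel) (by decide +kernel) (gw h) K hK]

theorem GS_inv4 {b : Blk} (h : Sym b) (K : Fin 6 → Fin 6 → Fin 3) (hK : SymK K) :
    GS b (res K (sw 4 5)) = GS b K := by
  rw [GS, GS, sum_inv (f4 b) pl4 gs4 (sw 4 5) w4_4 rfl (by decide +kernel) (by decide +kernel) (g4 h) K hK,
    sum_inv (f2 b) pl2 gs2 (sw 4 5) w2_4 rfl (by decide +kernel) (by decide +kernel) (g2 h) K hK,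
    sum_inv (f0 b) pl0 gs0 (sw 4 5) w0_4 rfl (by decide +kernel) (by decide +kernel) (g0 h) K hK,
    sum_inv (fw b) plW gsw (sw 4 5) ww_4 rfl (by decide +kernel) (by decide +kernel) (gw h) K hK]

theorem st_symm (k01 k02 k12 k03 k13 k23 k04 k14 k24 k34 k05 k15 k25 k35 k45 : Fin 3) : SymK (st k01 k02 k12 k03 k13 k23 k04 k14 k24 k34 k05 k15 k25 k35 k45) := by
  intro i j
  fin_cases i <;> fin_cases j <;> rfl

theorem st_m0 (k01 k02 k12 k03 k13 k23 k04 k14 k24 k34 k05 k15 k25 k35 k45 : Fin 3) :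
    st k01 k12 k02 k13 k03 k23 k14 k04 k24 k34 k15 k05 k25 k35 k45 = res (st k01 k02 k12 k03 k13 k23 k04 k14 k24 k34 k05 k15 k25 k35 k45) (sw 0 1) := by
  funext i j
  fin_cases i <;> fin_cases j <;> rfl

theorem GG_m0 {b : Blk} (h : Sym b) (k01 k02 k12 k03 k13 k23 k04 k14 k24 k34 k05 k15 k25 k35 k45 : Fin 3) :
    GG b k01 k12 k02 k13 k03 k23 k14 k04 k24 k34 k15 k05 k25 k35 k45 = GG b k01 k02 k12 k03 k13 k23 k04 k14 k24 k34 k05 k15 k25 k35 k45 :=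
  (GG_eq b k01 k12 k02 k13 k03 k23 k14 k04 k24 k34 k15 k05 k25 k35 k45).trans ((congrArg (GS b) (st_m0 k01 k02 k12 k03 k13 k23 k04 k14 k24 k34 k05 k15 k25 k35 k45)).trans
    ((GS_inv0 h (st k01 k02 k12 k03 k13 k23 k04 k14 k24 k34 k05 k15 k25 k35 k45) (st_symm k01 k02 k12 k03 k13 k23 k04 k14 k24 k34 k05 k15 k25 k35 k45)).trans (GG_eq b k01 k02 k12 k03 k13 k23 k04 k14 k24 k34 k05 k15 k25 k35 k45).symm))

theorem st_m1 (k01 k02 k12 k03 k13 k23 k04 k14 k24 k34 k05 k15 k25 k35 k45 : Fin 3) :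
    st k02 k01 k12 k03 k23 k13 k04 k24 k14 k34 k05 k25 k15 k35 k45 = res (st k01 k02 k12 k03 k13 k23 k04 k14 k24 k34 k05 k15 k25 k35 k45) (sw 1 2) := by
  funext i j
  fin_cases i <;> fin_cases j <;> rfl

theorem GG_m1 {b : Blk} (h : Sym b) (k01 k02 k12 k03 k13 k23 k04 k14 k24 k34 k05 k15 k25 k35 k45 : Fin 3) :
    GG b k02 k01 k12 k03 k23 k13 k04 k24 k14 k34 k05 k25 k15 k35 k45 = GG b k01 k02 k12 k03 k13 k23 k04 k14 k24 k34 k05 k15 k25 k35 k45 :=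
  (GG_eq b k02 k01 k12 k03 k23 k13 k04 k24 k14 k34 k05 k25 k15 k35 k45).trans ((congrArg (GS b) (st_m1 k01 k02 k12 k03 k13 k23 k04 k14 k24 k34 k05 k15 k25 k35 k45)).trans
    ((GS_inv1 h (st k01 k02 k12 k03 k13 k23 k04 k14 k24 k34 k05 k15 k25 k35 k45) (st_symm k01 k02 k12 k03 k13 k23 k04 k14 k24 k34 k05 k15 k25 k35 k45)).trans (GG_eq b k01 k02 k12 k03 k13 k23 k04 k14 k24 k34 k05 k15 k25 k35 k45).symm))

theorem st_m2 (k01 k02 k12 k03 k13 k23 k04 k14 k24 k34 k05 k15 k25 k35 k45 : Fin 3) :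
    st k01 k03 k13 k02 k12 k23 k04 k14 k34 k24 k05 k15 k35 k25 k45 = res (st k01 k02 k12 k03 k13 k23 k04 k14 k24 k34 k05 k15 k25 k35 k45) (sw 2 3) := by
  funext i j
  fin_cases i <;> fin_cases j <;> rfl

theorem GG_m2 {b : Blk} (h : Sym b) (k01 k02 k12 k03 k13 k23 k04 k14 k24 k34 k05 k15 k25 k35 k45 : Fin 3) :
    GG b k01 k03 k13 k02 k12 k23 k04 k14 k34 k24 k05 k15 k35 k25 k45 = GG b k01 k02 k12 k03 k13 k23 k04 k14 k24 k34 k05 k15 k25 k35 k45 :=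
  (GG_eq b k01 k03 k13 k02 k12 k23 k04 k14 k34 k24 k05 k15 k35 k25 k45).trans ((congrArg (GS b) (st_m2 k01 k02 k12 k03 k13 k23 k04 k14 k24 k34 k05 k15 k25 k35 k45)).trans
    ((GS_inv2 h (st k01 k02 k12 k03 k13 k23 k04 k14 k24 k34 k05 k15 k25 k35 k45) (st_symm k01 k02 k12 k03 k13 k23 k04 k14 k24 k34 k05 k15 k25 k35 k45)).trans (GG_eq b k01 k02 k12 k03 k13 k23 k04 k14 k24 k34 k05 k15 k25 k35 k45).symm))

theorem st_m3 (k01 k02 k12 k03 k13 k23 k04 k14 k24 k34 k05 k15 k25 k35 k45 : Fin 3) :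
    st k01 k02 k12 k04 k14 k24 k03 k13 k23 k34 k05 k15 k25 k45 k35 = res (st k01 k02 k12 k03 k13 k23 k04 k14 k24 k34 k05 k15 k25 k35 k45) (sw 3 4) := by
  funext i j
  fin_cases i <;> fin_cases j <;> rfl

theorem GG_m3 {b : Blk} (h : Sym b) (k01 k02 k12 k03 k13 k23 k04 k14 k24 k34 k05 k15 k25 k35 k45 : Fin 3) :
    GG b k01 k02 k12 k04 k14 k24 k03 k13 k23 k34 k05 k15 k25 k45 k35 = GG b k01 k02 k12 k03 k13 k23 k04 k14 k24 k34 k05 k15 k25 k35 k45 :=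
  (GG_eq b k01 k02 k12 k04 k14 k24 k03 k13 k23 k34 k05 k15 k25 k45 k35).trans ((congrArg (GS b) (st_m3 k01 k02 k12 k03 k13 k23 k04 k14 k24 k34 k05 k15 k25 k35 k45)).trans
    ((GS_inv3 h (st k01 k02 k12 k03 k13 k23 k04 k14 k24 k34 k05 k15 k25 k35 k45) (st_symm k01 k02 k12 k03 k13 k23 k04 k14 k24 k34 k05 k15 k25 k35 k45)).trans (GG_eq b k01 k02 k12 k03 k13 k23 k04 k14 k24 k34 k05 k15 k25 k35 k45).symm))

theorem st_m4 (k01 k02 k12 k03 k13 k23 k04 k14 k24 k34 k05 k15 k25 k35 k45 : Fin 3) :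
    st k01 k02 k12 k03 k13 k23 k05 k15 k25 k35 k04 k14 k24 k34 k45 = res (st k01 k02 k12 k03 k13 k23 k04 k14 k24 k34 k05 k15 k25 k35 k45) (sw 4 5) := by
  funext i j
  fin_cases i <;> fin_cases j <;> rfl

theorem GG_m4 {b : Blk} (h : Sym b) (k01 k02 k12 k03 k13 k23 k04 k14 k24 k34 k05 k15 k25 k35 k45 : Fin 3) :
    GG b k01 k02 k12 k03 k13 k23 k05 k15 k25 k35 k04 k14 k24 k34 k45 = GG b k01 k02 k12 k03 k13 k23 k04 k14 k24 k34 k05 k15 k25 k35 k45 :=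
  (GG_eq b k01 k02 k12 k03 k13 k23 k05 k15 k25 k35 k04 k14 k24 k34 k45).trans ((congrArg (GS b) (st_m4 k01 k02 k12 k03 k13 k23 k04 k14 k24 k34 k05 k15 k25 k35 k45)).trans
    ((GS_inv4 h (st k01 k02 k12 k03 k13 k23 k04 k14 k24 k34 k05 k15 k25 k35 k45) (st_symm k01 k02 k12 k03 k13 k23 k04 k14 k24 k34 k05 k15 k25 k35 k45)).trans (GG_eq b k01 k02 k12 k03 k13 k23 k04 k14 k24 k34 k05 k15 k25 k35 k45).symm))

end Pool.Agent.C44.S6
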