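import Pool.Agent.C44.Chk

/-!
# Six points, three colours: the symmetrised sum over placements

`e4` has four roots and two further points, `e2` two roots and two pairs, `e0` two triples,
`ew` one root, one pair and one triple.
-/

set_option autoImplicit false
set_option maxHeartbeats 4000000

namespace Pool.Agent.C44.S6

/-- the four building blocks -/
structure Blk where
  e4 : ℕ → ℕ → ℕ → ℕ → ℕ → ℕ → ℕ → ℕ → ℕ → ℕ → ℕ → ℕ → ℕ → ℕ → ℕ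
  e2 : ℕ → ℕ → ℕ → ℕ → ℕ → ℕ → ℕ → ℕ → ℕ → ℕ → ℕ → ℕ
  e0 : ℕ → ℕ → ℕ → ℕ → ℕ → ℕ → ℕ
  ew : ℕ → ℕ → ℕ → ℕ → ℕ → ℕ → ℕ → ℕ → ℕ → ℕ

/-- sum over the 15 placements of four roots -/
def SA4 (b : Blk) (k01 k02 k12 k03 k13 k23 k04 k14 k24 k34 k05 k15 k25 k35 k45 : ℕ) : ℕ :=
  Nat.add (b.e4 k01 k02 k12 k03 k13 k23 k04 k14 k24 k34 k05 k15 k25 k35)
    (Nat.add (b.e4 k01 k02 k12 k04 k14 k24 k03 k13 k23 k34 k05 k15 k25 k45)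
    (Nat.add (b.e4 k01 k02 k12 k05 k15 k25 k03 k13 k23 k35 k04 k14 k24 k45)
    (Nat.add (b.e4 k01 k03 k13 k04 k14 k34 k02 k12 k23 k24 k05 k15 k35 k45)
    (Nat.add (b.e4 k01 k03 k13 k05 k15 k35 k02 k12 k23 k25 k04 k14 k34 k45)
    (Nat.add (b.e4 k01 k04 k14 k05 k15 k45 k02 k12 k24 k25 k03 k13 k34 k35)
    (Nat.add (b.e4 k02 k03 k23 k04 k24 k34 k01 k12 k13 k14 k05 k25 k35 k45)
    (Nat.add (b.e4 k02 k03 k23 k05 k25 k35 k01 k12 k13 k15 k04 k24 k34 k45)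
    (Nat.add (b.e4 k02 k04 k24 k05 k25 k45 k01 k12 k14 k15 k03 k23 k34 k35)
    (Nat.add (b.e4 k03 k04 k34 k05 k35 k45 k01 k13 k14 k15 k02 k23 k24 k25)
    (Nat.add (b.e4 k12 k13 k23 k14 k24 k34 k01 k02 k03 k04 k15 k25 k35 k45)
    (Nat.add (b.e4 k12 k13 k23 k15 k25 k35 k01 k02 k03 k05 k14 k24 k34 k45)
    (Nat.add (b.e4 k12 k14 k24 k15 k25 k45 k01 k02 k04 k05 k13 k23 k34 k35)
    (Nat.add (b.e4 k13 k14 k34 k15 k35 k45 k01 k03 k04 k05 k12 k23 k24 k25)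
    (b.e4 k23 k24 k34 k25 k35 k45 k02 k03 k04 k05 k12 k13 k14 k15))))))))))))))

/-- sum over the 45 placements of two roots and two pairs -/
def SA2 (b : Blk) (k01 k02 k12 k03 k13 k23 k04 k14 k24 k34 k05 k15 k25 k35 k45 : ℕ) : ℕ :=
  Nat.add (b.e2 k01 k02 k12 k03 k13 k23 k04 k14 k05 k15 k45)
    (Nat.add (b.e2 k01 k02 k12 k04 k14 k24 k03 k13 k05 k15 k35)
    (Nat.add (b.e2 k01 k02 k12 k05 k15 k25 k03 k13 k04 k14 k34)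
    (Nat.add (b.e2 k02 k01 k12 k03 k23 k13 k04 k24 k05 k25 k45)
    (Nat.add (b.e2 k02 k01 k12 k04 k24 k14 k03 k23 k05 k25 k35)
    (Nat.add (b.e2 k02 k01 k12 k05 k25 k15 k03 k23 k04 k24 k34)
    (Nat.add (b.e2 k03 k01 k13 k02 k23 k12 k04 k34 k05 k35 k45)
    (Nat.add (b.e2 k03 k01 k13 k04 k34 k14 k02 k23 k05 k35 k25)
    (Nat.add (b.e2 k03 k01 k13 k05 k35 k15 k02 k23 k04 k34 k24)
    (Nat.add (b.e2 k04 k01 k14 k02 k24 k12 k03 k34 k05 k45 k35)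
    (Nat.add (b.e2 k04 k01 k14 k03 k34 k13 k02 k24 k05 k45 k25)
    (Nat.add (b.e2 k04 k01 k14 k05 k45 k15 k02 k24 k03 k34 k23)
    (Nat.add (b.e2 k05 k01 k15 k02 k25 k12 k03 k35 k04 k45 k34)
    (Nat.add (b.e2 k05 k01 k15 k03 k35 k13 k02 k25 k04 k45 k24)
    (Nat.add (b.e2 k05 k01 k15 k04 k45 k14 k02 k25 k03 k35 k23)
    (Nat.add (b.e2 k12 k01 k02 k13 k23 k03 k14 k24 k15 k25 k45)
    (Nat.add (b.e2 k12 k01 k02 k14 k24 k04 k13 k23 k15 k25 k35)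
    (Nat.add (b.e2 k12 k01 k02 k15 k25 k05 k13 k23 k14 k24 k34)
    (Nat.add (b.e2 k13 k01 k03 k12 k23 k02 k14 k34 k15 k35 k45)
    (Nat.add (b.e2 k13 k01 k03 k14 k34 k04 k12 k23 k15 k35 k25)
    (Nat.add (b.e2 k13 k01 k03 k15 k35 k05 k12 k23 k14 k34 k24)
    (Nat.add (b.e2 k14 k01 k04 k12 k24 k02 k13 k34 k15 k45 k35)
    (Nat.add (b.e2 k14 k01 k04 k13 k34 k03 k12 k24 k15 k45 k25)
    (Nat.add (b.e2 k14 k01 k04 k15 k45 k05 k12 k24 k13 k34 k23)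
    (Nat.add (b.e2 k15 k01 k05 k12 k25 k02 k13 k35 k14 k45 k34)
    (Nat.add (b.e2 k15 k01 k05 k13 k35 k03 k12 k25 k14 k45 k24)
    (Nat.add (b.e2 k15 k01 k05 k14 k45 k04 k12 k25 k13 k35 k23)
    (Nat.add (b.e2 k23 k02 k03 k12 k13 k01 k24 k34 k25 k35 k45)
    (Nat.add (b.e2 k23 k02 k03 k24 k34 k04 k12 k13 k25 k35 k15)
    (Nat.add (b.e2 k23 k02 k03 k25 k35 k05 k12 k13 k24 k34 k14)
    (Nat.add (b.e2 k24 k02 k04 k12 k14 k01 k23 k34 k25 k45 k35)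
    (Nat.add (b.e2 k24 k02 k04 k23 k34 k03 k12 k14 k25 k45 k15)
    (Nat.add (b.e2 k24 k02 k04 k25 k45 k05 k12 k14 k23 k34 k13)
    (Nat.add (b.e2 k25 k02 k05 k12 k15 k01 k23 k35 k24 k45 k34)
    (Nat.add (b.e2 k25 k02 k05 k23 k35 k03 k12 k15 k24 k45 k14)
    (Nat.add (b.e2 k25 k02 k05 k24 k45 k04 k12 k15 k23 k35 k13)
    (Nat.add (b.e2 k34 k03 k04 k13 k14 k01 k23 k24 k35 k45 k25)
    (Nat.add (b.e2 k34 k03 k04 k23 k24 k02 k13 k14 k35 k45 k15)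
    (Nat.add (b.e2 k34 k03 k04 k35 k45 k05 k13 k14 k23 k24 k12)
    (Nat.add (b.e2 k35 k03 k05 k13 k15 k01 k23 k25 k34 k45 k24)
    (Nat.add (b.e2 k35 k03 k05 k23 k25 k02 k13 k15 k34 k45 k14)
    (Nat.add (b.e2 k35 k03 k05 k34 k45 k04 k13 k15 k23 k25 k12)
    (Nat.add (b.e2 k45 k04 k05 k14 k15 k01 k24 k25 k34 k35 k23)
    (Nat.add (b.e2 k45 k04 k05 k24 k25 k02 k14 k15 k34 k35 k13)
    (b.e2 k45 k04 k05 k34 k35 k03 k14 k15 k24 k25 k12))))))))))))))))))))))))))))))))))))))))))))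

/-- sum over the 10 placements of two triples -/
def SA0 (b : Blk) (k01 k02 k12 k03 k13 k23 k04 k14 k24 k34 k05 k15 k25 k35 k45 : ℕ) : ℕ :=
  Nat.add (b.e0 k01 k02 k12 k34 k35 k45)
    (Nat.add (b.e0 k01 k03 k13 k24 k25 k45)
    (Nat.add (b.e0 k01 k04 k14 k23 k25 k35)
    (Nat.add (b.e0 k01 k05 k15 k23 k24 k34)
    (Nat.add (b.e0 k02 k03 k23 k14 k15 k45)
    (Nat.add (b.e0 k02 k04 k24 k13 k15 k35)
    (Nat.add (b.e0 k02 k05 k25 k13 k14 k34)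
    (Nat.add (b.e0 k03 k04 k34 k12 k15 k25)
    (Nat.add (b.e0 k03 k05 k35 k12 k14 k24)
    (b.e0 k04 k05 k45 k12 k13 k23)))))))))

/-- sum over the 60 placements of a root, a pair and a triple -/
def SAW (b : Blk) (k01 k02 k12 k03 k13 k23 k04 k14 k24 k34 k05 k15 k25 k35 k45 : ℕ) : ℕ :=
  Nat.add (b.ew k01 k02 k12 k03 k04 k05 k34 k35 k45)
    (Nat.add (b.ew k01 k03 k13 k02 k04 k05 k24 k25 k45)
    (Nat.add (b.ew k01 k04 k14 k02 k03 k05 k23 k25 k35)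
    (Nat.add (b.ew k01 k05 k15 k02 k03 k04 k23 k24 k34)
    (Nat.add (b.ew k02 k03 k23 k01 k04 k05 k14 k15 k45)
    (Nat.add (b.ew k02 k04 k24 k01 k03 k05 k13 k15 k35)
    (Nat.add (b.ew k02 k05 k25 k01 k03 k04 k13 k14 k34)
    (Nat.add (b.ew k03 k04 k34 k01 k02 k05 k12 k15 k25)
    (Nat.add (b.ew k03 k05 k35 k01 k02 k04 k12 k14 k24)
    (Nat.add (b.ew k04 k05 k45 k01 k02 k03 k12 k13 k23)
    (Nat.add (b.ew k01 k12 k02 k13 k14 k15 k34 k35 k45)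
    (Nat.add (b.ew k01 k13 k03 k12 k14 k15 k24 k25 k45)
    (Nat.add (b.ew k01 k14 k04 k12 k13 k15 k23 k25 k35)
    (Nat.add (b.ew k01 k15 k05 k12 k13 k14 k23 k24 k34)
    (Nat.add (b.ew k12 k13 k23 k01 k14 k15 k04 k05 k45)
    (Nat.add (b.ew k12 k14 k24 k01 k13 k15 k03 k05 k35)
    (Nat.add (b.ew k12 k15 k25 k01 k13 k14 k03 k04 k34)
    (Nat.add (b.ew k13 k14 k34 k01 k12 k15 k02 k05 k25)
    (Nat.add (b.ew k13 k15 k35 k01 k12 k14 k02 k04 k24)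
    (Nat.add (b.ew k14 k15 k45 k01 k12 k13 k02 k03 k23)
    (Nat.add (b.ew k02 k12 k01 k23 k24 k25 k34 k35 k45)
    (Nat.add (b.ew k02 k23 k03 k12 k24 k25 k14 k15 k45)
    (Nat.add (b.ew k02 k24 k04 k12 k23 k25 k13 k15 k35)
    (Nat.add (b.ew k02 k25 k05 k12 k23 k24 k13 k14 k34)
    (Nat.add (b.ew k12 k23 k13 k02 k24 k25 k04 k05 k45)
    (Nat.add (b.ew k12 k24 k14 k02 k23 k25 k03 k05 k35)
    (Nat.add (b.ew k12 k25 k15 k02 k23 k24 k03 k04 k34)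
    (Nat.add (b.ew k23 k24 k34 k02 k12 k25 k01 k05 k15)
    (Nat.add (b.ew k23 k25 k35 k02 k12 k24 k01 k04 k14)
    (Nat.add (b.ew k24 k25 k45 k02 k12 k23 k01 k03 k13)
    (Nat.add (b.ew k03 k13 k01 k23 k34 k35 k24 k25 k45)
    (Nat.add (b.ew k03 k23 k02 k13 k34 k35 k14 k15 k45)
    (Nat.add (b.ew k03 k34 k04 k13 k23 k35 k12 k15 k25)
    (Nat.add (b.ew k03 k35 k05 k13 k23 k34 k12 k14 k24)
    (Nat.add (b.ew k13 k23 k12 k03 k34 k35 k04 k05 k45)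
    (Nat.add (b.ew k13 k34 k14 k03 k23 k35 k02 k05 k25)
    (Nat.add (b.ew k13 k35 k15 k03 k23 k34 k02 k04 k24)
    (Nat.add (b.ew k23 k34 k24 k03 k13 k35 k01 k05 k15)
    (Nat.add (b.ew k23 k35 k25 k03 k13 k34 k01 k04 k14)
    (Nat.add (b.ew k34 k35 k45 k03 k13 k23 k01 k02 k12)
    (Nat.add (b.ew k04 k14 k01 k24 k34 k45 k23 k25 k35)
    (Nat.add (b.ew k04 k24 k02 k14 k34 k45 k13 k15 k35)
    (Nat.add (b.ew k04 k34 k03 k14 k24 k45 k12 k15 k25)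
    (Nat.add (b.ew k04 k45 k05 k14 k24 k34 k12 k13 k23)
    (Nat.add (b.ew k14 k24 k12 k04 k34 k45 k03 k05 k35)
    (Nat.add (b.ew k14 k34 k13 k04 k24 k45 k02 k05 k25)
    (Nat.add (b.ew k14 k45 k15 k04 k24 k34 k02 k03 k23)
    (Nat.add (b.ew k24 k34 k23 k04 k14 k45 k01 k05 k15)
    (Nat.add (b.ew k24 k45 k25 k04 k14 k34 k01 k03 k13)
    (Nat.add (b.ew k34 k45 k35 k04 k14 k24 k01 k02 k12)
    (Nat.add (b.ew k05 k15 k01 k25 k35 k45 k23 k24 k34)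
    (Nat.add (b.ew k05 k25 k02 k15 k35 k45 k13 k14 k34)
    (Nat.add (b.ew k05 k35 k03 k15 k25 k45 k12 k14 k24)
    (Nat.add (b.ew k05 k45 k04 k15 k25 k35 k12 k13 k23)
    (Nat.add (b.ew k15 k25 k12 k05 k35 k45 k03 k04 k34)
    (Nat.add (b.ew k15 k35 k13 k05 k25 k45 k02 k04 k24)
    (Nat.add (b.ew k15 k45 k14 k05 k25 k35 k02 k03 k23)
    (Nat.add (b.ew k25 k35 k23 k05 k15 k45 k01 k04 k14)
    (Nat.add (b.ew k25 k45 k24 k05 k15 k35 k01 k03 k13)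
    (b.ew k35 k45 k34 k05 k15 k25 k01 k02 k12)))))))))))))))))))))))))))))))))))))))))))))))))))))))))))

/-- the total -/
def GG (b : Blk) (k01 k02 k12 k03 k13 k23 k04 k14 k24 k34 k05 k15 k25 k35 k45 : ℕ) : ℕ :=
  Nat.add (SA4 b k01 k02 k12 k03 k13 k23 k04 k14 k24 k34 k05 k15 k25 k35 k45) (Nat.add (SA2 b k01 k02 k12 k03 k13 k23 k04 k14 k24 k34 k05 k15 k25 k35 k45) (Nat.add (SA0 b k01 k02 k12 k03 k13 k23 k04 k14 k24 k34 k05 k15 k25 k35 k45) (SAW b k01 k02 k12 k03 k13 k23 k04 k14 k24 k34 k05 k15 k25 k35 k45)))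

/-- choice by index -/
def pk {α : Type} (i : Fin 6) (a0 a1 a2 a3 a4 a5 : α) : α :=
  match i with
  | 0 => a0 | 1 => a1 | 2 => a2 | 3 => a3 | 4 => a4 | 5 => a5

/-- a placement -/
def vk (a0 a1 a2 a3 a4 a5 : Fin 6) : Fin 6 → Fin 6 := fun i => pk i a0 a1 a2 a3 a4 a5

/-- placements -/
def pl4 : List (Fin 6 → Fin 6) := [vk 0 1 2 3 4 5, vk 0 1 2 4 3 5, vk 0 1 2 5 3 4, vk 0 1 3 4 2 5, vk 0 1 3 5 2 4, vk 0 1 4 5 2 3, vk 0 2 3 4 1 5, vk 0 2 3 5 1 4, vk 0 2 4 5 1 3, vk 0 3 4 5 1 2, vk 1 2 3 4 0 5, vk 1 2 3 5 0 4, vk 1 2 4 5 0 3, vk 1 3 4 5 0 2, vk 2 3 4 5 0 1]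
def pl2 : List (Fin 6 → Fin 6) := [vk 0 1 2 3 4 5, vk 0 1 2 4 3 5, vk 0 1 2 5 3 4, vk 0 2 1 3 4 5, vk 0 2 1 4 3 5, vk 0 2 1 5 3 4, vk 0 3 1 2 4 5, vk 0 3 1 4 2 5, vk 0 3 1 5 2 4, vk 0 4 1 2 3 5, vk 0 4 1 3 2 5, vk 0 4 1 5 2 3, vk 0 5 1 2 3 4, vk 0 5 1 3 2 4, vk 0 5 1 4 2 3, vk 1 2 0 3 4 5, vk 1 2 0 4 3 5, vk 1 2 0 5 3 4, vk 1 3 0 2 4 5, vk 1 3 0 4 2 5, vk 1 3 0 5 2 4, vk 1 4 0 2 3 5, vk 1 4 0 3 2 5, vk 1 4 0 5 2 3, vk 1 5 0 2 3 4, vk 1 5 0 3 2 4, vk 1 5 0 4 2 3, vk 2 3 0 1 4 5, vk 2 3 0 4 1 5, vk 2 3 0 5 1 4, vk 2 4 0 1 3 5, vk 2 4 0 3 1 5, vk 2 4 0 5 1 3, vk 2 5 0 1 3 4, vk 2 5 0 3 1 4, vk 2 5 0 4 1 3, vk 3 4 0 1 2 5, vk 3 4 0 2 1 5, vk 3 4 0 5 1 2, vk 3 5 0 1 2 4, vk 3 5 0 2 1 4, vk 3 5 0 4 1 2, vk 4 5 0 1 2 3, vk 4 5 0 2 1 3, vk 4 5 0 3 1 2]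
def pl0 : List (Fin 6 → Fin 6) := [vk 0 1 2 3 4 5, vk 0 1 3 2 4 5, vk 0 1 4 2 3 5, vk 0 1 5 2 3 4, vk 0 2 3 1 4 5, vk 0 2 4 1 3 5, vk 0 2 5 1 3 4, vk 0 3 4 1 2 5, vk 0 3 5 1 2 4, vk 0 4 5 1 2 3]
def plW : List (Fin 6 → Fin 6) := [vk 0 1 2 3 4 5, vk 0 1 3 2 4 5, vk 0 1 4 2 3 5, vk 0 1 5 2 3 4, vk 0 2 3 1 4 5, vk 0 2 4 1 3 5, vk 0 2 5 1 3 4, vk 0 3 4 1 2 5, vk 0 3 5 1 2 4, vk 0 4 5 1 2 3, vk 1 0 2 3 4 5, vk 1 0 3 2 4 5, vk 1 0 4 2 3 5, vk 1 0 5 2 3 4, vk 1 2 3 0 4 5, vk 1 2 4 0 3 5, vk 1 2 5 0 3 4, vk 1 3 4 0 2 5, vk 1 3 5 0 2 4, vk 1 4 5 0 2 3, vk 2 0 1 3 4 5, vk 2 0 3 1 4 5, vk 2 0 4 1 3 5, vk 2 0 5 1 3 4, vk 2 1 3 0 4 5, vk 2 1 4 0 3 5, vk 2 1 5 0 3 4, vk 2 3 4 0 1 5, vk 2 3 5 0 1 4, vk 2 4 5 0 1 3, vk 3 0 1 2 4 5, vk 3 0 2 1 4 5, vk 3 0 4 1 2 5, vk 3 0 5 1 2 4, vk 3 1 2 0 4 5, vk 3 1 4 0 2 5, vk 3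 1 5 0 2 4, vk 3 2 4 0 1 5, vk 3 2 5 0 1 4, vk 3 4 5 0 1 2, vk 4 0 1 2 3 5, vk 4 0 2 1 3 5, vk 4 0 3 1 2 5, vk 4 0 5 1 2 3, vk 4 1 2 0 3 5, vk 4 1 3 0 2 5, vk 4 1 5 0 2 3, vk 4 2 3 0 1 5, vk 4 2 5 0 1 3, vk 4 3 5 0 1 2, vk 5 0 1 2 3 4, vk 5 0 2 1 3 4, vk 5 0 3 1 2 4, vk 5 0 4 1 2 3, vk 5 1 2 0 3 4, vk 5 1 3 0 2 4, vk 5 1 4 0 2 3, vk 5 2 3 0 1 4, vk 5 2 4 0 1 3, vk 5 3 4 0 1 2]

/-- the state with given colours -/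
def st (k01 k02 k12 k03 k13 k23 k04 k14 k24 k34 k05 k15 k25 k35 k45 : Fin 3) : Fin 6 → Fin 6 → Fin 3 :=
  fun i j => pk i (pk j 0 k01 k02 k03 k04 k05) (pk j k01 0 k12 k13 k14 k15) (pk j k02 k12 0 k23 k24 k25)
    (pk j k03 k13 k23 0 k34 k35) (pk j k04 k14 k24 k34 0 k45) (pk j k05 k15 k25 k35 k45 0)

def f4 (b : Blk) (K : Fin 6 → Fin 6 → Fin 3) : ℕ := b.e4 (K 0 1) (K 0 2) (K 1 2) (K 0 3) (K 1 3) (K 2 3) (K 0 4) (K 1 4) (K 2 4) (K 3 4) (K 0 5) (K 1 5) (K 2 5) (K 3 5)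
def f2 (b : Blk) (K : Fin 6 → Fin 6 → Fin 3) : ℕ := b.e2 (K 0 1) (K 0 2) (K 1 2) (K 0 3) (K 1 3) (K 2 3) (K 0 4) (K 1 4) (K 0 5) (K 1 5) (K 4 5)
def f0 (b : Blk) (K : Fin 6 → Fin 6 → Fin 3) : ℕ := b.e0 (K 0 1) (K 0 2) (K 1 2) (K 3 4) (K 3 5) (K 4 5)
def fw (b : Blk) (K : Fin 6 → Fin 6 → Fin 3) : ℕ := b.ew (K 0 1) (K 0 2) (K 1 2) (K 0 3) (K 0 4) (K 0 5) (K 3 4) (K 3 5) (K 4 5)

/-- restriction along a placement -/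
def res (K : Fin 6 → Fin 6 → Fin 3) (p : Fin 6 → Fin 6) : Fin 6 → Fin 6 → Fin 3 := fun i j => K (p i) (p j)

/-- the total in terms of placements -/
def GS (b : Blk) (K : Fin 6 → Fin 6 → Fin 3) : ℕ :=
  (pl4.map fun p => f4 b (res K p)).sum + ((pl2.map fun p => f2 b (res K p)).sum +
    ((pl0.map fun p => f0 b (res K p)).sum + (plW.map fun p => fw b (res K p)).sum))

theorem GG_eq (b : Blk) (k01 k02 k12 k03 k13 k23 k04 k14 k24 k34 k05 k15 k25 k35 k45 : Fin 3) : GG b k01 k02 k12 k03 k13 k23 k04 k14 k24 k34 k05 k15 k25 k35 k45 = GS b (st k01 k02 k12 k03 k13 k23 k04 k14 k24 k34 k05 k15 k25 k35 k45) := by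
  have h4 : SA4 b k01 k02 k12 k03 k13 k23 k04 k14 k24 k34 k05 k15 k25 k35 k45 = (pl4.map fun p => f4 b (res (st k01 k02 k12 k03 k13 k23 k04 k14 k24 k34 k05 k15 k25 k35 k45) p)).sum := by
    simp only [pl4, List.map_cons, List.map_nil, List.sum_cons, List.sum_nil, Nat.add_zero]
    rfl
  have h2 : SA2 b k01 k02 k12 k03 k13 k23 k04 k14 k24 k34 k05 k15 k25 k35 k45 = (pl2.map fun p => f2 b (res (st k01 k02 k12 k03 k13 k23 k04 k14 k24 k34 k05 k15 k25 k35 k45) p)).sum := by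
    simp only [pl2, List.map_cons, List.map_nil, List.sum_cons, List.sum_nil, Nat.add_zero]
    rfl
  have h0 : SA0 b k01 k02 k12 k03 k13 k23 k04 k14 k24 k34 k05 k15 k25 k35 k45 = (pl0.map fun p => f0 b (res (st k01 k02 k12 k03 k13 k23 k04 k14 k24 k34 k05 k15 k25 k35 k45) p)).sum := by
    simp only [pl0, List.map_cons, List.map_nil, List.sum_cons, List.sum_nil, Nat.add_zero]
    rfl
  have hw : SAW b k01 k02 k12 k03 k13 k23 k04 k14 k24 k34 k05 k15 k25 k35 k45 = (plW.map fun p => fw b (res (st k01 k02 k12 k03 k13 k23 k04 k14 k24 k34 k05 k15 k25 k35 k45) p)).sum := by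
    simp only [plW, List.map_cons, List.map_nil, List.sum_cons, List.sum_nil, Nat.add_zero]
    rfl
  rw [GG, GS, h4, h2, h0, hw]
  rfl

end Pool.Agent.C44.S6
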