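import Pool.Agent.C44.SixI

/-!
# The pointwise bound on six points: reduction to locally minimal codes
-/

set_option autoImplicit false
set_option maxHeartbeats 4000000
set_option maxRecDepth 100000

namespace Pool.Agent.C44.S6

/-- colour transpositions -/
def cs1 (x : Fin 3) : Fin 3 := match x with | 0 => 1 | 1 => 0 | 2 => 2
def cs2 (x : Fin 3) : Fin 3 := match x with | 0 => 0 | 1 => 2 | 2 => 1
noncomputable def s1 (x : ℕ) : ℕ := sel x 1 0 2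
noncomputable def s2 (x : ℕ) : ℕ := sel x 0 2 1

theorem s1_eq (x : Fin 3) : s1 x = (cs1 x : ℕ) := by fin_cases x <;> rfl
theorem s2_eq (x : Fin 3) : s2 x = (cs2 x : ℕ) := by fin_cases x <;> rfl

/-- invariance of the building blocks under a colour map -/
structure ColSym (b : Blk) (e : Fin 3 → Fin 3) : Prop where
  fa : ∀ s0 s1 s2 s3 s4 s5 p q r s u v w z : Fin 3, b.e4 (e s0) (e s1) (e s2) (e s3) (e s4) (e s5) (e p) (e q) (e r) (e s) (e u) (e v) (e w) (e z) = b.e4 s0 s1 s2 s3 s4 s5 p q r s u v w z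
  fb : ∀ s p q r t m u v w x n : Fin 3, b.e2 (e s) (e p) (e q) (e r) (e t) (e m) (e u) (e v) (e w) (e x) (e n) = b.e2 s p q r t m u v w x n
  fc : ∀ p q r u v w : Fin 3, b.e0 (e p) (e q) (e r) (e u) (e v) (e w) = b.e0 p q r u v w
  fd : ∀ x y z u v w a b' c : Fin 3, b.ew (e x) (e y) (e z) (e u) (e v) (e w) (e a) (e b') (e c) = b.ew x y z u v w a b' c

theorem SA4_col {b : Blk} {e : Fin 3 → Fin 3} (h : ColSym b e) (k01 k02 k12 k03 k13 k23 k04 k14 k24 k34 k05 k15 k25 k35 k45 : Fin 3) :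
    SA4 b (e k01) (e k02) (e k12) (e k03) (e k13) (e k23) (e k04) (e k14) (e k24) (e k34) (e k05) (e k15) (e k25) (e k35) (e k45) = SA4 b k01 k02 k12 k03 k13 k23 k04 k14 k24 k34 k05 k15 k25 k35 k45 := by
  unfold SA4
  simp only [h.fa]

theorem SA2_col {b : Blk} {e : Fin 3 → Fin 3} (h : ColSym b e) (k01 k02 k12 k03 k13 k23 k04 k14 k24 k34 k05 k15 k25 k35 k45 : Fin 3) :
    SA2 b (e k01) (e k02) (e k12) (e k03) (e k13) (e k23) (e k04) (e k14) (e k24) (e k34) (e k05) (e k15) (e k25) (e k35) (e k45) = SA2 b k01 k02 k12 k03 k13 k23 k04 k14 k24 k34 k05 k15 k25 k35 k45 := by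
  unfold SA2
  simp only [h.fb]

theorem SA0_col {b : Blk} {e : Fin 3 → Fin 3} (h : ColSym b e) (k01 k02 k12 k03 k13 k23 k04 k14 k24 k34 k05 k15 k25 k35 k45 : Fin 3) :
    SA0 b (e k01) (e k02) (e k12) (e k03) (e k13) (e k23) (e k04) (e k14) (e k24) (e k34) (e k05) (e k15) (e k25) (e k35) (e k45) = SA0 b k01 k02 k12 k03 k13 k23 k04 k14 k24 k34 k05 k15 k25 k35 k45 := by
  unfold SA0
  simp only [h.fc]

theorem SAW_col {b : Blk} {e : Fin 3 → Fin 3} (h : ColSym b e) (k01 k02 k12 k03 k13 k23 k04 k14 k24 k34 k05 k15 k25 k35 k45 : Fin 3) :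
    SAW b (e k01) (e k02) (e k12) (e k03) (e k13) (e k23) (e k04) (e k14) (e k24) (e k34) (e k05) (e k15) (e k25) (e k35) (e k45) = SAW b k01 k02 k12 k03 k13 k23 k04 k14 k24 k34 k05 k15 k25 k35 k45 := by
  unfold SAW
  simp only [h.fd]

theorem GG_col {b : Blk} {e : Fin 3 → Fin 3} (h : ColSym b e) (k01 k02 k12 k03 k13 k23 k04 k14 k24 k34 k05 k15 k25 k35 k45 : Fin 3) :
    GG b (e k01) (e k02) (e k12) (e k03) (e k13) (e k23) (e k04) (e k14) (e k24) (e k34) (e k05) (e k15) (e k25) (e k35) (e k45) = GG b k01 k02 k12 k03 k13 k23 k04 k14 k24 k34 k05 k15 k25 k35 k45 := by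
  unfold GG
  rw [SA4_col h, SA2_col h, SA0_col h, SAW_col h]

/-- all symmetries -/
structure SymA (b : Blk) : Prop where
  v : Sym b
  x : ColSym b cs1
  y : ColSym b cs2

theorem tr01 {b : Blk} (h : Sym b) (k01 k02 k12 k03 k13 k23 k04 k14 k24 k34 k05 k15 k25 k35 k45 : Fin 3) :
    GG b k01 k12 k02 k13 k03 k23 k14 k04 k24 k34 k15 k05 k25 k35 k45 = GG b k01 k02 k12 k03 k13 k23 k04 k14 k24 k34 k05 k15 k25 k35 k45 := by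
  exact (GG_m0 h k01 k02 k12 k03 k13 k23 k04 k14 k24 k34 k05 k15 k25 k35 k45)

theorem tr02 {b : Blk} (h : Sym b) (k01 k02 k12 k03 k13 k23 k04 k14 k24 k34 k05 k15 k25 k35 k45 : Fin 3) :
    GG b k12 k02 k01 k23 k13 k03 k24 k14 k04 k34 k25 k15 k05 k35 k45 = GG b k01 k02 k12 k03 k13 k23 k04 k14 k24 k34 k05 k15 k25 k35 k45 := by
  exact ((GG_m0 h k12 k01 k02 k13 k23 k03 k14 k24 k04 k34 k15 k25 k05 k35 k45).trans ((GG_m1 h k01 k12 k02 k13 k03 k23 k14 k04 k24 k34 k15 k05 k25 k35 k45).trans (GG_m0 h k01 k02 k12 k03 k13 k23 k04 k14 k24 k34 k05 k15 k25 k35 k45)))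

theorem tr03 {b : Blk} (h : Sym b) (k01 k02 k12 k03 k13 k23 k04 k14 k24 k34 k05 k15 k25 k35 k45 : Fin 3) :
    GG b k13 k23 k12 k03 k01 k02 k34 k14 k24 k04 k35 k15 k25 k05 k45 = GG b k01 k02 k12 k03 k13 k23 k04 k14 k24 k34 k05 k15 k25 k35 k45 := by
  exact ((GG_m0 h k13 k12 k23 k01 k03 k02 k14 k34 k24 k04 k15 k35 k25 k05 k45).trans ((GG_m1 h k12 k13 k23 k01 k02 k03 k14 k24 k34 k04 k15 k25 k35 k05 k45).trans ((GG_m2 h k12 k01 k02 k13 k23 k03 k14 k24 k04 k34 k15 k25 k05 k35 k45).trans ((GG_m1 h k01 k12 k02 k13 k03 k23 k14 k04 k24 k34 k15 k05 k25 k35 k45).trans (GG_m0 h k01 k02 k12 k03 k13 k23 k04 k14 k24 k34 k05 k15 k25 k35 k45)))))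

theorem tr04 {b : Blk} (h : Sym b) (k01 k02 k12 k03 k13 k23 k04 k14 k24 k34 k05 k15 k25 k35 k45 : Fin 3) :
    GG b k14 k24 k12 k34 k13 k23 k04 k01 k02 k03 k45 k15 k25 k35 k05 = GG b k01 k02 k12 k03 k13 k23 k04 k14 k24 k34 k05 k15 k25 k35 k45 := by
  exact ((GG_m0 h k14 k12 k24 k13 k34 k23 k01 k04 k02 k03 k15 k45 k25 k35 k05).trans ((GG_m1 h k12 k14 k24 k13 k23 k34 k01 k02 k04 k03 k15 k25 k45 k35 k05).trans ((GG_m2 h k12 k13 k23 k14 k24 k34 k01 k02 k03 k04 k15 k25 k35 k45 k05).trans ((GG_m3 h k12 k13 k23 k01 k02 k03 k14 k24 k34 k04 k15 k25 k35 k05 k45).trans ((GG_m2 h k12 k01 k02 k13 k23 k03 k14 k24 k04 k34 k15 k25 k05 k35 k45).trans ((GG_m1 h k01 k12 k02 k13 k03 k23 k14 k04 k24 k34 k15 k05 k25 k35 k45).trans (GG_m0 h k01 k02 k12 k03 k13 k23 k04 k14 k24 k34 k05 k15 k25 k35 k45)))))))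

theorem tr05 {b : Blk} (h : Sym b) (k01 k02 k12 k03 k13 k23 k04 k14 k24 k34 k05 k15 k25 k35 k45 : Fin 3) :
    GG b k15 k25 k12 k35 k13 k23 k45 k14 k24 k34 k05 k01 k02 k03 k04 = GG b k01 k02 k12 k03 k13 k23 k04 k14 k24 k34 k05 k15 k25 k35 k45 := by
  exact ((GG_m0 h k15 k12 k25 k13 k35 k23 k14 k45 k24 k34 k01 k05 k02 k03 k04).trans ((GG_m1 h k12 k15 k25 k13 k23 k35 k14 k24 k45 k34 k01 k02 k05 k03 k04).trans ((GG_m2 h k12 k13 k23 k15 k25 k35 k14 k24 k34 k45 k01 k02 k03 k05 k04).trans ((GG_m3 h k12 k13 k23 k14 k24 k34 k15 k25 k35 k45 k01 k02 k03 k04 k05).trans ((GG_m4 h k12 k13 k23 k14 k24 k34 k01 k02 k03 k04 k15 k25 k35 k45 k05).trans ((GG_m3 h k12 k13 k23 k01 k02 k03 k14 k24 k34 k04 k15 k25 k35 k05 k45).trans ((GG_m2 h k12 k01 k02 k13 k23 k03 k14 k24 k04 k34 k15 k25 k05 k35 k45).trans ((GG_m1 h k01 k12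 k02 k13 k03 k23 k14 k04 k24 k34 k15 k05 k25 k35 k45).trans (GG_m0 h k01 k02 k12 k03 k13 k23 k04 k14 k24 k34 k05 k15 k25 k35 k45)))))))))

theorem tr12 {b : Blk} (h : Sym b) (k01 k02 k12 k03 k13 k23 k04 k14 k24 k34 k05 k15 k25 k35 k45 : Fin 3) :
    GG b k02 k01 k12 k03 k23 k13 k04 k24 k14 k34 k05 k25 k15 k35 k45 = GG b k01 k02 k12 k03 k13 k23 k04 k14 k24 k34 k05 k15 k25 k35 k45 := by
  exact (GG_m1 h k01 k02 k12 k03 k13 k23 k04 k14 k24 k34 k05 k15 k25 k35 k45)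

theorem tr13 {b : Blk} (h : Sym b) (k01 k02 k12 k03 k13 k23 k04 k14 k24 k34 k05 k15 k25 k35 k45 : Fin 3) :
    GG b k03 k02 k23 k01 k13 k12 k04 k34 k24 k14 k05 k35 k25 k15 k45 = GG b k01 k02 k12 k03 k13 k23 k04 k14 k24 k34 k05 k15 k25 k35 k45 := by
  exact ((GG_m1 h k02 k03 k23 k01 k12 k13 k04 k24 k34 k14 k05 k25 k35 k15 k45).trans ((GG_m2 h k02 k01 k12 k03 k23 k13 k04 k24 k14 k34 k05 k25 k15 k35 k45).trans (GG_m1 h k01 k02 k12 k03 k13 k23 k04 k14 k24 k34 k05 k15 k25 k35 k45)))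

theorem tr14 {b : Blk} (h : Sym b) (k01 k02 k12 k03 k13 k23 k04 k14 k24 k34 k05 k15 k25 k35 k45 : Fin 3) :
    GG b k04 k02 k24 k03 k34 k23 k01 k14 k12 k13 k05 k45 k25 k35 k15 = GG b k01 k02 k12 k03 k13 k23 k04 k14 k24 k34 k05 k15 k25 k35 k45 := by
  exact ((GG_m1 h k02 k04 k24 k03 k23 k34 k01 k12 k14 k13 k05 k25 k45 k35 k15).trans ((GG_m2 h k02 k03 k23 k04 k24 k34 k01 k12 k13 k14 k05 k25 k35 k45 k15).trans ((GG_m3 h k02 k03 k23 k01 k12 k13 k04 k24 k34 k14 k05 k25 k35 k15 k45).trans ((GG_m2 h k02 k01 k12 k03 k23 k13 k04 k24 k14 k34 k05 k25 k15 k35 k45).trans (GG_m1 h k01 k02 k12 k03 k13 k23 k04 k14 k24 k34 k05 k15 k25 k35 k45)))))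

theorem tr15 {b : Blk} (h : Sym b) (k01 k02 k12 k03 k13 k23 k04 k14 k24 k34 k05 k15 k25 k35 k45 : Fin 3) :
    GG b k05 k02 k25 k03 k35 k23 k04 k45 k24 k34 k01 k15 k12 k13 k14 = GG b k01 k02 k12 k03 k13 k23 k04 k14 k24 k34 k05 k15 k25 k35 k45 := by
  exact ((GG_m1 h k02 k05 k25 k03 k23 k35 k04 k24 k45 k34 k01 k12 k15 k13 k14).trans ((GG_m2 h k02 k03 k23 k05 k25 k35 k04 k24 k34 k45 k01 k12 k13 k15 k14).trans ((GG_m3 h k02 k03 k23 k04 k24 k34 k05 k25 k35 k45 k01 k12 k13 k14 k15).trans ((GG_m4 h k02 k03 k23 k04 k24 k34 k01 k12 k13 k14 k05 k25 k35 k45 k15).trans ((GG_m3 h k02 k03 k23 k01 k12 k13 k04 k24 k34 k14 k05 k25 k35 k15 k45).trans ((GG_m2 h k02 k01 k12 k03 k23 k13 k04 k24 k14 k34 k05 k25 k15 k35 k45).trans (GG_m1 h k01 k02 k12 k03 k13 k23 k04 k14 k24 k34 k05 k15 k25 k35 k45)))))))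

theorem tr23 {b : Blk} (h : Sym b) (k01 k02 k12 k03 k13 k23 k04 k14 k24 k34 k05 k15 k25 k35 k45 : Fin 3) :
    GG b k01 k03 k13 k02 k12 k23 k04 k14 k34 k24 k05 k15 k35 k25 k45 = GG b k01 k02 k12 k03 k13 k23 k04 k14 k24 k34 k05 k15 k25 k35 k45 := by
  exact (GG_m2 h k01 k02 k12 k03 k13 k23 k04 k14 k24 k34 k05 k15 k25 k35 k45)

theorem tr24 {b : Blk} (h : Sym b) (k01 k02 k12 k03 k13 k23 k04 k14 k24 k34 k05 k15 k25 k35 k45 : Fin 3) :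
    GG b k01 k04 k14 k03 k13 k34 k02 k12 k24 k23 k05 k15 k45 k35 k25 = GG b k01 k02 k12 k03 k13 k23 k04 k14 k24 k34 k05 k15 k25 k35 k45 := by
  exact ((GG_m2 h k01 k03 k13 k04 k14 k34 k02 k12 k23 k24 k05 k15 k35 k45 k25).trans ((GG_m3 h k01 k03 k13 k02 k12 k23 k04 k14 k34 k24 k05 k15 k35 k25 k45).trans (GG_m2 h k01 k02 k12 k03 k13 k23 k04 k14 k24 k34 k05 k15 k25 k35 k45)))

theorem tr25 {b : Blk} (h : Sym b) (k01 k02 k12 k03 k13 k23 k04 k14 k24 k34 k05 k15 k25 k35 k45 : Fin 3) :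
    GG b k01 k05 k15 k03 k13 k35 k04 k14 k45 k34 k02 k12 k25 k23 k24 = GG b k01 k02 k12 k03 k13 k23 k04 k14 k24 k34 k05 k15 k25 k35 k45 := by
  exact ((GG_m2 h k01 k03 k13 k05 k15 k35 k04 k14 k34 k45 k02 k12 k23 k25 k24).trans ((GG_m3 h k01 k03 k13 k04 k14 k34 k05 k15 k35 k45 k02 k12 k23 k24 k25).trans ((GG_m4 h k01 k03 k13 k04 k14 k34 k02 k12 k23 k24 k05 k15 k35 k45 k25).trans ((GG_m3 h k01 k03 k13 k02 k12 k23 k04 k14 k34 k24 k05 k15 k35 k25 k45).trans (GG_m2 h k01 k02 k12 k03 k13 k23 k04 k14 k24 k34 k05 k15 k25 k35 k45)))))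

theorem tr34 {b : Blk} (h : Sym b) (k01 k02 k12 k03 k13 k23 k04 k14 k24 k34 k05 k15 k25 k35 k45 : Fin 3) :
    GG b k01 k02 k12 k04 k14 k24 k03 k13 k23 k34 k05 k15 k25 k45 k35 = GG b k01 k02 k12 k03 k13 k23 k04 k14 k24 k34 k05 k15 k25 k35 k45 := by
  exact (GG_m3 h k01 k02 k12 k03 k13 k23 k04 k14 k24 k34 k05 k15 k25 k35 k45)

theorem tr35 {b : Blk} (h : Sym b) (k01 k02 k12 k03 k13 k23 k04 k14 k24 k34 k05 k15 k25 k35 k45 : Fin 3) :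
    GG b k01 k02 k12 k05 k15 k25 k04 k14 k24 k45 k03 k13 k23 k35 k34 = GG b k01 k02 k12 k03 k13 k23 k04 k14 k24 k34 k05 k15 k25 k35 k45 := by
  exact ((GG_m3 h k01 k02 k12 k04 k14 k24 k05 k15 k25 k45 k03 k13 k23 k34 k35).trans ((GG_m4 h k01 k02 k12 k04 k14 k24 k03 k13 k23 k34 k05 k15 k25 k45 k35).trans (GG_m3 h k01 k02 k12 k03 k13 k23 k04 k14 k24 k34 k05 k15 k25 k35 k45)))

theorem tr45 {b : Blk} (h : Sym b) (k01 k02 k12 k03 k13 k23 k04 k14 k24 k34 k05 k15 k25 k35 k45 : Fin 3) :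
    GG b k01 k02 k12 k03 k13 k23 k05 k15 k25 k35 k04 k14 k24 k34 k45 = GG b k01 k02 k12 k03 k13 k23 k04 k14 k24 k34 k05 k15 k25 k35 k45 := by
  exact (GG_m4 h k01 k02 k12 k03 k13 k23 k04 k14 k24 k34 k05 k15 k25 k35 k45)

theorem mv_id_1 {b : Blk} (h : SymA b) (k01 k02 k12 k03 k13 k23 k04 k14 k24 k34 k05 k15 k25 k35 k45 : Fin 3) :
    GG b (cs1 k01) (cs1 k02) (cs1 k12) (cs1 k03) (cs1 k13) (cs1 k23) (cs1 k04) (cs1 k14) (cs1 k24) (cs1 k34) (cs1 k05) (cs1 k15) (cs1 k25) (cs1 k35) (cs1 k45) = GG b k01 k02 k12 k03 k13 k23 k04 k14 k24 k34 k05 k15 k25 k35 k45 :=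
  GG_col h.x k01 k02 k12 k03 k13 k23 k04 k14 k24 k34 k05 k15 k25 k35 k45

theorem mv_id_2 {b : Blk} (h : SymA b) (k01 k02 k12 k03 k13 k23 k04 k14 k24 k34 k05 k15 k25 k35 k45 : Fin 3) :
    GG b (cs2 k01) (cs2 k02) (cs2 k12) (cs2 k03) (cs2 k13) (cs2 k23) (cs2 k04) (cs2 k14) (cs2 k24) (cs2 k34) (cs2 k05) (cs2 k15) (cs2 k25) (cs2 k35) (cs2 k45) = GG b k01 k02 k12 k03 k13 k23 k04 k14 k24 k34 k05 k15 k25 k35 k45 :=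
  GG_col h.y k01 k02 k12 k03 k13 k23 k04 k14 k24 k34 k05 k15 k25 k35 k45

theorem mv_01_0 {b : Blk} (h : SymA b) (k01 k02 k12 k03 k13 k23 k04 k14 k24 k34 k05 k15 k25 k35 k45 : Fin 3) :
    GG b k01 k12 k02 k13 k03 k23 k14 k04 k24 k34 k15 k05 k25 k35 k45 = GG b k01 k02 k12 k03 k13 k23 k04 k14 k24 k34 k05 k15 k25 k35 k45 :=
  tr01 h.v k01 k02 k12 k03 k13 k23 k04 k14 k24 k34 k05 k15 k25 k35 k45

theorem mv_01_1 {b : Blk} (h : SymA b) (k01 k02 k12 k03 k13 k23 k04 k14 k24 k34 k05 k15 k25 k35 k45 : Fin 3) :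
    GG b (cs1 k01) (cs1 k12) (cs1 k02) (cs1 k13) (cs1 k03) (cs1 k23) (cs1 k14) (cs1 k04) (cs1 k24) (cs1 k34) (cs1 k15) (cs1 k05) (cs1 k25) (cs1 k35) (cs1 k45) = GG b k01 k02 k12 k03 k13 k23 k04 k14 k24 k34 k05 k15 k25 k35 k45 :=
  (GG_col h.x k01 k12 k02 k13 k03 k23 k14 k04 k24 k34 k15 k05 k25 k35 k45).trans (tr01 h.v k01 k02 k12 k03 k13 k23 k04 k14 k24 k34 k05 k15 k25 k35 k45)

theorem mv_01_2 {b : Blk} (h : SymA b) (k01 k02 k12 k03 k13 k23 k04 k14 k24 k34 k05 k15 k25 k35 k45 : Fin 3) :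
    GG b (cs2 k01) (cs2 k12) (cs2 k02) (cs2 k13) (cs2 k03) (cs2 k23) (cs2 k14) (cs2 k04) (cs2 k24) (cs2 k34) (cs2 k15) (cs2 k05) (cs2 k25) (cs2 k35) (cs2 k45) = GG b k01 k02 k12 k03 k13 k23 k04 k14 k24 k34 k05 k15 k25 k35 k45 :=
  (GG_col h.y k01 k12 k02 k13 k03 k23 k14 k04 k24 k34 k15 k05 k25 k35 k45).trans (tr01 h.v k01 k02 k12 k03 k13 k23 k04 k14 k24 k34 k05 k15 k25 k35 k45)

theorem mv_02_0 {b : Blk} (h : SymA b) (k01 k02 k12 k03 k13 k23 k04 k14 k24 k34 k05 k15 k25 k35 k45 : Fin 3) :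
    GG b k12 k02 k01 k23 k13 k03 k24 k14 k04 k34 k25 k15 k05 k35 k45 = GG b k01 k02 k12 k03 k13 k23 k04 k14 k24 k34 k05 k15 k25 k35 k45 :=
  tr02 h.v k01 k02 k12 k03 k13 k23 k04 k14 k24 k34 k05 k15 k25 k35 k45

theorem mv_02_1 {b : Blk} (h : SymA b) (k01 k02 k12 k03 k13 k23 k04 k14 k24 k34 k05 k15 k25 k35 k45 : Fin 3) :
    GG b (cs1 k12) (cs1 k02) (cs1 k01) (cs1 k23) (cs1 k13) (cs1 k03) (cs1 k24) (cs1 k14) (cs1 k04) (cs1 k34) (cs1 k25) (cs1 k15) (cs1 k05) (cs1 k35) (cs1 k45) = GG b k01 k02 k12 k03 k13 k23 k04 k14 k24 k34 k05 k15 k25 k35 k45 :=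
  (GG_col h.x k12 k02 k01 k23 k13 k03 k24 k14 k04 k34 k25 k15 k05 k35 k45).trans (tr02 h.v k01 k02 k12 k03 k13 k23 k04 k14 k24 k34 k05 k15 k25 k35 k45)

theorem mv_02_2 {b : Blk} (h : SymA b) (k01 k02 k12 k03 k13 k23 k04 k14 k24 k34 k05 k15 k25 k35 k45 : Fin 3) :
    GG b (cs2 k12) (cs2 k02) (cs2 k01) (cs2 k23) (cs2 k13) (cs2 k03) (cs2 k24) (cs2 k14) (cs2 k04) (cs2 k34) (cs2 k25) (cs2 k15) (cs2 k05) (cs2 k35) (cs2 k45) = GG b k01 k02 k12 k03 k13 k23 k04 k14 k24 k34 k05 k15 k25 k35 k45 :=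
  (GG_col h.y k12 k02 k01 k23 k13 k03 k24 k14 k04 k34 k25 k15 k05 k35 k45).trans (tr02 h.v k01 k02 k12 k03 k13 k23 k04 k14 k24 k34 k05 k15 k25 k35 k45)

theorem mv_03_0 {b : Blk} (h : SymA b) (k01 k02 k12 k03 k13 k23 k04 k14 k24 k34 k05 k15 k25 k35 k45 : Fin 3) :
    GG b k13 k23 k12 k03 k01 k02 k34 k14 k24 k04 k35 k15 k25 k05 k45 = GG b k01 k02 k12 k03 k13 k23 k04 k14 k24 k34 k05 k15 k25 k35 k45 :=
  tr03 h.v k01 k02 k12 k03 k13 k23 k04 k14 k24 k34 k05 k15 k25 k35 k45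

theorem mv_03_1 {b : Blk} (h : SymA b) (k01 k02 k12 k03 k13 k23 k04 k14 k24 k34 k05 k15 k25 k35 k45 : Fin 3) :
    GG b (cs1 k13) (cs1 k23) (cs1 k12) (cs1 k03) (cs1 k01) (cs1 k02) (cs1 k34) (cs1 k14) (cs1 k24) (cs1 k04) (cs1 k35) (cs1 k15) (cs1 k25) (cs1 k05) (cs1 k45) = GG b k01 k02 k12 k03 k13 k23 k04 k14 k24 k34 k05 k15 k25 k35 k45 :=
  (GG_col h.x k13 k23 k12 k03 k01 k02 k34 k14 k24 k04 k35 k15 k25 k05 k45).trans (tr03 h.v k01 k02 k12 k03 k13 k23 k04 k14 k24 k34 k05 k15 k25 k35 k45)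

theorem mv_03_2 {b : Blk} (h : SymA b) (k01 k02 k12 k03 k13 k23 k04 k14 k24 k34 k05 k15 k25 k35 k45 : Fin 3) :
    GG b (cs2 k13) (cs2 k23) (cs2 k12) (cs2 k03) (cs2 k01) (cs2 k02) (cs2 k34) (cs2 k14) (cs2 k24) (cs2 k04) (cs2 k35) (cs2 k15) (cs2 k25) (cs2 k05) (cs2 k45) = GG b k01 k02 k12 k03 k13 k23 k04 k14 k24 k34 k05 k15 k25 k35 k45 :=
  (GG_col h.y k13 k23 k12 k03 k01 k02 k34 k14 k24 k04 k35 k15 k25 k05 k45).trans (tr03 h.v k01 k02 k12 k03 k13 k23 k04 k14 k24 k34 k05 k15 k25 k35 k45)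

theorem mv_04_0 {b : Blk} (h : SymA b) (k01 k02 k12 k03 k13 k23 k04 k14 k24 k34 k05 k15 k25 k35 k45 : Fin 3) :
    GG b k14 k24 k12 k34 k13 k23 k04 k01 k02 k03 k45 k15 k25 k35 k05 = GG b k01 k02 k12 k03 k13 k23 k04 k14 k24 k34 k05 k15 k25 k35 k45 :=
  tr04 h.v k01 k02 k12 k03 k13 k23 k04 k14 k24 k34 k05 k15 k25 k35 k45

theorem mv_04_1 {b : Blk} (h : SymA b) (k01 k02 k12 k03 k13 k23 k04 k14 k24 k34 k05 k15 k25 k35 k45 : Fin 3) :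
    GG b (cs1 k14) (cs1 k24) (cs1 k12) (cs1 k34) (cs1 k13) (cs1 k23) (cs1 k04) (cs1 k01) (cs1 k02) (cs1 k03) (cs1 k45) (cs1 k15) (cs1 k25) (cs1 k35) (cs1 k05) = GG b k01 k02 k12 k03 k13 k23 k04 k14 k24 k34 k05 k15 k25 k35 k45 :=
  (GG_col h.x k14 k24 k12 k34 k13 k23 k04 k01 k02 k03 k45 k15 k25 k35 k05).trans (tr04 h.v k01 k02 k12 k03 k13 k23 k04 k14 k24 k34 k05 k15 k25 k35 k45)

theorem mv_04_2 {b : Blk} (h : SymA b) (k01 k02 k12 k03 k13 k23 k04 k14 k24 k34 k05 k15 k25 k35 k45 : Fin 3) :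
    GG b (cs2 k14) (cs2 k24) (cs2 k12) (cs2 k34) (cs2 k13) (cs2 k23) (cs2 k04) (cs2 k01) (cs2 k02) (cs2 k03) (cs2 k45) (cs2 k15) (cs2 k25) (cs2 k35) (cs2 k05) = GG b k01 k02 k12 k03 k13 k23 k04 k14 k24 k34 k05 k15 k25 k35 k45 :=
  (GG_col h.y k14 k24 k12 k34 k13 k23 k04 k01 k02 k03 k45 k15 k25 k35 k05).trans (tr04 h.v k01 k02 k12 k03 k13 k23 k04 k14 k24 k34 k05 k15 k25 k35 k45)

theorem mv_05_0 {b : Blk} (h : SymA b) (k01 k02 k12 k03 k13 k23 k04 k14 k24 k34 k05 k15 k25 k35 k45 : Fin 3) :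
    GG b k15 k25 k12 k35 k13 k23 k45 k14 k24 k34 k05 k01 k02 k03 k04 = GG b k01 k02 k12 k03 k13 k23 k04 k14 k24 k34 k05 k15 k25 k35 k45 :=
  tr05 h.v k01 k02 k12 k03 k13 k23 k04 k14 k24 k34 k05 k15 k25 k35 k45

theorem mv_05_1 {b : Blk} (h : SymA b) (k01 k02 k12 k03 k13 k23 k04 k14 k24 k34 k05 k15 k25 k35 k45 : Fin 3) :
    GG b (cs1 k15) (cs1 k25) (cs1 k12) (cs1 k35) (cs1 k13) (cs1 k23) (cs1 k45) (cs1 k14) (cs1 k24) (cs1 k34) (cs1 k05) (cs1 k01) (cs1 k02) (cs1 k03) (cs1 k04) = GG b k01 k02 k12 k03 k13 k23 k04 k14 k24 k34 k05 k15 k25 k35 k45 :=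
  (GG_col h.x k15 k25 k12 k35 k13 k23 k45 k14 k24 k34 k05 k01 k02 k03 k04).trans (tr05 h.v k01 k02 k12 k03 k13 k23 k04 k14 k24 k34 k05 k15 k25 k35 k45)

theorem mv_05_2 {b : Blk} (h : SymA b) (k01 k02 k12 k03 k13 k23 k04 k14 k24 k34 k05 k15 k25 k35 k45 : Fin 3) :
    GG b (cs2 k15) (cs2 k25) (cs2 k12) (cs2 k35) (cs2 k13) (cs2 k23) (cs2 k45) (cs2 k14) (cs2 k24) (cs2 k34) (cs2 k05) (cs2 k01) (cs2 k02) (cs2 k03) (cs2 k04) = GG b k01 k02 k12 k03 k13 k23 k04 k14 k24 k34 k05 k15 k25 k35 k45 :=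
  (GG_col h.y k15 k25 k12 k35 k13 k23 k45 k14 k24 k34 k05 k01 k02 k03 k04).trans (tr05 h.v k01 k02 k12 k03 k13 k23 k04 k14 k24 k34 k05 k15 k25 k35 k45)

theorem mv_12_0 {b : Blk} (h : SymA b) (k01 k02 k12 k03 k13 k23 k04 k14 k24 k34 k05 k15 k25 k35 k45 : Fin 3) :
    GG b k02 k01 k12 k03 k23 k13 k04 k24 k14 k34 k05 k25 k15 k35 k45 = GG b k01 k02 k12 k03 k13 k23 k04 k14 k24 k34 k05 k15 k25 k35 k45 :=
  tr12 h.v k01 k02 k12 k03 k13 k23 k04 k14 k24 k34 k05 k15 k25 k35 k45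

theorem mv_12_1 {b : Blk} (h : SymA b) (k01 k02 k12 k03 k13 k23 k04 k14 k24 k34 k05 k15 k25 k35 k45 : Fin 3) :
    GG b (cs1 k02) (cs1 k01) (cs1 k12) (cs1 k03) (cs1 k23) (cs1 k13) (cs1 k04) (cs1 k24) (cs1 k14) (cs1 k34) (cs1 k05) (cs1 k25) (cs1 k15) (cs1 k35) (cs1 k45) = GG b k01 k02 k12 k03 k13 k23 k04 k14 k24 k34 k05 k15 k25 k35 k45 :=
  (GG_col h.x k02 k01 k12 k03 k23 k13 k04 k24 k14 k34 k05 k25 k15 k35 k45).trans (tr12 h.v k01 k02 k12 k03 k13 k23 k04 k14 k24 k34 k05 k15 k25 k35 k45)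

theorem mv_12_2 {b : Blk} (h : SymA b) (k01 k02 k12 k03 k13 k23 k04 k14 k24 k34 k05 k15 k25 k35 k45 : Fin 3) :
    GG b (cs2 k02) (cs2 k01) (cs2 k12) (cs2 k03) (cs2 k23) (cs2 k13) (cs2 k04) (cs2 k24) (cs2 k14) (cs2 k34) (cs2 k05) (cs2 k25) (cs2 k15) (cs2 k35) (cs2 k45) = GG b k01 k02 k12 k03 k13 k23 k04 k14 k24 k34 k05 k15 k25 k35 k45 :=
  (GG_col h.y k02 k01 k12 k03 k23 k13 k04 k24 k14 k34 k05 k25 k15 k35 k45).trans (tr12 h.v k01 k02 k12 k03 k13 k23 k04 k14 k24 k34 k05 k15 k25 k35 k45)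

theorem mv_13_0 {b : Blk} (h : SymA b) (k01 k02 k12 k03 k13 k23 k04 k14 k24 k34 k05 k15 k25 k35 k45 : Fin 3) :
    GG b k03 k02 k23 k01 k13 k12 k04 k34 k24 k14 k05 k35 k25 k15 k45 = GG b k01 k02 k12 k03 k13 k23 k04 k14 k24 k34 k05 k15 k25 k35 k45 :=
  tr13 h.v k01 k02 k12 k03 k13 k23 k04 k14 k24 k34 k05 k15 k25 k35 k45

theorem mv_13_1 {b : Blk} (h : SymA b) (k01 k02 k12 k03 k13 k23 k04 k14 k24 k34 k05 k15 k25 k35 k45 : Fin 3) :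
    GG b (cs1 k03) (cs1 k02) (cs1 k23) (cs1 k01) (cs1 k13) (cs1 k12) (cs1 k04) (cs1 k34) (cs1 k24) (cs1 k14) (cs1 k05) (cs1 k35) (cs1 k25) (cs1 k15) (cs1 k45) = GG b k01 k02 k12 k03 k13 k23 k04 k14 k24 k34 k05 k15 k25 k35 k45 :=
  (GG_col h.x k03 k02 k23 k01 k13 k12 k04 k34 k24 k14 k05 k35 k25 k15 k45).trans (tr13 h.v k01 k02 k12 k03 k13 k23 k04 k14 k24 k34 k05 k15 k25 k35 k45)

theorem mv_13_2 {b : Blk} (h : SymA b) (k01 k02 k12 k03 k13 k23 k04 k14 k24 k34 k05 k15 k25 k35 k45 : Fin 3) :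
    GG b (cs2 k03) (cs2 k02) (cs2 k23) (cs2 k01) (cs2 k13) (cs2 k12) (cs2 k04) (cs2 k34) (cs2 k24) (cs2 k14) (cs2 k05) (cs2 k35) (cs2 k25) (cs2 k15) (cs2 k45) = GG b k01 k02 k12 k03 k13 k23 k04 k14 k24 k34 k05 k15 k25 k35 k45 :=
  (GG_col h.y k03 k02 k23 k01 k13 k12 k04 k34 k24 k14 k05 k35 k25 k15 k45).trans (tr13 h.v k01 k02 k12 k03 k13 k23 k04 k14 k24 k34 k05 k15 k25 k35 k45)

theorem mv_14_0 {b : Blk} (h : SymA b) (k01 k02 k12 k03 k13 k23 k04 k14 k24 k34 k05 k15 k25 k35 k45 : Fin 3) :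
    GG b k04 k02 k24 k03 k34 k23 k01 k14 k12 k13 k05 k45 k25 k35 k15 = GG b k01 k02 k12 k03 k13 k23 k04 k14 k24 k34 k05 k15 k25 k35 k45 :=
  tr14 h.v k01 k02 k12 k03 k13 k23 k04 k14 k24 k34 k05 k15 k25 k35 k45

theorem mv_14_1 {b : Blk} (h : SymA b) (k01 k02 k12 k03 k13 k23 k04 k14 k24 k34 k05 k15 k25 k35 k45 : Fin 3) :
    GG b (cs1 k04) (cs1 k02) (cs1 k24) (cs1 k03) (cs1 k34) (cs1 k23) (cs1 k01) (cs1 k14) (cs1 k12) (cs1 k13) (cs1 k05) (cs1 k45) (cs1 k25) (cs1 k35) (cs1 k15) = GG b k01 k02 k12 k03 k13 k23 k04 k14 k24 k34 k05 k15 k25 k35 k45 :=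
  (GG_col h.x k04 k02 k24 k03 k34 k23 k01 k14 k12 k13 k05 k45 k25 k35 k15).trans (tr14 h.v k01 k02 k12 k03 k13 k23 k04 k14 k24 k34 k05 k15 k25 k35 k45)

theorem mv_14_2 {b : Blk} (h : SymA b) (k01 k02 k12 k03 k13 k23 k04 k14 k24 k34 k05 k15 k25 k35 k45 : Fin 3) :
    GG b (cs2 k04) (cs2 k02) (cs2 k24) (cs2 k03) (cs2 k34) (cs2 k23) (cs2 k01) (cs2 k14) (cs2 k12) (cs2 k13) (cs2 k05) (cs2 k45) (cs2 k25) (cs2 k35) (cs2 k15) = GG b k01 k02 k12 k03 k13 k23 k04 k14 k24 k34 k05 k15 k25 k35 k45 :=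
  (GG_col h.y k04 k02 k24 k03 k34 k23 k01 k14 k12 k13 k05 k45 k25 k35 k15).trans (tr14 h.v k01 k02 k12 k03 k13 k23 k04 k14 k24 k34 k05 k15 k25 k35 k45)

theorem mv_15_0 {b : Blk} (h : SymA b) (k01 k02 k12 k03 k13 k23 k04 k14 k24 k34 k05 k15 k25 k35 k45 : Fin 3) :
    GG b k05 k02 k25 k03 k35 k23 k04 k45 k24 k34 k01 k15 k12 k13 k14 = GG b k01 k02 k12 k03 k13 k23 k04 k14 k24 k34 k05 k15 k25 k35 k45 :=
  tr15 h.v k01 k02 k12 k03 k13 k23 k04 k14 k24 k34 k05 k15 k25 k35 k45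

theorem mv_15_1 {b : Blk} (h : SymA b) (k01 k02 k12 k03 k13 k23 k04 k14 k24 k34 k05 k15 k25 k35 k45 : Fin 3) :
    GG b (cs1 k05) (cs1 k02) (cs1 k25) (cs1 k03) (cs1 k35) (cs1 k23) (cs1 k04) (cs1 k45) (cs1 k24) (cs1 k34) (cs1 k01) (cs1 k15) (cs1 k12) (cs1 k13) (cs1 k14) = GG b k01 k02 k12 k03 k13 k23 k04 k14 k24 k34 k05 k15 k25 k35 k45 :=
  (GG_col h.x k05 k02 k25 k03 k35 k23 k04 k45 k24 k34 k01 k15 k12 k13 k14).trans (tr15 h.v k01 k02 k12 k03 k13 k23 k04 k14 k24 k34 k05 k15 k25 k35 k45)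

theorem mv_15_2 {b : Blk} (h : SymA b) (k01 k02 k12 k03 k13 k23 k04 k14 k24 k34 k05 k15 k25 k35 k45 : Fin 3) :
    GG b (cs2 k05) (cs2 k02) (cs2 k25) (cs2 k03) (cs2 k35) (cs2 k23) (cs2 k04) (cs2 k45) (cs2 k24) (cs2 k34) (cs2 k01) (cs2 k15) (cs2 k12) (cs2 k13) (cs2 k14) = GG b k01 k02 k12 k03 k13 k23 k04 k14 k24 k34 k05 k15 k25 k35 k45 :=
  (GG_col h.y k05 k02 k25 k03 k35 k23 k04 k45 k24 k34 k01 k15 k12 k13 k14).trans (tr15 h.v k01 k02 k12 k03 k13 k23 k04 k14 k24 k34 k05 k15 k25 k35 k45)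

theorem mv_23_0 {b : Blk} (h : SymA b) (k01 k02 k12 k03 k13 k23 k04 k14 k24 k34 k05 k15 k25 k35 k45 : Fin 3) :
    GG b k01 k03 k13 k02 k12 k23 k04 k14 k34 k24 k05 k15 k35 k25 k45 = GG b k01 k02 k12 k03 k13 k23 k04 k14 k24 k34 k05 k15 k25 k35 k45 :=
  tr23 h.v k01 k02 k12 k03 k13 k23 k04 k14 k24 k34 k05 k15 k25 k35 k45

theorem mv_23_1 {b : Blk} (h : SymA b) (k01 k02 k12 k03 k13 k23 k04 k14 k24 k34 k05 k15 k25 k35 k45 : Fin 3) :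
    GG b (cs1 k01) (cs1 k03) (cs1 k13) (cs1 k02) (cs1 k12) (cs1 k23) (cs1 k04) (cs1 k14) (cs1 k34) (cs1 k24) (cs1 k05) (cs1 k15) (cs1 k35) (cs1 k25) (cs1 k45) = GG b k01 k02 k12 k03 k13 k23 k04 k14 k24 k34 k05 k15 k25 k35 k45 :=
  (GG_col h.x k01 k03 k13 k02 k12 k23 k04 k14 k34 k24 k05 k15 k35 k25 k45).trans (tr23 h.v k01 k02 k12 k03 k13 k23 k04 k14 k24 k34 k05 k15 k25 k35 k45)

theorem mv_23_2 {b : Blk} (h : SymA b) (k01 k02 k12 k03 k13 k23 k04 k14 k24 k34 k05 k15 k25 k35 k45 : Fin 3) :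
    GG b (cs2 k01) (cs2 k03) (cs2 k13) (cs2 k02) (cs2 k12) (cs2 k23) (cs2 k04) (cs2 k14) (cs2 k34) (cs2 k24) (cs2 k05) (cs2 k15) (cs2 k35) (cs2 k25) (cs2 k45) = GG b k01 k02 k12 k03 k13 k23 k04 k14 k24 k34 k05 k15 k25 k35 k45 :=
  (GG_col h.y k01 k03 k13 k02 k12 k23 k04 k14 k34 k24 k05 k15 k35 k25 k45).trans (tr23 h.v k01 k02 k12 k03 k13 k23 k04 k14 k24 k34 k05 k15 k25 k35 k45)

theorem mv_24_0 {b : Blk} (h : SymA b) (k01 k02 k12 k03 k13 k23 k04 k14 k24 k34 k05 k15 k25 k35 k45 : Fin 3) :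
    GG b k01 k04 k14 k03 k13 k34 k02 k12 k24 k23 k05 k15 k45 k35 k25 = GG b k01 k02 k12 k03 k13 k23 k04 k14 k24 k34 k05 k15 k25 k35 k45 :=
  tr24 h.v k01 k02 k12 k03 k13 k23 k04 k14 k24 k34 k05 k15 k25 k35 k45

theorem mv_24_1 {b : Blk} (h : SymA b) (k01 k02 k12 k03 k13 k23 k04 k14 k24 k34 k05 k15 k25 k35 k45 : Fin 3) :
    GG b (cs1 k01) (cs1 k04) (cs1 k14) (cs1 k03) (cs1 k13) (cs1 k34) (cs1 k02) (cs1 k12) (cs1 k24) (cs1 k23) (cs1 k05) (cs1 k15) (cs1 k45) (cs1 k35) (cs1 k25) = GG b k01 k02 k12 k03 k13 k23 k04 k14 k24 k34 k05 k15 k25 k35 k45 :=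
  (GG_col h.x k01 k04 k14 k03 k13 k34 k02 k12 k24 k23 k05 k15 k45 k35 k25).trans (tr24 h.v k01 k02 k12 k03 k13 k23 k04 k14 k24 k34 k05 k15 k25 k35 k45)

theorem mv_24_2 {b : Blk} (h : SymA b) (k01 k02 k12 k03 k13 k23 k04 k14 k24 k34 k05 k15 k25 k35 k45 : Fin 3) :
    GG b (cs2 k01) (cs2 k04) (cs2 k14) (cs2 k03) (cs2 k13) (cs2 k34) (cs2 k02) (cs2 k12) (cs2 k24) (cs2 k23) (cs2 k05) (cs2 k15) (cs2 k45) (cs2 k35) (cs2 k25) = GG b k01 k02 k12 k03 k13 k23 k04 k14 k24 k34 k05 k15 k25 k35 k45 :=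
  (GG_col h.y k01 k04 k14 k03 k13 k34 k02 k12 k24 k23 k05 k15 k45 k35 k25).trans (tr24 h.v k01 k02 k12 k03 k13 k23 k04 k14 k24 k34 k05 k15 k25 k35 k45)

theorem mv_25_0 {b : Blk} (h : SymA b) (k01 k02 k12 k03 k13 k23 k04 k14 k24 k34 k05 k15 k25 k35 k45 : Fin 3) :
    GG b k01 k05 k15 k03 k13 k35 k04 k14 k45 k34 k02 k12 k25 k23 k24 = GG b k01 k02 k12 k03 k13 k23 k04 k14 k24 k34 k05 k15 k25 k35 k45 :=
  tr25 h.v k01 k02 k12 k03 k13 k23 k04 k14 k24 k34 k05 k15 k25 k35 k45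

theorem mv_25_1 {b : Blk} (h : SymA b) (k01 k02 k12 k03 k13 k23 k04 k14 k24 k34 k05 k15 k25 k35 k45 : Fin 3) :
    GG b (cs1 k01) (cs1 k05) (cs1 k15) (cs1 k03) (cs1 k13) (cs1 k35) (cs1 k04) (cs1 k14) (cs1 k45) (cs1 k34) (cs1 k02) (cs1 k12) (cs1 k25) (cs1 k23) (cs1 k24) = GG b k01 k02 k12 k03 k13 k23 k04 k14 k24 k34 k05 k15 k25 k35 k45 :=
  (GG_col h.x k01 k05 k15 k03 k13 k35 k04 k14 k45 k34 k02 k12 k25 k23 k24).trans (tr25 h.v k01 k02 k12 k03 k13 k23 k04 k14 k24 k34 k05 k15 k25 k35 k45)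

theorem mv_25_2 {b : Blk} (h : SymA b) (k01 k02 k12 k03 k13 k23 k04 k14 k24 k34 k05 k15 k25 k35 k45 : Fin 3) :
    GG b (cs2 k01) (cs2 k05) (cs2 k15) (cs2 k03) (cs2 k13) (cs2 k35) (cs2 k04) (cs2 k14) (cs2 k45) (cs2 k34) (cs2 k02) (cs2 k12) (cs2 k25) (cs2 k23) (cs2 k24) = GG b k01 k02 k12 k03 k13 k23 k04 k14 k24 k34 k05 k15 k25 k35 k45 :=
  (GG_col h.y k01 k05 k15 k03 k13 k35 k04 k14 k45 k34 k02 k12 k25 k23 k24).trans (tr25 h.v k01 k02 k12 k03 k13 k23 k04 k14 k24 k34 k05 k15 k25 k35 k45)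

theorem mv_34_0 {b : Blk} (h : SymA b) (k01 k02 k12 k03 k13 k23 k04 k14 k24 k34 k05 k15 k25 k35 k45 : Fin 3) :
    GG b k01 k02 k12 k04 k14 k24 k03 k13 k23 k34 k05 k15 k25 k45 k35 = GG b k01 k02 k12 k03 k13 k23 k04 k14 k24 k34 k05 k15 k25 k35 k45 :=
  tr34 h.v k01 k02 k12 k03 k13 k23 k04 k14 k24 k34 k05 k15 k25 k35 k45

theorem mv_34_1 {b : Blk} (h : SymA b) (k01 k02 k12 k03 k13 k23 k04 k14 k24 k34 k05 k15 k25 k35 k45 : Fin 3) :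
    GG b (cs1 k01) (cs1 k02) (cs1 k12) (cs1 k04) (cs1 k14) (cs1 k24) (cs1 k03) (cs1 k13) (cs1 k23) (cs1 k34) (cs1 k05) (cs1 k15) (cs1 k25) (cs1 k45) (cs1 k35) = GG b k01 k02 k12 k03 k13 k23 k04 k14 k24 k34 k05 k15 k25 k35 k45 :=
  (GG_col h.x k01 k02 k12 k04 k14 k24 k03 k13 k23 k34 k05 k15 k25 k45 k35).trans (tr34 h.v k01 k02 k12 k03 k13 k23 k04 k14 k24 k34 k05 k15 k25 k35 k45)

theorem mv_34_2 {b : Blk} (h : SymA b) (k01 k02 k12 k03 k13 k23 k04 k14 k24 k34 k05 k15 k25 k35 k45 : Fin 3) :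
    GG b (cs2 k01) (cs2 k02) (cs2 k12) (cs2 k04) (cs2 k14) (cs2 k24) (cs2 k03) (cs2 k13) (cs2 k23) (cs2 k34) (cs2 k05) (cs2 k15) (cs2 k25) (cs2 k45) (cs2 k35) = GG b k01 k02 k12 k03 k13 k23 k04 k14 k24 k34 k05 k15 k25 k35 k45 :=
  (GG_col h.y k01 k02 k12 k04 k14 k24 k03 k13 k23 k34 k05 k15 k25 k45 k35).trans (tr34 h.v k01 k02 k12 k03 k13 k23 k04 k14 k24 k34 k05 k15 k25 k35 k45)

theorem mv_35_0 {b : Blk} (h : SymA b) (k01 k02 k12 k03 k13 k23 k04 k14 k24 k34 k05 k15 k25 k35 k45 : Fin 3) :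
    GG b k01 k02 k12 k05 k15 k25 k04 k14 k24 k45 k03 k13 k23 k35 k34 = GG b k01 k02 k12 k03 k13 k23 k04 k14 k24 k34 k05 k15 k25 k35 k45 :=
  tr35 h.v k01 k02 k12 k03 k13 k23 k04 k14 k24 k34 k05 k15 k25 k35 k45

theorem mv_35_1 {b : Blk} (h : SymA b) (k01 k02 k12 k03 k13 k23 k04 k14 k24 k34 k05 k15 k25 k35 k45 : Fin 3) :
    GG b (cs1 k01) (cs1 k02) (cs1 k12) (cs1 k05) (cs1 k15) (cs1 k25) (cs1 k04) (cs1 k14) (cs1 k24) (cs1 k45) (cs1 k03) (cs1 k13) (cs1 k23) (cs1 k35) (cs1 k34) = GG b k01 k02 k12 k03 k13 k23 k04 k14 k24 k34 k05 k15 k25 k35 k45 :=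
  (GG_col h.x k01 k02 k12 k05 k15 k25 k04 k14 k24 k45 k03 k13 k23 k35 k34).trans (tr35 h.v k01 k02 k12 k03 k13 k23 k04 k14 k24 k34 k05 k15 k25 k35 k45)

theorem mv_35_2 {b : Blk} (h : SymA b) (k01 k02 k12 k03 k13 k23 k04 k14 k24 k34 k05 k15 k25 k35 k45 : Fin 3) :
    GG b (cs2 k01) (cs2 k02) (cs2 k12) (cs2 k05) (cs2 k15) (cs2 k25) (cs2 k04) (cs2 k14) (cs2 k24) (cs2 k45) (cs2 k03) (cs2 k13) (cs2 k23) (cs2 k35) (cs2 k34) = GG b k01 k02 k12 k03 k13 k23 k04 k14 k24 k34 k05 k15 k25 k35 k45 :=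
  (GG_col h.y k01 k02 k12 k05 k15 k25 k04 k14 k24 k45 k03 k13 k23 k35 k34).trans (tr35 h.v k01 k02 k12 k03 k13 k23 k04 k14 k24 k34 k05 k15 k25 k35 k45)

theorem mv_45_0 {b : Blk} (h : SymA b) (k01 k02 k12 k03 k13 k23 k04 k14 k24 k34 k05 k15 k25 k35 k45 : Fin 3) :
    GG b k01 k02 k12 k03 k13 k23 k05 k15 k25 k35 k04 k14 k24 k34 k45 = GG b k01 k02 k12 k03 k13 k23 k04 k14 k24 k34 k05 k15 k25 k35 k45 :=
  tr45 h.v k01 k02 k12 k03 k13 k23 k04 k14 k24 k34 k05 k15 k25 k35 k45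

theorem mv_45_1 {b : Blk} (h : SymA b) (k01 k02 k12 k03 k13 k23 k04 k14 k24 k34 k05 k15 k25 k35 k45 : Fin 3) :
    GG b (cs1 k01) (cs1 k02) (cs1 k12) (cs1 k03) (cs1 k13) (cs1 k23) (cs1 k05) (cs1 k15) (cs1 k25) (cs1 k35) (cs1 k04) (cs1 k14) (cs1 k24) (cs1 k34) (cs1 k45) = GG b k01 k02 k12 k03 k13 k23 k04 k14 k24 k34 k05 k15 k25 k35 k45 :=
  (GG_col h.x k01 k02 k12 k03 k13 k23 k05 k15 k25 k35 k04 k14 k24 k34 k45).trans (tr45 h.v k01 k02 k12 k03 k13 k23 k04 k14 k24 k34 k05 k15 k25 k35 k45)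

theorem mv_45_2 {b : Blk} (h : SymA b) (k01 k02 k12 k03 k13 k23 k04 k14 k24 k34 k05 k15 k25 k35 k45 : Fin 3) :
    GG b (cs2 k01) (cs2 k02) (cs2 k12) (cs2 k03) (cs2 k13) (cs2 k23) (cs2 k05) (cs2 k15) (cs2 k25) (cs2 k35) (cs2 k04) (cs2 k14) (cs2 k24) (cs2 k34) (cs2 k45) = GG b k01 k02 k12 k03 k13 k23 k04 k14 k24 k34 k05 k15 k25 k35 k45 :=
  (GG_col h.y k01 k02 k12 k03 k13 k23 k05 k15 k25 k35 k04 k14 k24 k34 k45).trans (tr45 h.v k01 k02 k12 k03 k13 k23 k04 k14 k24 k34 k05 k15 k25 k35 k45)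

/-- codes -/
def d4 (a b c d : ℕ) : ℕ := Nat.add (Nat.mul (d3 a b c) 3) d
def d5 (a b c d e : ℕ) : ℕ := Nat.add (Nat.mul (d4 a b c d) 3) e
def c15 (k01 k02 k12 k03 k13 k23 k04 k14 k24 k34 k05 k15 k25 k35 k45 : ℕ) : ℕ :=
  (d6 k01 k02 k12 k03 k13 k23 * 81 + d4 k04 k14 k24 k34) * 243 + d5 k05 k15 k25 k35 k45

def lt4 (C a b c d e f : ℕ) : Bool := Nat.blt (d6 a b c d e f) C

def lt5 (C D a b c d e f g h i j : ℕ) : Bool :=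
  cond (Nat.blt C (d6 a b c d e f)) false (cond (Nat.blt (d6 a b c d e f) C) true
    (Nat.blt (d4 g h i j) D))

def lt6 (C D E a b c d e f g h i j k l m n o : ℕ) : Bool :=
  cond (Nat.blt C (d6 a b c d e f)) false (cond (Nat.blt (d6 a b c d e f) C) true
    (cond (Nat.blt D (d4 g h i j)) false (cond (Nat.blt (d4 g h i j) D) true
      (Nat.blt (d5 k l m n o) E))))

/-- forced evaluation of a number -/
noncomputable def force (n : ℕ) (F : ℕ → Bool) : Bool := Nat.rec (F 0) (fun m _ => F (Nat.succ m)) n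

theorem force_eq (n : ℕ) (F : ℕ → Bool) : force n F = F n := by cases n <;> rfl

/-- pruning with four, five and six vertices -/
noncomputable def p4 (C k01 k02 k12 k03 k13 k23 : ℕ) : Bool :=
  (or (lt4 C (s1 k01) (s1 k02) (s1 k12) (s1 k03) (s1 k13) (s1 k23))
    (or (lt4 C (s2 k01) (s2 k02) (s2 k12) (s2 k03) (s2 k13) (s2 k23))
    (or (lt4 C k01 k12 k02 k13 k03 k23)
    (or (lt4 C (s1 k01) (s1 k12) (s1 k02) (s1 k13) (s1 k03) (s1 k23))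
    (or (lt4 C (s2 k01) (s2 k12) (s2 k02) (s2 k13) (s2 k03) (s2 k23))
    (or (lt4 C k12 k02 k01 k23 k13 k03)
    (or (lt4 C (s1 k12) (s1 k02) (s1 k01) (s1 k23) (s1 k13) (s1 k03))
    (or (lt4 C (s2 k12) (s2 k02) (s2 k01) (s2 k23) (s2 k13) (s2 k03))
    (or (lt4 C k13 k23 k12 k03 k01 k02)
    (or (lt4 C (s1 k13) (s1 k23) (s1 k12) (s1 k03) (s1 k01) (s1 k02))
    (or (lt4 C (s2 k13) (s2 k23) (s2 k12) (s2 k03) (s2 k01) (s2 k02))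
    (or (lt4 C k02 k01 k12 k03 k23 k13)
    (or (lt4 C (s1 k02) (s1 k01) (s1 k12) (s1 k03) (s1 k23) (s1 k13))
    (or (lt4 C (s2 k02) (s2 k01) (s2 k12) (s2 k03) (s2 k23) (s2 k13))
    (or (lt4 C k03 k02 k23 k01 k13 k12)
    (or (lt4 C (s1 k03) (s1 k02) (s1 k23) (s1 k01) (s1 k13) (s1 k12))
    (or (lt4 C (s2 k03) (s2 k02) (s2 k23) (s2 k01) (s2 k13) (s2 k12))
    (or (lt4 C k01 k03 k13 k02 k12 k23)
    (or (lt4 C (s1 k01) (s1 k03) (s1 k13) (s1 k02) (s1 k12) (s1 k23))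
    (lt4 C (s2 k01) (s2 k03) (s2 k13) (s2 k02) (s2 k12) (s2 k23)))))))))))))))))))))

noncomputable def p5 (C D k01 k02 k12 k03 k13 k23 k04 k14 k24 k34 : ℕ) : Bool :=
  (or (lt5 C D (s1 k01) (s1 k02) (s1 k12) (s1 k03) (s1 k13) (s1 k23) (s1 k04) (s1 k14) (s1 k24) (s1 k34))
    (or (lt5 C D (s2 k01) (s2 k02) (s2 k12) (s2 k03) (s2 k13) (s2 k23) (s2 k04) (s2 k14) (s2 k24) (s2 k34))
    (or (lt5 C D k01 k12 k02 k13 k03 k23 k14 k04 k24 k34)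
    (or (lt5 C D (s1 k01) (s1 k12) (s1 k02) (s1 k13) (s1 k03) (s1 k23) (s1 k14) (s1 k04) (s1 k24) (s1 k34))
    (or (lt5 C D (s2 k01) (s2 k12) (s2 k02) (s2 k13) (s2 k03) (s2 k23) (s2 k14) (s2 k04) (s2 k24) (s2 k34))
    (or (lt5 C D k12 k02 k01 k23 k13 k03 k24 k14 k04 k34)
    (or (lt5 C D (s1 k12) (s1 k02) (s1 k01) (s1 k23) (s1 k13) (s1 k03) (s1 k24) (s1 k14) (s1 k04) (s1 k34))
    (or (lt5 C D (s2 k12) (s2 k02) (s2 k01) (s2 k23) (s2 k13) (s2 k03) (s2 k24) (s2 k14) (s2 k04) (s2 k34))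
    (or (lt5 C D k13 k23 k12 k03 k01 k02 k34 k14 k24 k04)
    (or (lt5 C D (s1 k13) (s1 k23) (s1 k12) (s1 k03) (s1 k01) (s1 k02) (s1 k34) (s1 k14) (s1 k24) (s1 k04))
    (or (lt5 C D (s2 k13) (s2 k23) (s2 k12) (s2 k03) (s2 k01) (s2 k02) (s2 k34) (s2 k14) (s2 k24) (s2 k04))
    (or (lt5 C D k14 k24 k12 k34 k13 k23 k04 k01 k02 k03)
    (or (lt5 C D (s1 k14) (s1 k24) (s1 k12) (s1 k34) (s1 k13) (s1 k23) (s1 k04) (s1 k01) (s1 k02) (s1 k03))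
    (or (lt5 C D (s2 k14) (s2 k24) (s2 k12) (s2 k34) (s2 k13) (s2 k23) (s2 k04) (s2 k01) (s2 k02) (s2 k03))
    (or (lt5 C D k02 k01 k12 k03 k23 k13 k04 k24 k14 k34)
    (or (lt5 C D (s1 k02) (s1 k01) (s1 k12) (s1 k03) (s1 k23) (s1 k13) (s1 k04) (s1 k24) (s1 k14) (s1 k34))
    (or (lt5 C D (s2 k02) (s2 k01) (s2 k12) (s2 k03) (s2 k23) (s2 k13) (s2 k04) (s2 k24) (s2 k14) (s2 k34))
    (or (lt5 C D k03 k02 k23 k01 k13 k12 k04 k34 k24 k14)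
    (or (lt5 C D (s1 k03) (s1 k02) (s1 k23) (s1 k01) (s1 k13) (s1 k12) (s1 k04) (s1 k34) (s1 k24) (s1 k14))
    (or (lt5 C D (s2 k03) (s2 k02) (s2 k23) (s2 k01) (s2 k13) (s2 k12) (s2 k04) (s2 k34) (s2 k24) (s2 k14))
    (or (lt5 C D k04 k02 k24 k03 k34 k23 k01 k14 k12 k13)
    (or (lt5 C D (s1 k04) (s1 k02) (s1 k24) (s1 k03) (s1 k34) (s1 k23) (s1 k01) (s1 k14) (s1 k12) (s1 k13))
    (or (lt5 C D (s2 k04) (s2 k02) (s2 k24) (s2 k03) (s2 k34) (s2 k23) (s2 k01) (s2 k14) (s2 k12) (s2 k13))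
    (or (lt5 C D k01 k03 k13 k02 k12 k23 k04 k14 k34 k24)
    (or (lt5 C D (s1 k01) (s1 k03) (s1 k13) (s1 k02) (s1 k12) (s1 k23) (s1 k04) (s1 k14) (s1 k34) (s1 k24))
    (or (lt5 C D (s2 k01) (s2 k03) (s2 k13) (s2 k02) (s2 k12) (s2 k23) (s2 k04) (s2 k14) (s2 k34) (s2 k24))
    (or (lt5 C D k01 k04 k14 k03 k13 k34 k02 k12 k24 k23)
    (or (lt5 C D (s1 k01) (s1 k04) (s1 k14) (s1 k03) (s1 k13) (s1 k34) (s1 k02) (s1 k12) (s1 k24) (s1 k23))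
    (or (lt5 C D (s2 k01) (s2 k04) (s2 k14) (s2 k03) (s2 k13) (s2 k34) (s2 k02) (s2 k12) (s2 k24) (s2 k23))
    (or (lt5 C D k01 k02 k12 k04 k14 k24 k03 k13 k23 k34)
    (or (lt5 C D (s1 k01) (s1 k02) (s1 k12) (s1 k04) (s1 k14) (s1 k24) (s1 k03) (s1 k13) (s1 k23) (s1 k34))
    (lt5 C D (s2 k01) (s2 k02) (s2 k12) (s2 k04) (s2 k14) (s2 k24) (s2 k03) (s2 k13) (s2 k23) (s2 k34)))))))))))))))))))))))))))))))))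

noncomputable def p6 (C D E k01 k02 k12 k03 k13 k23 k04 k14 k24 k34 k05 k15 k25 k35 k45 : ℕ) : Bool :=
  (or (lt6 C D E (s1 k01) (s1 k02) (s1 k12) (s1 k03) (s1 k13) (s1 k23) (s1 k04) (s1 k14) (s1 k24) (s1 k34) (s1 k05) (s1 k15) (s1 k25) (s1 k35) (s1 k45))
    (or (lt6 C D E (s2 k01) (s2 k02) (s2 k12) (s2 k03) (s2 k13) (s2 k23) (s2 k04) (s2 k14) (s2 k24) (s2 k34) (s2 k05) (s2 k15) (s2 k25) (s2 k35) (s2 k45))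
    (or (lt6 C D E k01 k12 k02 k13 k03 k23 k14 k04 k24 k34 k15 k05 k25 k35 k45)
    (or (lt6 C D E (s1 k01) (s1 k12) (s1 k02) (s1 k13) (s1 k03) (s1 k23) (s1 k14) (s1 k04) (s1 k24) (s1 k34) (s1 k15) (s1 k05) (s1 k25) (s1 k35) (s1 k45))
    (or (lt6 C D E (s2 k01) (s2 k12) (s2 k02) (s2 k13) (s2 k03) (s2 k23) (s2 k14) (s2 k04) (s2 k24) (s2 k34) (s2 k15) (s2 k05) (s2 k25) (s2 k35) (s2 k45))
    (or (lt6 C D E k12 k02 k01 k23 k13 k03 k24 k14 k04 k34 k25 k15 k05 k35 k45)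
    (or (lt6 C D E (s1 k12) (s1 k02) (s1 k01) (s1 k23) (s1 k13) (s1 k03) (s1 k24) (s1 k14) (s1 k04) (s1 k34) (s1 k25) (s1 k15) (s1 k05) (s1 k35) (s1 k45))
    (or (lt6 C D E (s2 k12) (s2 k02) (s2 k01) (s2 k23) (s2 k13) (s2 k03) (s2 k24) (s2 k14) (s2 k04) (s2 k34) (s2 k25) (s2 k15) (s2 k05) (s2 k35) (s2 k45))
    (or (lt6 C D E k13 k23 k12 k03 k01 k02 k34 k14 k24 k04 k35 k15 k25 k05 k45)
    (or (lt6 C D E (s1 k13) (s1 k23) (s1 k12) (s1 k03) (s1 k01) (s1 k02) (s1 k34) (s1 k14) (s1 k24) (s1 k04) (s1 k35) (s1 k15) (s1 k25) (s1 k05) (s1 k45))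
    (or (lt6 C D E (s2 k13) (s2 k23) (s2 k12) (s2 k03) (s2 k01) (s2 k02) (s2 k34) (s2 k14) (s2 k24) (s2 k04) (s2 k35) (s2 k15) (s2 k25) (s2 k05) (s2 k45))
    (or (lt6 C D E k14 k24 k12 k34 k13 k23 k04 k01 k02 k03 k45 k15 k25 k35 k05)
    (or (lt6 C D E (s1 k14) (s1 k24) (s1 k12) (s1 k34) (s1 k13) (s1 k23) (s1 k04) (s1 k01) (s1 k02) (s1 k03) (s1 k45) (s1 k15) (s1 k25) (s1 k35) (s1 k05))
    (or (lt6 C D E (s2 k14) (s2 k24) (s2 k12) (s2 k34) (s2 k13) (s2 k23) (s2 k04) (s2 k01) (s2 k02) (s2 k03) (s2 k45) (s2 k15) (s2 k25) (s2 k35) (s2 k05))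
    (or (lt6 C D E k15 k25 k12 k35 k13 k23 k45 k14 k24 k34 k05 k01 k02 k03 k04)
    (or (lt6 C D E (s1 k15) (s1 k25) (s1 k12) (s1 k35) (s1 k13) (s1 k23) (s1 k45) (s1 k14) (s1 k24) (s1 k34) (s1 k05) (s1 k01) (s1 k02) (s1 k03) (s1 k04))
    (or (lt6 C D E (s2 k15) (s2 k25) (s2 k12) (s2 k35) (s2 k13) (s2 k23) (s2 k45) (s2 k14) (s2 k24) (s2 k34) (s2 k05) (s2 k01) (s2 k02) (s2 k03) (s2 k04))
    (or (lt6 C D E k02 k01 k12 k03 k23 k13 k04 k24 k14 k34 k05 k25 k15 k35 k45)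
    (or (lt6 C D E (s1 k02) (s1 k01) (s1 k12) (s1 k03) (s1 k23) (s1 k13) (s1 k04) (s1 k24) (s1 k14) (s1 k34) (s1 k05) (s1 k25) (s1 k15) (s1 k35) (s1 k45))
    (or (lt6 C D E (s2 k02) (s2 k01) (s2 k12) (s2 k03) (s2 k23) (s2 k13) (s2 k04) (s2 k24) (s2 k14) (s2 k34) (s2 k05) (s2 k25) (s2 k15) (s2 k35) (s2 k45))
    (or (lt6 C D E k03 k02 k23 k01 k13 k12 k04 k34 k24 k14 k05 k35 k25 k15 k45)
    (or (lt6 C D E (s1 k03) (s1 k02) (s1 k23) (s1 k01) (s1 k13) (s1 k12) (s1 k04) (s1 k34) (s1 k24) (s1 k14) (s1 k05) (s1 k35) (s1 k25) (s1 k15) (s1 k45))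
    (or (lt6 C D E (s2 k03) (s2 k02) (s2 k23) (s2 k01) (s2 k13) (s2 k12) (s2 k04) (s2 k34) (s2 k24) (s2 k14) (s2 k05) (s2 k35) (s2 k25) (s2 k15) (s2 k45))
    (or (lt6 C D E k04 k02 k24 k03 k34 k23 k01 k14 k12 k13 k05 k45 k25 k35 k15)
    (or (lt6 C D E (s1 k04) (s1 k02) (s1 k24) (s1 k03) (s1 k34) (s1 k23) (s1 k01) (s1 k14) (s1 k12) (s1 k13) (s1 k05) (s1 k45) (s1 k25) (s1 k35) (s1 k15))
    (or (lt6 C D E (s2 k04) (s2 k02) (s2 k24) (s2 k03) (s2 k34) (s2 k23) (s2 k01) (s2 k14) (s2 k12) (s2 k13) (s2 k05) (s2 k45) (s2 k25) (s2 k35) (s2 k15))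
    (or (lt6 C D E k05 k02 k25 k03 k35 k23 k04 k45 k24 k34 k01 k15 k12 k13 k14)
    (or (lt6 C D E (s1 k05) (s1 k02) (s1 k25) (s1 k03) (s1 k35) (s1 k23) (s1 k04) (s1 k45) (s1 k24) (s1 k34) (s1 k01) (s1 k15) (s1 k12) (s1 k13) (s1 k14))
    (or (lt6 C D E (s2 k05) (s2 k02) (s2 k25) (s2 k03) (s2 k35) (s2 k23) (s2 k04) (s2 k45) (s2 k24) (s2 k34) (s2 k01) (s2 k15) (s2 k12) (s2 k13) (s2 k14))
    (or (lt6 C D E k01 k03 k13 k02 k12 k23 k04 k14 k34 k24 k05 k15 k35 k25 k45)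
    (or (lt6 C D E (s1 k01) (s1 k03) (s1 k13) (s1 k02) (s1 k12) (s1 k23) (s1 k04) (s1 k14) (s1 k34) (s1 k24) (s1 k05) (s1 k15) (s1 k35) (s1 k25) (s1 k45))
    (or (lt6 C D E (s2 k01) (s2 k03) (s2 k13) (s2 k02) (s2 k12) (s2 k23) (s2 k04) (s2 k14) (s2 k34) (s2 k24) (s2 k05) (s2 k15) (s2 k35) (s2 k25) (s2 k45))
    (or (lt6 C D E k01 k04 k14 k03 k13 k34 k02 k12 k24 k23 k05 k15 k45 k35 k25)
    (or (lt6 C D E (s1 k01) (s1 k04) (s1 k14) (s1 k03) (s1 k13) (s1 k34) (s1 k02) (s1 k12) (s1 k24) (s1 k23) (s1 k05) (s1 k15) (s1 k45) (s1 k35) (s1 k25))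
    (or (lt6 C D E (s2 k01) (s2 k04) (s2 k14) (s2 k03) (s2 k13) (s2 k34) (s2 k02) (s2 k12) (s2 k24) (s2 k23) (s2 k05) (s2 k15) (s2 k45) (s2 k35) (s2 k25))
    (or (lt6 C D E k01 k05 k15 k03 k13 k35 k04 k14 k45 k34 k02 k12 k25 k23 k24)
    (or (lt6 C D E (s1 k01) (s1 k05) (s1 k15) (s1 k03) (s1 k13) (s1 k35) (s1 k04) (s1 k14) (s1 k45) (s1 k34) (s1 k02) (s1 k12) (s1 k25) (s1 k23) (s1 k24))
    (or (lt6 C D E (s2 k01) (s2 k05) (s2 k15) (s2 k03) (s2 k13) (s2 k35) (s2 k04) (s2 k14) (s2 k45) (s2 k34) (s2 k02) (s2 k12) (s2 k25) (s2 k23) (s2 k24))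
    (or (lt6 C D E k01 k02 k12 k04 k14 k24 k03 k13 k23 k34 k05 k15 k25 k45 k35)
    (or (lt6 C D E (s1 k01) (s1 k02) (s1 k12) (s1 k04) (s1 k14) (s1 k24) (s1 k03) (s1 k13) (s1 k23) (s1 k34) (s1 k05) (s1 k15) (s1 k25) (s1 k45) (s1 k35))
    (or (lt6 C D E (s2 k01) (s2 k02) (s2 k12) (s2 k04) (s2 k14) (s2 k24) (s2 k03) (s2 k13) (s2 k23) (s2 k34) (s2 k05) (s2 k15) (s2 k25) (s2 k45) (s2 k35))
    (or (lt6 C D E k01 k02 k12 k05 k15 k25 k04 k14 k24 k45 k03 k13 k23 k35 k34)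
    (or (lt6 C D E (s1 k01) (s1 k02) (s1 k12) (s1 k05) (s1 k15) (s1 k25) (s1 k04) (s1 k14) (s1 k24) (s1 k45) (s1 k03) (s1 k13) (s1 k23) (s1 k35) (s1 k34))
    (or (lt6 C D E (s2 k01) (s2 k02) (s2 k12) (s2 k05) (s2 k15) (s2 k25) (s2 k04) (s2 k14) (s2 k24) (s2 k45) (s2 k03) (s2 k13) (s2 k23) (s2 k35) (s2 k34))
    (or (lt6 C D E k01 k02 k12 k03 k13 k23 k05 k15 k25 k35 k04 k14 k24 k34 k45)
    (or (lt6 C D E (s1 k01) (s1 k02) (s1 k12) (s1 k03) (s1 k13) (s1 k23) (s1 k05) (s1 k15) (s1 k25) (s1 k35) (s1 k04) (s1 k14) (s1 k24) (s1 k34) (s1 k45))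
    (lt6 C D E (s2 k01) (s2 k02) (s2 k12) (s2 k03) (s2 k13) (s2 k23) (s2 k05) (s2 k15) (s2 k25) (s2 k35) (s2 k04) (s2 k14) (s2 k24) (s2 k34) (s2 k45))))))))))))))))))))))))))))))))))))))))))))))))

/-- the part of the check over the last vertex -/
noncomputable def chk6 (b : Blk) (CAP C D k01 k02 k12 k03 k13 k23 k04 k14 k24 k34 : ℕ) : Bool :=
  all3 fun k05 => all3 fun k15 => all3 fun k25 => all3 fun k35 => all3 fun k45 =>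
    force (d5 k05 k15 k25 k35 k45) fun E =>
      cond (p6 C D E k01 k02 k12 k03 k13 k23 k04 k14 k24 k34 k05 k15 k25 k35 k45) true (Nat.ble (GG b k01 k02 k12 k03 k13 k23 k04 k14 k24 k34 k05 k15 k25 k35 k45) CAP)

/-- the part of the check over the last two vertices -/
noncomputable def chk5 (b : Blk) (CAP C k01 k02 k12 k03 k13 k23 : ℕ) : Bool :=
  all3 fun k04 => all3 fun k14 => all3 fun k24 => all3 fun k34 =>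
    force (d4 k04 k14 k24 k34) fun D =>
      cond (p5 C D k01 k02 k12 k03 k13 k23 k04 k14 k24 k34) true (chk6 b CAP C D k01 k02 k12 k03 k13 k23 k04 k14 k24 k34)

/-- hypothesis of the pointwise bound -/
def Pt (b : Blk) (CAP : ℕ) : Prop := ∀ k01 k02 k12 k03 k13 k23 : Fin 3,
  p4 (d6 k01 k02 k12 k03 k13 k23) k01 k02 k12 k03 k13 k23 = true ∨ chk5 b CAP (d6 k01 k02 k12 k03 k13 k23) k01 k02 k12 k03 k13 k23 = true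

theorem d4_lt (a b c d : Fin 3) : d4 a b c d < 81 := by
  have := a.2; have := b.2; have := c.2; have := d.2
  simp only [d4, d3, Nat.add_eq, Nat.mul_eq]
  omega

theorem d5_lt (a b c d e : Fin 3) : d5 a b c d e < 243 := by
  have := d4_lt a b c d; have := e.2
  simp only [d5, Nat.add_eq, Nat.mul_eq]
  omega

/-- digits -/
abbrev F15 : Type := Fin 15 → Fin 3

section
variable (k01' k02' k12' k03' k13' k23' k04' k14' k24' k34' k05' k15' k25' k35' k45' k01 k02 k12 k03 k13 k23 k04 k14 k24 k34 k05 k15 k25 k35 k45 : Fin 3)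

theorem lt4_c15 (h : lt4 (d6 k01 k02 k12 k03 k13 k23) k01' k02' k12' k03' k13' k23' = true) :
    c15 k01' k02' k12' k03' k13' k23' k04' k14' k24' k34' k05' k15' k25' k35' k45' < c15 k01 k02 k12 k03 k13 k23 k04 k14 k24 k34 k05 k15 k25 k35 k45 := by
  have h1 := d4_lt k04' k14' k24' k34'
  have h2 := d5_lt k05' k15' k25' k35' k45'
  rw [lt4, Nat.blt_eq] at h
  simp only [c15]
  omega

theorem lt5_c15 (h : lt5 (d6 k01 k02 k12 k03 k13 k23) (d4 k04 k14 k24 k34) k01' k02' k12' k03' k13' k23' k04' k14' k24' k34' = true) :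
    c15 k01' k02' k12' k03' k13' k23' k04' k14' k24' k34' k05' k15' k25' k35' k45' < c15 k01 k02 k12 k03 k13 k23 k04 k14 k24 k34 k05 k15 k25 k35 k45 := by
  have h1 := d4_lt k04' k14' k24' k34'
  have h2 := d5_lt k05' k15' k25' k35' k45'
  rw [lt5] at h
  simp only [c15]
  cases ha : Nat.blt (d6 k01 k02 k12 k03 k13 k23) (d6 k01' k02' k12' k03' k13' k23') with
  | true => rw [ha] at h; exact absurd h (by simp)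
  | false =>
    rw [ha, cond_false] at h
    have ha' : ¬ (d6 k01 k02 k12 k03 k13 k23 < d6 k01' k02' k12' k03' k13' k23') := by rw [← Nat.blt_eq, ha]; simp
    cases hb : Nat.blt (d6 k01' k02' k12' k03' k13' k23') (d6 k01 k02 k12 k03 k13 k23) with
    | true => rw [Nat.blt_eq] at hb; omega
    | false =>
      rw [hb, cond_false, Nat.blt_eq] at h
      have hb' : ¬ (d6 k01' k02' k12' k03' k13' k23' < d6 k01 k02 k12 k03 k13 k23) := by rw [← Nat.blt_eq, hb]; simp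
      omega

theorem lt6_c15 (h : lt6 (d6 k01 k02 k12 k03 k13 k23) (d4 k04 k14 k24 k34) (d5 k05 k15 k25 k35 k45) k01' k02' k12' k03' k13' k23' k04' k14' k24' k34' k05' k15' k25' k35' k45' = true) :
    c15 k01' k02' k12' k03' k13' k23' k04' k14' k24' k34' k05' k15' k25' k35' k45' < c15 k01 k02 k12 k03 k13 k23 k04 k14 k24 k34 k05 k15 k25 k35 k45 := by
  have h2 := d5_lt k05' k15' k25' k35' k45'
  have h1 := d4_lt k04' k14' k24' k34'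
  rw [lt6] at h
  simp only [c15]
  cases ha : Nat.blt (d6 k01 k02 k12 k03 k13 k23) (d6 k01' k02' k12' k03' k13' k23') with
  | true => rw [ha] at h; exact absurd h (by simp)
  | false =>
    rw [ha, cond_false] at h
    have ha' : ¬ (d6 k01 k02 k12 k03 k13 k23 < d6 k01' k02' k12' k03' k13' k23') := by rw [← Nat.blt_eq, ha]; simp
    cases hb : Nat.blt (d6 k01' k02' k12' k03' k13' k23') (d6 k01 k02 k12 k03 k13 k23) with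
    | true => rw [Nat.blt_eq] at hb; omega
    | false =>
      rw [hb, cond_false] at h
      have hb' : ¬ (d6 k01' k02' k12' k03' k13' k23' < d6 k01 k02 k12 k03 k13 k23) := by rw [← Nat.blt_eq, hb]; simp
      cases hc : Nat.blt (d4 k04 k14 k24 k34) (d4 k04' k14' k24' k34') with
      | true => rw [hc] at h; exact absurd h (by simp)
      | false =>
        rw [hc, cond_false] at h
        have hc' : ¬ (d4 k04 k14 k24 k34 < d4 k04' k14' k24' k34') := by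
          rw [← Nat.blt_eq, hc]; simp
        cases hd : Nat.blt (d4 k04' k14' k24' k34') (d4 k04 k14 k24 k34) with
        | true => rw [Nat.blt_eq] at hd; omega
        | false =>
          rw [hd, cond_false, Nat.blt_eq] at h
          have hd' : ¬ (d4 k04' k14' k24' k34' < d4 k04 k14 k24 k34) := by
            rw [← Nat.blt_eq, hd]; simp
          omega

end

theorem p4_spec {b : Blk} (h : SymA b) {CAP : ℕ} (k01 k02 k12 k03 k13 k23 k04 k14 k24 k34 k05 k15 k25 k35 k45 : Fin 3)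
    (ih : ∀ k01' k02' k12' k03' k13' k23' k04' k14' k24' k34' k05' k15' k25' k35' k45' : Fin 3, c15 k01' k02' k12' k03' k13' k23' k04' k14' k24' k34' k05' k15' k25' k35' k45' < c15 k01 k02 k12 k03 k13 k23 k04 k14 k24 k34 k05 k15 k25 k35 k45 →
      GG b k01' k02' k12' k03' k13' k23' k04' k14' k24' k34' k05' k15' k25' k35' k45' ≤ CAP)
    (hp : p4 (d6 k01 k02 k12 k03 k13 k23) k01 k02 k12 k03 k13 k23 = true) : GG b k01 k02 k12 k03 k13 k23 k04 k14 k24 k34 k05 k15 k25 k35 k45 ≤ CAP := by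
  rw [p4] at hp
  simp only [Bool.or_eq_true, s1_eq, s2_eq] at hp
  rcases hp with hp | hp | hp | hp | hp | hp | hp | hp | hp | hp | hp | hp | hp | hp | hp | hp | hp | hp | hp | hp
  · exact (mv_id_1 h k01 k02 k12 k03 k13 k23 k04 k14 k24 k34 k05 k15 k25 k35 k45) ▸ ih (cs1 k01) (cs1 k02) (cs1 k12) (cs1 k03) (cs1 k13) (cs1 k23) (cs1 k04) (cs1 k14) (cs1 k24) (cs1 k34) (cs1 k05) (cs1 k15) (cs1 k25) (cs1 k35) (cs1 k45) (lt4_c15 (cs1 k01) (cs1 k02) (cs1 k12) (cs1 k03) (cs1 k13) (cs1 k23) (cs1 k04) (cs1 k14) (cs1 k24) (cs1 k34) (cs1 k05) (cs1 k15) (cs1 k25) (cs1 k35) (cs1 k45) k01 k02 k12 k03 k13 k23 k04 k14 k24 k34 k05 k15 k25 k35 k45 hp)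
  · exact (mv_id_2 h k01 k02 k12 k03 k13 k23 k04 k14 k24 k34 k05 k15 k25 k35 k45) ▸ ih (cs2 k01) (cs2 k02) (cs2 k12) (cs2 k03) (cs2 k13) (cs2 k23) (cs2 k04) (cs2 k14) (cs2 k24) (cs2 k34) (cs2 k05) (cs2 k15) (cs2 k25) (cs2 k35) (cs2 k45) (lt4_c15 (cs2 k01) (cs2 k02) (cs2 k12) (cs2 k03) (cs2 k13) (cs2 k23) (cs2 k04) (cs2 k14) (cs2 k24) (cs2 k34) (cs2 k05) (cs2 k15) (cs2 k25) (cs2 k35) (cs2 k45) k01 k02 k12 k03 k13 k23 k04 k14 k24 k34 k05 k15 k25 k35 k45 hp)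
  · exact (mv_01_0 h k01 k02 k12 k03 k13 k23 k04 k14 k24 k34 k05 k15 k25 k35 k45) ▸ ih k01 k12 k02 k13 k03 k23 k14 k04 k24 k34 k15 k05 k25 k35 k45 (lt4_c15 k01 k12 k02 k13 k03 k23 k14 k04 k24 k34 k15 k05 k25 k35 k45 k01 k02 k12 k03 k13 k23 k04 k14 k24 k34 k05 k15 k25 k35 k45 hp)
  · exact (mv_01_1 h k01 k02 k12 k03 k13 k23 k04 k14 k24 k34 k05 k15 k25 k35 k45) ▸ ih (cs1 k01) (cs1 k12) (cs1 k02) (cs1 k13) (cs1 k03) (cs1 k23) (cs1 k14) (cs1 k04) (cs1 k24) (cs1 k34) (cs1 k15) (cs1 k05) (cs1 k25) (cs1 k35) (cs1 k45) (lt4_c15 (cs1 k01) (cs1 k12) (cs1 k02) (cs1 k13) (cs1 k03) (cs1 k23) (cs1 k14) (cs1 k04) (cs1 k24) (cs1 k34) (cs1 k15) (cs1 k05) (cs1 k25) (cs1 k35) (cs1 k45) k01 k02 k12 k03 k13 k23 k04 k14 k24 k34 k05 k15 k25 k35 k45 hp)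
  · exact (mv_01_2 h k01 k02 k12 k03 k13 k23 k04 k14 k24 k34 k05 k15 k25 k35 k45) ▸ ih (cs2 k01) (cs2 k12) (cs2 k02) (cs2 k13) (cs2 k03) (cs2 k23) (cs2 k14) (cs2 k04) (cs2 k24) (cs2 k34) (cs2 k15) (cs2 k05) (cs2 k25) (cs2 k35) (cs2 k45) (lt4_c15 (cs2 k01) (cs2 k12) (cs2 k02) (cs2 k13) (cs2 k03) (cs2 k23) (cs2 k14) (cs2 k04) (cs2 k24) (cs2 k34) (cs2 k15) (cs2 k05) (cs2 k25) (cs2 k35) (cs2 k45) k01 k02 k12 k03 k13 k23 k04 k14 k24 k34 k05 k15 k25 k35 k45 hp)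
  · exact (mv_02_0 h k01 k02 k12 k03 k13 k23 k04 k14 k24 k34 k05 k15 k25 k35 k45) ▸ ih k12 k02 k01 k23 k13 k03 k24 k14 k04 k34 k25 k15 k05 k35 k45 (lt4_c15 k12 k02 k01 k23 k13 k03 k24 k14 k04 k34 k25 k15 k05 k35 k45 k01 k02 k12 k03 k13 k23 k04 k14 k24 k34 k05 k15 k25 k35 k45 hp)
  · exact (mv_02_1 h k01 k02 k12 k03 k13 k23 k04 k14 k24 k34 k05 k15 k25 k35 k45) ▸ ih (cs1 k12) (cs1 k02) (cs1 k01) (cs1 k23) (cs1 k13) (cs1 k03) (cs1 k24) (cs1 k14) (cs1 k04) (cs1 k34) (cs1 k25) (cs1 k15) (cs1 k05) (cs1 k35) (cs1 k45) (lt4_c15 (cs1 k12) (cs1 k02) (cs1 k01) (cs1 k23) (cs1 k13) (cs1 k03) (cs1 k24) (cs1 k14) (cs1 k04) (cs1 k34) (cs1 k25) (cs1 k15) (cs1 k05) (cs1 k35) (cs1 k45) k01 k02 k12 k03 k13 k23 k04 k14 k24 k34 k05 k15 k25 k35 k45 hp)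
  · exact (mv_02_2 h k01 k02 k12 k03 k13 k23 k04 k14 k24 k34 k05 k15 k25 k35 k45) ▸ ih (cs2 k12) (cs2 k02) (cs2 k01) (cs2 k23) (cs2 k13) (cs2 k03) (cs2 k24) (cs2 k14) (cs2 k04) (cs2 k34) (cs2 k25) (cs2 k15) (cs2 k05) (cs2 k35) (cs2 k45) (lt4_c15 (cs2 k12) (cs2 k02) (cs2 k01) (cs2 k23) (cs2 k13) (cs2 k03) (cs2 k24) (cs2 k14) (cs2 k04) (cs2 k34) (cs2 k25) (cs2 k15) (cs2 k05) (cs2 k35) (cs2 k45) k01 k02 k12 k03 k13 k23 k04 k14 k24 k34 k05 k15 k25 k35 k45 hp)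
  · exact (mv_03_0 h k01 k02 k12 k03 k13 k23 k04 k14 k24 k34 k05 k15 k25 k35 k45) ▸ ih k13 k23 k12 k03 k01 k02 k34 k14 k24 k04 k35 k15 k25 k05 k45 (lt4_c15 k13 k23 k12 k03 k01 k02 k34 k14 k24 k04 k35 k15 k25 k05 k45 k01 k02 k12 k03 k13 k23 k04 k14 k24 k34 k05 k15 k25 k35 k45 hp)
  · exact (mv_03_1 h k01 k02 k12 k03 k13 k23 k04 k14 k24 k34 k05 k15 k25 k35 k45) ▸ ih (cs1 k13) (cs1 k23) (cs1 k12) (cs1 k03) (cs1 k01) (cs1 k02) (cs1 k34) (cs1 k14) (cs1 k24) (cs1 k04) (cs1 k35) (cs1 k15) (cs1 k25) (cs1 k05) (cs1 k45) (lt4_c15 (cs1 k13) (cs1 k23) (cs1 k12) (cs1 k03) (cs1 k01) (cs1 k02) (cs1 k34) (cs1 k14) (cs1 k24) (cs1 k04) (cs1 k35) (cs1 k15) (cs1 k25) (cs1 k05) (cs1 k45) k01 k02 k12 k03 k13 k23 k04 k14 k24 k34 k05 k15 k25 k35 k45 hp)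
  · exact (mv_03_2 h k01 k02 k12 k03 k13 k23 k04 k14 k24 k34 k05 k15 k25 k35 k45) ▸ ih (cs2 k13) (cs2 k23) (cs2 k12) (cs2 k03) (cs2 k01) (cs2 k02) (cs2 k34) (cs2 k14) (cs2 k24) (cs2 k04) (cs2 k35) (cs2 k15) (cs2 k25) (cs2 k05) (cs2 k45) (lt4_c15 (cs2 k13) (cs2 k23) (cs2 k12) (cs2 k03) (cs2 k01) (cs2 k02) (cs2 k34) (cs2 k14) (cs2 k24) (cs2 k04) (cs2 k35) (cs2 k15) (cs2 k25) (cs2 k05) (cs2 k45) k01 k02 k12 k03 k13 k23 k04 k14 k24 k34 k05 k15 k25 k35 k45 hp)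
  · exact (mv_12_0 h k01 k02 k12 k03 k13 k23 k04 k14 k24 k34 k05 k15 k25 k35 k45) ▸ ih k02 k01 k12 k03 k23 k13 k04 k24 k14 k34 k05 k25 k15 k35 k45 (lt4_c15 k02 k01 k12 k03 k23 k13 k04 k24 k14 k34 k05 k25 k15 k35 k45 k01 k02 k12 k03 k13 k23 k04 k14 k24 k34 k05 k15 k25 k35 k45 hp)
  · exact (mv_12_1 h k01 k02 k12 k03 k13 k23 k04 k14 k24 k34 k05 k15 k25 k35 k45) ▸ ih (cs1 k02) (cs1 k01) (cs1 k12) (cs1 k03) (cs1 k23) (cs1 k13) (cs1 k04) (cs1 k24) (cs1 k14) (cs1 k34) (cs1 k05) (cs1 k25) (cs1 k15) (cs1 k35) (cs1 k45) (lt4_c15 (cs1 k02) (cs1 k01) (cs1 k12) (cs1 k03) (cs1 k23) (cs1 k13) (cs1 k04) (cs1 k24) (cs1 k14) (cs1 k34) (cs1 k05) (cs1 k25) (cs1 k15) (cs1 k35) (cs1 k45) k01 k02 k12 k03 k13 k23 k04 k14 k24 k34 k05 k15 k25 k35 k45 hp)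
  · exact (mv_12_2 h k01 k02 k12 k03 k13 k23 k04 k14 k24 k34 k05 k15 k25 k35 k45) ▸ ih (cs2 k02) (cs2 k01) (cs2 k12) (cs2 k03) (cs2 k23) (cs2 k13) (cs2 k04) (cs2 k24) (cs2 k14) (cs2 k34) (cs2 k05) (cs2 k25) (cs2 k15) (cs2 k35) (cs2 k45) (lt4_c15 (cs2 k02) (cs2 k01) (cs2 k12) (cs2 k03) (cs2 k23) (cs2 k13) (cs2 k04) (cs2 k24) (cs2 k14) (cs2 k34) (cs2 k05) (cs2 k25) (cs2 k15) (cs2 k35) (cs2 k45) k01 k02 k12 k03 k13 k23 k04 k14 k24 k34 k05 k15 k25 k35 k45 hp)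
  · exact (mv_13_0 h k01 k02 k12 k03 k13 k23 k04 k14 k24 k34 k05 k15 k25 k35 k45) ▸ ih k03 k02 k23 k01 k13 k12 k04 k34 k24 k14 k05 k35 k25 k15 k45 (lt4_c15 k03 k02 k23 k01 k13 k12 k04 k34 k24 k14 k05 k35 k25 k15 k45 k01 k02 k12 k03 k13 k23 k04 k14 k24 k34 k05 k15 k25 k35 k45 hp)
  · exact (mv_13_1 h k01 k02 k12 k03 k13 k23 k04 k14 k24 k34 k05 k15 k25 k35 k45) ▸ ih (cs1 k03) (cs1 k02) (cs1 k23) (cs1 k01) (cs1 k13) (cs1 k12) (cs1 k04) (cs1 k34) (cs1 k24) (cs1 k14) (cs1 k05) (cs1 k35) (cs1 k25) (cs1 k15) (cs1 k45) (lt4_c15 (cs1 k03) (cs1 k02) (cs1 k23) (cs1 k01) (cs1 k13) (cs1 k12) (cs1 k04) (cs1 k34) (cs1 k24) (cs1 k14) (cs1 k05) (cs1 k35) (cs1 k25) (cs1 k15) (cs1 k45) k01 k02 k12 k03 k13 k23 k04 k14 k24 k34 k05 k15 k25 k35 k45 hp)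
  · exact (mv_13_2 h k01 k02 k12 k03 k13 k23 k04 k14 k24 k34 k05 k15 k25 k35 k45) ▸ ih (cs2 k03) (cs2 k02) (cs2 k23) (cs2 k01) (cs2 k13) (cs2 k12) (cs2 k04) (cs2 k34) (cs2 k24) (cs2 k14) (cs2 k05) (cs2 k35) (cs2 k25) (cs2 k15) (cs2 k45) (lt4_c15 (cs2 k03) (cs2 k02) (cs2 k23) (cs2 k01) (cs2 k13) (cs2 k12) (cs2 k04) (cs2 k34) (cs2 k24) (cs2 k14) (cs2 k05) (cs2 k35) (cs2 k25) (cs2 k15) (cs2 k45) k01 k02 k12 k03 k13 k23 k04 k14 k24 k34 k05 k15 k25 k35 k45 hp)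
  · exact (mv_23_0 h k01 k02 k12 k03 k13 k23 k04 k14 k24 k34 k05 k15 k25 k35 k45) ▸ ih k01 k03 k13 k02 k12 k23 k04 k14 k34 k24 k05 k15 k35 k25 k45 (lt4_c15 k01 k03 k13 k02 k12 k23 k04 k14 k34 k24 k05 k15 k35 k25 k45 k01 k02 k12 k03 k13 k23 k04 k14 k24 k34 k05 k15 k25 k35 k45 hp)
  · exact (mv_23_1 h k01 k02 k12 k03 k13 k23 k04 k14 k24 k34 k05 k15 k25 k35 k45) ▸ ih (cs1 k01) (cs1 k03) (cs1 k13) (cs1 k02) (cs1 k12) (cs1 k23) (cs1 k04) (cs1 k14) (cs1 k34) (cs1 k24) (cs1 k05) (cs1 k15) (cs1 k35) (cs1 k25) (cs1 k45) (lt4_c15 (cs1 k01) (cs1 k03) (cs1 k13) (cs1 k02) (cs1 k12) (cs1 k23) (cs1 k04) (cs1 k14) (cs1 k34) (cs1 k24) (cs1 k05) (cs1 k15) (cs1 k35) (cs1 k25) (cs1 k45) k01 k02 k12 k03 k13 k23 k04 k14 k24 k34 k05 k15 k25 k35 k45 hp)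
  · exact (mv_23_2 h k01 k02 k12 k03 k13 k23 k04 k14 k24 k34 k05 k15 k25 k35 k45) ▸ ih (cs2 k01) (cs2 k03) (cs2 k13) (cs2 k02) (cs2 k12) (cs2 k23) (cs2 k04) (cs2 k14) (cs2 k34) (cs2 k24) (cs2 k05) (cs2 k15) (cs2 k35) (cs2 k25) (cs2 k45) (lt4_c15 (cs2 k01) (cs2 k03) (cs2 k13) (cs2 k02) (cs2 k12) (cs2 k23) (cs2 k04) (cs2 k14) (cs2 k34) (cs2 k24) (cs2 k05) (cs2 k15) (cs2 k35) (cs2 k25) (cs2 k45) k01 k02 k12 k03 k13 k23 k04 k14 k24 k34 k05 k15 k25 k35 k45 hp)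

theorem p5_spec {b : Blk} (h : SymA b) {CAP : ℕ} (k01 k02 k12 k03 k13 k23 k04 k14 k24 k34 k05 k15 k25 k35 k45 : Fin 3)
    (ih : ∀ k01' k02' k12' k03' k13' k23' k04' k14' k24' k34' k05' k15' k25' k35' k45' : Fin 3, c15 k01' k02' k12' k03' k13' k23' k04' k14' k24' k34' k05' k15' k25' k35' k45' < c15 k01 k02 k12 k03 k13 k23 k04 k14 k24 k34 k05 k15 k25 k35 k45 →
      GG b k01' k02' k12' k03' k13' k23' k04' k14' k24' k34' k05' k15' k25' k35' k45' ≤ CAP)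
    (hp : p5 (d6 k01 k02 k12 k03 k13 k23) (d4 k04 k14 k24 k34) k01 k02 k12 k03 k13 k23 k04 k14 k24 k34 = true) : GG b k01 k02 k12 k03 k13 k23 k04 k14 k24 k34 k05 k15 k25 k35 k45 ≤ CAP := by
  rw [p5] at hp
  simp only [Bool.or_eq_true, s1_eq, s2_eq] at hp
  rcases hp with hp | hp | hp | hp | hp | hp | hp | hp | hp | hp | hp | hp | hp | hp | hp | hp | hp | hp | hp | hp | hp | hp | hp | hp | hp | hp | hp | hp | hp | hp | hp | hp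
  · exact (mv_id_1 h k01 k02 k12 k03 k13 k23 k04 k14 k24 k34 k05 k15 k25 k35 k45) ▸ ih (cs1 k01) (cs1 k02) (cs1 k12) (cs1 k03) (cs1 k13) (cs1 k23) (cs1 k04) (cs1 k14) (cs1 k24) (cs1 k34) (cs1 k05) (cs1 k15) (cs1 k25) (cs1 k35) (cs1 k45) (lt5_c15 (cs1 k01) (cs1 k02) (cs1 k12) (cs1 k03) (cs1 k13) (cs1 k23) (cs1 k04) (cs1 k14) (cs1 k24) (cs1 k34) (cs1 k05) (cs1 k15) (cs1 k25) (cs1 k35) (cs1 k45) k01 k02 k12 k03 k13 k23 k04 k14 k24 k34 k05 k15 k25 k35 k45 hp)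
  · exact (mv_id_2 h k01 k02 k12 k03 k13 k23 k04 k14 k24 k34 k05 k15 k25 k35 k45) ▸ ih (cs2 k01) (cs2 k02) (cs2 k12) (cs2 k03) (cs2 k13) (cs2 k23) (cs2 k04) (cs2 k14) (cs2 k24) (cs2 k34) (cs2 k05) (cs2 k15) (cs2 k25) (cs2 k35) (cs2 k45) (lt5_c15 (cs2 k01) (cs2 k02) (cs2 k12) (cs2 k03) (cs2 k13) (cs2 k23) (cs2 k04) (cs2 k14) (cs2 k24) (cs2 k34) (cs2 k05) (cs2 k15) (cs2 k25) (cs2 k35) (cs2 k45) k01 k02 k12 k03 k13 k23 k04 k14 k24 k34 k05 k15 k25 k35 k45 hp)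
  · exact (mv_01_0 h k01 k02 k12 k03 k13 k23 k04 k14 k24 k34 k05 k15 k25 k35 k45) ▸ ih k01 k12 k02 k13 k03 k23 k14 k04 k24 k34 k15 k05 k25 k35 k45 (lt5_c15 k01 k12 k02 k13 k03 k23 k14 k04 k24 k34 k15 k05 k25 k35 k45 k01 k02 k12 k03 k13 k23 k04 k14 k24 k34 k05 k15 k25 k35 k45 hp)
  · exact (mv_01_1 h k01 k02 k12 k03 k13 k23 k04 k14 k24 k34 k05 k15 k25 k35 k45) ▸ ih (cs1 k01) (cs1 k12) (cs1 k02) (cs1 k13) (cs1 k03) (cs1 k23) (cs1 k14) (cs1 k04) (cs1 k24) (cs1 k34) (cs1 k15) (cs1 k05) (cs1 k25) (cs1 k35) (cs1 k45) (lt5_c15 (cs1 k01) (cs1 k12) (cs1 k02) (cs1 k13) (cs1 k03) (cs1 k23) (cs1 k14) (cs1 k04) (cs1 k24) (cs1 k34) (cs1 k15) (cs1 k05) (cs1 k25) (cs1 k35) (cs1 k45) k01 k02 k12 k03 k13 k23 k04 k14 k24 k34 k05 k15 k25 k35 k45 hp)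
  · exact (mv_01_2 h k01 k02 k12 k03 k13 k23 k04 k14 k24 k34 k05 k15 k25 k35 k45) ▸ ih (cs2 k01) (cs2 k12) (cs2 k02) (cs2 k13) (cs2 k03) (cs2 k23) (cs2 k14) (cs2 k04) (cs2 k24) (cs2 k34) (cs2 k15) (cs2 k05) (cs2 k25) (cs2 k35) (cs2 k45) (lt5_c15 (cs2 k01) (cs2 k12) (cs2 k02) (cs2 k13) (cs2 k03) (cs2 k23) (cs2 k14) (cs2 k04) (cs2 k24) (cs2 k34) (cs2 k15) (cs2 k05) (cs2 k25) (cs2 k35) (cs2 k45) k01 k02 k12 k03 k13 k23 k04 k14 k24 k34 k05 k15 k25 k35 k45 hp)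
  · exact (mv_02_0 h k01 k02 k12 k03 k13 k23 k04 k14 k24 k34 k05 k15 k25 k35 k45) ▸ ih k12 k02 k01 k23 k13 k03 k24 k14 k04 k34 k25 k15 k05 k35 k45 (lt5_c15 k12 k02 k01 k23 k13 k03 k24 k14 k04 k34 k25 k15 k05 k35 k45 k01 k02 k12 k03 k13 k23 k04 k14 k24 k34 k05 k15 k25 k35 k45 hp)
  · exact (mv_02_1 h k01 k02 k12 k03 k13 k23 k04 k14 k24 k34 k05 k15 k25 k35 k45) ▸ ih (cs1 k12) (cs1 k02) (cs1 k01) (cs1 k23) (cs1 k13) (cs1 k03) (cs1 k24) (cs1 k14) (cs1 k04) (cs1 k34) (cs1 k25) (cs1 k15) (cs1 k05) (cs1 k35) (cs1 k45) (lt5_c15 (cs1 k12) (cs1 k02) (cs1 k01) (cs1 k23) (cs1 k13) (cs1 k03) (cs1 k24) (cs1 k14) (cs1 k04) (cs1 k34) (cs1 k25) (cs1 k15) (cs1 k05) (cs1 k35) (cs1 k45) k01 k02 k12 k03 k13 k23 k04 k14 k24 k34 k05 k15 k25 k35 k45 hp)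
  · exact (mv_02_2 h k01 k02 k12 k03 k13 k23 k04 k14 k24 k34 k05 k15 k25 k35 k45) ▸ ih (cs2 k12) (cs2 k02) (cs2 k01) (cs2 k23) (cs2 k13) (cs2 k03) (cs2 k24) (cs2 k14) (cs2 k04) (cs2 k34) (cs2 k25) (cs2 k15) (cs2 k05) (cs2 k35) (cs2 k45) (lt5_c15 (cs2 k12) (cs2 k02) (cs2 k01) (cs2 k23) (cs2 k13) (cs2 k03) (cs2 k24) (cs2 k14) (cs2 k04) (cs2 k34) (cs2 k25) (cs2 k15) (cs2 k05) (cs2 k35) (cs2 k45) k01 k02 k12 k03 k13 k23 k04 k14 k24 k34 k05 k15 k25 k35 k45 hp)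
  · exact (mv_03_0 h k01 k02 k12 k03 k13 k23 k04 k14 k24 k34 k05 k15 k25 k35 k45) ▸ ih k13 k23 k12 k03 k01 k02 k34 k14 k24 k04 k35 k15 k25 k05 k45 (lt5_c15 k13 k23 k12 k03 k01 k02 k34 k14 k24 k04 k35 k15 k25 k05 k45 k01 k02 k12 k03 k13 k23 k04 k14 k24 k34 k05 k15 k25 k35 k45 hp)
  · exact (mv_03_1 h k01 k02 k12 k03 k13 k23 k04 k14 k24 k34 k05 k15 k25 k35 k45) ▸ ih (cs1 k13) (cs1 k23) (cs1 k12) (cs1 k03) (cs1 k01) (cs1 k02) (cs1 k34) (cs1 k14) (cs1 k24) (cs1 k04) (cs1 k35) (cs1 k15) (cs1 k25) (cs1 k05) (cs1 k45) (lt5_c15 (cs1 k13) (cs1 k23) (cs1 k12) (cs1 k03) (cs1 k01) (cs1 k02) (cs1 k34) (cs1 k14) (cs1 k24) (cs1 k04) (cs1 k35) (cs1 k15) (cs1 k25) (cs1 k05) (cs1 k45) k01 k02 k12 k03 k13 k23 k04 k14 k24 k34 k05 k15 k25 k35 k45 hp)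
  · exact (mv_03_2 h k01 k02 k12 k03 k13 k23 k04 k14 k24 k34 k05 k15 k25 k35 k45) ▸ ih (cs2 k13) (cs2 k23) (cs2 k12) (cs2 k03) (cs2 k01) (cs2 k02) (cs2 k34) (cs2 k14) (cs2 k24) (cs2 k04) (cs2 k35) (cs2 k15) (cs2 k25) (cs2 k05) (cs2 k45) (lt5_c15 (cs2 k13) (cs2 k23) (cs2 k12) (cs2 k03) (cs2 k01) (cs2 k02) (cs2 k34) (cs2 k14) (cs2 k24) (cs2 k04) (cs2 k35) (cs2 k15) (cs2 k25) (cs2 k05) (cs2 k45) k01 k02 k12 k03 k13 k23 k04 k14 k24 k34 k05 k15 k25 k35 k45 hp)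
  · exact (mv_04_0 h k01 k02 k12 k03 k13 k23 k04 k14 k24 k34 k05 k15 k25 k35 k45) ▸ ih k14 k24 k12 k34 k13 k23 k04 k01 k02 k03 k45 k15 k25 k35 k05 (lt5_c15 k14 k24 k12 k34 k13 k23 k04 k01 k02 k03 k45 k15 k25 k35 k05 k01 k02 k12 k03 k13 k23 k04 k14 k24 k34 k05 k15 k25 k35 k45 hp)
  · exact (mv_04_1 h k01 k02 k12 k03 k13 k23 k04 k14 k24 k34 k05 k15 k25 k35 k45) ▸ ih (cs1 k14) (cs1 k24) (cs1 k12) (cs1 k34) (cs1 k13) (cs1 k23) (cs1 k04) (cs1 k01) (cs1 k02) (cs1 k03) (cs1 k45) (cs1 k15) (cs1 k25) (cs1 k35) (cs1 k05) (lt5_c15 (cs1 k14) (cs1 k24) (cs1 k12) (cs1 k34) (cs1 k13) (cs1 k23) (cs1 k04) (cs1 k01) (cs1 k02) (cs1 k03) (cs1 k45) (cs1 k15) (cs1 k25) (cs1 k35) (cs1 k05) k01 k02 k12 k03 k13 k23 k04 k14 k24 k34 k05 k15 k25 k35 k45 hp)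
  · exact (mv_04_2 h k01 k02 k12 k03 k13 k23 k04 k14 k24 k34 k05 k15 k25 k35 k45) ▸ ih (cs2 k14) (cs2 k24) (cs2 k12) (cs2 k34) (cs2 k13) (cs2 k23) (cs2 k04) (cs2 k01) (cs2 k02) (cs2 k03) (cs2 k45) (cs2 k15) (cs2 k25) (cs2 k35) (cs2 k05) (lt5_c15 (cs2 k14) (cs2 k24) (cs2 k12) (cs2 k34) (cs2 k13) (cs2 k23) (cs2 k04) (cs2 k01) (cs2 k02) (cs2 k03) (cs2 k45) (cs2 k15) (cs2 k25) (cs2 k35) (cs2 k05) k01 k02 k12 k03 k13 k23 k04 k14 k24 k34 k05 k15 k25 k35 k45 hp)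
  · exact (mv_12_0 h k01 k02 k12 k03 k13 k23 k04 k14 k24 k34 k05 k15 k25 k35 k45) ▸ ih k02 k01 k12 k03 k23 k13 k04 k24 k14 k34 k05 k25 k15 k35 k45 (lt5_c15 k02 k01 k12 k03 k23 k13 k04 k24 k14 k34 k05 k25 k15 k35 k45 k01 k02 k12 k03 k13 k23 k04 k14 k24 k34 k05 k15 k25 k35 k45 hp)
  · exact (mv_12_1 h k01 k02 k12 k03 k13 k23 k04 k14 k24 k34 k05 k15 k25 k35 k45) ▸ ih (cs1 k02) (cs1 k01) (cs1 k12) (cs1 k03) (cs1 k23) (cs1 k13) (cs1 k04) (cs1 k24) (cs1 k14) (cs1 k34) (cs1 k05) (cs1 k25) (cs1 k15) (cs1 k35) (cs1 k45) (lt5_c15 (cs1 k02) (cs1 k01) (cs1 k12) (cs1 k03) (cs1 k23) (cs1 k13) (cs1 k04) (cs1 k24) (cs1 k14) (cs1 k34) (cs1 k05) (cs1 k25) (cs1 k15) (cs1 k35) (cs1 k45) k01 k02 k12 k03 k13 k23 k04 k14 k24 k34 k05 k15 k25 k35 k45 hp)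
  · exact (mv_12_2 h k01 k02 k12 k03 k13 k23 k04 k14 k24 k34 k05 k15 k25 k35 k45) ▸ ih (cs2 k02) (cs2 k01) (cs2 k12) (cs2 k03) (cs2 k23) (cs2 k13) (cs2 k04) (cs2 k24) (cs2 k14) (cs2 k34) (cs2 k05) (cs2 k25) (cs2 k15) (cs2 k35) (cs2 k45) (lt5_c15 (cs2 k02) (cs2 k01) (cs2 k12) (cs2 k03) (cs2 k23) (cs2 k13) (cs2 k04) (cs2 k24) (cs2 k14) (cs2 k34) (cs2 k05) (cs2 k25) (cs2 k15) (cs2 k35) (cs2 k45) k01 k02 k12 k03 k13 k23 k04 k14 k24 k34 k05 k15 k25 k35 k45 hp)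
  · exact (mv_13_0 h k01 k02 k12 k03 k13 k23 k04 k14 k24 k34 k05 k15 k25 k35 k45) ▸ ih k03 k02 k23 k01 k13 k12 k04 k34 k24 k14 k05 k35 k25 k15 k45 (lt5_c15 k03 k02 k23 k01 k13 k12 k04 k34 k24 k14 k05 k35 k25 k15 k45 k01 k02 k12 k03 k13 k23 k04 k14 k24 k34 k05 k15 k25 k35 k45 hp)
  · exact (mv_13_1 h k01 k02 k12 k03 k13 k23 k04 k14 k24 k34 k05 k15 k25 k35 k45) ▸ ih (cs1 k03) (cs1 k02) (cs1 k23) (cs1 k01) (cs1 k13) (cs1 k12) (cs1 k04) (cs1 k34) (cs1 k24) (cs1 k14) (cs1 k05) (cs1 k35) (cs1 k25) (cs1 k15) (cs1 k45) (lt5_c15 (cs1 k03) (cs1 k02) (cs1 k23) (cs1 k01) (cs1 k13) (cs1 k12) (cs1 k04) (cs1 k34) (cs1 k24) (cs1 k14) (cs1 k05) (cs1 k35) (cs1 k25) (cs1 k15) (cs1 k45) k01 k02 k12 k03 k13 k23 k04 k14 k24 k34 k05 k15 k25 k35 k45 hp)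
  · exact (mv_13_2 h k01 k02 k12 k03 k13 k23 k04 k14 k24 k34 k05 k15 k25 k35 k45) ▸ ih (cs2 k03) (cs2 k02) (cs2 k23) (cs2 k01) (cs2 k13) (cs2 k12) (cs2 k04) (cs2 k34) (cs2 k24) (cs2 k14) (cs2 k05) (cs2 k35) (cs2 k25) (cs2 k15) (cs2 k45) (lt5_c15 (cs2 k03) (cs2 k02) (cs2 k23) (cs2 k01) (cs2 k13) (cs2 k12) (cs2 k04) (cs2 k34) (cs2 k24) (cs2 k14) (cs2 k05) (cs2 k35) (cs2 k25) (cs2 k15) (cs2 k45) k01 k02 k12 k03 k13 k23 k04 k14 k24 k34 k05 k15 k25 k35 k45 hp)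
  · exact (mv_14_0 h k01 k02 k12 k03 k13 k23 k04 k14 k24 k34 k05 k15 k25 k35 k45) ▸ ih k04 k02 k24 k03 k34 k23 k01 k14 k12 k13 k05 k45 k25 k35 k15 (lt5_c15 k04 k02 k24 k03 k34 k23 k01 k14 k12 k13 k05 k45 k25 k35 k15 k01 k02 k12 k03 k13 k23 k04 k14 k24 k34 k05 k15 k25 k35 k45 hp)
  · exact (mv_14_1 h k01 k02 k12 k03 k13 k23 k04 k14 k24 k34 k05 k15 k25 k35 k45) ▸ ih (cs1 k04) (cs1 k02) (cs1 k24) (cs1 k03) (cs1 k34) (cs1 k23) (cs1 k01) (cs1 k14) (cs1 k12) (cs1 k13) (cs1 k05) (cs1 k45) (cs1 k25) (cs1 k35) (cs1 k15) (lt5_c15 (cs1 k04) (cs1 k02) (cs1 k24) (cs1 k03) (cs1 k34) (cs1 k23) (cs1 k01) (cs1 k14) (cs1 k12) (cs1 k13) (cs1 k05) (cs1 k45) (cs1 k25) (cs1 k35) (cs1 k15) k01 k02 k12 k03 k13 k23 k04 k14 k24 k34 k05 k15 k25 k35 k45 hp)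
  · exact (mv_14_2 h k01 k02 k12 k03 k13 k23 k04 k14 k24 k34 k05 k15 k25 k35 k45) ▸ ih (cs2 k04) (cs2 k02) (cs2 k24) (cs2 k03) (cs2 k34) (cs2 k23) (cs2 k01) (cs2 k14) (cs2 k12) (cs2 k13) (cs2 k05) (cs2 k45) (cs2 k25) (cs2 k35) (cs2 k15) (lt5_c15 (cs2 k04) (cs2 k02) (cs2 k24) (cs2 k03) (cs2 k34) (cs2 k23) (cs2 k01) (cs2 k14) (cs2 k12) (cs2 k13) (cs2 k05) (cs2 k45) (cs2 k25) (cs2 k35) (cs2 k15) k01 k02 k12 k03 k13 k23 k04 k14 k24 k34 k05 k15 k25 k35 k45 hp)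
  · exact (mv_23_0 h k01 k02 k12 k03 k13 k23 k04 k14 k24 k34 k05 k15 k25 k35 k45) ▸ ih k01 k03 k13 k02 k12 k23 k04 k14 k34 k24 k05 k15 k35 k25 k45 (lt5_c15 k01 k03 k13 k02 k12 k23 k04 k14 k34 k24 k05 k15 k35 k25 k45 k01 k02 k12 k03 k13 k23 k04 k14 k24 k34 k05 k15 k25 k35 k45 hp)
  · exact (mv_23_1 h k01 k02 k12 k03 k13 k23 k04 k14 k24 k34 k05 k15 k25 k35 k45) ▸ ih (cs1 k01) (cs1 k03) (cs1 k13) (cs1 k02) (cs1 k12) (cs1 k23) (cs1 k04) (cs1 k14) (cs1 k34) (cs1 k24) (cs1 k05) (cs1 k15) (cs1 k35) (cs1 k25) (cs1 k45) (lt5_c15 (cs1 k01) (cs1 k03) (cs1 k13) (cs1 k02) (cs1 k12) (cs1 k23) (cs1 k04) (cs1 k14) (cs1 k34) (cs1 k24) (cs1 k05) (cs1 k15) (cs1 k35) (cs1 k25) (cs1 k45) k01 k02 k12 k03 k13 k23 k04 k14 k24 k34 k05 k15 k25 k35 k45 hp)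
  · exact (mv_23_2 h k01 k02 k12 k03 k13 k23 k04 k14 k24 k34 k05 k15 k25 k35 k45) ▸ ih (cs2 k01) (cs2 k03) (cs2 k13) (cs2 k02) (cs2 k12) (cs2 k23) (cs2 k04) (cs2 k14) (cs2 k34) (cs2 k24) (cs2 k05) (cs2 k15) (cs2 k35) (cs2 k25) (cs2 k45) (lt5_c15 (cs2 k01) (cs2 k03) (cs2 k13) (cs2 k02) (cs2 k12) (cs2 k23) (cs2 k04) (cs2 k14) (cs2 k34) (cs2 k24) (cs2 k05) (cs2 k15) (cs2 k35) (cs2 k25) (cs2 k45) k01 k02 k12 k03 k13 k23 k04 k14 k24 k34 k05 k15 k25 k35 k45 hp)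
  · exact (mv_24_0 h k01 k02 k12 k03 k13 k23 k04 k14 k24 k34 k05 k15 k25 k35 k45) ▸ ih k01 k04 k14 k03 k13 k34 k02 k12 k24 k23 k05 k15 k45 k35 k25 (lt5_c15 k01 k04 k14 k03 k13 k34 k02 k12 k24 k23 k05 k15 k45 k35 k25 k01 k02 k12 k03 k13 k23 k04 k14 k24 k34 k05 k15 k25 k35 k45 hp)
  · exact (mv_24_1 h k01 k02 k12 k03 k13 k23 k04 k14 k24 k34 k05 k15 k25 k35 k45) ▸ ih (cs1 k01) (cs1 k04) (cs1 k14) (cs1 k03) (cs1 k13) (cs1 k34) (cs1 k02) (cs1 k12) (cs1 k24) (cs1 k23) (cs1 k05) (cs1 k15) (cs1 k45) (cs1 k35) (cs1 k25) (lt5_c15 (cs1 k01) (cs1 k04) (cs1 k14) (cs1 k03) (cs1 k13) (cs1 k34) (cs1 k02) (cs1 k12) (cs1 k24) (cs1 k23) (cs1 k05) (cs1 k15) (cs1 k45) (cs1 k35) (cs1 k25) k01 k02 k12 k03 k13 k23 k04 k14 k24 k34 k05 k15 k25 k35 k45 hp)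
  · exact (mv_24_2 h k01 k02 k12 k03 k13 k23 k04 k14 k24 k34 k05 k15 k25 k35 k45) ▸ ih (cs2 k01) (cs2 k04) (cs2 k14) (cs2 k03) (cs2 k13) (cs2 k34) (cs2 k02) (cs2 k12) (cs2 k24) (cs2 k23) (cs2 k05) (cs2 k15) (cs2 k45) (cs2 k35) (cs2 k25) (lt5_c15 (cs2 k01) (cs2 k04) (cs2 k14) (cs2 k03) (cs2 k13) (cs2 k34) (cs2 k02) (cs2 k12) (cs2 k24) (cs2 k23) (cs2 k05) (cs2 k15) (cs2 k45) (cs2 k35) (cs2 k25) k01 k02 k12 k03 k13 k23 k04 k14 k24 k34 k05 k15 k25 k35 k45 hp)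
  · exact (mv_34_0 h k01 k02 k12 k03 k13 k23 k04 k14 k24 k34 k05 k15 k25 k35 k45) ▸ ih k01 k02 k12 k04 k14 k24 k03 k13 k23 k34 k05 k15 k25 k45 k35 (lt5_c15 k01 k02 k12 k04 k14 k24 k03 k13 k23 k34 k05 k15 k25 k45 k35 k01 k02 k12 k03 k13 k23 k04 k14 k24 k34 k05 k15 k25 k35 k45 hp)
  · exact (mv_34_1 h k01 k02 k12 k03 k13 k23 k04 k14 k24 k34 k05 k15 k25 k35 k45) ▸ ih (cs1 k01) (cs1 k02) (cs1 k12) (cs1 k04) (cs1 k14) (cs1 k24) (cs1 k03) (cs1 k13) (cs1 k23) (cs1 k34) (cs1 k05) (cs1 k15) (cs1 k25) (cs1 k45) (cs1 k35) (lt5_c15 (cs1 k01) (cs1 k02) (cs1 k12) (cs1 k04) (cs1 k14) (cs1 k24) (cs1 k03) (cs1 k13) (cs1 k23) (cs1 k34) (cs1 k05) (cs1 k15) (cs1 k25) (cs1 k45) (cs1 k35) k01 k02 k12 k03 k13 k23 k04 k14 k24 k34 k05 k15 k25 k35 k45 hp)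
  · exact (mv_34_2 h k01 k02 k12 k03 k13 k23 k04 k14 k24 k34 k05 k15 k25 k35 k45) ▸ ih (cs2 k01) (cs2 k02) (cs2 k12) (cs2 k04) (cs2 k14) (cs2 k24) (cs2 k03) (cs2 k13) (cs2 k23) (cs2 k34) (cs2 k05) (cs2 k15) (cs2 k25) (cs2 k45) (cs2 k35) (lt5_c15 (cs2 k01) (cs2 k02) (cs2 k12) (cs2 k04) (cs2 k14) (cs2 k24) (cs2 k03) (cs2 k13) (cs2 k23) (cs2 k34) (cs2 k05) (cs2 k15) (cs2 k25) (cs2 k45) (cs2 k35) k01 k02 k12 k03 k13 k23 k04 k14 k24 k34 k05 k15 k25 k35 k45 hp)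

theorem p6_spec {b : Blk} (h : SymA b) {CAP : ℕ} (k01 k02 k12 k03 k13 k23 k04 k14 k24 k34 k05 k15 k25 k35 k45 : Fin 3)
    (ih : ∀ k01' k02' k12' k03' k13' k23' k04' k14' k24' k34' k05' k15' k25' k35' k45' : Fin 3, c15 k01' k02' k12' k03' k13' k23' k04' k14' k24' k34' k05' k15' k25' k35' k45' < c15 k01 k02 k12 k03 k13 k23 k04 k14 k24 k34 k05 k15 k25 k35 k45 →
      GG b k01' k02' k12' k03' k13' k23' k04' k14' k24' k34' k05' k15' k25' k35' k45' ≤ CAP)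
    (hp : p6 (d6 k01 k02 k12 k03 k13 k23) (d4 k04 k14 k24 k34) (d5 k05 k15 k25 k35 k45) k01 k02 k12 k03 k13 k23 k04 k14 k24 k34 k05 k15 k25 k35 k45 = true) : GG b k01 k02 k12 k03 k13 k23 k04 k14 k24 k34 k05 k15 k25 k35 k45 ≤ CAP := by
  rw [p6] at hp
  simp only [Bool.or_eq_true, s1_eq, s2_eq] at hp
  rcases hp with hp | hp | hp | hp | hp | hp | hp | hp | hp | hp | hp | hp | hp | hp | hp | hp | hp | hp | hp | hp | hp | hp | hp | hp | hp | hp | hp | hp | hp | hp | hp | hp | hp | hp | hp | hp | hp | hp | hp | hp | hp | hp | hp | hp | hp | hp | hp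
  · exact (mv_id_1 h k01 k02 k12 k03 k13 k23 k04 k14 k24 k34 k05 k15 k25 k35 k45) ▸ ih (cs1 k01) (cs1 k02) (cs1 k12) (cs1 k03) (cs1 k13) (cs1 k23) (cs1 k04) (cs1 k14) (cs1 k24) (cs1 k34) (cs1 k05) (cs1 k15) (cs1 k25) (cs1 k35) (cs1 k45) (lt6_c15 (cs1 k01) (cs1 k02) (cs1 k12) (cs1 k03) (cs1 k13) (cs1 k23) (cs1 k04) (cs1 k14) (cs1 k24) (cs1 k34) (cs1 k05) (cs1 k15) (cs1 k25) (cs1 k35) (cs1 k45) k01 k02 k12 k03 k13 k23 k04 k14 k24 k34 k05 k15 k25 k35 k45 hp)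
  · exact (mv_id_2 h k01 k02 k12 k03 k13 k23 k04 k14 k24 k34 k05 k15 k25 k35 k45) ▸ ih (cs2 k01) (cs2 k02) (cs2 k12) (cs2 k03) (cs2 k13) (cs2 k23) (cs2 k04) (cs2 k14) (cs2 k24) (cs2 k34) (cs2 k05) (cs2 k15) (cs2 k25) (cs2 k35) (cs2 k45) (lt6_c15 (cs2 k01) (cs2 k02) (cs2 k12) (cs2 k03) (cs2 k13) (cs2 k23) (cs2 k04) (cs2 k14) (cs2 k24) (cs2 k34) (cs2 k05) (cs2 k15) (cs2 k25) (cs2 k35) (cs2 k45) k01 k02 k12 k03 k13 k23 k04 k14 k24 k34 k05 k15 k25 k35 k45 hp)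
  · exact (mv_01_0 h k01 k02 k12 k03 k13 k23 k04 k14 k24 k34 k05 k15 k25 k35 k45) ▸ ih k01 k12 k02 k13 k03 k23 k14 k04 k24 k34 k15 k05 k25 k35 k45 (lt6_c15 k01 k12 k02 k13 k03 k23 k14 k04 k24 k34 k15 k05 k25 k35 k45 k01 k02 k12 k03 k13 k23 k04 k14 k24 k34 k05 k15 k25 k35 k45 hp)
  · exact (mv_01_1 h k01 k02 k12 k03 k13 k23 k04 k14 k24 k34 k05 k15 k25 k35 k45) ▸ ih (cs1 k01) (cs1 k12) (cs1 k02) (cs1 k13) (cs1 k03) (cs1 k23) (cs1 k14) (cs1 k04) (cs1 k24) (cs1 k34) (cs1 k15) (cs1 k05) (cs1 k25) (cs1 k35) (cs1 k45) (lt6_c15 (cs1 k01) (cs1 k12) (cs1 k02) (cs1 k13) (cs1 k03) (cs1 k23) (cs1 k14) (cs1 k04) (cs1 k24) (cs1 k34) (cs1 k15) (cs1 k05) (cs1 k25) (cs1 k35) (cs1 k45) k01 k02 k12 k03 k13 k23 k04 k14 k24 k34 k05 k15 k25 k35 k45 hp)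
  · exact (mv_01_2 h k01 k02 k12 k03 k13 k23 k04 k14 k24 k34 k05 k15 k25 k35 k45) ▸ ih (cs2 k01) (cs2 k12) (cs2 k02) (cs2 k13) (cs2 k03) (cs2 k23) (cs2 k14) (cs2 k04) (cs2 k24) (cs2 k34) (cs2 k15) (cs2 k05) (cs2 k25) (cs2 k35) (cs2 k45) (lt6_c15 (cs2 k01) (cs2 k12) (cs2 k02) (cs2 k13) (cs2 k03) (cs2 k23) (cs2 k14) (cs2 k04) (cs2 k24) (cs2 k34) (cs2 k15) (cs2 k05) (cs2 k25) (cs2 k35) (cs2 k45) k01 k02 k12 k03 k13 k23 k04 k14 k24 k34 k05 k15 k25 k35 k45 hp)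
  · exact (mv_02_0 h k01 k02 k12 k03 k13 k23 k04 k14 k24 k34 k05 k15 k25 k35 k45) ▸ ih k12 k02 k01 k23 k13 k03 k24 k14 k04 k34 k25 k15 k05 k35 k45 (lt6_c15 k12 k02 k01 k23 k13 k03 k24 k14 k04 k34 k25 k15 k05 k35 k45 k01 k02 k12 k03 k13 k23 k04 k14 k24 k34 k05 k15 k25 k35 k45 hp)
  · exact (mv_02_1 h k01 k02 k12 k03 k13 k23 k04 k14 k24 k34 k05 k15 k25 k35 k45) ▸ ih (cs1 k12) (cs1 k02) (cs1 k01) (cs1 k23) (cs1 k13) (cs1 k03) (cs1 k24) (cs1 k14) (cs1 k04) (cs1 k34) (cs1 k25) (cs1 k15) (cs1 k05) (cs1 k35) (cs1 k45) (lt6_c15 (cs1 k12) (cs1 k02) (cs1 k01) (cs1 k23) (cs1 k13) (cs1 k03) (cs1 k24) (cs1 k14) (cs1 k04) (cs1 k34) (cs1 k25) (cs1 k15) (cs1 k05) (cs1 k35) (cs1 k45) k01 k02 k12 k03 k13 k23 k04 k14 k24 k34 k05 k15 k25 k35 k45 hp)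
  · exact (mv_02_2 h k01 k02 k12 k03 k13 k23 k04 k14 k24 k34 k05 k15 k25 k35 k45) ▸ ih (cs2 k12) (cs2 k02) (cs2 k01) (cs2 k23) (cs2 k13) (cs2 k03) (cs2 k24) (cs2 k14) (cs2 k04) (cs2 k34) (cs2 k25) (cs2 k15) (cs2 k05) (cs2 k35) (cs2 k45) (lt6_c15 (cs2 k12) (cs2 k02) (cs2 k01) (cs2 k23) (cs2 k13) (cs2 k03) (cs2 k24) (cs2 k14) (cs2 k04) (cs2 k34) (cs2 k25) (cs2 k15) (cs2 k05) (cs2 k35) (cs2 k45) k01 k02 k12 k03 k13 k23 k04 k14 k24 k34 k05 k15 k25 k35 k45 hp)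
  · exact (mv_03_0 h k01 k02 k12 k03 k13 k23 k04 k14 k24 k34 k05 k15 k25 k35 k45) ▸ ih k13 k23 k12 k03 k01 k02 k34 k14 k24 k04 k35 k15 k25 k05 k45 (lt6_c15 k13 k23 k12 k03 k01 k02 k34 k14 k24 k04 k35 k15 k25 k05 k45 k01 k02 k12 k03 k13 k23 k04 k14 k24 k34 k05 k15 k25 k35 k45 hp)
  · exact (mv_03_1 h k01 k02 k12 k03 k13 k23 k04 k14 k24 k34 k05 k15 k25 k35 k45) ▸ ih (cs1 k13) (cs1 k23) (cs1 k12) (cs1 k03) (cs1 k01) (cs1 k02) (cs1 k34) (cs1 k14) (cs1 k24) (cs1 k04) (cs1 k35) (cs1 k15) (cs1 k25) (cs1 k05) (cs1 k45) (lt6_c15 (cs1 k13) (cs1 k23) (cs1 k12) (cs1 k03) (cs1 k01) (cs1 k02) (cs1 k34) (cs1 k14) (cs1 k24) (cs1 k04) (cs1 k35) (cs1 k15) (cs1 k25) (cs1 k05) (cs1 k45) k01 k02 k12 k03 k13 k23 k04 k14 k24 k34 k05 k15 k25 k35 k45 hp)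
  · exact (mv_03_2 h k01 k02 k12 k03 k13 k23 k04 k14 k24 k34 k05 k15 k25 k35 k45) ▸ ih (cs2 k13) (cs2 k23) (cs2 k12) (cs2 k03) (cs2 k01) (cs2 k02) (cs2 k34) (cs2 k14) (cs2 k24) (cs2 k04) (cs2 k35) (cs2 k15) (cs2 k25) (cs2 k05) (cs2 k45) (lt6_c15 (cs2 k13) (cs2 k23) (cs2 k12) (cs2 k03) (cs2 k01) (cs2 k02) (cs2 k34) (cs2 k14) (cs2 k24) (cs2 k04) (cs2 k35) (cs2 k15) (cs2 k25) (cs2 k05) (cs2 k45) k01 k02 k12 k03 k13 k23 k04 k14 k24 k34 k05 k15 k25 k35 k45 hp)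
  · exact (mv_04_0 h k01 k02 k12 k03 k13 k23 k04 k14 k24 k34 k05 k15 k25 k35 k45) ▸ ih k14 k24 k12 k34 k13 k23 k04 k01 k02 k03 k45 k15 k25 k35 k05 (lt6_c15 k14 k24 k12 k34 k13 k23 k04 k01 k02 k03 k45 k15 k25 k35 k05 k01 k02 k12 k03 k13 k23 k04 k14 k24 k34 k05 k15 k25 k35 k45 hp)
  · exact (mv_04_1 h k01 k02 k12 k03 k13 k23 k04 k14 k24 k34 k05 k15 k25 k35 k45) ▸ ih (cs1 k14) (cs1 k24) (cs1 k12) (cs1 k34) (cs1 k13) (cs1 k23) (cs1 k04) (cs1 k01) (cs1 k02) (cs1 k03) (cs1 k45) (cs1 k15) (cs1 k25) (cs1 k35) (cs1 k05) (lt6_c15 (cs1 k14) (cs1 k24) (cs1 k12) (cs1 k34) (cs1 k13) (cs1 k23) (cs1 k04) (cs1 k01) (cs1 k02) (cs1 k03) (cs1 k45) (cs1 k15) (cs1 k25) (cs1 k35) (cs1 k05) k01 k02 k12 k03 k13 k23 k04 k14 k24 k34 k05 k15 k25 k35 k45 hp)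
  · exact (mv_04_2 h k01 k02 k12 k03 k13 k23 k04 k14 k24 k34 k05 k15 k25 k35 k45) ▸ ih (cs2 k14) (cs2 k24) (cs2 k12) (cs2 k34) (cs2 k13) (cs2 k23) (cs2 k04) (cs2 k01) (cs2 k02) (cs2 k03) (cs2 k45) (cs2 k15) (cs2 k25) (cs2 k35) (cs2 k05) (lt6_c15 (cs2 k14) (cs2 k24) (cs2 k12) (cs2 k34) (cs2 k13) (cs2 k23) (cs2 k04) (cs2 k01) (cs2 k02) (cs2 k03) (cs2 k45) (cs2 k15) (cs2 k25) (cs2 k35) (cs2 k05) k01 k02 k12 k03 k13 k23 k04 k14 k24 k34 k05 k15 k25 k35 k45 hp)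
  · exact (mv_05_0 h k01 k02 k12 k03 k13 k23 k04 k14 k24 k34 k05 k15 k25 k35 k45) ▸ ih k15 k25 k12 k35 k13 k23 k45 k14 k24 k34 k05 k01 k02 k03 k04 (lt6_c15 k15 k25 k12 k35 k13 k23 k45 k14 k24 k34 k05 k01 k02 k03 k04 k01 k02 k12 k03 k13 k23 k04 k14 k24 k34 k05 k15 k25 k35 k45 hp)
  · exact (mv_05_1 h k01 k02 k12 k03 k13 k23 k04 k14 k24 k34 k05 k15 k25 k35 k45) ▸ ih (cs1 k15) (cs1 k25) (cs1 k12) (cs1 k35) (cs1 k13) (cs1 k23) (cs1 k45) (cs1 k14) (cs1 k24) (cs1 k34) (cs1 k05) (cs1 k01) (cs1 k02) (cs1 k03) (cs1 k04) (lt6_c15 (cs1 k15) (cs1 k25) (cs1 k12) (cs1 k35) (cs1 k13) (cs1 k23) (cs1 k45) (cs1 k14) (cs1 k24) (cs1 k34) (cs1 k05) (cs1 k01) (cs1 k02) (cs1 k03) (cs1 k04) k01 k02 k12 k03 k13 k23 k04 k14 k24 k34 k05 k15 k25 k35 k45 hp)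
  · exact (mv_05_2 h k01 k02 k12 k03 k13 k23 k04 k14 k24 k34 k05 k15 k25 k35 k45) ▸ ih (cs2 k15) (cs2 k25) (cs2 k12) (cs2 k35) (cs2 k13) (cs2 k23) (cs2 k45) (cs2 k14) (cs2 k24) (cs2 k34) (cs2 k05) (cs2 k01) (cs2 k02) (cs2 k03) (cs2 k04) (lt6_c15 (cs2 k15) (cs2 k25) (cs2 k12) (cs2 k35) (cs2 k13) (cs2 k23) (cs2 k45) (cs2 k14) (cs2 k24) (cs2 k34) (cs2 k05) (cs2 k01) (cs2 k02) (cs2 k03) (cs2 k04) k01 k02 k12 k03 k13 k23 k04 k14 k24 k34 k05 k15 k25 k35 k45 hp)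
  · exact (mv_12_0 h k01 k02 k12 k03 k13 k23 k04 k14 k24 k34 k05 k15 k25 k35 k45) ▸ ih k02 k01 k12 k03 k23 k13 k04 k24 k14 k34 k05 k25 k15 k35 k45 (lt6_c15 k02 k01 k12 k03 k23 k13 k04 k24 k14 k34 k05 k25 k15 k35 k45 k01 k02 k12 k03 k13 k23 k04 k14 k24 k34 k05 k15 k25 k35 k45 hp)
  · exact (mv_12_1 h k01 k02 k12 k03 k13 k23 k04 k14 k24 k34 k05 k15 k25 k35 k45) ▸ ih (cs1 k02) (cs1 k01) (cs1 k12) (cs1 k03) (cs1 k23) (cs1 k13) (cs1 k04) (cs1 k24) (cs1 k14) (cs1 k34) (cs1 k05) (cs1 k25) (cs1 k15) (cs1 k35) (cs1 k45) (lt6_c15 (cs1 k02) (cs1 k01) (cs1 k12) (cs1 k03) (cs1 k23) (cs1 k13) (cs1 k04) (cs1 k24) (cs1 k14) (cs1 k34) (cs1 k05) (cs1 k25) (cs1 k15) (cs1 k35) (cs1 k45) k01 k02 k12 k03 k13 k23 k04 k14 k24 k34 k05 k15 k25 k35 k45 hp)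
  · exact (mv_12_2 h k01 k02 k12 k03 k13 k23 k04 k14 k24 k34 k05 k15 k25 k35 k45) ▸ ih (cs2 k02) (cs2 k01) (cs2 k12) (cs2 k03) (cs2 k23) (cs2 k13) (cs2 k04) (cs2 k24) (cs2 k14) (cs2 k34) (cs2 k05) (cs2 k25) (cs2 k15) (cs2 k35) (cs2 k45) (lt6_c15 (cs2 k02) (cs2 k01) (cs2 k12) (cs2 k03) (cs2 k23) (cs2 k13) (cs2 k04) (cs2 k24) (cs2 k14) (cs2 k34) (cs2 k05) (cs2 k25) (cs2 k15) (cs2 k35) (cs2 k45) k01 k02 k12 k03 k13 k23 k04 k14 k24 k34 k05 k15 k25 k35 k45 hp)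
  · exact (mv_13_0 h k01 k02 k12 k03 k13 k23 k04 k14 k24 k34 k05 k15 k25 k35 k45) ▸ ih k03 k02 k23 k01 k13 k12 k04 k34 k24 k14 k05 k35 k25 k15 k45 (lt6_c15 k03 k02 k23 k01 k13 k12 k04 k34 k24 k14 k05 k35 k25 k15 k45 k01 k02 k12 k03 k13 k23 k04 k14 k24 k34 k05 k15 k25 k35 k45 hp)
  · exact (mv_13_1 h k01 k02 k12 k03 k13 k23 k04 k14 k24 k34 k05 k15 k25 k35 k45) ▸ ih (cs1 k03) (cs1 k02) (cs1 k23) (cs1 k01) (cs1 k13) (cs1 k12) (cs1 k04) (cs1 k34) (cs1 k24) (cs1 k14) (cs1 k05) (cs1 k35) (cs1 k25) (cs1 k15) (cs1 k45) (lt6_c15 (cs1 k03) (cs1 k02) (cs1 k23) (cs1 k01) (cs1 k13) (cs1 k12) (cs1 k04) (cs1 k34) (cs1 k24) (cs1 k14) (cs1 k05) (cs1 k35) (cs1 k25) (cs1 k15) (cs1 k45) k01 k02 k12 k03 k13 k23 k04 k14 k24 k34 k05 k15 k25 k35 k45 hp)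
  · exact (mv_13_2 h k01 k02 k12 k03 k13 k23 k04 k14 k24 k34 k05 k15 k25 k35 k45) ▸ ih (cs2 k03) (cs2 k02) (cs2 k23) (cs2 k01) (cs2 k13) (cs2 k12) (cs2 k04) (cs2 k34) (cs2 k24) (cs2 k14) (cs2 k05) (cs2 k35) (cs2 k25) (cs2 k15) (cs2 k45) (lt6_c15 (cs2 k03) (cs2 k02) (cs2 k23) (cs2 k01) (cs2 k13) (cs2 k12) (cs2 k04) (cs2 k34) (cs2 k24) (cs2 k14) (cs2 k05) (cs2 k35) (cs2 k25) (cs2 k15) (cs2 k45) k01 k02 k12 k03 k13 k23 k04 k14 k24 k34 k05 k15 k25 k35 k45 hp)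
  · exact (mv_14_0 h k01 k02 k12 k03 k13 k23 k04 k14 k24 k34 k05 k15 k25 k35 k45) ▸ ih k04 k02 k24 k03 k34 k23 k01 k14 k12 k13 k05 k45 k25 k35 k15 (lt6_c15 k04 k02 k24 k03 k34 k23 k01 k14 k12 k13 k05 k45 k25 k35 k15 k01 k02 k12 k03 k13 k23 k04 k14 k24 k34 k05 k15 k25 k35 k45 hp)
  · exact (mv_14_1 h k01 k02 k12 k03 k13 k23 k04 k14 k24 k34 k05 k15 k25 k35 k45) ▸ ih (cs1 k04) (cs1 k02) (cs1 k24) (cs1 k03) (cs1 k34) (cs1 k23) (cs1 k01) (cs1 k14) (cs1 k12) (cs1 k13) (cs1 k05) (cs1 k45) (cs1 k25) (cs1 k35) (cs1 k15) (lt6_c15 (cs1 k04) (cs1 k02) (cs1 k24) (cs1 k03) (cs1 k34) (cs1 k23) (cs1 k01) (cs1 k14) (cs1 k12) (cs1 k13) (cs1 k05) (cs1 k45) (cs1 k25) (cs1 k35) (cs1 k15) k01 k02 k12 k03 k13 k23 k04 k14 k24 k34 k05 k15 k25 k35 k45 hp)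
  · exact (mv_14_2 h k01 k02 k12 k03 k13 k23 k04 k14 k24 k34 k05 k15 k25 k35 k45) ▸ ih (cs2 k04) (cs2 k02) (cs2 k24) (cs2 k03) (cs2 k34) (cs2 k23) (cs2 k01) (cs2 k14) (cs2 k12) (cs2 k13) (cs2 k05) (cs2 k45) (cs2 k25) (cs2 k35) (cs2 k15) (lt6_c15 (cs2 k04) (cs2 k02) (cs2 k24) (cs2 k03) (cs2 k34) (cs2 k23) (cs2 k01) (cs2 k14) (cs2 k12) (cs2 k13) (cs2 k05) (cs2 k45) (cs2 k25) (cs2 k35) (cs2 k15) k01 k02 k12 k03 k13 k23 k04 k14 k24 k34 k05 k15 k25 k35 k45 hp)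
  · exact (mv_15_0 h k01 k02 k12 k03 k13 k23 k04 k14 k24 k34 k05 k15 k25 k35 k45) ▸ ih k05 k02 k25 k03 k35 k23 k04 k45 k24 k34 k01 k15 k12 k13 k14 (lt6_c15 k05 k02 k25 k03 k35 k23 k04 k45 k24 k34 k01 k15 k12 k13 k14 k01 k02 k12 k03 k13 k23 k04 k14 k24 k34 k05 k15 k25 k35 k45 hp)
  · exact (mv_15_1 h k01 k02 k12 k03 k13 k23 k04 k14 k24 k34 k05 k15 k25 k35 k45) ▸ ih (cs1 k05) (cs1 k02) (cs1 k25) (cs1 k03) (cs1 k35) (cs1 k23) (cs1 k04) (cs1 k45) (cs1 k24) (cs1 k34) (cs1 k01) (cs1 k15) (cs1 k12) (cs1 k13) (cs1 k14) (lt6_c15 (cs1 k05) (cs1 k02) (cs1 k25) (cs1 k03) (cs1 k35) (cs1 k23) (cs1 k04) (cs1 k45) (cs1 k24) (cs1 k34) (cs1 k01) (cs1 k15) (cs1 k12) (cs1 k13) (cs1 k14) k01 k02 k12 k03 k13 k23 k04 k14 k24 k34 k05 k15 k25 k35 k45 hp)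
  · exact (mv_15_2 h k01 k02 k12 k03 k13 k23 k04 k14 k24 k34 k05 k15 k25 k35 k45) ▸ ih (cs2 k05) (cs2 k02) (cs2 k25) (cs2 k03) (cs2 k35) (cs2 k23) (cs2 k04) (cs2 k45) (cs2 k24) (cs2 k34) (cs2 k01) (cs2 k15) (cs2 k12) (cs2 k13) (cs2 k14) (lt6_c15 (cs2 k05) (cs2 k02) (cs2 k25) (cs2 k03) (cs2 k35) (cs2 k23) (cs2 k04) (cs2 k45) (cs2 k24) (cs2 k34) (cs2 k01) (cs2 k15) (cs2 k12) (cs2 k13) (cs2 k14) k01 k02 k12 k03 k13 k23 k04 k14 k24 k34 k05 k15 k25 k35 k45 hp)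
  · exact (mv_23_0 h k01 k02 k12 k03 k13 k23 k04 k14 k24 k34 k05 k15 k25 k35 k45) ▸ ih k01 k03 k13 k02 k12 k23 k04 k14 k34 k24 k05 k15 k35 k25 k45 (lt6_c15 k01 k03 k13 k02 k12 k23 k04 k14 k34 k24 k05 k15 k35 k25 k45 k01 k02 k12 k03 k13 k23 k04 k14 k24 k34 k05 k15 k25 k35 k45 hp)
  · exact (mv_23_1 h k01 k02 k12 k03 k13 k23 k04 k14 k24 k34 k05 k15 k25 k35 k45) ▸ ih (cs1 k01) (cs1 k03) (cs1 k13) (cs1 k02) (cs1 k12) (cs1 k23) (cs1 k04) (cs1 k14) (cs1 k34) (cs1 k24) (cs1 k05) (cs1 k15) (cs1 k35) (cs1 k25) (cs1 k45) (lt6_c15 (cs1 k01) (cs1 k03) (cs1 k13) (cs1 k02) (cs1 k12) (cs1 k23) (cs1 k04) (cs1 k14) (cs1 k34) (cs1 k24) (cs1 k05) (cs1 k15) (cs1 k35) (cs1 k25) (cs1 k45) k01 k02 k12 k03 k13 k23 k04 k14 k24 k34 k05 k15 k25 k35 k45 hp)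
  · exact (mv_23_2 h k01 k02 k12 k03 k13 k23 k04 k14 k24 k34 k05 k15 k25 k35 k45) ▸ ih (cs2 k01) (cs2 k03) (cs2 k13) (cs2 k02) (cs2 k12) (cs2 k23) (cs2 k04) (cs2 k14) (cs2 k34) (cs2 k24) (cs2 k05) (cs2 k15) (cs2 k35) (cs2 k25) (cs2 k45) (lt6_c15 (cs2 k01) (cs2 k03) (cs2 k13) (cs2 k02) (cs2 k12) (cs2 k23) (cs2 k04) (cs2 k14) (cs2 k34) (cs2 k24) (cs2 k05) (cs2 k15) (cs2 k35) (cs2 k25) (cs2 k45) k01 k02 k12 k03 k13 k23 k04 k14 k24 k34 k05 k15 k25 k35 k45 hp)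
  · exact (mv_24_0 h k01 k02 k12 k03 k13 k23 k04 k14 k24 k34 k05 k15 k25 k35 k45) ▸ ih k01 k04 k14 k03 k13 k34 k02 k12 k24 k23 k05 k15 k45 k35 k25 (lt6_c15 k01 k04 k14 k03 k13 k34 k02 k12 k24 k23 k05 k15 k45 k35 k25 k01 k02 k12 k03 k13 k23 k04 k14 k24 k34 k05 k15 k25 k35 k45 hp)
  · exact (mv_24_1 h k01 k02 k12 k03 k13 k23 k04 k14 k24 k34 k05 k15 k25 k35 k45) ▸ ih (cs1 k01) (cs1 k04) (cs1 k14) (cs1 k03) (cs1 k13) (cs1 k34) (cs1 k02) (cs1 k12) (cs1 k24) (cs1 k23) (cs1 k05) (cs1 k15) (cs1 k45) (cs1 k35) (cs1 k25) (lt6_c15 (cs1 k01) (cs1 k04) (cs1 k14) (cs1 k03) (cs1 k13) (cs1 k34) (cs1 k02) (cs1 k12) (cs1 k24) (cs1 k23) (cs1 k05) (cs1 k15) (cs1 k45) (cs1 k35) (cs1 k25) k01 k02 k12 k03 k13 k23 k04 k14 k24 k34 k05 k15 k25 k35 k45 hp)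
  · exact (mv_24_2 h k01 k02 k12 k03 k13 k23 k04 k14 k24 k34 k05 k15 k25 k35 k45) ▸ ih (cs2 k01) (cs2 k04) (cs2 k14) (cs2 k03) (cs2 k13) (cs2 k34) (cs2 k02) (cs2 k12) (cs2 k24) (cs2 k23) (cs2 k05) (cs2 k15) (cs2 k45) (cs2 k35) (cs2 k25) (lt6_c15 (cs2 k01) (cs2 k04) (cs2 k14) (cs2 k03) (cs2 k13) (cs2 k34) (cs2 k02) (cs2 k12) (cs2 k24) (cs2 k23) (cs2 k05) (cs2 k15) (cs2 k45) (cs2 k35) (cs2 k25) k01 k02 k12 k03 k13 k23 k04 k14 k24 k34 k05 k15 k25 k35 k45 hp)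
  · exact (mv_25_0 h k01 k02 k12 k03 k13 k23 k04 k14 k24 k34 k05 k15 k25 k35 k45) ▸ ih k01 k05 k15 k03 k13 k35 k04 k14 k45 k34 k02 k12 k25 k23 k24 (lt6_c15 k01 k05 k15 k03 k13 k35 k04 k14 k45 k34 k02 k12 k25 k23 k24 k01 k02 k12 k03 k13 k23 k04 k14 k24 k34 k05 k15 k25 k35 k45 hp)
  · exact (mv_25_1 h k01 k02 k12 k03 k13 k23 k04 k14 k24 k34 k05 k15 k25 k35 k45) ▸ ih (cs1 k01) (cs1 k05) (cs1 k15) (cs1 k03) (cs1 k13) (cs1 k35) (cs1 k04) (cs1 k14) (cs1 k45) (cs1 k34) (cs1 k02) (cs1 k12) (cs1 k25) (cs1 k23) (cs1 k24) (lt6_c15 (cs1 k01) (cs1 k05) (cs1 k15) (cs1 k03) (cs1 k13) (cs1 k35) (cs1 k04) (cs1 k14) (cs1 k45) (cs1 k34) (cs1 k02) (cs1 k12) (cs1 k25) (cs1 k23) (cs1 k24) k01 k02 k12 k03 k13 k23 k04 k14 k24 k34 k05 k15 k25 k35 k45 hp)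
  · exact (mv_25_2 h k01 k02 k12 k03 k13 k23 k04 k14 k24 k34 k05 k15 k25 k35 k45) ▸ ih (cs2 k01) (cs2 k05) (cs2 k15) (cs2 k03) (cs2 k13) (cs2 k35) (cs2 k04) (cs2 k14) (cs2 k45) (cs2 k34) (cs2 k02) (cs2 k12) (cs2 k25) (cs2 k23) (cs2 k24) (lt6_c15 (cs2 k01) (cs2 k05) (cs2 k15) (cs2 k03) (cs2 k13) (cs2 k35) (cs2 k04) (cs2 k14) (cs2 k45) (cs2 k34) (cs2 k02) (cs2 k12) (cs2 k25) (cs2 k23) (cs2 k24) k01 k02 k12 k03 k13 k23 k04 k14 k24 k34 k05 k15 k25 k35 k45 hp)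
  · exact (mv_34_0 h k01 k02 k12 k03 k13 k23 k04 k14 k24 k34 k05 k15 k25 k35 k45) ▸ ih k01 k02 k12 k04 k14 k24 k03 k13 k23 k34 k05 k15 k25 k45 k35 (lt6_c15 k01 k02 k12 k04 k14 k24 k03 k13 k23 k34 k05 k15 k25 k45 k35 k01 k02 k12 k03 k13 k23 k04 k14 k24 k34 k05 k15 k25 k35 k45 hp)
  · exact (mv_34_1 h k01 k02 k12 k03 k13 k23 k04 k14 k24 k34 k05 k15 k25 k35 k45) ▸ ih (cs1 k01) (cs1 k02) (cs1 k12) (cs1 k04) (cs1 k14) (cs1 k24) (cs1 k03) (cs1 k13) (cs1 k23) (cs1 k34) (cs1 k05) (cs1 k15) (cs1 k25) (cs1 k45) (cs1 k35) (lt6_c15 (cs1 k01) (cs1 k02) (cs1 k12) (cs1 k04) (cs1 k14) (cs1 k24) (cs1 k03) (cs1 k13) (cs1 k23) (cs1 k34) (cs1 k05) (cs1 k15) (cs1 k25) (cs1 k45) (cs1 k35) k01 k02 k12 k03 k13 k23 k04 k14 k24 k34 k05 k15 k25 k35 k45 hp)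
  · exact (mv_34_2 h k01 k02 k12 k03 k13 k23 k04 k14 k24 k34 k05 k15 k25 k35 k45) ▸ ih (cs2 k01) (cs2 k02) (cs2 k12) (cs2 k04) (cs2 k14) (cs2 k24) (cs2 k03) (cs2 k13) (cs2 k23) (cs2 k34) (cs2 k05) (cs2 k15) (cs2 k25) (cs2 k45) (cs2 k35) (lt6_c15 (cs2 k01) (cs2 k02) (cs2 k12) (cs2 k04) (cs2 k14) (cs2 k24) (cs2 k03) (cs2 k13) (cs2 k23) (cs2 k34) (cs2 k05) (cs2 k15) (cs2 k25) (cs2 k45) (cs2 k35) k01 k02 k12 k03 k13 k23 k04 k14 k24 k34 k05 k15 k25 k35 k45 hp)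
  · exact (mv_35_0 h k01 k02 k12 k03 k13 k23 k04 k14 k24 k34 k05 k15 k25 k35 k45) ▸ ih k01 k02 k12 k05 k15 k25 k04 k14 k24 k45 k03 k13 k23 k35 k34 (lt6_c15 k01 k02 k12 k05 k15 k25 k04 k14 k24 k45 k03 k13 k23 k35 k34 k01 k02 k12 k03 k13 k23 k04 k14 k24 k34 k05 k15 k25 k35 k45 hp)
  · exact (mv_35_1 h k01 k02 k12 k03 k13 k23 k04 k14 k24 k34 k05 k15 k25 k35 k45) ▸ ih (cs1 k01) (cs1 k02) (cs1 k12) (cs1 k05) (cs1 k15) (cs1 k25) (cs1 k04) (cs1 k14) (cs1 k24) (cs1 k45) (cs1 k03) (cs1 k13) (cs1 k23) (cs1 k35) (cs1 k34) (lt6_c15 (cs1 k01) (cs1 k02) (cs1 k12) (cs1 k05) (cs1 k15) (cs1 k25) (cs1 k04) (cs1 k14) (cs1 k24) (cs1 k45) (cs1 k03) (cs1 k13) (cs1 k23) (cs1 k35) (cs1 k34) k01 k02 k12 k03 k13 k23 k04 k14 k24 k34 k05 k15 k25 k35 k45 hp)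
  · exact (mv_35_2 h k01 k02 k12 k03 k13 k23 k04 k14 k24 k34 k05 k15 k25 k35 k45) ▸ ih (cs2 k01) (cs2 k02) (cs2 k12) (cs2 k05) (cs2 k15) (cs2 k25) (cs2 k04) (cs2 k14) (cs2 k24) (cs2 k45) (cs2 k03) (cs2 k13) (cs2 k23) (cs2 k35) (cs2 k34) (lt6_c15 (cs2 k01) (cs2 k02) (cs2 k12) (cs2 k05) (cs2 k15) (cs2 k25) (cs2 k04) (cs2 k14) (cs2 k24) (cs2 k45) (cs2 k03) (cs2 k13) (cs2 k23) (cs2 k35) (cs2 k34) k01 k02 k12 k03 k13 k23 k04 k14 k24 k34 k05 k15 k25 k35 k45 hp)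
  · exact (mv_45_0 h k01 k02 k12 k03 k13 k23 k04 k14 k24 k34 k05 k15 k25 k35 k45) ▸ ih k01 k02 k12 k03 k13 k23 k05 k15 k25 k35 k04 k14 k24 k34 k45 (lt6_c15 k01 k02 k12 k03 k13 k23 k05 k15 k25 k35 k04 k14 k24 k34 k45 k01 k02 k12 k03 k13 k23 k04 k14 k24 k34 k05 k15 k25 k35 k45 hp)
  · exact (mv_45_1 h k01 k02 k12 k03 k13 k23 k04 k14 k24 k34 k05 k15 k25 k35 k45) ▸ ih (cs1 k01) (cs1 k02) (cs1 k12) (cs1 k03) (cs1 k13) (cs1 k23) (cs1 k05) (cs1 k15) (cs1 k25) (cs1 k35) (cs1 k04) (cs1 k14) (cs1 k24) (cs1 k34) (cs1 k45) (lt6_c15 (cs1 k01) (cs1 k02) (cs1 k12) (cs1 k03) (cs1 k13) (cs1 k23) (cs1 k05) (cs1 k15) (cs1 k25) (cs1 k35) (cs1 k04) (cs1 k14) (cs1 k24) (cs1 k34) (cs1 k45) k01 k02 k12 k03 k13 k23 k04 k14 k24 k34 k05 k15 k25 k35 k45 hp)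
  · exact (mv_45_2 h k01 k02 k12 k03 k13 k23 k04 k14 k24 k34 k05 k15 k25 k35 k45) ▸ ih (cs2 k01) (cs2 k02) (cs2 k12) (cs2 k03) (cs2 k13) (cs2 k23) (cs2 k05) (cs2 k15) (cs2 k25) (cs2 k35) (cs2 k04) (cs2 k14) (cs2 k24) (cs2 k34) (cs2 k45) (lt6_c15 (cs2 k01) (cs2 k02) (cs2 k12) (cs2 k03) (cs2 k13) (cs2 k23) (cs2 k05) (cs2 k15) (cs2 k25) (cs2 k35) (cs2 k04) (cs2 k14) (cs2 k24) (cs2 k34) (cs2 k45) k01 k02 k12 k03 k13 k23 k04 k14 k24 k34 k05 k15 k25 k35 k45 hp)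


theorem pointwise6 {b : Blk} (h : SymA b) {CAP : ℕ} (hb : Pt b CAP) (k01 k02 k12 k03 k13 k23 k04 k14 k24 k34 k05 k15 k25 k35 k45 : Fin 3) :
    GG b k01 k02 k12 k03 k13 k23 k04 k14 k24 k34 k05 k15 k25 k35 k45 ≤ CAP := by
  have key : ∀ n : ℕ, ∀ k01 k02 k12 k03 k13 k23 k04 k14 k24 k34 k05 k15 k25 k35 k45 : Fin 3, c15 k01 k02 k12 k03 k13 k23 k04 k14 k24 k34 k05 k15 k25 k35 k45 = n → GG b k01 k02 k12 k03 k13 k23 k04 k14 k24 k34 k05 k15 k25 k35 k45 ≤ CAP := by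
    intro n
    induction n using Nat.strong_induction_on with
    | _ n ih =>
      intro k01 k02 k12 k03 k13 k23 k04 k14 k24 k34 k05 k15 k25 k35 k45 hn
      have ih' : ∀ k01' k02' k12' k03' k13' k23' k04' k14' k24' k34' k05' k15' k25' k35' k45' : Fin 3, c15 k01' k02' k12' k03' k13' k23' k04' k14' k24' k34' k05' k15' k25' k35' k45' < c15 k01 k02 k12 k03 k13 k23 k04 k14 k24 k34 k05 k15 k25 k35 k45 →
          GG b k01' k02' k12' k03' k13' k23' k04' k14' k24' k34' k05' k15' k25' k35' k45' ≤ CAP := fun k01' k02' k12' k03' k13' k23' k04' k14' k24' k34' k05' k15' k25' k35' k45' hlt =>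
        ih _ (hn ▸ hlt) k01' k02' k12' k03' k13' k23' k04' k14' k24' k34' k05' k15' k25' k35' k45' rfl
      rcases hb k01 k02 k12 k03 k13 k23 with hp | hc
      · exact p4_spec h k01 k02 k12 k03 k13 k23 k04 k14 k24 k34 k05 k15 k25 k35 k45 ih' hp
      · have hc := all3_spec (all3_spec (all3_spec (all3_spec hc k04) k14) k24) k34
        rw [force_eq] at hc
        cases h5 : p5 (d6 k01 k02 k12 k03 k13 k23) (d4 k04 k14 k24 k34) k01 k02 k12 k03 k13 k23 k04 k14 k24 k34 with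
        | true => exact p5_spec h k01 k02 k12 k03 k13 k23 k04 k14 k24 k34 k05 k15 k25 k35 k45 ih' h5
        | false =>
          rw [h5, cond_false] at hc
          have hc := all3_spec (all3_spec (all3_spec (all3_spec (all3_spec hc k05) k15) k25) k35) k45
          rw [force_eq] at hc
          cases h6 : p6 (d6 k01 k02 k12 k03 k13 k23) (d4 k04 k14 k24 k34) (d5 k05 k15 k25 k35 k45) k01 k02 k12 k03 k13 k23 k04 k14 k24 k34 k05 k15 k25 k35 k45 with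
          | true => exact p6_spec h k01 k02 k12 k03 k13 k23 k04 k14 k24 k34 k05 k15 k25 k35 k45 ih' h6
          | false =>
            rw [h6, cond_false] at hc
            exact Nat.le_of_ble_eq_true hc
  exact key _ k01 k02 k12 k03 k13 k23 k04 k14 k24 k34 k05 k15 k25 k35 k45 rfl

end Pool.Agent.C44.S6
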