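import Pool.Agent.C44.SixK

/-!
# Invariance of the symmetrised sum on six points
-/

set_option autoImplicit false
set_option maxHeartbeats 4000000

open Finset

namespace Pool.Agent.C44.S6

/-- symmetries of the four building blocks -/
structure Sym (b : Blk) : Prop where
  a1 : ∀ s0 s1 s2 s3 s4 s5 p q r s u v w z : Fin 3, b.e4 s0 s2 s1 s4 s3 s5 q p r s v u w z = b.e4 s0 s1 s2 s3 s4 s5 p q r s u v w z
  a2 : ∀ s0 s1 s2 s3 s4 s5 p q r s u v w z : Fin 3, b.e4 s1 s0 s2 s3 s5 s4 p r q s u w v z = b.e4 s0 s1 s2 s3 s4 s5 p q r s u v w z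
  a3 : ∀ s0 s1 s2 s3 s4 s5 p q r s u v w z : Fin 3, b.e4 s0 s3 s4 s1 s2 s5 p q s r u v z w = b.e4 s0 s1 s2 s3 s4 s5 p q r s u v w z
  a4 : ∀ s0 s1 s2 s3 s4 s5 p q r s u v w z : Fin 3, b.e4 s0 s1 s2 s3 s4 s5 u v w z p q r s = b.e4 s0 s1 s2 s3 s4 s5 p q r s u v w z
  b1 : ∀ s p q r t m u v w x n : Fin 3, b.e2 s q p t r m v u x w n = b.e2 s p q r t m u v w x n
  b2 : ∀ s p q r t m u v w x n : Fin 3, b.e2 s r t p q m u v w x n = b.e2 s p q r t m u v w x n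
  b3 : ∀ s p q r t m u v w x n : Fin 3, b.e2 s u v w x n p q r t m = b.e2 s p q r t m u v w x n
  c1 : ∀ p q r u v w : Fin 3, b.e0 p r q u v w = b.e0 p q r u v w
  c2 : ∀ p q r u v w : Fin 3, b.e0 q p r u v w = b.e0 p q r u v w
  c3 : ∀ p q r u v w : Fin 3, b.e0 u v w p q r = b.e0 p q r u v w
  d1 : ∀ x y z u v w a b' c : Fin 3, b.ew y x z u v w a b' c = b.ew x y z u v w a b' c
  d2 : ∀ x y z u v w a b' c : Fin 3, b.ew x y z v u w a c b' = b.ew x y z u v w a b' c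
  d3 : ∀ x y z u v w a b' c : Fin 3, b.ew x y z u w v b' a c = b.ew x y z u v w a b' c

/-- symmetric state -/
def SymK (K : Fin 6 → Fin 6 → Fin 3) : Prop := ∀ i j, K i j = K j i

theorem SymK.res {K : Fin 6 → Fin 6 → Fin 3} (h : SymK K) (p : Fin 6 → Fin 6) : SymK (res K p) :=
  fun i j => h (p i) (p j)

/-- exchange of two positions -/
def sw (i j : Fin 6) : Fin 6 → Fin 6 := fun k => if k = i then j else if k = j then i else k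

variable {b : Blk} (h : Sym b)
include h

theorem f4_01 (K : Fin 6 → Fin 6 → Fin 3) (hK : SymK K) : f4 b (res K (sw 0 1)) = f4 b K := by
  have := h.a1 (K 0 1) (K 0 2) (K 1 2) (K 0 3) (K 1 3) (K 2 3) (K 0 4) (K 1 4) (K 2 4) (K 3 4) (K 0 5) (K 1 5) (K 2 5) (K 3 5)
  rw [f4, f4, ← this, hK 0 1]; rfl

theorem f4_12 (K : Fin 6 → Fin 6 → Fin 3) (hK : SymK K) : f4 b (res K (sw 1 2)) = f4 b K := by
  have := h.a2 (K 0 1) (K 0 2) (K 1 2) (K 0 3) (K 1 3) (K 2 3) (K 0 4) (K 1 4) (K 2 4) (K 3 4) (K 0 5) (K 1 5) (K 2 5) (K 3 5)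
  rw [f4, f4, ← this, hK 1 2]; rfl

theorem f4_23 (K : Fin 6 → Fin 6 → Fin 3) (hK : SymK K) : f4 b (res K (sw 2 3)) = f4 b K := by
  have := h.a3 (K 0 1) (K 0 2) (K 1 2) (K 0 3) (K 1 3) (K 2 3) (K 0 4) (K 1 4) (K 2 4) (K 3 4) (K 0 5) (K 1 5) (K 2 5) (K 3 5)
  rw [f4, f4, ← this, hK 2 3]; rfl

omit h in
theorem f4_45 (h : Sym b) (K : Fin 6 → Fin 6 → Fin 3) : f4 b (res K (sw 4 5)) = f4 b K := by
  have := h.a4 (K 0 1) (K 0 2) (K 1 2) (K 0 3) (K 1 3) (K 2 3) (K 0 4) (K 1 4) (K 2 4) (K 3 4) (K 0 5) (K 1 5) (K 2 5) (K 3 5)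
  rw [f4, f4, ← this]; rfl

theorem f2_01 (K : Fin 6 → Fin 6 → Fin 3) (hK : SymK K) : f2 b (res K (sw 0 1)) = f2 b K := by
  have := h.b1 (K 0 1) (K 0 2) (K 1 2) (K 0 3) (K 1 3) (K 2 3) (K 0 4) (K 1 4) (K 0 5) (K 1 5) (K 4 5)
  rw [f2, f2, ← this, hK 0 1]; rfl

theorem f2_23 (K : Fin 6 → Fin 6 → Fin 3) (hK : SymK K) : f2 b (res K (sw 2 3)) = f2 b K := by
  have := h.b2 (K 0 1) (K 0 2) (K 1 2) (K 0 3) (K 1 3) (K 2 3) (K 0 4) (K 1 4) (K 0 5) (K 1 5) (K 4 5)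
  rw [f2, f2, ← this, hK 2 3]; rfl

/-- exchange of the two pairs -/
def swp : Fin 6 → Fin 6 := vk 0 1 4 5 2 3
/-- exchange of the two triples -/
def swt : Fin 6 → Fin 6 := vk 3 4 5 0 1 2

theorem f2_p (K : Fin 6 → Fin 6 → Fin 3) : f2 b (res K swp) = f2 b K := by
  have := h.b3 (K 0 1) (K 0 2) (K 1 2) (K 0 3) (K 1 3) (K 2 3) (K 0 4) (K 1 4) (K 0 5) (K 1 5) (K 4 5)
  rw [f2, f2, ← this]; rfl

theorem f0_01 (K : Fin 6 → Fin 6 → Fin 3) (hK : SymK K) : f0 b (res K (sw 0 1)) = f0 b K := by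
  have := h.c1 (K 0 1) (K 0 2) (K 1 2) (K 3 4) (K 3 5) (K 4 5)
  rw [f0, f0, ← this, hK 0 1]; rfl

theorem f0_12 (K : Fin 6 → Fin 6 → Fin 3) (hK : SymK K) : f0 b (res K (sw 1 2)) = f0 b K := by
  have := h.c2 (K 0 1) (K 0 2) (K 1 2) (K 3 4) (K 3 5) (K 4 5)
  rw [f0, f0, ← this, hK 1 2]; rfl

theorem f0_t (K : Fin 6 → Fin 6 → Fin 3) : f0 b (res K swt) = f0 b K := by
  have := h.c3 (K 0 1) (K 0 2) (K 1 2) (K 3 4) (K 3 5) (K 4 5)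
  rw [f0, f0, ← this]; rfl

theorem fw_12 (K : Fin 6 → Fin 6 → Fin 3) (hK : SymK K) : fw b (res K (sw 1 2)) = fw b K := by
  have := h.d1 (K 0 1) (K 0 2) (K 1 2) (K 0 3) (K 0 4) (K 0 5) (K 3 4) (K 3 5) (K 4 5)
  rw [fw, fw, ← this, hK 1 2]; rfl

theorem fw_34 (K : Fin 6 → Fin 6 → Fin 3) (hK : SymK K) : fw b (res K (sw 3 4)) = fw b K := by
  have := h.d2 (K 0 1) (K 0 2) (K 1 2) (K 0 3) (K 0 4) (K 0 5) (K 3 4) (K 3 5) (K 4 5)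
  rw [fw, fw, ← this, hK 3 4]; rfl

theorem fw_45 (K : Fin 6 → Fin 6 → Fin 3) (hK : SymK K) : fw b (res K (sw 4 5)) = fw b K := by
  have := h.d3 (K 0 1) (K 0 2) (K 1 2) (K 0 3) (K 0 4) (K 0 5) (K 3 4) (K 3 5) (K 4 5)
  rw [fw, fw, ← this, hK 4 5]; rfl

end Pool.Agent.C44.S6
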