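import Pool.Agent.C44.SixP

/-!
# The sum over all 6-tuples
-/

set_option autoImplicit false
set_option maxHeartbeats 4000000
set_option maxRecDepth 100000

open Finset

namespace Pool.Agent.C44.S6

variable {V : Type*} [Fintype V]

theorem sum_perm6 {M : Type*} [AddCommMonoid M] (l : Fin 6 → Fin 6) (hl : Function.Injective l)
    (f : (Fin 6 → V) → M) : ∑ x : Fin 6 → V, f (fun i => x (l i)) = ∑ x, f x := by
  classical
  let e : Fin 6 ≃ Fin 6 := Equiv.ofBijective l (Finite.injective_iff_bijective.1 hl)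
  exact Equiv.sum_comp (e.arrowCongr (Equiv.refl V)).symm f

/-- tuples as nested products -/
def tup6 (V : Type*) : (Fin 6 → V) ≃ V × V × V × V × V × V where
  toFun x := (x 0, x 1, x 2, x 3, x 4, x 5)
  invFun p := ![p.1, p.2.1, p.2.2.1, p.2.2.2.1, p.2.2.2.2.1, p.2.2.2.2.2]
  left_inv x := by
    funext i
    fin_cases i <;> rfl
  right_inv p := rfl

theorem sum6 {M : Type*} [AddCommMonoid M] (g : V → V → V → V → V → V → M) :
    ∑ x : Fin 6 → V, g (x 0) (x 1) (x 2) (x 3) (x 4) (x 5) = ∑ a, ∑ b, ∑ c, ∑ d, ∑ e, ∑ f, g a b c d e f := by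
  rw [← Equiv.sum_comp (tup6 V).symm]
  simp only [Fintype.sum_prod_type]
  rfl

/-- the state of a tuple -/
def cK (c : V → V → Fin 3) (x : Fin 6 → V) : Fin 6 → Fin 6 → Fin 3 :=
  fun i j => if i = j then 0 else c (x i) (x j)

omit [Fintype V] in
theorem st_eq (c : V → V → Fin 3) (hc : ∀ x y, c x y = c y x) (x : Fin 6 → V) :
    st (c (x 0) (x 1)) (c (x 0) (x 2)) (c (x 1) (x 2)) (c (x 0) (x 3)) (c (x 1) (x 3)) (c (x 2) (x 3)) (c (x 0) (x 4)) (c (x 1) (x 4)) (c (x 2) (x 4)) (c (x 3) (x 4)) (c (x 0) (x 5)) (c (x 1) (x 5)) (c (x 2) (x 5)) (c (x 3) (x 5)) (c (x 4) (x 5)) = cK c x := by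
  funext i j
  fin_cases i <;> fin_cases j <;> first | rfl | exact hc _ _

omit [Fintype V] in
theorem res_cK (c : V → V → Fin 3) (x : Fin 6 → V) (p : Fin 6 → Fin 6) (hp : Function.Injective p) :
    res (cK c x) p = cK c (fun i => x (p i)) := by
  funext i j
  simp only [res, cK]
  by_cases h : i = j
  · rw [if_pos h, if_pos (by rw [h])]
  · rw [if_neg h, if_neg (fun hh => h (hp hh))]

theorem sum_list (c : V → V → Fin 3) (f : (Fin 6 → Fin 6 → Fin 3) → ℕ) (pl : List (Fin 6 → Fin 6))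
    (hpl : ∀ p ∈ pl, Function.Injective p) :
    ∑ x : Fin 6 → V, (pl.map fun p => f (res (cK c x) p)).sum = pl.length * ∑ x : Fin 6 → V, f (cK c x) := by
  induction pl with
  | nil => simp
  | cons a l ih =>
    simp only [List.map_cons, List.sum_cons, Finset.sum_add_distrib]
    rw [ih fun p hp => hpl p (List.mem_cons_of_mem _ hp), List.length_cons]
    have h1 : ∑ x : Fin 6 → V, f (res (cK c x) a) = ∑ x : Fin 6 → V, f (cK c x) := by
      have ha := hpl a List.mem_cons_self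
      rw [← sum_perm6 a ha fun x => f (cK c x)]
      refine Finset.sum_congr rfl fun x _ => ?_
      rw [res_cK c x a ha]
    rw [h1]
    ring

/-- different -/
def ne6 (a b : Fin 6) : Bool := cond (Nat.beq a b) false true

theorem ne6_spec {a b : Fin 6} (h : ne6 a b = true) : a ≠ b := by
  rintro rfl
  unfold ne6 at h
  rw [Nat.beq_refl] at h
  exact absurd h (by simp)

/-- check of injectivity -/
def injB (p : Fin 6 → Fin 6) : Bool :=
  (and (ne6 (p 0) (p 1)) (and (ne6 (p 0) (p 2)) (and (ne6 (p 0) (p 3)) (and (ne6 (p 0) (p 4)) (and (ne6 (p 0) (p 5)) (and (ne6 (p 1) (p 2)) (and (ne6 (p 1) (p 3)) (and (ne6 (p 1) (p 4)) (and (ne6 (p 1) (p 5)) (and (ne6 (p 2) (p 3)) (and (ne6 (p 2) (p 4)) (and (ne6 (p 2) (p 5)) (and (ne6 (p 3) (p 4)) (and (ne6 (p 3) (p 5)) (ne6 (p 4) (p 5))))))))))))))))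

theorem injB_spec {p : Fin 6 → Fin 6} (h : injB p = true) : Function.Injective p := by
  unfold injB at h
  simp only [Bool.and_eq_true] at h
  obtain ⟨h01, h02, h03, h04, h05, h12, h13, h14, h15, h23, h24, h25, h34, h35, h45⟩ := h
  have g01 := ne6_spec h01
  have g02 := ne6_spec h02
  have g03 := ne6_spec h03
  have g04 := ne6_spec h04
  have g05 := ne6_spec h05
  have g12 := ne6_spec h12
  have g13 := ne6_spec h13
  have g14 := ne6_spec h14
  have g15 := ne6_spec h15
  have g23 := ne6_spec h23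
  have g24 := ne6_spec h24
  have g25 := ne6_spec h25
  have g34 := ne6_spec h34
  have g35 := ne6_spec h35
  have g45 := ne6_spec h45
  intro i j hij
  fin_cases i <;> fin_cases j <;> first
    | rfl
    | exact absurd hij g01
    | exact absurd hij.symm g01
    | exact absurd hij g02
    | exact absurd hij.symm g02
    | exact absurd hij g03
    | exact absurd hij.symm g03
    | exact absurd hij g04
    | exact absurd hij.symm g04
    | exact absurd hij g05
    | exact absurd hij.symm g05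
    | exact absurd hij g12
    | exact absurd hij.symm g12
    | exact absurd hij g13
    | exact absurd hij.symm g13
    | exact absurd hij g14
    | exact absurd hij.symm g14
    | exact absurd hij g15
    | exact absurd hij.symm g15
    | exact absurd hij g23
    | exact absurd hij.symm g23
    | exact absurd hij g24
    | exact absurd hij.symm g24
    | exact absurd hij g25
    | exact absurd hij.symm g25
    | exact absurd hij g34
    | exact absurd hij.symm g34
    | exact absurd hij g35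
    | exact absurd hij.symm g35
    | exact absurd hij g45
    | exact absurd hij.symm g45

/-- all elements of a list -/
def allP (f : (Fin 6 → Fin 6) → Bool) : List (Fin 6 → Fin 6) → Bool
  | [] => true
  | a :: l => and (f a) (allP f l)

theorem allP_spec {f : (Fin 6 → Fin 6) → Bool} {l : List (Fin 6 → Fin 6)} (h : allP f l = true) :
    ∀ p ∈ l, f p = true := by
  induction l with
  | nil => intro p hp; simp at hp
  | cons a l ih =>
    unfold allP at h
    rw [Bool.and_eq_true] at h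
    intro p hp
    rcases List.mem_cons.1 hp with h1 | h1
    · rw [h1]; exact h.1
    · exact ih h.2 p h1

theorem inj4 : ∀ p ∈ pl4, Function.Injective p := fun p hp => injB_spec (allP_spec (f := injB) (by decide +kernel) p hp)
theorem inj2 : ∀ p ∈ pl2, Function.Injective p := fun p hp => injB_spec (allP_spec (f := injB) (by decide +kernel) p hp)
theorem inj0 : ∀ p ∈ pl0, Function.Injective p := fun p hp => injB_spec (allP_spec (f := injB) (by decide +kernel) p hp)
theorem injW : ∀ p ∈ plW, Function.Injective p := fun p hp => injB_spec (allP_spec (f := injB) (by decide +kernel) p hp)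

theorem len4 : pl4.length = 15 := rfl
theorem len2 : pl2.length = 45 := rfl
theorem len0 : pl0.length = 10 := rfl
theorem lenW : plW.length = 60 := rfl

/-- **the bound for the sum over all 6-tuples** -/
theorem sum_bound6 {b : Blk} (h : SymA b) {CAP : ℕ} (hb : Pt b CAP) (c : V → V → Fin 3)
    (hc : ∀ x y, c x y = c y x) :
    15 * (∑ x0, ∑ x1, ∑ x2, ∑ x3, ∑ x4, ∑ x5, b.e4 (c x0 x1) (c x0 x2) (c x1 x2) (c x0 x3) (c x1 x3) (c x2 x3) (c x0 x4) (c x1 x4) (c x2 x4) (c x3 x4) (c x0 x5) (c x1 x5) (c x2 x5) (c x3 x5)) +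
    (45 * (∑ x0, ∑ x1, ∑ x2, ∑ x3, ∑ x4, ∑ x5, b.e2 (c x0 x1) (c x0 x2) (c x1 x2) (c x0 x3) (c x1 x3) (c x2 x3) (c x0 x4) (c x1 x4) (c x0 x5) (c x1 x5) (c x4 x5)) +
    (10 * (∑ x0, ∑ x1, ∑ x2, ∑ x3, ∑ x4, ∑ x5, b.e0 (c x0 x1) (c x0 x2) (c x1 x2) (c x3 x4) (c x3 x5) (c x4 x5)) +
    60 * (∑ x0, ∑ x1, ∑ x2, ∑ x3, ∑ x4, ∑ x5, b.ew (c x0 x1) (c x0 x2) (c x1 x2) (c x0 x3) (c x0 x4) (c x0 x5) (c x3 x4) (c x3 x5) (c x4 x5)))) ≤
    CAP * Fintype.card V ^ 6 := by
  have h1 : ∑ x : Fin 6 → V, GS b (cK c x) ≤ CAP * Fintype.card V ^ 6 := by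
    calc _ ≤ ∑ _x : Fin 6 → V, CAP := Finset.sum_le_sum fun x _ => by
            rw [← st_eq c hc x, ← GG_eq]
            exact pointwise6 h hb _ _ _ _ _ _ _ _ _ _ _ _ _ _ _
      _ = CAP * Fintype.card V ^ 6 := by
        rw [Finset.sum_const, Finset.card_univ, Fintype.card_fun, Fintype.card_fin, smul_eq_mul, mul_comm]
  simp only [GS, Finset.sum_add_distrib] at h1
  rw [sum_list c (f4 b) pl4 inj4, sum_list c (f2 b) pl2 inj2, sum_list c (f0 b) pl0 inj0,
    sum_list c (fw b) plW injW, len4, len2, len0, lenW] at h1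
  rw [← sum6 (fun x0 x1 x2 x3 x4 x5 => b.e4 (c x0 x1) (c x0 x2) (c x1 x2) (c x0 x3) (c x1 x3) (c x2 x3) (c x0 x4) (c x1 x4) (c x2 x4) (c x3 x4) (c x0 x5) (c x1 x5) (c x2 x5) (c x3 x5)),
    ← sum6 (fun x0 x1 x2 x3 x4 x5 => b.e2 (c x0 x1) (c x0 x2) (c x1 x2) (c x0 x3) (c x1 x3) (c x2 x3) (c x0 x4) (c x1 x4) (c x0 x5) (c x1 x5) (c x4 x5)),
    ← sum6 (fun x0 x1 x2 x3 x4 x5 => b.e0 (c x0 x1) (c x0 x2) (c x1 x2) (c x3 x4) (c x3 x5) (c x4 x5)),
    ← sum6 (fun x0 x1 x2 x3 x4 x5 => b.ew (c x0 x1) (c x0 x2) (c x1 x2) (c x0 x3) (c x0 x4) (c x0 x5) (c x3 x4) (c x3 x5) (c x4 x5))]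
  exact h1

end Pool.Agent.C44.S6
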