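import Pool.Agent.C44.Chk

/-!
# Soundness of the checks: from the 77 representatives to all colourings of `K_5`
-/

namespace Pool.Agent.C44

structure SymT (T : ℕ) (tb : ℕ → ℕ → ℕ → ℕ) : Prop where
  a1 : ∀ a b c d e f : Fin 3, fA T a b c d e f = fA T b a c d e f
  a2 : ∀ a b c d e f : Fin 3, fA T a b c d e f = fA T d e f a b c
  b1 : ∀ a b c d e f g h i : Fin 3, fB tb a b c d e f g h i = fB tb a c b e d f h g i
  b2 : ∀ a b c d e f g h i : Fin 3, fB tb a b c d e f g h i = fB tb b a c d f e g i h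
  b3 : ∀ a b c d e f g h i : Fin 3, fB tb a b c d e f g h i = fB tb a b c g h i d e f

theorem SymT.of {T : ℕ} {tb : ℕ → ℕ → ℕ → ℕ} (hA : symA T = true) (hB : symB tb = true) :
    SymT T tb := by
  have hA' : ∀ a b c d e f : Fin 3, fA T a b c d e f = fA T b a c d e f ∧
      fA T a b c d e f = fA T d e f a b c := by
    intro a b c d e f
    have h := all3_spec (all3_spec (all3_spec (all3_spec (all3_spec (all3_spec hA a) b) c) d) e) f
    rw [Bool.and_eq_true, Nat.beq_eq, Nat.beq_eq] at h
    exact h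
  have hB' : ∀ a b c d e f g h i : Fin 3,
      fB tb a b c d e f g h i = fB tb a c b e d f h g i ∧
      fB tb a b c d e f g h i = fB tb b a c d f e g i h ∧
      fB tb a b c d e f g h i = fB tb a b c g h i d e f := by
    intro a b c d e f g h i
    have h := all3_spec (all3_spec (all3_spec (all3_spec (all3_spec (all3_spec
      (all3_spec (all3_spec (all3_spec hB a) b) c) d) e) f) g) h) i
    rw [Bool.and_eq_true, Bool.and_eq_true, Nat.beq_eq, Nat.beq_eq, Nat.beq_eq] at h
    exact h
  exact ⟨fun a b c d e f => (hA' a b c d e f).1, fun a b c d e f => (hA' a b c d e f).2,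
    fun a b c d e f g h i => (hB' a b c d e f g h i).1,
    fun a b c d e f g h i => (hB' a b c d e f g h i).2.1,
    fun a b c d e f g h i => (hB' a b c d e f g h i).2.2⟩

section
variable {T : ℕ} {tb : ℕ → ℕ → ℕ → ℕ} (h : SymT T tb)
include h

theorem SymT.a3 (a b c d e f : Fin 3) : fA T a b c d e f = fA T a b c e d f := by
  rw [h.a2 a b c d e f, h.a1 d e f a b c, h.a2 e d f a b c]

theorem S_m1 (k01 k02 k12 k03 k13 k23 k04 k14 k24 k34 : Fin 3) :
    S T tb k01 k12 k02 k13 k03 k23 k14 k04 k24 k34 = S T tb k01 k02 k12 k03 k13 k23 k04 k14 k24 k34 := by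
  simp only [S, SA, SB, Nat.add_eq]
  simp only [h.a1, h.a2, h.b1, h.b3]
  omega

theorem S_m2 (k01 k02 k12 k03 k13 k23 k04 k14 k24 k34 : Fin 3) :
    S T tb k02 k01 k12 k03 k23 k13 k04 k24 k14 k34 = S T tb k01 k02 k12 k03 k13 k23 k04 k14 k24 k34 := by
  simp only [S, SA, SB, Nat.add_eq]
  simp only [h.a1, h.a2, h.a3, h.b1, h.b2, h.b3]
  omega

theorem S_m3 (k01 k02 k12 k03 k13 k23 k04 k14 k24 k34 : Fin 3) :
    S T tb k01 k03 k13 k02 k12 k23 k04 k14 k34 k24 = S T tb k01 k02 k12 k03 k13 k23 k04 k14 k24 k34 := by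
  simp only [S, SA, SB, Nat.add_eq]
  simp only [h.a3, h.b1, h.b2, h.b3]
  omega

theorem pointwise {CAP : ℕ} (hb : bnd T tb CAP = true)
    (k01 k02 k12 k03 k13 k23 k04 k14 k24 k34 : Fin 3) :
    S T tb k01 k02 k12 k03 k13 k23 k04 k14 k24 k34 ≤ CAP := by
  have key : ∀ n : ℕ, ∀ k01 k02 k12 k03 k13 k23 k04 k14 k24 k34 : Fin 3,
      d6 k01 k02 k12 k03 k13 k23 = n →
      S T tb k01 k02 k12 k03 k13 k23 k04 k14 k24 k34 ≤ CAP := by
    intro n
    induction n using Nat.strong_induction_on with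
    | _ n ih =>
      intro k01 k02 k12 k03 k13 k23 k04 k14 k24 k34 hn
      have hc := all3_spec (all3_spec (all3_spec (all3_spec (all3_spec (all3_spec hb k01) k02) k12) k03)
        k13) k23
      cases h1 : Nat.blt (d6 k01 k12 k02 k13 k03 k23) (d6 k01 k02 k12 k03 k13 k23) with
      | true =>
        rw [Nat.blt_eq, hn] at h1
        rw [← S_m1 h]
        exact ih _ h1 _ _ _ _ _ _ _ _ _ _ rfl
      | false =>
        rw [h1, cond_false] at hc
        cases h2 : Nat.blt (d6 k02 k01 k12 k03 k23 k13) (d6 k01 k02 k12 k03 k13 k23) with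
        | true =>
          rw [Nat.blt_eq, hn] at h2
          rw [← S_m2 h]
          exact ih _ h2 _ _ _ _ _ _ _ _ _ _ rfl
        | false =>
          rw [h2, cond_false] at hc
          cases h3 : Nat.blt (d6 k01 k03 k13 k02 k12 k23) (d6 k01 k02 k12 k03 k13 k23) with
          | true =>
            rw [Nat.blt_eq, hn] at h3
            rw [← S_m3 h]
            exact ih _ h3 _ _ _ _ _ _ _ _ _ _ rfl
          | false =>
            rw [h3, cond_false] at hc
            have := all3_spec (all3_spec (all3_spec (all3_spec hc k04) k14) k24) k34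
            exact Nat.le_of_ble_eq_true this
  exact key _ _ _ _ _ _ _ _ _ _ _ rfl

end

end Pool.Agent.C44
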