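import Pool.Agent.C44.Sound

/-!
# From the pointwise bound to the sum over all 5-tuples
-/

open Finset

namespace Pool.Agent.C44

variable {V : Type*} [Fintype V]

theorem sum_perm {M : Type*} [AddCommMonoid M] (l : Fin 5 → Fin 5) (hl : Function.Injective l)
    (f : (Fin 5 → V) → M) : ∑ x : Fin 5 → V, f (fun i => x (l i)) = ∑ x, f x := by
  classical
  let e : Fin 5 ≃ Fin 5 := Equiv.ofBijective l (Finite.injective_iff_bijective.1 hl)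
  exact Equiv.sum_comp (e.arrowCongr (Equiv.refl V)).symm f

/-- tuples as nested products -/
def tup5 (V : Type*) : (Fin 5 → V) ≃ V × V × V × V × V where
  toFun x := (x 0, x 1, x 2, x 3, x 4)
  invFun p := ![p.1, p.2.1, p.2.2.1, p.2.2.2.1, p.2.2.2.2]
  left_inv x := by
    funext i
    fin_cases i <;> rfl
  right_inv p := rfl

theorem sum5 {M : Type*} [AddCommMonoid M] (g : V → V → V → V → V → M) :
    ∑ x : Fin 5 → V, g (x 0) (x 1) (x 2) (x 3) (x 4) = ∑ a, ∑ b, ∑ c, ∑ d, ∑ e, g a b c d e := by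
  rw [← Equiv.sum_comp (tup5 V).symm]
  simp only [Fintype.sum_prod_type]
  rfl

theorem sum_SA (T : ℕ) (c : V → V → Fin 3) (hc : ∀ x y, c x y = c y x) :
    ∑ x : Fin 5 → V, SA T (c (x 0) (x 1)) (c (x 0) (x 2)) (c (x 1) (x 2)) (c (x 0) (x 3)) (c (x 1) (x 3)) (c (x 2) (x 3)) (c (x 0) (x 4)) (c (x 1) (x 4)) (c (x 2) (x 4)) (c (x 3) (x 4)) =
      15 * ∑ x : Fin 5 → V, fA T (c (x 0) (x 1)) (c (x 0) (x 2)) (c (x 1) (x 2)) (c (x 0) (x 3)) (c (x 0) (x 4)) (c (x 3) (x 4)) := by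
  let F : (Fin 5 → V) → ℕ := fun x => fA T (c (x 0) (x 1)) (c (x 0) (x 2)) (c (x 1) (x 2)) (c (x 0) (x 3)) (c (x 0) (x 4)) (c (x 3) (x 4))
  have h0 : ∑ x : Fin 5 → V, fA T (c (x 0) (x 1)) (c (x 0) (x 2)) (c (x 1) (x 2)) (c (x 0) (x 3)) (c (x 0) (x 4)) (c (x 3) (x 4)) = ∑ x, F x := rfl
  have h1 : ∑ x : Fin 5 → V, fA T (c (x 0) (x 1)) (c (x 0) (x 3)) (c (x 1) (x 3)) (c (x 0) (x 2)) (c (x 0) (x 4)) (c (x 2) (x 4)) = ∑ x, F x := by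
    rw [← sum_perm ![0, 1, 3, 2, 4] (by decide) F]
    refine Finset.sum_congr rfl fun x _ => ?_
    change _ = fA T (c (x 0) (x 1)) (c (x 0) (x 3)) (c (x 1) (x 3)) (c (x 0) (x 2)) (c (x 0) (x 4)) (c (x 2) (x 4))
    rfl
  have h2 : ∑ x : Fin 5 → V, fA T (c (x 0) (x 1)) (c (x 0) (x 4)) (c (x 1) (x 4)) (c (x 0) (x 2)) (c (x 0) (x 3)) (c (x 2) (x 3)) = ∑ x, F x := by
    rw [← sum_perm ![0, 1, 4, 2, 3] (by decide) F]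
    refine Finset.sum_congr rfl fun x _ => ?_
    change _ = fA T (c (x 0) (x 1)) (c (x 0) (x 4)) (c (x 1) (x 4)) (c (x 0) (x 2)) (c (x 0) (x 3)) (c (x 2) (x 3))
    rfl
  have h3 : ∑ x : Fin 5 → V, fA T (c (x 0) (x 1)) (c (x 1) (x 2)) (c (x 0) (x 2)) (c (x 1) (x 3)) (c (x 1) (x 4)) (c (x 3) (x 4)) = ∑ x, F x := by
    rw [← sum_perm ![1, 0, 2, 3, 4] (by decide) F]
    refine Finset.sum_congr rfl fun x _ => ?_
    change _ = fA T (c (x 1) (x 0)) (c (x 1) (x 2)) (c (x 0) (x 2)) (c (x 1) (x 3)) (c (x 1) (x 4)) (c (x 3) (x 4))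
    rw [hc (x 1) (x 0)]
  have h4 : ∑ x : Fin 5 → V, fA T (c (x 0) (x 1)) (c (x 1) (x 3)) (c (x 0) (x 3)) (c (x 1) (x 2)) (c (x 1) (x 4)) (c (x 2) (x 4)) = ∑ x, F x := by
    rw [← sum_perm ![1, 0, 3, 2, 4] (by decide) F]
    refine Finset.sum_congr rfl fun x _ => ?_
    change _ = fA T (c (x 1) (x 0)) (c (x 1) (x 3)) (c (x 0) (x 3)) (c (x 1) (x 2)) (c (x 1) (x 4)) (c (x 2) (x 4))
    rw [hc (x 1) (x 0)]
  have h5 : ∑ x : Fin 5 → V, fA T (c (x 0) (x 1)) (c (x 1) (x 4)) (c (x 0) (x 4)) (c (x 1) (x 2)) (c (x 1) (x 3)) (c (x 2) (x 3)) = ∑ x, F x := by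
    rw [← sum_perm ![1, 0, 4, 2, 3] (by decide) F]
    refine Finset.sum_congr rfl fun x _ => ?_
    change _ = fA T (c (x 1) (x 0)) (c (x 1) (x 4)) (c (x 0) (x 4)) (c (x 1) (x 2)) (c (x 1) (x 3)) (c (x 2) (x 3))
    rw [hc (x 1) (x 0)]
  have h6 : ∑ x : Fin 5 → V, fA T (c (x 0) (x 2)) (c (x 1) (x 2)) (c (x 0) (x 1)) (c (x 2) (x 3)) (c (x 2) (x 4)) (c (x 3) (x 4)) = ∑ x, F x := by
    rw [← sum_perm ![2, 0, 1, 3, 4] (by decide) F]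
    refine Finset.sum_congr rfl fun x _ => ?_
    change _ = fA T (c (x 2) (x 0)) (c (x 2) (x 1)) (c (x 0) (x 1)) (c (x 2) (x 3)) (c (x 2) (x 4)) (c (x 3) (x 4))
    rw [hc (x 2) (x 0), hc (x 2) (x 1)]
  have h7 : ∑ x : Fin 5 → V, fA T (c (x 0) (x 2)) (c (x 2) (x 3)) (c (x 0) (x 3)) (c (x 1) (x 2)) (c (x 2) (x 4)) (c (x 1) (x 4)) = ∑ x, F x := by
    rw [← sum_perm ![2, 0, 3, 1, 4] (by decide) F]
    refine Finset.sum_congr rfl fun x _ => ?_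
    change _ = fA T (c (x 2) (x 0)) (c (x 2) (x 3)) (c (x 0) (x 3)) (c (x 2) (x 1)) (c (x 2) (x 4)) (c (x 1) (x 4))
    rw [hc (x 2) (x 0), hc (x 2) (x 1)]
  have h8 : ∑ x : Fin 5 → V, fA T (c (x 0) (x 2)) (c (x 2) (x 4)) (c (x 0) (x 4)) (c (x 1) (x 2)) (c (x 2) (x 3)) (c (x 1) (x 3)) = ∑ x, F x := by
    rw [← sum_perm ![2, 0, 4, 1, 3] (by decide) F]
    refine Finset.sum_congr rfl fun x _ => ?_
    change _ = fA T (c (x 2) (x 0)) (c (x 2) (x 4)) (c (x 0) (x 4)) (c (x 2) (x 1)) (c (x 2) (x 3)) (c (x 1) (x 3))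
    rw [hc (x 2) (x 0), hc (x 2) (x 1)]
  have h9 : ∑ x : Fin 5 → V, fA T (c (x 0) (x 3)) (c (x 1) (x 3)) (c (x 0) (x 1)) (c (x 2) (x 3)) (c (x 3) (x 4)) (c (x 2) (x 4)) = ∑ x, F x := by
    rw [← sum_perm ![3, 0, 1, 2, 4] (by decide) F]
    refine Finset.sum_congr rfl fun x _ => ?_
    change _ = fA T (c (x 3) (x 0)) (c (x 3) (x 1)) (c (x 0) (x 1)) (c (x 3) (x 2)) (c (x 3) (x 4)) (c (x 2) (x 4))
    rw [hc (x 3) (x 0), hc (x 3) (x 1), hc (x 3) (x 2)]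
  have h10 : ∑ x : Fin 5 → V, fA T (c (x 0) (x 3)) (c (x 2) (x 3)) (c (x 0) (x 2)) (c (x 1) (x 3)) (c (x 3) (x 4)) (c (x 1) (x 4)) = ∑ x, F x := by
    rw [← sum_perm ![3, 0, 2, 1, 4] (by decide) F]
    refine Finset.sum_congr rfl fun x _ => ?_
    change _ = fA T (c (x 3) (x 0)) (c (x 3) (x 2)) (c (x 0) (x 2)) (c (x 3) (x 1)) (c (x 3) (x 4)) (c (x 1) (x 4))
    rw [hc (x 3) (x 0), hc (x 3) (x 2), hc (x 3) (x 1)]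
  have h11 : ∑ x : Fin 5 → V, fA T (c (x 0) (x 3)) (c (x 3) (x 4)) (c (x 0) (x 4)) (c (x 1) (x 3)) (c (x 2) (x 3)) (c (x 1) (x 2)) = ∑ x, F x := by
    rw [← sum_perm ![3, 0, 4, 1, 2] (by decide) F]
    refine Finset.sum_congr rfl fun x _ => ?_
    change _ = fA T (c (x 3) (x 0)) (c (x 3) (x 4)) (c (x 0) (x 4)) (c (x 3) (x 1)) (c (x 3) (x 2)) (c (x 1) (x 2))
    rw [hc (x 3) (x 0), hc (x 3) (x 1), hc (x 3) (x 2)]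
  have h12 : ∑ x : Fin 5 → V, fA T (c (x 0) (x 4)) (c (x 1) (x 4)) (c (x 0) (x 1)) (c (x 2) (x 4)) (c (x 3) (x 4)) (c (x 2) (x 3)) = ∑ x, F x := by
    rw [← sum_perm ![4, 0, 1, 2, 3] (by decide) F]
    refine Finset.sum_congr rfl fun x _ => ?_
    change _ = fA T (c (x 4) (x 0)) (c (x 4) (x 1)) (c (x 0) (x 1)) (c (x 4) (x 2)) (c (x 4) (x 3)) (c (x 2) (x 3))
    rw [hc (x 4) (x 0), hc (x 4) (x 1), hc (x 4) (x 2), hc (x 4) (x 3)]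
  have h13 : ∑ x : Fin 5 → V, fA T (c (x 0) (x 4)) (c (x 2) (x 4)) (c (x 0) (x 2)) (c (x 1) (x 4)) (c (x 3) (x 4)) (c (x 1) (x 3)) = ∑ x, F x := by
    rw [← sum_perm ![4, 0, 2, 1, 3] (by decide) F]
    refine Finset.sum_congr rfl fun x _ => ?_
    change _ = fA T (c (x 4) (x 0)) (c (x 4) (x 2)) (c (x 0) (x 2)) (c (x 4) (x 1)) (c (x 4) (x 3)) (c (x 1) (x 3))
    rw [hc (x 4) (x 0), hc (x 4) (x 2), hc (x 4) (x 1), hc (x 4) (x 3)]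
  have h14 : ∑ x : Fin 5 → V, fA T (c (x 0) (x 4)) (c (x 3) (x 4)) (c (x 0) (x 3)) (c (x 1) (x 4)) (c (x 2) (x 4)) (c (x 1) (x 2)) = ∑ x, F x := by
    rw [← sum_perm ![4, 0, 3, 1, 2] (by decide) F]
    refine Finset.sum_congr rfl fun x _ => ?_
    change _ = fA T (c (x 4) (x 0)) (c (x 4) (x 3)) (c (x 0) (x 3)) (c (x 4) (x 1)) (c (x 4) (x 2)) (c (x 1) (x 2))
    rw [hc (x 4) (x 0), hc (x 4) (x 3), hc (x 4) (x 1), hc (x 4) (x 2)]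
  change _ = 15 * ∑ x, F x
  simp only [SA, Nat.add_eq, Finset.sum_add_distrib]
  rw [h0, h1, h2, h3, h4, h5, h6, h7, h8, h9, h10, h11, h12, h13, h14]
  ring

theorem sum_SB (tb : ℕ → ℕ → ℕ → ℕ) (c : V → V → Fin 3) (hc : ∀ x y, c x y = c y x) :
    ∑ x : Fin 5 → V, SB tb (c (x 0) (x 1)) (c (x 0) (x 2)) (c (x 1) (x 2)) (c (x 0) (x 3)) (c (x 1) (x 3)) (c (x 2) (x 3)) (c (x 0) (x 4)) (c (x 1) (x 4)) (c (x 2) (x 4)) (c (x 3) (x 4)) =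
      10 * ∑ x : Fin 5 → V, fB tb (c (x 0) (x 1)) (c (x 0) (x 2)) (c (x 1) (x 2)) (c (x 0) (x 3)) (c (x 1) (x 3)) (c (x 2) (x 3)) (c (x 0) (x 4)) (c (x 1) (x 4)) (c (x 2) (x 4)) := by
  let F : (Fin 5 → V) → ℕ := fun x => fB tb (c (x 0) (x 1)) (c (x 0) (x 2)) (c (x 1) (x 2)) (c (x 0) (x 3)) (c (x 1) (x 3)) (c (x 2) (x 3)) (c (x 0) (x 4)) (c (x 1) (x 4)) (c (x 2) (x 4))
  have h0 : ∑ x : Fin 5 → V, fB tb (c (x 0) (x 1)) (c (x 0) (x 2)) (c (x 1) (x 2)) (c (x 0) (x 3)) (c (x 1) (x 3)) (c (x 2) (x 3)) (c (x 0) (x 4)) (c (x 1) (x 4)) (c (x 2) (x 4)) = ∑ x, F x := rfl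
  have h1 : ∑ x : Fin 5 → V, fB tb (c (x 0) (x 1)) (c (x 0) (x 3)) (c (x 1) (x 3)) (c (x 0) (x 2)) (c (x 1) (x 2)) (c (x 2) (x 3)) (c (x 0) (x 4)) (c (x 1) (x 4)) (c (x 3) (x 4)) = ∑ x, F x := by
    rw [← sum_perm ![0, 1, 3, 2, 4] (by decide) F]
    refine Finset.sum_congr rfl fun x _ => ?_
    change _ = fB tb (c (x 0) (x 1)) (c (x 0) (x 3)) (c (x 1) (x 3)) (c (x 0) (x 2)) (c (x 1) (x 2)) (c (x 3) (x 2)) (c (x 0) (x 4)) (c (x 1) (x 4)) (c (x 3) (x 4))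
    rw [hc (x 3) (x 2)]
  have h2 : ∑ x : Fin 5 → V, fB tb (c (x 0) (x 1)) (c (x 0) (x 4)) (c (x 1) (x 4)) (c (x 0) (x 2)) (c (x 1) (x 2)) (c (x 2) (x 4)) (c (x 0) (x 3)) (c (x 1) (x 3)) (c (x 3) (x 4)) = ∑ x, F x := by
    rw [← sum_perm ![0, 1, 4, 2, 3] (by decide) F]
    refine Finset.sum_congr rfl fun x _ => ?_
    change _ = fB tb (c (x 0) (x 1)) (c (x 0) (x 4)) (c (x 1) (x 4)) (c (x 0) (x 2)) (c (x 1) (x 2)) (c (x 4) (x 2)) (c (x 0) (x 3)) (c (x 1) (x 3)) (c (x 4) (x 3))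
    rw [hc (x 4) (x 2), hc (x 4) (x 3)]
  have h3 : ∑ x : Fin 5 → V, fB tb (c (x 0) (x 2)) (c (x 0) (x 3)) (c (x 2) (x 3)) (c (x 0) (x 1)) (c (x 1) (x 2)) (c (x 1) (x 3)) (c (x 0) (x 4)) (c (x 2) (x 4)) (c (x 3) (x 4)) = ∑ x, F x := by
    rw [← sum_perm ![0, 2, 3, 1, 4] (by decide) F]
    refine Finset.sum_congr rfl fun x _ => ?_
    change _ = fB tb (c (x 0) (x 2)) (c (x 0) (x 3)) (c (x 2) (x 3)) (c (x 0) (x 1)) (c (x 2) (x 1)) (c (x 3) (x 1)) (c (x 0) (x 4)) (c (x 2) (x 4)) (c (x 3) (x 4))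
    rw [hc (x 2) (x 1), hc (x 3) (x 1)]
  have h4 : ∑ x : Fin 5 → V, fB tb (c (x 0) (x 2)) (c (x 0) (x 4)) (c (x 2) (x 4)) (c (x 0) (x 1)) (c (x 1) (x 2)) (c (x 1) (x 4)) (c (x 0) (x 3)) (c (x 2) (x 3)) (c (x 3) (x 4)) = ∑ x, F x := by
    rw [← sum_perm ![0, 2, 4, 1, 3] (by decide) F]
    refine Finset.sum_congr rfl fun x _ => ?_
    change _ = fB tb (c (x 0) (x 2)) (c (x 0) (x 4)) (c (x 2) (x 4)) (c (x 0) (x 1)) (c (x 2) (x 1)) (c (x 4) (x 1)) (c (x 0) (x 3)) (c (x 2) (x 3)) (c (x 4) (x 3))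
    rw [hc (x 2) (x 1), hc (x 4) (x 1), hc (x 4) (x 3)]
  have h5 : ∑ x : Fin 5 → V, fB tb (c (x 0) (x 3)) (c (x 0) (x 4)) (c (x 3) (x 4)) (c (x 0) (x 1)) (c (x 1) (x 3)) (c (x 1) (x 4)) (c (x 0) (x 2)) (c (x 2) (x 3)) (c (x 2) (x 4)) = ∑ x, F x := by
    rw [← sum_perm ![0, 3, 4, 1, 2] (by decide) F]
    refine Finset.sum_congr rfl fun x _ => ?_
    change _ = fB tb (c (x 0) (x 3)) (c (x 0) (x 4)) (c (x 3) (x 4)) (c (x 0) (x 1)) (c (x 3) (x 1)) (c (x 4) (x 1)) (c (x 0) (x 2)) (c (x 3) (x 2)) (c (x 4) (x 2))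
    rw [hc (x 3) (x 1), hc (x 4) (x 1), hc (x 3) (x 2), hc (x 4) (x 2)]
  have h6 : ∑ x : Fin 5 → V, fB tb (c (x 1) (x 2)) (c (x 1) (x 3)) (c (x 2) (x 3)) (c (x 0) (x 1)) (c (x 0) (x 2)) (c (x 0) (x 3)) (c (x 1) (x 4)) (c (x 2) (x 4)) (c (x 3) (x 4)) = ∑ x, F x := by
    rw [← sum_perm ![1, 2, 3, 0, 4] (by decide) F]
    refine Finset.sum_congr rfl fun x _ => ?_
    change _ = fB tb (c (x 1) (x 2)) (c (x 1) (x 3)) (c (x 2) (x 3)) (c (x 1) (x 0)) (c (x 2) (x 0)) (c (x 3) (x 0)) (c (x 1) (x 4)) (c (x 2) (x 4)) (c (x 3) (x 4))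
    rw [hc (x 1) (x 0), hc (x 2) (x 0), hc (x 3) (x 0)]
  have h7 : ∑ x : Fin 5 → V, fB tb (c (x 1) (x 2)) (c (x 1) (x 4)) (c (x 2) (x 4)) (c (x 0) (x 1)) (c (x 0) (x 2)) (c (x 0) (x 4)) (c (x 1) (x 3)) (c (x 2) (x 3)) (c (x 3) (x 4)) = ∑ x, F x := by
    rw [← sum_perm ![1, 2, 4, 0, 3] (by decide) F]
    refine Finset.sum_congr rfl fun x _ => ?_
    change _ = fB tb (c (x 1) (x 2)) (c (x 1) (x 4)) (c (x 2) (x 4)) (c (x 1) (x 0)) (c (x 2) (x 0)) (c (x 4) (x 0)) (c (x 1) (x 3)) (c (x 2) (x 3)) (c (x 4) (x 3))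
    rw [hc (x 1) (x 0), hc (x 2) (x 0), hc (x 4) (x 0), hc (x 4) (x 3)]
  have h8 : ∑ x : Fin 5 → V, fB tb (c (x 1) (x 3)) (c (x 1) (x 4)) (c (x 3) (x 4)) (c (x 0) (x 1)) (c (x 0) (x 3)) (c (x 0) (x 4)) (c (x 1) (x 2)) (c (x 2) (x 3)) (c (x 2) (x 4)) = ∑ x, F x := by
    rw [← sum_perm ![1, 3, 4, 0, 2] (by decide) F]
    refine Finset.sum_congr rfl fun x _ => ?_
    change _ = fB tb (c (x 1) (x 3)) (c (x 1) (x 4)) (c (x 3) (x 4)) (c (x 1) (x 0)) (c (x 3) (x 0)) (c (x 4) (x 0)) (c (x 1) (x 2)) (c (x 3) (x 2)) (c (x 4) (x 2))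
    rw [hc (x 1) (x 0), hc (x 3) (x 0), hc (x 4) (x 0), hc (x 3) (x 2), hc (x 4) (x 2)]
  have h9 : ∑ x : Fin 5 → V, fB tb (c (x 2) (x 3)) (c (x 2) (x 4)) (c (x 3) (x 4)) (c (x 0) (x 2)) (c (x 0) (x 3)) (c (x 0) (x 4)) (c (x 1) (x 2)) (c (x 1) (x 3)) (c (x 1) (x 4)) = ∑ x, F x := by
    rw [← sum_perm ![2, 3, 4, 0, 1] (by decide) F]
    refine Finset.sum_congr rfl fun x _ => ?_
    change _ = fB tb (c (x 2) (x 3)) (c (x 2) (x 4)) (c (x 3) (x 4)) (c (x 2) (x 0)) (c (x 3) (x 0)) (c (x 4) (x 0)) (c (x 2) (x 1)) (c (x 3) (x 1)) (c (x 4) (x 1))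
    rw [hc (x 2) (x 0), hc (x 3) (x 0), hc (x 4) (x 0), hc (x 2) (x 1), hc (x 3) (x 1), hc (x 4) (x 1)]
  change _ = 10 * ∑ x, F x
  simp only [SB, Nat.add_eq, Finset.sum_add_distrib]
  rw [h0, h1, h2, h3, h4, h5, h6, h7, h8, h9]
  ring

/-- the bound for the sums over all 5-tuples -/
theorem sum_bound {T : ℕ} {tb : ℕ → ℕ → ℕ → ℕ} {CAP : ℕ} (hA : symA T = true) (hB : symB tb = true)
    (hb : bnd T tb CAP = true) (c : V → V → Fin 3) (hc : ∀ x y, c x y = c y x) :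
    15 * (∑ x0, ∑ x1, ∑ x2, ∑ x3, ∑ x4, fA T (c x0 x1) (c x0 x2) (c x1 x2) (c x0 x3) (c x0 x4) (c x3 x4)) +
    10 * (∑ x0, ∑ x1, ∑ x2, ∑ x3, ∑ x4,
      fB tb (c x0 x1) (c x0 x2) (c x1 x2) (c x0 x3) (c x1 x3) (c x2 x3) (c x0 x4) (c x1 x4) (c x2 x4)) ≤
    CAP * Fintype.card V ^ 5 := by
  have h1 : ∑ x : Fin 5 → V, S T tb (c (x 0) (x 1)) (c (x 0) (x 2)) (c (x 1) (x 2)) (c (x 0) (x 3)) (c (x 1) (x 3)) (c (x 2) (x 3)) (c (x 0) (x 4)) (c (x 1) (x 4)) (c (x 2) (x 4)) (c (x 3) (x 4)) ≤ CAP * Fintype.card V ^ 5 := by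
    calc _ ≤ ∑ _x : Fin 5 → V, CAP := Finset.sum_le_sum fun x _ =>
            pointwise (SymT.of hA hB) hb _ _ _ _ _ _ _ _ _ _
      _ = CAP * Fintype.card V ^ 5 := by
        rw [Finset.sum_const, Finset.card_univ, Fintype.card_fun, Fintype.card_fin, smul_eq_mul, mul_comm]
  simp only [S, Nat.add_eq, Finset.sum_add_distrib] at h1
  rw [sum_SA T c hc, sum_SB tb c hc] at h1
  rw [sum5 (fun x0 x1 x2 x3 x4 => fA T (c x0 x1) (c x0 x2) (c x1 x2) (c x0 x3) (c x0 x4) (c x3 x4)),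
    sum5 (fun x0 x1 x2 x3 x4 => fB tb (c x0 x1) (c x0 x2) (c x1 x2) (c x0 x3) (c x1 x3) (c x2 x3)
      (c x0 x4) (c x1 x4) (c x2 x4))] at h1
  exact h1

end Pool.Agent.C44
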